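import Pool.Agent.IsoHull27.Defs

/-!
# IsoHull27, package A1: lower semicontinuity w.r.t. `C¹` approximations (MP_b478d8_an)
-/

open MeasureTheory Set Filter Topology
open scoped ENNReal NNReal

namespace IsoHull

/-- product of a function continuous on `Ω` with a continuous one whose support is in `Ω` -/
theorem A1_continuous_mul {n : ℕ} {Ω : Set (Eu n)} (hΩ : IsOpen Ω) {u w : Eu n → ℝ}
    (hu : ContinuousOn u Ω) (hw : Continuous w) (hs : tsupport w ⊆ Ω) :
    Continuous fun x => u x * w x := by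
  rw [continuous_iff_continuousAt]
  intro x
  by_cases hx : x ∈ Ω
  · exact (hu.continuousAt (hΩ.mem_nhds hx)).mul hw.continuousAt
  · have hx' : x ∉ tsupport w := fun h => hx (hs h)
    have h1 : w =ᶠ[𝓝 x] 0 := notMem_tsupport_iff_eventuallyEq.1 hx'
    have h2 : (fun x => u x * w x) =ᶠ[𝓝 x] fun _ => 0 := by
      filter_upwards [h1] with y hy
      rw [hy]; simp
    exact (continuousAt_const).congr h2.symm

theorem A1_integrable_mul {n : ℕ} {Ω : Set (Eu n)} (hΩ : IsOpen Ω) {u w : Eu n → ℝ}
    (hu : ContinuousOn u Ω) (hw : Continuous w) (hc : HasCompactSupport w) (hs : tsupport w ⊆ Ω) :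
    Integrable fun x => u x * w x :=
  (A1_continuous_mul hΩ hu hw hs).integrable_of_hasCompactSupport hc.mul_left

/-- the `i`-th coordinate of a test field -/
theorem A1_coord {n : ℕ} {X : Eu n → Eu n} (hX : ContDiff ℝ 1 X) (i : Fin n) :
    ContDiff ℝ 1 fun x => X x i := by
  exact (contDiff_euclidean.1 hX) i

theorem A1_fderiv_coord {n : ℕ} {X : Eu n → Eu n} (hX : ContDiff ℝ 1 X) (i : Fin n) (x v : Eu n) :
    fderiv ℝ (fun x => X x i) x v = (fderiv ℝ X x v) i := by
  have h1 : HasFDerivAt X (fderiv ℝ X x) x := (hX.differentiable (by norm_num) x).hasFDerivAt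
  have h2 := (EuclideanSpace.proj (𝕜 := ℝ) i).hasFDerivAt.comp x h1
  have h3 : fderiv ℝ (fun x => X x i) x = (EuclideanSpace.proj (𝕜 := ℝ) i).comp (fderiv ℝ X x) :=
    h2.fderiv
  rw [h3]
  rfl

theorem A1_tsupport_coord {n : ℕ} (X : Eu n → Eu n) (i : Fin n) :
    tsupport (fun x => X x i) ⊆ tsupport X := by
  apply closure_mono
  intro x hx
  rw [Function.mem_support] at hx ⊢
  intro h
  apply hx
  rw [h]; rfl

theorem A1_compact_coord {n : ℕ} {X : Eu n → Eu n} (hX : HasCompactSupport X) (i : Fin n) :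
    HasCompactSupport (fun x => X x i) :=
  IsCompact.of_isClosed_subset hX (isClosed_tsupport _) (A1_tsupport_coord X i)

theorem A1_tsupport_fderiv {n : ℕ} (g : Eu n → ℝ) (v : Eu n) :
    tsupport (fun x => fderiv ℝ g x v) ⊆ tsupport g := by
  have h1 : tsupport (fderiv ℝ g) ⊆ tsupport g := tsupport_fderiv_subset ℝ
  refine Subset.trans (closure_mono ?_) h1
  intro x hx
  rw [Function.mem_support] at hx ⊢
  intro h
  apply hx
  rw [h]; rfl

theorem A1_sum_coord {n : ℕ} (v : Eu n) : ∑ i, v i • (EuclideanSpace.single i (1 : ℝ) : Eu n) = v := by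
  ext j
  simp only [WithLp.ofLp_sum, WithLp.ofLp_smul, Finset.sum_apply, Pi.smul_apply, smul_eq_mul,
    PiLp.single_apply]
  simp

/-- integration by parts against a test field -/
theorem A1_ibp {n : ℕ} {Ω : Set (Eu n)} (hΩ : IsOpen Ω) {f : Eu n → ℝ} (hf : ContDiffOn ℝ 1 f Ω)
    {X : Eu n → Eu n} (hX : TestField Ω X) :
    Integrable (fun x => f x * divg X x) ∧
    ∫ x in Ω, f x * divg X x = - ∫ x in Ω, fderiv ℝ f x (X x) := by
  obtain ⟨hX1, hX2, hX3, hX4⟩ := hX
  have hfc : ContinuousOn f Ω := hf.continuousOn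
  have hdf : ContinuousOn (fderiv ℝ f) Ω := hf.continuousOn_fderiv_of_isOpen hΩ le_rfl
  have hdfv : ∀ v, ContinuousOn (fun x => fderiv ℝ f x v) Ω := fun v =>
    hdf.clm_apply continuousOn_const
  have hti : ∀ i, tsupport (fun x => X x i) ⊆ Ω := fun i => (A1_tsupport_coord X i).trans hX3
  have hci : ∀ i, Continuous fun x => X x i := fun i => (A1_coord hX1 i).continuous
  have hki : ∀ i, HasCompactSupport fun x => X x i := fun i => A1_compact_coord hX2 i
  have hdc : ∀ i, Continuous fun x => fderiv ℝ (fun x => X x i) x (EuclideanSpace.single i 1) :=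
    fun i => ((A1_coord hX1 i).continuous_fderiv (by norm_num)).clm_apply continuous_const
  have hdt : ∀ i, tsupport (fun x => fderiv ℝ (fun x => X x i) x (EuclideanSpace.single i 1)) ⊆
      tsupport (fun x => X x i) := fun i => A1_tsupport_fderiv _ _
  have hdk : ∀ i, HasCompactSupport
      (fun x => fderiv ℝ (fun x => X x i) x (EuclideanSpace.single i 1)) := fun i =>
    IsCompact.of_isClosed_subset (hki i) (isClosed_tsupport _) (hdt i)
  have i1 : ∀ i, Integrable (fun x => f x *
      fderiv ℝ (fun x => X x i) x (EuclideanSpace.single i 1)) := fun i =>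
    A1_integrable_mul hΩ hfc (hdc i) (hdk i) ((hdt i).trans (hti i))
  have i2 : ∀ i, Integrable (fun x => fderiv ℝ f x (EuclideanSpace.single i 1) * X x i) := fun i =>
    A1_integrable_mul hΩ (hdfv _) (hci i) (hki i) (hti i)
  have i3 : ∀ i, Integrable (fun x => f x * X x i) := fun i =>
    A1_integrable_mul hΩ hfc (hci i) (hki i) (hti i)
  have key : ∀ i, ∫ x, f x * fderiv ℝ (fun x => X x i) x (EuclideanSpace.single i 1) =
      - ∫ x, fderiv ℝ f x (EuclideanSpace.single i 1) * X x i := fun i =>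
    integral_mul_fderiv_eq_neg_fderiv_mul_of_integrable (i2 i) (i1 i) (i3 i)
      (fun x hx => (hf.contDiffAt (hΩ.mem_nhds (hti i hx))).differentiableAt (by norm_num))
      (fun x _ => (A1_coord hX1 i).differentiable (by norm_num) x)
  have e1 : (fun x => f x * divg X x) = fun x => ∑ i, f x *
      fderiv ℝ (fun x => X x i) x (EuclideanSpace.single i 1) := by
    funext x
    unfold divg
    rw [Finset.mul_sum]
    refine Finset.sum_congr rfl fun i _ => ?_
    rw [A1_fderiv_coord hX1]
  have e2 : (fun x => fderiv ℝ f x (X x)) = fun x => ∑ i,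
      fderiv ℝ f x (EuclideanSpace.single i 1) * X x i := by
    funext x
    conv_lhs => rw [← A1_sum_coord (X x)]
    rw [map_sum]
    refine Finset.sum_congr rfl fun i _ => ?_
    rw [map_smul, smul_eq_mul, mul_comm]
  have hI : Integrable (fun x => f x * divg X x) := by
    rw [e1]
    exact integrable_finsetSum _ fun i _ => i1 i
  refine ⟨hI, ?_⟩
  have s1 : ∫ x in Ω, f x * divg X x = ∫ x, f x * divg X x := by
    apply setIntegral_eq_integral_of_forall_compl_eq_zero
    intro x hx
    have h : divg X x = 0 := by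
      unfold divg
      refine Finset.sum_eq_zero fun i _ => ?_
      have : fderiv ℝ X x = 0 := by
        apply image_eq_zero_of_notMem_tsupport
        exact fun h => hx (hX3 (tsupport_fderiv_subset ℝ h))
      rw [this]; rfl
    rw [h, mul_zero]
  have s2 : ∫ x in Ω, fderiv ℝ f x (X x) = ∫ x, fderiv ℝ f x (X x) := by
    apply setIntegral_eq_integral_of_forall_compl_eq_zero
    intro x hx
    have : X x = 0 := image_eq_zero_of_notMem_tsupport fun h => hx (hX3 h)
    rw [this, map_zero]
  rw [s1, s2, e1, e2, integral_finsetSum _ (fun i _ => i1 i), integral_finsetSum _ (fun i _ => i2 i),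
    ← Finset.sum_neg_distrib]
  exact Finset.sum_congr rfl fun i _ => key i

theorem A1_divg_continuous {n : ℕ} {X : Eu n → Eu n} (hX : ContDiff ℝ 1 X) :
    Continuous (divg X) := by
  have : divg X = fun x => ∑ i, fderiv ℝ (fun x => X x i) x (EuclideanSpace.single i 1) := by
    funext x
    unfold divg
    refine Finset.sum_congr rfl fun i _ => ?_
    rw [A1_fderiv_coord hX]
  rw [this]
  exact continuous_finsetSum _ fun i _ =>
    ((A1_coord hX i).continuous_fderiv (by norm_num)).clm_apply continuous_const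

theorem A1_divg_compact {n : ℕ} {X : Eu n → Eu n} (hX : HasCompactSupport X) :
    HasCompactSupport (divg X) := by
  refine IsCompact.of_isClosed_subset hX (isClosed_tsupport _) ?_
  have h1 : tsupport (fderiv ℝ X) ⊆ tsupport X := tsupport_fderiv_subset ℝ
  refine Subset.trans (closure_mono ?_) h1
  intro x hx
  rw [Function.mem_support] at hx ⊢
  intro h
  apply hx
  unfold divg
  rw [h]
  simp

/-- A1 -/
theorem relPer_le_of_approx {n : ℕ} {Ω E : Set (Eu n)} (hΩ : IsOpen Ω) (hE : MeasurableSet E)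
    (hEΩ : E ⊆ Ω) (f : ℕ → Eu n → ℝ) (hf : ∀ k, ContDiffOn ℝ 1 (f k) Ω)
    (hL : Tendsto (fun k => ∫⁻ x in Ω, ‖f k x - E.indicator (fun _ => (1 : ℝ)) x‖ₑ) atTop (𝓝 0))
    (B : ℝ≥0∞) (hB : ∀ k, ∫⁻ x in Ω, ‖fderiv ℝ (f k) x‖ₑ ≤ B) :
    relPer Ω E ≤ B := by
  unfold relPer
  refine iSup_le fun X => iSup_le fun hX => ?_
  have hdc := A1_divg_continuous hX.1
  have hdk := A1_divg_compact hX.2.1
  have hdI : Integrable (divg X) := hdc.integrable_of_hasCompactSupport hdk
  obtain ⟨C, hC⟩ := hdk.exists_bound_of_continuous hdc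
  have hC0 : 0 ≤ C := (norm_nonneg _).trans (hC 0)
  have hInd : Integrable (fun x => E.indicator (fun _ => (1 : ℝ)) x * divg X x) := by
    have : (fun x => E.indicator (fun _ => (1 : ℝ)) x * divg X x) = E.indicator (divg X) := by
      funext x
      by_cases hx : x ∈ E <;> simp [hx]
    rw [this]
    exact hdI.indicator hE
  have hmain : ∀ k, ENNReal.ofReal (∫ x in E, divg X x) ≤
      B + ENNReal.ofReal C * ∫⁻ x in Ω, ‖f k x - E.indicator (fun _ => (1 : ℝ)) x‖ₑ := by
    intro k
    obtain ⟨hI, hibp⟩ := A1_ibp hΩ (hf k) hX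
    have e1 : ∫ x in E, divg X x = ∫ x in Ω, E.indicator (fun _ => (1 : ℝ)) x * divg X x := by
      have h1 : (fun x => E.indicator (fun _ => (1 : ℝ)) x * divg X x) = E.indicator (divg X) := by
        funext x
        by_cases hx : x ∈ E <;> simp [hx]
      rw [h1, setIntegral_indicator hE, inter_eq_self_of_subset_right hEΩ]
    have e2 : ∫ x in E, divg X x = (∫ x in Ω, f k x * divg X x) -
        ∫ x in Ω, (f k x - E.indicator (fun _ => (1 : ℝ)) x) * divg X x := by
      rw [e1, ← integral_sub hI.integrableOn]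
      · congr 1
        funext x
        ring
      · have : (fun x => (f k x - E.indicator (fun _ => (1 : ℝ)) x) * divg X x) =
            fun x => f k x * divg X x - E.indicator (fun _ => (1 : ℝ)) x * divg X x := by
          funext x; ring
        rw [this]
        exact (hI.sub hInd).integrableOn
    rw [e2, hibp]
    have b1 : ENNReal.ofReal (-∫ x in Ω, fderiv ℝ (f k) x (X x)) ≤ B := by
      calc ENNReal.ofReal (-∫ x in Ω, fderiv ℝ (f k) x (X x))
          ≤ ‖-∫ x in Ω, fderiv ℝ (f k) x (X x)‖ₑ := by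
            rw [Real.enorm_eq_ofReal_abs]
            exact ENNReal.ofReal_le_ofReal (le_abs_self _)
        _ = ‖∫ x in Ω, fderiv ℝ (f k) x (X x)‖ₑ := enorm_neg _
        _ ≤ ∫⁻ x in Ω, ‖fderiv ℝ (f k) x (X x)‖ₑ := enorm_integral_le_lintegral_enorm _
        _ ≤ ∫⁻ x in Ω, ‖fderiv ℝ (f k) x‖ₑ := by
            refine lintegral_mono fun x => ?_
            have h1 : ‖fderiv ℝ (f k) x (X x)‖ ≤ ‖fderiv ℝ (f k) x‖ := by
              calc ‖fderiv ℝ (f k) x (X x)‖ ≤ ‖fderiv ℝ (f k) x‖ * ‖X x‖ :=
                    ContinuousLinearMap.le_opNorm _ _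
                _ ≤ ‖fderiv ℝ (f k) x‖ * 1 :=
                    mul_le_mul_of_nonneg_left (hX.2.2.2 x) (norm_nonneg _)
                _ = ‖fderiv ℝ (f k) x‖ := mul_one _
            rw [← ofReal_norm, ← ofReal_norm]
            exact ENNReal.ofReal_le_ofReal h1
        _ ≤ B := hB k
    have b2 : ENNReal.ofReal (-∫ x in Ω, (f k x - E.indicator (fun _ => (1 : ℝ)) x) * divg X x) ≤
        ENNReal.ofReal C * ∫⁻ x in Ω, ‖f k x - E.indicator (fun _ => (1 : ℝ)) x‖ₑ := by
      calc ENNReal.ofReal (-∫ x in Ω, (f k x - E.indicator (fun _ => (1 : ℝ)) x) * divg X x)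
          ≤ ‖-∫ x in Ω, (f k x - E.indicator (fun _ => (1 : ℝ)) x) * divg X x‖ₑ := by
            rw [Real.enorm_eq_ofReal_abs]
            exact ENNReal.ofReal_le_ofReal (le_abs_self _)
        _ = ‖∫ x in Ω, (f k x - E.indicator (fun _ => (1 : ℝ)) x) * divg X x‖ₑ := enorm_neg _
        _ ≤ ∫⁻ x in Ω, ‖(f k x - E.indicator (fun _ => (1 : ℝ)) x) * divg X x‖ₑ :=
            enorm_integral_le_lintegral_enorm _
        _ ≤ ∫⁻ x in Ω, ENNReal.ofReal C * ‖f k x - E.indicator (fun _ => (1 : ℝ)) x‖ₑ := by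
            refine lintegral_mono fun x => ?_
            rw [enorm_mul, mul_comm]
            refine mul_le_mul_left ?_ _
            rw [← ofReal_norm]
            exact ENNReal.ofReal_le_ofReal (hC x)
        _ = _ := lintegral_const_mul' _ _ ENNReal.ofReal_ne_top
    calc ENNReal.ofReal ((-∫ x in Ω, fderiv ℝ (f k) x (X x)) -
          ∫ x in Ω, (f k x - E.indicator (fun _ => (1 : ℝ)) x) * divg X x)
        ≤ ENNReal.ofReal (-∫ x in Ω, fderiv ℝ (f k) x (X x)) + ENNReal.ofReal
          (-∫ x in Ω, (f k x - E.indicator (fun _ => (1 : ℝ)) x) * divg X x) := by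
          rw [sub_eq_add_neg]
          exact ENNReal.ofReal_add_le
      _ ≤ _ := add_le_add b1 b2
  have hlim : Tendsto (fun k => B + ENNReal.ofReal C *
      ∫⁻ x in Ω, ‖f k x - E.indicator (fun _ => (1 : ℝ)) x‖ₑ) atTop (𝓝 (B + ENNReal.ofReal C * 0)) := by
    refine Tendsto.const_add B ?_
    exact ENNReal.Tendsto.const_mul hL (Or.inr ENNReal.ofReal_ne_top)
  rw [mul_zero, add_zero] at hlim
  exact ge_of_tendsto' hlim hmain

end IsoHull
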