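import Pool.Agent.IsoHull27.A1

/-!
# IsoHull27, package A2a: the energy of a mollified dilate (MP_b478d8_an)
-/

open MeasureTheory Set Filter Topology
open scoped ENNReal NNReal Convolution

namespace IsoHull

/-- the dilated indicator -/
noncomputable def A2a_g {n : ℕ} (E : Set (Eu n)) (s : ℝ) (z : Eu n) : ℝ :=
  E.indicator (fun _ => (1 : ℝ)) (s • z)

theorem A2a_g_mem {n : ℕ} (E : Set (Eu n)) (s : ℝ) (z : Eu n) :
    0 ≤ A2a_g E s z ∧ A2a_g E s z ≤ 1 := by
  unfold A2a_g
  by_cases h : s • z ∈ E <;> simp [h]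

theorem A2a_g_meas {n : ℕ} {E : Set (Eu n)} (hE : MeasurableSet E) (s : ℝ) :
    Measurable (A2a_g E s) := by
  unfold A2a_g
  exact (measurable_const.indicator hE).comp (measurable_const_smul s)

theorem A2a_g_loc {n : ℕ} {E : Set (Eu n)} (hE : MeasurableSet E) (s : ℝ) :
    LocallyIntegrable (A2a_g E s) volume := by
  have h1 : LocallyIntegrable (fun _ : Eu n => (1 : ℝ)) volume := locallyIntegrable_const _
  refine h1.mono (A2a_g_meas hE s).aestronglyMeasurable (ae_of_all _ fun x => ?_)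
  obtain ⟨h2, h3⟩ := A2a_g_mem E s x
  rw [Real.norm_eq_abs, abs_of_nonneg h2]
  simpa using h3

theorem A2a_smf_eq {n : ℕ} (E : Set (Eu n)) (s : ℝ) (b : ContDiffBump (0 : Eu n)) :
    smf E s b = (b.normed volume) ⋆[ContinuousLinearMap.lsmul ℝ ℝ, volume] (A2a_g E s) := by
  funext x
  rw [convolution_def]
  rfl

theorem A2a_smooth {n : ℕ} {E : Set (Eu n)} (hE : MeasurableSet E) (s : ℝ)
    (b : ContDiffBump (0 : Eu n)) (k : ℕ∞) : ContDiff ℝ k (smf E s b) := by
  rw [A2a_smf_eq]
  exact b.hasCompactSupport_normed.contDiff_convolution_left _ b.contDiff_normed (A2a_g_loc hE s)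

theorem A2a_int {n : ℕ} {E : Set (Eu n)} (hE : MeasurableSet E) (s : ℝ)
    (b : ContDiffBump (0 : Eu n)) (x : Eu n) :
    Integrable (fun y => b.normed volume y * A2a_g E s (x - y)) := by
  refine Integrable.mono b.integrable_normed ?_ (ae_of_all _ fun y => ?_)
  · exact (b.continuous_normed.measurable.mul
      ((A2a_g_meas hE s).comp (measurable_const.sub measurable_id))).aestronglyMeasurable
  · obtain ⟨h2, h3⟩ := A2a_g_mem E s (x - y)
    rw [norm_mul]
    have : ‖A2a_g E s (x - y)‖ ≤ 1 := by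
      rw [Real.norm_eq_abs, abs_of_nonneg h2]; exact h3
    calc _ ≤ ‖b.normed volume y‖ * 1 := mul_le_mul_of_nonneg_left this (norm_nonneg _)
      _ = _ := mul_one _

/-- A2a -/
theorem smf_contDiff {n : ℕ} {E : Set (Eu n)} (hE : MeasurableSet E) (s : ℝ)
    (b : ContDiffBump (0 : Eu n)) : ContDiff ℝ 1 (smf E s b) ∧ ∀ x, smf E s b x ∈ Icc (0 : ℝ) 1 := by
  refine ⟨by exact_mod_cast A2a_smooth hE s b 1, fun x => ⟨?_, ?_⟩⟩
  · exact integral_nonneg fun y => mul_nonneg (b.nonneg_normed y) (A2a_g_mem E s (x - y)).1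
  · calc smf E s b x = ∫ y, b.normed volume y * A2a_g E s (x - y) := rfl
      _ ≤ ∫ y, b.normed volume y := by
        refine integral_mono (A2a_int hE s b x) b.integrable_normed fun y => ?_
        exact mul_le_of_le_one_right (b.nonneg_normed y) (A2a_g_mem E s (x - y)).2
      _ = 1 := b.integral_normed

/-- the mollified field -/
noncomputable def A2a_Y {n : ℕ} (b : ContDiffBump (0 : Eu n)) (X : Eu n → Eu n) : Eu n → Eu n :=
  (b.normed volume) ⋆[ContinuousLinearMap.lsmul ℝ ℝ, volume] X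

theorem A2a_Y_apply {n : ℕ} (b : ContDiffBump (0 : Eu n)) (X : Eu n → Eu n) (z : Eu n) :
    A2a_Y b X z = ∫ y, b.normed volume y • X (z - y) := by
  unfold A2a_Y
  rw [convolution_def]
  rfl

theorem A2a_divg_Y {n : ℕ} (b : ContDiffBump (0 : Eu n)) {X : Eu n → Eu n} (hX : ContDiff ℝ 1 X)
    (hc : HasCompactSupport X) (z : Eu n) :
    ContDiff ℝ 1 (A2a_Y b X) ∧ divg (A2a_Y b X) z = ∫ y, b.normed volume y * divg X (z - y) := by
  have hloc : LocallyIntegrable (b.normed volume : Eu n → ℝ) volume :=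
    b.integrable_normed.locallyIntegrable
  refine ⟨by exact_mod_cast hc.contDiff_convolution_right (n := 1) _ hloc (by exact_mod_cast hX), ?_⟩
  have h1 := (hc.hasFDerivAt_convolution_right (ContinuousLinearMap.lsmul ℝ ℝ) hloc hX z).fderiv
  have hfc : HasCompactSupport (fderiv ℝ X) := hc.fderiv ℝ
  have hcont : Continuous (fderiv ℝ X) := hX.continuous_fderiv (by norm_num)
  have h2 : ∀ v, fderiv ℝ (A2a_Y b X) z v = ∫ y, b.normed volume y • fderiv ℝ X (z - y) v := by
    intro v
    unfold A2a_Y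
    rw [h1, convolution_precompR_apply _ hloc hfc hcont, convolution_def]
    rfl
  have hI : ∀ v, Integrable fun y => b.normed volume y • fderiv ℝ X (z - y) v := by
    intro v
    refine Continuous.integrable_of_hasCompactSupport ?_ ?_
    · exact b.continuous_normed.smul ((hcont.comp (continuous_const.sub continuous_id)).clm_apply
        continuous_const)
    · exact b.hasCompactSupport_normed.smul_right
  have h3 : ∀ i : Fin n, (fderiv ℝ (A2a_Y b X) z (EuclideanSpace.single i 1)) i =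
      ∫ y, b.normed volume y * (fderiv ℝ X (z - y) (EuclideanSpace.single i 1)) i := by
    intro i
    rw [h2]
    have := (EuclideanSpace.proj (𝕜 := ℝ) i).integral_comp_comm
      (hI (EuclideanSpace.single i 1))
    exact this.symm
  unfold divg
  simp_rw [h3]
  rw [← integral_finsetSum]
  · refine integral_congr_ae (ae_of_all _ fun y => ?_)
    simp only [Finset.mul_sum]
  · intro i _
    exact (EuclideanSpace.proj (𝕜 := ℝ) i).integrable_comp (hI (EuclideanSpace.single i 1))

/-- the rescaled field -/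
noncomputable def A2a_X' {n : ℕ} (b : ContDiffBump (0 : Eu n)) (s : ℝ) (X : Eu n → Eu n) (p : Eu n) :
    Eu n := -(A2a_Y b X (s⁻¹ • p))

theorem A2a_test {n : ℕ} {Ω : Set (Eu n)} {s : ℝ} (hs : 0 < s)
    (b : ContDiffBump (0 : Eu n))
    (hsb : ∃ r, b.rOut < r ∧ ∀ x ∈ Ω, ∀ y : Eu n, ‖y‖ ≤ r → s • (x + y) ∈ Ω)
    {X : Eu n → Eu n} (hX : TestField Ω X) : TestField Ω (A2a_X' b s X) := by
  obtain ⟨hX1, hX2, hX3, hX4⟩ := hX
  obtain ⟨r, hr, hsr⟩ := hsb
  have hY := (A2a_divg_Y b hX1 hX2 0).1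
  set K : Set (Eu n) := (fun q : Eu n × Eu n => s • (q.1 + q.2)) ''
    (tsupport X ×ˢ Metric.closedBall 0 b.rOut) with hK
  have hKc : IsCompact K := by
    refine IsCompact.image (IsCompact.prod hX2 (isCompact_closedBall _ _)) ?_
    exact (continuous_fst.add continuous_snd).const_smul s
  have hKΩ : K ⊆ Ω := by
    rintro _ ⟨⟨x, y⟩, ⟨h1, h2⟩, rfl⟩
    refine hsr x (hX3 h1) y ?_
    rw [Metric.mem_closedBall, dist_zero_right] at h2
    exact h2.trans hr.le
  have hsupp : Function.support (A2a_X' b s X) ⊆ K := by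
    intro p hp
    by_contra hpK
    apply hp
    unfold A2a_X'
    rw [A2a_Y_apply, neg_eq_zero]
    refine integral_eq_zero_of_ae (ae_of_all _ fun y => ?_)
    by_cases hy : y ∈ Metric.ball (0 : Eu n) b.rOut
    · have hx : X (s⁻¹ • p - y) = 0 := by
        by_contra hx
        apply hpK
        refine ⟨(s⁻¹ • p - y, y), ⟨subset_tsupport _ hx, Metric.ball_subset_closedBall hy⟩, ?_⟩
        simp only [sub_add_cancel]
        rw [smul_smul, mul_inv_cancel₀ hs.ne', one_smul]
      simp [hx]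
    · have : b.normed volume y = 0 := by
        by_contra h
        apply hy
        rw [← b.support_normed_eq (μ := volume)]
        exact h
      simp [this]
  have hts : tsupport (A2a_X' b s X) ⊆ K := closure_minimal hsupp hKc.isClosed
  refine ⟨?_, ?_, hts.trans hKΩ, fun p => ?_⟩
  · exact (hY.comp (contDiff_const_smul s⁻¹)).neg
  · exact hKc.of_isClosed_subset (isClosed_tsupport _) hts
  · unfold A2a_X'
    rw [norm_neg, A2a_Y_apply]
    calc ‖∫ y, b.normed volume y • X (s⁻¹ • p - y)‖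
        ≤ ∫ y, ‖b.normed volume y • X (s⁻¹ • p - y)‖ := norm_integral_le_integral_norm _
      _ ≤ ∫ y, b.normed volume y := by
        refine integral_mono_of_nonneg (ae_of_all _ fun y => norm_nonneg _) b.integrable_normed
          (ae_of_all _ fun y => ?_)
        simp only
        rw [norm_smul, Real.norm_eq_abs, abs_of_nonneg (b.nonneg_normed y)]
        exact mul_le_of_le_one_right (b.nonneg_normed y) (hX4 _)
      _ = 1 := b.integral_normed

theorem A2a_divg_X' {n : ℕ} (b : ContDiffBump (0 : Eu n)) (s : ℝ) {X : Eu n → Eu n}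
    (hX : ContDiff ℝ 1 X) (hc : HasCompactSupport X) (p : Eu n) :
    divg (A2a_X' b s X) p = -(s⁻¹ * divg (A2a_Y b X) (s⁻¹ • p)) := by
  have hY := (A2a_divg_Y b hX hc 0).1
  have h1 : HasFDerivAt (A2a_Y b X) (fderiv ℝ (A2a_Y b X) (s⁻¹ • p)) (s⁻¹ • p) :=
    (hY.differentiable (by norm_num) _).hasFDerivAt
  have h2 : HasFDerivAt (fun p : Eu n => s⁻¹ • p) (s⁻¹ • ContinuousLinearMap.id ℝ (Eu n)) p :=
    (hasFDerivAt_id p).const_smul s⁻¹
  have h3 : fderiv ℝ (A2a_X' b s X) p = -((fderiv ℝ (A2a_Y b X) (s⁻¹ • p)).comp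
      (s⁻¹ • ContinuousLinearMap.id ℝ (Eu n))) := (h1.comp p h2).neg.fderiv
  unfold divg
  rw [h3, Finset.mul_sum, ← Finset.sum_neg_distrib]
  refine Finset.sum_congr rfl fun i _ => ?_
  simp only [neg_apply, ContinuousLinearMap.comp_apply,
    smul_apply, ContinuousLinearMap.id_apply, map_smul, PiLp.neg_apply,
    PiLp.smul_apply, smul_eq_mul]

/-- transposition of the convolution -/
theorem A2a_fubini {n : ℕ} {E : Set (Eu n)} (hE : MeasurableSet E) (s : ℝ)
    (b : ContDiffBump (0 : Eu n)) {D : Eu n → ℝ} (hD : Continuous D) (hDc : HasCompactSupport D) :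
    ∫ x, smf E s b x * D x = ∫ z, A2a_g E s z * ∫ y, b.normed volume y * D (z - y) := by
  have hDI : Integrable D := hD.integrable_of_hasCompactSupport hDc
  have hF : Integrable (fun q : Eu n × Eu n => (D q.1 * b.normed volume q.2) *
      A2a_g E s (q.1 - q.2)) (volume.prod volume) := by
    refine Integrable.mono (hDI.mul_prod b.integrable_normed) ?_ (ae_of_all _ fun q => ?_)
    · exact (((hD.measurable.comp measurable_fst).mul (b.continuous_normed.measurable.comp
        measurable_snd)).mul ((A2a_g_meas hE s).comp (measurable_fst.sub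
        measurable_snd))).aestronglyMeasurable
    · obtain ⟨h2, h3⟩ := A2a_g_mem E s (q.1 - q.2)
      rw [norm_mul]
      have : ‖A2a_g E s (q.1 - q.2)‖ ≤ 1 := by
        rw [Real.norm_eq_abs, abs_of_nonneg h2]; exact h3
      calc _ ≤ ‖D q.1 * b.normed volume q.2‖ * 1 := mul_le_mul_of_nonneg_left this (norm_nonneg _)
        _ = _ := mul_one _
  have hG : Integrable (fun q : Eu n × Eu n => A2a_g E s q.1 *
      (b.normed volume q.2 * D (q.1 + q.2))) (volume.prod volume) := by
    have h1 : Integrable (fun q : Eu n × Eu n => D (q.1 + q.2) * b.normed volume q.2)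
        (volume.prod volume) := by
      have h2 := (measurePreserving_add_prod (volume : Measure (Eu n)) (volume : Measure (Eu n)))
      exact h2.integrable_comp_of_integrable (hDI.mul_prod b.integrable_normed)
    refine Integrable.mono h1 ?_ (ae_of_all _ fun q => ?_)
    · exact (((A2a_g_meas hE s).comp measurable_fst).mul ((b.continuous_normed.measurable.comp
        measurable_snd).mul (hD.measurable.comp (measurable_fst.add
        measurable_snd)))).aestronglyMeasurable
    · obtain ⟨h2, h3⟩ := A2a_g_mem E s q.1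
      rw [norm_mul]
      have : ‖A2a_g E s q.1‖ ≤ 1 := by
        rw [Real.norm_eq_abs, abs_of_nonneg h2]; exact h3
      calc _ ≤ 1 * ‖b.normed volume q.2 * D (q.1 + q.2)‖ :=
            mul_le_mul_of_nonneg_right this (norm_nonneg _)
        _ = _ := by rw [one_mul, mul_comm]
  calc ∫ x, smf E s b x * D x
      = ∫ x, ∫ y, (D x * b.normed volume y) * A2a_g E s (x - y) := by
        refine integral_congr_ae (ae_of_all _ fun x => ?_)
        simp only
        rw [show smf E s b x = ∫ y, b.normed volume y * A2a_g E s (x - y) from rfl, mul_comm,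
          ← integral_const_mul]
        refine integral_congr_ae (ae_of_all _ fun y => ?_)
        simp only
        ring
    _ = ∫ y, ∫ x, (D x * b.normed volume y) * A2a_g E s (x - y) := integral_integral_swap hF
    _ = ∫ y, ∫ z, (D (z + y) * b.normed volume y) * A2a_g E s z := by
        refine integral_congr_ae (ae_of_all _ fun y => ?_)
        simp only
        rw [← integral_add_right_eq_self _ y]
        refine integral_congr_ae (ae_of_all _ fun z => ?_)
        simp only [add_sub_cancel_right]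
    _ = ∫ z, ∫ y, (D (z + y) * b.normed volume y) * A2a_g E s z := by
        refine (integral_integral_swap ?_).symm
        refine hG.congr (ae_of_all _ fun q => ?_)
        simp only [Function.uncurry]
        ring
    _ = ∫ z, A2a_g E s z * ∫ y, b.normed volume y * D (z - y) := by
        refine integral_congr_ae (ae_of_all _ fun z => ?_)
        simp only
        rw [← integral_const_mul, ← integral_neg_eq_self]
        refine integral_congr_ae (ae_of_all _ fun y => ?_)
        simp only [b.normed_neg, ← sub_eq_add_neg]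
        ring

/-- the main estimate: pairing of the gradient with a test field -/
theorem A2a_pair {n : ℕ} (hn : n ≠ 0) {Ω E : Set (Eu n)} (hΩ : IsOpen Ω)
    (hE : MeasurableSet E) (s : ℝ) (hs : 0 < s) (b : ContDiffBump (0 : Eu n))
    (hsb : ∃ r, b.rOut < r ∧ ∀ x ∈ Ω, ∀ y : Eu n, ‖y‖ ≤ r → s • (x + y) ∈ Ω)
    {X : Eu n → Eu n} (hX : TestField Ω X) :
    ENNReal.ofReal (∫ x in Ω, fderiv ℝ (smf E s b) x (X x)) ≤
      ENNReal.ofReal ((s ^ (n - 1))⁻¹) * relPer Ω E := by
  have hX' := A2a_test hs b hsb hX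
  obtain ⟨hX1, hX2, hX3, hX4⟩ := hX
  have hf := (smf_contDiff hE s b).1
  obtain ⟨-, h1⟩ := A1_ibp hΩ hf.contDiffOn ⟨hX1, hX2, hX3, hX4⟩
  have hdc := A1_divg_continuous hX1
  have hdk := A1_divg_compact hX2
  have h2 : ∫ x in Ω, smf E s b x * divg X x = ∫ x, smf E s b x * divg X x := by
    apply setIntegral_eq_integral_of_forall_compl_eq_zero
    intro x hx
    have h : divg X x = 0 := by
      unfold divg
      refine Finset.sum_eq_zero fun i _ => ?_
      have : fderiv ℝ X x = 0 := by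
        apply image_eq_zero_of_notMem_tsupport
        exact fun h => hx (hX3 (tsupport_fderiv_subset ℝ h))
      rw [this]; rfl
    rw [h, mul_zero]
  have h3 : ∫ x, smf E s b x * divg X x = ∫ z, A2a_g E s z * divg (A2a_Y b X) z := by
    rw [A2a_fubini hE s b hdc hdk]
    refine integral_congr_ae (ae_of_all _ fun z => ?_)
    simp only
    rw [(A2a_divg_Y b hX1 hX2 z).2]
  have h4 : ∫ p in E, divg (A2a_X' b s X) p =
      -(s ^ (n - 1) * ∫ z, A2a_g E s z * divg (A2a_Y b X) z) := by
    have e1 : ∫ p in E, divg (A2a_X' b s X) p =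
        ∫ p, -(s⁻¹ * (E.indicator (fun _ => (1 : ℝ)) p * divg (A2a_Y b X) (s⁻¹ • p))) := by
      rw [← integral_indicator hE]
      refine integral_congr_ae (ae_of_all _ fun p => ?_)
      simp only
      by_cases hp : p ∈ E
      · simp only [hp, indicator_of_mem, one_mul]
        rw [A2a_divg_X' b s hX1 hX2]
      · simp [hp]
    have e2 := Measure.integral_comp_smul (volume : Measure (Eu n))
      (fun p => E.indicator (fun _ => (1 : ℝ)) p * divg (A2a_Y b X) (s⁻¹ • p)) s
    have e3 : ∀ z : Eu n, E.indicator (fun _ => (1 : ℝ)) (s • z) * divg (A2a_Y b X) (s⁻¹ • s • z) =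
        A2a_g E s z * divg (A2a_Y b X) z := by
      intro z
      rw [smul_smul, inv_mul_cancel₀ hs.ne', one_smul]
      rfl
    simp_rw [e3] at e2
    rw [finrank_euclideanSpace, Fintype.card_fin, abs_of_pos (by positivity), smul_eq_mul] at e2
    rw [e1, integral_neg, integral_const_mul, e2]
    obtain ⟨m, rfl⟩ := Nat.exists_eq_succ_of_ne_zero hn
    rw [Nat.succ_sub_one, pow_succ]
    field_simp
  have h5 : ∫ x in Ω, fderiv ℝ (smf E s b) x (X x) =
      (s ^ (n - 1))⁻¹ * ∫ p in E, divg (A2a_X' b s X) p := by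
    rw [h4, ← h3, ← h2, h1]
    field_simp
  rw [h5, ENNReal.ofReal_mul (by positivity)]
  gcongr
  exact le_iSup₂ (f := fun (X : Eu n → Eu n) (_ : TestField Ω X) =>
    ENNReal.ofReal (∫ x in E, divg X x)) _ hX'

/-- the gradient as a vector -/
noncomputable def A2a_v {n : ℕ} (f : Eu n → ℝ) (x : Eu n) : Eu n :=
  WithLp.toLp 2 fun i => fderiv ℝ f x (EuclideanSpace.single i 1)

theorem A2a_v_apply {n : ℕ} (f : Eu n → ℝ) (x w : Eu n) :
    fderiv ℝ f x w = ∑ i, w i * A2a_v f x i := by
  conv_lhs => rw [← A1_sum_coord w]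
  rw [map_sum]
  refine Finset.sum_congr rfl fun i _ => ?_
  rw [map_smul, smul_eq_mul]
  rfl

theorem A2a_norm_le {n : ℕ} (f : Eu n → ℝ) (x : Eu n) : ‖fderiv ℝ f x‖ ≤ ‖A2a_v f x‖ := by
  refine ContinuousLinearMap.opNorm_le_bound _ (norm_nonneg _) fun w => ?_
  rw [A2a_v_apply]
  have := abs_real_inner_le_norm (A2a_v f x) w
  rw [PiLp.inner_apply] at this
  simpa using this

theorem A2a_v_self {n : ℕ} (f : Eu n → ℝ) (x : Eu n) (c : ℝ) :
    fderiv ℝ f x (c • A2a_v f x) = c * ‖A2a_v f x‖ ^ 2 := by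
  rw [A2a_v_apply, EuclideanSpace.real_norm_sq_eq, Finset.mul_sum]
  refine Finset.sum_congr rfl fun i _ => ?_
  simp only [PiLp.smul_apply, smul_eq_mul]
  ring

theorem A2a_v_contDiff {n : ℕ} {f : Eu n → ℝ} (hf : ContDiff ℝ 2 f) : ContDiff ℝ 1 (A2a_v f) := by
  rw [contDiff_euclidean]
  intro i
  exact (hf.fderiv_right (by norm_num)).clm_apply contDiff_const

/-- cutoffs exhausting a bounded open set -/
theorem A2a_cutoff {n : ℕ} {Ω : Set (Eu n)} (hΩ : IsOpen Ω) (hb : Bornology.IsBounded Ω) :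
    ∃ χ : ℕ → Eu n → ℝ, (∀ k, ContDiff ℝ 1 (χ k)) ∧ (∀ k, HasCompactSupport (χ k)) ∧
      (∀ k, tsupport (χ k) ⊆ Ω) ∧ (∀ k x, χ k x ∈ Icc (0 : ℝ) 1) ∧
      ∀ x ∈ Ω, ∀ᶠ k in atTop, χ k x = 1 := by
  obtain ⟨φ, h1, h2, h3⟩ := hΩ.exists_contDiff_support_eq (n := 1)
  have hφ0 : ∀ x, 0 ≤ φ x := fun x => (h3 ⟨x, rfl⟩).1
  have hφ1 : ∀ x, φ x ≤ 1 := fun x => (h3 ⟨x, rfl⟩).2
  have hts : ∀ k : ℕ, tsupport (fun x => Real.smoothTransition (k * φ x - 1)) ⊆ Ω := by
    intro k
    have hcl : IsClosed {x | 1 ≤ k * φ x} :=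
      isClosed_le continuous_const (continuous_const.mul h2.continuous)
    have hsub : Function.support (fun x => Real.smoothTransition (k * φ x - 1)) ⊆
        {x | 1 ≤ k * φ x} := by
      intro x hx
      by_contra h
      apply hx
      simp only [mem_ofPred_eq, not_le] at h
      exact Real.smoothTransition.zero_of_nonpos (by linarith)
    refine (closure_minimal hsub hcl).trans fun x hx => ?_
    rw [← h1, Function.mem_support]
    intro h
    simp only [mem_ofPred_eq, h, mul_zero] at hx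
    linarith
  refine ⟨fun k x => Real.smoothTransition (k * φ x - 1), fun k => ?_, fun k => ?_, hts,
    fun k x => ⟨Real.smoothTransition.nonneg _, Real.smoothTransition.le_one _⟩, fun x hx => ?_⟩
  · exact (Real.smoothTransition.contDiff (n := 1)).comp
      ((contDiff_const.mul (by exact_mod_cast h2)).sub contDiff_const)
  · exact Metric.isCompact_of_isClosed_isBounded (isClosed_tsupport _) (hb.subset (hts k))
  · have hpos : 0 < φ x := by
      refine lt_of_le_of_ne (hφ0 x) fun h => ?_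
      have : x ∈ Function.support φ := by rw [h1]; exact hx
      exact this h.symm
    obtain ⟨K, hK⟩ := exists_nat_gt (2 / φ x)
    filter_upwards [eventually_ge_atTop K] with k hk
    apply Real.smoothTransition.one_of_one_le
    have h4 : (2 : ℝ) < k * φ x := by
      have : (K : ℝ) ≤ k := by exact_mod_cast hk
      rw [div_lt_iff₀ hpos] at hK
      nlinarith
    linarith

/-- A2a -/
theorem smf_energy {n : ℕ} {Ω E : Set (Eu n)} (hΩ : IsOpen Ω) (hb : Bornology.IsBounded Ω)
    (hE : MeasurableSet E) (hEΩ : E ⊆ Ω) (s : ℝ) (hs : 0 < s) (b : ContDiffBump (0 : Eu n))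
    (hsb : ∃ r, b.rOut < r ∧ ∀ x ∈ Ω, ∀ y : Eu n, ‖y‖ ≤ r → s • (x + y) ∈ Ω) :
    ∫⁻ x in Ω, ‖fderiv ℝ (smf E s b) x‖ₑ ≤ ENNReal.ofReal ((s ^ (n - 1))⁻¹) * relPer Ω E := by
  rcases eq_or_ne n 0 with hn | hn
  · subst hn
    have : ∀ x, fderiv ℝ (smf E s b) x = 0 := fun x => by
      ext v
      rw [Subsingleton.elim v 0]
      simp
    have h0 : ∀ x, ‖fderiv ℝ (smf E s b) x‖ₑ = 0 := fun x => by
      rw [this x, ← ofReal_norm, norm_zero, ENNReal.ofReal_zero]
    simp_rw [h0, lintegral_zero]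
    exact bot_le
  set f := smf E s b with hfdef
  have hf2 : ContDiff ℝ 2 f := by exact_mod_cast A2a_smooth hE s b 2
  have hv := A2a_v_contDiff hf2
  obtain ⟨χ, c1, c2, c3, c4, c5⟩ := A2a_cutoff hΩ hb
  set e : ℕ → ℝ := fun k => ((k : ℝ) + 1)⁻¹ with he
  have he0 : ∀ k, 0 < e k := fun k => by simp only [he]; positivity
  set q : ℕ → Eu n → ℝ := fun k x => χ k x / Real.sqrt (‖A2a_v f x‖ ^ 2 + e k ^ 2) with hq
  have hpos : ∀ k x, 0 < ‖A2a_v f x‖ ^ 2 + e k ^ 2 := fun k x => by have := he0 k; positivity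
  have hq1 : ∀ k, ContDiff ℝ 1 (q k) := by
    intro k
    refine (c1 k).div (ContDiff.sqrt ((hv.norm_sq ℝ).add contDiff_const) fun x => (hpos k x).ne')
      fun x => (Real.sqrt_pos.2 (hpos k x)).ne'
  have hq0 : ∀ k x, 0 ≤ q k x := fun k x => div_nonneg (c4 k x).1 (Real.sqrt_nonneg _)
  have hqs : ∀ k, tsupport (fun x => q k x • A2a_v f x) ⊆ tsupport (χ k) := by
    intro k
    refine closure_mono fun x hx => ?_
    rw [Function.mem_support] at hx ⊢
    intro h
    apply hx
    simp [hq, h]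
  have htest : ∀ k, TestField Ω (fun x => q k x • A2a_v f x) := by
    intro k
    refine ⟨(hq1 k).smul hv, ?_, (hqs k).trans (c3 k), fun x => ?_⟩
    · exact (c2 k).of_isClosed_subset (isClosed_tsupport _) (hqs k)
    · rw [norm_smul, Real.norm_eq_abs, abs_of_nonneg (hq0 k x)]
      simp only [hq]
      rw [div_mul_eq_mul_div, div_le_one (Real.sqrt_pos.2 (hpos k x))]
      calc χ k x * ‖A2a_v f x‖ ≤ 1 * ‖A2a_v f x‖ :=
            mul_le_mul_of_nonneg_right (c4 k x).2 (norm_nonneg _)
        _ = Real.sqrt (‖A2a_v f x‖ ^ 2) := by rw [one_mul, Real.sqrt_sq (norm_nonneg _)]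
        _ ≤ _ := Real.sqrt_le_sqrt (by have := sq_nonneg (e k); linarith)
  have hF : ∀ k x, fderiv ℝ f x (q k x • A2a_v f x) = q k x * ‖A2a_v f x‖ ^ 2 := fun k x =>
    A2a_v_self f x _
  have hFc : ∀ k, Continuous fun x => q k x * ‖A2a_v f x‖ ^ 2 := fun k =>
    (hq1 k).continuous.mul (hv.continuous.norm.pow 2)
  have hFI : ∀ k, Integrable fun x => q k x * ‖A2a_v f x‖ ^ 2 := by
    intro k
    refine (hFc k).integrable_of_hasCompactSupport ?_
    refine (c2 k).of_isClosed_subset (isClosed_tsupport _) (closure_mono fun x hx => ?_)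
    rw [Function.mem_support] at hx ⊢
    intro h
    apply hx
    simp [hq, h]
  have hbd : ∀ k, ∫⁻ x in Ω, ENNReal.ofReal (q k x * ‖A2a_v f x‖ ^ 2) ≤
      ENNReal.ofReal ((s ^ (n - 1))⁻¹) * relPer Ω E := by
    intro k
    rw [← ofReal_integral_eq_lintegral_ofReal (hFI k).integrableOn
      (ae_of_all _ fun x => mul_nonneg (hq0 k x) (sq_nonneg _))]
    have := A2a_pair hn hΩ hE s hs b hsb (htest k)
    simp_rw [← hfdef, hF] at this
    exact this
  have hlim : ∀ x ∈ Ω, Tendsto (fun k => ENNReal.ofReal (q k x * ‖A2a_v f x‖ ^ 2)) atTop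
      (𝓝 (ENNReal.ofReal ‖A2a_v f x‖)) := by
    intro x hx
    refine (ENNReal.continuous_ofReal.tendsto _).comp ?_
    have h1 : Tendsto e atTop (𝓝 0) := by
      simp only [he]
      simpa using tendsto_one_div_add_atTop_nhds_zero_nat (𝕜 := ℝ)
    by_cases hz : ‖A2a_v f x‖ = 0
    · rw [hz]
      simp
    · have h2 : Tendsto (fun k => 1 / Real.sqrt (‖A2a_v f x‖ ^ 2 + e k ^ 2) * ‖A2a_v f x‖ ^ 2) atTop
          (𝓝 (1 / Real.sqrt (‖A2a_v f x‖ ^ 2 + 0 ^ 2) * ‖A2a_v f x‖ ^ 2)) := by
        refine Tendsto.mul_const _ (Tendsto.div tendsto_const_nhds ?_ ?_)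
        · exact (Real.continuous_sqrt.tendsto _).comp (tendsto_const_nhds.add (h1.pow 2))
        · rw [zero_pow two_ne_zero, add_zero, Real.sqrt_sq (norm_nonneg _)]
          exact hz
      rw [zero_pow two_ne_zero, add_zero, Real.sqrt_sq (norm_nonneg _)] at h2
      have h3 : 1 / ‖A2a_v f x‖ * ‖A2a_v f x‖ ^ 2 = ‖A2a_v f x‖ := by field_simp
      rw [h3] at h2
      refine h2.congr' ?_
      filter_upwards [c5 x hx] with k hk
      simp only [hq, hk]
  calc ∫⁻ x in Ω, ‖fderiv ℝ f x‖ₑ
      ≤ ∫⁻ x in Ω, liminf (fun k => ENNReal.ofReal (q k x * ‖A2a_v f x‖ ^ 2)) atTop := by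
        refine setLIntegral_mono' hΩ.measurableSet fun x hx => ?_
        rw [(hlim x hx).liminf_eq, ← ofReal_norm]
        exact ENNReal.ofReal_le_ofReal (A2a_norm_le f x)
    _ ≤ liminf (fun k => ∫⁻ x in Ω, ENNReal.ofReal (q k x * ‖A2a_v f x‖ ^ 2)) atTop :=
        lintegral_liminf_le fun k => ENNReal.measurable_ofReal.comp (hFc k).measurable
    _ ≤ _ := by
        refine liminf_le_of_le (by isBoundedDefault) fun c hc => ?_
        obtain ⟨k, hk⟩ := hc.exists
        exact hk.trans (hbd k)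

end IsoHull
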