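import Pool.Agent.IsoHull27.A2a

/-!
# Package A2b : `exists_smooth_approx`
-/

set_option autoImplicit false

open MeasureTheory Set Filter Topology
open scoped ENNReal NNReal

namespace IsoHull

theorem a2b_dil {n : ℕ} (h : Eu n → ℝ) (hh : Measurable h) (s : ℝ) (hs : 0 < s) :
    ∫⁻ x, ‖h (s • x)‖ₑ = ENNReal.ofReal ((s ^ n)⁻¹) * ∫⁻ x, ‖h x‖ₑ := by
  have h1 : ∫⁻ x, ‖h x‖ₑ ∂(Measure.map (fun x : Eu n => s • x) volume) = ∫⁻ x, ‖h (s • x)‖ₑ :=
    lintegral_map hh.enorm (measurable_const_smul s)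
  rw [← h1, Measure.map_addHaar_smul volume hs.ne', lintegral_smul_measure, smul_eq_mul,
    finrank_euclideanSpace_fin, abs_of_pos (by positivity)]

theorem a2b_key {n : ℕ} {E : Set (Eu n)} (hE : MeasurableSet E) (hEv : volume E ≠ ⊤) (η : ℝ)
    (hη : 0 < η) :
    ∃ δ > 0, δ ≤ 1 / 2 ∧ ∀ s : ℝ, 1 - δ < s → s ≤ 1 → ∀ y : Eu n, ‖y‖ < δ →
      ∫⁻ x, ‖E.indicator (fun _ => (1 : ℝ)) (s • (x - y)) - E.indicator (fun _ => (1 : ℝ)) x‖ₑ
        ≤ ENNReal.ofReal η := by
  set g : Eu n → ℝ := E.indicator (fun _ => (1 : ℝ)) with hg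
  have hgm : Measurable g := measurable_const.indicator hE
  have hgi : Integrable g := (integrable_indicator_iff hE).2 (integrableOn_const hEv)
  have hc : (0 : ℝ) < 2 ^ n + 1 := by positivity
  obtain ⟨φ, hφs, hφ, hφc, -⟩ := hgi.exists_hasCompactSupport_lintegral_sub_le
    (ε := ENNReal.ofReal (η / (2 * (2 ^ n + 1)))) (by
      rw [Ne, ENNReal.ofReal_eq_zero, not_le]; positivity)
  have hφu : UniformContinuous φ := hφs.uniformContinuous_of_continuous hφc
  obtain ⟨R, hR0, hR⟩ : ∃ R : ℝ, 0 < R ∧ tsupport φ ⊆ Metric.closedBall 0 R :=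
    hφs.isCompact.isBounded.subset_closedBall_lt 0 0
  have hR' : ∀ x : Eu n, R < ‖x‖ → φ x = 0 := by
    intro x hx
    by_contra hne
    have h1 := hR (subset_tsupport φ (Function.mem_support.2 hne))
    rw [mem_closedBall_zero_iff] at h1
    linarith
  set B : Set (Eu n) := Metric.closedBall 0 (2 * R + 1) with hB
  have hBfin : volume B < ⊤ := measure_closedBall_lt_top
  have hV0 : 0 ≤ (volume B).toReal := ENNReal.toReal_nonneg
  obtain ⟨δ0, hδ0, hδ⟩ := Metric.uniformContinuous_iff.1 hφu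
    (η / (2 * ((volume B).toReal + 1))) (by positivity)
  have hδpos : 0 < min (1 / 2) (δ0 / (2 * R + 3)) := lt_min (by norm_num) (by positivity)
  refine ⟨min (1 / 2) (δ0 / (2 * R + 3)), hδpos, min_le_left _ _, ?_⟩
  set δ : ℝ := min (1 / 2) (δ0 / (2 * R + 3)) with hδdef
  have hδh : δ ≤ 1 / 2 := min_le_left _ _
  have hδR : δ * (2 * R + 3) ≤ δ0 := by
    have h1 : δ ≤ δ0 / (2 * R + 3) := min_le_right _ _
    rwa [le_div_iff₀ (by positivity)] at h1
  intro s hs1 hs2 y hy
  have hs0 : (1 : ℝ) / 2 < s := by linarith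
  have hspos : (0 : ℝ) < s := by linarith
  -- the three parts
  have hpt : ∀ x : Eu n, ‖g (s • (x - y)) - g x‖ₑ ≤
      (‖(fun z => g z - φ z) (s • (x - y))‖ₑ + ‖φ (s • (x - y)) - φ x‖ₑ) + ‖g x - φ x‖ₑ := by
    intro x
    have h1 : g (s • (x - y)) - g x = ((g (s • (x - y)) - φ (s • (x - y))) +
        (φ (s • (x - y)) - φ x)) + (φ x - g x) := by ring
    rw [h1]
    refine (enorm_add_le _ _).trans ?_
    refine add_le_add ((enorm_add_le _ _).trans le_rfl) ?_
    rw [← enorm_neg, neg_sub]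
  have hmeas1 : Measurable (fun z : Eu n => g z - φ z) := hgm.sub hφc.measurable
  have haff : Measurable (fun x : Eu n => s • (x - y)) :=
    (measurable_id.sub_const y).const_smul s
  -- part 1
  have hp1 : ∫⁻ x : Eu n, ‖(fun z => g z - φ z) (s • (x - y))‖ₑ ≤
      ENNReal.ofReal (2 ^ n * (η / (2 * (2 ^ n + 1)))) := by
    have h1 : ∫⁻ x : Eu n, ‖(fun z => g z - φ z) (s • (x - y))‖ₑ =
        ∫⁻ x : Eu n, ‖(fun z => g z - φ z) (s • x)‖ₑ :=
      lintegral_sub_right_eq_self (fun x : Eu n => ‖(fun z => g z - φ z) (s • x)‖ₑ) y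
    rw [h1, a2b_dil _ hmeas1 s hspos, ENNReal.ofReal_mul (by positivity)]
    refine mul_le_mul' (ENNReal.ofReal_le_ofReal ?_) hφ
    rw [← inv_pow]
    refine pow_le_pow_left₀ (by positivity) ?_ n
    rw [inv_le_comm₀ hspos (by norm_num)]
    linarith
  -- part 2
  have hp2 : ∫⁻ x : Eu n, ‖φ (s • (x - y)) - φ x‖ₑ ≤ ENNReal.ofReal (η / 2) := by
    have h1 : ∀ x : Eu n, ‖φ (s • (x - y)) - φ x‖ₑ ≤
        B.indicator (fun _ => ENNReal.ofReal (η / (2 * ((volume B).toReal + 1)))) x := by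
      intro x
      by_cases hx : x ∈ B
      · rw [indicator_of_mem hx]
        rw [hB, mem_closedBall_zero_iff] at hx
        rw [← ofReal_norm]
        refine ENNReal.ofReal_le_ofReal ?_
        rw [← dist_eq_norm]
        refine (hδ ?_).le
        rw [dist_eq_norm]
        have h2 : s • (x - y) - x = -((1 - s) • (x - y)) - y := by
          rw [sub_smul, one_smul]; abel
        rw [h2]
        calc ‖-((1 - s) • (x - y)) - y‖ ≤ ‖-((1 - s) • (x - y))‖ + ‖y‖ := norm_sub_le _ _
          _ = (1 - s) * ‖x - y‖ + ‖y‖ := by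
            rw [norm_neg, norm_smul, Real.norm_eq_abs, abs_of_nonneg (by linarith)]
          _ ≤ (1 - s) * (‖x‖ + ‖y‖) + ‖y‖ := by
            have h7 : 0 ≤ 1 - s := by linarith
            have h8 := mul_le_mul_of_nonneg_left (norm_sub_le x y) h7
            linarith
          _ ≤ δ * (2 * R + 1 + 1) + ‖y‖ := by
            have h9 : (1 - s) * (‖x‖ + ‖y‖) ≤ δ * (2 * R + 1 + 1) :=
              mul_le_mul (by linarith) (by linarith) (by positivity) hδpos.le
            linarith
          _ < δ * (2 * R + 1 + 1) + δ := by linarith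
          _ = δ * (2 * R + 3) := by ring
          _ ≤ δ0 := hδR
      · rw [indicator_of_notMem hx]
        rw [hB, mem_closedBall_zero_iff, not_le] at hx
        have h2 : φ x = 0 := hR' x (by linarith)
        have h3 : φ (s • (x - y)) = 0 := by
          apply hR'
          rw [norm_smul, Real.norm_eq_abs, abs_of_pos hspos]
          have h4 : ‖x‖ - ‖y‖ ≤ ‖x - y‖ := norm_sub_norm_le x y
          have h5 : 2 * R < ‖x - y‖ := by linarith
          nlinarith
        rw [h2, h3]
        simp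
    refine (lintegral_mono h1).trans ?_
    rw [lintegral_indicator Metric.isClosed_closedBall.measurableSet, lintegral_const,
      Measure.restrict_apply_univ]
    rw [← ENNReal.ofReal_toReal hBfin.ne, ← ENNReal.ofReal_mul (by positivity)]
    refine ENNReal.ofReal_le_ofReal ?_
    rw [ENNReal.toReal_ofReal hV0, div_mul_eq_mul_div, div_le_div_iff₀ (by positivity) (by norm_num)]
    nlinarith
  calc ∫⁻ x, ‖g (s • (x - y)) - g x‖ₑ ≤
      ∫⁻ x, ((‖(fun z => g z - φ z) (s • (x - y))‖ₑ + ‖φ (s • (x - y)) - φ x‖ₑ) +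
        ‖g x - φ x‖ₑ) := lintegral_mono hpt
    _ = (∫⁻ x, ‖(fun z => g z - φ z) (s • (x - y))‖ₑ) + (∫⁻ x, ‖φ (s • (x - y)) - φ x‖ₑ) +
        ∫⁻ x, ‖g x - φ x‖ₑ := by
      have hA : Measurable (fun x => ‖(fun z => g z - φ z) (s • (x - y))‖ₑ) :=
        (hmeas1.comp haff).enorm
      have hsplit : ∫⁻ x, (‖(fun z => g z - φ z) (s • (x - y))‖ₑ + ‖φ (s • (x - y)) - φ x‖ₑ) =
          (∫⁻ x, ‖(fun z => g z - φ z) (s • (x - y))‖ₑ) + ∫⁻ x, ‖φ (s • (x - y)) - φ x‖ₑ :=
        lintegral_add_left hA _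
      rw [lintegral_add_right _ hmeas1.enorm, hsplit]
    _ ≤ ENNReal.ofReal (2 ^ n * (η / (2 * (2 ^ n + 1)))) + ENNReal.ofReal (η / 2) +
        ENNReal.ofReal (η / (2 * (2 ^ n + 1))) := add_le_add (add_le_add hp1 hp2) hφ
    _ = ENNReal.ofReal η := by
      rw [← ENNReal.ofReal_add (by positivity) (by positivity),
        ← ENNReal.ofReal_add (by positivity) (by positivity)]
      congr 1
      field_simp
      ring

theorem a2b_smf {n : ℕ} {E : Set (Eu n)} (hE : MeasurableSet E) (Ω : Set (Eu n)) (s η : ℝ)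
    (b : ContDiffBump (0 : Eu n))
    (h : ∀ y : Eu n, ‖y‖ < b.rOut →
      ∫⁻ x, ‖E.indicator (fun _ => (1 : ℝ)) (s • (x - y)) - E.indicator (fun _ => (1 : ℝ)) x‖ₑ
        ≤ ENNReal.ofReal η) :
    ∫⁻ x in Ω, ‖smf E s b x - E.indicator (fun _ => (1 : ℝ)) x‖ₑ ≤ ENNReal.ofReal η := by
  set g : Eu n → ℝ := E.indicator (fun _ => (1 : ℝ)) with hg
  have hgm : Measurable g := measurable_const.indicator hE
  have hg1 : ∀ x, ‖g x‖ ≤ 1 := by
    intro x
    by_cases hx : x ∈ E
    · simp [hg, hx]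
    · simp [hg, hx]
  have hbi : Integrable (fun y => b.normed volume y) := b.integrable_normed
  have hbm : Measurable (fun y => b.normed volume y) := b.continuous_normed.measurable
  have haff : ∀ x : Eu n, Measurable (fun y : Eu n => s • (x - y)) := fun x =>
    (measurable_const.sub measurable_id).const_smul s
  have haff2 : Measurable (fun p : Eu n × Eu n => s • (p.1 - p.2)) :=
    (measurable_fst.sub measurable_snd).const_smul s
  have hi1 : ∀ x : Eu n, Integrable (fun y => b.normed volume y * g (s • (x - y))) := by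
    intro x
    refine hbi.norm.mono' (hbm.mul (hgm.comp (haff x))).aestronglyMeasurable
      (Eventually.of_forall fun y => ?_)
    rw [norm_mul]
    calc ‖b.normed volume y‖ * ‖g (s • (x - y))‖ ≤ ‖b.normed volume y‖ * 1 := by
          gcongr
          exact hg1 _
      _ = ‖b.normed volume y‖ := mul_one _
  have heq : ∀ x : Eu n, smf E s b x - g x =
      ∫ y, b.normed volume y * (g (s • (x - y)) - g x) := by
    intro x
    have h1 : (∫ y, b.normed volume y * g x) = g x := by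
      rw [integral_mul_const, b.integral_normed, one_mul]
    have h2 : (fun y => b.normed volume y * (g (s • (x - y)) - g x)) =
        fun y => b.normed volume y * g (s • (x - y)) - b.normed volume y * g x := by
      funext y; ring
    rw [h2, integral_sub (hi1 x) (hbi.mul_const _), h1]
    rfl
  calc ∫⁻ x in Ω, ‖smf E s b x - g x‖ₑ ≤ ∫⁻ x, ‖smf E s b x - g x‖ₑ :=
        setLIntegral_le_lintegral _ _
    _ ≤ ∫⁻ x, ∫⁻ y, ‖b.normed volume y‖ₑ * ‖g (s • (x - y)) - g x‖ₑ := by
        refine lintegral_mono fun x => ?_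
        show ‖smf E s b x - g x‖ₑ ≤ ∫⁻ y, ‖b.normed volume y‖ₑ * ‖g (s • (x - y)) - g x‖ₑ
        rw [heq x]
        refine (enorm_integral_le_lintegral_enorm _).trans ?_
        refine lintegral_mono fun y => ?_
        rw [enorm_mul]
    _ = ∫⁻ y, ∫⁻ x, ‖b.normed volume y‖ₑ * ‖g (s • (x - y)) - g x‖ₑ := by
        refine lintegral_lintegral_swap ?_
        have h1 : Measurable (fun p : Eu n × Eu n =>
            ‖b.normed volume p.2‖ₑ * ‖g (s • (p.1 - p.2)) - g p.1‖ₑ) :=
          (hbm.comp measurable_snd).enorm.mul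
            ((hgm.comp haff2).sub (hgm.comp measurable_fst)).enorm
        exact h1.aemeasurable
    _ ≤ ∫⁻ y, ‖b.normed volume y‖ₑ * ENNReal.ofReal η := by
        refine lintegral_mono fun y => ?_
        show ∫⁻ x, ‖b.normed volume y‖ₑ * ‖g (s • (x - y)) - g x‖ₑ ≤
          ‖b.normed volume y‖ₑ * ENNReal.ofReal η
        have hm : Measurable (fun x : Eu n => ‖g (s • (x - y)) - g x‖ₑ) :=
          ((hgm.comp ((measurable_id.sub_const y).const_smul s)).sub hgm).enorm
        rw [lintegral_const_mul _ hm]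
        by_cases hy : ‖y‖ < b.rOut
        · exact mul_le_mul' le_rfl (h y hy)
        · have h0 : b.normed volume y = 0 := by
            by_contra hne
            have h1 : y ∈ Function.support (b.normed volume) := hne
            rw [b.support_normed_eq, Metric.mem_ball, dist_zero_right] at h1
            exact hy h1
          rw [h0]
          simp
    _ = (∫⁻ y, ‖b.normed volume y‖ₑ) * ENNReal.ofReal η := by
        rw [lintegral_mul_const _ hbm.enorm]
    _ = ENNReal.ofReal η := by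
        have h1 : ∫⁻ y, ‖b.normed volume y‖ₑ = 1 := by
          have h2 : ∀ y, ‖b.normed volume y‖ₑ = ENNReal.ofReal (b.normed volume y) := fun y =>
            Real.enorm_of_nonneg (b.nonneg_normed y)
          simp_rw [h2]
          rw [← ofReal_integral_eq_lintegral_ofReal hbi (Eventually.of_forall fun y =>
            b.nonneg_normed y), b.integral_normed, ENNReal.ofReal_one]
        rw [h1, one_mul]

/-- A2b -/
theorem exists_smooth_approx {n : ℕ} {Ω E : Set (Eu n)} (hΩ : IsOpen Ω) (hc : Convex ℝ Ω)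
    (hb : Bornology.IsBounded Ω) (h0 : (0 : Eu n) ∈ Ω) (hE : MeasurableSet E) (hEΩ : E ⊆ Ω)
    (hfin : relPer Ω E ≠ ⊤) (ε : ℝ) (hε : 0 < ε) :
    ∃ f : Eu n → ℝ, ContDiff ℝ 1 f ∧ (∀ x, f x ∈ Icc (0 : ℝ) 1) ∧
      ∫⁻ x in Ω, ‖f x - E.indicator (fun _ => (1 : ℝ)) x‖ₑ ≤ ENNReal.ofReal ε ∧
      ∫⁻ x in Ω, ‖fderiv ℝ f x‖ₑ ≤ relPer Ω E + ENNReal.ofReal ε := by
  have hEv : volume E ≠ ⊤ := ((hb.subset hEΩ).measure_lt_top).ne
  obtain ⟨δ, hδ, hδ2, hkey⟩ := a2b_key hE hEv ε hε
  -- choice of `s`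
  have hcont : Tendsto (fun s : ℝ => (s ^ (n - 1))⁻¹ * (relPer Ω E).toReal) (𝓝 1)
      (𝓝 ((1 ^ (n - 1))⁻¹ * (relPer Ω E).toReal)) := by
    have h1 : ContinuousAt (fun s : ℝ => (s ^ (n - 1))⁻¹) 1 :=
      ContinuousAt.inv₀ (by fun_prop) (by simp)
    exact h1.tendsto.mul_const _
  rw [one_pow, inv_one, one_mul] at hcont
  have hev := hcont.eventually (gt_mem_nhds (show (relPer Ω E).toReal <
    (relPer Ω E).toReal + ε by linarith))
  obtain ⟨κ, hκ, hκ2⟩ := Metric.eventually_nhds_iff.1 hev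
  obtain ⟨s, hs1, hs2⟩ : ∃ s : ℝ, max (1 - δ) (1 - κ) < s ∧ s < 1 :=
    exists_between (max_lt (by linarith) (by linarith))
  have hsδ : 1 - δ < s := lt_of_le_of_lt (le_max_left _ _) hs1
  have hsκ : 1 - κ < s := lt_of_le_of_lt (le_max_right _ _) hs1
  have hspos : 0 < s := by linarith
  have hsen : (s ^ (n - 1))⁻¹ * (relPer Ω E).toReal < (relPer Ω E).toReal + ε := by
    refine hκ2 ?_
    rw [Real.dist_eq, abs_sub_comm, abs_of_pos (by linarith)]
    linarith
  -- room
  obtain ⟨ρ, hρ, hρΩ⟩ := Metric.isOpen_iff.1 hΩ 0 h0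
  set r : ℝ := (1 - s) * ρ / 2 with hr
  have hrpos : 0 < r := by
    have : 0 < 1 - s := by linarith
    positivity
  have hroom : ∀ x ∈ Ω, ∀ y : Eu n, ‖y‖ ≤ r → s • (x + y) ∈ Ω := by
    intro x hx y hy
    have h1s : 0 < 1 - s := by linarith
    have hz : (s / (1 - s)) • y ∈ Ω := by
      apply hρΩ
      rw [Metric.mem_ball, dist_zero_right, norm_smul, Real.norm_eq_abs,
        abs_of_pos (by positivity)]
      calc s / (1 - s) * ‖y‖ ≤ s / (1 - s) * r := by gcongr
        _ = s * (ρ / 2) := by rw [hr]; field_simp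
        _ < ρ := by nlinarith
    have h2 := hc hx hz hspos.le h1s.le (by ring)
    have h3 : s • x + (1 - s) • (s / (1 - s)) • y = s • (x + y) := by
      rw [smul_smul, smul_add]
      congr 2
      field_simp
    rwa [h3] at h2
  -- the bump
  have ht : 0 < min δ r / 2 := by
    have := lt_min hδ hrpos
    positivity
  let b : ContDiffBump (0 : Eu n) :=
    { rIn := min δ r / 4
      rOut := min δ r / 2
      rIn_pos := by have := lt_min hδ hrpos; positivity
      rIn_lt_rOut := by have := lt_min hδ hrpos; linarith }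
  have hbr : b.rOut = min δ r / 2 := rfl
  have hbδ : b.rOut < δ := by
    rw [hbr]
    have h1 := min_le_left δ r
    have h2 := lt_min hδ hrpos
    linarith
  have hbr' : b.rOut < r := by
    rw [hbr]
    have h1 := min_le_right δ r
    have h2 := lt_min hδ hrpos
    linarith
  obtain ⟨hf1, hf2⟩ := smf_contDiff hE s b
  refine ⟨smf E s b, hf1, hf2, ?_, ?_⟩
  · exact a2b_smf hE Ω s ε b fun y hy => hkey s hsδ hs2.le y (hy.trans hbδ)
  · refine (smf_energy hΩ hb hE hEΩ s hspos b ⟨r, hbr', hroom⟩).trans ?_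
    rw [← ENNReal.ofReal_toReal hfin, ← ENNReal.ofReal_mul (by positivity),
      ← ENNReal.ofReal_add ENNReal.toReal_nonneg hε.le]
    exact ENNReal.ofReal_le_ofReal hsen.le

end IsoHull
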