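import Pool.Agent.IsoHull27.A3aCore
import Pool.Agent.IsoHull27.A2b

/-!
# `L¹` compactness of sets with bounded relative perimeter (package A3a)
-/

set_option autoImplicit false

open MeasureTheory Set Filter Topology
open scoped ENNReal NNReal

namespace IsoHull

/-- A3a : compactness -/
theorem compact_per {n : ℕ} {Ω : Set (Eu n)} (hΩ : IsOpen Ω) (hc : Convex ℝ Ω)
    (hb : Bornology.IsBounded Ω) (h0 : (0 : Eu n) ∈ Ω) (Es : ℕ → Set (Eu n))
    (hE : ∀ k, MeasurableSet (Es k)) (hEΩ : ∀ k, Es k ⊆ Ω) (C : ℝ≥0∞) (hC : C ≠ ⊤)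
    (hP : ∀ k, relPer Ω (Es k) ≤ C) :
    ∃ E : Set (Eu n), MeasurableSet E ∧ E ⊆ Ω ∧ ∃ φ : ℕ → ℕ, StrictMono φ ∧
      Tendsto (fun k => volume (symmDiff (Es (φ k)) E)) atTop (𝓝 0) := by
  refine A3a.compact_core hΩ hb Es hE hEΩ (C + 1) (by simp [hC]) fun k ε hε => ?_
  obtain ⟨f, hf, -, h1, h2⟩ := exists_smooth_approx hΩ hc hb h0 (hE k) (hEΩ k)
    (ne_top_of_le_ne_top hC (hP k)) (min ε 1) (lt_min hε one_pos)
  refine ⟨f, hf, h1.trans (ENNReal.ofReal_le_ofReal (min_le_left _ _)), h2.trans ?_⟩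
  refine add_le_add (hP k) ?_
  calc ENNReal.ofReal (min ε 1) ≤ ENNReal.ofReal 1 := ENNReal.ofReal_le_ofReal (min_le_right _ _)
    _ = 1 := ENNReal.ofReal_one

end IsoHull
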