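import Pool.Agent.IsoHull27.Defs

/-!
# `L¹` compactness of sets with bounded relative perimeter (package A3a, core)

Everything is stated for indicator functions which admit smooth approximations with bounded
gradient; the final statement `compact_per` is in `A3a.lean`.
-/

set_option autoImplicit false

open MeasureTheory Set Filter Topology
open scoped ENNReal NNReal

namespace IsoHull

namespace A3a

variable {n : ℕ}

/-- difference quotient estimate along segments inside `Ω` -/
lemma seg_est {Ω K : Set (Eu n)} (hK : MeasurableSet K) {τ : ℝ}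
    (hKΩ : ∀ x ∈ K, ∀ y : Eu n, ‖y‖ ≤ τ → x + y ∈ Ω) (hΩ : MeasurableSet Ω) {f : Eu n → ℝ}
    (hf : ContDiff ℝ 1 f) (h : Eu n) (hh : ‖h‖ ≤ τ) :
    ∫⁻ x in K, ‖f (x + h) - f x‖ₑ ≤ ‖h‖ₑ * ∫⁻ x in Ω, ‖fderiv ℝ f x‖ₑ := by
  have hfc : Continuous (fderiv ℝ f) := hf.continuous_fderiv (by norm_num)
  -- pointwise
  have hpt : ∀ x : Eu n, ‖f (x + h) - f x‖ₑ ≤
      ∫⁻ t in Ioc (0 : ℝ) 1, ‖h‖ₑ * ‖fderiv ℝ f (x + t • h)‖ₑ := by
    intro x
    have hd : ∀ t : ℝ, HasDerivAt (fun t : ℝ => f (x + t • h)) (fderiv ℝ f (x + t • h) h) t := by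
      intro t
      have h1 : HasFDerivAt f (fderiv ℝ f (x + t • h)) (x + t • h) :=
        (hf.differentiable (by norm_num) _).hasFDerivAt
      have h2 : HasDerivAt (fun t : ℝ => x + t • h) h t := by
        have := ((hasDerivAt_id t).smul_const h).const_add x
        simpa using this
      exact h1.comp_hasDerivAt t h2
    have hcont : Continuous (fun t : ℝ => fderiv ℝ f (x + t • h) h) := by
      have : Continuous (fun t : ℝ => fderiv ℝ f (x + t • h)) := hfc.comp (by fun_prop)
      exact this.clm_apply continuous_const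
    have h3 := intervalIntegral.integral_eq_sub_of_hasDerivAt (a := 0) (b := 1)
      (fun t _ => hd t) (hcont.intervalIntegrable _ _)
    simp only [one_smul, zero_smul, add_zero] at h3
    rw [← h3, intervalIntegral.integral_of_le zero_le_one]
    refine (enorm_integral_le_lintegral_enorm _).trans ?_
    refine lintegral_mono fun t => ?_
    have := (fderiv ℝ f (x + t • h)).le_opNorm h
    calc ‖fderiv ℝ f (x + t • h) h‖ₑ ≤ ‖fderiv ℝ f (x + t • h)‖ₑ * ‖h‖ₑ :=
          (fderiv ℝ f (x + t • h)).le_opENorm h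
      _ = _ := mul_comm _ _
  have hmeas : Measurable (fun p : Eu n × ℝ => ‖h‖ₑ * ‖fderiv ℝ f (p.1 + p.2 • h)‖ₑ) := by
    have : Continuous (fun p : Eu n × ℝ => fderiv ℝ f (p.1 + p.2 • h)) := hfc.comp (by fun_prop)
    exact (this.measurable.enorm).const_mul _
  calc ∫⁻ x in K, ‖f (x + h) - f x‖ₑ
      ≤ ∫⁻ x in K, ∫⁻ t in Ioc (0 : ℝ) 1, ‖h‖ₑ * ‖fderiv ℝ f (x + t • h)‖ₑ :=
        lintegral_mono fun x => hpt x
    _ = ∫⁻ t in Ioc (0 : ℝ) 1, ∫⁻ x in K, ‖h‖ₑ * ‖fderiv ℝ f (x + t • h)‖ₑ :=
        lintegral_lintegral_swap hmeas.aemeasurable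
    _ ≤ ∫⁻ t in Ioc (0 : ℝ) 1, ‖h‖ₑ * ∫⁻ x in Ω, ‖fderiv ℝ f x‖ₑ := by
        refine setLIntegral_mono measurable_const fun t ht => ?_
        have hm : Measurable (fun x : Eu n => ‖fderiv ℝ f x‖ₑ) := hfc.measurable.enorm
        rw [lintegral_const_mul _ (by
          exact hm.comp (measurable_id.add_const (t • h)))]
        refine mul_le_mul' le_rfl ?_
        rw [← lintegral_indicator hK, ← lintegral_indicator hΩ,
          ← lintegral_add_right_eq_self (μ := (volume : Measure (Eu n)))
            (fun x => Ω.indicator (fun x => ‖fderiv ℝ f x‖ₑ) x) (t • h)]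
        refine lintegral_mono fun x => ?_
        by_cases hx : x ∈ K
        · have h4 : x + t • h ∈ Ω := by
            apply hKΩ x hx
            rw [norm_smul, Real.norm_of_nonneg ht.1.le]
            calc t * ‖h‖ ≤ 1 * ‖h‖ := by gcongr; exact ht.2
              _ = ‖h‖ := one_mul _
              _ ≤ τ := hh
          rw [indicator_of_mem hx, indicator_of_mem h4]
        · rw [indicator_of_notMem hx]; exact zero_le
    _ = ‖h‖ₑ * ∫⁻ x in Ω, ‖fderiv ℝ f x‖ₑ := by
        rw [setLIntegral_const]; simp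

/-- The approximation property delivered by `exists_smooth_approx`. -/
def Appr (Ω E : Set (Eu n)) (C : ℝ≥0∞) : Prop :=
  ∀ ε : ℝ, 0 < ε → ∃ f : Eu n → ℝ, ContDiff ℝ 1 f ∧
    ∫⁻ x in Ω, ‖f x - E.indicator (fun _ => (1 : ℝ)) x‖ₑ ≤ ENNReal.ofReal ε ∧
      ∫⁻ x in Ω, ‖fderiv ℝ f x‖ₑ ≤ C

/-- uniform continuity of translations -/
lemma transl {Ω : Set (Eu n)} (hΩ : IsOpen Ω) (hb : volume Ω ≠ ⊤) {C : ℝ≥0∞} (hC : C ≠ ⊤)
    {ε : ℝ} (hε : 0 < ε) : ∃ τ : ℝ, 0 < τ ∧ ∀ E : Set (Eu n), MeasurableSet E → E ⊆ Ω →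
      Appr Ω E C → ∀ h : Eu n, ‖h‖ ≤ τ →
        ∫⁻ x, ‖E.indicator (fun _ => (1 : ℝ)) (x + h) - E.indicator (fun _ => (1 : ℝ)) x‖ₑ ≤
          ENNReal.ofReal ε := by
  obtain ⟨K, hKΩ, hKc, hKv⟩ := hΩ.measurableSet.exists_isCompact_sdiff_lt hb
    (ε := ENNReal.ofReal (ε / 5)) (by simpa using (by positivity : (0 : ℝ) < ε / 5))
  obtain ⟨δ, hδ, hδΩ⟩ := hKc.exists_cthickening_subset_open hΩ hKΩ
  set c : ℝ := C.toReal with hc
  have hc0 : 0 ≤ c := ENNReal.toReal_nonneg
  refine ⟨min δ (ε / 5 / (c + 1)), lt_min hδ (by positivity), ?_⟩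
  intro E hE hEΩ hA h hh
  have hhδ : ‖h‖ ≤ δ := hh.trans (min_le_left _ _)
  have hKadd : ∀ x ∈ K, ∀ y : Eu n, ‖y‖ ≤ δ → x + y ∈ Ω := by
    intro x hx y hy
    apply hδΩ
    apply Metric.mem_cthickening_of_dist_le _ x _ _ hx
    simpa [dist_eq_norm] using hy
  obtain ⟨f, hf, hfE, hfC⟩ := hA (ε / 5) (by positivity)
  set u : Eu n → ℝ := E.indicator (fun _ => (1 : ℝ)) with hu
  have hum : Measurable u := measurable_const.indicator hE
  have hKm : MeasurableSet K := hKc.measurableSet
  have hu1 : ∀ x, ‖u x‖ₑ ≤ Ω.indicator (fun _ => (1 : ℝ≥0∞)) x := by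
    intro x
    by_cases hx : x ∈ E
    · rw [hu, indicator_of_mem hx, indicator_of_mem (hEΩ hx)]; simp
    · rw [hu, indicator_of_notMem hx]; simp
  rw [← lintegral_add_compl _ hKm]
  -- part on `K`
  have hK1 : ∫⁻ x in K, ‖u (x + h) - u x‖ₑ ≤ ENNReal.ofReal (3 * ε / 5) := by
    have h1 : ∀ x, ‖u (x + h) - u x‖ₑ ≤ ‖f (x + h) - u (x + h)‖ₑ + ‖f (x + h) - f x‖ₑ +
        ‖f x - u x‖ₑ := by
      intro x
      have e : u (x + h) - u x = -(f (x + h) - u (x + h)) + (f (x + h) - f x) + (f x - u x) := by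
        ring
      rw [e]
      refine (enorm_add_le _ _).trans ?_
      gcongr
      refine (enorm_add_le _ _).trans ?_
      rw [enorm_neg]
    have hfm : Measurable f := hf.continuous.measurable
    calc ∫⁻ x in K, ‖u (x + h) - u x‖ₑ
        ≤ ∫⁻ x in K, (‖f (x + h) - u (x + h)‖ₑ + ‖f (x + h) - f x‖ₑ + ‖f x - u x‖ₑ) :=
          lintegral_mono fun x => h1 x
      _ = (∫⁻ x in K, ‖f (x + h) - u (x + h)‖ₑ) + (∫⁻ x in K, ‖f (x + h) - f x‖ₑ) +
          ∫⁻ x in K, ‖f x - u x‖ₑ := by
          rw [lintegral_add_right _ (by fun_prop), lintegral_add_right _ (by fun_prop)]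
      _ ≤ ENNReal.ofReal (ε / 5) + ENNReal.ofReal (ε / 5) + ENNReal.ofReal (ε / 5) := by
          gcongr
          · refine le_trans ?_ hfE
            rw [← lintegral_indicator hKm, ← lintegral_indicator hΩ.measurableSet,
              ← lintegral_add_right_eq_self (μ := (volume : Measure (Eu n)))
                (fun x => Ω.indicator (fun x => ‖f x - u x‖ₑ) x) h]
            refine lintegral_mono fun x => ?_
            by_cases hx : x ∈ K
            · rw [indicator_of_mem hx, indicator_of_mem (hKadd x hx h hhδ)]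
            · rw [indicator_of_notMem hx]; exact zero_le
          · refine (seg_est hKm hKadd hΩ.measurableSet hf h hhδ).trans ?_
            calc ‖h‖ₑ * ∫⁻ x in Ω, ‖fderiv ℝ f x‖ₑ ≤ ‖h‖ₑ * C := by gcongr
              _ = ENNReal.ofReal (‖h‖ * c) := by
                rw [← ofReal_norm, ENNReal.ofReal_mul (norm_nonneg _), hc,
                  ENNReal.ofReal_toReal hC]
              _ ≤ ENNReal.ofReal (ε / 5) := by
                apply ENNReal.ofReal_le_ofReal
                have h5 : ‖h‖ ≤ ε / 5 / (c + 1) := hh.trans (min_le_right _ _)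
                calc ‖h‖ * c ≤ (ε / 5 / (c + 1)) * (c + 1) := by
                      gcongr; linarith
                  _ = ε / 5 := by field_simp
          · refine le_trans ?_ hfE
            exact lintegral_mono_set hKΩ
      _ = ENNReal.ofReal (3 * ε / 5) := by
          rw [← ENNReal.ofReal_add (by positivity) (by positivity),
            ← ENNReal.ofReal_add (by positivity) (by positivity)]
          congr 1; ring
  have hK2 : ∫⁻ x in Kᶜ, ‖u (x + h) - u x‖ₑ ≤ ENNReal.ofReal (2 * ε / 5) := by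
    have hΩm := hΩ.measurableSet
    have hpre : MeasurableSet ((fun x => x + h) ⁻¹' Ω) := (measurable_id.add_const h) hΩm
    calc ∫⁻ x in Kᶜ, ‖u (x + h) - u x‖ₑ
        ≤ ∫⁻ x in Kᶜ, (Ω.indicator (fun _ => (1 : ℝ≥0∞)) (x + h) +
            Ω.indicator (fun _ => (1 : ℝ≥0∞)) x) := by
          refine lintegral_mono fun x => ?_
          refine (enorm_sub_le).trans ?_
          exact add_le_add (hu1 _) (hu1 _)
      _ = volume (((fun x => x + h) ⁻¹' Ω) \ K) + volume (Ω \ K) := by
          rw [lintegral_add_right _ (measurable_const.indicator hΩm)]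
          congr 1
          · have : (fun x => Ω.indicator (fun _ => (1 : ℝ≥0∞)) (x + h)) =
                ((fun x => x + h) ⁻¹' Ω).indicator 1 := by
              ext x
              by_cases hx : x + h ∈ Ω
              · rw [indicator_of_mem hx, indicator_of_mem (show x ∈ (fun x => x + h) ⁻¹' Ω from hx)]
                rfl
              · rw [indicator_of_notMem hx,
                  indicator_of_notMem (show x ∉ (fun x => x + h) ⁻¹' Ω from hx)]
            rw [this, lintegral_indicator_one hpre, Measure.restrict_apply hpre]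
            rfl
          · have : (fun x => Ω.indicator (fun _ => (1 : ℝ≥0∞)) x) = Ω.indicator 1 := by
              ext x; rfl
            rw [this, lintegral_indicator_one hΩm, Measure.restrict_apply hΩm]
            rfl
      _ ≤ ENNReal.ofReal (ε / 5) + ENNReal.ofReal (ε / 5) := by
          gcongr
          have hsub : K ⊆ (fun x => x + h) ⁻¹' Ω := fun x hx => hKadd x hx h hhδ
          have hKfin : volume K ≠ ⊤ := hKc.measure_lt_top.ne
          have hv : volume ((fun x => x + h) ⁻¹' Ω) = volume Ω := measure_preimage_add_right _ _ _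
          rw [measure_sdiff hsub hKm.nullMeasurableSet hKfin, hv,
            ← measure_sdiff hKΩ hKm.nullMeasurableSet hKfin]
          exact hKv.le
      _ = ENNReal.ofReal (2 * ε / 5) := by
          rw [← ENNReal.ofReal_add (by positivity) (by positivity)]
          congr 1; ring
  calc _ ≤ ENNReal.ofReal (3 * ε / 5) + ENNReal.ofReal (2 * ε / 5) := add_le_add hK1 hK2
    _ = ENNReal.ofReal ε := by
        rw [← ENNReal.ofReal_add (by positivity) (by positivity)]
        congr 1; ring

/-! ### Mollification with a tent function -/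

/-- tent -/
noncomputable def tent (τ : ℝ) (z : Eu n) : ℝ := max 0 (τ - ‖z‖)

lemma tent_cont (τ : ℝ) : Continuous (tent τ : Eu n → ℝ) := by
  unfold tent; fun_prop

lemma tent_nonneg (τ : ℝ) (z : Eu n) : 0 ≤ tent τ z := le_max_left _ _

lemma tent_lip (τ : ℝ) (z w : Eu n) : |tent τ z - tent τ w| ≤ ‖z - w‖ := by
  unfold tent
  have h1 := abs_max_sub_max_le_abs (τ - ‖z‖) (τ - ‖w‖) 0
  rw [max_comm 0, max_comm 0]
  refine h1.trans ?_
  have : τ - ‖z‖ - (τ - ‖w‖) = ‖w‖ - ‖z‖ := by ring
  rw [this, norm_sub_rev z w]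
  exact abs_norm_sub_norm_le w z

lemma tent_zero {τ : ℝ} {z : Eu n} (h : τ < ‖z‖) : tent τ z = 0 := by
  unfold tent
  exact max_eq_left (by linarith)

lemma tent_supp (τ : ℝ) : HasCompactSupport (tent τ : Eu n → ℝ) := by
  refine HasCompactSupport.intro (isCompact_closedBall (0 : Eu n) τ) fun x hx => ?_
  apply tent_zero
  simpa using hx

lemma tent_int (τ : ℝ) : Integrable (tent τ : Eu n → ℝ) :=
  (tent_cont τ).integrable_of_hasCompactSupport (tent_supp τ)

lemma tent_pos {τ : ℝ} (hτ : 0 < τ) : 0 < ∫ z : Eu n, tent τ z := by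
  refine (tent_cont τ).integral_pos_of_hasCompactSupport_nonneg_nonzero (tent_supp τ)
    (fun z => tent_nonneg τ z) (x := 0) ?_
  unfold tent
  simp
  exact hτ

/-- averaged indicator -/
noncomputable def avg (τ : ℝ) (E : Set (Eu n)) (x : Eu n) : ℝ :=
  (∫ y, tent τ (y - x) * E.indicator (fun _ => (1 : ℝ)) y) / ∫ z : Eu n, tent τ z

lemma tent_mul_int (τ : ℝ) {E : Set (Eu n)} (hE : MeasurableSet E) (x : Eu n) :
    Integrable (fun y => tent τ (y - x) * E.indicator (fun _ => (1 : ℝ)) y) := by
  have h1 : Integrable (fun y : Eu n => tent τ (y - x)) := (tent_int τ).comp_sub_right x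
  refine Integrable.mono' h1 ?_ (ae_of_all _ fun y => ?_)
  · exact ((tent_cont τ).measurable.comp (measurable_id.sub_const x)).aestronglyMeasurable.mul
      (measurable_const.indicator hE).aestronglyMeasurable
  · have := tent_nonneg τ (y - x)
    by_cases hy : y ∈ E
    · rw [indicator_of_mem hy, mul_one, Real.norm_of_nonneg this]
    · rw [indicator_of_notMem hy, mul_zero, norm_zero]; exact this

lemma avg_mem {τ : ℝ} (hτ : 0 < τ) {E : Set (Eu n)} (hE : MeasurableSet E) (x : Eu n) :
    0 ≤ avg τ E x ∧ avg τ E x ≤ 1 := by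
  have hc := tent_pos (n := n) hτ
  have h0 : ∀ y, 0 ≤ tent τ (y - x) * E.indicator (fun _ => (1 : ℝ)) y := fun y =>
    mul_nonneg (tent_nonneg _ _) (indicator_nonneg (fun _ _ => zero_le_one) y)
  refine ⟨div_nonneg (integral_nonneg h0) hc.le, ?_⟩
  unfold avg
  rw [div_le_one hc]
  have h1 : Integrable (fun y : Eu n => tent τ (y - x)) := (tent_int τ).comp_sub_right x
  calc ∫ y, tent τ (y - x) * E.indicator (fun _ => (1 : ℝ)) y
      ≤ ∫ y : Eu n, tent τ (y - x) := by
        refine integral_mono (tent_mul_int τ hE x) h1 fun y => ?_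
        have := tent_nonneg τ (y - x)
        by_cases hy : y ∈ E
        · simp only [indicator_of_mem hy, mul_one, le_refl]
        · simp only [indicator_of_notMem hy, mul_zero]; exact this
    _ = ∫ z : Eu n, tent τ z := integral_sub_right_eq_self (fun y : Eu n => tent τ y) x

lemma avg_lip {τ : ℝ} (hτ : 0 < τ) {Ω E : Set (Eu n)} (hE : MeasurableSet E)
    (hΩm : MeasurableSet Ω) (hΩ : volume Ω ≠ ⊤) (hEΩ : E ⊆ Ω) (x x' : Eu n) :
    |avg τ E x - avg τ E x'| ≤ ‖x - x'‖ * (volume Ω).toReal / ∫ z : Eu n, tent τ z := by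
  have hc := tent_pos (n := n) hτ
  unfold avg
  rw [← sub_div, abs_div, abs_of_pos hc]
  gcongr
  rw [← integral_sub (tent_mul_int τ hE x) (tent_mul_int τ hE x')]
  have hi : Integrable (fun y => Ω.indicator (fun _ => ‖x - x'‖) y) := by
    rw [integrable_indicator_iff hΩm]
    exact integrableOn_const hΩ
  calc |∫ y, (tent τ (y - x) * E.indicator (fun _ => (1 : ℝ)) y -
        tent τ (y - x') * E.indicator (fun _ => (1 : ℝ)) y)|
      ≤ ∫ y, Ω.indicator (fun _ => ‖x - x'‖) y := by
        rw [← Real.norm_eq_abs]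
        refine norm_integral_le_of_norm_le hi (ae_of_all _ fun y => ?_)
        by_cases hy : y ∈ E
        · rw [indicator_of_mem hy, indicator_of_mem (hEΩ hy), mul_one, mul_one]
          refine (tent_lip τ _ _).trans (le_of_eq ?_)
          rw [norm_sub_rev x x']
          congr 1
          abel
        · rw [indicator_of_notMem hy, mul_zero, mul_zero, sub_zero, norm_zero]
          exact indicator_nonneg (fun _ _ => norm_nonneg _) y
    _ = ‖x - x'‖ * (volume Ω).toReal := by
        rw [integral_indicator hΩm, setIntegral_const, smul_eq_mul, mul_comm]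
        rfl

lemma avg_close {τ : ℝ} (hτ : 0 < τ) {E : Set (Eu n)} (hE : MeasurableSet E) {ε : ℝ≥0∞}
    (ht : ∀ h : Eu n, ‖h‖ ≤ τ →
        ∫⁻ x, ‖E.indicator (fun _ => (1 : ℝ)) (x + h) - E.indicator (fun _ => (1 : ℝ)) x‖ₑ ≤ ε) :
    ∫⁻ x, ‖avg τ E x - E.indicator (fun _ => (1 : ℝ)) x‖ₑ ≤ ε := by
  have hc := tent_pos (n := n) hτ
  set c : ℝ := ∫ z : Eu n, tent τ z with hcdef
  set u : Eu n → ℝ := E.indicator (fun _ => (1 : ℝ)) with hu
  have hum : Measurable u := measurable_const.indicator hE
  have htm : Measurable (tent τ : Eu n → ℝ) := (tent_cont τ).measurable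
  have e1 : ∀ x, avg τ E x - u x = ∫ h : Eu n, (tent τ h / c) * (u (x + h) - u x) := by
    intro x
    have e2 : ∫ y, tent τ (y - x) * u y = ∫ h : Eu n, tent τ h * u (x + h) := by
      rw [← integral_add_right_eq_self (fun y => tent τ (y - x) * u y) x]
      congr 1
      funext h
      rw [add_sub_cancel_right, add_comm x h]
    have hi1 : Integrable (fun h : Eu n => tent τ h * u (x + h)) := by
      have := (tent_mul_int τ hE x).comp_add_right x
      refine this.congr (ae_of_all _ fun h => ?_)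
      simp only [add_sub_cancel_right]
      rw [add_comm h x]
    have hi2 : Integrable (fun h : Eu n => tent τ h * u x) := (tent_int τ).mul_const _
    unfold avg
    rw [← hu, e2]
    have e3 : ∀ h : Eu n, (tent τ h / c) * (u (x + h) - u x) =
        (tent τ h * u (x + h) - tent τ h * u x) / c := by
      intro h; ring
    simp only [e3]
    rw [integral_div, integral_sub hi1 hi2, integral_mul_const, ← hcdef, sub_div]
    congr 1
    field_simp
  have e4 : ∀ x, ‖avg τ E x - u x‖ₑ ≤ ∫⁻ h : Eu n, ‖tent τ h / c‖ₑ * ‖u (x + h) - u x‖ₑ := by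
    intro x
    rw [e1]
    refine (enorm_integral_le_lintegral_enorm _).trans (le_of_eq ?_)
    congr 1
    funext h
    rw [enorm_mul]
  calc ∫⁻ x, ‖avg τ E x - u x‖ₑ
      ≤ ∫⁻ x, ∫⁻ h : Eu n, ‖tent τ h / c‖ₑ * ‖u (x + h) - u x‖ₑ := lintegral_mono e4
    _ = ∫⁻ h : Eu n, ∫⁻ x, ‖tent τ h / c‖ₑ * ‖u (x + h) - u x‖ₑ := by
        apply lintegral_lintegral_swap
        apply Measurable.aemeasurable
        have m1 : Measurable (fun p : Eu n × Eu n => tent τ p.2) := htm.comp measurable_snd
        have m2 : Measurable (fun p : Eu n × Eu n => u (p.1 + p.2)) :=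
          hum.comp (measurable_fst.add measurable_snd)
        have m3 : Measurable (fun p : Eu n × Eu n => u p.1) := hum.comp measurable_fst
        exact ((m1.div_const c).enorm).mul ((m2.sub m3).enorm)
    _ ≤ ∫⁻ h : Eu n, ‖tent τ h / c‖ₑ * ε := by
        refine lintegral_mono fun h => ?_
        rw [lintegral_const_mul _ (by fun_prop)]
        by_cases hh : ‖h‖ ≤ τ
        · exact mul_le_mul' le_rfl (ht h hh)
        · rw [tent_zero (not_le.mp hh)]; simp
    _ = ε := by
        rw [lintegral_mul_const _ (by fun_prop)]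
        have : ∫⁻ h : Eu n, ‖tent τ h / c‖ₑ = 1 := by
          have h1 : ∀ h : Eu n, ‖tent τ h / c‖ₑ = ENNReal.ofReal (tent τ h / c) := by
            intro h
            rw [Real.enorm_of_nonneg (div_nonneg (tent_nonneg _ _) hc.le)]
          simp only [h1]
          rw [← ofReal_integral_eq_lintegral_ofReal ((tent_int τ).div_const c)
            (ae_of_all _ fun h => div_nonneg (tent_nonneg _ _) hc.le), integral_div, ← hcdef,
            div_self hc.ne', ENNReal.ofReal_one]
        rw [this, one_mul]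

/-! ### Compactness -/

lemma ind_int {E Ω : Set (Eu n)} (hE : MeasurableSet E) (hEΩ : E ⊆ Ω) (hΩ : volume Ω ≠ ⊤) :
    Integrable (E.indicator (fun _ => (1 : ℝ))) := by
  rw [integrable_indicator_iff hE]
  exact integrableOn_const (ne_top_of_le_ne_top hΩ (measure_mono hEΩ))

lemma floor_close {η v v' : ℝ} (hη : 0 < η) (hv : 0 ≤ v) (hv' : 0 ≤ v')
    (h : ⌊v / η⌋₊ = ⌊v' / η⌋₊) : |v - v'| ≤ η := by
  have a1 := Nat.floor_le (div_nonneg hv hη.le)
  have a2 := Nat.lt_floor_add_one (v / η)
  have b1 := Nat.floor_le (div_nonneg hv' hη.le)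
  have b2 := Nat.lt_floor_add_one (v' / η)
  rw [h] at a1 a2
  have c1 : v / η - v' / η ≤ 1 := by linarith
  have c2 : v' / η - v / η ≤ 1 := by linarith
  rw [← sub_div, div_le_one hη] at c1 c2
  exact abs_le.mpr ⟨by linarith, c1⟩

theorem compact_core {Ω : Set (Eu n)} (hΩ : IsOpen Ω) (hb : Bornology.IsBounded Ω)
    (Es : ℕ → Set (Eu n)) (hE : ∀ k, MeasurableSet (Es k)) (hEΩ : ∀ k, Es k ⊆ Ω) (C : ℝ≥0∞)
    (hC : C ≠ ⊤) (hA : ∀ k, Appr Ω (Es k) C) :
    ∃ E : Set (Eu n), MeasurableSet E ∧ E ⊆ Ω ∧ ∃ φ : ℕ → ℕ, StrictMono φ ∧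
      Tendsto (fun k => volume (symmDiff (Es (φ k)) E)) atTop (𝓝 0) := by
  have hΩv : volume Ω ≠ ⊤ := hb.measure_lt_top.ne
  set V : ℝ := (volume Ω).toReal with hV
  have hV0 : 0 ≤ V := ENNReal.toReal_nonneg
  set u : ℕ → Eu n → ℝ := fun k => (Es k).indicator (fun _ => (1 : ℝ)) with hu
  have hui : ∀ k, Integrable (u k) := fun k => ind_int (hE k) (hEΩ k) hΩv
  let uL : ℕ → (Eu n →₁[volume] ℝ) := fun k => (hui k).toL1 (u k)
  have hTB : TotallyBounded (Set.range uL) := by
    refine Metric.totallyBounded_of_finite_discretization fun ε hε => ?_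
    obtain ⟨τ, hτ, hτE⟩ := transl hΩ hΩv hC (ε := ε / 8) (by positivity)
    set c : ℝ := ∫ z : Eu n, tent τ z with hcdef
    have hc : 0 < c := tent_pos hτ
    set η : ℝ := ε / (8 * (V + 1)) with hη
    have hη0 : 0 < η := by positivity
    set δ : ℝ := ε * c / (8 * (V + 1) ^ 2) with hδ
    have hδ0 : 0 < δ := by positivity
    obtain ⟨t, htf, ht⟩ := Metric.totallyBounded_iff.mp
      ((hb.isCompact_closure.totallyBounded).subset subset_closure) δ hδ0
    have : Finite t := htf
    have : Fintype t := Fintype.ofFinite t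
    let N : ℕ := ⌊1 / η⌋₊
    refine ⟨t → Fin (N + 1), inferInstance, fun x i =>
      ⟨min ⌊avg τ (Es x.2.choose) (i : Eu n) / η⌋₊ N, by omega⟩, ?_⟩
    intro x y hxy
    set k := x.2.choose with hk
    set l := y.2.choose with hl
    have hxk : uL k = x := x.2.choose_spec
    have hyl : uL l = y := y.2.choose_spec
    have hcell : ∀ i : t, |avg τ (Es k) i - avg τ (Es l) i| ≤ η := by
      intro i
      have h1 := congrArg Fin.val (congrFun hxy i)
      simp only at h1
      have hle : ∀ j : ℕ, ⌊avg τ (Es j) i / η⌋₊ ≤ N := by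
        intro j
        apply Nat.floor_le_floor
        have := (avg_mem hτ (hE j) (i : Eu n)).2
        gcongr
      rw [min_eq_left (hle _), min_eq_left (hle _)] at h1
      exact floor_close hη0 (avg_mem hτ (hE k) _).1 (avg_mem hτ (hE l) _).1 h1
    have hpt : ∀ z ∈ Ω, |avg τ (Es k) z - avg τ (Es l) z| ≤ 2 * (δ * V / c) + η := by
      intro z hz
      obtain ⟨i, hi, hzi⟩ := Set.mem_iUnion₂.mp (ht hz)
      have hzi' : ‖z - i‖ ≤ δ := by
        rw [← dist_eq_norm]; exact (Metric.mem_ball.mp hzi).le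
      have a1 := avg_lip hτ (hE k) hΩ.measurableSet hΩv (hEΩ k) z i
      have a2 := avg_lip hτ (hE l) hΩ.measurableSet hΩv (hEΩ l) z i
      have a3 := hcell ⟨i, hi⟩
      simp only at a3
      have a4 : ‖z - i‖ * V / c ≤ δ * V / c := by gcongr
      rw [← hV, ← hcdef] at a1 a2
      have e : avg τ (Es k) z - avg τ (Es l) z = (avg τ (Es k) z - avg τ (Es k) i) +
        (avg τ (Es k) i - avg τ (Es l) i) - (avg τ (Es l) z - avg τ (Es l) i) := by ring
      rw [e]
      refine (abs_sub _ _).trans ?_
      have := abs_add_le (avg τ (Es k) z - avg τ (Es k) i) (avg τ (Es k) i - avg τ (Es l) i)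
      linarith
    have hfin : edist (uL k) (uL l) < ENNReal.ofReal ε := by
      have e1 : edist (uL k) (uL l) = ∫⁻ z, edist (u k z) (u l z) :=
        Integrable.edist_toL1_toL1 _ _ _ _
      rw [e1]
      have hsupp : ∀ z, edist (u k z) (u l z) ≤ ‖avg τ (Es k) z - u k z‖ₑ +
          ‖avg τ (Es l) z - u l z‖ₑ + Ω.indicator (fun _ => ENNReal.ofReal
            (2 * (δ * V / c) + η)) z := by
        intro z
        by_cases hz : z ∈ Ω
        · rw [indicator_of_mem hz, edist_eq_enorm_sub]
          have e : u k z - u l z = -(avg τ (Es k) z - u k z) + (avg τ (Es l) z - u l z) +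
            (avg τ (Es k) z - avg τ (Es l) z) := by ring
          rw [e]
          refine (enorm_add_le _ _).trans ?_
          refine add_le_add ((enorm_add_le _ _).trans ?_) ?_
          · rw [enorm_neg]
          · rw [← ofReal_norm]
            exact ENNReal.ofReal_le_ofReal (hpt z hz)
        · have hk0 : u k z = 0 := indicator_of_notMem (fun h => hz (hEΩ k h)) _
          have hl0 : u l z = 0 := indicator_of_notMem (fun h => hz (hEΩ l h)) _
          rw [hk0, hl0, edist_self]; exact zero_le
      have hm1 : ∀ j, Measurable (fun z => ‖avg τ (Es j) z - u j z‖ₑ) := by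
        intro j
        have h1 : Continuous (avg τ (Es j)) := by
          have : LipschitzWith (Real.toNNReal (V / c)) (avg τ (Es j)) := by
            refine LipschitzWith.of_dist_le_mul fun z w => ?_
            rw [Real.coe_toNNReal _ (by positivity), dist_eq_norm, dist_eq_norm]
            refine (avg_lip hτ (hE j) hΩ.measurableSet hΩv (hEΩ j) z w).trans (le_of_eq ?_)
            rw [← hV, ← hcdef]; ring
          exact this.continuous
        exact (h1.measurable.sub (measurable_const.indicator (hE j))).enorm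
      calc ∫⁻ z, edist (u k z) (u l z) ≤ ∫⁻ z, (‖avg τ (Es k) z - u k z‖ₑ +
          ‖avg τ (Es l) z - u l z‖ₑ + Ω.indicator (fun _ => ENNReal.ofReal
            (2 * (δ * V / c) + η)) z) := lintegral_mono hsupp
        _ = (∫⁻ z, ‖avg τ (Es k) z - u k z‖ₑ) + (∫⁻ z, ‖avg τ (Es l) z - u l z‖ₑ) +
            ENNReal.ofReal (2 * (δ * V / c) + η) * volume Ω := by
            rw [lintegral_add_right _ (measurable_const.indicator hΩ.measurableSet),
              lintegral_add_right _ (hm1 l), lintegral_indicator hΩ.measurableSet,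
              setLIntegral_const]
        _ ≤ ENNReal.ofReal (ε / 8) + ENNReal.ofReal (ε / 8) +
            ENNReal.ofReal (2 * (δ * V / c) + η) * ENNReal.ofReal V := by
            gcongr
            · exact avg_close hτ (hE k) fun h hh => hτE _ (hE k) (hEΩ k) (hA k) h hh
            · exact avg_close hτ (hE l) fun h hh => hτE _ (hE l) (hEΩ l) (hA l) h hh
            · rw [hV, ENNReal.ofReal_toReal hΩv]
        _ = ENNReal.ofReal (ε / 8 + ε / 8 + (2 * (δ * V / c) + η) * V) := by
            rw [← ENNReal.ofReal_mul (by positivity), ← ENNReal.ofReal_add (by positivity)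
              (by positivity), ← ENNReal.ofReal_add (by positivity) (by positivity)]
        _ < ENNReal.ofReal ε := by
            apply ENNReal.ofReal_lt_ofReal_iff'.mpr
            refine ⟨?_, hε⟩
            have h1 : δ * V / c * V ≤ ε / 8 := by
              rw [hδ]
              have : ε * c / (8 * (V + 1) ^ 2) * V / c * V = ε / 8 * (V ^ 2 / (V + 1) ^ 2) := by
                field_simp
              rw [this]
              have h2 : V ^ 2 / (V + 1) ^ 2 ≤ 1 := by
                rw [div_le_one (by positivity)]; nlinarith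
              calc ε / 8 * (V ^ 2 / (V + 1) ^ 2) ≤ ε / 8 * 1 := by gcongr
                _ = ε / 8 := mul_one _
            have h2 : η * V ≤ ε / 8 := by
              rw [hη]
              have : ε / (8 * (V + 1)) * V = ε / 8 * (V / (V + 1)) := by field_simp
              rw [this]
              have h2 : V / (V + 1) ≤ 1 := by
                rw [div_le_one (by positivity)]; linarith
              calc ε / 8 * (V / (V + 1)) ≤ ε / 8 * 1 := by gcongr
                _ = ε / 8 := mul_one _
            have : (2 * (δ * V / c) + η) * V = 2 * (δ * V / c * V) + η * V := by ring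
            rw [this]
            linarith
    rw [edist_dist] at hfin
    have := (ENNReal.ofReal_lt_ofReal_iff hε).mp hfin
    rw [hxk, hyl] at this
    exact this
  obtain ⟨g, -, φ, hφ, hlim⟩ := (hTB.closure.isCompact_of_isClosed isClosed_closure).tendsto_subseq
    (fun k => subset_closure (Set.mem_range_self k) : ∀ k, uL k ∈ closure (Set.range uL))
  refine ⟨Ω ∩ {x | 1 / 2 < g x}, hΩ.measurableSet.inter
    (measurableSet_lt measurable_const (Lp.stronglyMeasurable g).measurable),
    inter_subset_left, φ, hφ, ?_⟩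
  have hlim' : Tendsto (fun k => 2 * edist (uL (φ k)) g) atTop (𝓝 0) := by
    have h1 := tendsto_iff_edist_tendsto_0.mp hlim
    have h2 := ENNReal.Tendsto.const_mul (a := 2) h1 (Or.inr (by norm_num))
    simpa using h2
  refine tendsto_of_tendsto_of_tendsto_of_le_of_le tendsto_const_nhds hlim'
    (fun k => zero_le) fun k => ?_
  have hEm : MeasurableSet (symmDiff (Es (φ k)) (Ω ∩ {x | 1 / 2 < g x})) :=
    (hE _).symmDiff (hΩ.measurableSet.inter
      (measurableSet_lt measurable_const (Lp.stronglyMeasurable g).measurable))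
  simp only
  rw [← lintegral_indicator_one hEm, Lp.edist_def, eLpNorm_one_eq_lintegral_enorm,
    ← lintegral_const_mul']
  · refine lintegral_mono_ae ?_
    filter_upwards [(hui (φ k)).coeFn_toL1] with x hx
    by_cases hxs : x ∈ symmDiff (Es (φ k)) (Ω ∩ {x | 1 / 2 < g x})
    · rw [indicator_of_mem hxs, Pi.one_apply]
      have hkey : (1 : ℝ) / 2 ≤ ‖u (φ k) x - g x‖ := by
        rcases hxs with ⟨h1, h2⟩ | ⟨h1, h2⟩
        · have h3 : ¬ (1 / 2 < g x) := fun h => h2 ⟨hEΩ _ h1, h⟩
          have h4 : u (φ k) x = 1 := indicator_of_mem h1 _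
          rw [h4, Real.norm_eq_abs]
          have := le_abs_self (1 - g x)
          linarith [not_lt.mp h3]
        · have h4 : u (φ k) x = 0 := indicator_of_notMem h2 _
          have h3 : 1 / 2 < g x := h1.2
          rw [h4, Real.norm_eq_abs]
          have := neg_abs_le (0 - g x)
          linarith
      have h5 : (⇑(uL (φ k)) - ⇑g) x = u (φ k) x - g x := by
        rw [Pi.sub_apply]
        exact congrArg (· - g x) hx
      rw [h5, ← ofReal_norm]
      calc (1 : ℝ≥0∞) = ENNReal.ofReal (2 * (1 / 2)) := by norm_num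
        _ ≤ ENNReal.ofReal (2 * ‖u (φ k) x - g x‖) := by
            apply ENNReal.ofReal_le_ofReal; linarith
        _ = 2 * ENNReal.ofReal ‖u (φ k) x - g x‖ := by
            rw [ENNReal.ofReal_mul (by norm_num), ENNReal.ofReal_ofNat]
    · rw [indicator_of_notMem hxs]; exact zero_le
  · norm_num

end A3a

end IsoHull
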