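import Pool.Agent.IsoHull27.Defs

/-!
# IsoHull27: existence of isoperimetric sets from compactness (A3b, MP_b478d8_an)
-/

open MeasureTheory Set Filter Topology
open scoped ENNReal NNReal Pointwise

namespace IsoHull

theorem A3b_divg_cont {n : ℕ} {X : Eu n → Eu n} (hX : ContDiff ℝ 1 X) : Continuous (divg X) := by
  unfold divg
  refine continuous_finsetSum _ fun i _ => ?_
  have h1 : Continuous fun x => fderiv ℝ X x (EuclideanSpace.single i 1) :=
    (hX.continuous_fderiv (by norm_num)).clm_apply continuous_const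
  exact (PiLp.continuous_apply 2 _ i).comp h1

theorem A3b_divg_compactSupport {n : ℕ} {X : Eu n → Eu n} (hX : HasCompactSupport X) :
    HasCompactSupport (divg X) := by
  refine (hX.fderiv ℝ).mono' ?_
  intro x hx
  by_contra hcon
  apply hx
  have : fderiv ℝ X x = 0 := image_eq_zero_of_notMem_tsupport hcon
  simp [divg, this]

theorem A3b_exists_bound_divg {n : ℕ} {X : Eu n → Eu n} (h1 : ContDiff ℝ 1 X)
    (h2 : HasCompactSupport X) : ∃ M, ∀ x, ‖divg X x‖ ≤ M :=
  (A3b_divg_cont h1).bounded_above_of_compact_support (A3b_divg_compactSupport h2)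

theorem A3b_integral_diff_le {n : ℕ} {f : Eu n → ℝ} (hf : Integrable f) {M : ℝ}
    (hM : ∀ x, ‖f x‖ ≤ M) {A B : Set (Eu n)} (hA : MeasurableSet A) (hB : MeasurableSet B)
    (hfin : volume (symmDiff A B) ≠ ⊤) :
    |(∫ x in A, f x) - ∫ x in B, f x| ≤ 2 * M * (volume (symmDiff A B)).toReal := by
  have e1 : (∫ x in A, f x) = (∫ x in A ∩ B, f x) + ∫ x in A \ B, f x :=
    (integral_inter_add_sdiff hB hf.integrableOn).symm
  have e2 : (∫ x in B, f x) = (∫ x in A ∩ B, f x) + ∫ x in B \ A, f x := by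
    rw [inter_comm]
    exact (integral_inter_add_sdiff hA hf.integrableOn).symm
  have s1 : A \ B ⊆ symmDiff A B := fun x hx => Or.inl hx
  have s2 : B \ A ⊆ symmDiff A B := fun x hx => Or.inr hx
  have b1 : ‖∫ x in A \ B, f x‖ ≤ M * volume.real (A \ B) :=
    norm_setIntegral_le_of_norm_le_const
      (lt_of_le_of_lt (measure_mono s1) (lt_top_iff_ne_top.2 hfin)) (fun x _ => hM x)
  have b2 : ‖∫ x in B \ A, f x‖ ≤ M * volume.real (B \ A) :=
    norm_setIntegral_le_of_norm_le_const
      (lt_of_le_of_lt (measure_mono s2) (lt_top_iff_ne_top.2 hfin)) (fun x _ => hM x)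
  have hM0 : 0 ≤ M := (norm_nonneg _).trans (hM 0)
  have c1 : volume.real (A \ B) ≤ (volume (symmDiff A B)).toReal := measureReal_mono s1 hfin
  have c2 : volume.real (B \ A) ≤ (volume (symmDiff A B)).toReal := measureReal_mono s2 hfin
  rw [Real.norm_eq_abs] at b1 b2
  rw [e1, e2]
  have := abs_sub (∫ x in A \ B, f x) (∫ x in B \ A, f x)
  calc |(∫ x in A ∩ B, f x) + (∫ x in A \ B, f x) - ((∫ x in A ∩ B, f x) + ∫ x in B \ A, f x)|
      = |(∫ x in A \ B, f x) - ∫ x in B \ A, f x| := by congr 1; ring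
    _ ≤ |∫ x in A \ B, f x| + |∫ x in B \ A, f x| := this
    _ ≤ M * (volume (symmDiff A B)).toReal + M * (volume (symmDiff A B)).toReal := by
        gcongr
        · exact b1.trans (mul_le_mul_of_nonneg_left c1 hM0)
        · exact b2.trans (mul_le_mul_of_nonneg_left c2 hM0)
    _ = 2 * M * (volume (symmDiff A B)).toReal := by ring

theorem A3b_tendsto_integral_divg {n : ℕ} {X : Eu n → Eu n} (h1 : ContDiff ℝ 1 X)
    (h2 : HasCompactSupport X) {Es : ℕ → Set (Eu n)} {E : Set (Eu n)}
    (hEs : ∀ k, MeasurableSet (Es k)) (hE : MeasurableSet E)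
    (hfin : ∀ k, volume (symmDiff (Es k) E) ≠ ⊤)
    (ht : Tendsto (fun k => volume (symmDiff (Es k) E)) atTop (𝓝 0)) :
    Tendsto (fun k => ∫ x in Es k, divg X x) atTop (𝓝 (∫ x in E, divg X x)) := by
  obtain ⟨M, hM⟩ := A3b_exists_bound_divg h1 h2
  have hint : Integrable (divg X) :=
    (A3b_divg_cont h1).integrable_of_hasCompactSupport (A3b_divg_compactSupport h2)
  have ht' : Tendsto (fun k => 2 * M * (volume (symmDiff (Es k) E)).toReal) atTop (𝓝 0) := by
    have := ((ENNReal.tendsto_toReal ENNReal.zero_ne_top).comp ht).const_mul (2 * M)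
    simpa using this
  rw [tendsto_iff_norm_sub_tendsto_zero]
  refine squeeze_zero (fun k => norm_nonneg _) (fun k => ?_) ht'
  rw [Real.norm_eq_abs]
  exact A3b_integral_diff_le hint hM (hEs k) hE (hfin k)

/-- existence of isoperimetric sets, from compactness of sets of bounded perimeter -/
theorem exists_isop_of_compact {n : ℕ} (hn : 0 < n) {Ω : Set (Eu n)} (hΩ : IsOpen Ω)
    (hc : Convex ℝ Ω) (hb : Bornology.IsBounded Ω) (h0 : (0 : Eu n) ∈ Ω)
    (hcomp : ∀ Es : ℕ → Set (Eu n), (∀ k, MeasurableSet (Es k)) → (∀ k, Es k ⊆ Ω) →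
      ∀ C : ℝ≥0∞, C ≠ ⊤ → (∀ k, relPer Ω (Es k) ≤ C) →
      ∃ E : Set (Eu n), MeasurableSet E ∧ E ⊆ Ω ∧ ∃ φ : ℕ → ℕ, StrictMono φ ∧
        Tendsto (fun k => volume (symmDiff (Es (φ k)) E)) atTop (𝓝 0))
    (α : ℝ) (hα : α ∈ Ioo (0 : ℝ) 1) :
    ∃ E, IsIsop Ω α E := by
  have hVfin : volume Ω ≠ ⊤ := hb.measure_lt_top.ne
  -- the family of competitors
  let S : Set (Set (Eu n)) :=
    {F | MeasurableSet F ∧ F ⊆ Ω ∧ volume F = ENNReal.ofReal α * volume Ω}
  have hS : S.Nonempty := by
    set t : ℝ := α ^ ((n : ℝ)⁻¹) with ht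
    have ht0 : 0 < t := Real.rpow_pos_of_pos hα.1 _
    have ht1 : t ≤ 1 := Real.rpow_le_one hα.1.le hα.2.le (by positivity)
    have htn : t ^ n = α := Real.rpow_inv_natCast_pow hα.1.le hn.ne'
    refine ⟨t • Ω, hΩ.measurableSet.const_smul₀ t, ?_, ?_⟩
    · rintro x ⟨y, hy, rfl⟩
      have := hc h0 hy (a := 1 - t) (b := t) (by linarith) ht0.le (by ring)
      simpa using this
    · rw [Measure.addHaar_smul]
      rw [finrank_euclideanSpace_fin, htn, abs_of_pos hα.1]
  let m : ℝ≥0∞ := ⨅ F ∈ S, relPer Ω F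
  have hm_le : ∀ F ∈ S, m ≤ relPer Ω F := fun F hF => iInf₂_le F hF
  by_cases hm : m = ⊤
  · obtain ⟨F, hF⟩ := hS
    refine ⟨F, hF.1, hF.2.1, hF.2.2, fun G hG hGΩ hGv => ?_⟩
    have : G ∈ S := ⟨hG, hGΩ, hGv.trans hF.2.2⟩
    have h := hm_le G this
    rw [hm, top_le_iff] at h
    rw [h]; exact le_top
  · -- minimising sequence
    have hseq : ∀ k : ℕ, ∃ F ∈ S, relPer Ω F < m + ((k : ℝ≥0∞) + 1)⁻¹ := by
      intro k
      have hlt : m < m + ((k : ℝ≥0∞) + 1)⁻¹ := by
        refine ENNReal.lt_add_right hm ?_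
        simp
      obtain ⟨F, hF⟩ := iInf_lt_iff.1 hlt
      obtain ⟨hF1, hF2⟩ := iInf_lt_iff.1 hF
      exact ⟨F, hF1, hF2⟩
    choose Es hEsS hEslt using hseq
    have hbound : ∀ k, relPer Ω (Es k) ≤ m + 1 := by
      intro k
      refine (hEslt k).le.trans ?_
      gcongr
      rw [ENNReal.inv_le_one]
      exact le_add_self
    obtain ⟨E, hEm, hEΩ, φ, hφ, hlim⟩ := hcomp Es (fun k => (hEsS k).1)
      (fun k => (hEsS k).2.1) (m + 1) (by simp [hm]) hbound
    have hfin : ∀ k, volume (symmDiff (Es (φ k)) E) ≠ ⊤ := by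
      intro k
      refine (lt_of_le_of_lt (measure_mono ?_) (lt_top_iff_ne_top.2 hVfin)).ne
      rintro x (hx | hx)
      · exact (hEsS _).2.1 hx.1
      · exact hEΩ hx.1
    have hvol : volume E = ENNReal.ofReal α * volume Ω := by
      apply le_antisymm
      · have h1 : ∀ k, volume E ≤ ENNReal.ofReal α * volume Ω + volume (symmDiff (Es (φ k)) E) := by
          intro k
          calc volume E ≤ volume (Es (φ k) ∪ symmDiff (Es (φ k)) E) := by
                apply measure_mono
                intro x hx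
                by_cases h : x ∈ Es (φ k)
                · exact Or.inl h
                · exact Or.inr (Or.inr ⟨hx, h⟩)
            _ ≤ volume (Es (φ k)) + volume (symmDiff (Es (φ k)) E) := measure_union_le _ _
            _ = _ := by rw [(hEsS (φ k)).2.2]
        have h2 : Tendsto (fun k => ENNReal.ofReal α * volume Ω + volume (symmDiff (Es (φ k)) E))
            atTop (𝓝 (ENNReal.ofReal α * volume Ω + 0)) := tendsto_const_nhds.add hlim
        rw [add_zero] at h2
        exact ge_of_tendsto' h2 h1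
      · have h1 : ∀ k, ENNReal.ofReal α * volume Ω ≤ volume E + volume (symmDiff (Es (φ k)) E) := by
          intro k
          calc ENNReal.ofReal α * volume Ω = volume (Es (φ k)) := ((hEsS (φ k)).2.2).symm
            _ ≤ volume (E ∪ symmDiff (Es (φ k)) E) := by
                apply measure_mono
                intro x hx
                by_cases h : x ∈ E
                · exact Or.inl h
                · exact Or.inr (Or.inl ⟨hx, h⟩)
            _ ≤ volume E + volume (symmDiff (Es (φ k)) E) := measure_union_le _ _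
        have h2 : Tendsto (fun k => volume E + volume (symmDiff (Es (φ k)) E))
            atTop (𝓝 (volume E + 0)) := tendsto_const_nhds.add hlim
        rw [add_zero] at h2
        exact ge_of_tendsto' h2 h1
    have hper : relPer Ω E ≤ m := by
      unfold relPer
      refine iSup₂_le fun X hX => ?_
      have hconv := A3b_tendsto_integral_divg hX.1 hX.2.1 (fun k => (hEsS (φ k)).1) hEm hfin hlim
      have hconv' := (ENNReal.continuous_ofReal.tendsto _).comp hconv
      have hup : Tendsto (fun k : ℕ => m + (((φ k : ℕ) : ℝ≥0∞) + 1)⁻¹) atTop (𝓝 m) := by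
        have h3 : Tendsto (fun k : ℕ => m + ((k : ℝ≥0∞) + 1)⁻¹) atTop (𝓝 (m + 0)) := by
          refine tendsto_const_nhds.add ?_
          have h4 : Tendsto (fun k : ℕ => (((k + 1 : ℕ) : ℝ≥0∞))⁻¹) atTop (𝓝 0) :=
            (tendsto_add_atTop_iff_nat 1).2 ENNReal.tendsto_inv_nat_nhds_zero
          simpa using h4
        rw [add_zero] at h3
        exact h3.comp hφ.tendsto_atTop
      refine le_of_tendsto_of_tendsto' hconv' hup fun k => ?_
      refine le_trans ?_ (hEslt (φ k)).le
      exact le_iSup₂ (f := fun (X : Eu n → Eu n) (_ : TestField Ω X) =>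
        ENNReal.ofReal (∫ x in Es (φ k), divg X x)) X hX
    refine ⟨E, hEm, hEΩ, hvol, fun F hF hFΩ hFv => ?_⟩
    exact hper.trans (hm_le F ⟨hF, hFΩ, hFv.trans hvol⟩)

end IsoHull
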