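import Pool.Agent.IsoHull27.A3a
import Pool.Agent.IsoHull27.A3bCore

/-!
# IsoHull27: existence of isoperimetric sets (A3b, MP_b478d8_an)
-/

open MeasureTheory Set Filter Topology
open scoped ENNReal NNReal

namespace IsoHull

theorem exists_isop {n : ℕ} (hn : 0 < n) {Ω : Set (Eu n)} (hΩ : IsOpen Ω) (hc : Convex ℝ Ω)
    (hb : Bornology.IsBounded Ω) (h0 : (0 : Eu n) ∈ Ω) (α : ℝ) (hα : α ∈ Ioo (0 : ℝ) 1) :
    ∃ E, IsIsop Ω α E :=
  exists_isop_of_compact hn hΩ hc hb h0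
    (fun Es hE hEΩ C hC hP => compact_per hΩ hc hb h0 Es hE hEΩ C hC hP) α hα

end IsoHull
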