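import Pool.Agent.IsoHull27.Defs

/-!
# IsoHull27: basic instances and continuity facts (MP_b478d8_an)
-/

open MeasureTheory Set Filter Topology
open scoped ENNReal NNReal

namespace IsoHull

instance unif_prob : IsProbabilityMeasure unif := by
  constructor
  unfold unif
  rw [Measure.smul_apply, Measure.restrict_apply MeasurableSet.univ, univ_inter, Real.volume_Icc]
  norm_num
  rw [ENNReal.inv_mul_cancel] <;> norm_num

instance cubeM_prob (m : ℕ) : IsProbabilityMeasure (cubeM m) := by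
  unfold cubeM; infer_instance

theorem nu0_pos (x : ℝ) : 0 < nu0 x := by unfold nu0; positivity
theorem nu0_nonneg (x : ℝ) : 0 ≤ nu0 x := (nu0_pos x).le
theorem nu0_cont : Continuous nu0 := by unfold nu0; fun_prop
theorem nu0_le (x : ℝ) : nu0 x ≤ 1 / Real.sqrt Real.pi := by
  unfold nu0
  apply div_le_div_of_nonneg_right _ (Real.sqrt_nonneg _)
  rw [← Real.exp_zero]; apply Real.exp_le_exp.2; nlinarith [sq_nonneg x]
theorem nu0_le_one (x : ℝ) : nu0 x ≤ 1 := by
  refine (nu0_le x).trans ?_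
  rw [div_le_one (by positivity)]
  rw [show (1:ℝ) = Real.sqrt 1 by simp]
  exact Real.sqrt_le_sqrt (by linarith [Real.pi_gt_three])
theorem nu0_integrable : Integrable nu0 := by
  have := (integrable_exp_neg_mul_sq (b := 1) (by norm_num)).div_const (Real.sqrt Real.pi)
  refine this.congr (ae_of_all _ fun x => ?_)
  simp [nu0]
theorem nu0_integral : ∫ x, nu0 x = 1 := by
  unfold nu0
  rw [integral_div]
  have := integral_gaussian 1
  simp only [neg_mul, one_mul, div_one] at this
  rw [this]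
  field_simp

instance nuM_prob : IsProbabilityMeasure nuM := by
  constructor
  unfold nuM
  rw [withDensity_apply _ MeasurableSet.univ, Measure.restrict_univ,
    ← ofReal_integral_eq_lintegral_ofReal nu0_integrable (ae_of_all _ nu0_nonneg), nu0_integral]
  simp

instance mu_prob (m : ℕ) : IsProbabilityMeasure (mu m) := by unfold mu; infer_instance

instance rad_prob : IsProbabilityMeasure rad := by
  constructor
  unfold rad
  rw [Measure.smul_apply, Measure.add_apply]
  simp only [measure_univ, smul_eq_mul]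
  norm_num
  rw [ENNReal.inv_mul_cancel] <;> norm_num

instance pmM_prob (m : ℕ) : IsProbabilityMeasure (pmM m) := by unfold pmM; infer_instance

theorem unif_ae_mem : ∀ᵐ a ∂unif, a ∈ Icc (-1 : ℝ) 1 := by
  unfold unif
  refine Measure.ae_smul_measure ?_ _
  exact ae_restrict_mem measurableSet_Icc

theorem cubeM_ae_mem (m : ℕ) : ∀ᵐ a ∂(cubeM m), a ∈ cube m := by
  unfold cubeM cube
  simp only [mem_ofPred_eq]
  rw [ae_all_iff]
  intro i
  exact (Measure.tendsto_eval_ae_ae (μ := fun _ : Fin m => unif) (i := i)).eventually unif_ae_mem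

theorem cube_eq_Icc (m : ℕ) : cube m = Icc (fun _ => (-1 : ℝ)) (fun _ => 1) := by
  ext a; simp [cube, Pi.le_def, forall_and]

theorem cube_isCompact (m : ℕ) : IsCompact (cube m) := by
  rw [cube_eq_Icc]; exact isCompact_Icc

theorem cube_measurable (m : ℕ) : MeasurableSet (cube m) := (cube_isCompact m).measurableSet

theorem cubeM_compl_cube (m : ℕ) : cubeM m (cube m)ᶜ = 0 := by
  have := cubeM_ae_mem m
  rwa [ae_iff] at this

theorem cubeM_restrict_cube (m : ℕ) : (cubeM m).restrict (cube m) = cubeM m :=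
  Measure.restrict_eq_self_of_ae_mem (cubeM_ae_mem m)

theorem mu_ae_mem (m : ℕ) : ∀ᵐ p ∂(mu m), p.2 ∈ cube m := by
  unfold mu
  have h : ∀ᵐ p ∂(nuM.prod (cubeM m)), p ∈ (univ : Set ℝ) ×ˢ cube m := by
    rw [ae_iff]
    have : {p : ℝ × (Fin m → ℝ) | ¬ p ∈ (univ : Set ℝ) ×ˢ cube m} = univ ×ˢ (cube m)ᶜ := by
      ext p; simp
    rw [this, Measure.prod_prod, cubeM_compl_cube, mul_zero]
  exact h.mono fun p hp => (mem_prod.1 hp).2

/-- continuous functions are integrable over the cube -/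
theorem integrable_cubeM {m : ℕ} {g : (Fin m → ℝ) → ℝ} (hg : Continuous g) : Integrable g (cubeM m) := by
  rw [← cubeM_restrict_cube]
  exact (hg.continuousOn).integrableOn_compact (cube_isCompact m)

theorem cf_cont (q : ℝ) : Continuous (cf q) := by unfold cf; fun_prop
theorem cd_cont (q : ℝ) : Continuous (cd q) := by unfold cd; fun_prop
theorem vf_cont (q : ℝ) : Continuous (vf q) := by unfold vf; fun_prop

namespace Par

variable {m : ℕ} (P : Par m) (q : ℝ)

theorem theta_contDiff : ContDiff ℝ 1 (P.theta q) := by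
  unfold theta cf; fun_prop
theorem theta_cont : Continuous (P.theta q) := (P.theta_contDiff q).continuous
theorem Q_contDiff : ContDiff ℝ 1 (P.Q q) := by unfold Q; fun_prop
theorem Q_cont : Continuous (P.Q q) := (P.Q_contDiff q).continuous
theorem S_contDiff : ContDiff ℝ 1 (P.S q) := by unfold S cd; fun_prop
theorem S_cont : Continuous (P.S q) := (P.S_contDiff q).continuous
theorem Gam_contDiff : ContDiff ℝ 1 (P.Gam q) := by unfold Gam cd vf; fun_prop
theorem Gam_cont : Continuous (P.Gam q) := (P.Gam_contDiff q).continuous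
theorem Wn_cont : Continuous (P.Wn q) := by unfold Wn; have := P.Q_cont q; fun_prop
theorem F_contDiff : ContDiff ℝ 1 (P.F q) := by
  unfold F
  exact contDiff_fst.add ((P.theta_contDiff q).comp contDiff_snd)
theorem F_cont : Continuous (P.F q) := (P.F_contDiff q).continuous

theorem D0_cont {f : ℝ × (Fin m → ℝ) → ℝ} (hf : ContDiff ℝ 1 f) : Continuous (P.D0 f) := by
  unfold D0
  exact (hf.continuous_fderiv (by norm_num)).clm_apply (by fun_prop)
theorem Dj_cont {f : ℝ × (Fin m → ℝ) → ℝ} (hf : ContDiff ℝ 1 f) (i : Fin m) :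
    Continuous (P.Dj q f i) := by
  unfold Dj
  exact ((hf.continuous_fderiv (by norm_num)).clm_apply (by fun_prop)).div_const _
theorem grad_cont {f : ℝ × (Fin m → ℝ) → ℝ} (hf : ContDiff ℝ 1 f) : Continuous (P.grad q f) := by
  unfold grad
  exact (((P.D0_cont hf).pow 2).add (continuous_finsetSum _ fun i _ => (P.Dj_cont q hf i).pow 2)).sqrt
theorem Vd_cont {f : ℝ × (Fin m → ℝ) → ℝ} (hf : ContDiff ℝ 1 f) : Continuous (P.Vd q f) := by
  unfold Vd
  have := vf_cont q
  exact (hf.continuous_fderiv (by norm_num)).clm_apply (by fun_prop)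
theorem grad_nonneg (f : ℝ × (Fin m → ℝ) → ℝ) (p : ℝ × (Fin m → ℝ)) : 0 ≤ P.grad q f p :=
  Real.sqrt_nonneg _
theorem perp_nonneg (f : ℝ × (Fin m → ℝ) → ℝ) (p : ℝ × (Fin m → ℝ)) : 0 ≤ P.perp q f p :=
  Real.sqrt_nonneg _

theorem Wn_ge_one (hq : q ∈ Ioc (0 : ℝ) (1 / 2)) (a : Fin m → ℝ) : 1 ≤ P.Wn q a := by
  unfold Wn Q
  have h1 : 0 < Real.sin (2 * q) :=
    Real.sin_pos_of_pos_of_lt_pi (by linarith [hq.1]) (by linarith [hq.2, Real.pi_gt_three])
  have h2 : 0 ≤ q / Real.sin (2 * q) := div_nonneg hq.1.le h1.le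
  have h3 : 0 ≤ (∑ i, Real.sin (q * a i) ^ 2) / P.r ^ 2 :=
    div_nonneg (Finset.sum_nonneg fun i _ => sq_nonneg _) (sq_nonneg _)
  nlinarith [mul_nonneg h2 h3]

theorem perp_cont (hq : q ∈ Ioc (0 : ℝ) (1 / 2)) {f : ℝ × (Fin m → ℝ) → ℝ} (hf : ContDiff ℝ 1 f) :
    Continuous (P.perp q f) := by
  unfold perp
  refine ((P.grad_cont q hf).pow 2 |>.sub (((P.Vd_cont q hf).pow 2).div ((P.Wn_cont q).comp continuous_snd) ?_)).sqrt
  intro p
  exact (lt_of_lt_of_le one_pos (P.Wn_ge_one q hq p.2)).ne'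

end Par

end IsoHull
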