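import Pool.Agent.IsoHull27.Basic

/-!
# IsoHull27, Part C1: elementary properties of the bodies (MP_b478d8_an)
-/

open MeasureTheory Set Filter Topology
open scoped ENNReal NNReal

namespace IsoHull

theorem dom_isOpen (M : ℕ) (q : ℝ) : IsOpen (dom M q) := by
  have h : dom M q = {p | |p 0| < (M : ℝ)} ∩ ⋂ i : Fin (2 * M ^ 8),
      {p | |p i.succ| < delta q * (1 + sg M i * p 0 / (M : ℝ) ^ 4)} := by
    ext p; simp [dom]
  rw [h]
  refine IsOpen.inter (isOpen_lt (by fun_prop) (by fun_prop)) (isOpen_iInter_of_finite fun i => ?_)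
  exact isOpen_lt (by fun_prop) (by fun_prop)

private theorem C1_comb {a b x y X Y : ℝ} (ha : 0 ≤ a) (hb : 0 ≤ b) (hab : a + b = 1)
    (hx : x < X) (hy : y < Y) : a * x + b * y < a * X + b * Y := by
  rcases ha.eq_or_lt with h | h
  · subst h
    have : b = 1 := by linarith
    subst this; linarith
  · nlinarith [mul_pos h (sub_pos.2 hx), mul_nonneg hb (sub_pos.2 hy).le]

theorem dom_convex (M : ℕ) (q : ℝ) : Convex ℝ (dom M q) := by
  intro p hp p' hp' a b ha hb hab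
  refine ⟨?_, fun i => ?_⟩
  · have h1 := abs_lt.1 hp.1
    have h2 := abs_lt.1 hp'.1
    have e1 := C1_comb ha hb hab h1.2 h2.2
    have e2 := C1_comb ha hb hab h1.1 h2.1
    have e3 : a * (M : ℝ) + b * M = M := by rw [← add_mul, hab, one_mul]
    simp only [PiLp.add_apply, PiLp.smul_apply, smul_eq_mul]
    rw [abs_lt]
    constructor <;> nlinarith
  · have h1 := abs_lt.1 (hp.2 i)
    have h2 := abs_lt.1 (hp'.2 i)
    have e1 := C1_comb ha hb hab h1.2 h2.2
    have e2 := C1_comb ha hb hab h1.1 h2.1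
    simp only [PiLp.add_apply, PiLp.smul_apply, smul_eq_mul]
    have e3 : delta q * (1 + sg M i * (a * p 0 + b * p' 0) / (M : ℝ) ^ 4) =
        a * (delta q * (1 + sg M i * p 0 / (M : ℝ) ^ 4)) +
          b * (delta q * (1 + sg M i * p' 0 / (M : ℝ) ^ 4)) := by
      have : b = 1 - a := by linarith
      subst this; ring
    rw [abs_lt, e3]
    constructor <;> nlinarith

theorem dom_bounded (M : ℕ) (q : ℝ) : Bornology.IsBounded (dom M q) := by
  rcases Nat.eq_zero_or_pos M with hM | hM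
  · subst hM
    have : dom 0 q = ∅ := by
      ext p
      simp only [mem_empty_iff_false, iff_false]
      intro hp
      have := hp.1
      simp only [Nat.cast_zero] at this
      exact absurd this (not_lt.2 (abs_nonneg _))
    rw [this]; exact Bornology.isBounded_empty
  · have hM1 : (1 : ℝ) ≤ M := by exact_mod_cast hM
    have hM4 : (1 : ℝ) ≤ (M : ℝ) ^ 4 := one_le_pow₀ hM1
    rw [isBounded_iff_forall_norm_le]
    set K : ℝ := M + delta q * (1 + M) with hK
    have hd : 0 ≤ delta q := Real.sqrt_nonneg _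
    have hdM : 0 ≤ delta q * (1 + M) := by positivity
    have hK0 : 0 ≤ K := by positivity
    refine ⟨Real.sqrt (∑ _i : Fin (2 * M ^ 8 + 1), K ^ 2), fun p hp => ?_⟩
    rw [EuclideanSpace.norm_eq]
    apply Real.sqrt_le_sqrt
    apply Finset.sum_le_sum
    intro i _
    apply pow_le_pow_left₀ (norm_nonneg _)
    rw [Real.norm_eq_abs]
    refine Fin.cases ?_ (fun j => ?_) i
    · have := hp.1
      linarith
    · have h1 := hp.2 j
      have h0 := hp.1
      have hs : |sg M j| ≤ 1 := by unfold sg; split_ifs <;> simp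
      have h2 : sg M j * p 0 / (M : ℝ) ^ 4 ≤ M := by
        rw [div_le_iff₀ (by positivity)]
        calc sg M j * p 0 ≤ |sg M j * p 0| := le_abs_self _
          _ = |sg M j| * |p 0| := abs_mul _ _
          _ ≤ 1 * M := by
            apply mul_le_mul hs h0.le (abs_nonneg _) zero_le_one
          _ ≤ M * (M : ℝ) ^ 4 := by nlinarith
      have h3 : delta q * (1 + sg M j * p 0 / (M : ℝ) ^ 4) ≤ delta q * (1 + M) :=
        mul_le_mul_of_nonneg_left (by linarith) hd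
      have h4 : (0 : ℝ) ≤ M := by positivity
      linarith

private theorem C1_delta (q : ℝ) (hq : q ∈ Ioc (0 : ℝ) (1 / 2)) : 0 < delta q ∧ delta q ^ 2 ≤ 1 := by
  obtain ⟨h0, h1⟩ := hq
  have hc : 7 / 8 ≤ Real.cos q := by
    have := Real.one_sub_sq_div_two_le_cos (x := q)
    nlinarith
  have hs : 0 < Real.sin q := Real.sin_pos_of_pos_of_lt_pi h0 (by linarith [Real.pi_gt_three])
  have hs1 : Real.sin q ≤ 1 := Real.sin_le_one q
  have ht : 0 < Real.tan q := by rw [Real.tan_eq_sin_div_cos]; positivity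
  have ht1 : Real.tan q ≤ 8 / 7 := by
    rw [Real.tan_eq_sin_div_cos, div_le_iff₀ (by linarith)]; linarith
  refine ⟨Real.sqrt_pos.2 (by positivity), ?_⟩
  unfold delta
  rw [Real.sq_sqrt (by positivity)]
  nlinarith

theorem zero_mem_dom (M : ℕ) (hM : 0 < M) (q : ℝ) (hq : q ∈ Ioc (0 : ℝ) (1 / 2)) :
    (0 : Eu (2 * M ^ 8 + 1)) ∈ dom M q := by
  refine ⟨?_, fun i => ?_⟩
  · simpa using hM
  · simpa using (C1_delta q hq).1

theorem phi_contDiff (M : ℕ) (q : ℝ) : ContDiff ℝ 1 (phi M q) := by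
  rw [contDiff_euclidean]
  intro i
  refine Fin.cases ?_ (fun j => ?_) i
  · have : (fun p => phi M q p 0) = Prod.fst := by ext p; simp [phi]
    rw [this]; exact contDiff_fst
  · have : (fun p => phi M q p j.succ) =
        fun p => delta q * (1 + sg M j * p.1 / (M : ℝ) ^ 4) * p.2 j := by
      ext p; simp [phi]
    rw [this]; fun_prop

private theorem C1_fderiv_phi (M : ℕ) (q : ℝ) (p v : ℝ × (Fin (2 * M ^ 8) → ℝ)) :
    fderiv ℝ (phi M q) p v = WithLp.toLp 2 (Fin.cons v.1 fun i =>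
      delta q * (sg M i * v.1 / (M : ℝ) ^ 4) * p.2 i +
        delta q * (1 + sg M i * p.1 / (M : ℝ) ^ 4) * v.2 i) := by
  have hd : DifferentiableAt ℝ (phi M q) p :=
    (phi_contDiff M q).differentiable (by norm_num) p
  have key : ∀ i, (fderiv ℝ (phi M q) p v) i = fderiv ℝ (fun p => phi M q p i) p v := by
    intro i
    have h0 : HasFDerivWithinAt (phi M q) (fderiv ℝ (phi M q) p) univ p :=
      hd.hasFDerivAt.hasFDerivWithinAt
    have := (hasFDerivWithinAt_univ.1 (hasFDerivWithinAt_euclidean.1 h0 i)).fderiv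
    rw [this]; rfl
  ext i
  rw [key i]
  refine Fin.cases ?_ (fun j => ?_) i
  · have : (fun p => phi M q p 0) = Prod.fst := by ext p; simp [phi]
    rw [this]; simp [fderiv_fst]
  · have h1 : (fun p => phi M q p j.succ) =
        fun p => (delta q * (1 + sg M j * p.1 / (M : ℝ) ^ 4)) * p.2 j := by
      ext p; simp [phi]
    have hA : HasFDerivAt (fun p : ℝ × (Fin (2 * M ^ 8) → ℝ) =>
        delta q * (1 + sg M j * p.1 / (M : ℝ) ^ 4))
        ((delta q * (sg M j / (M : ℝ) ^ 4)) • ContinuousLinearMap.fst ℝ ℝ (Fin (2 * M ^ 8) → ℝ)) p := by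
      have h2 : (fun p : ℝ × (Fin (2 * M ^ 8) → ℝ) =>
        delta q * (1 + sg M j * p.1 / (M : ℝ) ^ 4)) =
          fun p => delta q + (delta q * (sg M j / (M : ℝ) ^ 4)) * p.1 := by
        ext p; ring
      rw [h2]
      exact ((hasFDerivAt_fst (𝕜 := ℝ) (E := ℝ) (F := Fin (2 * M ^ 8) → ℝ)).const_mul _).const_add _
    have hB : HasFDerivAt (fun p : ℝ × (Fin (2 * M ^ 8) → ℝ) => p.2 j)
        ((ContinuousLinearMap.proj j).comp (ContinuousLinearMap.snd ℝ ℝ (Fin (2 * M ^ 8) → ℝ))) p :=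
      ((ContinuousLinearMap.proj (R := ℝ) (φ := fun _ : Fin (2 * M ^ 8) => ℝ) j).comp
        (ContinuousLinearMap.snd ℝ ℝ (Fin (2 * M ^ 8) → ℝ))).hasFDerivAt
    have hC : HasFDerivAt (fun p : ℝ × (Fin (2 * M ^ 8) → ℝ) =>
        (delta q * (1 + sg M j * p.1 / (M : ℝ) ^ 4)) * p.2 j) _ p := hA.mul hB
    rw [h1, hC.fderiv]
    simp
    ring

private theorem C1_norm_toLp_cons {n : ℕ} (a : ℝ) (b : Fin n → ℝ) :
    ‖(WithLp.toLp 2 (Fin.cons a b) : Eu (n + 1))‖ = Real.sqrt (a ^ 2 + ∑ i, b i ^ 2) := by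
  rw [EuclideanSpace.norm_eq, Fin.sum_univ_succ]
  simp

private theorem C1_arith (ζ : ℝ) (hζ : 0 < ζ) {a b w : ℝ} (hb : 0 ≤ b)
    (hw : w * (1 + ζ) ≤ ζ) (hw0 : 0 ≤ w) (h : |a - b| ≤ w * b) :
    a ≤ (1 + ζ) * b ∧ b ≤ (1 + ζ) * a := by
  have h' := abs_le.1 h
  have hw1 : w ≤ ζ := by nlinarith
  constructor
  · nlinarith
  · have h1 : b * (1 - w) ≤ a := by nlinarith
    have h2 : 1 ≤ (1 + ζ) * (1 - w) := by nlinarith
    nlinarith [mul_le_mul_of_nonneg_left h2 hb, mul_le_mul_of_nonneg_left h1 (by linarith : 0 ≤ 1 + ζ)]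

/-- C-grad -/
theorem grad_comp (ζ : ℝ) (hζ : 0 < ζ) :
    ∃ M₀ : ℕ, ∀ M (hM : 0 < M), M₀ ≤ M → ∀ q ∈ Ioc (0 : ℝ) (1 / 2),
      ∀ f : Eu (2 * M ^ 8 + 1) → ℝ, ∀ p : ℝ × (Fin (2 * M ^ 8) → ℝ), |p.1| < (M : ℝ) →
        p.2 ∈ cube (2 * M ^ 8) → DifferentiableAt ℝ f (phi M q p) →
        (parM M hM).grad q (fun p => f (phi M q p)) p ≤ (1 + ζ) * ‖fderiv ℝ f (phi M q p)‖ ∧
        ‖fderiv ℝ f (phi M q p)‖ ≤ (1 + ζ) * (parM M hM).grad q (fun p => f (phi M q p)) p := by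
  obtain ⟨K, hK⟩ := exists_nat_ge (2 * (1 + ζ) / ζ)
  refine ⟨K, fun M hM hKM q hq f p hp ha hf => ?_⟩
  obtain ⟨hδ0, hδ1⟩ := C1_delta q hq
  have hM1 : (1 : ℝ) ≤ M := by exact_mod_cast hM
  have hM0 : (0 : ℝ) < M := by linarith
  set D := fderiv ℝ f (phi M q p) with hD
  set v : Eu (2 * M ^ 8 + 1) := (InnerProductSpace.toDual ℝ _).symm D with hv
  have hvn : ‖v‖ = ‖D‖ := LinearIsometryEquiv.norm_map _ _
  have hDw : ∀ w : Eu (2 * M ^ 8 + 1), D w = v 0 * w 0 + ∑ i : Fin (2 * M ^ 8), v i.succ * w i.succ := by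
    intro w
    have h1 : D w = inner ℝ v w := by
      rw [hv, InnerProductSpace.toDual_symm_apply]
    rw [h1, PiLp.inner_apply, Fin.sum_univ_succ]
    simp only [RCLike.inner_apply, conj_trivial]
    congr 1
    · ring
    · exact Finset.sum_congr rfl fun i _ => by ring
  have hcomp : ∀ w : ℝ × (Fin (2 * M ^ 8) → ℝ),
      fderiv ℝ (fun p => f (phi M q p)) p w = D (fderiv ℝ (phi M q) p w) := by
    intro w
    have hphi : DifferentiableAt ℝ (phi M q) p :=
      (phi_contDiff M q).differentiable (by norm_num) p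
    have h1 : HasFDerivAt (fun p => f (phi M q p)) (D.comp (fderiv ℝ (phi M q) p)) p :=
      hf.hasFDerivAt.comp p hphi.hasFDerivAt
    rw [h1.fderiv]; rfl
  set u : ℝ := p.1 / (M : ℝ) ^ 4 with hu
  have hsq : ∀ i, sg M i * sg M i = 1 := by
    intro i; unfold sg; split_ifs <;> norm_num
  have hG0 : (parM M hM).D0 (fun p => f (phi M q p)) p =
      v 0 + ∑ i : Fin (2 * M ^ 8), v i.succ * (-(delta q * u / (M : ℝ) ^ 4) * p.2 i) := by
    unfold Par.D0
    rw [hcomp, C1_fderiv_phi, hDw]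
    simp only [Fin.cons_zero, Fin.cons_succ, mul_one]
    congr 1
    apply Finset.sum_congr rfl
    intro i _
    congr 1
    show delta q * (sg M i / (M : ℝ) ^ 4) * p.2 i +
      delta q * (1 + sg M i * p.1 / (M : ℝ) ^ 4) * (-(sg M i * p.2 i) / (M : ℝ) ^ 4) =
      -(delta q * u / (M : ℝ) ^ 4) * p.2 i
    have : delta q * (sg M i / (M : ℝ) ^ 4) * p.2 i +
      delta q * (1 + sg M i * p.1 / (M : ℝ) ^ 4) * (-(sg M i * p.2 i) / (M : ℝ) ^ 4) =
      -(delta q * u / (M : ℝ) ^ 4) * p.2 i * (sg M i * sg M i) := by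
      rw [hu]; ring
    rw [this, hsq, mul_one]
  have hGj : ∀ i, (parM M hM).Dj q (fun p => f (phi M q p)) i p =
      v i.succ * (1 + sg M i * u) := by
    intro i
    unfold Par.Dj
    rw [hcomp, C1_fderiv_phi, hDw]
    simp only [Fin.cons_zero, Fin.cons_succ, mul_zero, zero_div, zero_mul, zero_add]
    rw [Finset.sum_eq_single i]
    · rw [Pi.single_eq_same, hu]
      field_simp
    · intro j _ hj
      rw [Pi.single_eq_of_ne hj]; ring
    · intro h; exact absurd (Finset.mem_univ _) h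
  set G : Eu (2 * M ^ 8 + 1) := WithLp.toLp 2 (Fin.cons ((parM M hM).D0 (fun p => f (phi M q p)) p)
    fun i => (parM M hM).Dj q (fun p => f (phi M q p)) i p) with hG
  have hGn : ‖G‖ = (parM M hM).grad q (fun p => f (phi M q p)) p := by
    rw [hG, C1_norm_toLp_cons]; rfl
  have hdiff : G - v = WithLp.toLp 2 (Fin.cons
      (∑ i : Fin (2 * M ^ 8), v i.succ * (-(delta q * u / (M : ℝ) ^ 4) * p.2 i))
      fun i => sg M i * u * v i.succ) := by
    ext i
    refine Fin.cases ?_ (fun j => ?_) i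
    · simp only [PiLp.sub_apply, hG, Fin.cons_zero]
      rw [hG0]; ring
    · simp only [PiLp.sub_apply, hG, Fin.cons_succ]
      rw [hGj]; ring
  set s : ℝ := ∑ i : Fin (2 * M ^ 8), v i.succ ^ 2 with hs
  have hs0 : 0 ≤ s := Finset.sum_nonneg fun i _ => sq_nonneg _
  have hvs : s ≤ ‖v‖ ^ 2 := by
    rw [EuclideanSpace.norm_sq_eq, Fin.sum_univ_succ]
    simp only [Real.norm_eq_abs, sq_abs]
    nlinarith [sq_nonneg (v 0)]
  have ha2 : ∑ i : Fin (2 * M ^ 8), p.2 i ^ 2 ≤ 2 * (M : ℝ) ^ 8 := by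
    calc ∑ i : Fin (2 * M ^ 8), p.2 i ^ 2 ≤ ∑ i : Fin (2 * M ^ 8), (1 : ℝ) := by
          apply Finset.sum_le_sum
          intro i _
          have := ha i
          nlinarith [this.1, this.2]
      _ = 2 * (M : ℝ) ^ 8 := by simp
  have hcs : (∑ i : Fin (2 * M ^ 8), v i.succ * (-(delta q * u / (M : ℝ) ^ 4) * p.2 i)) ^ 2 ≤
      2 * u ^ 2 * s := by
    have h1 : ∑ i : Fin (2 * M ^ 8), v i.succ * (-(delta q * u / (M : ℝ) ^ 4) * p.2 i) =
        (-(delta q * u / (M : ℝ) ^ 4)) * ∑ i : Fin (2 * M ^ 8), v i.succ * p.2 i := by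
      rw [Finset.mul_sum]
      exact Finset.sum_congr rfl fun i _ => by ring
    have h2 : (∑ i : Fin (2 * M ^ 8), v i.succ * p.2 i) ^ 2 ≤ s * (2 * (M : ℝ) ^ 8) := by
      refine (Finset.sum_mul_sq_le_sq_mul_sq _ _ _).trans ?_
      exact mul_le_mul_of_nonneg_left ha2 hs0
    rw [h1, mul_pow]
    have h3 : (-(delta q * u / (M : ℝ) ^ 4)) ^ 2 = delta q ^ 2 * u ^ 2 / (M : ℝ) ^ 8 := by
      rw [neg_sq, div_pow, mul_pow]; ring
    rw [h3]
    calc delta q ^ 2 * u ^ 2 / (M : ℝ) ^ 8 * (∑ i : Fin (2 * M ^ 8), v i.succ * p.2 i) ^ 2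
        ≤ delta q ^ 2 * u ^ 2 / (M : ℝ) ^ 8 * (s * (2 * (M : ℝ) ^ 8)) :=
          mul_le_mul_of_nonneg_left h2 (by positivity)
      _ = delta q ^ 2 * (2 * u ^ 2 * s) := by field_simp
      _ ≤ 1 * (2 * u ^ 2 * s) := mul_le_mul_of_nonneg_right hδ1 (by positivity)
      _ = 2 * u ^ 2 * s := one_mul _
  have hnd : ‖G - v‖ ≤ 2 * |u| * ‖v‖ := by
    rw [hdiff, C1_norm_toLp_cons]
    have h1 : ∑ i : Fin (2 * M ^ 8), (sg M i * u * v i.succ) ^ 2 = u ^ 2 * s := by
      rw [hs, Finset.mul_sum]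
      apply Finset.sum_congr rfl
      intro i _
      have := hsq i
      calc (sg M i * u * v i.succ) ^ 2 = (sg M i * sg M i) * (u ^ 2 * v i.succ ^ 2) := by ring
        _ = _ := by rw [this, one_mul]
    rw [h1]
    apply Real.sqrt_le_iff.2
    refine ⟨by positivity, ?_⟩
    have h2 : (2 * |u| * ‖v‖) ^ 2 = 4 * u ^ 2 * ‖v‖ ^ 2 := by
      rw [mul_pow, mul_pow, sq_abs]; ring
    rw [h2]
    nlinarith [mul_le_mul_of_nonneg_left hvs (sq_nonneg u), mul_nonneg (sq_nonneg u) hs0]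
  have hu1 : 2 * |u| * (1 + ζ) ≤ ζ := by
    have h1 : |u| ≤ 1 / M := by
      rw [hu, abs_div, abs_of_pos (by positivity : (0 : ℝ) < (M : ℝ) ^ 4),
        div_le_div_iff₀ (by positivity) hM0]
      have h2 : (M : ℝ) ^ 2 ≤ (M : ℝ) ^ 4 := pow_le_pow_right₀ hM1 (by norm_num)
      nlinarith
    have h2 : 2 * (1 + ζ) / ζ ≤ M := hK.trans (by exact_mod_cast hKM)
    rw [div_le_iff₀ hζ] at h2
    have h3 : |u| * M ≤ 1 := by
      rwa [le_div_iff₀ hM0] at h1
    have h4 : 2 * |u| * (1 + ζ) ≤ |u| * (M * ζ) := by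
      nlinarith [mul_le_mul_of_nonneg_left h2 (abs_nonneg u)]
    nlinarith
  have habs : |‖G‖ - ‖v‖| ≤ 2 * |u| * ‖v‖ := (abs_norm_sub_norm_le G v).trans hnd
  have := C1_arith ζ hζ (norm_nonneg v) hu1 (by positivity) habs
  rw [hGn, hvn] at this
  exact this

end IsoHull
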