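import Pool.Agent.IsoHull27.Defs

/-!
# C-int : the uniform measure on the body and the product law `mu`
-/

open MeasureTheory Set Filter Topology
open scoped ENNReal NNReal

namespace IsoHull

/-- coordinatewise scaling -/
theorem C2_scale {m : ℕ} (l : Fin m → ℝ) (hl : ∀ i, 0 < l i) (G : (Fin m → ℝ) → ℝ≥0∞)
    (hG : Measurable G) :
    ∫⁻ y, G y = ENNReal.ofReal (∏ i, l i) * ∫⁻ a : Fin m → ℝ, G (fun i => l i * a i) := by
  have hdet : (Matrix.diagonal l).det = ∏ i, l i := Matrix.det_diagonal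
  have hpos : 0 < ∏ i, l i := Finset.prod_pos fun i _ => hl i
  have h := Real.smul_map_diagonal_volume_pi (D := l) (by rw [hdet]; exact hpos.ne')
  rw [hdet, abs_of_pos hpos] at h
  conv_lhs => rw [← h]
  rw [lintegral_smul_measure, lintegral_map hG, smul_eq_mul]
  · congr 1
    refine lintegral_congr fun a => ?_
    congr 1
    funext i
    simp [Matrix.toLin'_apply, Matrix.mulVec_diagonal]
  · exact (LinearMap.continuous_on_pi _).measurable

theorem C2_unif_prob : IsProbabilityMeasure unif := by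
  refine ⟨?_⟩
  rw [unif, Measure.smul_apply, Measure.restrict_apply_univ, Real.volume_Icc]
  norm_num
  exact ENNReal.inv_mul_cancel (by norm_num) (by norm_num)

theorem C2_cubeM_prob (m : ℕ) : IsProbabilityMeasure (cubeM m) := by
  have := C2_unif_prob
  unfold cubeM
  infer_instance

theorem C2_restrict_cube (m : ℕ) :
    (volume : Measure (Fin m → ℝ)).restrict (Set.univ.pi fun _ => Ioo (-1 : ℝ) 1) =
      (2 : ℝ≥0∞) ^ m • cubeM m := by
  have := C2_unif_prob
  rw [volume_pi, Measure.restrict_pi_pi]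
  refine Measure.pi_eq fun s hs => ?_
  rw [Measure.smul_apply, cubeM, Measure.pi_pi, smul_eq_mul]
  have h2 : (2 : ℝ≥0∞) ^ m = ∏ _i : Fin m, (2 : ℝ≥0∞) := by simp
  rw [h2, ← Finset.prod_mul_distrib]
  refine Finset.prod_congr rfl fun i _ => ?_
  rw [unif, Measure.smul_apply, smul_eq_mul, ← mul_assoc,
    ENNReal.mul_inv_cancel (by norm_num) (by norm_num), one_mul,
    Measure.restrict_congr_set (Ioo_ae_eq_Icc (a := (-1 : ℝ)) (b := 1))]

theorem C2_lintegral_cube (m : ℕ) (G : (Fin m → ℝ) → ℝ≥0∞) :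
    ∫⁻ a, (Set.univ.pi fun _ => Ioo (-1 : ℝ) 1).indicator G a =
      (2 : ℝ≥0∞) ^ m * ∫⁻ a, G a ∂(cubeM m) := by
  rw [lintegral_indicator (MeasurableSet.univ_pi fun _ => measurableSet_Ioo),
    C2_restrict_cube, lintegral_smul_measure, smul_eq_mul]

theorem C2_sg_sq (M : ℕ) (i : Fin (2 * M ^ 8)) : sg M i = 1 ∨ sg M i = -1 := by
  unfold sg; split_ifs <;> simp

/-- the product of the side lengths -/
theorem C2_prod (M : ℕ) (d u : ℝ) :
    ∏ i : Fin (2 * M ^ 8), (d * (1 + sg M i * u)) = d ^ (2 * M ^ 8) * (1 - u ^ 2) ^ (M ^ 8) := by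
  rw [Finset.prod_mul_distrib, Finset.prod_const, Finset.card_univ, Fintype.card_fin]
  congr 1
  have key : ∀ N : ℕ, ∏ i : Fin (N + N), (1 + (if (i : ℕ) < N then (1 : ℝ) else -1) * u) =
      (1 - u ^ 2) ^ N := by
    intro N
    rw [Fin.prod_univ_add]
    have h1 : ∀ i : Fin N, (1 + (if ((Fin.castAdd N i : Fin (N + N)) : ℕ) < N then (1 : ℝ) else -1) * u)
        = 1 + u := by
      intro i
      rw [if_pos (by simp)]; ring
    have h2 : ∀ i : Fin N, (1 + (if ((Fin.natAdd N i : Fin (N + N)) : ℕ) < N then (1 : ℝ) else -1) * u)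
        = 1 - u := by
      intro i
      rw [if_neg (by simp)]; ring
    rw [Finset.prod_congr rfl fun i _ => h1 i, Finset.prod_congr rfl fun i _ => h2 i,
      Finset.prod_const, Finset.prod_const, Finset.card_univ, Fintype.card_fin, ← mul_pow]
    congr 1
    ring
  have h3 := key (M ^ 8)
  have h4 : ∏ i : Fin (2 * M ^ 8), (1 + sg M i * u) =
      ∏ i : Fin (M ^ 8 + M ^ 8), (1 + (if (i : ℕ) < M ^ 8 then (1 : ℝ) else -1) * u) := by
    have hN : 2 * M ^ 8 = M ^ 8 + M ^ 8 := by ring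
    refine Fintype.prod_equiv (finCongr hN) _ _ fun i => ?_
    simp [sg]
  rw [h4, h3]

theorem C2_measurableSet_dom (M : ℕ) (q : ℝ) : MeasurableSet (dom M q) := by
  have h1 : ∀ j, Measurable fun p : Eu (2 * M ^ 8 + 1) => p j := fun j => by fun_prop
  have h2 : dom M q = {p : Eu (2 * M ^ 8 + 1) | |p 0| < (M : ℝ)} ∩ ⋂ i : Fin (2 * M ^ 8),
      {p : Eu (2 * M ^ 8 + 1) | |p i.succ| < delta q * (1 + sg M i * p 0 / (M : ℝ) ^ 4)} := by
    ext p; simp [dom]
  rw [h2]
  refine (measurableSet_lt ((h1 0).abs) measurable_const).inter ?_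
  refine MeasurableSet.iInter fun i => ?_
  refine measurableSet_lt ((h1 i.succ).abs) ?_
  exact measurable_const.mul (measurable_const.add ((measurable_const.mul (h1 0)).div_const _))

theorem C2_measurable_phi (M : ℕ) (q : ℝ) : Measurable (phi M q) := by
  unfold phi
  refine (MeasurableEquiv.toLp 2 _).measurable.comp ?_
  refine measurable_pi_iff.2 fun j => ?_
  refine Fin.cases ?_ (fun i => ?_) j
  · simpa using measurable_fst
  · simp only [Fin.cons_succ]
    have : Measurable fun p : ℝ × (Fin (2 * M ^ 8) → ℝ) => p.2 i :=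
      (measurable_pi_apply i).comp measurable_snd
    refine Measurable.mul ?_ this
    exact measurable_const.mul (measurable_const.add ((measurable_const.mul measurable_fst).div_const _))

/-- coordinates on Euclidean space -/
theorem C2_lintegral_eu {m : ℕ} (g : Eu (m + 1) → ℝ≥0∞) (hg : Measurable g) :
    ∫⁻ x, g x = ∫⁻ x : ℝ, ∫⁻ y : Fin m → ℝ, g (WithLp.toLp 2 (Fin.cons x y)) := by
  have h1 : MeasurePreserving (@WithLp.toLp 2 (Fin (m + 1) → ℝ)) :=
    PiLp.volume_preserving_toLp (Fin (m + 1))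
  rw [← h1.lintegral_comp hg]
  have h2 := (volume_preserving_piFinSuccAbove (fun _ : Fin (m + 1) => ℝ) 0).symm
  have hg' : Measurable fun y : Fin (m + 1) → ℝ => g (WithLp.toLp 2 y) := hg.comp h1.measurable
  rw [← h2.lintegral_comp hg']
  rw [Measure.volume_eq_prod, lintegral_prod]
  · refine lintegral_congr fun x => lintegral_congr fun y => ?_
    simp [MeasurableEquiv.piFinSuccAbove, Fin.insertNthEquiv]
  · exact (hg'.comp h2.measurable).aemeasurable

/-- exact formula for integrals over the body -/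
theorem C2_formula (M : ℕ) (hM : 0 < M) (q : ℝ) (hδ : 0 < delta q)
    (g : Eu (2 * M ^ 8 + 1) → ℝ≥0∞) (hg : Measurable g) :
    ∫⁻ x in dom M q, g x = ENNReal.ofReal ((2 * delta q) ^ (2 * M ^ 8)) *
      ∫⁻ x in {x : ℝ | |x| < M}, ENNReal.ofReal ((1 - x ^ 2 / (M : ℝ) ^ 8) ^ (M ^ 8)) *
        ∫⁻ a, g (phi M q (x, a)) ∂(cubeM (2 * M ^ 8)) := by
  have hms : MeasurableSet {x : ℝ | |x| < M} := measurableSet_lt measurable_abs measurable_const
  rw [← lintegral_indicator (C2_measurableSet_dom M q),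
    C2_lintegral_eu _ (hg.indicator (C2_measurableSet_dom M q)), ← lintegral_indicator hms,
    ← lintegral_const_mul']
  swap
  · exact ENNReal.ofReal_ne_top
  refine lintegral_congr fun x => ?_
  by_cases hx : |x| < M
  · have hM1 : (1 : ℝ) ≤ M := by exact_mod_cast hM
    have hu : |x / (M : ℝ) ^ 4| < 1 := by
      rw [abs_div, abs_of_pos (by positivity : (0 : ℝ) < (M : ℝ) ^ 4), div_lt_one (by positivity)]
      calc |x| < M := hx
        _ = (M : ℝ) ^ 1 := by ring
        _ ≤ (M : ℝ) ^ 4 := pow_le_pow_right₀ hM1 (by norm_num)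
    have hl : ∀ i : Fin (2 * M ^ 8), 0 < delta q * (1 + sg M i * (x / (M : ℝ) ^ 4)) := by
      intro i
      refine mul_pos hδ ?_
      rw [abs_lt] at hu
      rcases C2_sg_sq M i with h | h <;> rw [h] <;> linarith [hu.1, hu.2]
    rw [indicator_of_mem (show x ∈ {x : ℝ | |x| < M} from hx)]
    rw [C2_scale (fun i => delta q * (1 + sg M i * (x / (M : ℝ) ^ 4))) hl, C2_prod]
    · have hind : ∀ a : Fin (2 * M ^ 8) → ℝ, (dom M q).indicator g (WithLp.toLp 2 (Fin.cons x
          fun i => delta q * (1 + sg M i * (x / (M : ℝ) ^ 4)) * a i)) =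
          (Set.univ.pi fun _ => Ioo (-1 : ℝ) 1).indicator (fun a => g (phi M q (x, a))) a := by
        intro a
        have hphi : (WithLp.toLp 2 (Fin.cons x
          fun i => delta q * (1 + sg M i * (x / (M : ℝ) ^ 4)) * a i) : Eu (2 * M ^ 8 + 1)) =
            phi M q (x, a) := by
          simp only [phi, mul_div_assoc]
        rw [hphi]
        by_cases ha : a ∈ (Set.univ.pi fun _ => Ioo (-1 : ℝ) 1)
        · rw [indicator_of_mem ha, indicator_of_mem]
          refine ⟨by simpa [phi] using hx, fun i => ?_⟩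
          have h1 := hl i
          have h2 : |a i| < 1 := by
            rw [abs_lt]; exact ha i (mem_univ i)
          simp only [phi, Fin.cons_zero, Fin.cons_succ]
          rw [abs_mul, mul_div_assoc, abs_of_pos h1]
          exact mul_lt_of_lt_one_right h1 h2
        · rw [indicator_of_notMem ha, indicator_of_notMem]
          intro hmem
          apply ha
          intro i _
          have h1 := hl i
          have h3 := hmem.2 i
          simp only [phi, Fin.cons_zero, Fin.cons_succ] at h3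
          rw [abs_mul, mul_div_assoc, abs_of_pos h1] at h3
          have h4 : |a i| < 1 := by
            by_contra hcon
            rw [not_lt] at hcon
            nlinarith
          rw [abs_lt] at h4
          exact h4
      rw [lintegral_congr hind, C2_lintegral_cube, ← mul_assoc, ← mul_assoc]
      congr 1
      have hpow : (x / (M : ℝ) ^ 4) ^ 2 = x ^ 2 / (M : ℝ) ^ 8 := by
        rw [div_pow, ← pow_mul]
      have hnn : (0 : ℝ) ≤ (1 - x ^ 2 / (M : ℝ) ^ 8) ^ (M ^ 8) := by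
        apply pow_nonneg
        rw [← hpow, sub_nonneg, ← sq_abs]
        exact pow_le_one₀ (abs_nonneg _) hu.le
      rw [hpow, ← ENNReal.ofReal_mul (by positivity), mul_pow]
      rw [show (2 : ℝ≥0∞) = ENNReal.ofReal 2 by simp, ← ENNReal.ofReal_pow (by norm_num),
        ← ENNReal.ofReal_mul (by positivity)]
      congr 1
      ring
    · refine (hg.indicator (C2_measurableSet_dom M q)).comp ?_
      refine (MeasurableEquiv.toLp 2 _).measurable.comp ?_
      refine measurable_pi_iff.2 fun j => ?_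
      refine Fin.cases ?_ (fun i => ?_) j
      · simp
      · simpa using measurable_pi_apply i
  · rw [indicator_of_notMem (show x ∉ {x : ℝ | |x| < M} from hx), mul_zero]
    have : ∀ y : Fin (2 * M ^ 8) → ℝ,
        (dom M q).indicator g (WithLp.toLp 2 (Fin.cons x y)) = 0 := by
      intro y
      refine indicator_of_notMem (fun hmem => hx ?_) _
      simpa using hmem.1
    simp [this]

/-! ### Gaussian comparison -/

theorem C2_exp_le {u : ℝ} (h0 : 0 ≤ u) (h1 : u ≤ 1 / 2) : Real.exp (-u - u ^ 2) ≤ 1 - u := by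
  have h2 := Real.quadratic_le_exp_of_nonneg (x := u + u ^ 2) (by positivity)
  have h3 : Real.exp (-u - u ^ 2) * Real.exp (u + u ^ 2) = 1 := by
    rw [← Real.exp_add]; norm_num
  have h4 := Real.exp_pos (-u - u ^ 2)
  have h5 : 1 ≤ (1 - u) * (1 + (u + u ^ 2) + (u + u ^ 2) ^ 2 / 2) := by
    have : (1 - u) * (1 + (u + u ^ 2) + (u + u ^ 2) ^ 2 / 2) - 1 =
        u ^ 2 / 2 * (1 - u - u ^ 2 - u ^ 3) := by ring
    have h6 : 0 ≤ 1 - u - u ^ 2 - u ^ 3 := by nlinarith [sq_nonneg u, mul_nonneg h0 (sq_nonneg u)]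
    nlinarith [mul_nonneg (by positivity : 0 ≤ u ^ 2 / 2) h6]
  have h7 : 1 ≤ (1 - u) * Real.exp (u + u ^ 2) :=
    h5.trans (mul_le_mul_of_nonneg_left h2 (by linarith))
  nlinarith

theorem C2_upper (M : ℕ) (hM : 0 < M) (x : ℝ) (hx : |x| < M) :
    (1 - x ^ 2 / (M : ℝ) ^ 8) ^ (M ^ 8) ≤ Real.exp (-x ^ 2) := by
  have hM1 : (1 : ℝ) ≤ M := by exact_mod_cast hM
  have hx2 : x ^ 2 ≤ (M : ℝ) ^ 8 := by
    rw [← sq_abs]
    calc |x| ^ 2 ≤ (M : ℝ) ^ 2 := pow_le_pow_left₀ (abs_nonneg _) hx.le 2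
      _ ≤ (M : ℝ) ^ 8 := pow_le_pow_right₀ hM1 (by norm_num)
  have h0 : 0 ≤ 1 - x ^ 2 / (M : ℝ) ^ 8 := by
    rw [sub_nonneg]; exact div_le_one_of_le₀ hx2 (by positivity)
  have h1 : 1 - x ^ 2 / (M : ℝ) ^ 8 ≤ Real.exp (-(x ^ 2 / (M : ℝ) ^ 8)) := by
    have := Real.add_one_le_exp (-(x ^ 2 / (M : ℝ) ^ 8)); linarith
  calc (1 - x ^ 2 / (M : ℝ) ^ 8) ^ (M ^ 8) ≤ Real.exp (-(x ^ 2 / (M : ℝ) ^ 8)) ^ (M ^ 8) :=
        pow_le_pow_left₀ h0 h1 _
    _ = Real.exp (-x ^ 2) := by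
        rw [← Real.exp_nat_mul]
        congr 1
        push_cast
        field_simp

theorem C2_lower (M : ℕ) (hM : 2 ≤ M) (x : ℝ) (hx : |x| < M) :
    Real.exp (-x ^ 2) * Real.exp (-(1 / (M : ℝ) ^ 4)) ≤ (1 - x ^ 2 / (M : ℝ) ^ 8) ^ (M ^ 8) := by
  have hM2 : (2 : ℝ) ≤ M := by exact_mod_cast hM
  have hMpos : (0 : ℝ) < M := by linarith
  have hx2 : x ^ 2 ≤ (M : ℝ) ^ 2 := by
    rw [← sq_abs]
    exact pow_le_pow_left₀ (abs_nonneg _) hx.le 2
  set u := x ^ 2 / (M : ℝ) ^ 8 with hu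
  have hu0 : 0 ≤ u := by positivity
  have hu1 : u ≤ 1 / 2 := by
    rw [hu, div_le_iff₀ (by positivity)]
    have h6 : (2 : ℝ) ^ 6 ≤ (M : ℝ) ^ 6 := pow_le_pow_left₀ (by norm_num) hM2 6
    have : (M : ℝ) ^ 8 = (M : ℝ) ^ 2 * (M : ℝ) ^ 6 := by ring
    rw [this]
    nlinarith [sq_nonneg (M : ℝ)]
  have h1 := C2_exp_le hu0 hu1
  calc Real.exp (-x ^ 2) * Real.exp (-(1 / (M : ℝ) ^ 4)) =
        Real.exp (-x ^ 2 + -(1 / (M : ℝ) ^ 4)) := by rw [Real.exp_add]
    _ ≤ Real.exp ((M ^ 8 : ℕ) * (-u - u ^ 2)) := by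
        rw [Real.exp_le_exp]
        have h2 : ((M ^ 8 : ℕ) : ℝ) * (-u - u ^ 2) = -x ^ 2 - x ^ 4 / (M : ℝ) ^ 8 := by
          rw [hu]; push_cast; field_simp
        rw [h2]
        have h3 : x ^ 4 / (M : ℝ) ^ 8 ≤ 1 / (M : ℝ) ^ 4 := by
          rw [div_le_div_iff₀ (by positivity) (by positivity)]
          have h4 : x ^ 4 ≤ (M : ℝ) ^ 4 := by
            calc x ^ 4 = (x ^ 2) ^ 2 := by ring
              _ ≤ ((M : ℝ) ^ 2) ^ 2 := pow_le_pow_left₀ (by positivity) hx2 2
              _ = (M : ℝ) ^ 4 := by ring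
          calc x ^ 4 * (M : ℝ) ^ 4 ≤ (M : ℝ) ^ 4 * (M : ℝ) ^ 4 := by gcongr
            _ = 1 * (M : ℝ) ^ 8 := by ring
        linarith
    _ = Real.exp (-u - u ^ 2) ^ (M ^ 8) := by rw [← Real.exp_nat_mul]
    _ ≤ (1 - u) ^ (M ^ 8) := pow_le_pow_left₀ (Real.exp_pos _).le h1 _

theorem C2_nuM_univ : nuM univ = 1 := by
  rw [nuM, withDensity_apply _ MeasurableSet.univ, Measure.restrict_univ]
  have h1 : Integrable fun x : ℝ => Real.exp (-x ^ 2) := by
    have := integrable_exp_neg_mul_sq (b := 1) one_pos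
    simpa using this
  have h2 : ∫ x : ℝ, nu0 x = 1 := by
    unfold nu0
    rw [integral_div]
    have := integral_gaussian 1
    simp only [neg_mul, one_mul, div_one] at this
    rw [this, div_self]
    exact (Real.sqrt_pos.2 Real.pi_pos).ne'
  rw [← ofReal_integral_eq_lintegral_ofReal, h2, ENNReal.ofReal_one]
  · exact h1.div_const _
  · exact Eventually.of_forall fun x => by unfold nu0; positivity

theorem C2_tendsto : Tendsto (fun M : ℕ => nuM {x : ℝ | |x| < M}) atTop (𝓝 1) := by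
  rw [← C2_nuM_univ]
  have hU : (⋃ M : ℕ, {x : ℝ | |x| < M}) = univ := by
    refine eq_univ_of_forall fun x => ?_
    obtain ⟨n, hn⟩ := exists_nat_gt |x|
    exact mem_iUnion.2 ⟨n, hn⟩
  rw [← hU]
  refine tendsto_measure_iUnion_atTop fun m n hmn x hx => ?_
  have : (m : ℝ) ≤ n := by exact_mod_cast hmn
  exact lt_of_lt_of_le hx this

/-- Fubini for `mu` on a slab -/
theorem C2_mu (M : ℕ) (q : ℝ) (g : Eu (2 * M ^ 8 + 1) → ℝ≥0∞) (hg : Measurable g) :
    ∫⁻ p in {p | |p.1| < (M : ℝ)}, g (phi M q p) ∂(mu (2 * M ^ 8)) =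
      ∫⁻ x in {x : ℝ | |x| < M}, ENNReal.ofReal (nu0 x) *
        ∫⁻ a, g (phi M q (x, a)) ∂(cubeM (2 * M ^ 8)) := by
  have hp := C2_cubeM_prob (2 * M ^ 8)
  have hms : MeasurableSet {x : ℝ | |x| < M} := measurableSet_lt measurable_abs measurable_const
  have hset : {p : ℝ × (Fin (2 * M ^ 8) → ℝ) | |p.1| < (M : ℝ)} =
      {x : ℝ | |x| < M} ×ˢ (univ : Set (Fin (2 * M ^ 8) → ℝ)) := by
    ext p; simp
  have hgp : Measurable fun p => g (phi M q p) := hg.comp (C2_measurable_phi M q)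
  have hnu : Measurable fun x => ENNReal.ofReal (nu0 x) := by
    unfold nu0
    exact ENNReal.measurable_ofReal.comp
      ((Real.continuous_exp.comp (continuous_pow 2).neg).measurable.div_const _)
  have hsf : SFinite nuM := by unfold nuM; infer_instance
  rw [hset, mu, ← Measure.prod_restrict, Measure.restrict_univ,
    lintegral_prod _ hgp.aemeasurable, nuM, restrict_withDensity hms,
    lintegral_withDensity_eq_lintegral_mul _ hnu]
  · rfl
  · exact hgp.lintegral_prod_right'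

theorem C2_I_upper (M : ℕ) (hM : 0 < M) (q : ℝ) (hδ : 0 < delta q)
    (g : Eu (2 * M ^ 8 + 1) → ℝ≥0∞) (hg : Measurable g) :
    ∫⁻ x in dom M q, g x ≤ ENNReal.ofReal ((2 * delta q) ^ (2 * M ^ 8)) *
      (ENNReal.ofReal (Real.sqrt Real.pi) *
        ∫⁻ p in {p | |p.1| < (M : ℝ)}, g (phi M q p) ∂(mu (2 * M ^ 8))) := by
  have hms : MeasurableSet {x : ℝ | |x| < M} := measurableSet_lt measurable_abs measurable_const
  rw [C2_formula M hM q hδ g hg, C2_mu M q g hg]
  refine mul_le_mul_right ?_ _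
  rw [← lintegral_const_mul' _ _ ENNReal.ofReal_ne_top]
  refine setLIntegral_mono' hms fun x hx => ?_
  rw [← mul_assoc]
  refine mul_le_mul_left ?_ _
  rw [← ENNReal.ofReal_mul (Real.sqrt_nonneg _)]
  refine ENNReal.ofReal_le_ofReal ?_
  have hs : 0 < Real.sqrt Real.pi := Real.sqrt_pos.2 Real.pi_pos
  have : Real.sqrt Real.pi * nu0 x = Real.exp (-x ^ 2) := by
    unfold nu0; field_simp
  rw [this]
  exact C2_upper M hM x hx

theorem C2_I_lower (M : ℕ) (hM : 2 ≤ M) (q : ℝ) (hδ : 0 < delta q)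
    (g : Eu (2 * M ^ 8 + 1) → ℝ≥0∞) (hg : Measurable g) :
    ENNReal.ofReal ((2 * delta q) ^ (2 * M ^ 8)) *
      (ENNReal.ofReal (Real.sqrt Real.pi) * (ENNReal.ofReal (Real.exp (-(1 / (M : ℝ) ^ 4))) *
        ∫⁻ p in {p | |p.1| < (M : ℝ)}, g (phi M q p) ∂(mu (2 * M ^ 8)))) ≤
      ∫⁻ x in dom M q, g x := by
  have hms : MeasurableSet {x : ℝ | |x| < M} := measurableSet_lt measurable_abs measurable_const
  rw [C2_formula M (by omega) q hδ g hg, C2_mu M q g hg]
  refine mul_le_mul_right ?_ _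
  rw [← lintegral_const_mul' _ _ ENNReal.ofReal_ne_top,
    ← lintegral_const_mul' _ _ ENNReal.ofReal_ne_top]
  refine setLIntegral_mono' hms fun x hx => ?_
  rw [← mul_assoc, ← mul_assoc]
  refine mul_le_mul_left ?_ _
  rw [← ENNReal.ofReal_mul (Real.sqrt_nonneg _), ← ENNReal.ofReal_mul (by positivity)]
  refine ENNReal.ofReal_le_ofReal ?_
  have hs : 0 < Real.sqrt Real.pi := Real.sqrt_pos.2 Real.pi_pos
  have : Real.sqrt Real.pi * Real.exp (-(1 / (M : ℝ) ^ 4)) * nu0 x =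
      Real.exp (-x ^ 2) * Real.exp (-(1 / (M : ℝ) ^ 4)) := by
    unfold nu0; field_simp
  rw [this]
  exact C2_lower M hM x hx

theorem C2_delta_pos (q : ℝ) (hq : q ∈ Ioc (0 : ℝ) (1 / 2)) : 0 < delta q := by
  unfold delta
  refine Real.sqrt_pos.2 ?_
  have h1 : 0 < Real.tan q := Real.tan_pos_of_pos_of_lt_pi_div_two hq.1
    (by have := Real.pi_gt_three; linarith [hq.2])
  have h2 := hq.1
  positivity

theorem C2_mu_one (M : ℕ) (q : ℝ) :
    ∫⁻ _p in {p | |p.1| < (M : ℝ)}, 1 ∂(mu (2 * M ^ 8)) = nuM {x : ℝ | |x| < M} := by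
  have hp := C2_cubeM_prob (2 * M ^ 8)
  have hms : MeasurableSet {x : ℝ | |x| < M} := measurableSet_lt measurable_abs measurable_const
  have h := C2_mu M q (fun _ => 1) measurable_const
  rw [h]
  simp only [lintegral_const, measure_univ, mul_one]
  rw [nuM, withDensity_apply _ hms]

theorem C2_nuM_le (M : ℕ) : nuM {x : ℝ | |x| < M} ≤ 1 := by
  rw [← C2_nuM_univ]; exact measure_mono (subset_univ _)

/-- C-int -/
theorem lintegral_dom (q : ℝ) (hq : q ∈ Ioc (0 : ℝ) (1 / 2)) (ζ : ℝ) (hζ : 0 < ζ) :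
    ∃ M₀ : ℕ, ∀ M, M₀ ≤ M → ∀ g : Eu (2 * M ^ 8 + 1) → ℝ≥0∞, Measurable g →
      ENNReal.ofReal (1 - ζ) * volume (dom M q) *
          ∫⁻ p in {p | |p.1| < (M : ℝ)}, g (phi M q p) ∂(mu (2 * M ^ 8)) ≤ ∫⁻ x in dom M q, g x ∧
      ∫⁻ x in dom M q, g x ≤ ENNReal.ofReal (1 + ζ) * volume (dom M q) *
          ∫⁻ p in {p | |p.1| < (M : ℝ)}, g (phi M q p) ∂(mu (2 * M ^ 8)) := by
  have hδ := C2_delta_pos q hq
  -- the two conditions on `M`
  have hE : Tendsto (fun M : ℕ => Real.exp (-(1 / (M : ℝ) ^ 4))) atTop (𝓝 1) := by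
    have h1 : Tendsto (fun M : ℕ => (1 / (M : ℝ) ^ 4)) atTop (𝓝 0) := by
      have := (tendsto_inv_atTop_zero (𝕜 := ℝ)).comp
        ((tendsto_pow_atTop (n := 4) (by norm_num)).comp (tendsto_natCast_atTop_atTop (R := ℝ)))
      refine this.congr fun M => ?_
      simp
    have h2 := (Real.continuous_exp.tendsto (-0)).comp h1.neg
    rw [neg_zero, Real.exp_zero] at h2
    exact h2
  have hE' : Tendsto (fun M : ℕ => ENNReal.ofReal (Real.exp (-(1 / (M : ℝ) ^ 4)))) atTop (𝓝 1) := by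
    have := ENNReal.tendsto_ofReal hE
    simpa using this
  have hprod : Tendsto (fun M : ℕ => ENNReal.ofReal (1 + ζ) *
      (ENNReal.ofReal (Real.exp (-(1 / (M : ℝ) ^ 4))) * nuM {x : ℝ | |x| < M})) atTop
        (𝓝 (ENNReal.ofReal (1 + ζ) * (1 * 1))) := by
    refine ENNReal.Tendsto.const_mul ?_ (Or.inr ENNReal.ofReal_ne_top)
    exact ENNReal.Tendsto.mul hE' (Or.inl one_ne_zero) C2_tendsto (Or.inl one_ne_zero)
  have h1 : ∀ᶠ M : ℕ in atTop, 1 - ζ < Real.exp (-(1 / (M : ℝ) ^ 4)) :=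
    hE.eventually (lt_mem_nhds (by linarith))
  have h2 : ∀ᶠ M : ℕ in atTop, 1 < ENNReal.ofReal (1 + ζ) *
      (ENNReal.ofReal (Real.exp (-(1 / (M : ℝ) ^ 4))) * nuM {x : ℝ | |x| < M}) := by
    refine hprod.eventually (lt_mem_nhds ?_)
    rw [one_mul, mul_one, ← ENNReal.ofReal_one]
    exact (ENNReal.ofReal_lt_ofReal_iff (by linarith)).2 (by linarith)
  obtain ⟨M₀, hM₀⟩ := eventually_atTop.1 ((h1.and h2).and (eventually_ge_atTop 2))
  refine ⟨M₀, fun M hM g hg => ?_⟩
  obtain ⟨⟨hA, hB⟩, hM2⟩ := hM₀ M hM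
  have hMpos : 0 < M := by omega
  set K := ENNReal.ofReal ((2 * delta q) ^ (2 * M ^ 8)) with hK
  set s := ENNReal.ofReal (Real.sqrt Real.pi) with hs
  set E := ENNReal.ofReal (Real.exp (-(1 / (M : ℝ) ^ 4))) with hEdef
  set I := ∫⁻ p in {p | |p.1| < (M : ℝ)}, g (phi M q p) ∂(mu (2 * M ^ 8)) with hI
  have hV1 : volume (dom M q) ≤ K * s := by
    have h := C2_I_upper M hMpos q hδ (fun _ => 1) measurable_const
    rw [C2_mu_one M q, setLIntegral_one] at h
    calc volume (dom M q) ≤ K * (s * nuM {x : ℝ | |x| < M}) := h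
      _ ≤ K * (s * 1) := mul_le_mul_right (mul_le_mul_right (C2_nuM_le M) _) _
      _ = K * s := by rw [mul_one]
  have hV2 : K * (s * (E * nuM {x : ℝ | |x| < M})) ≤ volume (dom M q) := by
    have h := C2_I_lower M hM2 q hδ (fun _ => 1) measurable_const
    rw [C2_mu_one M q, setLIntegral_one] at h
    exact h
  constructor
  · calc ENNReal.ofReal (1 - ζ) * volume (dom M q) * I ≤ E * (K * s) * I := by
          gcongr
          exact ENNReal.ofReal_le_ofReal hA.le
      _ = K * (s * (E * I)) := by ring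
      _ ≤ ∫⁻ x in dom M q, g x := C2_I_lower M hM2 q hδ g hg
  · calc ∫⁻ x in dom M q, g x ≤ K * (s * I) := C2_I_upper M hMpos q hδ g hg
      _ = 1 * (K * s * I) := by ring
      _ ≤ (ENNReal.ofReal (1 + ζ) * (E * nuM {x : ℝ | |x| < M})) * (K * s * I) := by
          gcongr
      _ = ENNReal.ofReal (1 + ζ) * (K * (s * (E * nuM {x : ℝ | |x| < M}))) * I := by ring
      _ ≤ ENNReal.ofReal (1 + ζ) * volume (dom M q) * I := by gcongr

end IsoHull
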