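import Pool.Agent.IsoHull27.Basic

/-!
# IsoHull27, package D0: elementary one-variable facts (MP_b478d8_an)
-/

open MeasureTheory Set Filter Topology
open scoped ENNReal NNReal

namespace IsoHull

private theorem D0_sin_pos {q : ℝ} (hq : q ∈ Ioc (0 : ℝ) (1 / 2)) : 0 < Real.sin q :=
  Real.sin_pos_of_pos_of_lt_pi hq.1 (by linarith [hq.2, Real.pi_gt_three])

private theorem D0_sin_le {q : ℝ} (hq : q ∈ Ioc (0 : ℝ) (1 / 2)) : Real.sin q ≤ q :=
  Real.sin_le hq.1.le

private theorem D0_sin_ge {q : ℝ} (hq : q ∈ Ioc (0 : ℝ) (1 / 2)) : 15 / 16 * q ≤ Real.sin q := by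
  have h := Real.sin_gt_sub_cube hq.1
  have h1 := hq.1
  have h2 := hq.2
  have h3 : q ^ 2 ≤ 1 / 4 := by nlinarith
  nlinarith [mul_nonneg h1.le (sub_nonneg.2 h3)]

private theorem D0_cos_ge {q : ℝ} (hq : q ∈ Ioc (0 : ℝ) (1 / 2)) : 7 / 8 ≤ Real.cos q := by
  have h := Real.one_sub_sq_div_two_le_cos (x := q)
  have h3 : q ^ 2 ≤ 1 / 4 := by nlinarith [hq.1, hq.2]
  linarith

private theorem D0_cos_pos {q : ℝ} (hq : q ∈ Ioc (0 : ℝ) (1 / 2)) : 0 < Real.cos q :=
  lt_of_lt_of_le (by norm_num) (D0_cos_ge hq)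

/-- `q cos q ≤ sin q` -/
private theorem D0_qcos_le {q : ℝ} (hq : q ∈ Ioc (0 : ℝ) (1 / 2)) :
    q * Real.cos q ≤ Real.sin q := by
  have h := Real.lt_tan hq.1 (by linarith [hq.2, Real.pi_gt_three])
  have hc := D0_cos_pos hq
  rw [Real.tan_eq_sin_div_cos, lt_div_iff₀ hc] at h
  exact h.le

private theorem D0_absin {q a : ℝ} (hq : q ∈ Ioc (0 : ℝ) (1 / 2)) (ha : a ∈ Icc (-1 : ℝ) 1) :
    |Real.sin (q * a)| ≤ Real.sin q := by
  have hpi := Real.pi_gt_three
  have h1 : -q ≤ q * a := by nlinarith [ha.1, hq.1]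
  have h2 : q * a ≤ q := by nlinarith [ha.2, hq.1]
  have hq2 := hq.2
  have hq1 := hq.1
  rw [abs_le]
  constructor
  · rw [← Real.sin_neg]
    exact Real.sin_le_sin_of_le_of_le_pi_div_two (by linarith) (by linarith) h1
  · exact Real.sin_le_sin_of_le_of_le_pi_div_two (by linarith) (by linarith) h2

/-- concavity of the sine -/
private theorem D0_conc {q a : ℝ} (hq : q ∈ Ioc (0 : ℝ) (1 / 2)) (ha0 : 0 ≤ a) (ha1 : a ≤ 1) :
    a * Real.sin q ≤ Real.sin (q * a) := by
  have hc := strictConcaveOn_sin_Icc.concaveOn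
  have h := hc.2 (x := q) (y := 0) ⟨hq.1.le, by linarith [hq.2, Real.pi_gt_three]⟩
    ⟨le_rfl, Real.pi_pos.le⟩ ha0 (sub_nonneg.2 ha1) (by ring)
  simpa [mul_comm] using h

theorem cf_hasDeriv (q a : ℝ) : HasDerivAt (cf q) (cd q a) a := by
  unfold cf cd
  have h1 : HasDerivAt (fun a : ℝ => q * a) q a := by
    simpa using (hasDerivAt_id a).const_mul q
  have h2 := (h1.cos).const_mul (-(q / (2 * Real.sin q)))
  refine h2.congr_deriv ?_
  ring

theorem vf_hasDeriv (q a : ℝ) :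
    HasDerivAt (vf q) (q * Real.cos (q * a) / Real.sin q - 1) a := by
  unfold vf
  have h1 : HasDerivAt (fun a : ℝ => q * a) q a := by
    simpa using (hasDerivAt_id a).const_mul q
  have h2 := ((h1.sin).div_const (Real.sin q)).sub (hasDerivAt_id a)
  refine HasDerivAt.congr_deriv (f := fun a => Real.sin (q * a) / Real.sin q - a) h2 ?_
  ring

/-- `v' = -2c - 1` -/
theorem vf_deriv_eq (q : ℝ) (hq : q ∈ Ioc (0 : ℝ) (1 / 2)) (a : ℝ) :
    q * Real.cos (q * a) / Real.sin q - 1 = -2 * cf q a - 1 := by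
  have h := (D0_sin_pos hq).ne'
  unfold cf
  field_simp

theorem vf_one (q : ℝ) (hq : q ∈ Ioc (0 : ℝ) (1 / 2)) : vf q 1 = 0 ∧ vf q (-1) = 0 := by
  have h := (D0_sin_pos hq).ne'
  unfold vf
  constructor
  · rw [mul_one, div_self h, sub_self]
  · rw [mul_neg, mul_one, Real.sin_neg, neg_div, div_self h]
    ring

private theorem D0_tan_le {q : ℝ} (hq : q ∈ Ioc (0 : ℝ) (1 / 2)) : Real.tan q ≤ 8 / 7 * q := by
  have h1 := D0_sin_le hq
  have h2 := D0_cos_ge hq
  rw [Real.tan_eq_sin_div_cos, div_le_iff₀ (D0_cos_pos hq)]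
  nlinarith [hq.1]

private theorem D0_le_tan {q : ℝ} (hq : q ∈ Ioc (0 : ℝ) (1 / 2)) : q ≤ Real.tan q :=
  (Real.lt_tan hq.1 (by linarith [hq.2, Real.pi_gt_three])).le

private theorem D0_delta_sq {q : ℝ} (hq : q ∈ Ioc (0 : ℝ) (1 / 2)) :
    delta q ^ 2 = q * Real.tan q / 2 := by
  unfold delta
  refine Real.sq_sqrt ?_
  have h1 := D0_le_tan hq
  have h2 := hq.1
  have h3 : 0 ≤ Real.tan q := by linarith
  positivity

theorem delta_bounds (q : ℝ) (hq : q ∈ Ioc (0 : ℝ) (1 / 2)) :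
    q / 2 ≤ delta q ∧ delta q ≤ q ∧ q ^ 2 / 2 ≤ delta q ^ 2 ∧ 0 < delta q ∧ delta q ≤ 2 / 5 := by
  have h1 := D0_le_tan hq
  have h2 := D0_tan_le hq
  have h3 := D0_delta_sq hq
  have hq1 := hq.1
  have hq2 := hq.2
  have h0 : 0 ≤ delta q := Real.sqrt_nonneg _
  have h4 : q ^ 2 / 2 ≤ delta q ^ 2 := by rw [h3]; nlinarith
  have h5 : delta q ^ 2 ≤ 4 / 7 * q ^ 2 := by rw [h3]; nlinarith
  have h6 : q / 2 ≤ delta q := by
    refine le_of_sq_le_sq ?_ h0
    nlinarith
  refine ⟨h6, ?_, h4, by linarith, ?_⟩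
  · refine le_of_sq_le_sq ?_ hq1.le
    nlinarith
  · refine le_of_sq_le_sq ?_ (by norm_num)
    nlinarith

theorem cd_bounds (q : ℝ) (hq : q ∈ Ioc (0 : ℝ) (1 / 2)) (a : ℝ) (ha : a ∈ Icc (-1 : ℝ) 1) :
    |cd q a| ≤ q ^ 2 / 2 ∧ |cd q a| ≤ delta q ^ 2 ∧ |cf q a| ≤ 1 ∧ |vf q a| ≤ 1 ∧ 0 ≤ vf q a * cd q a ∧
      vf q a * cd q a ≤ q ^ 2 / 2 := by
  have hs := D0_sin_pos hq
  have hab := D0_absin hq ha
  have hq1 := hq.1
  have h1 : |cd q a| ≤ q ^ 2 / 2 := by
    unfold cd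
    rw [abs_mul, abs_of_pos (by positivity : 0 < q ^ 2 / (2 * Real.sin q))]
    calc q ^ 2 / (2 * Real.sin q) * |Real.sin (q * a)|
        ≤ q ^ 2 / (2 * Real.sin q) * Real.sin q := by gcongr
      _ = q ^ 2 / 2 := by field_simp
  have h2 : |cf q a| ≤ 1 := by
    unfold cf
    rw [abs_mul, abs_neg, abs_of_pos (by positivity : 0 < q / (2 * Real.sin q))]
    have h3 := D0_sin_ge hq
    have h4 : q / (2 * Real.sin q) ≤ 1 := by
      rw [div_le_one (by positivity)]
      linarith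
    calc q / (2 * Real.sin q) * |Real.cos (q * a)| ≤ 1 * 1 := by
          gcongr
          exact Real.abs_cos_le_one _
      _ = 1 := by norm_num
  -- signs
  have h5 : (0 ≤ a → 0 ≤ vf q a ∧ vf q a ≤ 1 ∧ 0 ≤ cd q a) := by
    intro ha0
    have h6 := D0_conc hq ha0 ha.2
    have h7 : 0 ≤ Real.sin (q * a) := le_trans (by positivity) h6
    refine ⟨?_, ?_, ?_⟩
    · unfold vf
      rw [sub_nonneg, le_div_iff₀ hs]
      exact h6
    · unfold vf
      have : Real.sin (q * a) / Real.sin q ≤ 1 := by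
        rw [div_le_one hs]; exact (le_abs_self _).trans hab
      linarith
    · unfold cd; positivity
  have hodd : vf q (-a) = - vf q a ∧ cd q (-a) = - cd q a := by
    unfold vf cd
    rw [mul_neg, Real.sin_neg]
    constructor <;> ring
  have h6 : |vf q a| ≤ 1 ∧ 0 ≤ vf q a * cd q a := by
    rcases le_total 0 a with h | h
    · obtain ⟨e1, e2, e3⟩ := h5 h
      exact ⟨by rw [abs_of_nonneg e1]; exact e2, by positivity⟩
    · have h5' : 0 ≤ vf q (-a) ∧ vf q (-a) ≤ 1 ∧ 0 ≤ cd q (-a) := by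
        have hna : 0 ≤ -a := by linarith
        have h6 := D0_conc hq hna (by linarith [ha.1])
        have h7 : 0 ≤ Real.sin (q * (-a)) := le_trans (by positivity) h6
        refine ⟨?_, ?_, ?_⟩
        · unfold vf
          rw [sub_nonneg, le_div_iff₀ hs]
          exact h6
        · unfold vf
          have : Real.sin (q * (-a)) / Real.sin q ≤ 1 := by
            rw [div_le_one hs, mul_neg, Real.sin_neg]
            exact (neg_le_abs _).trans hab
          linarith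
        · unfold cd; positivity
      obtain ⟨e1, e2, e3⟩ := h5'
      rw [hodd.1] at e1 e2
      rw [hodd.2] at e3
      constructor
      · rw [abs_le]; constructor <;> linarith
      · nlinarith
  refine ⟨h1, h1.trans (delta_bounds q hq).2.2.1, h2, h6.1, h6.2, ?_⟩
  calc vf q a * cd q a ≤ |vf q a * cd q a| := le_abs_self _
    _ = |vf q a| * |cd q a| := abs_mul _ _
    _ ≤ 1 * (q ^ 2 / 2) := by
        gcongr
        exact h6.1
    _ = q ^ 2 / 2 := one_mul _

/-- `δ² sin(qa)/sin q = c'(a)/A` -/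
theorem delta_sin (q : ℝ) (hq : q ∈ Ioc (0 : ℝ) (1 / 2)) (a : ℝ) :
    delta q ^ 2 * Real.sin (q * a) / Real.sin q = cd q a / Ac q := by
  have h1 := (D0_sin_pos hq).ne'
  have h2 := (D0_cos_pos hq).ne'
  have h3 := hq.1.ne'
  rw [D0_delta_sq hq, Real.tan_eq_sin_div_cos]
  unfold cd Ac
  field_simp

theorem Ac_bounds (q : ℝ) (hq : q ∈ Ioc (0 : ℝ) (1 / 2)) : 9 / 10 ≤ Ac q ∧ Ac q ≤ 1 := by
  have hs := D0_sin_pos hq
  have hq1 := hq.1
  have hq2 := hq.2
  unfold Ac
  constructor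
  · rw [le_div_iff₀ hs]
    have h1 := Real.sin_bound (x := q) (by rw [abs_of_pos hq1]; linarith)
    rw [abs_of_pos hq1] at h1
    have h2 := (abs_le.1 h1).2
    have h3 := Real.one_sub_sq_div_two_le_cos (x := q)
    have h4 : q * (1 - q ^ 2 / 2) ≤ q * Real.cos q := by gcongr
    have h5 : q ^ 2 ≤ 1 / 4 := by nlinarith
    have h6 : q ^ 3 ≤ 1 / 8 := by nlinarith [mul_nonneg hq1.le (sub_nonneg.2 h5)]
    have h7 : 0 ≤ q * (1 / 10 - 35 / 100 * q ^ 2 - 3 / 64 * q ^ 3) := by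
      refine mul_nonneg hq1.le ?_
      nlinarith
    nlinarith
  · rw [div_le_one hs]
    exact D0_qcos_le hq

theorem R2_bounds (q : ℝ) (hq : q ∈ Ioc (0 : ℝ) (1 / 2)) : 1 ≤ R2 q ∧ R2 q ≤ 5 / 4 := by
  have hq1 := hq.1
  have hq2 := hq.2
  have hs : 0 < Real.sin (2 * q) :=
    Real.sin_pos_of_pos_of_lt_pi (by linarith) (by linarith [Real.pi_gt_three])
  have h1 : Real.sin (2 * q) ≤ 2 * q := Real.sin_le (by linarith)
  have h2 := Real.sin_gt_sub_cube (x := 2 * q) (by linarith)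
  have h3 : q ^ 2 ≤ 1 / 4 := by nlinarith
  have h4 : 4 / 3 * q ≤ Real.sin (2 * q) := by
    nlinarith [mul_nonneg hq1.le (sub_nonneg.2 h3)]
  unfold R2
  constructor
  · have : 1 / 2 ≤ q / Real.sin (2 * q) := by
      rw [le_div_iff₀ hs]; linarith
    linarith
  · have : q / Real.sin (2 * q) ≤ 3 / 4 := by
      rw [div_le_iff₀ hs]; linarith
    linarith

private theorem D0_unif (f : ℝ → ℝ) : ∫ a, f a ∂unif = (1 / 2) * ∫ a in (-1 : ℝ)..1, f a := by
  unfold unif
  rw [integral_smul_measure, intervalIntegral.integral_of_le (by norm_num),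
    integral_Icc_eq_integral_Ioc]
  simp

private theorem D0_ftc {f G : ℝ → ℝ} (hf : Continuous f) (hG : ∀ a, HasDerivAt G (f a) a) :
    ∫ a, f a ∂unif = (1 / 2) * (G 1 - G (-1)) := by
  rw [D0_unif, intervalIntegral.integral_eq_sub_of_hasDerivAt (fun a _ => hG a)
    (hf.intervalIntegrable _ _)]

/-- means w.r.t. `unif` -/
theorem mean_cf (q : ℝ) (hq : q ∈ Ioc (0 : ℝ) (1 / 2)) : ∫ a, cf q a ∂unif = -1 / 2 := by
  have h1 := (D0_sin_pos hq).ne'
  have h3 := hq.1.ne'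
  rw [D0_ftc (G := fun a => -(1 / (2 * Real.sin q)) * Real.sin (q * a)) (cf_cont q)]
  · simp only [mul_one, mul_neg, Real.sin_neg]
    field_simp
    norm_num
  · intro a
    have e1 : HasDerivAt (fun a : ℝ => q * a) q a := by
      simpa using (hasDerivAt_id a).const_mul q
    have h2 := (e1.sin).const_mul (-(1 / (2 * Real.sin q)))
    refine h2.congr_deriv ?_
    unfold cf
    ring

theorem mean_sinsq (q : ℝ) (hq : q ∈ Ioc (0 : ℝ) (1 / 2)) :
    2 * ∫ a, Real.sin (q * a) ^ 2 ∂unif = 1 - Real.sin (2 * q) / (2 * q) := by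
  have h3 := hq.1.ne'
  rw [D0_ftc (G := fun a => a / 2 - Real.sin (2 * q * a) / (4 * q)) (by fun_prop)]
  · simp only [mul_one, mul_neg, Real.sin_neg]
    field_simp
    ring
  · intro a
    have e1 : HasDerivAt (fun a : ℝ => 2 * q * a) (2 * q) a := by
      simpa using (hasDerivAt_id a).const_mul (2 * q)
    have h2 := ((hasDerivAt_id a).div_const 2).sub ((e1.sin).div_const (4 * q))
    refine HasDerivAt.congr_deriv (f := fun a => a / 2 - Real.sin (2 * q * a) / (4 * q)) h2 ?_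
    have e2 : Real.cos (2 * q * a) = 1 - 2 * Real.sin (q * a) ^ 2 := by
      rw [show 2 * q * a = 2 * (q * a) by ring, Real.cos_two_mul, Real.cos_sq']
      ring
    rw [e2]
    field_simp
    ring

theorem mean_acd (q : ℝ) (hq : q ∈ Ioc (0 : ℝ) (1 / 2)) :
    2 * ∫ a, a * cd q a ∂unif = 1 - Ac q := by
  have h1 := (D0_sin_pos hq).ne'
  have h3 := hq.1.ne'
  have hc := cd_cont q
  rw [D0_ftc (G := fun a => a * cf q a + Real.sin (q * a) / (2 * Real.sin q)) (by fun_prop)]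
  · unfold cf Ac
    simp only [mul_one, mul_neg, Real.sin_neg, Real.cos_neg]
    field_simp
    ring
  · intro a
    have e1 : HasDerivAt (fun a : ℝ => q * a) q a := by
      simpa using (hasDerivAt_id a).const_mul q
    have h2 := ((hasDerivAt_id a).mul (cf_hasDeriv q a)).add
      ((e1.sin).div_const (2 * Real.sin q))
    refine HasDerivAt.congr_deriv
      (f := fun a => a * cf q a + Real.sin (q * a) / (2 * Real.sin q)) h2 ?_
    unfold cf
    simp only [id_eq]
    field_simp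
    ring

theorem mean_vcd (q : ℝ) (hq : q ∈ Ioc (0 : ℝ) (1 / 2)) :
    1 + 2 * ∫ a, vf q a * cd q a ∂unif = Ac q * R2 q := by
  have h1 := (D0_sin_pos hq).ne'
  have h2 := (D0_cos_pos hq).ne'
  have h3 := hq.1.ne'
  have i1 : Integrable (fun a : ℝ => Real.sin (q * a) ^ 2) unif := by
    have : Continuous fun a : ℝ => Real.sin (q * a) ^ 2 := by fun_prop
    unfold unif
    exact (this.continuousOn.integrableOn_compact isCompact_Icc).integrable.smul_measure (by simp)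
  have i2 : Integrable (fun a : ℝ => a * cd q a) unif := by
    have hc := cd_cont q
    have : Continuous fun a : ℝ => a * cd q a := by fun_prop
    unfold unif
    exact (this.continuousOn.integrableOn_compact isCompact_Icc).integrable.smul_measure (by simp)
  have e : ∀ a, vf q a * cd q a
      = (q ^ 2 / (2 * Real.sin q ^ 2)) * Real.sin (q * a) ^ 2 - a * cd q a := by
    intro a
    unfold vf cd
    field_simp
  simp only [e]
  rw [integral_sub (i1.const_mul _) i2, integral_const_mul]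
  have m1 := mean_sinsq q hq
  have m2 := mean_acd q hq
  have m3 : ∫ a, Real.sin (q * a) ^ 2 ∂unif = (1 - Real.sin (2 * q) / (2 * q)) / 2 := by
    linarith
  have m4 : ∫ a, a * cd q a ∂unif = (1 - Ac q) / 2 := by linarith
  rw [m3, m4]
  unfold Ac R2
  rw [Real.sin_two_mul]
  field_simp
  ring

theorem osc_cf (q : ℝ) (hq : q ∈ Ioc (0 : ℝ) (1 / 2)) (a b : ℝ) (ha : a ∈ Icc (-1 : ℝ) 1)
    (hb : b ∈ Icc (-1 : ℝ) 1) : cf q a - cf q b ≤ 3 / 10 * q ^ 2 := by
  have hs := D0_sin_pos hq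
  have hs1 := D0_sin_ge hq
  have hq1 := hq.1
  have hq2 := hq.2
  have e : cf q a - cf q b = (q / (2 * Real.sin q)) * (Real.cos (q * b) - Real.cos (q * a)) := by
    unfold cf; ring
  rw [e]
  have h1 : Real.cos (q * b) ≤ 1 := Real.cos_le_one _
  have h2 : 1 - q ^ 2 / 2 ≤ Real.cos (q * a) := by
    have h3 := Real.one_sub_sq_div_two_le_cos (x := q * a)
    have h4 : (q * a) ^ 2 ≤ q ^ 2 := by
      rw [mul_pow]
      have : a ^ 2 ≤ 1 := by nlinarith [ha.1, ha.2]
      nlinarith [sq_nonneg q]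
    linarith
  have h5 : q / (2 * Real.sin q) ≤ 6 / 10 := by
    rw [div_le_iff₀ (by positivity)]
    linarith
  calc (q / (2 * Real.sin q)) * (Real.cos (q * b) - Real.cos (q * a))
      ≤ (q / (2 * Real.sin q)) * (q ^ 2 / 2) := by
        gcongr
        linarith
    _ ≤ 6 / 10 * (q ^ 2 / 2) := by gcongr
    _ = 3 / 10 * q ^ 2 := by ring

theorem RV_mem (q : ℝ) (hq : q ∈ Ioc (0 : ℝ) (1 / 2)) : RV q ∈ Icc (1 : ℝ) 2 := by
  have h := R2_bounds q hq
  unfold RV
  constructor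
  · rw [show (1 : ℝ) = Real.sqrt 1 by simp]
    exact Real.sqrt_le_sqrt h.1
  · rw [show (2 : ℝ) = Real.sqrt (2 ^ 2) by simp]
    exact Real.sqrt_le_sqrt (by linarith [h.2])

end IsoHull
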