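import Pool.Agent.IsoHull27.Basic

/-!
# Slices (blueprint D0)
-/

open MeasureTheory Set Filter Topology
open scoped ENNReal NNReal

set_option autoImplicit false

namespace IsoHull

theorem d1a_vc (q : ℝ) (hq : q ∈ Ioc (0 : ℝ) (1 / 2)) (a : ℝ) (ha : a ∈ Icc (-1 : ℝ) 1) :
    0 ≤ vf q a * cd q a ∧ vf q a * cd q a ≤ 1 / 2 := by
  have hpi := Real.pi_gt_three
  have hs : 0 < Real.sin q := Real.sin_pos_of_pos_of_lt_pi hq.1 (by linarith [hq.2])
  -- the case `0 ≤ a`
  have key : ∀ a : ℝ, 0 ≤ a → a ≤ 1 → 0 ≤ vf q a * cd q a ∧ vf q a * cd q a ≤ 1 / 2 := by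
    intro a h0 h1
    have h2 : a * Real.sin q ≤ Real.sin (q * a) := by
      have := strictConcaveOn_sin_Icc.concaveOn.2 (x := q) (y := 0)
        ⟨hq.1.le, by linarith [hq.2]⟩ ⟨le_rfl, Real.pi_pos.le⟩ h0 (sub_nonneg.2 h1) (by ring)
      simpa [mul_comm] using this
    have h3 : Real.sin (q * a) ≤ Real.sin q := by
      apply Real.sin_le_sin_of_le_of_le_pi_div_two
      · nlinarith [hq.1]
      · linarith [hq.2]
      · nlinarith [hq.1]
    have h4 : 0 ≤ Real.sin (q * a) := le_trans (mul_nonneg h0 hs.le) h2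
    set u : ℝ := Real.sin (q * a) / Real.sin q with hu
    have hu1 : a ≤ u := (le_div_iff₀ hs).2 h2
    have hu2 : u ≤ 1 := (div_le_one hs).2 h3
    have h5 : vf q a * cd q a = (u - a) * (q ^ 2 / 2 * u) := by
      unfold vf cd
      rw [← hu]
      have : q ^ 2 / (2 * Real.sin q) * Real.sin (q * a) = q ^ 2 / 2 * u := by
        rw [hu]
        field_simp
      rw [this]
    have hq2 : q ^ 2 ≤ 1 / 4 := by nlinarith [hq.1, hq.2]
    have hu0 : 0 ≤ u := h0.trans hu1
    rw [h5]
    constructor
    · have : 0 ≤ u - a := by linarith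
      positivity
    · have h6 : u - a ≤ 1 := by linarith
      have h7 : q ^ 2 / 2 * u ≤ 1 / 2 := by nlinarith [sq_nonneg q]
      have h8 : 0 ≤ q ^ 2 / 2 * u := by positivity
      nlinarith
  rcases le_total 0 a with h | h
  · exact key a h ha.2
  · have h1 := key (-a) (by linarith) (by linarith [ha.1])
    have h2 : vf q (-a) * cd q (-a) = vf q a * cd q a := by
      unfold vf cd
      rw [mul_neg, Real.sin_neg]
      ring
    rwa [h2] at h1

variable {m : ℕ} (P : Par m) (q : ℝ)

theorem Gam_bounds (hq : q ∈ Ioc (0 : ℝ) (1 / 2)) (a : Fin m → ℝ) (ha : a ∈ cube m) :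
    1 ≤ P.Gam q a ∧ P.Gam q a ≤ 2 := by
  have hr := P.r_pos
  have h1 : 0 ≤ ∑ i, vf q (a i) * cd q (a i) :=
    Finset.sum_nonneg fun i _ => (d1a_vc q hq (a i) (ha i)).1
  have h2 : ∑ i, vf q (a i) * cd q (a i) ≤ ∑ _i : Fin m, (1 / 2 : ℝ) :=
    Finset.sum_le_sum fun i _ => (d1a_vc q hq (a i) (ha i)).2
  rw [Finset.sum_const, Finset.card_univ, Fintype.card_fin, nsmul_eq_mul, P.hm] at h2
  unfold Par.Gam
  constructor
  · have : 0 ≤ (∑ i, vf q (a i) * cd q (a i)) / P.r ^ 2 := by positivity
    linarith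
  · have : (∑ i, vf q (a i) * cd q (a i)) / P.r ^ 2 ≤ 1 := by
      rw [div_le_one (by positivity)]
      linarith
    linarith

/-- the shear `(t,a) ↦ (t - θ(a), a)` preserves the measure -/
theorem d1a_shear : MeasurePreserving (fun z : ℝ × (Fin m → ℝ) => (z.1 - P.theta q z.2, z.2))
    ((volume : Measure ℝ).prod (cubeM m)) ((volume : Measure ℝ).prod (cubeM m)) := by
  have h1 : MeasurePreserving (fun z : (Fin m → ℝ) × ℝ => (z.1, z.2 - P.theta q z.1))
      ((cubeM m).prod (volume : Measure ℝ)) ((cubeM m).prod (volume : Measure ℝ)) := by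
    refine (MeasurePreserving.id (cubeM m)).skew_product (g := fun a t => t - P.theta q a) ?_
      (Eventually.of_forall fun a => ?_)
    · have := P.theta_cont q
      have h2 : Continuous (Function.uncurry fun (a : Fin m → ℝ) (t : ℝ) => t - P.theta q a) := by
        simp only [Function.uncurry_def]
        fun_prop
      exact h2.measurable
    · exact (measurePreserving_sub_right volume (P.theta q a)).map_eq
  have h3 := (Measure.measurePreserving_swap (μ := cubeM m) (ν := (volume : Measure ℝ))).comp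
    (h1.comp (Measure.measurePreserving_swap (μ := (volume : Measure ℝ)) (ν := cubeM m)))
  exact h3

/-- disintegration along `F` -/
theorem integral_slice (H : ℝ × (Fin m → ℝ) → ℝ) (c : ℝ → ℝ) (hc : Measurable c) (hH : Measurable H)
    (hint : Integrable (fun p => c (P.F q p) * H p) (mu m)) :
    Integrable (fun t => c t * P.slice q H t) ∧
      ∫ t, c t * P.slice q H t = ∫ p, c (P.F q p) * H p ∂(mu m) := by
  set g : ℝ × (Fin m → ℝ) → ℝ := fun p => c (P.F q p) * H p with hg
  have hnu : Measurable nu0 := nu0_cont.measurable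
  have hgm : Measurable g := (hc.comp (P.F_cont q).measurable).mul hH
  have hmu : mu m = ((volume : Measure ℝ).prod (cubeM m)).withDensity
      (fun z => ENNReal.ofReal (nu0 z.1)) := by
    unfold mu nuM
    exact prod_withDensity_left hnu.ennreal_ofReal
  have hdm : Measurable fun z : ℝ × (Fin m → ℝ) => ENNReal.ofReal (nu0 z.1) :=
    (hnu.comp measurable_fst).ennreal_ofReal
  have hfin : ∀ᵐ z ∂((volume : Measure ℝ).prod (cubeM m)), ENNReal.ofReal (nu0 z.1) < ⊤ :=
    Eventually.of_forall fun z => ENNReal.ofReal_lt_top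
  set K : ℝ × (Fin m → ℝ) → ℝ := fun p => nu0 p.1 * g p with hK
  have hKm : Measurable K := (hnu.comp measurable_fst).mul hgm
  have htr : ∀ z : ℝ × (Fin m → ℝ), (ENNReal.ofReal (nu0 z.1)).toReal • g z = K z := fun z => by
    rw [ENNReal.toReal_ofReal (nu0_nonneg _), smul_eq_mul]
  have hKi : Integrable K ((volume : Measure ℝ).prod (cubeM m)) := by
    rw [hmu, integrable_withDensity_iff_integrable_smul' hdm hfin] at hint
    simpa only [htr] using hint
  have hKe : ∫ p, g p ∂(mu m) = ∫ p, K p ∂((volume : Measure ℝ).prod (cubeM m)) := by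
    rw [hmu, integral_withDensity_eq_integral_toReal_smul hdm hfin]
    simp only [htr]
  have hsh := d1a_shear P q
  set Ψ : ℝ × (Fin m → ℝ) → ℝ × (Fin m → ℝ) := fun z => (z.1 - P.theta q z.2, z.2) with hΨ
  have hKΨ : Integrable (fun z => K (Ψ z)) ((volume : Measure ℝ).prod (cubeM m)) :=
    (hsh.integrable_comp hKm.aestronglyMeasurable).2 hKi
  have hKΨe : ∫ p, K p ∂((volume : Measure ℝ).prod (cubeM m)) =
      ∫ z, K (Ψ z) ∂((volume : Measure ℝ).prod (cubeM m)) := by
    have := integral_map (μ := (volume : Measure ℝ).prod (cubeM m)) (φ := Ψ)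
      hsh.measurable.aemeasurable (f := K) hKm.aestronglyMeasurable
    rw [hsh.map_eq] at this
    exact this
  have hin : ∀ t, ∫ a, K (Ψ (t, a)) ∂(cubeM m) = c t * P.slice q H t := by
    intro t
    unfold Par.slice
    rw [← integral_const_mul]
    refine integral_congr_ae (Eventually.of_forall fun a => ?_)
    simp only [hK, hΨ, hg, Par.F, sub_add_cancel]
    ring
  have h1 := hKΨ.integral_prod_left
  have h2 := integral_prod _ hKΨ
  simp only [hin] at h1 h2
  exact ⟨h1, by rw [← h2, ← hKΨe, ← hKe]⟩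

theorem slice_continuous (H : ℝ × (Fin m → ℝ) → ℝ) (hH : Continuous H) : Continuous (P.slice q H) := by
  have hθ := P.theta_cont q
  have hnu := nu0_cont
  have h1 : Continuous (Function.uncurry fun (t : ℝ) (a : Fin m → ℝ) =>
      H (t - P.theta q a, a) * nu0 (t - P.theta q a)) := by
    simp only [Function.uncurry_def]
    fun_prop
  have h2 := continuous_parametric_integral_of_continuous (μ := cubeM m) h1 (cube_isCompact m)
  rw [cubeM_restrict_cube] at h2
  exact h2

theorem w_le_two (hq : q ∈ Ioc (0 : ℝ) (1 / 2)) (t : ℝ) : P.w q t ≤ 2 := by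
  have hθ := P.theta_cont q
  have hG := P.Gam_cont q
  have hnu := nu0_cont
  unfold Par.w Par.slice
  have h1 : ∫ a, P.Gam q a * nu0 (t - P.theta q a) ∂(cubeM m) ≤ ∫ _a, (2 : ℝ) ∂(cubeM m) := by
    refine integral_mono_ae (integrable_cubeM (by fun_prop)) (integrable_const _) ?_
    filter_upwards [cubeM_ae_mem m] with a ha
    have h2 := Gam_bounds P q hq a ha
    have h3 := nu0_le_one (t - P.theta q a)
    have h4 := nu0_nonneg (t - P.theta q a)
    nlinarith
  simpa using h1

theorem w_nonneg (hq : q ∈ Ioc (0 : ℝ) (1 / 2)) (t : ℝ) : 0 ≤ P.w q t := by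
  unfold Par.w Par.slice
  refine integral_nonneg_of_ae ?_
  filter_upwards [cubeM_ae_mem m] with a ha
  have h2 := Gam_bounds P q hq a ha
  have h4 := nu0_nonneg (t - P.theta q a)
  exact mul_nonneg (by linarith) h4

end IsoHull
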