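import Pool.Agent.IsoHull27.Defs

/-!
# The fundamental identity for slices (blueprint D1)
-/

open MeasureTheory Set Filter Topology
open scoped ENNReal NNReal

set_option autoImplicit false

namespace IsoHull

/-! ### measure theoretic preliminaries -/

theorem d1b_unif_prob : IsProbabilityMeasure unif := by
  refine ⟨?_⟩
  simp only [unif, Measure.smul_apply, Measure.restrict_apply MeasurableSet.univ, univ_inter,
    Real.volume_Icc, smul_eq_mul]
  norm_num
  rw [ENNReal.inv_mul_cancel] <;> simp

theorem d1b_cubeM_prob (m : ℕ) : IsProbabilityMeasure (cubeM m) := by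
  have := d1b_unif_prob
  unfold cubeM
  infer_instance

theorem d1b_ae_unif : ∀ᵐ a ∂unif, a ∈ Icc (-1 : ℝ) 1 := by
  unfold unif
  exact Measure.ae_smul_measure (ae_restrict_mem measurableSet_Icc) _

theorem d1b_ae_cube (m : ℕ) : ∀ᵐ a ∂(cubeM m), a ∈ cube m := by
  have := d1b_unif_prob
  have h : ∀ i : Fin m, ∀ᵐ a ∂(cubeM m), a i ∈ Icc (-1 : ℝ) 1 := by
    intro i
    exact (Measure.tendsto_eval_ae_ae (μ := fun _ : Fin m => unif) (i := i)).eventually d1b_ae_unif
  filter_upwards [ae_all_iff.2 h] with a ha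
  exact ha

theorem d1b_cube_compact (m : ℕ) : IsCompact (cube m) := by
  have h : cube m = univ.pi fun _ : Fin m => Icc (-1 : ℝ) 1 := by
    ext a
    rw [mem_univ_pi]
    exact Iff.rfl
  rw [h]
  exact isCompact_univ_pi fun _ => isCompact_Icc

theorem d1b_integrable {m : ℕ} (g : (Fin m → ℝ) → ℝ) (hg : Continuous g) :
    Integrable g (cubeM m) := by
  have := d1b_cubeM_prob m
  obtain ⟨C, hC⟩ := (d1b_cube_compact m).exists_bound_of_continuousOn hg.continuousOn
  refine Integrable.of_bound hg.aestronglyMeasurable C ?_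
  filter_upwards [d1b_ae_cube m] with a ha
  exact hC a ha

/-! ### integration by parts in one coordinate -/

theorem d1b_ibp {n : ℕ} (i : Fin (n + 1)) (G g : (Fin (n + 1) → ℝ) → ℝ)
    (hG : ∀ a, HasDerivAt (fun s => G (Function.update a i s)) (g a) (a i))
    (hg : Continuous g) (h1 : ∀ a, a i = 1 → G a = 0) (h2 : ∀ a, a i = -1 → G a = 0) :
    ∫ a, g a ∂(cubeM (n + 1)) = 0 := by
  have := d1b_unif_prob
  have hmp := measurePreserving_piFinSuccAbove (fun _ : Fin (n + 1) => unif) i
  set e := MeasurableEquiv.piFinSuccAbove (fun _ : Fin (n + 1) => ℝ) i with he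
  have h3 : ∫ a, g a ∂(cubeM (n + 1)) =
      ∫ z, g (e.symm z) ∂(unif.prod (Measure.pi fun _ : Fin n => unif)) := by
    have := hmp.integral_comp e.measurableEmbedding (fun z => g (e.symm z))
    simp only [MeasurableEquiv.symm_apply_apply] at this
    exact this
  have hint : Integrable (fun z => g (e.symm z)) (unif.prod (Measure.pi fun _ : Fin n => unif)) := by
    have := (hmp.integrable_comp_emb e.measurableEmbedding (g := fun z => g (e.symm z))).1 (by
      have h4 : (fun z => g (e.symm z)) ∘ e = g := by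
        ext a
        simp
      rw [h4]
      exact d1b_integrable g hg)
    exact this
  rw [h3, integral_prod_symm _ hint]
  refine integral_eq_zero_of_ae (Eventually.of_forall fun y => ?_)
  have h5 : ∀ s, e.symm (s, y) = i.insertNth s y := fun s => rfl
  have h6 : Continuous fun s : ℝ => (i.insertNth s y : Fin (n + 1) → ℝ) := by fun_prop
  have h7 : ∀ s : ℝ, HasDerivAt (fun s => G (i.insertNth s y)) (g (i.insertNth s y)) s := by
    intro s
    have := hG (i.insertNth s y)
    simp only [Fin.update_insertNth, Fin.insertNth_apply_same] at this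
    exact this
  have h8 : ∫ s in (-1 : ℝ)..1, g (i.insertNth s y) = G (i.insertNth 1 y) - G (i.insertNth (-1) y) :=
    intervalIntegral.integral_eq_sub_of_hasDerivAt (fun s _ => h7 s)
      ((hg.comp h6).intervalIntegrable _ _)
  rw [h1 _ (by simp), h2 _ (by simp), sub_zero,
    intervalIntegral.integral_of_le (by norm_num), ← integral_Icc_eq_integral_Ioc] at h8
  simp only [h5, Pi.zero_apply]
  unfold unif
  rw [integral_smul_measure, h8, smul_zero]

/-! ### elementary derivatives -/

theorem d1b_cf (q a : ℝ) : HasDerivAt (cf q) (cd q a) a := by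
  have h1 : HasDerivAt (fun a : ℝ => q * a) q a := by
    simpa using (hasDerivAt_id a).const_mul q
  have h := (h1.cos).const_mul (-(q / (2 * Real.sin q)))
  refine h.congr_deriv ?_
  unfold cd
  ring

theorem d1b_vf (q a : ℝ) : HasDerivAt (vf q) (q * Real.cos (q * a) / Real.sin q - 1) a := by
  have h1 : HasDerivAt (fun a : ℝ => q * a) q a := by
    simpa using (hasDerivAt_id a).const_mul q
  have h := ((h1.sin).div_const (Real.sin q)).sub (hasDerivAt_id a)
  refine h.congr_deriv ?_
  ring

theorem d1b_vd (q : ℝ) (a : ℝ) :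
    q * Real.cos (q * a) / Real.sin q - 1 = -2 * cf q a - 1 := by
  unfold cf
  by_cases h : Real.sin q = 0
  · simp [h]
  · field_simp

theorem d1b_v1 (q : ℝ) (hq : Real.sin q ≠ 0) : vf q 1 = 0 ∧ vf q (-1) = 0 := by
  unfold vf
  constructor
  · rw [mul_one, div_self hq, sub_self]
  · rw [mul_neg, mul_one, Real.sin_neg, neg_div, div_self hq]
    norm_num

theorem d1b_nu0 (x : ℝ) : HasDerivAt nu0 (-2 * x * nu0 x) x := by
  have h1 : HasDerivAt (fun x : ℝ => -x ^ 2) (-(2 * x)) x := by
    simpa using (hasDerivAt_pow 2 x).fun_neg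
  have h := (h1.exp).div_const (Real.sqrt Real.pi)
  refine h.congr_deriv ?_
  unfold nu0
  ring

theorem d1b_cf_cont (q : ℝ) : Continuous (cf q) := by unfold cf; fun_prop
theorem d1b_cd_cont (q : ℝ) : Continuous (cd q) := by unfold cd; fun_prop
theorem d1b_vf_cont (q : ℝ) : Continuous (vf q) := by unfold vf; fun_prop
theorem d1b_nu0_cont : Continuous nu0 := by unfold nu0; fun_prop

variable {m : ℕ} (P : Par m) (q : ℝ)

theorem d1b_theta_cont : Continuous (P.theta q) := by
  unfold Par.theta
  have := d1b_cf_cont q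
  fun_prop

theorem d1b_Gam_cont : Continuous (P.Gam q) := by
  unfold Par.Gam
  have := d1b_cd_cont q
  have := d1b_vf_cont q
  fun_prop

theorem d1b_theta (a : Fin m → ℝ) (i : Fin m) :
    HasDerivAt (fun s => P.theta q (Function.update a i s)) (P.σ i * cd q (a i) / P.r) (a i) := by
  have h1 : ∀ j, HasDerivAt (fun s => P.σ j * cf q (Function.update a i s j))
      (if j = i then P.σ i * cd q (a i) else 0) (a i) := by
    intro j
    by_cases h : j = i
    · subst h
      simp only [Function.update_self, if_true]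
      exact (d1b_cf q (a j)).const_mul _
    · simp only [Function.update_of_ne h, if_neg h]
      exact hasDerivAt_const _ _
  have h2 := (HasDerivAt.fun_sum fun j (_ : j ∈ Finset.univ) => h1 j).div_const P.r
  refine h2.congr_deriv ?_
  rw [Finset.sum_ite_eq' Finset.univ i, if_pos (Finset.mem_univ i)]

theorem d1b_f (f : ℝ × (Fin m → ℝ) → ℝ) (hf : ContDiff ℝ 1 f) (t : ℝ) (a : Fin m → ℝ) (i : Fin m) :
    HasDerivAt (fun s => f (t - P.theta q (Function.update a i s), Function.update a i s))
      (fderiv ℝ f (t - P.theta q a, a) (0, Pi.single i 1) -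
        (P.σ i * cd q (a i) / P.r) * fderiv ℝ f (t - P.theta q a, a) (1, 0)) (a i) := by
  have h1 : HasDerivAt (fun s => t - P.theta q (Function.update a i s))
      (-(P.σ i * cd q (a i) / P.r)) (a i) := (d1b_theta P q a i).const_sub t
  have h2 : HasDerivAt (fun s => Function.update a i s) (Pi.single i (1 : ℝ)) (a i) :=
    hasDerivAt_update a i (a i)
  have h3 := h1.prodMk h2
  have h4 : HasFDerivAt f (fderiv ℝ f (t - P.theta q a, a))
      (t - P.theta q (Function.update a i (a i)), Function.update a i (a i)) := by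
    rw [Function.update_eq_self]
    exact ((hf.differentiable one_ne_zero) _).hasFDerivAt
  have h5 := h4.comp_hasDerivAt (a i) h3
  refine h5.congr_deriv ?_
  have h6 : ((-(P.σ i * cd q (a i) / P.r), Pi.single i (1 : ℝ)) : ℝ × (Fin m → ℝ)) =
      (0, Pi.single i 1) - (P.σ i * cd q (a i) / P.r) • ((1, 0) : ℝ × (Fin m → ℝ)) := by
    ext j <;> simp
  rw [h6, map_sub, map_smul, smul_eq_mul]

theorem d1b_nu (t : ℝ) (a : Fin m → ℝ) (i : Fin m) :
    HasDerivAt (fun s => nu0 (t - P.theta q (Function.update a i s)))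
      (2 * (t - P.theta q a) * (P.σ i * cd q (a i) / P.r) * nu0 (t - P.theta q a)) (a i) := by
  have h1 : HasDerivAt (fun s => t - P.theta q (Function.update a i s))
      (-(P.σ i * cd q (a i) / P.r)) (a i) := (d1b_theta P q a i).const_sub t
  have h2 : HasDerivAt nu0 (-2 * (t - P.theta q a) * nu0 (t - P.theta q a))
      (t - P.theta q (Function.update a i (a i))) := by
    rw [Function.update_eq_self]
    exact d1b_nu0 _
  refine (h2.comp (a i) h1).congr_deriv ?_
  ring

/-- the derivative in the `i`-th coordinate of `v(aᵢ) f~ ν` -/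
noncomputable def d1bg (f : ℝ × (Fin m → ℝ) → ℝ) (t : ℝ) (i : Fin m) (a : Fin m → ℝ) : ℝ :=
  (-2 * cf q (a i) - 1) * (f (t - P.theta q a, a) * nu0 (t - P.theta q a)) +
    vf q (a i) * ((fderiv ℝ f (t - P.theta q a, a) (0, Pi.single i 1) -
        (P.σ i * cd q (a i) / P.r) * fderiv ℝ f (t - P.theta q a, a) (1, 0)) *
          nu0 (t - P.theta q a) +
      f (t - P.theta q a, a) *
        (2 * (t - P.theta q a) * (P.σ i * cd q (a i) / P.r) * nu0 (t - P.theta q a)))

theorem d1b_g_cont (f : ℝ × (Fin m → ℝ) → ℝ) (hf : ContDiff ℝ 1 f) (t : ℝ) (i : Fin m) :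
    Continuous (d1bg P q f t i) := by
  have h1 := d1b_theta_cont P q
  have h2 := d1b_cf_cont q
  have h3 := d1b_cd_cont q
  have h4 := d1b_vf_cont q
  have h5 := d1b_nu0_cont
  have h6 := hf.continuous
  have h7 : Continuous (fderiv ℝ f) := hf.continuous_fderiv one_ne_zero
  have h8 : Continuous fun a : Fin m → ℝ => (t - P.theta q a, a) := by fun_prop
  have h9 : ∀ v : ℝ × (Fin m → ℝ), Continuous fun a : Fin m → ℝ =>
      fderiv ℝ f (t - P.theta q a, a) v := fun v => (h7.comp h8).clm_apply continuous_const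
  have h10 := h9 (0, Pi.single i 1)
  have h11 := h9 (1, 0)
  have h12 : Continuous fun a : Fin m → ℝ => f (t - P.theta q a, a) := h6.comp h8
  have h13 : Continuous fun a : Fin m → ℝ => nu0 (t - P.theta q a) := by fun_prop
  unfold d1bg
  fun_prop

theorem d1b_g_int (hq : Real.sin q ≠ 0) (f : ℝ × (Fin m → ℝ) → ℝ) (hf : ContDiff ℝ 1 f) (t : ℝ)
    (i : Fin m) : ∫ a, d1bg P q f t i a ∂(cubeM m) = 0 := by
  obtain ⟨n, rfl⟩ : ∃ n, m = n + 1 := by
    cases m with
    | zero => exact i.elim0
    | succ n => exact ⟨n, rfl⟩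
  refine d1b_ibp i (fun a => vf q (a i) * (f (t - P.theta q a, a) * nu0 (t - P.theta q a))) _
    (fun a => ?_) (d1b_g_cont P q f hf t i) ?_ ?_
  · have h1 : HasDerivAt (fun s => vf q (Function.update a i s i))
        (-2 * cf q (a i) - 1) (a i) := by
      simp only [Function.update_self]
      rw [← d1b_vd]
      exact d1b_vf q (a i)
    have h2 := d1b_f P q f hf t a i
    have h3 := d1b_nu P q t a i
    refine (h1.mul (h2.mul h3)).congr_deriv ?_
    simp only [Function.update_eq_self, d1bg, Pi.mul_apply]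
  · intro a ha
    simp only [ha, (d1b_v1 q hq).1, zero_mul]
  · intro a ha
    simp only [ha, (d1b_v1 q hq).2, zero_mul]

theorem d1b_sigma : ∑ i, P.σ i = 0 := by
  have h1 : ∑ i, P.σ (P.e i) = ∑ i, P.σ i := Equiv.sum_comp P.e P.σ
  have h2 : ∑ i, P.σ (P.e i) = - ∑ i, P.σ i := by
    rw [← Finset.sum_neg_distrib]
    exact Finset.sum_congr rfl fun i _ => P.he i
  linarith

/-- pointwise identity -/
theorem d1b_pointwise (f : ℝ × (Fin m → ℝ) → ℝ) (t : ℝ) (a : Fin m → ℝ) :
    (fderiv ℝ f (t - P.theta q a, a) (1, 0) * P.Gam q a * nu0 (t - P.theta q a) -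
      2 * (t - P.theta q a) * f (t - P.theta q a, a) * P.Gam q a * nu0 (t - P.theta q a)) =
    P.Vd q f (t - P.theta q a, a) * nu0 (t - P.theta q a) -
      2 * t * (f (t - P.theta q a, a) * nu0 (t - P.theta q a)) -
      ∑ i, P.σ i / P.r * d1bg P q f t i a := by
  set x : ℝ := t - P.theta q a with hx
  set L := fderiv ℝ f (x, a) with hL
  have hr : P.r ≠ 0 := P.r_pos.ne'
  -- the pieces of the sum
  have hV : P.Vd q f (x, a) = L (1, 0) + ∑ i, P.σ i * vf q (a i) / P.r * L (0, Pi.single i 1) := by
    unfold Par.Vd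
    have h1 : ((1, fun i => P.σ i * vf q (a i) / P.r) : ℝ × (Fin m → ℝ)) =
        (1, 0) + ∑ i, (P.σ i * vf q (a i) / P.r) • ((0, Pi.single i 1) : ℝ × (Fin m → ℝ)) := by
      ext j
      · simp [Prod.fst_sum]
      · simp [Prod.snd_sum, Finset.sum_apply, Pi.single_apply]
    simp only [h1, map_add, map_sum, map_smul, smul_eq_mul, ← hL]
  have hθ : ∑ i, P.σ i / P.r * (-2 * cf q (a i) - 1) = -2 * P.theta q a := by
    have h1 : ∀ i, P.σ i / P.r * (-2 * cf q (a i) - 1) =
        -2 * ((P.σ i * cf q (a i)) / P.r) - P.σ i / P.r := fun i => by ring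
    simp only [h1]
    rw [Finset.sum_sub_distrib, ← Finset.mul_sum, ← Finset.sum_div, ← Finset.sum_div, d1b_sigma P]
    unfold Par.theta
    ring
  have hG : ∑ i, P.σ i / P.r * (vf q (a i) * (P.σ i * cd q (a i) / P.r)) = P.Gam q a - 1 := by
    unfold Par.Gam
    rw [add_sub_cancel_left, Finset.sum_div]
    refine Finset.sum_congr rfl fun i _ => ?_
    have h2 : P.σ i * P.σ i = 1 := by
      rcases P.hσ i with h | h <;> rw [h] <;> norm_num
    field_simp
    rw [pow_two, h2]
    ring
  have hS : ∑ i, P.σ i / P.r * d1bg P q f t i a =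
      (∑ i, P.σ i / P.r * (-2 * cf q (a i) - 1)) * (f (x, a) * nu0 x) +
      (∑ i, P.σ i * vf q (a i) / P.r * L (0, Pi.single i 1)) * nu0 x -
      (∑ i, P.σ i / P.r * (vf q (a i) * (P.σ i * cd q (a i) / P.r))) * (L (1, 0) * nu0 x) +
      (∑ i, P.σ i / P.r * (vf q (a i) * (P.σ i * cd q (a i) / P.r))) *
        (2 * x * f (x, a) * nu0 x) := by
    rw [Finset.sum_mul, Finset.sum_mul, Finset.sum_mul, Finset.sum_mul, ← Finset.sum_add_distrib,
      ← Finset.sum_sub_distrib, ← Finset.sum_add_distrib]
    refine Finset.sum_congr rfl fun i _ => ?_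
    unfold d1bg
    rw [← hx, ← hL]
    ring
  rw [hS, hθ, hG, hV]
  have : t = x + P.theta q a := by rw [hx]; ring
  rw [this]
  ring

/-- D1 : the fundamental identity -/
theorem slice_deriv (hq : q ∈ Ioc (0 : ℝ) (1 / 2)) (f : ℝ × (Fin m → ℝ) → ℝ) (hf : ContDiff ℝ 1 f)
    (t : ℝ) :
    HasDerivAt (P.slice q fun p => f p * P.Gam q p.2)
      (P.slice q (P.Vd q f) t - 2 * t * P.slice q f t) t := by
  have hsin : Real.sin q ≠ 0 :=
    (Real.sin_pos_of_pos_of_lt_pi hq.1 (by linarith [hq.2, Real.pi_gt_three])).ne'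
  have hprob := d1b_cubeM_prob m
  have h1 := d1b_theta_cont P q
  have h2 := d1b_Gam_cont P q
  have h4 := d1b_vf_cont q
  have h5 := d1b_nu0_cont
  have h6 := hf.continuous
  have h7 : Continuous (fderiv ℝ f) := hf.continuous_fderiv one_ne_zero
  -- the integrand and its derivative, jointly continuous
  set Φ : ℝ → (Fin m → ℝ) → ℝ := fun s a =>
    f (s - P.theta q a, a) * P.Gam q a * nu0 (s - P.theta q a) with hΦ
  set Φ' : ℝ → (Fin m → ℝ) → ℝ := fun s a =>
    fderiv ℝ f (s - P.theta q a, a) (1, 0) * P.Gam q a * nu0 (s - P.theta q a) -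
      2 * (s - P.theta q a) * f (s - P.theta q a, a) * P.Gam q a * nu0 (s - P.theta q a) with hΦ'
  have h8 : Continuous fun z : ℝ × (Fin m → ℝ) => (z.1 - P.theta q z.2, z.2) := by fun_prop
  have h9 : ∀ v : ℝ × (Fin m → ℝ), Continuous fun z : ℝ × (Fin m → ℝ) =>
      fderiv ℝ f (z.1 - P.theta q z.2, z.2) v := fun v => (h7.comp h8).clm_apply continuous_const
  have h10 := h9 (1, 0)
  have h12 : Continuous fun z : ℝ × (Fin m → ℝ) => f (z.1 - P.theta q z.2, z.2) := h6.comp h8
  have h13 : Continuous fun z : ℝ × (Fin m → ℝ) => nu0 (z.1 - P.theta q z.2) := by fun_prop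
  have c1 : Continuous (Function.uncurry Φ) := by
    simp only [hΦ, Function.uncurry_def]
    fun_prop
  have c2 : Continuous (Function.uncurry Φ') := by
    simp only [hΦ', Function.uncurry_def]
    fun_prop
  have c1s : ∀ s, Continuous (Φ s) := fun s => c1.comp (Continuous.prodMk_right s)
  have c2s : ∀ s, Continuous (Φ' s) := fun s => c2.comp (Continuous.prodMk_right s)
  have hd : ∀ s a, HasDerivAt (fun s => Φ s a) (Φ' s a) s := by
    intro s a
    have e1 : HasDerivAt (fun s => s - P.theta q a) 1 s := (hasDerivAt_id s).sub_const _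
    have e2 : HasDerivAt (fun s : ℝ => (s - P.theta q a, a)) ((1, 0) : ℝ × (Fin m → ℝ)) s :=
      e1.prodMk (hasDerivAt_const s a)
    have e3 : HasDerivAt (fun s => f (s - P.theta q a, a))
        (fderiv ℝ f (s - P.theta q a, a) (1, 0)) s :=
      (((hf.differentiable one_ne_zero) _).hasFDerivAt).comp_hasDerivAt s e2
    have e4 : HasDerivAt (fun s => nu0 (s - P.theta q a))
        (-2 * (s - P.theta q a) * nu0 (s - P.theta q a)) s := by
      have e5 := (d1b_nu0 (s - P.theta q a)).comp s e1
      rw [mul_one] at e5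
      exact e5
    refine ((e3.mul_const (P.Gam q a)).mul e4).congr_deriv ?_
    simp only [hΦ']
    ring
  obtain ⟨C, hC⟩ := ((isCompact_Icc (a := t - 1) (b := t + 1)).prod
    (d1b_cube_compact m)).exists_bound_of_continuousOn c2.continuousOn
  have hmain := hasDerivAt_integral_of_dominated_loc_of_deriv_le (μ := cubeM m) (F := Φ)
    (F' := Φ') (x₀ := t) (s := Metric.ball t 1) (bound := fun _ => C)
    (Metric.ball_mem_nhds t one_pos)
    (Eventually.of_forall fun s => (c1s s).aestronglyMeasurable) (d1b_integrable _ (c1s t))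
    (c2s t).aestronglyMeasurable
    (by
      filter_upwards [d1b_ae_cube m] with a ha s hs
      refine hC (s, a) ⟨?_, ha⟩
      rw [Metric.mem_ball, Real.dist_eq, abs_lt] at hs
      exact ⟨by linarith [hs.1], by linarith [hs.2]⟩)
    (integrable_const C)
    (Eventually.of_forall fun a s _ => hd s a)
  have h14 := hmain.2
  have h15 : (P.slice q fun p => f p * P.Gam q p.2) = fun s => ∫ a, Φ s a ∂(cubeM m) := by
    ext s
    rfl
  rw [h15]
  refine h14.congr_deriv ?_
  have h8t : Continuous fun a : Fin m → ℝ => (t - P.theta q a, a) := by fun_prop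
  have i1 : Integrable (fun a => P.Vd q f (t - P.theta q a, a) * nu0 (t - P.theta q a)) (cubeM m) := by
    refine d1b_integrable _ ?_
    have e1 : Continuous fun a : Fin m → ℝ => P.Vd q f (t - P.theta q a, a) := by
      unfold Par.Vd
      refine (h7.comp h8t).clm_apply ?_
      fun_prop
    have e2 : Continuous fun a : Fin m → ℝ => nu0 (t - P.theta q a) := by fun_prop
    exact e1.mul e2
  have i2 : Integrable (fun a => f (t - P.theta q a, a) * nu0 (t - P.theta q a)) (cubeM m) := by
    refine d1b_integrable _ ?_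
    have e1 : Continuous fun a : Fin m → ℝ => f (t - P.theta q a, a) := h6.comp h8t
    have e2 : Continuous fun a : Fin m → ℝ => nu0 (t - P.theta q a) := by fun_prop
    exact e1.mul e2
  have i3 : ∀ i, Integrable (fun a => P.σ i / P.r * d1bg P q f t i a) (cubeM m) := fun i =>
    (d1b_integrable _ (d1b_g_cont P q f hf t i)).const_mul _
  have h16 : ∀ a, Φ' t a = P.Vd q f (t - P.theta q a, a) * nu0 (t - P.theta q a) -
      2 * t * (f (t - P.theta q a, a) * nu0 (t - P.theta q a)) -
      ∑ i, P.σ i / P.r * d1bg P q f t i a := fun a => d1b_pointwise P q f t a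
  simp only [h16]
  have i4 : Integrable (fun a => P.Vd q f (t - P.theta q a, a) * nu0 (t - P.theta q a) -
      2 * t * (f (t - P.theta q a, a) * nu0 (t - P.theta q a))) (cubeM m) :=
    i1.sub (i2.const_mul _)
  rw [integral_sub i4 (integrable_finsetSum _ fun i _ => i3 i),
    integral_sub i1 (i2.const_mul _), integral_finsetSum _ fun i _ => i3 i]
  have h17 : ∑ i, ∫ a, P.σ i / P.r * d1bg P q f t i a ∂(cubeM m) = 0 := by
    refine Finset.sum_eq_zero fun i _ => ?_
    rw [integral_const_mul, d1b_g_int P q hsin f hf t i, mul_zero]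
  rw [h17, sub_zero, integral_const_mul]
  rfl

end IsoHull
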