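import Mathlib

/-!
# Definitions for the one-dimensional part of IsoHull27 (MP_b478d8_an)
-/

open MeasureTheory Set Filter Topology
open scoped ENNReal NNReal

namespace IsoHull

/-- The one-dimensional structure: `ρ` an even probability density, `w` an even weight with
`w' = -2tρ` and `ρ ≤ w ≤ 2ρ`. -/
structure Struct1 (ρ w : ℝ → ℝ) : Prop where
  cont : Continuous ρ
  pos : ∀ t, 0 < ρ t
  even : ∀ t, ρ (-t) = ρ t
  weven : ∀ t, w (-t) = w t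
  hasDeriv : ∀ t, HasDerivAt w (-2 * t * ρ t) t
  le1 : ∀ t, ρ t ≤ w t
  le2 : ∀ t, w t ≤ 2 * ρ t
  hint : Integrable ρ
  int1 : ∫ t, ρ t = 1

/-- the tail mass -/
noncomputable def Rt (ρ : ℝ → ℝ) (t : ℝ) : ℝ := ∫ s in Ioi t, ρ s

open Classical in
/-- the profile: `J (Rt t) = w t`, and `0` elsewhere -/
noncomputable def Jf (ρ w : ℝ → ℝ) (m : ℝ) : ℝ :=
  if h : ∃ t, Rt ρ t = m then w (Classical.choose h) else 0

/-- abstract properties of the profile -/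
structure JProp (J : ℝ → ℝ) : Prop where
  nonneg : ∀ m ∈ Icc (0 : ℝ) 1, 0 ≤ J m
  le_two : ∀ m ∈ Icc (0 : ℝ) 1, J m ≤ 2
  zero : J 0 = 0
  symm : ∀ m ∈ Icc (0 : ℝ) 1, J (1 - m) = J m
  strong : ∀ x p, 0 ≤ x → 0 ≤ p → p + x ≤ 1 → J (p + x) + p * x ≤ J x + J p

/-- mass of a grid set (cells `0..n`, tail masses `R 0 = 1 ≥ R 1 ≥ … ≥ R (n+1) = 0`) -/
noncomputable def gmass (R : ℕ → ℝ) (n : ℕ) (e : ℕ → ℝ) : ℝ :=
  ∑ k ∈ Finset.range (n + 1), e k * (R k - R (k + 1))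

/-- perimeter of a grid set -/
noncomputable def gper (J : ℝ → ℝ) (R : ℕ → ℝ) (n : ℕ) (e : ℕ → ℝ) : ℝ :=
  ∑ k ∈ Finset.range n, J (R (k + 1)) * |e (k + 1) - e k|

/-- the superlevel set `{h > s}` as a `0/1` sequence -/
noncomputable def lev (h : ℕ → ℝ) (s : ℝ) (k : ℕ) : ℝ := if s < h k then 1 else 0

/-- mass of `{h > s}` in the central cells `k₁ ≤ k < k₂` -/
noncomputable def cmass (R h : ℕ → ℝ) (k₁ k₂ : ℕ) (s : ℝ) : ℝ :=
  ∑ k ∈ Finset.Ico k₁ k₂, lev h s k * (R k - R (k + 1))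

/-- its deviation from the mean over `s ∈ [0,1]` -/
noncomputable def d0 (R h : ℕ → ℝ) (k₁ k₂ : ℕ) (s : ℝ) : ℝ :=
  cmass R h k₁ k₂ s - ∫ u in (0 : ℝ)..1, cmass R h k₁ k₂ u

/-- isoperimetric deficit of `{h > s}` -/
noncomputable def gdef (J : ℝ → ℝ) (R : ℕ → ℝ) (n : ℕ) (h : ℕ → ℝ) (s : ℝ) : ℝ :=
  gper J R n (lev h s) - J (gmass R n (lev h s))

/-- A grid: tail masses at the grid points, central range `k₁ ≤ k < k₂` (cells inside `[-T,T]`) and inner range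
`j₁ ≤ j < j₂` (cells inside `[-t₀,t₀]`). `p/2` is the mass of each of the two tails beyond `±T`, and `b` is a lower
bound for the mass of the two tails beyond `±t₀`. -/
structure Grid (R : ℕ → ℝ) (n k₁ k₂ j₁ j₂ : ℕ) (p b α₀ : ℝ) : Prop where
  anti : ∀ k, k ≤ n → R (k + 1) ≤ R k
  zero : R 0 = 1
  last : R (n + 1) = 0
  ord1 : 1 ≤ k₁
  ord2 : k₁ ≤ j₁
  ord3 : j₁ < j₂
  ord4 : j₂ ≤ k₂
  ord5 : k₂ ≤ n
  hk1 : R k₁ = 1 - p / 2
  hk2 : R k₂ = p / 2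
  hj1 : 1 - R j₁ ≤ α₀ / 8
  hj2 : R j₂ ≤ α₀ / 8
  hb1 : b ≤ 1 - R j₁
  hb2 : b ≤ R j₂

end IsoHull
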