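import Pool.Agent.IsoHull27.D1a
import Pool.Agent.IsoHull27.D1b
import Pool.Agent.IsoHull27.Defs1D

/-!
# The model data form a one-dimensional structure
-/

open MeasureTheory Set Filter Topology
open scoped ENNReal NNReal

set_option autoImplicit false

namespace IsoHull

variable {m : ℕ} (P : Par m) (q : ℝ)

/-- invariance of the cube measure under coordinate permutations -/
theorem d1c_perm (e : Equiv.Perm (Fin m)) (g : (Fin m → ℝ) → ℝ) (hg : Continuous g) :
    ∫ a, g (fun i => a (e i)) ∂(cubeM m) = ∫ a, g a ∂(cubeM m) := by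
  have h1 := measurePreserving_piCongrLeft (fun _ : Fin m => unif) e.symm
  have h2 : ∀ a : Fin m → ℝ, (MeasurableEquiv.piCongrLeft (fun _ : Fin m => ℝ) e.symm) a =
      fun i => a (e i) := by
    intro a
    ext i
    have := Equiv.piCongrLeft_apply_apply (fun _ : Fin m => ℝ) e.symm a (e i)
    rw [Equiv.symm_apply_apply] at this
    exact this
  have h3 : MeasurePreserving (fun (a : Fin m → ℝ) i => a (e i)) (cubeM m) (cubeM m) := by
    have h4 : (⇑(MeasurableEquiv.piCongrLeft (fun _ : Fin m => ℝ) e.symm) :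
        (Fin m → ℝ) → (Fin m → ℝ)) = fun (a : Fin m → ℝ) i => a (e i) := funext h2
    rw [h4] at h1
    exact h1
  have h5 := integral_map (μ := cubeM m) (φ := fun (a : Fin m → ℝ) i => a (e i))
    h3.measurable.aemeasurable (f := g) hg.aestronglyMeasurable
  rw [h3.map_eq] at h5
  exact h5.symm

theorem d1c_sigma (i : Fin m) : P.σ i = -P.σ (P.e i) := by
  rw [P.he i, neg_neg]

theorem d1c_theta (a : Fin m → ℝ) : P.theta q (fun i => a (P.e i)) = -P.theta q a := by
  unfold Par.theta
  rw [← neg_div]
  congr 1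
  rw [← Finset.sum_neg_distrib, ← Equiv.sum_comp P.e (fun i => -(P.σ i * cf q (a i)))]
  refine Finset.sum_congr rfl fun i _ => ?_
  rw [d1c_sigma P i]
  ring

theorem d1c_Gam (a : Fin m → ℝ) : P.Gam q (fun i => a (P.e i)) = P.Gam q a := by
  unfold Par.Gam
  rw [Equiv.sum_comp P.e (fun i => vf q (a i) * cd q (a i))]

theorem d1c_nu0 (x : ℝ) : nu0 (-x) = nu0 x := by
  unfold nu0
  rw [neg_sq]

theorem d1c_slice_even (G : (Fin m → ℝ) → ℝ) (hG : Continuous G)
    (hGe : ∀ a, G (fun i => a (P.e i)) = G a) (t : ℝ) :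
    P.slice q (fun p => G p.2) (-t) = P.slice q (fun p => G p.2) t := by
  have hθ := P.theta_cont q
  have hnu := nu0_cont
  unfold Par.slice
  rw [← d1c_perm P.e (fun a => G a * nu0 (-t - P.theta q a)) (by fun_prop)]
  refine integral_congr_ae (Eventually.of_forall fun a => ?_)
  simp only [hGe, d1c_theta]
  rw [← d1c_nu0 (t - P.theta q a)]
  congr 2
  ring

theorem d1c_rho_pos (t : ℝ) : 0 < P.rho q t := by
  have hθ := P.theta_cont q
  have hnu := nu0_cont
  unfold Par.rho Par.slice
  have h1 : Continuous fun a : Fin m → ℝ => (1 : ℝ) * nu0 (t - P.theta q a) := by fun_prop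
  rw [integral_pos_iff_support_of_nonneg (fun a => mul_nonneg zero_le_one (nu0_nonneg _))
    (integrable_cubeM h1)]
  have h2 : (Function.support fun a : Fin m → ℝ => (1 : ℝ) * nu0 (t - P.theta q a)) = univ := by
    ext a
    simp only [Function.mem_support, mem_univ, iff_true, one_mul]
    exact (nu0_pos _).ne'
  rw [h2, measure_univ]
  exact one_pos

/-- the model data form a one-dimensional structure -/
theorem struct_model (hq : q ∈ Ioc (0 : ℝ) (1 / 2)) : Struct1 (P.rho q) (P.w q) := by
  have hθ := P.theta_cont q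
  have hG := P.Gam_cont q
  have hnu := nu0_cont
  have hint1 : Integrable (fun p => (fun _ : ℝ => (1 : ℝ)) (P.F q p) * (fun _ => (1 : ℝ)) p) (mu m) := by
    simp only [mul_one]
    exact integrable_const _
  have h1 := integral_slice P q (fun _ => 1) (fun _ => 1) measurable_const measurable_const hint1
  simp only [one_mul, mul_one] at h1
  refine ⟨slice_continuous P q _ continuous_const, d1c_rho_pos P q, fun t => ?_, fun t => ?_,
    fun t => ?_, fun t => ?_, fun t => ?_, h1.1, ?_⟩
  · exact d1c_slice_even P q (fun _ => 1) continuous_const (fun _ => rfl) t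
  · exact d1c_slice_even P q (P.Gam q) hG (d1c_Gam P q) t
  · have h2 := slice_deriv P q hq (fun _ => 1) contDiff_const t
    have h3 : (P.slice q fun p => 1 * P.Gam q p.2) = P.w q := by
      unfold Par.w
      simp only [one_mul]
    rw [h3] at h2
    refine h2.congr_deriv ?_
    have h4 : P.slice q (P.Vd q fun _ => 1) t = 0 := by
      unfold Par.slice Par.Vd
      simp
    rw [h4]
    unfold Par.rho
    ring
  · unfold Par.rho Par.w Par.slice
    refine integral_mono_ae (integrable_cubeM (by fun_prop)) (integrable_cubeM (by fun_prop)) ?_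
    filter_upwards [cubeM_ae_mem m] with a ha
    exact mul_le_mul_of_nonneg_right (Gam_bounds P q hq a ha).1 (nu0_nonneg _)
  · unfold Par.rho Par.w Par.slice
    rw [← integral_const_mul]
    refine integral_mono_ae (integrable_cubeM (by fun_prop)) (integrable_cubeM (by fun_prop)) ?_
    filter_upwards [cubeM_ae_mem m] with a ha
    have := mul_le_mul_of_nonneg_right (Gam_bounds P q hq a ha).2 (nu0_nonneg (t - P.theta q a))
    simpa using this
  · have h5 := h1.2
    simp only [integral_const, smul_eq_mul, mul_one, probReal_univ] at h5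
    exact h5

theorem exists_threshold {m : ℕ} (P : Par m) (q : ℝ) (hq : q ∈ Ioc (0 : ℝ) (1 / 2)) (α : ℝ)
    (hα : α ∈ Ioo (0 : ℝ) 1) : ∃ c₀, ∫ t in Ioi c₀, P.rho q t = α := by
  have hS := struct_model P q hq
  have hi := hS.hint
  have h1' : ∀ c : ℝ, ∫ t in Ioi c, P.rho q t = (∫ t in Ioi 0, P.rho q t) - ∫ t in (0 : ℝ)..c, P.rho q t := by
    intro c
    have := intervalIntegral.integral_interval_add_Ioi (a := 0) (b := c) hi.integrableOn
      hi.integrableOn
    linarith
  have h1 : (fun c : ℝ => ∫ t in Ioi c, P.rho q t) =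
      fun c => (∫ t in Ioi 0, P.rho q t) - ∫ t in (0 : ℝ)..c, P.rho q t := funext h1'
  have h2 : Continuous fun c : ℝ => ∫ t in Ioi c, P.rho q t := by
    rw [h1]
    exact continuous_const.sub (intervalIntegral.continuous_primitive
      (fun a b => hi.intervalIntegrable) 0)
  have h3 : Tendsto (fun c : ℝ => ∫ t in Ioi c, P.rho q t) atTop (𝓝 0) := by
    rw [h1]
    have := intervalIntegral_tendsto_integral_Ioi (0 : ℝ) (hi.integrableOn (s := Ioi 0)) tendsto_id
    have h4 := this.const_sub (∫ t in Ioi 0, P.rho q t)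
    simpa using h4
  have h5 : Tendsto (fun c : ℝ => ∫ t in Ioi c, P.rho q t) atBot (𝓝 1) := by
    rw [h1]
    have := intervalIntegral_tendsto_integral_Iic (0 : ℝ) (hi.integrableOn (s := Iic 0)) tendsto_id
    have h4 := this.const_add (∫ t in Ioi 0, P.rho q t)
    have h6 : (∫ t in Ioi 0, P.rho q t) + ∫ t in Iic 0, P.rho q t = 1 := by
      rw [← hS.int1, add_comm]
      have := integral_add_compl (measurableSet_Iic (a := (0 : ℝ))) hi
      rw [compl_Iic] at this
      exact this
    rw [h6] at h4
    refine h4.congr fun c => ?_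
    simp only [id]
    rw [intervalIntegral.integral_symm]
    ring
  obtain ⟨a, ha⟩ := (h3.eventually (gt_mem_nhds hα.1)).exists
  obtain ⟨b, hb⟩ := (h5.eventually (lt_mem_nhds hα.2)).exists
  exact mem_range_of_exists_le_of_exists_ge h2 ⟨a, ha.le⟩ ⟨b, hb.le⟩

end IsoHull
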