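import Pool.Agent.IsoHull27.Basic
import Pool.Agent.IsoHull27.D0

/-!
# IsoHull27 D3a: concentration (MP_b478d8_an)
-/

open MeasureTheory Set Filter Topology
open scoped ENNReal NNReal

namespace IsoHull

variable {m : ℕ} (P : Par m) (q : ℝ)

theorem lln_sq (g : ℝ → ℝ) (hg : Measurable g) (B : ℝ) (hB : ∀ a ∈ Icc (-1 : ℝ) 1, |g a| ≤ B)
    (τ : Fin m → ℝ) (hτ : ∀ i, |τ i| ≤ 1) :
    ∫ a, (∑ i, τ i * (g (a i) - ∫ b, g b ∂unif)) ^ 2 ∂(cubeM m) ≤ m * B ^ 2 := by
  set μg : ℝ := ∫ b, g b ∂unif with hμ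
  have hgae : ∀ᵐ a ∂unif, |g a| ≤ B := unif_ae_mem.mono fun a ha => hB a ha
  have hB0 : 0 ≤ B := (abs_nonneg _).trans (hB 0 (by constructor <;> norm_num))
  have hgL : MemLp g 2 unif :=
    MemLp.of_bound hg.aestronglyMeasurable B (hgae.mono fun a ha => by simpa using ha)
  have hgI : Integrable g unif := hgL.integrable (by norm_num)
  set X : Fin m → ℝ → ℝ := fun i b => τ i * (g b - μg) with hX
  have hXL : ∀ i, MemLp (X i) 2 unif := fun i => (hgL.sub (memLp_const _)).const_mul (τ i)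
  have hXm : ∀ i, Measurable (X i) := fun i => (hg.sub_const _).const_mul _
  have hX0 : ∀ i, ∫ b, X i b ∂unif = 0 := by
    intro i
    simp only [hX]
    rw [integral_const_mul, integral_sub hgI (integrable_const _)]
    simp [hμ]
  have hvar := ProbabilityTheory.variance_sum_pi (μ := fun _ : Fin m => unif) (X := X) hXL
  have hev : ∀ i : Fin m, MeasurePreserving (fun a : Fin m → ℝ => a i) (cubeM m) unif := by
    intro i
    unfold cubeM
    exact measurePreserving_eval (fun _ : Fin m => unif) i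
  have hXI : ∀ i : Fin m, Integrable (fun a : Fin m → ℝ => X i (a i)) (cubeM m) := by
    intro i
    exact (hev i).integrable_comp_of_integrable ((hXL i).integrable (by norm_num))
  have hXi0 : ∀ i : Fin m, ∫ a, X i (a i) ∂(cubeM m) = 0 := by
    intro i
    rw [← hX0 i, ← (hev i).map_eq]
    rw [integral_map (hev i).measurable.aemeasurable (hXm i).aestronglyMeasurable]
  have hsum0 : ∫ a, (∑ i, fun a : Fin m → ℝ => X i (a i)) a ∂(cubeM m) = 0 := by
    simp only [Finset.sum_apply]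
    rw [integral_finsetSum _ fun i _ => hXI i]
    simp [hXi0]
  have hmeas : AEMeasurable (∑ i, fun a : Fin m → ℝ => X i (a i)) (cubeM m) := by
    apply Measurable.aemeasurable
    have : (∑ i, fun a : Fin m → ℝ => X i (a i)) = fun a => ∑ i, X i (a i) := by
      ext a; simp
    rw [this]
    exact Finset.measurable_sum _ fun i _ => (hXm i).comp (measurable_pi_apply i)
  have h1 : ∫ a, (∑ i, τ i * (g (a i) - μg)) ^ 2 ∂(cubeM m) =
      ProbabilityTheory.variance (∑ i, fun a : Fin m → ℝ => X i (a i)) (cubeM m) := by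
    rw [ProbabilityTheory.variance_of_integral_eq_zero hmeas hsum0]
    congr 1
    ext a
    simp [hX]
  rw [h1]
  change ProbabilityTheory.variance (∑ i, fun a : Fin m → ℝ => X i (a i))
    (Measure.pi fun _ => unif) ≤ _
  rw [hvar]
  have hone : ∀ i, ProbabilityTheory.variance (X i) unif ≤ B ^ 2 := by
    intro i
    have ha : ProbabilityTheory.variance (X i) unif = τ i ^ 2 * ProbabilityTheory.variance g unif := by
      simp only [hX]
      rw [ProbabilityTheory.variance_const_mul, ProbabilityTheory.variance_sub_const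
        hg.aestronglyMeasurable]
    have hb : ProbabilityTheory.variance g unif ≤ B ^ 2 := by
      have hh := ProbabilityTheory.variance_le_sq_of_bounded (μ := unif) (X := g) (a := -B) (b := B)
        (hgae.mono fun a ha => abs_le.1 ha) hg.aemeasurable
      calc _ ≤ ((B - -B) / 2) ^ 2 := hh
        _ = B ^ 2 := by ring
    have hc : τ i ^ 2 ≤ 1 := by
      rw [← sq_abs]
      exact pow_le_one₀ (abs_nonneg _) (hτ i)
    have hd : 0 ≤ ProbabilityTheory.variance g unif := ProbabilityTheory.variance_nonneg _ _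
    rw [ha]
    nlinarith
  calc ∑ i, ProbabilityTheory.variance (X i) unif ≤ ∑ _i : Fin m, B ^ 2 :=
        Finset.sum_le_sum fun i _ => hone i
    _ = m * B ^ 2 := by simp

private theorem D3a_aux (g : ℝ → ℝ) (hg : Measurable g) (hB : ∀ a ∈ Icc (-1 : ℝ) 1, |g a| ≤ 1)
    (E : ℝ) (hE : 2 * ∫ b, g b ∂unif = E) :
    ∫ a, ((∑ i, g (a i)) / P.r ^ 2 - E) ^ 2 ∂(cubeM m) ≤ 2 / P.r ^ 2 := by
  have hr := P.r_pos
  have hm := P.hm
  have h := lln_sq (m := m) g hg 1 hB (fun _ => 1) (fun _ => by simp)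
  have h2 : ∀ a : Fin m → ℝ, ((∑ i, g (a i)) / P.r ^ 2 - E) ^ 2 =
      (1 / P.r ^ 4) * (∑ i : Fin m, 1 * (g (a i) - ∫ b, g b ∂unif)) ^ 2 := by
    intro a
    have : ∑ i : Fin m, 1 * (g (a i) - ∫ b, g b ∂unif) = (∑ i, g (a i)) - P.r ^ 2 * E := by
      simp only [one_mul]
      rw [Finset.sum_sub_distrib]
      simp only [Finset.sum_const, Finset.card_univ, Fintype.card_fin, nsmul_eq_mul]
      rw [hm, ← hE]
      ring
    rw [this]
    field_simp
  simp_rw [h2]
  rw [integral_const_mul]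
  calc _ ≤ 1 / P.r ^ 4 * (m * 1 ^ 2) := by gcongr
    _ = 2 / P.r ^ 2 := by
      rw [hm]
      field_simp

theorem int_Q_sq (hq : q ∈ Ioc (0 : ℝ) (1 / 2)) :
    ∫ a, (P.Q q a - (1 - Real.sin (2 * q) / (2 * q))) ^ 2 ∂(cubeM m) ≤ 2 / P.r ^ 2 := by
  have h := D3a_aux P (fun a => Real.sin (q * a) ^ 2) (by fun_prop) (fun a _ => by
    rw [abs_of_nonneg (sq_nonneg _)]
    exact Real.sin_sq_le_one _) _ (mean_sinsq q hq)
  exact h

theorem int_S_sq (hq : q ∈ Ioc (0 : ℝ) (1 / 2)) :
    ∫ a, (P.S q a - (1 - Ac q)) ^ 2 ∂(cubeM m) ≤ 2 / P.r ^ 2 := by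
  have hc := cd_cont q
  have h := D3a_aux P (fun a => a * cd q a) (by fun_prop) (fun a ha => by
    rw [abs_mul]
    have h1 : |a| ≤ 1 := abs_le.2 ha
    have h2 := (cd_bounds q hq a ha).1
    have h3 : q ^ 2 / 2 ≤ 1 := by
      have := hq.1
      have := hq.2
      nlinarith
    have := abs_nonneg a
    have := abs_nonneg (cd q a)
    nlinarith) _ (mean_acd q hq)
  exact h

theorem int_Gam_sq (hq : q ∈ Ioc (0 : ℝ) (1 / 2)) :
    ∫ a, (P.Gam q a - Ac q * R2 q) ^ 2 ∂(cubeM m) ≤ 2 / P.r ^ 2 := by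
  have hc := cd_cont q
  have hv := vf_cont q
  have hm : 2 * ∫ b, vf q b * cd q b ∂unif = Ac q * R2 q - 1 := by
    have := mean_vcd q hq
    linarith
  have h := D3a_aux P (fun a => vf q a * cd q a) (by fun_prop) (fun a ha => by
    have h2 := cd_bounds q hq a ha
    have h3 : q ^ 2 / 2 ≤ 1 := by
      have := hq.1
      have := hq.2
      nlinarith
    rw [abs_of_nonneg h2.2.2.2.2.1]
    exact h2.2.2.2.2.2.trans h3) _ hm
  refine le_trans (le_of_eq ?_) h
  congr 1
  ext a
  unfold Par.Gam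
  ring

/-- One-sided Hoeffding bound for balanced signs. -/
private theorem D3a_tail (hq : q ∈ Ioc (0 : ℝ) (1 / 2)) (D : ℝ) (hD : 0 < D) (τ : Fin m → ℝ)
    (hτ : ∀ i, τ i = 1 ∨ τ i = -1) (hτ0 : ∑ i, τ i = 0) :
    (cubeM m).real {a | D ≤ (∑ i, τ i * cf q (a i)) / P.r} ≤
      Real.exp (-(9 * D ^ 2 / q ^ 4)) := by
  have hr := P.r_pos
  have hm := P.hm
  have hq0 := hq.1
  set μg : ℝ := ∫ b, cf q b ∂unif with hμ
  have hcm : Measurable (cf q) := (cf_cont q).measurable
  have hrange : ∀ a ∈ Icc (-1 : ℝ) 1, cf q a ∈ Icc (cf q 0) (cf q 0 + 3 / 10 * q ^ 2) := by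
    intro a ha
    constructor
    · have hs : 0 < Real.sin q :=
        Real.sin_pos_of_pos_of_lt_pi hq0 (by linarith [hq.2, Real.pi_gt_three])
      unfold cf
      have hk : 0 < q / (2 * Real.sin q) := by positivity
      have hc : Real.cos (q * a) ≤ 1 := Real.cos_le_one _
      rw [mul_zero, Real.cos_zero]
      nlinarith
    · have := osc_cf q hq a 0 ha (by constructor <;> norm_num)
      linarith
  have hgI : Integrable (cf q) unif := by
    refine Integrable.of_mem_Icc (cf q 0) (cf q 0 + 3 / 10 * q ^ 2) hcm.aemeasurable ?_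
    exact unif_ae_mem.mono fun a ha => hrange a ha
  set Y : Fin m → ℝ → ℝ := fun i b => τ i * (cf q b - μg) with hY
  have hYm : ∀ i, Measurable (Y i) := fun i => (hcm.sub_const _).const_mul _
  have hY0 : ∀ i, ∫ b, Y i b ∂unif = 0 := by
    intro i
    simp only [hY]
    rw [integral_const_mul, integral_sub hgI (integrable_const _)]
    simp [hμ]
  have hsub : ∀ i, ProbabilityTheory.HasSubgaussianMGF (Y i)
      ((‖3 / 10 * q ^ 2‖₊ / 2) ^ 2) unif := by
    intro i
    rcases hτ i with h1 | h1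
    · have hb : ∀ᵐ b ∂unif, Y i b ∈ Icc (cf q 0 - μg) (cf q 0 - μg + 3 / 10 * q ^ 2) := by
        filter_upwards [unif_ae_mem] with b hb
        have := hrange b hb
        simp only [hY, h1, one_mul]
        constructor <;> linarith [this.1, this.2]
      have h := ProbabilityTheory.hasSubgaussianMGF_of_mem_Icc_of_integral_eq_zero
        (hYm i).aemeasurable hb (hY0 i)
      have he : cf q 0 - μg + 3 / 10 * q ^ 2 - (cf q 0 - μg) = 3 / 10 * q ^ 2 := by ring
      rwa [he] at h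
    · have hb : ∀ᵐ b ∂unif, Y i b ∈ Icc (-(cf q 0 - μg) - 3 / 10 * q ^ 2) (-(cf q 0 - μg)) := by
        filter_upwards [unif_ae_mem] with b hb
        have := hrange b hb
        simp only [hY, h1]
        constructor <;> linarith [this.1, this.2]
      have h := ProbabilityTheory.hasSubgaussianMGF_of_mem_Icc_of_integral_eq_zero
        (hYm i).aemeasurable hb (hY0 i)
      have he : -(cf q 0 - μg) - (-(cf q 0 - μg) - 3 / 10 * q ^ 2) = 3 / 10 * q ^ 2 := by ring
      rwa [he] at h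
  have hev : ∀ i : Fin m, MeasurePreserving (fun a : Fin m → ℝ => a i) (cubeM m) unif := by
    intro i
    unfold cubeM
    exact measurePreserving_eval (fun _ : Fin m => unif) i
  have hsub2 : ∀ i ∈ (Finset.univ : Finset (Fin m)), ProbabilityTheory.HasSubgaussianMGF
      (fun a : Fin m → ℝ => Y i (a i)) ((‖3 / 10 * q ^ 2‖₊ / 2) ^ 2) (cubeM m) := by
    intro i _
    have h := hsub i
    rw [← (hev i).map_eq] at h
    exact ProbabilityTheory.HasSubgaussianMGF.of_map (Y := fun a : Fin m → ℝ => a i)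
      (X := Y i) (hev i).measurable.aemeasurable h
  have hind : ProbabilityTheory.iIndepFun (fun i (a : Fin m → ℝ) => Y i (a i)) (cubeM m) := by
    unfold cubeM
    exact ProbabilityTheory.iIndepFun_pi fun i => (hYm i).aemeasurable
  have key := ProbabilityTheory.HasSubgaussianMGF.measure_sum_ge_le_of_iIndepFun hind
    (c := fun _ => (‖3 / 10 * q ^ 2‖₊ / 2) ^ 2) hsub2 (ε := D * P.r) (by positivity)
  have hset : {a : Fin m → ℝ | D ≤ (∑ i, τ i * cf q (a i)) / P.r} =
      {a | D * P.r ≤ ∑ i, Y i (a i)} := by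
    ext a
    simp only [mem_ofPred_eq, hY]
    rw [le_div_iff₀ hr]
    have : ∑ i, τ i * (cf q (a i) - μg) = ∑ i, τ i * cf q (a i) := by
      simp only [mul_sub]
      rw [Finset.sum_sub_distrib, ← Finset.sum_mul, hτ0]
      ring
    rw [this]
  rw [hset]
  refine key.trans (Real.exp_le_exp.2 ?_)
  have hsumc : ((∑ _i : Fin m, (‖3 / 10 * q ^ 2‖₊ / 2) ^ 2 : ℝ≥0) : ℝ) =
      m * (3 / 20 * q ^ 2) ^ 2 := by
    push_cast
    rw [Finset.sum_const, Finset.card_univ, Fintype.card_fin, nsmul_eq_mul,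
      Real.norm_of_nonneg (by positivity)]
    ring
  rw [hsumc, hm]
  rw [neg_div, neg_le_neg_iff]
  have : (D * P.r) ^ 2 / (2 * (2 * P.r ^ 2 * (3 / 20 * q ^ 2) ^ 2)) = (100 / 9) * (D ^ 2 / q ^ 4) := by
    field_simp
    ring
  rw [this]
  have hpos : 0 ≤ D ^ 2 / q ^ 4 := by positivity
  calc 9 * D ^ 2 / q ^ 4 = 9 * (D ^ 2 / q ^ 4) := by ring
    _ ≤ (100 / 9) * (D ^ 2 / q ^ 4) := by nlinarith

theorem theta_tail (hq : q ∈ Ioc (0 : ℝ) (1 / 2)) (D : ℝ) (hD : 0 < D) :
    (cubeM m).real {a | D ≤ |P.theta q a|} ≤ 2 * Real.exp (-(9 * D ^ 2 / q ^ 4)) := by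
  have hσ0 : ∑ i, P.σ i = 0 := by
    have h1 : ∑ i, P.σ (P.e i) = ∑ i, P.σ i := Equiv.sum_comp P.e P.σ
    simp only [P.he, Finset.sum_neg_distrib] at h1
    linarith
  have hA := D3a_tail P q hq D hD P.σ P.hσ hσ0
  have hB := D3a_tail P q hq D hD (fun i => -P.σ i)
    (fun i => by rcases P.hσ i with h | h <;> simp [h]) (by simp [hσ0])
  have hsub : {a : Fin m → ℝ | D ≤ |P.theta q a|} ⊆
      {a | D ≤ (∑ i, P.σ i * cf q (a i)) / P.r} ∪
        {a | D ≤ (∑ i, (-P.σ i) * cf q (a i)) / P.r} := by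
    intro a ha
    simp only [mem_ofPred_eq, Par.theta] at ha
    rcases le_abs.1 ha with h | h
    · exact Or.inl h
    · refine Or.inr ?_
      simp only [mem_ofPred_eq, neg_mul, Finset.sum_neg_distrib, neg_div]
      exact h
  calc (cubeM m).real {a | D ≤ |P.theta q a|} ≤ _ := measureReal_mono hsub
    _ ≤ _ := measureReal_union_le _ _
    _ ≤ _ := by linarith

end IsoHull
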