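import Pool.Agent.IsoHull27.Defs1D

/-! # Consequences of `Struct1` (package 1D1) -/

open MeasureTheory Set Filter Topology
open scoped ENNReal NNReal

namespace IsoHull

namespace OneD1

variable {ρ w : ℝ → ℝ}

theorem w_pos (h : Struct1 ρ w) (t : ℝ) : 0 < w t := (h.pos t).trans_le (h.le1 t)

theorem w_cont (h : Struct1 ρ w) : Continuous w :=
  continuous_iff_continuousAt.2 fun t => (h.hasDeriv t).continuousAt

theorem w_int (h : Struct1 ρ w) : Integrable w := by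
  refine (h.hint.const_mul 2).mono' (w_cont h).aestronglyMeasurable (ae_of_all _ fun t => ?_)
  rw [Real.norm_eq_abs, abs_of_pos (w_pos h t)]
  exact h.le2 t

theorem mono_a (h : Struct1 ρ w) : MonotoneOn (fun t => w t * Real.exp (t ^ 2)) (Ici 0) := by
  have hd : ∀ t, HasDerivAt (fun t => w t * Real.exp (t ^ 2))
      (-2 * t * ρ t * Real.exp (t ^ 2) + w t * (Real.exp (t ^ 2) * (2 * t))) t := by
    intro t
    have h1 := (hasDerivAt_pow 2 t).exp
    have h2 := (h.hasDeriv t).mul h1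
    refine h2.congr_deriv ?_
    norm_num
  refine monotoneOn_of_deriv_nonneg (convex_Ici 0)
    (fun t _ => (hd t).continuousAt.continuousWithinAt)
    (fun t _ => (hd t).differentiableAt.differentiableWithinAt) fun t ht => ?_
  rw [interior_Ici] at ht
  have ht' : 0 < t := ht
  rw [(hd t).deriv]
  have h3 : 0 ≤ 2 * t * Real.exp (t ^ 2) * (w t - ρ t) :=
    mul_nonneg (by positivity) (sub_nonneg.2 (h.le1 t))
  linarith [h3]

theorem anti_b (h : Struct1 ρ w) : AntitoneOn (fun t => w t * Real.exp (t ^ 2 / 2)) (Ici 0) := by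
  have hd : ∀ t, HasDerivAt (fun t => w t * Real.exp (t ^ 2 / 2))
      (-2 * t * ρ t * Real.exp (t ^ 2 / 2) + w t * (Real.exp (t ^ 2 / 2) * t)) t := by
    intro t
    have h1 := ((hasDerivAt_pow 2 t).div_const 2).exp
    have h2 := (h.hasDeriv t).mul h1
    refine h2.congr_deriv ?_
    norm_num
  refine antitoneOn_of_deriv_nonpos (convex_Ici 0)
    (fun t _ => (hd t).continuousAt.continuousWithinAt)
    (fun t _ => (hd t).differentiableAt.differentiableWithinAt) fun t ht => ?_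
  rw [interior_Ici] at ht
  have ht' : 0 < t := ht
  rw [(hd t).deriv]
  have h3 : 0 ≤ t * Real.exp (t ^ 2 / 2) * (2 * ρ t - w t) :=
    mul_nonneg (by positivity) (sub_nonneg.2 (h.le2 t))
  linarith [h3]

theorem w_abs (h : Struct1 ρ w) (t : ℝ) : w |t| = w t := by
  rcases abs_choice t with h1 | h1
  · rw [h1]
  · rw [h1, h.weven]

theorem w_lower (h : Struct1 ρ w) (t : ℝ) : w 0 * Real.exp (-t ^ 2) ≤ w t := by
  have h1 := mono_a h (mem_Ici.2 le_rfl) (mem_Ici.2 (abs_nonneg t)) (abs_nonneg t)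
  simp only [ne_eq, OfNat.ofNat_ne_zero, not_false_eq_true, zero_pow, Real.exp_zero, mul_one,
    sq_abs, w_abs h] at h1
  calc w 0 * Real.exp (-t ^ 2) ≤ (w t * Real.exp (t ^ 2)) * Real.exp (-t ^ 2) := by gcongr
    _ = w t := by rw [mul_assoc, ← Real.exp_add]; simp

theorem w_upper (h : Struct1 ρ w) (t : ℝ) : w t ≤ w 0 * Real.exp (-t ^ 2 / 2) := by
  have h1 := anti_b h (mem_Ici.2 le_rfl) (mem_Ici.2 (abs_nonneg t)) (abs_nonneg t)
  simp only [ne_eq, OfNat.ofNat_ne_zero, not_false_eq_true, zero_pow, zero_div, Real.exp_zero,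
    mul_one, sq_abs, w_abs h] at h1
  calc w t = (w t * Real.exp (t ^ 2 / 2)) * Real.exp (-t ^ 2 / 2) := by
        rw [mul_assoc, ← Real.exp_add]
        simp [neg_div]
    _ ≤ w 0 * Real.exp (-t ^ 2 / 2) := by gcongr

theorem w0_ge (h : Struct1 ρ w) : 1 / 3 ≤ w 0 := by
  have h1 : ∫ t, ρ t ≤ ∫ t : ℝ, w 0 * Real.exp (-(1 / 2) * t ^ 2) := by
    refine integral_mono h.hint ((integrable_exp_neg_mul_sq (by norm_num)).const_mul _) fun t => ?_
    refine (h.le1 t).trans ((w_upper h t).trans_eq ?_)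
    congr 2
    ring
  rw [h.int1, integral_const_mul, integral_gaussian] at h1
  have h2 : √(Real.pi / (1 / 2)) ≤ 3 := by
    rw [Real.sqrt_le_left (by norm_num)]
    have := Real.pi_le_four
    linarith
  have h3 := w_pos h 0
  nlinarith

theorem w0_le (h : Struct1 ρ w) : w 0 ≤ 2 := by
  have h1 : ∫ t : ℝ, w 0 / 2 * Real.exp (-1 * t ^ 2) ≤ ∫ t, ρ t := by
    refine integral_mono ((integrable_exp_neg_mul_sq (by norm_num)).const_mul _) h.hint fun t => ?_
    have h2 := w_lower h t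
    have h3 := h.le2 t
    have e : -t ^ 2 = -1 * t ^ 2 := by ring
    rw [e] at h2
    simp only
    linarith
  rw [h.int1, integral_const_mul, integral_gaussian] at h1
  have h2 : 1 ≤ √(Real.pi / 1) := by
    rw [Real.one_le_sqrt]
    have := Real.pi_gt_three
    linarith
  have h3 := w_pos h 0
  nlinarith

theorem w_le_two (h : Struct1 ρ w) (t : ℝ) : w t ≤ 2 := by
  refine (w_upper h t).trans ?_
  have h1 : Real.exp (-t ^ 2 / 2) ≤ 1 := by
    rw [Real.exp_le_one_iff]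
    nlinarith [sq_nonneg t]
  have h2 := w0_le h
  have h3 := w_pos h 0
  nlinarith [Real.exp_pos (-t ^ 2 / 2)]

theorem rho_le_two (h : Struct1 ρ w) (t : ℝ) : ρ t ≤ 2 := (h.le1 t).trans (w_le_two h t)

theorem Rt_eq (h : Struct1 ρ w) (t : ℝ) : Rt ρ t = 1 - ∫ s in Iic t, ρ s := by
  have h1 := integral_add_compl (s := Iic t) measurableSet_Iic h.hint
  rw [compl_Iic, h.int1] at h1
  unfold Rt
  linarith

theorem Rt_sub (h : Struct1 ρ w) (a b : ℝ) : Rt ρ a - Rt ρ b = ∫ s in a..b, ρ s := by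
  rw [Rt_eq h, Rt_eq h, ← intervalIntegral.integral_Iic_sub_Iic h.hint.integrableOn
    h.hint.integrableOn]
  ring

theorem Rt_hasDeriv (h : Struct1 ρ w) (t : ℝ) : HasDerivAt (Rt ρ) (-ρ t) t := by
  have h1 : Rt ρ = fun t => Rt ρ 0 - ∫ s in (0 : ℝ)..t, ρ s := by
    funext t
    rw [← Rt_sub h 0 t]
    ring
  rw [h1]
  exact (h.cont.integral_hasStrictDerivAt 0 t).hasDerivAt.const_sub _

end OneD1

theorem struct_bounds {ρ w : ℝ → ℝ} (h : Struct1 ρ w) (t : ℝ) :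
    Real.exp (-t ^ 2) / 6 ≤ ρ t ∧ w t ≤ 2 * Real.exp (-t ^ 2 / 2) ∧ Real.exp (-t ^ 2) / 3 ≤ w t := by
  have h1 := OneD1.w_lower h t
  have h2 := OneD1.w_upper h t
  have h3 := OneD1.w0_ge h
  have h4 := OneD1.w0_le h
  have h5 := h.le2 t
  have e1 := Real.exp_pos (-t ^ 2)
  have e2 := Real.exp_pos (-t ^ 2 / 2)
  have h6 : Real.exp (-t ^ 2) / 3 ≤ w t := by nlinarith
  refine ⟨by linarith, by nlinarith, h6⟩

theorem Rt_strictAnti {ρ w : ℝ → ℝ} (h : Struct1 ρ w) : StrictAnti (Rt ρ) := by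
  refine strictAnti_of_deriv_neg fun t => ?_
  rw [(OneD1.Rt_hasDeriv h t).deriv]
  linarith [h.pos t]

theorem Rt_continuous {ρ w : ℝ → ℝ} (h : Struct1 ρ w) : Continuous (Rt ρ) :=
  continuous_iff_continuousAt.2 fun t => (OneD1.Rt_hasDeriv h t).continuousAt

theorem Rt_neg {ρ w : ℝ → ℝ} (h : Struct1 ρ w) (t : ℝ) : Rt ρ (-t) = 1 - Rt ρ t := by
  have h1 : Rt ρ (-t) = ∫ s in Iic t, ρ s := by
    unfold Rt
    rw [← integral_comp_neg_Iic]
    simp only [h.even]
  rw [h1, OneD1.Rt_eq h]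
  ring

theorem Rt_mem {ρ w : ℝ → ℝ} (h : Struct1 ρ w) (t : ℝ) : Rt ρ t ∈ Ioo (0 : ℝ) 1 := by
  have h0 : ∀ t, 0 < Rt ρ t := by
    intro t
    have h1 : Rt ρ (t + 1) < Rt ρ t := Rt_strictAnti h (by linarith)
    have h2 : 0 ≤ Rt ρ (t + 1) := setIntegral_nonneg measurableSet_Ioi fun s _ => (h.pos s).le
    linarith
  refine ⟨h0 t, ?_⟩
  have h3 := h0 (-t)
  rw [Rt_neg h] at h3
  linarith

/-- uniform tail bound -/
theorem Rt_tail (ε : ℝ) (hε : 0 < ε) : ∃ T₁ : ℝ, 0 < T₁ ∧ ∀ ρ w : ℝ → ℝ, Struct1 ρ w → ∀ T, T₁ ≤ T →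
    Rt ρ T ≤ ε := by
  refine ⟨max 1 (2 * Real.log (4 / ε)), lt_max_of_lt_left one_pos, fun ρ w h T hT => ?_⟩
  have hT1 : 1 ≤ T := (le_max_left _ _).trans hT
  have hT2 : 2 * Real.log (4 / ε) ≤ T := (le_max_right _ _).trans hT
  have hint : IntegrableOn (fun s : ℝ => 2 * Real.exp (-(1 / 2) * s)) (Ioi T) :=
    (integrableOn_exp_mul_Ioi (by norm_num) T).const_mul 2
  have h1 : Rt ρ T ≤ ∫ s in Ioi T, 2 * Real.exp (-(1 / 2) * s) := by
    unfold Rt
    refine setIntegral_mono_on h.hint.integrableOn hint measurableSet_Ioi fun s hs => ?_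
    have hs' : T < s := hs
    refine ((h.le1 s).trans (struct_bounds h s).2.1).trans ?_
    have : Real.exp (-s ^ 2 / 2) ≤ Real.exp (-(1 / 2) * s) := by
      apply Real.exp_le_exp.2
      nlinarith
    linarith
  rw [integral_const_mul, integral_exp_mul_Ioi (by norm_num)] at h1
  have h2 : Real.exp (-(1 / 2) * T) ≤ ε / 4 := by
    calc Real.exp (-(1 / 2) * T) ≤ Real.exp (-Real.log (4 / ε)) := by
          apply Real.exp_le_exp.2
          linarith
      _ = ε / 4 := by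
          rw [Real.exp_neg, Real.exp_log (by positivity), inv_div]
  have h3 : 2 * (-Real.exp (-(1 / 2) * T) / -(1 / 2)) = 4 * Real.exp (-(1 / 2) * T) := by ring
  linarith

/-- uniform lower bound -/
theorem Rt_lower (T : ℝ) : ∃ b : ℝ, 0 < b ∧ ∀ ρ w : ℝ → ℝ, Struct1 ρ w → b ≤ Rt ρ T := by
  refine ⟨Real.exp (-(|T| + 1) ^ 2) / 6, by positivity, fun ρ w h => ?_⟩
  have h1 : Rt ρ T - Rt ρ (T + 1) = ∫ s in T..(T + 1), ρ s := OneD1.Rt_sub h T (T + 1)
  have h2 : ∫ s in T..(T + 1), Real.exp (-(|T| + 1) ^ 2) / 6 ≤ ∫ s in T..(T + 1), ρ s := by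
    refine intervalIntegral.integral_mono_on (by linarith) (by simp)
      (h.cont.intervalIntegrable _ _) fun s hs => ?_
    refine le_trans ?_ (struct_bounds h s).1
    have h3 : |s| ≤ |T| + 1 := by
      rw [abs_le]
      have := neg_abs_le T
      have := le_abs_self T
      constructor <;> linarith [hs.1, hs.2]
    have h4 : s ^ 2 ≤ (|T| + 1) ^ 2 := by
      rw [← sq_abs s]
      exact pow_le_pow_left₀ (abs_nonneg s) h3 2
    have h5 : Real.exp (-(|T| + 1) ^ 2) ≤ Real.exp (-s ^ 2) := by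
      apply Real.exp_le_exp.2
      linarith
    linarith
  rw [intervalIntegral.integral_const] at h2
  have h3 := (Rt_mem h (T + 1)).1
  simp only [add_sub_cancel_left, one_smul] at h2
  linarith

theorem Rt_surj {ρ w : ℝ → ℝ} (h : Struct1 ρ w) {α : ℝ} (hα : α ∈ Ioo (0 : ℝ) 1) :
    ∃ t, Rt ρ t = α := by
  obtain ⟨T, hT, hT'⟩ := Rt_tail (min α (1 - α)) (lt_min hα.1 (by linarith [hα.2]))
  have h1 := hT' ρ w h T le_rfl
  have h2 : Rt ρ T ≤ α := h1.trans (min_le_left _ _)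
  have h3 : α ≤ Rt ρ (-T) := by
    rw [Rt_neg h]
    have := h1.trans (min_le_right _ _)
    linarith
  obtain ⟨t, -, ht⟩ := intermediate_value_Icc' (by linarith : -T ≤ T)
    (Rt_continuous h).continuousOn ⟨h2, h3⟩
  exact ⟨t, ht⟩

theorem Jf_Rt {ρ w : ℝ → ℝ} (h : Struct1 ρ w) (t : ℝ) : Jf ρ w (Rt ρ t) = w t := by
  have hex : ∃ t', Rt ρ t' = Rt ρ t := ⟨t, rfl⟩
  unfold Jf
  rw [dif_pos hex]
  congr 1
  exact (Rt_strictAnti h).injective (Classical.choose_spec hex)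

namespace OneD1

variable {ρ w : ℝ → ℝ}

theorem Jf_zero (h : Struct1 ρ w) : Jf ρ w 0 = 0 := by
  unfold Jf
  rw [dif_neg]
  rintro ⟨t, ht⟩
  have := (Rt_mem h t).1
  linarith

theorem Jf_one (h : Struct1 ρ w) : Jf ρ w 1 = 0 := by
  unfold Jf
  rw [dif_neg]
  rintro ⟨t, ht⟩
  have := (Rt_mem h t).2
  linarith

theorem cases_Icc (h : Struct1 ρ w) {m : ℝ} (hm : m ∈ Icc (0 : ℝ) 1) :
    m = 0 ∨ m = 1 ∨ ∃ t, Rt ρ t = m := by
  rcases hm.1.eq_or_lt with h0 | h0
  · exact Or.inl h0.symm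
  rcases hm.2.eq_or_lt with h1 | h1
  · exact Or.inr (Or.inl h1)
  exact Or.inr (Or.inr (Rt_surj h ⟨h0, h1⟩))

theorem min_at {Φ Φ' : ℝ → ℝ} (hd : ∀ t, HasDerivAt Φ (Φ' t) t) {l a r : ℝ}
    (h1 : ∀ t, a ≤ t → t ≤ r → 0 ≤ Φ' t) (h2 : ∀ t, l ≤ t → t ≤ a → Φ' t ≤ 0) {t : ℝ}
    (hl : l ≤ t) (hr : t ≤ r) : Φ a ≤ Φ t := by
  rcases le_total a t with h | h
  · have hm : MonotoneOn Φ (Icc a r) := by
      refine monotoneOn_of_deriv_nonneg (convex_Icc a r)
        (fun t _ => (hd t).continuousAt.continuousWithinAt)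
        (fun t _ => (hd t).differentiableAt.differentiableWithinAt) fun t ht => ?_
      rw [interior_Icc] at ht
      rw [(hd t).deriv]
      exact h1 t ht.1.le ht.2.le
    exact hm ⟨le_rfl, h.trans hr⟩ ⟨h, hr⟩ h
  · have hm : AntitoneOn Φ (Icc l a) := by
      refine antitoneOn_of_deriv_nonpos (convex_Icc l a)
        (fun t _ => (hd t).continuousAt.continuousWithinAt)
        (fun t _ => (hd t).differentiableAt.differentiableWithinAt) fun t ht => ?_
      rw [interior_Icc] at ht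
      rw [(hd t).deriv]
      exact h2 t ht.1.le ht.2.le
    exact hm ⟨hl, h⟩ ⟨hl.trans h, le_rfl⟩ h

theorem Rt_lip (h : Struct1 ρ w) {a b : ℝ} (hab : a ≤ b) : Rt ρ a - Rt ρ b ≤ 2 * (b - a) := by
  rw [Rt_sub h]
  have h1 : ∫ s in a..b, ρ s ≤ ∫ s in a..b, (2 : ℝ) :=
    intervalIntegral.integral_mono_on hab (h.cont.intervalIntegrable _ _) (by simp)
      fun s _ => rho_le_two h s
  rw [intervalIntegral.integral_const, smul_eq_mul] at h1
  linarith

/-- strong concavity -/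
theorem tangent (h : Struct1 ρ w) (t₁ t : ℝ) :
    w t ≤ w t₁ + 2 * t₁ * (Rt ρ t - Rt ρ t₁) - 1 / 2 * (Rt ρ t - Rt ρ t₁) ^ 2 := by
  have hd : ∀ t, HasDerivAt (fun t => w t₁ + 2 * t₁ * (Rt ρ t - Rt ρ t₁)
      - 1 / 2 * (Rt ρ t - Rt ρ t₁) ^ 2 - w t)
      (2 * ρ t * ((t - t₁) + 1 / 2 * (Rt ρ t - Rt ρ t₁))) t := by
    intro t
    have h1 := (Rt_hasDeriv h t).sub_const (Rt ρ t₁)
    have h2 := (((h1.const_mul (2 * t₁)).const_add (w t₁)).sub
      ((h1.pow 2).const_mul (1 / 2))).sub (h.hasDeriv t)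
    refine h2.congr_deriv ?_
    norm_num
    ring
  have key := min_at (l := min t t₁) (a := t₁) (r := max t t₁) hd (t := t) (fun s hs _ => ?_)
    (fun s _ hs => ?_) (min_le_left _ _) (le_max_left _ _)
  · simp only [sub_self, mul_zero, add_zero, ne_eq, OfNat.ofNat_ne_zero, not_false_eq_true,
      zero_pow, sub_zero] at key
    linarith
  · have h3 := Rt_lip h hs
    have h4 := h.pos s
    exact mul_nonneg (by linarith) (by linarith)
  · have h3 := Rt_lip h hs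
    have h4 := h.pos s
    exact mul_nonpos_of_nonneg_of_nonpos (by linarith) (by linarith)

theorem tendsto_Rt_atTop (h : Struct1 ρ w) : Tendsto (Rt ρ) atTop (𝓝 0) := by
  rw [Metric.tendsto_atTop]
  intro ε hε
  obtain ⟨T, hT, hT'⟩ := Rt_tail (ε / 2) (by linarith)
  refine ⟨T, fun t ht => ?_⟩
  rw [Real.dist_0_eq_abs, abs_of_pos (Rt_mem h t).1]
  linarith [hT' ρ w h t ht]

theorem tendsto_Rt_atBot (h : Struct1 ρ w) : Tendsto (Rt ρ) atBot (𝓝 1) := by
  have h1 : Tendsto (fun t => 1 - Rt ρ (-t)) atBot (𝓝 (1 - 0)) :=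
    ((tendsto_Rt_atTop h).comp tendsto_neg_atBot_atTop).const_sub 1
  rw [sub_zero] at h1
  refine h1.congr fun t => ?_
  rw [Rt_neg h]
  ring

theorem tangentJ (h : Struct1 ρ w) (t₁ : ℝ) {m : ℝ} (hm : m ∈ Icc (0 : ℝ) 1) :
    Jf ρ w m ≤ w t₁ + 2 * t₁ * (m - Rt ρ t₁) - 1 / 2 * (m - Rt ρ t₁) ^ 2 := by
  have hlim : ∀ {l : Filter ℝ} [l.NeBot] {m : ℝ}, Tendsto (Rt ρ) l (𝓝 m) →
      0 ≤ w t₁ + 2 * t₁ * (m - Rt ρ t₁) - 1 / 2 * (m - Rt ρ t₁) ^ 2 := by
    intro l _ m hl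
    have h1 : Tendsto (fun t => w t₁ + 2 * t₁ * (Rt ρ t - Rt ρ t₁)
        - 1 / 2 * (Rt ρ t - Rt ρ t₁) ^ 2) l
        (𝓝 (w t₁ + 2 * t₁ * (m - Rt ρ t₁) - 1 / 2 * (m - Rt ρ t₁) ^ 2)) :=
      (((hl.sub_const _).const_mul _).const_add _).sub (((hl.sub_const _).pow 2).const_mul _)
    exact ge_of_tendsto h1 (Eventually.of_forall fun t =>
      (w_pos h t).le.trans (tangent h t₁ t))
  rcases cases_Icc h hm with rfl | rfl | ⟨t, rfl⟩
  · rw [Jf_zero h]
    exact hlim (tendsto_Rt_atTop h)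
  · rw [Jf_one h]
    exact hlim (tendsto_Rt_atBot h)
  · rw [Jf_Rt h]
    exact tangent h t₁ t

end OneD1

theorem Jf_prop {ρ w : ℝ → ℝ} (h : Struct1 ρ w) : JProp (Jf ρ w) where
  nonneg m hm := by
    rcases OneD1.cases_Icc h hm with rfl | rfl | ⟨t, rfl⟩
    · rw [OneD1.Jf_zero h]
    · rw [OneD1.Jf_one h]
    · rw [Jf_Rt h]
      exact (OneD1.w_pos h t).le
  le_two m hm := by
    rcases OneD1.cases_Icc h hm with rfl | rfl | ⟨t, rfl⟩
    · rw [OneD1.Jf_zero h]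
      norm_num
    · rw [OneD1.Jf_one h]
      norm_num
    · rw [Jf_Rt h]
      exact OneD1.w_le_two h t
  zero := OneD1.Jf_zero h
  symm m hm := by
    rcases OneD1.cases_Icc h hm with rfl | rfl | ⟨t, rfl⟩
    · rw [sub_zero, OneD1.Jf_zero h, OneD1.Jf_one h]
    · rw [sub_self, OneD1.Jf_zero h, OneD1.Jf_one h]
    · rw [← Rt_neg h, Jf_Rt h, Jf_Rt h, h.weven]
  strong x p hx hp hxp := by
    rcases hx.eq_or_lt with rfl | hx
    · rw [OneD1.Jf_zero h]
      simp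
    rcases hp.eq_or_lt with rfl | hp
    · rw [OneD1.Jf_zero h]
      simp
    have hm : p + x ∈ Icc (0 : ℝ) 1 := ⟨by linarith, hxp⟩
    have h0 : (0 : ℝ) ∈ Icc (0 : ℝ) 1 := ⟨le_rfl, zero_le_one⟩
    have main : ∀ x p : ℝ, 0 < x → 0 < p → p + x ≤ 1 →
        x * Jf ρ w (p + x) + p * x * (p + x) / 2 ≤ (p + x) * Jf ρ w x := by
      intro x p hx hp hxp
      obtain ⟨t, ht⟩ := Rt_surj h (α := x) ⟨hx, by linarith⟩
      have h1 := OneD1.tangentJ h t h0
      have h2 := OneD1.tangentJ h t (m := p + x) ⟨by linarith, hxp⟩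
      rw [OneD1.Jf_zero h] at h1
      rw [ht] at h1 h2
      have h3 : Jf ρ w x = w t := by rw [← ht, Jf_Rt h]
      rw [h3]
      have h4 := mul_le_mul_of_nonneg_left h1 hp.le
      have h5 := mul_le_mul_of_nonneg_left h2 hx.le
      nlinarith
    have h1 := main x p hx hp hxp
    have h2 := main p x hp hx (by linarith)
    rw [add_comm x p] at h2
    have h3 : 0 < p + x := by linarith
    have h4 : (p + x) * (Jf ρ w (p + x) + p * x) ≤ (p + x) * (Jf ρ w x + Jf ρ w p) := by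
      nlinarith
    exact le_of_mul_le_mul_left h4 h3

/-- (J4) quadratic lower bound, uniform -/
theorem Jf_parabola (α₀ : ℝ) (h₀ : 0 < α₀) : ∃ Ca : ℝ, 0 ≤ Ca ∧ ∀ ρ w : ℝ → ℝ, Struct1 ρ w →
    ∀ t', Rt ρ t' ∈ Icc α₀ (1 - α₀) → ∀ m ∈ Icc (0 : ℝ) 1,
      w t' + 2 * t' * (m - Rt ρ t') - Ca * (m - Rt ρ t') ^ 2 ≤ Jf ρ w m := by
  obtain ⟨T, hT, hT'⟩ := Rt_tail (α₀ / 4) (by linarith)
  set c := Real.exp (-T ^ 2) / 6 with hc
  have hc0 : 0 < c := by positivity
  refine ⟨1 / c + 4 * (2 + 2 * T) / α₀ ^ 2, by positivity, fun ρ w h t' ht' m hm => ?_⟩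
  set Ca := 1 / c + 4 * (2 + 2 * T) / α₀ ^ 2 with hCa
  have hCa0 : 0 ≤ Ca := by positivity
  -- parameters of moderate masses are bounded
  have hbd : ∀ t, Rt ρ t ∈ Icc (α₀ / 2) (1 - α₀ / 2) → |t| < T := by
    intro t ht
    rw [abs_lt]
    constructor
    · by_contra hcon
      have h1 := hT' ρ w h (-t) (by linarith)
      rw [Rt_neg h] at h1
      linarith [ht.2]
    · by_contra hcon
      have h1 := hT' ρ w h t (by linarith)
      linarith [ht.1]
  have ht'T : |t'| < T := hbd t' ⟨by linarith [ht'.1], by linarith [ht'.2]⟩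
  by_cases hmm : m ∈ Icc (α₀ / 2) (1 - α₀ / 2)
  · obtain ⟨t, rfl⟩ := Rt_surj h (α := m) ⟨by linarith [hmm.1], by linarith [hmm.2]⟩
    have htT := hbd t hmm
    rw [Jf_Rt h]
    have hd : ∀ t, HasDerivAt (fun t => w t - (w t' + 2 * t' * (Rt ρ t - Rt ρ t')
        - Ca * (Rt ρ t - Rt ρ t') ^ 2))
        (2 * ρ t * (Ca * (Rt ρ t' - Rt ρ t) - (t - t'))) t := by
      intro t
      have h1 := (OneD1.Rt_hasDeriv h t).sub_const (Rt ρ t')
      have h2 := (h.hasDeriv t).sub (((h1.const_mul (2 * t')).const_add (w t')).sub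
        ((h1.pow 2).const_mul Ca))
      refine h2.congr_deriv ?_
      norm_num
      ring
    have hlow : ∀ a b, -T ≤ a → a ≤ b → b ≤ T → b - a ≤ Ca * (Rt ρ a - Rt ρ b) := by
      intro a b ha hab hb
      have h1 : ∫ s in a..b, c ≤ ∫ s in a..b, ρ s := by
        refine intervalIntegral.integral_mono_on hab (by simp) (h.cont.intervalIntegrable _ _)
          fun s hs => ?_
        refine le_trans ?_ (struct_bounds h s).1
        have h4 : s ^ 2 ≤ T ^ 2 := sq_le_sq' (by linarith [hs.1]) (by linarith [hs.2])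
        have h5 : Real.exp (-T ^ 2) ≤ Real.exp (-s ^ 2) := by
          apply Real.exp_le_exp.2
          linarith
        rw [hc]
        linarith
      rw [intervalIntegral.integral_const, smul_eq_mul, ← OneD1.Rt_sub h a b] at h1
      have h2 : 1 / c ≤ Ca := by
        rw [hCa]
        have : 0 ≤ 4 * (2 + 2 * T) / α₀ ^ 2 := by positivity
        linarith
      have h3 : 0 ≤ Rt ρ a - Rt ρ b := by
        have := mul_nonneg (sub_nonneg.2 hab) hc0.le
        linarith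
      calc b - a = 1 / c * ((b - a) * c) := by field_simp
        _ ≤ 1 / c * (Rt ρ a - Rt ρ b) := by gcongr
        _ ≤ Ca * (Rt ρ a - Rt ρ b) := by gcongr
    rw [abs_lt] at ht'T htT
    have key := OneD1.min_at (l := -T) (a := t') (r := T) hd (t := t) (fun s hs hs' => ?_)
      (fun s hs' hs => ?_) htT.1.le htT.2.le
    · simp only [sub_self, mul_zero, add_zero, ne_eq, OfNat.ofNat_ne_zero, not_false_eq_true,
        zero_pow, sub_zero] at key
      linarith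
    · have h3 := hlow t' s (by linarith) hs hs'
      have h4 := h.pos s
      exact mul_nonneg (by linarith) (by linarith)
    · have h3 := hlow s t' hs' hs (by linarith)
      have h4 := h.pos s
      exact mul_nonpos_of_nonneg_of_nonpos (by linarith) (by linarith)
  · have h1 : (α₀ / 2) ^ 2 ≤ (m - Rt ρ t') ^ 2 := by
      rw [mem_Icc, not_and_or, not_le, not_le] at hmm
      rcases hmm with h2 | h2
      · have : α₀ / 2 ≤ Rt ρ t' - m := by linarith [ht'.1]
        nlinarith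
      · have : α₀ / 2 ≤ m - Rt ρ t' := by linarith [ht'.2]
        nlinarith
    have h2 : 4 * (2 + 2 * T) / α₀ ^ 2 ≤ Ca := by
      rw [hCa]
      have : 0 ≤ 1 / c := by positivity
      linarith
    have h3 : 2 + 2 * T ≤ Ca * (m - Rt ρ t') ^ 2 := by
      calc 2 + 2 * T = 4 * (2 + 2 * T) / α₀ ^ 2 * (α₀ / 2) ^ 2 := by field_simp; ring
        _ ≤ Ca * (m - Rt ρ t') ^ 2 := by gcongr
    have h4 : |m - Rt ρ t'| ≤ 1 := by
      have := Rt_mem h t'
      rw [abs_le]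
      constructor <;> linarith [this.1, this.2, hm.1, hm.2]
    have h5 : 2 * t' * (m - Rt ρ t') ≤ 2 * T := by
      calc 2 * t' * (m - Rt ρ t') ≤ |2 * t' * (m - Rt ρ t')| := le_abs_self _
        _ = 2 * |t'| * |m - Rt ρ t'| := by rw [abs_mul, abs_mul]; simp
        _ ≤ 2 * T * 1 := by gcongr
        _ = 2 * T := mul_one _
    have h6 := OneD1.w_le_two h t'
    have h7 := (Jf_prop h).nonneg m hm
    linarith

end IsoHull
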