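import Pool.Agent.IsoHull27.A1
import Pool.Agent.IsoHull27.C1
import Pool.Agent.IsoHull27.C2
import Pool.Agent.IsoHull27.D0
import Pool.Agent.IsoHull27.D1a
import Pool.Agent.IsoHull27.D1c
import Pool.Agent.IsoHull27.D3a
import Pool.Agent.IsoHull27.OneD1

/-!
# IsoHull27: the competitor (package E)
-/

open MeasureTheory Set Filter Topology
open scoped ENNReal NNReal

namespace IsoHull

/-! ### the ideal gradient of `F` -/

/-- the constant `κ_s` -/
noncomputable def compKs (q : ℝ) : ℝ := q ^ 3 * Real.cos q / (2 * Real.sin q ^ 3)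

/-- the ideal gradient of `F` -/
noncomputable def compPsi {m : ℕ} (P : Par m) (q : ℝ) (a : Fin m → ℝ) : ℝ :=
  Real.sqrt ((1 - P.S q a) ^ 2 + compKs q * P.Q q a)

theorem comp_fderiv_F {m : ℕ} (P : Par m) (q : ℝ) (p v : ℝ × (Fin m → ℝ)) :
    fderiv ℝ (P.F q) p v = v.1 + (∑ i, P.σ i * (cd q (p.2 i) * v.2 i)) / P.r := by
  have hd : DifferentiableAt ℝ (P.F q) p := (P.F_contDiff q).differentiable (by norm_num) p
  rw [← hd.lineDeriv_eq_fderiv]
  unfold lineDeriv
  have h : HasDerivAt (fun t : ℝ => P.F q (p + t • v))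
      (v.1 + (∑ i, P.σ i * (cd q (p.2 i) * v.2 i)) / P.r) 0 := by
    unfold Par.F Par.theta
    refine HasDerivAt.add ?_ ?_
    · have : HasDerivAt (fun t : ℝ => p.1 + t * v.1) (v.1) 0 := by
        simpa using ((hasDerivAt_id (0 : ℝ)).mul_const v.1).const_add p.1
      simpa using this
    · refine HasDerivAt.div_const ?_ _
      refine HasDerivAt.fun_sum fun i _ => ?_
      refine HasDerivAt.const_mul _ ?_
      have h1 : HasDerivAt (fun t : ℝ => p.2 i + t * v.2 i) (v.2 i) 0 := by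
        simpa using ((hasDerivAt_id (0 : ℝ)).mul_const (v.2 i)).const_add (p.2 i)
      have h2 : HasDerivAt (cf q) (cd q (p.2 i + 0 * v.2 i)) (p.2 i + 0 * v.2 i) :=
        cf_hasDeriv q _
      have h3 := HasDerivAt.comp (0 : ℝ) h2 h1
      simpa [Function.comp_def] using h3
  exact h.deriv

theorem comp_sin_pos {q : ℝ} (hq : q ∈ Ioc (0 : ℝ) (1 / 2)) : 0 < Real.sin q :=
  Real.sin_pos_of_pos_of_lt_pi hq.1 (by linarith [hq.2, Real.pi_gt_three])

theorem comp_cos_pos {q : ℝ} (hq : q ∈ Ioc (0 : ℝ) (1 / 2)) : 0 < Real.cos q :=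
  Real.cos_pos_of_mem_Ioo ⟨by linarith [hq.1, Real.pi_gt_three], by linarith [hq.2, Real.pi_gt_three]⟩

theorem comp_delta_sq {q : ℝ} (hq : q ∈ Ioc (0 : ℝ) (1 / 2)) :
    delta q ^ 2 = q * (Real.sin q / Real.cos q) / 2 := by
  unfold delta
  rw [Real.tan_eq_sin_div_cos, Real.sq_sqrt]
  have := comp_sin_pos hq
  have := comp_cos_pos hq
  have := hq.1
  positivity

theorem comp_grad_F {m : ℕ} (P : Par m) (q : ℝ) (hq : q ∈ Ioc (0 : ℝ) (1 / 2))
    (p : ℝ × (Fin m → ℝ)) : P.grad q (P.F q) p = compPsi P q p.2 := by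
  have hs := comp_sin_pos hq
  have hc := comp_cos_pos hq
  have hδ : 0 < delta q := (delta_bounds q hq).2.2.2.1
  have hr := P.r_pos
  unfold Par.grad compPsi
  congr 1
  congr 1
  · congr 1
    unfold Par.D0 Par.S
    rw [comp_fderiv_F]
    simp only
    rw [sub_eq_add_neg]
    congr 1
    rw [← neg_div, ← Finset.sum_neg_distrib, Finset.sum_div, Finset.sum_div]
    refine Finset.sum_congr rfl fun i _ => ?_
    have h1 : P.σ i * P.σ i = 1 := by rcases P.hσ i with h | h <;> rw [h] <;> norm_num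
    field_simp
    linear_combination (-(cd q (p.2 i) * p.2 i)) * h1
  · unfold Par.Dj Par.Q compKs
    rw [Finset.sum_div, Finset.mul_sum]
    refine Finset.sum_congr rfl fun i _ => ?_
    rw [comp_fderiv_F]
    simp only
    have h0 : ∑ j, P.σ j * (cd q (p.2 j) * (Pi.single i (1 : ℝ) : Fin m → ℝ) j) =
        P.σ i * cd q (p.2 i) := by
      rw [Finset.sum_eq_single i]
      · simp
      · intro j _ hj
        simp [hj]
      · simp
    rw [h0]
    have h1 : P.σ i ^ 2 = 1 := by rcases P.hσ i with h | h <;> rw [h] <;> norm_num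
    rw [zero_add, div_pow, div_pow, mul_pow, h1, comp_delta_sq hq]
    unfold cd
    field_simp

theorem comp_grad_comp {m : ℕ} (P : Par m) (q : ℝ) (hq : q ∈ Ioc (0 : ℝ) (1 / 2))
    (g : ℝ → ℝ) (hg : Differentiable ℝ g) (p : ℝ × (Fin m → ℝ)) :
    P.grad q (fun p => g (P.F q p)) p = |deriv g (P.F q p)| * compPsi P q p.2 := by
  have hd : DifferentiableAt ℝ (P.F q) p := (P.F_contDiff q).differentiable (by norm_num) p
  have h : HasFDerivAt (fun p => g (P.F q p)) (deriv g (P.F q p) • fderiv ℝ (P.F q) p) p := by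
    have h1 : HasDerivAt g (deriv g (P.F q p)) (P.F q p) := (hg _).hasDerivAt
    exact h1.comp_hasFDerivAt p hd.hasFDerivAt
  rw [← comp_grad_F P q hq p]
  unfold Par.grad Par.D0 Par.Dj
  rw [h.fderiv]
  rw [← Real.sqrt_sq_eq_abs, ← Real.sqrt_mul (sq_nonneg _)]
  congr 1
  rw [mul_add, Finset.mul_sum]
  congr 1
  · simp only [smul_apply, smul_eq_mul]; ring
  · refine Finset.sum_congr rfl fun i _ => ?_
    simp only [smul_apply, smul_eq_mul]
    ring

theorem comp_mean_id {q : ℝ} (hq : q ∈ Ioc (0 : ℝ) (1 / 2)) :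
    Ac q ^ 2 + compKs q * (1 - Real.sin (2 * q) / (2 * q)) = Ac q ^ 2 * R2 q := by
  have hs := comp_sin_pos hq
  have hc := comp_cos_pos hq
  have hq0 := hq.1
  unfold Ac compKs R2
  rw [Real.sin_two_mul]
  field_simp
  ring

theorem comp_ks_bounds {q : ℝ} (hq : q ∈ Ioc (0 : ℝ) (1 / 2)) : 0 ≤ compKs q ∧ compKs q ≤ 1 := by
  have hs := comp_sin_pos hq
  have hc := comp_cos_pos hq
  have hq0 := hq.1
  have h1 : compKs q = Ac q ^ 2 * (R2 q - 1 / 2) := by
    unfold Ac compKs R2
    rw [Real.sin_two_mul]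
    field_simp
    ring
  obtain ⟨hA1, hA2⟩ := Ac_bounds q hq
  obtain ⟨hR1, hR2⟩ := R2_bounds q hq
  constructor
  · rw [h1]; nlinarith [sq_nonneg (Ac q)]
  · rw [h1]
    have : Ac q ^ 2 ≤ 1 := by nlinarith
    nlinarith [sq_nonneg (Ac q)]

theorem comp_Q_nonneg {m : ℕ} (P : Par m) (q : ℝ) (a : Fin m → ℝ) : 0 ≤ P.Q q a := by
  unfold Par.Q
  exact div_nonneg (Finset.sum_nonneg fun i _ => sq_nonneg _) (sq_nonneg _)

/-- pointwise comparison of the gradient of `F` and the calibration -/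
theorem comp_pointwise {m : ℕ} (P : Par m) (q : ℝ) (hq : q ∈ Ioc (0 : ℝ) (1 / 2)) (a : Fin m → ℝ) :
    RV q * compPsi P q a ≤ P.Gam q a + (|P.Gam q a - Ac q * R2 q| + 2 * |P.S q a - (1 - Ac q)| +
      (P.S q a - (1 - Ac q)) ^ 2 + |P.Q q a - (1 - Real.sin (2 * q) / (2 * q))|) := by
  obtain ⟨hA1, hA2⟩ := Ac_bounds q hq
  obtain ⟨hR1, hR2⟩ := R2_bounds q hq
  obtain ⟨hk1, hk2⟩ := comp_ks_bounds hq
  have hid := comp_mean_id hq
  set s' := P.S q a - (1 - Ac q) with hs'
  set Q' := P.Q q a - (1 - Real.sin (2 * q) / (2 * q)) with hQ'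
  set E := 2 * |s'| + s' ^ 2 + |Q'| with hE
  have hE0 : 0 ≤ E := by positivity
  have key : RV q * compPsi P q a ≤ Ac q * R2 q + E := by
    unfold RV compPsi
    rw [← Real.sqrt_mul (by linarith)]
    apply Real.sqrt_le_iff.2
    constructor
    · nlinarith
    · have e1 : P.S q a = s' + (1 - Ac q) := by rw [hs']; ring
      have e2 : P.Q q a = Q' + (1 - Real.sin (2 * q) / (2 * q)) := by rw [hQ']; ring
      have e3 : R2 q * ((1 - P.S q a) ^ 2 + compKs q * P.Q q a) =
          (Ac q * R2 q) ^ 2 + R2 q * (-2 * Ac q * s' + s' ^ 2 + compKs q * Q') := by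
        rw [e1, e2]
        linear_combination R2 q * hid
      rw [e3]
      have h4 : -2 * Ac q * s' + s' ^ 2 + compKs q * Q' ≤ E := by
        have h5 : -2 * Ac q * s' ≤ 2 * |s'| := by
          have := neg_abs_le s'
          have := abs_nonneg s'
          nlinarith
        have h6 : compKs q * Q' ≤ |Q'| := by
          have := le_abs_self Q'
          have := abs_nonneg Q'
          nlinarith
        rw [hE]; linarith
      have h7 : R2 q * (-2 * Ac q * s' + s' ^ 2 + compKs q * Q') ≤ R2 q * E :=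
        mul_le_mul_of_nonneg_left h4 (by linarith)
      have h8 : R2 q * E ≤ 2 * (Ac q * R2 q) * E := by
        have : 0 ≤ R2 q * E := by positivity
        nlinarith
      nlinarith [sq_nonneg E]
  have := neg_abs_le (P.Gam q a - Ac q * R2 q)
  linarith

theorem comp_Psi_cont {m : ℕ} (P : Par m) (q : ℝ) : Continuous (compPsi P q) := by
  unfold compPsi
  have := P.S_cont q
  have := P.Q_cont q
  fun_prop

theorem comp_Psi_nonneg {m : ℕ} (P : Par m) (q : ℝ) (a : Fin m → ℝ) : 0 ≤ compPsi P q a :=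
  Real.sqrt_nonneg _

theorem comp_L1 {m : ℕ} (g : (Fin m → ℝ) → ℝ) (hg : Continuous g) (r : ℝ) (hr : 0 < r)
    (h : ∫ a, g a ^ 2 ∂(cubeM m) ≤ 2 / r ^ 2) : ∫ a, |g a| ∂(cubeM m) ≤ 3 / 2 / r := by
  have h1 : ∫ a, |g a| ∂(cubeM m) ≤ ∫ a, (1 / (2 * r) + r / 2 * g a ^ 2) ∂(cubeM m) := by
    refine integral_mono (integrable_cubeM hg.abs) (integrable_cubeM (by fun_prop)) fun a => ?_
    have h2 : 0 ≤ (1 - r * |g a|) ^ 2 / (2 * r) := by positivity
    have h3 : (1 - r * |g a|) ^ 2 / (2 * r) = 1 / (2 * r) + r / 2 * g a ^ 2 - |g a| := by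
      rw [← sq_abs (g a)]; field_simp; ring
    show |g a| ≤ 1 / (2 * r) + r / 2 * g a ^ 2
    linarith
  refine h1.trans ?_
  rw [integral_add (integrable_const _) ((integrable_cubeM (by fun_prop)))]
  rw [integral_const, integral_const_mul]
  simp only [probReal_univ, smul_eq_mul, one_mul]
  have h4 : r / 2 * ∫ a, g a ^ 2 ∂(cubeM m) ≤ r / 2 * (2 / r ^ 2) :=
    mul_le_mul_of_nonneg_left h (by positivity)
  have h5 : 1 / (2 * r) + r / 2 * (2 / r ^ 2) = 3 / 2 / r := by field_simp; norm_num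
  linarith

/-- slice comparison -/
theorem comp_slice {m : ℕ} (P : Par m) (q : ℝ) (hq : q ∈ Ioc (0 : ℝ) (1 / 2)) (hr : 1 ≤ P.r) (t : ℝ) :
    RV q * P.slice q (fun p => compPsi P q p.2) t ≤ P.w q t + 8 / P.r := by
  have hr0 := P.r_pos
  have hΨ := comp_Psi_cont P q
  have hΓ := P.Gam_cont q
  have hS := P.S_cont q
  have hQ := P.Q_cont q
  have hθ := P.theta_cont q
  have hν := nu0_cont
  set G : (Fin m → ℝ) → ℝ := fun a => |P.Gam q a - Ac q * R2 q| + 2 * |P.S q a - (1 - Ac q)| +
      (P.S q a - (1 - Ac q)) ^ 2 + |P.Q q a - (1 - Real.sin (2 * q) / (2 * q))| with hG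
  have hGc : Continuous G := by rw [hG]; fun_prop
  have hG0 : ∀ a, 0 ≤ G a := fun a => by rw [hG]; positivity
  unfold Par.w Par.slice
  simp only
  rw [← integral_const_mul]
  have h1 : ∫ a, RV q * (compPsi P q a * nu0 (t - P.theta q a)) ∂(cubeM m) ≤
      ∫ a, (P.Gam q a * nu0 (t - P.theta q a) + G a) ∂(cubeM m) := by
    refine integral_mono (integrable_cubeM (by fun_prop)) (integrable_cubeM (by fun_prop)) fun a => ?_
    have h2 := comp_pointwise P q hq a
    have h3 := nu0_nonneg (t - P.theta q a)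
    have h4 := nu0_le_one (t - P.theta q a)
    have h5 := mul_le_mul_of_nonneg_right h2 h3
    have h6 : G a * nu0 (t - P.theta q a) ≤ G a * 1 := mul_le_mul_of_nonneg_left h4 (hG0 a)
    show RV q * (compPsi P q a * nu0 (t - P.theta q a)) ≤ P.Gam q a * nu0 (t - P.theta q a) + G a
    have h7 : (P.Gam q a + G a) * nu0 (t - P.theta q a) =
      P.Gam q a * nu0 (t - P.theta q a) + G a * nu0 (t - P.theta q a) := by ring
    have h8 : RV q * compPsi P q a * nu0 (t - P.theta q a) ≤
      (P.Gam q a + G a) * nu0 (t - P.theta q a) := h5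
    linarith
  refine h1.trans ?_
  rw [integral_add (integrable_cubeM (by fun_prop)) (integrable_cubeM hGc)]
  have h8 : ∫ a, G a ∂(cubeM m) ≤ 8 / P.r := by
    have i1 := comp_L1 (fun a => P.Gam q a - Ac q * R2 q) (by fun_prop) P.r hr0 (int_Gam_sq P q hq)
    have i2 := comp_L1 (fun a => P.S q a - (1 - Ac q)) (by fun_prop) P.r hr0 (int_S_sq P q hq)
    have i3 := comp_L1 (fun a => P.Q q a - (1 - Real.sin (2 * q) / (2 * q))) (by fun_prop) P.r hr0
      (int_Q_sq P q hq)
    have i4 := int_S_sq P q hq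
    rw [hG]
    rw [integral_add (integrable_cubeM (by fun_prop)) (integrable_cubeM (by fun_prop)),
      integral_add (integrable_cubeM (by fun_prop)) (integrable_cubeM (by fun_prop)),
      integral_add (integrable_cubeM (by fun_prop)) (integrable_cubeM (by fun_prop)),
      integral_const_mul]
    have h9 : 2 / P.r ^ 2 ≤ 2 / P.r := by
      apply div_le_div_of_nonneg_left (by norm_num) hr0
      nlinarith
    have h10 : 3 / 2 / P.r + 2 * (3 / 2 / P.r) + 2 / P.r + 3 / 2 / P.r ≤ 8 / P.r := by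
      apply le_of_eq
      field_simp
      norm_num
    linarith
  linarith


/-- smoothed Heaviside function -/
noncomputable def compG (c : ℝ) (k : ℕ) (t : ℝ) : ℝ := Real.smoothTransition (k * (t - c))

theorem compG_contDiff (c : ℝ) (k : ℕ) : ContDiff ℝ 1 (compG c k) := by
  unfold compG
  exact (Real.smoothTransition.contDiff (n := 1)).comp (by fun_prop)

theorem compG_mono (c : ℝ) (k : ℕ) : Monotone (compG c k) := by
  intro x y hxy
  apply Real.smoothTransition.monotone
  have : (0 : ℝ) ≤ k := Nat.cast_nonneg k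
  nlinarith

theorem compG_deriv_nonneg (c : ℝ) (k : ℕ) (t : ℝ) : 0 ≤ deriv (compG c k) t :=
  (compG_mono c k).deriv_nonneg

theorem compG_zero {c : ℝ} {k : ℕ} {t : ℝ} (ht : t ≤ c) : compG c k t = 0 := by
  unfold compG
  apply Real.smoothTransition.zero_of_nonpos
  have : (0 : ℝ) ≤ k := Nat.cast_nonneg k
  nlinarith

theorem compG_one {c : ℝ} {k : ℕ} (hk : 0 < k) {t : ℝ} (ht : c + 1 / k ≤ t) : compG c k t = 1 := by
  unfold compG
  apply Real.smoothTransition.one_of_one_le
  have hk' : (0 : ℝ) < k := Nat.cast_pos.2 hk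
  have : 1 / (k : ℝ) ≤ t - c := by linarith
  rw [div_le_iff₀ hk'] at this
  linarith

theorem compG_mem (c : ℝ) (k : ℕ) (t : ℝ) : compG c k t ∈ Icc (0 : ℝ) 1 :=
  ⟨Real.smoothTransition.nonneg _, Real.smoothTransition.le_one _⟩

theorem compG_deriv_zero {c : ℝ} {k : ℕ} (hk : 0 < k) {t : ℝ} (ht : t ∉ Icc c (c + 1 / k)) :
    deriv (compG c k) t = 0 := by
  rw [mem_Icc, not_and_or, not_le, not_le] at ht
  rcases ht with ht | ht
  · have : compG c k =ᶠ[𝓝 t] fun _ => 0 := by
      filter_upwards [Iio_mem_nhds ht] with s hs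
      exact compG_zero (le_of_lt hs)
    rw [this.deriv_eq, deriv_const]
  · have : compG c k =ᶠ[𝓝 t] fun _ => 1 := by
      filter_upwards [Ioi_mem_nhds ht] with s hs
      exact compG_one hk (le_of_lt hs)
    rw [this.deriv_eq, deriv_const]

theorem compG_deriv_cont (c : ℝ) (k : ℕ) : Continuous (deriv (compG c k)) :=
  (compG_contDiff c k).continuous_deriv (by norm_num)

theorem compG_deriv_bdd (c : ℝ) {k : ℕ} (hk : 0 < k) : ∃ C : ℝ, 0 ≤ C ∧ ∀ t, |deriv (compG c k) t| ≤ C := by
  obtain ⟨C, hC⟩ := (isCompact_Icc (a := c) (b := c + 1 / k)).exists_bound_of_continuousOn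
    (compG_deriv_cont c k).continuousOn
  refine ⟨max C 0, le_max_right _ _, fun t => ?_⟩
  by_cases ht : t ∈ Icc c (c + 1 / k)
  · exact (hC t ht).trans (le_max_left _ _)
  · rw [compG_deriv_zero hk ht]; simp

theorem comp_mollify (g : ℝ → ℝ) (hg : Continuous g) (c ε : ℝ) (hε : 0 < ε) :
    ∃ k₀ : ℕ, 0 < k₀ ∧ ∀ k : ℕ, k₀ ≤ k → ∫ t, deriv (compG c k) t * g t ≤ g c + ε := by
  obtain ⟨δ, hδ, hgδ⟩ := Metric.continuous_iff.1 hg c ε hε
  obtain ⟨k₀, hk₀⟩ := exists_nat_gt (1 / δ)
  have hk₀' : (0 : ℝ) < k₀ := lt_trans (by positivity) hk₀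
  refine ⟨k₀, Nat.cast_pos.1 hk₀', fun k hk => ?_⟩
  have hkr : (k₀ : ℝ) ≤ k := Nat.cast_le.2 hk
  have hk0 : (0 : ℝ) < k := lt_of_lt_of_le hk₀' hkr
  have hkn : 0 < k := Nat.cast_pos.1 hk0
  have hkδ : 1 / (k : ℝ) < δ := by
    rw [div_lt_comm₀ hk0 hδ]
    exact lt_of_lt_of_le hk₀ hkr
  have hle : c ≤ c + 1 / k := by
    have : 0 < 1 / (k : ℝ) := by positivity
    linarith
  have h1 : ∫ t, deriv (compG c k) t * g t = ∫ t in Icc c (c + 1 / k), deriv (compG c k) t * g t := by
    symm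
    apply setIntegral_eq_integral_of_forall_compl_eq_zero
    intro t ht
    rw [compG_deriv_zero hkn ht, zero_mul]
  rw [h1]
  have h2 : ∫ t in Icc c (c + 1 / k), deriv (compG c k) t * g t ≤
      ∫ t in Icc c (c + 1 / k), deriv (compG c k) t * (g c + ε) := by
    refine setIntegral_mono_on ?_ ?_ measurableSet_Icc fun t ht => ?_
    · exact ((compG_deriv_cont c k).mul hg).continuousOn.integrableOn_compact isCompact_Icc
    · exact ((compG_deriv_cont c k).mul continuous_const).continuousOn.integrableOn_compact isCompact_Icc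
    · apply mul_le_mul_of_nonneg_left _ (compG_deriv_nonneg c k t)
      have : dist t c < δ := by
        rw [Real.dist_eq, abs_lt]
        constructor <;> linarith [ht.1, ht.2]
      have := hgδ t this
      rw [Real.dist_eq] at this
      linarith [(abs_lt.1 this).2]
  refine h2.trans ?_
  rw [integral_Icc_eq_integral_Ioc, ← intervalIntegral.integral_of_le hle,
    intervalIntegral.integral_mul_const,
    intervalIntegral.integral_deriv_eq_sub
      (fun x _ => (compG_contDiff c k).differentiable (by norm_num) x)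
      ((compG_deriv_cont c k).intervalIntegrable _ _),
    compG_one hkn le_rfl, compG_zero le_rfl]
  linarith

/-- the energy of the smoothed competitor in the model space -/
theorem comp_energy {m : ℕ} (P : Par m) (q : ℝ) (c : ℝ) (k : ℕ) (hk : 0 < k) :
    ∫⁻ p, ENNReal.ofReal (|deriv (compG c k) (P.F q p)| * compPsi P q p.2) ∂(mu m) =
      ENNReal.ofReal (∫ t, deriv (compG c k) t * P.slice q (fun p => compPsi P q p.2) t) := by
  have hΨ := comp_Psi_cont P q
  have hF := P.F_cont q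
  have hG := compG_deriv_cont c k
  obtain ⟨C, hC0, hC⟩ := compG_deriv_bdd c hk
  obtain ⟨B, hB⟩ := (cube_isCompact m).exists_bound_of_continuousOn hΨ.continuousOn
  have hint : Integrable (fun p => deriv (compG c k) (P.F q p) * compPsi P q p.2) (mu m) := by
    refine Integrable.of_bound (C := C * B) ?_ ?_
    · exact (by fun_prop : Continuous fun p : ℝ × (Fin m → ℝ) =>
        deriv (compG c k) (P.F q p) * compPsi P q p.2).aestronglyMeasurable
    · filter_upwards [mu_ae_mem m] with p hp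
      rw [norm_mul]
      exact mul_le_mul (hC _) (hB _ hp) (norm_nonneg _) hC0
  have h := (integral_slice P q (fun p => compPsi P q p.2) (deriv (compG c k)) hG.measurable
    (by fun_prop : Continuous fun p : ℝ × (Fin m → ℝ) => compPsi P q p.2).measurable hint).2
  rw [h, ofReal_integral_eq_lintegral_ofReal hint]
  · refine lintegral_congr fun p => ?_
    rw [abs_of_nonneg (compG_deriv_nonneg c k _)]
  · exact ae_of_all _ fun p => mul_nonneg (compG_deriv_nonneg c k _) (comp_Psi_nonneg P q _)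

/-- the law of `F` -/
theorem comp_Rt {m : ℕ} (P : Par m) (q : ℝ) (c : ℝ) :
    Rt (P.rho q) c = (mu m).real {p | c < P.F q p} := by
  have hF := P.F_cont q
  have hms : MeasurableSet {p | c < P.F q p} := measurableSet_lt measurable_const hF.measurable
  have hi : ∀ p : ℝ × (Fin m → ℝ), (Ioi c).indicator (fun _ => (1 : ℝ)) (P.F q p) * 1 =
      {p | c < P.F q p}.indicator (fun _ => (1 : ℝ)) p := by
    intro p
    by_cases h : c < P.F q p
    · rw [indicator_of_mem (show P.F q p ∈ Ioi c from h), indicator_of_mem (show p ∈ {p | c < P.F q p} from h)]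
      norm_num
    · rw [indicator_of_notMem (show P.F q p ∉ Ioi c from h), indicator_of_notMem (show p ∉ {p | c < P.F q p} from h)]
      norm_num
  have hint : Integrable (fun p => (Ioi c).indicator (fun _ => (1 : ℝ)) (P.F q p) * 1) (mu m) := by
    simp_rw [hi]
    exact (integrable_const (1 : ℝ)).indicator hms
  have h := (integral_slice P q (fun _ => 1) ((Ioi c).indicator fun _ => (1 : ℝ))
    (measurable_const.indicator measurableSet_Ioi) measurable_const hint).2
  unfold Rt
  have h2 : ∫ t, (Ioi c).indicator (fun _ => (1 : ℝ)) t * P.slice q (fun _ => 1) t =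
      ∫ s in Ioi c, P.rho q s := by
    rw [← integral_indicator measurableSet_Ioi]
    refine integral_congr_ae (ae_of_all _ fun t => ?_)
    by_cases ht : t ∈ Ioi c
    · simp only [indicator_of_mem ht, one_mul]; rfl
    · simp only [indicator_of_notMem ht, zero_mul]
  rw [← h2, h]
  simp_rw [hi]
  rw [integral_indicator_const _ hms]
  simp

/-- level sets of `F` are null -/
theorem comp_null {m : ℕ} (P : Par m) (q : ℝ) (c : ℝ) : mu m {p | P.F q p = c} = 0 := by
  have hF := P.F_cont q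
  have hms : MeasurableSet {p | P.F q p = c} := measurableSet_eq_fun hF.measurable measurable_const
  unfold mu
  rw [Measure.prod_apply_symm hms]
  rw [lintegral_eq_zero_iff (measurable_measure_prodMk_right hms)]
  refine ae_of_all _ fun a => ?_
  show nuM ((fun x => (x, a)) ⁻¹' {p | P.F q p = c}) = 0
  have : (fun x : ℝ => (x, a)) ⁻¹' {p | P.F q p = c} = {c - P.theta q a} := by
    ext x
    simp only [mem_preimage, mem_ofPred_eq, mem_singleton_iff, Par.F]
    constructor <;> intro h <;> linarith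
  rw [this]
  unfold nuM
  exact withDensity_absolutelyContinuous _ _ (by simp)

/-- Lipschitz bound for the weight in terms of the tail mass -/
theorem comp_w_diff {ρ w : ℝ → ℝ} (h : Struct1 ρ w) (T c c₀ : ℝ) (hc : |c| ≤ T) (hc₀ : |c₀| ≤ T) :
    w c ≤ w c₀ + 2 * T * |Rt ρ c - Rt ρ c₀| := by
  have hw : w c - w c₀ = ∫ t in c₀..c, -2 * t * ρ t := by
    rw [intervalIntegral.integral_eq_sub_of_hasDerivAt (fun t _ => h.hasDeriv t)]
    have := h.cont
    exact (by fun_prop : Continuous fun t => -2 * t * ρ t).intervalIntegrable _ _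
  have hR : Rt ρ c₀ - Rt ρ c = ∫ t in c₀..c, ρ t := by
    unfold Rt
    rw [intervalIntegral.integral_Ioi_sub_Ioi' ] 
    · exact h.hint.integrableOn
    · exact h.hint.integrableOn
  have hT : 0 ≤ T := (abs_nonneg _).trans hc
  have key : |∫ t in c₀..c, -2 * t * ρ t| ≤ 2 * T * |∫ t in c₀..c, ρ t| := by
    have hρ := h.cont
    have h1 : ‖∫ t in c₀..c, -2 * t * ρ t‖ ≤ |∫ t in c₀..c, 2 * T * ρ t| := by
      refine intervalIntegral.norm_integral_le_abs_of_norm_le ?_
        ((by fun_prop : Continuous fun t => 2 * T * ρ t).intervalIntegrable _ _)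
      refine (ae_restrict_iff' measurableSet_uIoc).2 (ae_of_all _ fun t ht => ?_)
      have ht' : |t| ≤ T := by
        rw [mem_uIoc] at ht
        rw [abs_le] at hc hc₀ ⊢
        rcases ht with ht | ht <;> constructor <;> linarith [ht.1, ht.2]
      rw [Real.norm_eq_abs, abs_mul, abs_mul, abs_of_pos (h.pos t)]
      have : |(-2 : ℝ)| = 2 := by norm_num
      rw [this]
      have := (h.pos t).le
      nlinarith
    rw [intervalIntegral.integral_const_mul, abs_mul, abs_of_nonneg (by linarith : 0 ≤ 2 * T)] at h1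
    exact h1
  have h1 := le_abs_self (∫ t in c₀..c, -2 * t * ρ t)
  rw [← hw] at h1 key
  rw [← hR] at key
  rw [abs_sub_comm (Rt ρ c)]
  linarith


/-- the function `F` in the coordinates of the body -/
noncomputable def compF (M : ℕ) (q : ℝ) (x : Eu (2 * M ^ 8 + 1)) : ℝ :=
  x 0 + (∑ i : Fin (2 * M ^ 8), sg M i *
    cf q (x i.succ / (delta q * (1 + sg M i * x 0 / (M : ℝ) ^ 4)))) / (M : ℝ) ^ 4

theorem comp_fac_pos {M : ℕ} (hM : 0 < M) {x : ℝ} (hx : |x| < M) (i : Fin (2 * M ^ 8)) :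
    0 < 1 + sg M i * x / (M : ℝ) ^ 4 := by
  have hM' : (1 : ℝ) ≤ M := by exact_mod_cast hM
  have h4 : (M : ℝ) ≤ (M : ℝ) ^ 4 := by
    calc (M : ℝ) = (M : ℝ) ^ 1 := (pow_one _).symm
      _ ≤ (M : ℝ) ^ 4 := pow_le_pow_right₀ hM' (by norm_num)
  have h40 : (0 : ℝ) < (M : ℝ) ^ 4 := by positivity
  have h5 : |sg M i * x / (M : ℝ) ^ 4| < 1 := by
    rw [abs_div, abs_mul, abs_of_pos h40, div_lt_one h40]
    have : |sg M i| = 1 := by unfold sg; split_ifs <;> simp
    rw [this, one_mul]
    exact lt_of_lt_of_le hx h4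
  linarith [(abs_lt.1 h5).1]

theorem comp_phi_zero (M : ℕ) (q : ℝ) (p : ℝ × (Fin (2 * M ^ 8) → ℝ)) : phi M q p 0 = p.1 := by
  simp [phi]

theorem comp_phi_succ (M : ℕ) (q : ℝ) (p : ℝ × (Fin (2 * M ^ 8) → ℝ)) (i : Fin (2 * M ^ 8)) :
    phi M q p i.succ = delta q * (1 + sg M i * p.1 / (M : ℝ) ^ 4) * p.2 i := by
  simp [phi]

theorem compF_phi {M : ℕ} (hM : 0 < M) {q : ℝ} (hq : q ∈ Ioc (0 : ℝ) (1 / 2))
    {p : ℝ × (Fin (2 * M ^ 8) → ℝ)} (hp : |p.1| < M) :
    compF M q (phi M q p) = (parM M hM).F q p := by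
  unfold compF Par.F Par.theta
  rw [comp_phi_zero]
  simp only [parM]
  congr 1
  congr 1
  refine Finset.sum_congr rfl fun i _ => ?_
  rw [comp_phi_succ]
  have h1 := comp_fac_pos hM hp i
  have h2 : 0 < delta q := (delta_bounds q hq).2.2.2.1
  rw [mul_div_cancel_left₀ _ (mul_pos h2 h1).ne']

theorem compF_measurable (M : ℕ) (q : ℝ) : Measurable (compF M q) := by
  have h0 : ∀ j : Fin (2 * M ^ 8 + 1), Measurable fun x : Eu (2 * M ^ 8 + 1) => x j := fun j =>
    (by fun_prop : Continuous fun x : Eu (2 * M ^ 8 + 1) => x j).measurable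
  unfold compF
  refine (h0 0).add (Measurable.div_const (Finset.measurable_fun_sum _ fun i _ => ?_) _)
  refine Measurable.const_mul ((cf_cont q).measurable.comp ?_) _
  exact (h0 _).div (((((h0 0).const_mul _).div_const _).const_add _).const_mul _)

theorem compF_contDiffOn {M : ℕ} (hM : 0 < M) {q : ℝ} (hq : q ∈ Ioc (0 : ℝ) (1 / 2)) :
    ContDiffOn ℝ 1 (compF M q) {x | |x 0| < (M : ℝ)} := by
  have h0 : ∀ j : Fin (2 * M ^ 8 + 1), ContDiffOn ℝ 1 (fun x : Eu (2 * M ^ 8 + 1) => x j)
      {x | |x 0| < (M : ℝ)} :=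
    fun j => (by fun_prop : ContDiff ℝ 1 fun x : Eu (2 * M ^ 8 + 1) => x j).contDiffOn
  have hcf : ContDiff ℝ 1 (cf q) := by unfold cf; fun_prop
  unfold compF
  refine (h0 0).add (ContDiffOn.div_const (ContDiffOn.sum fun i _ => ?_) _)
  refine contDiffOn_const.mul (hcf.comp_contDiffOn ?_)
  refine (h0 _).div (contDiffOn_const.mul (contDiffOn_const.add ((contDiffOn_const.mul (h0 0)).div_const _))) ?_
  intro x hx
  have h1 := comp_fac_pos hM hx i
  have h2 : 0 < delta q := (delta_bounds q hq).2.2.2.1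
  exact (mul_pos h2 h1).ne'

theorem compF_bdd {M : ℕ} (hM : 0 < M) {q : ℝ} (hq : q ∈ Ioc (0 : ℝ) (1 / 2)) :
    ∃ B : ℝ, 0 ≤ B ∧ ∀ x ∈ dom M q, |compF M q x| < B := by
  have hM' : (0 : ℝ) < M := Nat.cast_pos.2 hM
  refine ⟨M + (∑ i : Fin (2 * M ^ 8), (1 : ℝ)) / (M : ℝ) ^ 4, by positivity, fun x hx => ?_⟩
  unfold compF
  refine lt_of_le_of_lt (abs_add_le _ _) (add_lt_add_of_lt_of_le hx.1 ?_)
  rw [abs_div, abs_of_pos (by positivity : (0 : ℝ) < (M : ℝ) ^ 4)]
  apply div_le_div_of_nonneg_right _ (by positivity)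
  refine (Finset.abs_sum_le_sum_abs _ _).trans (Finset.sum_le_sum fun i _ => ?_)
  have h1 := comp_fac_pos hM hx.1 i
  have h2 : 0 < delta q := (delta_bounds q hq).2.2.2.1
  have h3 : |sg M i| = 1 := by unfold sg; split_ifs <;> simp
  rw [abs_mul, h3, one_mul]
  refine (cd_bounds q hq _ ?_).2.2.1
  have h4 := hx.2 i
  have h5 := mul_pos h2 h1
  have h6 : |x i.succ / (delta q * (1 + sg M i * x 0 / (M : ℝ) ^ 4))| ≤ 1 := by
    rw [abs_div, abs_of_pos h5, div_le_one h5]
    exact h4.le
  exact abs_le.1 h6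

theorem comp_vol_pos {M : ℕ} (hM : 0 < M) {q : ℝ} (hq : q ∈ Ioc (0 : ℝ) (1 / 2)) :
    0 < volume (dom M q) := (dom_isOpen M q).measure_pos _ ⟨0, zero_mem_dom M hM q hq⟩

theorem comp_vol_top (M : ℕ) (q : ℝ) : volume (dom M q) ≠ ⊤ := (dom_bounded M q).measure_lt_top.ne

/-- the two-sided comparison of the uniform measure and `mu` -/
def CompI (M : ℕ) (q ζ : ℝ) : Prop := ∀ g : Eu (2 * M ^ 8 + 1) → ℝ≥0∞, Measurable g →
      ENNReal.ofReal (1 - ζ) * volume (dom M q) *
          ∫⁻ p in {p | |p.1| < (M : ℝ)}, g (phi M q p) ∂(mu (2 * M ^ 8)) ≤ ∫⁻ x in dom M q, g x ∧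
      ∫⁻ x in dom M q, g x ≤ ENNReal.ofReal (1 + ζ) * volume (dom M q) *
          ∫⁻ p in {p | |p.1| < (M : ℝ)}, g (phi M q p) ∂(mu (2 * M ^ 8))

theorem comp_slab_meas {m : ℕ} (M : ℕ) : MeasurableSet {p : ℝ × (Fin m → ℝ) | |p.1| < (M : ℝ)} :=
  measurableSet_lt (continuous_fst.abs.measurable) measurable_const

theorem comp_set {M : ℕ} {q ζ : ℝ} (hI : CompI M q ζ) (A : Set (Eu (2 * M ^ 8 + 1))) (hA : MeasurableSet A) :
    ENNReal.ofReal (1 - ζ) * volume (dom M q) *
      mu (2 * M ^ 8) ({p | |p.1| < (M : ℝ)} ∩ phi M q ⁻¹' A) ≤ volume (A ∩ dom M q) ∧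
    volume (A ∩ dom M q) ≤ ENNReal.ofReal (1 + ζ) * volume (dom M q) *
      mu (2 * M ^ 8) ({p | |p.1| < (M : ℝ)} ∩ phi M q ⁻¹' A) := by
  have h := hI (A.indicator fun _ => 1) (measurable_const.indicator hA)
  have hphi : Measurable (phi M q) := (phi_contDiff M q).continuous.measurable
  have h1 : ∫⁻ x in dom M q, A.indicator (fun _ => (1 : ℝ≥0∞)) x = volume (A ∩ dom M q) := by
    rw [lintegral_indicator_const hA, one_mul, Measure.restrict_apply hA]
  have h2 : ∫⁻ p in {p | |p.1| < (M : ℝ)}, A.indicator (fun _ => (1 : ℝ≥0∞)) (phi M q p) ∂(mu (2 * M ^ 8)) =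
      mu (2 * M ^ 8) ({p | |p.1| < (M : ℝ)} ∩ phi M q ⁻¹' A) := by
    have h3 : ∀ p, A.indicator (fun _ => (1 : ℝ≥0∞)) (phi M q p) =
      (phi M q ⁻¹' A).indicator (fun _ => (1 : ℝ≥0∞)) p := fun p => rfl
    simp_rw [h3]
    rw [lintegral_indicator_const (hphi hA), one_mul, Measure.restrict_apply (hphi hA), inter_comm]
  rwa [h1, h2] at h

/-- existence of the threshold -/
theorem comp_exists_c {M : ℕ} (hM : 0 < M) {q ζ : ℝ} (hq : q ∈ Ioc (0 : ℝ) (1 / 2))
    (hI : CompI M q ζ) {α : ℝ} (hα : α ∈ Ioo (0 : ℝ) 1) :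
    ∃ c : ℝ, volume ({x | c < compF M q x} ∩ dom M q) = ENNReal.ofReal α * volume (dom M q) := by
  obtain ⟨B, hB0, hB⟩ := compF_bdd hM hq
  have hF := compF_measurable M q
  have : IsFiniteMeasure (volume.restrict (dom M q)) :=
    ⟨by rw [Measure.restrict_apply_univ]; exact (comp_vol_top M q).lt_top⟩
  set ν : Measure ℝ := (volume.restrict (dom M q)).map (compF M q) with hν
  have : IsFiniteMeasure ν := by rw [hν]; exact Measure.isFiniteMeasure_map _ _
  have hνS : ∀ S : Set ℝ, MeasurableSet S → ν S = volume (compF M q ⁻¹' S ∩ dom M q) := by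
    intro S hS
    rw [hν, Measure.map_apply hF hS, Measure.restrict_apply (hF hS)]
  have : NullSingletonClass ν := ⟨by
    intro c
    rw [hνS _ (measurableSet_singleton c)]
    have h1 := (comp_set hI (compF M q ⁻¹' {c}) (hF (measurableSet_singleton c))).2
    have h2 : mu (2 * M ^ 8) ({p | |p.1| < (M : ℝ)} ∩ phi M q ⁻¹' (compF M q ⁻¹' {c})) = 0 := by
      refine measure_mono_null ?_ (comp_null (parM M hM) q c)
      rintro p ⟨hp1, hp2⟩
      have hp3 : compF M q (phi M q p) = c := hp2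
      rw [compF_phi hM hq hp1] at hp3
      exact hp3
    rw [h2, mul_zero] at h1
    exact le_antisymm h1 zero_le⟩
  set v : ℝ → ℝ := fun c => ν.real (Ioi c) with hv
  have hvc : Continuous v := by
    have h1 : Continuous fun c => ν.real (Ioi 0) - ∫ _ in (0 : ℝ)..c, (1 : ℝ) ∂ν := by
      refine continuous_const.sub ?_
      exact intervalIntegral.continuous_primitive (fun a b => intervalIntegrable_const) 0
    refine h1.congr fun c => ?_
    have h2 := intervalIntegral.integral_Ioi_sub_Ioi' (μ := ν) (f := fun _ => (1 : ℝ)) (a := 0) (b := c)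
      (integrable_const _).integrableOn (integrable_const _).integrableOn
    simp only [integral_const, smul_eq_mul, mul_one, measureReal_restrict_apply_univ] at h2
    rw [hv, ← h2]
    ring
  have hv1 : v B = 0 := by
    rw [hv]
    simp only [measureReal_def]
    rw [hνS _ measurableSet_Ioi]
    have : compF M q ⁻¹' Ioi B ∩ dom M q = ∅ := by
      ext x
      simp only [mem_inter_iff, mem_preimage, mem_Ioi, mem_empty_iff_false, iff_false, not_and]
      intro h1 h2
      linarith [(abs_lt.1 (hB x h2)).2]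
    rw [this]; simp
  have hv2 : v (-B) = (volume (dom M q)).toReal := by
    rw [hv]
    simp only [measureReal_def]
    rw [hνS _ measurableSet_Ioi]
    congr 2
    ext x
    simp only [mem_inter_iff, mem_preimage, mem_Ioi, and_iff_right_iff_imp]
    intro h2
    exact (abs_lt.1 (hB x h2)).1
  have hV : 0 < (volume (dom M q)).toReal :=
    ENNReal.toReal_pos (comp_vol_pos hM hq).ne' (comp_vol_top M q)
  have hmem : α * (volume (dom M q)).toReal ∈ Icc (v B) (v (-B)) := by
    rw [hv1, hv2]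
    constructor
    · exact mul_nonneg hα.1.le hV.le
    · nlinarith [hα.2]
  obtain ⟨c, _, hc⟩ := intermediate_value_Icc' (by linarith : -B ≤ B) hvc.continuousOn hmem
  refine ⟨c, ?_⟩
  have h3 : v c = (volume ({x | c < compF M q x} ∩ dom M q)).toReal := by
    rw [hv]
    simp only [measureReal_def]
    rw [hνS _ measurableSet_Ioi]
    rfl
  rw [h3] at hc
  have h4 : volume ({x | c < compF M q x} ∩ dom M q) ≠ ⊤ :=
    ne_top_of_le_ne_top (comp_vol_top M q) (measure_mono inter_subset_right)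
  rw [← ENNReal.ofReal_toReal h4, hc, ENNReal.ofReal_mul hα.1.le, ENNReal.ofReal_toReal (comp_vol_top M q)]

/-- mass of the superlevel set in the model space -/
theorem comp_mass {M : ℕ} (hM : 0 < M) {q ζ : ℝ} (hq : q ∈ Ioc (0 : ℝ) (1 / 2))
    (hζ0 : 0 < ζ) (hζ1 : ζ ≤ 1 / 2) (hI : CompI M q ζ) {α : ℝ} (hα : α ∈ Ioo (0 : ℝ) 1) {c : ℝ}
    (hc : volume ({x | c < compF M q x} ∩ dom M q) = ENNReal.ofReal α * volume (dom M q)) :
    |Rt ((parM M hM).rho q) c - α| ≤ 2 * ζ := by
  have hF := compF_measurable M q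
  have hV0 := comp_vol_pos hM hq
  have hVt := comp_vol_top M q
  set V := (volume (dom M q)).toReal with hV
  have hVpos : 0 < V := ENNReal.toReal_pos hV0.ne' hVt
  have hVe : volume (dom M q) = ENNReal.ofReal V := (ENNReal.ofReal_toReal hVt).symm
  set μ := mu (2 * M ^ 8) with hμ
  set A : Set (ℝ × (Fin (2 * M ^ 8) → ℝ)) := {p | |p.1| < (M : ℝ)} with hA
  have hAm : MeasurableSet A := comp_slab_meas M
  set C : Set (ℝ × (Fin (2 * M ^ 8) → ℝ)) := {p | c < (parM M hM).F q p} with hC
  have h1 := comp_set hI _ (measurableSet_lt measurable_const hF : MeasurableSet {x | c < compF M q x})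
  have h2 : A ∩ phi M q ⁻¹' {x | c < compF M q x} = A ∩ C := by
    ext p
    simp only [mem_inter_iff, mem_preimage, hA, hC, mem_ofPred_eq]
    constructor
    · rintro ⟨a, b⟩; rw [compF_phi hM hq a] at b; exact ⟨a, b⟩
    · rintro ⟨a, b⟩; rw [compF_phi hM hq a]; exact ⟨a, b⟩
  rw [h2, hc] at h1
  have h3 := comp_set hI univ MeasurableSet.univ
  rw [univ_inter, preimage_univ, inter_univ] at h3
  have e1 : μ (A ∩ C) = ENNReal.ofReal (μ.real (A ∩ C)) := (ofReal_measureReal).symm
  have e2 : μ A = ENNReal.ofReal (μ.real A) := (ofReal_measureReal).symm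
  rw [e1, hVe] at h1
  rw [e2, hVe] at h3
  have n1 : 0 ≤ μ.real (A ∩ C) := measureReal_nonneg
  have n2 : 0 ≤ μ.real A := measureReal_nonneg
  rw [← ENNReal.ofReal_mul (by linarith), ← ENNReal.ofReal_mul (by nlinarith),
    ← ENNReal.ofReal_mul hα.1.le, ENNReal.ofReal_le_ofReal_iff (by nlinarith [hα.1]),
    ← ENNReal.ofReal_mul (by linarith), ← ENNReal.ofReal_mul (by nlinarith),
    ENNReal.ofReal_le_ofReal_iff (mul_nonneg (by nlinarith) n1)] at h1
  rw [← ENNReal.ofReal_mul (p := 1 + ζ) (by linarith), ← ENNReal.ofReal_mul (p := (1 + ζ) * V) (by nlinarith),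
    ENNReal.ofReal_le_ofReal_iff (p := V) (mul_nonneg (by nlinarith) n2)] at h3
  have g1 : (1 - ζ) * μ.real (A ∩ C) ≤ α := by
    have := h1.1
    have h' : ((1 - ζ) * μ.real (A ∩ C)) * V ≤ α * V := by linarith
    exact le_of_mul_le_mul_right h' hVpos
  have g2 : α ≤ (1 + ζ) * μ.real (A ∩ C) := by
    have := h1.2
    have h' : α * V ≤ ((1 + ζ) * μ.real (A ∩ C)) * V := by linarith
    exact le_of_mul_le_mul_right h' hVpos
  have g3 : 1 ≤ (1 + ζ) * μ.real A := by
    have := h3.2
    have h' : 1 * V ≤ ((1 + ζ) * μ.real A) * V := by linarith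
    exact le_of_mul_le_mul_right h' hVpos
  rw [comp_Rt, ← hC, ← hμ]
  have g4 : μ.real (A ∩ C) ≤ μ.real C := measureReal_mono inter_subset_right
  have g5 : μ.real C ≤ μ.real (A ∩ C) + (1 - μ.real A) := by
    rw [← probReal_compl_eq_one_sub hAm]
    refine le_trans (measureReal_mono ?_) (measureReal_union_le _ _)
    intro p hp
    by_cases h : p ∈ A
    · exact Or.inl ⟨h, hp⟩
    · exact Or.inr h
  have g6 : μ.real A ≤ 1 := measureReal_le_one
  have g7 : μ.real (A ∩ C) ≤ 1 := measureReal_le_one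
  have g8 : μ.real C ≤ 1 := measureReal_le_one
  rw [abs_le]
  constructor
  · nlinarith [hα.1, hα.2]
  · nlinarith [hα.1, hα.2]

/-- E : the competitor -/
theorem competitor (α : ℝ) (hα : α ∈ Ioo (0 : ℝ) 1) (q : ℝ) (hq : q ∈ Ioc (0 : ℝ) (1 / 2))
    (ζ : ℝ) (hζ : 0 < ζ) :
    ∃ M₀ : ℕ, ∀ M (hM : 0 < M), M₀ ≤ M → ∀ c₀, ∫ t in Ioi c₀, (parM M hM).rho q t = α →
      ∃ E', MeasurableSet E' ∧ E' ⊆ dom M q ∧ volume E' = ENNReal.ofReal α * volume (dom M q) ∧
        ENNReal.ofReal (RV q) * relPer (dom M q) E' ≤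
          ENNReal.ofReal ((parM M hM).w q c₀ + ζ) * volume (dom M q) := by
  -- choice of the parameters
  obtain ⟨hα0, hα1⟩ := hα
  obtain ⟨T, hT0, hT⟩ := Rt_tail (min α (1 - α) / 4) (by
    have : 0 < min α (1 - α) := lt_min hα0 (by linarith)
    linarith)
  have hη : 0 < min α (1 - α) := lt_min hα0 (by linarith)
  obtain ⟨ξ, hξ0, hξ1, hξ2, hξ3⟩ : ∃ ξ : ℝ, 0 < ξ ∧ ξ ≤ 1 / 2 ∧ ξ ≤ min α (1 - α) / 8 ∧
      (24 * T + 46) * ξ ≤ ζ := by
    refine ⟨min (1 / 2) (min (min α (1 - α) / 8) (ζ / (24 * T + 46))), ?_, min_le_left _ _,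
      (min_le_right _ _).trans (min_le_left _ _), ?_⟩
    · refine lt_min (by norm_num) (lt_min (by linarith) (by positivity))
    · have h1 : min (1 / 2) (min (min α (1 - α) / 8) (ζ / (24 * T + 46))) ≤ ζ / (24 * T + 46) :=
        (min_le_right _ _).trans (min_le_right _ _)
      have h2 : 0 < 24 * T + 46 := by positivity
      rw [le_div_iff₀ h2] at h1
      linarith
  obtain ⟨M₁, hM₁⟩ := lintegral_dom q hq ξ hξ0
  obtain ⟨M₂, hM₂⟩ := grad_comp ξ hξ0
  obtain ⟨M₃, hM₃⟩ := exists_nat_gt (1 / ξ)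
  refine ⟨max M₁ (max M₂ M₃), fun M hM hMM c₀ hc₀ => ?_⟩
  have hI : CompI M q ξ := hM₁ M ((le_max_left _ _).trans hMM)
  have hG := hM₂ M hM ((le_max_left _ _).trans ((le_max_right _ _).trans hMM)) q hq
  have hM3 : M₃ ≤ M := (le_max_right _ _).trans ((le_max_right _ _).trans hMM)
  set P := parM M hM with hP
  have hM' : (1 : ℝ) ≤ M := by exact_mod_cast hM
  have hr : P.r = (M : ℝ) ^ 4 := rfl
  have hr1 : (M : ℝ) ≤ P.r := by
    rw [hr]
    calc (M : ℝ) = (M : ℝ) ^ 1 := (pow_one _).symm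
      _ ≤ (M : ℝ) ^ 4 := pow_le_pow_right₀ hM' (by norm_num)
  have hr2 : 8 / P.r ≤ 8 * ξ := by
    have h1 : 1 / ξ < P.r := lt_of_lt_of_le hM₃ ((Nat.cast_le.2 hM3).trans hr1)
    have h2 : 0 < P.r := P.r_pos
    rw [div_lt_iff₀ hξ0] at h1
    rw [div_le_iff₀ h2]
    nlinarith
  obtain ⟨c, hc⟩ := comp_exists_c hM hq hI ⟨hα0, hα1⟩
  have hmass := comp_mass hM hq hξ0 hξ1 hI ⟨hα0, hα1⟩ hc
  have hstr := struct_model P q hq
  have hRc₀ : Rt (P.rho q) c₀ = α := hc₀
  -- the thresholds are bounded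
  have hbd : ∀ t, |Rt (P.rho q) t - α| ≤ 2 * ξ → |t| ≤ T := by
    intro t ht
    have hle1 : min α (1 - α) ≤ α := min_le_left _ _
    have hle2 : min α (1 - α) ≤ 1 - α := min_le_right _ _
    rw [abs_le] at ht
    rw [abs_le]
    constructor
    · by_contra hcon
      push Not at hcon
      have h1 := hT _ _ hstr (-t) (by linarith)
      rw [Rt_neg hstr] at h1
      linarith [ht.2]
    · by_contra hcon
      push Not at hcon
      have h1 := hT _ _ hstr t hcon.le
      linarith [ht.1]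
  have hcT := hbd c hmass
  have hc₀T := hbd c₀ (by rw [hRc₀, sub_self, abs_zero]; linarith)
  have hw1 := comp_w_diff hstr T c c₀ hcT hc₀T
  rw [hRc₀] at hw1
  have hw2 : P.w q c ≤ P.w q c₀ + 4 * T * ξ := by
    have : 2 * T * |Rt (P.rho q) c - α| ≤ 2 * T * (2 * ξ) :=
      mul_le_mul_of_nonneg_left hmass (by linarith)
    linarith
  -- the slices
  have hsc : Continuous (P.slice q fun p => compPsi P q p.2) :=
    slice_continuous P q _ ((comp_Psi_cont P q).comp continuous_snd)
  obtain ⟨k₀, hk₀, hmol⟩ := comp_mollify _ hsc c ξ hξ0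
  have hsl := comp_slice P q hq (hM'.trans hr1) c
  set s := P.slice q (fun p => compPsi P q p.2) c with hs
  have hs0 : 0 ≤ s := by
    rw [hs]
    unfold Par.slice
    exact integral_nonneg fun a => mul_nonneg (comp_Psi_nonneg P q a) (nu0_nonneg _)
  have hF := compF_measurable M q
  have hFc' := compF_contDiffOn hM hq
  have hFc : ContDiffOn ℝ 1 (compF M q) (dom M q) := hFc'.mono fun x hx => hx.1
  refine ⟨{x | c < compF M q x} ∩ dom M q, ?_, inter_subset_right, hc, ?_⟩
  · exact (measurableSet_lt measurable_const hF).inter (dom_isOpen M q).measurableSet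
  have hEm : MeasurableSet ({x | c < compF M q x} ∩ dom M q) :=
    (measurableSet_lt measurable_const hF).inter (dom_isOpen M q).measurableSet
  have hper : relPer (dom M q) ({x | c < compF M q x} ∩ dom M q) ≤
      ENNReal.ofReal ((1 + ξ) * (1 + ξ) * (s + ξ)) * volume (dom M q) := by
    refine relPer_le_of_approx (dom_isOpen M q) hEm inter_subset_right
      (fun k x => compG c (k + k₀) (compF M q x)) ?_ ?_ _ ?_
    · intro k
      exact (compG_contDiff c (k + k₀)).comp_contDiffOn hFc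
    · -- L^1 convergence
      have hz : (0 : ℝ≥0∞) = ∫⁻ x in dom M q, (0 : ℝ≥0∞) := by simp
      rw [hz]
      refine tendsto_lintegral_of_dominated_convergence (fun _ => 1) ?_ ?_ ?_ ?_
      · intro k
        have h1 : Measurable fun x => compG c (k + k₀) (compF M q x) :=
          (compG_contDiff c (k + k₀)).continuous.measurable.comp hF
        exact (h1.sub (measurable_const.indicator hEm)).enorm
      · intro k
        refine ae_of_all _ fun x => ?_
        have h1 := compG_mem c (k + k₀) (compF M q x)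
        show ‖compG c (k + k₀) (compF M q x) -
          ({x | c < compF M q x} ∩ dom M q).indicator (fun _ => (1 : ℝ)) x‖ₑ ≤ (1 : ℝ≥0∞)
        rw [Real.enorm_eq_ofReal_abs]
        rw [← ENNReal.ofReal_one]
        apply ENNReal.ofReal_le_ofReal
        by_cases hx : x ∈ ({x | c < compF M q x} ∩ dom M q : Set _)
        · rw [indicator_of_mem hx, abs_le]
          constructor <;> linarith [h1.1, h1.2]
        · rw [indicator_of_notMem hx, abs_le]
          constructor <;> linarith [h1.1, h1.2]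
      · rw [lintegral_const, one_mul, Measure.restrict_apply_univ]
        exact comp_vol_top M q
      · refine (ae_restrict_iff' (dom_isOpen M q).measurableSet).2 (ae_of_all _ fun x hx => ?_)
        apply tendsto_const_nhds.congr'
        by_cases hx2 : c < compF M q x
        · obtain ⟨N, hN⟩ := exists_nat_gt (1 / (compF M q x - c))
          filter_upwards [eventually_ge_atTop N] with k hk
          have h3 : 0 < compF M q x - c := by linarith
          have h4 : (N : ℝ) ≤ ((k + k₀ : ℕ) : ℝ) := by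
            exact_mod_cast hk.trans (Nat.le_add_right _ _)
          have h5 : (0 : ℝ) < ((k + k₀ : ℕ) : ℝ) := by
            exact_mod_cast Nat.add_pos_right _ hk₀
          have h6 : 1 / (((k + k₀ : ℕ) : ℝ)) ≤ compF M q x - c := by
            rw [div_le_iff₀ h5]
            rw [div_lt_iff₀ h3] at hN
            nlinarith
          have hmem : x ∈ ({x | c < compF M q x} ∩ dom M q : Set _) := ⟨hx2, hx⟩
          rw [indicator_of_mem hmem, compG_one (Nat.add_pos_right _ hk₀) (by linarith)]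
          simp
        · refine Eventually.of_forall fun k => ?_
          have hnm : x ∉ ({x | c < compF M q x} ∩ dom M q : Set _) := fun h => hx2 h.1
          show (0 : ℝ≥0∞) = ‖compG c (k + k₀) (compF M q x) -
            ({x | c < compF M q x} ∩ dom M q).indicator (fun _ => (1 : ℝ)) x‖ₑ
          rw [indicator_of_notMem hnm, compG_zero (not_lt.1 hx2)]
          simp
    · -- energy
      intro k
      set K := k + k₀ with hK
      have hK0 : 0 < K := Nat.add_pos_right _ hk₀
      set f : Eu (2 * M ^ 8 + 1) → ℝ := fun x => compG c K (compF M q x) with hf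
      have hfm : Measurable fun x => ‖fderiv ℝ f x‖ₑ := (measurable_fderiv ℝ f).enorm
      refine (hI _ hfm).2.trans ?_
      have hb : ∫⁻ p in {p | |p.1| < (M : ℝ)}, ‖fderiv ℝ f (phi M q p)‖ₑ ∂(mu (2 * M ^ 8)) ≤
          ENNReal.ofReal (1 + ξ) * ENNReal.ofReal (s + ξ) := by
        have hb1 : ∫⁻ p in {p | |p.1| < (M : ℝ)}, ‖fderiv ℝ f (phi M q p)‖ₑ ∂(mu (2 * M ^ 8)) ≤
            ∫⁻ p in {p | |p.1| < (M : ℝ)}, ENNReal.ofReal (1 + ξ) *
              ENNReal.ofReal (|deriv (compG c K) (P.F q p)| * compPsi P q p.2) ∂(mu (2 * M ^ 8)) := by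
          refine lintegral_mono_ae ?_
          have hae := ae_restrict_of_ae (s := {p : ℝ × (Fin (2 * M ^ 8) → ℝ) | |p.1| < (M : ℝ)})
            (mu_ae_mem (2 * M ^ 8))
          filter_upwards [hae, ae_restrict_mem (comp_slab_meas M)] with p hp1 hp2
          have hp2' : |p.1| < (M : ℝ) := hp2
          have hdiff : DifferentiableAt ℝ f (phi M q p) := by
            have hop : IsOpen {x : Eu (2 * M ^ 8 + 1) | |x 0| < (M : ℝ)} :=
              isOpen_lt (by fun_prop) continuous_const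
            have hmem : phi M q p ∈ {x : Eu (2 * M ^ 8 + 1) | |x 0| < (M : ℝ)} := by
              show |phi M q p 0| < (M : ℝ)
              rw [comp_phi_zero]
              exact hp2'
            have h4 : DifferentiableAt ℝ (compF M q) (phi M q p) :=
              (hFc'.differentiableOn (by norm_num)).differentiableAt (hop.mem_nhds hmem)
            exact ((compG_contDiff c K).differentiable (by norm_num) _).comp _ h4
          have h1 := (hG f p hp2' hp1 hdiff).2
          have h2 : P.grad q (fun p => f (phi M q p)) p =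
              |deriv (compG c K) (P.F q p)| * compPsi P q p.2 := by
            rw [← comp_grad_comp P q hq (compG c K) ((compG_contDiff c K).differentiable (by norm_num)) p]
            have h3 : (fun p => f (phi M q p)) =ᶠ[𝓝 p] fun p => compG c K (P.F q p) := by
              have hopen : IsOpen {p : ℝ × (Fin (2 * M ^ 8) → ℝ) | |p.1| < (M : ℝ)} :=
                isOpen_lt continuous_fst.abs continuous_const
              filter_upwards [hopen.mem_nhds hp2] with y hy
              rw [hf]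
              simp only
              rw [compF_phi hM hq hy]
            unfold Par.grad Par.D0 Par.Dj
            rw [h3.fderiv_eq]
          rw [h2] at h1
          rw [← ENNReal.ofReal_mul (by linarith), ← ofReal_norm]
          exact ENNReal.ofReal_le_ofReal h1
        refine hb1.trans ?_
        rw [lintegral_const_mul' _ _ ENNReal.ofReal_ne_top]
        refine mul_le_mul_right ?_ _
        refine (setLIntegral_le_lintegral _ _).trans ?_
        rw [comp_energy P q c K hK0]
        exact ENNReal.ofReal_le_ofReal (hmol K (Nat.le_add_left _ _))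
      refine (mul_le_mul_right hb _).trans ?_
      rw [ENNReal.ofReal_mul (by positivity), ENNReal.ofReal_mul (by positivity)]
      apply le_of_eq
      ring
  -- conclusion
  refine (mul_le_mul_right hper _).trans ?_
  rw [← mul_assoc, ← ENNReal.ofReal_mul (by linarith [(RV_mem q hq).1])]
  refine mul_le_mul_left (ENNReal.ofReal_le_ofReal ?_) _
  obtain ⟨hRV1, hRV2⟩ := RV_mem q hq
  have hwle := w_le_two P q hq c₀
  have hw0 := w_nonneg P q hq c₀
  have e1 : RV q * (s + ξ) ≤ P.w q c₀ + (4 * T + 10) * ξ := by nlinarith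
  have e2 : (1 + ξ) * (1 + ξ) ≤ 1 + 3 * ξ := by nlinarith
  have e3 : 0 ≤ RV q * (s + ξ) := by positivity
  have e4 : RV q * ((1 + ξ) * (1 + ξ) * (s + ξ)) = ((1 + ξ) * (1 + ξ)) * (RV q * (s + ξ)) := by ring
  rw [e4]
  have e5 : ((1 + ξ) * (1 + ξ)) * (RV q * (s + ξ)) ≤ (1 + 3 * ξ) * (P.w q c₀ + (4 * T + 10) * ξ) :=
    mul_le_mul e2 e1 e3 (by linarith)
  have e6 : (1 + 3 * ξ) * (P.w q c₀ + (4 * T + 10) * ξ) =
    P.w q c₀ + 3 * ξ * P.w q c₀ + (1 + 3 * ξ) * ((4 * T + 10) * ξ) := by ring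
  have e7 : 3 * ξ * P.w q c₀ ≤ 6 * ξ := by nlinarith
  have e8 : (1 + 3 * ξ) * ((4 * T + 10) * ξ) ≤ 4 * ((4 * T + 10) * ξ) :=
    mul_le_mul_of_nonneg_right (by linarith) (by positivity)
  nlinarith

end IsoHull
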