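import Pool.Agent.IsoHull27.Defs

/-!
# D2a: the dimension-free L^1 Poincare inequality on the cube

The cube is unfolded to a torus: `a_j = 4 ‖t_j‖ - 1`, `t_j` in the circle `ℝ / ℤ`.
-/

open MeasureTheory Set Filter Topology ProbabilityTheory
open scoped ENNReal NNReal

namespace IsoHull

namespace D2a

/-- the uniform law on `(-1/2, 1/2]` -/
noncomputable def lam : Measure ℝ := volume.restrict (Ioc (-(1 / 2) : ℝ) (1 / 2))

instance lam_prob : IsProbabilityMeasure lam := ⟨by
  rw [lam, Measure.restrict_apply_univ, Real.volume_Ioc]; norm_num⟩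

/-- its `m`-fold product -/
noncomputable def Lam (m : ℕ) : Measure (Fin m → ℝ) := Measure.pi fun _ => lam

instance Lam_prob (m : ℕ) : IsProbabilityMeasure (Lam m) := by unfold Lam; infer_instance

/-- the folding map -/
noncomputable def fold (t : ℝ) : ℝ := 4 * ‖(t : UnitAddCircle)‖ - 1

theorem fold_eq {t : ℝ} (ht : |t| ≤ 1 / 2) : fold t = 4 * |t| - 1 := by
  have : ‖(t : UnitAddCircle)‖ = |t| :=
    (AddCircle.norm_coe_eq_abs_iff (p := (1 : ℝ)) one_ne_zero).2 (by simpa using ht)
  rw [fold, this]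

theorem fold_mem (t : ℝ) : fold t ∈ Icc (-1 : ℝ) 1 := by
  have h1 : ‖(t : UnitAddCircle)‖ ≤ 1 / 2 := by
    have := AddCircle.norm_le_half_period (1 : ℝ) (x := (t : UnitAddCircle)) one_ne_zero
    simpa using this
  have h0 := norm_nonneg (t : UnitAddCircle)
  constructor <;> (unfold fold; linarith)

theorem fold_lip (s t : ℝ) : |fold s - fold t| ≤ 4 * |s - t| := by
  have h1 : |‖(s : UnitAddCircle)‖ - ‖(t : UnitAddCircle)‖| ≤ ‖(s : UnitAddCircle) - t‖ :=
    abs_norm_sub_norm_le _ _
  have h2 : ‖(s : UnitAddCircle) - t‖ ≤ |s - t| := by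
    have : (s : UnitAddCircle) - t = ((s - t : ℝ) : UnitAddCircle) := by norm_cast
    rw [this]
    exact QuotientAddGroup.norm_mk_le_norm
  have : fold s - fold t = 4 * (‖(s : UnitAddCircle)‖ - ‖(t : UnitAddCircle)‖) := by
    unfold fold; ring
  rw [this, abs_mul, abs_of_pos (by norm_num : (0 : ℝ) < 4)]
  linarith

theorem fold_continuous : Continuous fold := by
  unfold fold
  exact (continuous_const.mul (continuous_norm.comp (AddCircle.continuous_mk' 1))).sub
    continuous_const

theorem law_fold : lam.map fold = unif := by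
  have hm := fold_continuous.measurable
  have : IsProbabilityMeasure (lam.map fold) := Measure.isProbabilityMeasure_map hm.aemeasurable
  refine Measure.ext_of_Iic _ _ fun x => ?_
  rw [Measure.map_apply hm measurableSet_Iic, lam, Measure.restrict_apply (hm measurableSet_Iic)]
  rw [unif, Measure.smul_apply, Measure.restrict_apply measurableSet_Iic]
  have key : fold ⁻¹' Iic x ∩ Ioc (-(1 / 2) : ℝ) (1 / 2) =
      {t | |t| ≤ (x + 1) / 4} ∩ Ioc (-(1 / 2) : ℝ) (1 / 2) := by
    ext t
    simp only [mem_inter_iff, mem_preimage, mem_Iic, mem_ofPred_eq, mem_Ioc]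
    constructor
    · rintro ⟨h, h1, h2⟩
      rw [fold_eq (abs_le.2 ⟨h1.le, h2⟩)] at h
      exact ⟨by linarith, h1, h2⟩
    · rintro ⟨h, h1, h2⟩
      rw [fold_eq (abs_le.2 ⟨h1.le, h2⟩)]
      exact ⟨by linarith, h1, h2⟩
  rw [key]
  rcases lt_or_ge x (-1) with hx | hx
  · have e1 : {t : ℝ | |t| ≤ (x + 1) / 4} ∩ Ioc (-(1 / 2) : ℝ) (1 / 2) = ∅ := by
      ext t; simp only [mem_inter_iff, mem_ofPred_eq, mem_empty_iff_false, iff_false, not_and]
      intro h; have := abs_nonneg t; linarith
    have e2 : Iic x ∩ Icc (-1 : ℝ) 1 = ∅ := by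
      ext t; simp only [mem_inter_iff, mem_Iic, mem_Icc, mem_empty_iff_false, iff_false, not_and]
      intro h h1; linarith
    rw [e1, e2]; simp
  rcases lt_or_ge x 1 with hx1 | hx1
  · have e1 : {t : ℝ | |t| ≤ (x + 1) / 4} ∩ Ioc (-(1 / 2) : ℝ) (1 / 2) =
        Icc (-((x + 1) / 4)) ((x + 1) / 4) := by
      ext t; simp only [mem_inter_iff, mem_ofPred_eq, mem_Ioc, mem_Icc, abs_le]
      constructor
      · rintro ⟨⟨h1, h2⟩, -⟩; exact ⟨h1, h2⟩
      · rintro ⟨h1, h2⟩; exact ⟨⟨h1, h2⟩, by linarith, by linarith⟩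
    have e2 : Iic x ∩ Icc (-1 : ℝ) 1 = Icc (-1) x := by
      ext t; simp only [mem_inter_iff, mem_Iic, mem_Icc]
      constructor
      · rintro ⟨h, h1, -⟩; exact ⟨h1, h⟩
      · rintro ⟨h, h1⟩; exact ⟨h1, h, by linarith⟩
    rw [e1, e2, Real.volume_Icc, Real.volume_Icc, smul_eq_mul]
    have h2 : (2 : ℝ≥0∞)⁻¹ = ENNReal.ofReal (1 / 2) := by
      rw [ENNReal.ofReal_div_of_pos (by norm_num)]; simp
    rw [h2, ← ENNReal.ofReal_mul (by norm_num)]
    congr 1; ring
  · have e1 : {t : ℝ | |t| ≤ (x + 1) / 4} ∩ Ioc (-(1 / 2) : ℝ) (1 / 2) =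
        Ioc (-(1 / 2) : ℝ) (1 / 2) := by
      refine inter_eq_right.2 fun t ht => ?_
      simp only [mem_ofPred_eq, abs_le]
      exact ⟨by linarith [ht.1], by linarith [ht.2]⟩
    have e2 : Iic x ∩ Icc (-1 : ℝ) 1 = Icc (-1) 1 :=
      inter_eq_right.2 fun t ht => ht.2.trans hx1
    rw [e1, e2, Real.volume_Icc, Real.volume_Ioc, smul_eq_mul]
    have h2 : (2 : ℝ≥0∞)⁻¹ = ENNReal.ofReal (1 / 2) := by
      rw [ENNReal.ofReal_div_of_pos (by norm_num)]; simp
    rw [h2, ← ENNReal.ofReal_mul (by norm_num)]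
    congr 1; ring

instance unif_prob : IsProbabilityMeasure unif := by
  rw [← law_fold]
  exact Measure.isProbabilityMeasure_map fold_continuous.measurable.aemeasurable

instance cubeM_prob (m : ℕ) : IsProbabilityMeasure (cubeM m) := by unfold cubeM; infer_instance

variable {m : ℕ}

/-- the folding map in `m` variables -/
noncomputable def foldv (t : Fin m → ℝ) : Fin m → ℝ := fun j => fold (t j)

theorem foldv_continuous : Continuous (foldv (m := m)) :=
  continuous_pi fun j => fold_continuous.comp (continuous_apply j)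

theorem law_foldv : (Lam m).map foldv = cubeM m := by
  have : IsProbabilityMeasure (lam.map fold) :=
    Measure.isProbabilityMeasure_map fold_continuous.measurable.aemeasurable
  have := Measure.pi_map_pi (μ := fun _ : Fin m => lam) (f := fun _ => fold)
    (fun _ => fold_continuous.measurable.aemeasurable)
  unfold Lam foldv cubeM
  rw [this, law_fold]

/-- shift invariance of periodic functions -/
theorem shift (h : (Fin m → UnitAddCircle) → ℝ) (hh : Continuous h) (s : Fin m → ℝ) :
    ∫ t, h (fun j => ((t j + s j : ℝ) : UnitAddCircle)) ∂(Lam m) =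
      ∫ t, h (fun j => (t j : UnitAddCircle)) ∂(Lam m) := by
  have mp1 : MeasurePreserving (β := UnitAddCircle) ((↑) : ℝ → UnitAddCircle) lam volume := by
    have := UnitAddCircle.measurePreserving_mk (-(1 / 2) : ℝ)
    rw [show (-(1 / 2) : ℝ) + 1 = 1 / 2 by norm_num] at this
    exact this
  have mp : MeasurePreserving (fun (t : Fin m → ℝ) j => (t j : UnitAddCircle)) (Lam m)
      (Measure.pi fun _ => volume) := measurePreserving_pi _ _ fun _ => mp1
  have key : ∀ f : (Fin m → UnitAddCircle) → ℝ, Continuous f →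
      ∫ t, f (fun j => (t j : UnitAddCircle)) ∂(Lam m) =
        ∫ τ, f τ ∂(Measure.pi fun _ : Fin m => (volume : Measure UnitAddCircle)) := by
    intro f hf
    rw [← mp.map_eq, integral_map mp.measurable.aemeasurable hf.measurable.aestronglyMeasurable]
  have h1 := key (fun τ => h (fun j => τ j + (s j : UnitAddCircle))) (by fun_prop)
  have h2 := key h hh
  simp only [← AddCircle.coe_add] at h1
  rw [h1, h2]
  exact integral_add_right_eq_self (μ := Measure.pi fun _ : Fin m => (volume : Measure UnitAddCircle))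
    h (fun j => (s j : UnitAddCircle))

/-- a `C¹` function is Lipschitz on the cube -/
theorem lip_on_cube (g : (Fin m → ℝ) → ℝ) (hg : ContDiff ℝ 1 g) :
    ∃ L : ℝ, 0 ≤ L ∧ (∀ x ∈ cube m, ∀ y ∈ cube m, |g x - g y| ≤ L * ‖x - y‖) ∧
      ∀ x ∈ cube m, ‖fderiv ℝ g x‖ ≤ L := by
  have hc : cube m = Set.pi univ fun _ => Icc (-1 : ℝ) 1 := by
    ext x
    constructor
    · intro h i _; exact h i
    · intro h i; exact h i (mem_univ i)
  have hcomp : IsCompact (cube m) := by
    rw [hc]; exact isCompact_univ_pi fun _ => isCompact_Icc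
  have hconv : Convex ℝ (cube m) := by
    rw [hc]; exact convex_pi fun _ _ => convex_Icc _ _
  have hcont : Continuous fun x => fderiv ℝ g x := hg.continuous_fderiv (by norm_num)
  obtain ⟨L, hL⟩ := hcomp.exists_bound_of_continuousOn hcont.continuousOn
  refine ⟨max L 0, le_max_right _ _, fun x hx y hy => ?_,
    fun x hx => (hL x hx).trans (le_max_left _ _)⟩
  have := hconv.norm_image_sub_le_of_norm_fderiv_le (f := g) (𝕜 := ℝ) (C := max L 0)
    (fun z _ => (hg.differentiable (by norm_num)).differentiableAt)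
    (fun z hz => (hL z hz).trans (le_max_left _ _)) hy hx
  simpa [Real.norm_eq_abs] using this

theorem foldv_mem (t : Fin m → ℝ) : foldv t ∈ cube m := fun _ => fold_mem _

theorem foldv_lip (s t : Fin m → ℝ) : ‖foldv s - foldv t‖ ≤ 4 * ‖s - t‖ := by
  refine (pi_norm_le_iff_of_nonneg (by positivity)).2 fun j => ?_
  have h1 : ‖(foldv s - foldv t) j‖ ≤ 4 * |s j - t j| := fold_lip (s j) (t j)
  have h2 : |s j - t j| ≤ ‖s - t‖ := norm_le_pi_norm (s - t) j
  linarith

/-- almost every point of `Λ` has all coordinates in `(-1/2,1/2) \ {0}` -/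
theorem ae_good : ∀ᵐ t ∂(Lam m), ∀ j, t j ≠ 0 ∧ |t j| < 1 / 2 := by
  have h1 : ∀ᵐ u ∂lam, u ≠ 0 ∧ |u| < 1 / 2 := by
    unfold lam
    have ha : ∀ᵐ u ∂(volume.restrict (Ioc (-(1 / 2) : ℝ) (1 / 2))), u ≠ 0 :=
      ae_restrict_of_ae (by simp [ae_iff])
    have hb : ∀ᵐ u ∂(volume.restrict (Ioc (-(1 / 2) : ℝ) (1 / 2))), u ≠ 1 / 2 :=
      ae_restrict_of_ae (by simp [ae_iff])
    have hc : ∀ᵐ u ∂(volume.restrict (Ioc (-(1 / 2) : ℝ) (1 / 2))), u ∈ Ioc (-(1 / 2) : ℝ) (1 / 2) :=
      ae_restrict_mem measurableSet_Ioc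
    filter_upwards [ha, hb, hc] with u h1 h2 h3
    exact ⟨h1, abs_lt.2 ⟨h3.1, lt_of_le_of_ne h3.2 h2⟩⟩
  rw [ae_all_iff]
  intro j
  exact (measurePreserving_eval (fun _ : Fin m => lam) j).quasiMeasurePreserving.ae h1

/-- the direction of the folded path -/
noncomputable def dir (s t : Fin m → ℝ) : Fin m → ℝ := fun j => 4 * Real.sign (t j) * s j

theorem fold_move {u v : ℝ} (hu0 : u ≠ 0) (hu : |u| < 1 / 2) (hv : |v| < |u|)
    (hv2 : |v| < 1 / 2 - |u|) : fold (u + v) = fold u + 4 * Real.sign u * v := by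
  have h1 : |u + v| ≤ 1 / 2 := (abs_add_le u v).trans (by linarith)
  rw [fold_eq h1, fold_eq hu.le]
  rcases lt_or_gt_of_ne hu0 with h | h
  · rw [Real.sign_of_neg h, abs_of_neg h]
    rw [abs_of_neg h] at hv
    have := abs_lt.1 hv
    rw [abs_of_neg (by linarith)]; ring
  · rw [Real.sign_of_pos h, abs_of_pos h]
    rw [abs_of_pos h] at hv
    have := abs_lt.1 hv
    rw [abs_of_pos (by linarith)]; ring

theorem foldv_move (s t : Fin m → ℝ) (ht : ∀ j, t j ≠ 0 ∧ |t j| < 1 / 2) :
    ∀ᶠ k : ℕ in atTop, foldv (t + (k : ℝ)⁻¹ • s) = foldv t + (k : ℝ)⁻¹ • dir s t := by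
  have hj : ∀ j, ∀ᶠ k : ℕ in atTop,
      fold (t j + (k : ℝ)⁻¹ * s j) = fold (t j) + (k : ℝ)⁻¹ * (4 * Real.sign (t j) * s j) := by
    intro j
    have hlim : Tendsto (fun k : ℕ => |(k : ℝ)⁻¹ * s j|) atTop (𝓝 0) := by
      have h0 : Tendsto (fun k : ℕ => (k : ℝ)⁻¹ * s j) atTop (𝓝 (0 * s j)) :=
        (tendsto_inv_atTop_zero.comp tendsto_natCast_atTop_atTop).mul_const _
      simpa using h0.abs
    have e1 : ∀ᶠ k : ℕ in atTop, |(k : ℝ)⁻¹ * s j| < |t j| :=
      hlim.eventually (gt_mem_nhds (abs_pos.2 (ht j).1))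
    have e2 : ∀ᶠ k : ℕ in atTop, |(k : ℝ)⁻¹ * s j| < 1 / 2 - |t j| :=
      hlim.eventually (gt_mem_nhds (by linarith [(ht j).2]))
    filter_upwards [e1, e2] with k h1 h2
    rw [fold_move (ht j).1 (ht j).2 h1 h2]; ring
  filter_upwards [eventually_all.2 hj] with k hk
  funext j
  simpa [foldv, dir] using hk j

theorem pointwise_lim (g : (Fin m → ℝ) → ℝ) (hg : ContDiff ℝ 1 g) (s t : Fin m → ℝ)
    (ht : ∀ j, t j ≠ 0 ∧ |t j| < 1 / 2) :
    Tendsto (fun k : ℕ => (k : ℝ) * |g (foldv (t + (k : ℝ)⁻¹ • s)) - g (foldv t)|) atTop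
      (𝓝 |fderiv ℝ g (foldv t) (dir s t)|) := by
  have hd : HasFDerivAt g (fderiv ℝ g (foldv t)) (foldv t) :=
    ((hg.differentiable (by norm_num)).differentiableAt).hasFDerivAt
  have hc : Tendsto (fun k : ℕ => ‖(k : ℝ)‖) atTop atTop := by
    simpa using tendsto_natCast_atTop_atTop (R := ℝ)
  have h1 := (hd.lim (dir s t) hc).abs
  refine h1.congr' ?_
  filter_upwards [foldv_move s t ht] with k hk
  rw [hk, smul_eq_mul, abs_mul, Nat.abs_cast]

/-- the derivative bound for the folded function -/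
theorem key (g : (Fin m → ℝ) → ℝ) (hg : ContDiff ℝ 1 g) (s : Fin m → ℝ) :
    ∫ t, |g (foldv (t + s)) - g (foldv t)| ∂(Lam m) ≤
      ∫ t, |fderiv ℝ g (foldv t) (dir s t)| ∂(Lam m) := by
  obtain ⟨L, hL0, hL, hL'⟩ := lip_on_cube g hg
  have hgc : Continuous g := hg.continuous
  have hcont : ∀ u v : Fin m → ℝ, Continuous fun t => |g (foldv (t + u)) - g (foldv (t + v))| := by
    intro u v
    exact ((hgc.comp (foldv_continuous.comp (continuous_id.add continuous_const))).sub
      (hgc.comp (foldv_continuous.comp (continuous_id.add continuous_const)))).abs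
  have hint : ∀ u v : Fin m → ℝ,
      Integrable (fun t => |g (foldv (t + u)) - g (foldv (t + v))|) (Lam m) := by
    intro u v
    refine Integrable.of_bound (hcont u v).aestronglyMeasurable (L * (4 * ‖u - v‖))
      (Eventually.of_forall fun t => ?_)
    rw [Real.norm_eq_abs, abs_abs]
    refine (hL _ (foldv_mem _) _ (foldv_mem _)).trans ?_
    have := foldv_lip (t + u) (t + v)
    rw [add_sub_add_left_eq_sub] at this
    exact mul_le_mul_of_nonneg_left this hL0
  -- invariance
  have hinv : ∀ u v w : Fin m → ℝ,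
      ∫ t, |g (foldv (t + w + u)) - g (foldv (t + w + v))| ∂(Lam m) =
        ∫ t, |g (foldv (t + u)) - g (foldv (t + v))| ∂(Lam m) := by
    intro u v w
    have := shift (m := m) (fun τ => |g (fun j => 4 * ‖τ j + (u j : UnitAddCircle)‖ - 1) -
      g (fun j => 4 * ‖τ j + (v j : UnitAddCircle)‖ - 1)|) (by fun_prop) w
    simp only [← AddCircle.coe_add] at this
    exact this
  -- telescoping
  have htel : ∀ k : ℕ, 0 < k → ∫ t, |g (foldv (t + s)) - g (foldv t)| ∂(Lam m) ≤
      ∫ t, (k : ℝ) * |g (foldv (t + (k : ℝ)⁻¹ • s)) - g (foldv t)| ∂(Lam m) := by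
    intro k hk
    have hk' : (k : ℝ) ≠ 0 := by exact_mod_cast hk.ne'
    have h1 : ∀ t : Fin m → ℝ, |g (foldv (t + s)) - g (foldv t)| ≤
        ∑ i ∈ Finset.range k, |g (foldv (t + (i : ℝ) • (k : ℝ)⁻¹ • s + (k : ℝ)⁻¹ • s)) -
          g (foldv (t + (i : ℝ) • (k : ℝ)⁻¹ • s + 0))| := by
      intro t
      have h2 : g (foldv (t + s)) - g (foldv t) = ∑ i ∈ Finset.range k,
          (g (foldv (t + (i : ℝ) • (k : ℝ)⁻¹ • s + (k : ℝ)⁻¹ • s)) -
          g (foldv (t + (i : ℝ) • (k : ℝ)⁻¹ • s + 0))) := by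
        have h3 := Finset.sum_range_sub (fun i : ℕ => g (foldv (t + (i : ℝ) • (k : ℝ)⁻¹ • s))) k
        simp only [Nat.cast_zero, zero_smul, add_zero] at h3
        rw [smul_smul, mul_inv_cancel₀ hk', one_smul] at h3
        rw [← h3]
        refine Finset.sum_congr rfl fun i _ => ?_
        rw [add_zero, add_assoc t]
        congr 4
        push_cast
        rw [add_smul, one_smul]
      rw [h2]
      exact Finset.abs_sum_le_sum_abs _ _
    calc ∫ t, |g (foldv (t + s)) - g (foldv t)| ∂(Lam m)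
        ≤ ∫ t, ∑ i ∈ Finset.range k,
            |g (foldv (t + (i : ℝ) • (k : ℝ)⁻¹ • s + (k : ℝ)⁻¹ • s)) -
              g (foldv (t + (i : ℝ) • (k : ℝ)⁻¹ • s + 0))| ∂(Lam m) := by
          refine integral_mono (by simpa using hint s 0) ?_ h1
          refine integrable_finsetSum _ fun i _ => ?_
          simpa only [add_assoc] using hint ((i : ℝ) • (k : ℝ)⁻¹ • s + (k : ℝ)⁻¹ • s)
            ((i : ℝ) • (k : ℝ)⁻¹ • s + 0)
      _ = ∑ i ∈ Finset.range k, ∫ t,
            |g (foldv (t + (i : ℝ) • (k : ℝ)⁻¹ • s + (k : ℝ)⁻¹ • s)) -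
              g (foldv (t + (i : ℝ) • (k : ℝ)⁻¹ • s + 0))| ∂(Lam m) := by
          refine integral_finsetSum _ fun i _ => ?_
          simpa only [add_assoc] using hint ((i : ℝ) • (k : ℝ)⁻¹ • s + (k : ℝ)⁻¹ • s)
            ((i : ℝ) • (k : ℝ)⁻¹ • s + 0)
      _ = ∑ i ∈ Finset.range k, ∫ t,
            |g (foldv (t + (k : ℝ)⁻¹ • s)) - g (foldv (t + 0))| ∂(Lam m) :=
          Finset.sum_congr rfl fun i _ => hinv _ _ _
      _ = ∫ t, (k : ℝ) * |g (foldv (t + (k : ℝ)⁻¹ • s)) - g (foldv t)| ∂(Lam m) := by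
          rw [Finset.sum_const, Finset.card_range, nsmul_eq_mul, integral_const_mul]
          simp only [add_zero]
  -- the limit
  have hlim : Tendsto (fun k : ℕ => ∫ t, (k : ℝ) * |g (foldv (t + (k : ℝ)⁻¹ • s)) - g (foldv t)|
      ∂(Lam m)) atTop (𝓝 (∫ t, |fderiv ℝ g (foldv t) (dir s t)| ∂(Lam m))) := by
    refine tendsto_integral_of_dominated_convergence (fun _ => L * (4 * ‖s‖)) ?_
      (integrable_const _) ?_ ?_
    · intro k
      have := (hcont ((k : ℝ)⁻¹ • s) 0)
      simp only [add_zero] at this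
      exact (continuous_const.mul this).aestronglyMeasurable
    · intro k
      refine Eventually.of_forall fun t => ?_
      rw [Real.norm_eq_abs, abs_mul, abs_abs, Nat.abs_cast]
      rcases Nat.eq_zero_or_pos k with rfl | hk
      · simp only [Nat.cast_zero, zero_mul]; positivity
      have hk' : (0 : ℝ) < k := by exact_mod_cast hk
      have h1 := hL _ (foldv_mem (t + (k : ℝ)⁻¹ • s)) _ (foldv_mem t)
      have h2 := foldv_lip (t + (k : ℝ)⁻¹ • s) t
      rw [add_sub_cancel_left, norm_smul, norm_inv, Real.norm_natCast] at h2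
      calc (k : ℝ) * |g (foldv (t + (k : ℝ)⁻¹ • s)) - g (foldv t)|
          ≤ k * (L * (4 * ((k : ℝ)⁻¹ * ‖s‖))) :=
            mul_le_mul_of_nonneg_left (h1.trans (mul_le_mul_of_nonneg_left h2 hL0)) hk'.le
        _ = L * (4 * ‖s‖) := by field_simp
    · filter_upwards [ae_good (m := m)] with t ht
      exact pointwise_lim g hg s t ht
  exact ge_of_tendsto hlim (by filter_upwards [eventually_gt_atTop 0] with k hk using htel k hk)

theorem lam_bound : ∀ᵐ u ∂lam, ‖u‖ ≤ 1 := by
  have hc : ∀ᵐ u ∂lam, u ∈ Ioc (-(1 / 2) : ℝ) (1 / 2) := ae_restrict_mem measurableSet_Ioc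
  filter_upwards [hc] with u hu
  rw [Real.norm_eq_abs, abs_le]
  exact ⟨by linarith [hu.1], by linarith [hu.2]⟩

theorem mean_lam : ∫ u, u ∂lam = 0 := by
  rw [lam, ← intervalIntegral.integral_of_le (by norm_num), integral_id]; norm_num

theorem sq_lam : ∫ u, u ^ 2 ∂lam = 1 / 12 := by
  rw [lam, ← intervalIntegral.integral_of_le (by norm_num), integral_pow]; norm_num

theorem memLp_lam (c : ℝ) : MemLp (fun u : ℝ => c * u) 2 lam := by
  have h : MemLp (fun u : ℝ => u) 2 lam :=
    MemLp.of_bound measurable_id.aestronglyMeasurable 1 lam_bound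
  exact h.const_mul c

theorem var_lam (c : ℝ) : Var[fun u : ℝ => c * u; lam] = c ^ 2 / 12 := by
  rw [variance_eq_sub (memLp_lam c), integral_const_mul, mean_lam]
  simp only [Pi.pow_apply, mul_pow]
  rw [integral_const_mul, sq_lam]; ring

theorem integral_sq (c : Fin m → ℝ) : ∫ s, (∑ j, c j * s j) ^ 2 ∂(Lam m) = (∑ j, c j ^ 2) / 12 := by
  have h1 := variance_sum_pi (μ := fun _ : Fin m => lam) (X := fun j u => c j * u)
    (fun j => memLp_lam (c j))
  simp only [var_lam] at h1
  have hint : ∀ j : Fin m, Integrable (fun s : Fin m → ℝ => c j * s j) (Lam m) := by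
    intro j
    exact ((memLp_lam (c j)).comp_measurePreserving
      (measurePreserving_eval (fun _ : Fin m => lam) j)).integrable (by norm_num)
  have hmem : MemLp (∑ j, fun s : Fin m → ℝ => c j * s j) 2 (Lam m) := by
    refine memLp_finsetSum' _ fun j _ => ?_
    exact (memLp_lam (c j)).comp_measurePreserving
      (measurePreserving_eval (fun _ : Fin m => lam) j)
  have hmean : ∫ s, (∑ j, fun s : Fin m → ℝ => c j * s j) s ∂(Lam m) = 0 := by
    simp only [Finset.sum_apply]
    rw [integral_finsetSum _ fun j _ => hint j]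
    refine Finset.sum_eq_zero fun j _ => ?_
    have h2 : ∫ s : Fin m → ℝ, c j * s j ∂(Lam m) = ∫ u, c j * u ∂lam := by
      have hm := (measurePreserving_eval (fun _ : Fin m => lam) j)
      rw [← hm.map_eq, integral_map hm.measurable.aemeasurable
        (Continuous.aestronglyMeasurable (by fun_prop))]
      rfl
    rw [h2, integral_const_mul, mean_lam, mul_zero]
  have h3 := variance_eq_sub hmem
  have h4 : Var[∑ j, fun s : Fin m → ℝ => c j * s j; Lam m] = ∑ j, c j ^ 2 / 12 := h1
  rw [h4, hmean] at h3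
  simp only [Pi.pow_apply, Finset.sum_apply] at h3
  rw [Finset.sum_div, h3]; ring

theorem var_bound (c : Fin m → ℝ) :
    ∫ s, |∑ j, c j * s j| ∂(Lam m) ≤ Real.sqrt ((∑ j, c j ^ 2) / 12) := by
  have hmem : MemLp (fun s : Fin m → ℝ => ∑ j, c j * s j) 2 (Lam m) := by
    have : MemLp (∑ j, fun s : Fin m → ℝ => c j * s j) 2 (Lam m) := by
      refine memLp_finsetSum' _ fun j _ => ?_
      exact (memLp_lam (c j)).comp_measurePreserving
        (measurePreserving_eval (fun _ : Fin m => lam) j)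
    refine this.congr_norm ?_ (Eventually.of_forall fun s => by simp)
    exact (Continuous.aestronglyMeasurable (by fun_prop))
  have hI : Integrable (fun s : Fin m → ℝ => |∑ j, c j * s j|) (Lam m) :=
    (hmem.integrable (by norm_num)).abs
  have hI2 : Integrable (fun s : Fin m → ℝ => (∑ j, c j * s j) ^ 2) (Lam m) := hmem.integrable_sq
  have h2 := integral_sq c
  set I : ℝ := ∫ s, |∑ j, c j * s j| ∂(Lam m) with hIdef
  have h0 : 0 ≤ ∫ s : Fin m → ℝ, (|∑ j, c j * s j| - I) ^ 2 ∂(Lam m) :=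
    integral_nonneg fun s => sq_nonneg _
  have h3 : ∫ s : Fin m → ℝ, (|∑ j, c j * s j| - I) ^ 2 ∂(Lam m) =
      (∑ j, c j ^ 2) / 12 - I ^ 2 := by
    have h4 : ∀ s : Fin m → ℝ, (|∑ j, c j * s j| - I) ^ 2 =
        (∑ j, c j * s j) ^ 2 - 2 * I * |∑ j, c j * s j| + I ^ 2 := by
      intro s; rw [sub_sq, sq_abs]; ring
    simp only [h4]
    have hI3 : Integrable (fun s : Fin m → ℝ => 2 * I * |∑ j, c j * s j|) (Lam m) :=
      hI.const_mul _
    have hI4 : Integrable (fun s : Fin m → ℝ => (∑ j, c j * s j) ^ 2 - 2 * I * |∑ j, c j * s j|)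
      (Lam m) := hI2.sub hI3
    rw [integral_add hI4 (integrable_const _),
      integral_sub hI2 hI3, integral_const_mul, h2, integral_const]
    simp only [probReal_univ, one_smul, ← hIdef]
    ring
  rw [h3] at h0
  exact Real.le_sqrt_of_sq_le (by linarith)

theorem fderiv_dir (g : (Fin m → ℝ) → ℝ) (s t : Fin m → ℝ) :
    fderiv ℝ g (foldv t) (dir s t) =
      ∑ j, (4 * Real.sign (t j) * fderiv ℝ g (foldv t) (Pi.single j 1)) * s j := by
  have h : dir s t = ∑ j, (4 * Real.sign (t j) * s j) • (Pi.single j (1 : ℝ) : Fin m → ℝ) := by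
    funext i
    simp [dir, Finset.sum_apply, Pi.single_apply]
  rw [h, map_sum]
  refine Finset.sum_congr rfl fun j _ => ?_
  rw [map_smul, smul_eq_mul]; ring

end D2a

open D2a in
/-- D2a : dimension-free `L¹` Poincaré inequality on the cube -/
theorem cube_poincare {m : ℕ} (g : (Fin m → ℝ) → ℝ) (hg : ContDiff ℝ 1 g) :
    ∫ a, ∫ a', |g a - g a'| ∂(cubeM m) ∂(cubeM m) ≤
      2 / Real.sqrt 3 * ∫ a, Real.sqrt (∑ i, (fderiv ℝ g a (Pi.single i 1)) ^ 2) ∂(cubeM m) := by
  obtain ⟨L, hL0, hL, hL'⟩ := lip_on_cube g hg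
  have hgc : Continuous g := hg.continuous
  have hdc : Continuous fun x => fderiv ℝ g x := hg.continuous_fderiv (by norm_num)
  have hfm : Measurable (foldv (m := m)) := foldv_continuous.measurable
  -- left side on the torus
  have hleft : ∫ a, ∫ a', |g a - g a'| ∂(cubeM m) ∂(cubeM m) =
      ∫ t, ∫ s, |g (foldv (t + s)) - g (foldv t)| ∂(Lam m) ∂(Lam m) := by
    have hin : ∀ a, ∫ a', |g a - g a'| ∂(cubeM m) = ∫ t', |g a - g (foldv t')| ∂(Lam m) := by
      intro a
      rw [← law_foldv, integral_map hfm.aemeasurable (Continuous.aestronglyMeasurable (by fun_prop))]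
    have hcontin : StronglyMeasurable fun a => ∫ a', |g a - g a'| ∂(cubeM m) := by
      have : Continuous fun p : (Fin m → ℝ) × (Fin m → ℝ) => |g p.1 - g p.2| := by fun_prop
      exact this.stronglyMeasurable.integral_prod_right
    rw [← law_foldv, integral_map hfm.aemeasurable (by
      rw [law_foldv]; exact hcontin.aestronglyMeasurable), law_foldv]
    refine integral_congr_ae (Eventually.of_forall fun t => ?_)
    simp only [hin]
    have h1 := shift (m := m) (fun τ => |g (foldv t) - g (fun j => 4 * ‖τ j‖ - 1)|)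
      (by fun_prop) t
    have h2 : ∫ s, |g (foldv t) - g (foldv (s + t))| ∂(Lam m) =
      ∫ s, |g (foldv t) - g (foldv s)| ∂(Lam m) := h1
    rw [← h2]
    refine integral_congr_ae (Eventually.of_forall fun s => ?_)
    simp only []
    rw [abs_sub_comm, add_comm]
  -- integrability on the product
  have hA : Integrable (Function.uncurry fun t s : Fin m → ℝ => |g (foldv (t + s)) - g (foldv t)|)
      ((Lam m).prod (Lam m)) := by
    have hc : Continuous (Function.uncurry fun t s : Fin m → ℝ =>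
        |g (foldv (t + s)) - g (foldv t)|) := by
      have h1 : Continuous fun p : (Fin m → ℝ) × (Fin m → ℝ) => foldv (p.1 + p.2) :=
        foldv_continuous.comp (by fun_prop)
      have h2 : Continuous fun p : (Fin m → ℝ) × (Fin m → ℝ) => foldv p.1 :=
        foldv_continuous.comp (by fun_prop)
      exact ((hgc.comp h1).sub (hgc.comp h2)).abs
    refine Integrable.of_bound hc.aestronglyMeasurable (L * 2) (Eventually.of_forall ?_)
    rintro ⟨t, s⟩
    simp only [Function.uncurry, Real.norm_eq_abs, abs_abs]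
    refine (hL _ (foldv_mem _) _ (foldv_mem _)).trans (mul_le_mul_of_nonneg_left ?_ hL0)
    refine (pi_norm_le_iff_of_nonneg (by norm_num)).2 fun j => ?_
    have h1 := foldv_mem (t + s) j
    have h2 := foldv_mem t j
    rw [Pi.sub_apply, Real.norm_eq_abs, abs_le]
    exact ⟨by linarith [h1.1, h2.2], by linarith [h1.2, h2.1]⟩
  have hsign : Measurable Real.sign := by
    unfold Real.sign
    exact Measurable.ite measurableSet_Iio measurable_const
      (Measurable.ite measurableSet_Ioi measurable_const measurable_const)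
  have hB : Integrable (Function.uncurry fun t s : Fin m → ℝ =>
      |fderiv ℝ g (foldv t) (dir s t)|) ((Lam m).prod (Lam m)) := by
    have hmeas : Measurable (Function.uncurry fun t s : Fin m → ℝ =>
        |fderiv ℝ g (foldv t) (dir s t)|) := by
      simp only [fderiv_dir]
      refine measurable_abs.comp (Finset.measurable_sum _ fun j _ => ?_)
      have h1 : Measurable fun p : (Fin m → ℝ) × (Fin m → ℝ) => Real.sign (p.1 j) :=
        hsign.comp ((measurable_pi_apply j).comp measurable_fst)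
      have h2 : Measurable fun p : (Fin m → ℝ) × (Fin m → ℝ) =>
          fderiv ℝ g (foldv p.1) (Pi.single j 1) := by
        have : Continuous fun p : (Fin m → ℝ) × (Fin m → ℝ) =>
            fderiv ℝ g (foldv p.1) (Pi.single j 1) :=
          (hdc.comp (foldv_continuous.comp continuous_fst)).clm_apply continuous_const
        exact this.measurable
      exact ((measurable_const.mul h1).mul h2).mul
        ((measurable_pi_apply j).comp measurable_snd)
    have hs1 : ∀ᵐ s ∂(Lam m), ‖s‖ ≤ 1 := by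
      have : ∀ᵐ s ∂(Lam m), ∀ j, ‖s j‖ ≤ 1 := by
        rw [ae_all_iff]
        intro j
        exact (measurePreserving_eval (fun _ : Fin m => lam) j).quasiMeasurePreserving.ae lam_bound
      filter_upwards [this] with s hs using (pi_norm_le_iff_of_nonneg (by norm_num)).2 hs
    have hs2 : ∀ᵐ p ∂((Lam m).prod (Lam m)), ‖p.2‖ ≤ 1 :=
      Measure.quasiMeasurePreserving_snd.ae hs1
    refine Integrable.of_bound hmeas.aestronglyMeasurable (L * (4 * 1)) ?_
    filter_upwards [hs2] with p hp
    simp only [Function.uncurry, Real.norm_eq_abs, abs_abs]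
    refine ((fderiv ℝ g (foldv p.1)).le_opNorm _).trans ?_
    refine mul_le_mul (hL' _ (foldv_mem _)) ?_ (norm_nonneg _) hL0
    refine (pi_norm_le_iff_of_nonneg (by norm_num)).2 fun j => ?_
    have h1 : |p.2 j| ≤ 1 := (norm_le_pi_norm p.2 j).trans hp
    have h3 : |Real.sign (p.1 j)| ≤ 1 := by
      rcases Real.sign_apply_eq (p.1 j) with h | h | h <;> rw [h] <;> norm_num
    simp only [dir, Real.norm_eq_abs, abs_mul]
    rw [abs_of_pos (by norm_num : (0 : ℝ) < 4)]
    have := mul_le_mul h3 h1 (abs_nonneg _) (by norm_num : (0 : ℝ) ≤ 1)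
    nlinarith
  -- main chain
  have hgrad : Continuous fun a => Real.sqrt (∑ i, (fderiv ℝ g a (Pi.single i 1)) ^ 2) := by
    refine Real.continuous_sqrt.comp (continuous_finsetSum _ fun i _ => ?_)
    exact (hdc.clm_apply continuous_const).pow 2
  rw [hleft, integral_integral_swap hA]
  calc ∫ s, ∫ t, |g (foldv (t + s)) - g (foldv t)| ∂(Lam m) ∂(Lam m)
      ≤ ∫ s, ∫ t, |fderiv ℝ g (foldv t) (dir s t)| ∂(Lam m) ∂(Lam m) := by
        refine integral_mono ?_ ?_ fun s => key g hg s
        · exact hA.swap.integral_prod_left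
        · exact hB.swap.integral_prod_left
    _ = ∫ t, ∫ s, |fderiv ℝ g (foldv t) (dir s t)| ∂(Lam m) ∂(Lam m) :=
        (integral_integral_swap hB).symm
    _ ≤ ∫ t, 2 / Real.sqrt 3 *
          Real.sqrt (∑ i, (fderiv ℝ g (foldv t) (Pi.single i 1)) ^ 2) ∂(Lam m) := by
        refine integral_mono_of_nonneg (Eventually.of_forall fun t =>
          integral_nonneg fun s => abs_nonneg _) ?_ (Eventually.of_forall fun t => ?_)
        · have hcc : Integrable (fun t => Real.sqrt (∑ i, (fderiv ℝ g (foldv t)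
              (Pi.single i 1)) ^ 2)) (Lam m) := by
            have h1 : Continuous fun t : Fin m → ℝ => Real.sqrt (∑ i, (fderiv ℝ g (foldv t)
              (Pi.single i 1)) ^ 2) := hgrad.comp foldv_continuous
            refine Integrable.of_bound h1.aestronglyMeasurable
              (Real.sqrt (∑ _i : Fin m, L ^ 2)) (Eventually.of_forall fun t => ?_)
            rw [Real.norm_eq_abs, abs_of_nonneg (Real.sqrt_nonneg _)]
            refine Real.sqrt_le_sqrt (Finset.sum_le_sum fun i _ => ?_)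
            have h2 : |fderiv ℝ g (foldv t) (Pi.single i 1)| ≤ L := by
              refine ((fderiv ℝ g (foldv t)).le_opNorm _).trans ?_
              have h3 : ‖(Pi.single i (1 : ℝ) : Fin m → ℝ)‖ ≤ 1 := by
                rw [Pi.norm_single]; simp
              calc ‖fderiv ℝ g (foldv t)‖ * ‖(Pi.single i (1 : ℝ) : Fin m → ℝ)‖ ≤ L * 1 :=
                    mul_le_mul (hL' _ (foldv_mem _)) h3 (norm_nonneg _) hL0
                _ = L := mul_one L
            rw [← sq_abs]
            exact pow_le_pow_left₀ (abs_nonneg _) h2 2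
          exact hcc.const_mul _
        · simp only [fderiv_dir]
          refine (var_bound _).trans ?_
          have h3 : 2 / Real.sqrt 3 = Real.sqrt (4 / 3) := by
            rw [Real.sqrt_div (by norm_num), show (4 : ℝ) = 2 ^ 2 by norm_num,
              Real.sqrt_sq (by norm_num)]
          rw [h3, ← Real.sqrt_mul (by norm_num)]
          refine Real.sqrt_le_sqrt ?_
          rw [div_le_iff₀ (by norm_num), Finset.mul_sum, Finset.sum_mul]
          refine Finset.sum_le_sum fun j _ => ?_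
          have h4 : Real.sign (t j) ^ 2 ≤ 1 := by
            rcases Real.sign_apply_eq (t j) with h | h | h <;> rw [h] <;> norm_num
          have h5 := mul_le_mul_of_nonneg_right h4
            (sq_nonneg (fderiv ℝ g (foldv t) (Pi.single j 1)))
          nlinarith
    _ = 2 / Real.sqrt 3 * ∫ a, Real.sqrt (∑ i, (fderiv ℝ g a (Pi.single i 1)) ^ 2) ∂(cubeM m) := by
        rw [integral_const_mul, ← law_foldv, integral_map hfm.aemeasurable
          hgrad.aestronglyMeasurable]

end IsoHull
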