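import Pool.Agent.IsoHull27.D0

/-!
# IsoHull27, package D2b: pointwise linear algebra of the gradient (MP_b478d8_an)
-/

open MeasureTheory Set Filter Topology
open scoped ENNReal NNReal

namespace IsoHull

theorem D2b_cs {m : ℕ} (x0 y0 : ℝ) (x y : Fin m → ℝ) :
    (x0 * y0 + ∑ i, x i * y i) ^ 2 ≤ (x0 ^ 2 + ∑ i, x i ^ 2) * (y0 ^ 2 + ∑ i, y i ^ 2) := by
  have := Finset.sum_mul_sq_le_sq_mul_sq Finset.univ
    (fun o : Option (Fin m) => o.elim x0 x) (fun o => o.elim y0 y)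
  simpa [Fintype.sum_option] using this

theorem D2b_lin {m : ℕ} (L : ℝ × (Fin m → ℝ) →L[ℝ] ℝ) (c : ℝ) (v : Fin m → ℝ) :
    L (c, v) = c * L (1, 0) + ∑ i, v i * L (0, Pi.single i 1) := by
  have h : ((c, v) : ℝ × (Fin m → ℝ)) = c • ((1 : ℝ), (0 : Fin m → ℝ)) +
      ∑ i, v i • ((0 : ℝ), (Pi.single i (1 : ℝ) : Fin m → ℝ)) := by
    refine Prod.ext ?_ ?_
    · simp [Prod.fst_sum]
    · rw [Prod.snd_add, Prod.snd_sum]
      ext j
      simp [Finset.sum_apply, Pi.single_apply]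
  rw [h, map_add, map_smul, map_sum, smul_eq_mul]
  congr 1
  refine Finset.sum_congr rfl fun i _ => ?_
  rw [map_smul, smul_eq_mul]

/-- the abstract form of the tangential estimate -/
theorem D2b_core {m : ℕ} (r δ A S : ℝ) (σ a cd V : Fin m → ℝ) (G0 : ℝ) (G h : Fin m → ℝ)
    (grad perp W Vd : ℝ) (hr : 0 < r) (hm : (m : ℝ) = 2 * r ^ 2) (hσ : ∀ i, σ i ^ 2 = 1)
    (ha : ∀ i, |a i| ≤ 1) (hcd : ∀ i, |cd i| ≤ δ ^ 2) (hδ : 0 < δ) (hδ' : δ ≤ 2 / 5)
    (hA : 0 < A) (hV : ∀ i, δ * V i = σ i * cd i / (A * r)) (hS : S = (∑ i, a i * cd i) / r ^ 2)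
    (hW : W = 1 + ∑ i, V i ^ 2) (hgrad0 : 0 ≤ grad) (hgrad : grad ^ 2 = G0 ^ 2 + ∑ i, G i ^ 2)
    (hVd : Vd = G0 + ∑ i, V i * G i) (hperp0 : 0 ≤ perp)
    (hperp : perp ^ 2 = grad ^ 2 - Vd ^ 2 / W)
    (hh : ∀ i, h i = δ * G i - (σ i * cd i / r) * (G0 + ∑ j, (σ j * a j / r) * (δ * G j))) :
    Real.sqrt (∑ i, h i ^ 2) ≤ 2 * δ * perp + 2 * δ ^ 2 * (|S - (1 - A)| / A) * grad := by
  set n : ℝ := Real.sqrt (∑ i, h i ^ 2) with hn
  have hn0 : 0 ≤ n := Real.sqrt_nonneg _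
  have hn2 : n ^ 2 = ∑ i, h i ^ 2 := Real.sq_sqrt (Finset.sum_nonneg fun i _ => sq_nonneg _)
  set dx : ℝ := -(∑ i, σ i * cd i * h i) / r with hdx
  have hW1 : 1 ≤ W := by
    rw [hW]
    have := Finset.sum_nonneg (s := (Finset.univ : Finset (Fin m))) (f := fun i => V i ^ 2)
      (fun i _ => sq_nonneg _)
    linarith
  have hW0 : 0 < W := by linarith
  -- bound for dx
  have hdx2 : dx ^ 2 ≤ 2 * δ ^ 4 * n ^ 2 := by
    have h1 := Finset.sum_mul_sq_le_sq_mul_sq Finset.univ (fun i => σ i * cd i) h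
    have h2 : ∑ i, (σ i * cd i) ^ 2 ≤ ∑ _i : Fin m, δ ^ 4 := by
      refine Finset.sum_le_sum fun i _ => ?_
      rw [mul_pow, hσ i, one_mul]
      have h3 := hcd i
      have h4 : |cd i| ^ 2 ≤ (δ ^ 2) ^ 2 := pow_le_pow_left₀ (abs_nonneg _) h3 2
      rw [sq_abs] at h4
      calc cd i ^ 2 ≤ (δ ^ 2) ^ 2 := h4
        _ = δ ^ 4 := by ring
    rw [Finset.sum_const, Finset.card_univ, Fintype.card_fin, nsmul_eq_mul, hm] at h2
    have h5 : (∑ i, σ i * cd i * h i) ^ 2 ≤ (2 * r ^ 2 * δ ^ 4) * n ^ 2 := by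
      refine h1.trans ?_
      rw [hn2]
      exact mul_le_mul_of_nonneg_right h2 (Finset.sum_nonneg fun i _ => sq_nonneg _)
    rw [hdx, div_pow, neg_sq, div_le_iff₀ (by positivity)]
    calc (∑ i, σ i * cd i * h i) ^ 2 ≤ (2 * r ^ 2 * δ ^ 4) * n ^ 2 := h5
      _ = 2 * δ ^ 4 * n ^ 2 * r ^ 2 := by ring
  -- the vector tau
  set τ : Fin m → ℝ := fun i => δ * (h i + σ i * a i * dx / r) with hτ
  have hasum : ∑ i, (σ i * a i) ^ 2 ≤ 2 * r ^ 2 := by
    have : ∑ i, (σ i * a i) ^ 2 ≤ ∑ _i : Fin m, (1 : ℝ) := by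
      refine Finset.sum_le_sum fun i _ => ?_
      rw [mul_pow, hσ i, one_mul, ← sq_abs]
      have := pow_le_pow_left₀ (abs_nonneg _) (ha i) 2
      simpa using this
    rw [Finset.sum_const, Finset.card_univ, Fintype.card_fin, nsmul_eq_mul, mul_one, hm] at this
    exact this
  have hcross : |dx / r * ∑ i, (σ i * a i) * h i| ≤ 2 * δ ^ 2 * n ^ 2 := by
    refine abs_le_of_sq_le_sq ?_ (by positivity)
    have h1 := Finset.sum_mul_sq_le_sq_mul_sq Finset.univ (fun i => σ i * a i) h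
    have h2 : (∑ i, σ i * a i * h i) ^ 2 ≤ 2 * r ^ 2 * n ^ 2 := by
      refine h1.trans ?_
      rw [hn2]
      exact mul_le_mul_of_nonneg_right hasum (Finset.sum_nonneg fun i _ => sq_nonneg _)
    rw [mul_pow, div_pow]
    calc dx ^ 2 / r ^ 2 * (∑ i, σ i * a i * h i) ^ 2
        ≤ (2 * δ ^ 4 * n ^ 2) / r ^ 2 * (2 * r ^ 2 * n ^ 2) := by
          refine mul_le_mul (div_le_div_of_nonneg_right hdx2 (by positivity)) h2 (sq_nonneg _)
            (by positivity)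
      _ = (2 * δ ^ 2 * n ^ 2) ^ 2 := by field_simp
  have hτn : dx ^ 2 + ∑ i, τ i ^ 2 ≤ (2 * δ * n) ^ 2 := by
    have e1 : ∑ i, τ i ^ 2 = δ ^ 2 * (n ^ 2 + 2 * (dx / r * ∑ i, (σ i * a i) * h i) +
        dx ^ 2 / r ^ 2 * ∑ i, (σ i * a i) ^ 2) := by
      rw [hn2, Finset.mul_sum, Finset.mul_sum, Finset.mul_sum, ← Finset.sum_add_distrib,
        ← Finset.sum_add_distrib, Finset.mul_sum]
      refine Finset.sum_congr rfl fun i _ => ?_
      rw [hτ]
      ring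
    have e2 : dx ^ 2 / r ^ 2 * ∑ i, (σ i * a i) ^ 2 ≤ 4 * δ ^ 4 * n ^ 2 := by
      calc dx ^ 2 / r ^ 2 * ∑ i, (σ i * a i) ^ 2
          ≤ (2 * δ ^ 4 * n ^ 2) / r ^ 2 * (2 * r ^ 2) := by
            refine mul_le_mul (div_le_div_of_nonneg_right hdx2 (by positivity)) hasum
              (Finset.sum_nonneg fun i _ => sq_nonneg _) (by positivity)
        _ = 4 * δ ^ 4 * n ^ 2 := by field_simp; ring
    have e3 := (abs_le.mp hcross).2
    rw [e1]
    have e4 : δ ^ 2 * (n ^ 2 + 2 * (dx / r * ∑ i, (σ i * a i) * h i) +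
        dx ^ 2 / r ^ 2 * ∑ i, (σ i * a i) ^ 2) ≤
        δ ^ 2 * (n ^ 2 + 2 * (2 * δ ^ 2 * n ^ 2) + 4 * δ ^ 4 * n ^ 2) := by
      refine mul_le_mul_of_nonneg_left ?_ (sq_nonneg _)
      linarith
    have e5 : δ ^ 2 ≤ 4 / 25 := by nlinarith
    have e6 : (0 : ℝ) ≤ δ ^ 2 := sq_nonneg _
    have e7 : (0 : ℝ) ≤ δ ^ 2 * n ^ 2 := by positivity
    have e8 : 2 * δ ^ 4 * n ^ 2 + δ ^ 2 * (n ^ 2 + 2 * (2 * δ ^ 2 * n ^ 2) + 4 * δ ^ 4 * n ^ 2) =
        (δ ^ 2 * n ^ 2) * (1 + 6 * δ ^ 2 + 4 * δ ^ 2 * δ ^ 2) := by ring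
    have e9 : 1 + 6 * δ ^ 2 + 4 * δ ^ 2 * δ ^ 2 ≤ 4 := by nlinarith
    have e10 : (δ ^ 2 * n ^ 2) * (1 + 6 * δ ^ 2 + 4 * δ ^ 2 * δ ^ 2) ≤ (δ ^ 2 * n ^ 2) * 4 :=
      mul_le_mul_of_nonneg_left e9 e7
    have e11 : (2 * δ * n) ^ 2 = (δ ^ 2 * n ^ 2) * 4 := by ring
    rw [e11]
    linarith
  -- pairing of h with itself
  have hpair : n ^ 2 = dx * G0 + ∑ i, τ i * G i := by
    have e1 : ∑ i, h i ^ 2 = ∑ i, (h i * (δ * G i) -
        (σ i * cd i * h i) * ((G0 + ∑ j, (σ j * a j / r) * (δ * G j)) / r)) := by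
      refine Finset.sum_congr rfl fun i _ => ?_
      rw [sq, hh i]
      ring
    rw [hn2, e1, Finset.sum_sub_distrib, ← Finset.sum_mul]
    have e2 : (∑ i, σ i * cd i * h i) * ((G0 + ∑ j, (σ j * a j / r) * (δ * G j)) / r) =
        -(dx * (G0 + ∑ j, (σ j * a j / r) * (δ * G j))) := by
      generalize G0 + ∑ j, (σ j * a j / r) * (δ * G j) = X
      rw [hdx]; field_simp
    rw [e2]
    have e3 : ∑ i, τ i * G i = ∑ i, h i * (δ * G i) + dx * ∑ j, (σ j * a j / r) * (δ * G j) := by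
      rw [Finset.mul_sum, ← Finset.sum_add_distrib]
      refine Finset.sum_congr rfl fun i _ => ?_
      rw [hτ]
      ring
    rw [e3]
    ring
  -- pairing of V with tau
  have hVτ : dx + ∑ i, V i * τ i = dx * ((S - (1 - A)) / A) := by
    have e1 : ∑ i, V i * τ i = (∑ i, σ i * cd i * h i) / (A * r) +
        dx * ((∑ i, a i * cd i) / r ^ 2) / A := by
      have : dx * ((∑ i, a i * cd i) / r ^ 2) / A = ∑ i, dx * (a i * cd i) / (r ^ 2 * A) := by
        rw [← Finset.sum_div, ← Finset.mul_sum]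
        field_simp
      rw [this, Finset.sum_div, ← Finset.sum_add_distrib]
      refine Finset.sum_congr rfl fun i _ => ?_
      have e2 : V i * τ i = (δ * V i) * (h i + σ i * a i * dx / r) := by
        rw [hτ]; ring
      rw [e2, hV i]
      have e3 := hσ i
      have e4 : σ i * cd i / (A * r) * (h i + σ i * a i * dx / r) =
          σ i * cd i * h i / (A * r) + σ i ^ 2 * (dx * (a i * cd i) / (r ^ 2 * A)) := by
        field_simp
      rw [e4, e3, one_mul]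
    have e5 : (∑ i, σ i * cd i * h i) / (A * r) = - dx / A := by
      rw [hdx]; field_simp
    rw [e1, e5, ← hS]
    field_simp
    ring
  -- splitting
  set c : ℝ := Vd / W with hc
  have hVW : W = 1 ^ 2 + ∑ i, V i ^ 2 := by rw [hW]; ring
  have hVdsq : Vd ^ 2 ≤ W * grad ^ 2 := by
    have := D2b_cs 1 G0 V G
    rw [one_mul, ← hVd, ← hVW, ← hgrad] at this
    exact this
  have hcg : |c| ≤ grad := by
    refine abs_le_of_sq_le_sq ?_ hgrad0
    rw [hc, div_pow, div_le_iff₀ (by positivity)]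
    have : W * grad ^ 2 ≤ grad ^ 2 * W ^ 2 := by nlinarith [sq_nonneg grad]
    linarith
  have hsplit : n ^ 2 = ((G0 - c) * dx + ∑ i, (G i - c * V i) * τ i) +
      c * (dx + ∑ i, V i * τ i) := by
    have e1 : ∑ i, (G i - c * V i) * τ i = ∑ i, τ i * G i - c * ∑ i, V i * τ i := by
      rw [Finset.mul_sum, ← Finset.sum_sub_distrib]
      refine Finset.sum_congr rfl fun i _ => ?_
      ring
    rw [e1, hpair]
    ring
  have hperp2 : (G0 - c) ^ 2 + ∑ i, (G i - c * V i) ^ 2 = perp ^ 2 := by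
    have e1 : ∑ i, (G i - c * V i) ^ 2 = ∑ i, G i ^ 2 - 2 * c * ∑ i, V i * G i +
        c ^ 2 * ∑ i, V i ^ 2 := by
      rw [Finset.mul_sum, Finset.mul_sum, ← Finset.sum_sub_distrib, ← Finset.sum_add_distrib]
      refine Finset.sum_congr rfl fun i _ => ?_
      ring
    have e2 : ∑ i, V i * G i = Vd - G0 := by rw [hVd]; ring
    have e3 : ∑ i, V i ^ 2 = W - 1 := by rw [hW]; ring
    have e4 : ∑ i, G i ^ 2 = grad ^ 2 - G0 ^ 2 := by rw [hgrad]; ring
    rw [e1, e2, e3, e4, hperp]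
    have e5 : c * W = Vd := by rw [hc]; field_simp
    have e6 : Vd ^ 2 / W = c * Vd := by rw [hc]; ring
    have e7 : c ^ 2 * W = c * Vd := by rw [← e5]; ring
    rw [e6]
    nlinarith [e7]
  have hfirst : |(G0 - c) * dx + ∑ i, (G i - c * V i) * τ i| ≤ 2 * δ * n * perp := by
    refine abs_le_of_sq_le_sq ?_ (by positivity)
    refine (D2b_cs (G0 - c) dx (fun i => G i - c * V i) τ).trans ?_
    rw [hperp2]
    calc perp ^ 2 * (dx ^ 2 + ∑ i, τ i ^ 2) ≤ perp ^ 2 * (2 * δ * n) ^ 2 :=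
          mul_le_mul_of_nonneg_left hτn (sq_nonneg _)
      _ = (2 * δ * n * perp) ^ 2 := by ring
  have hdxabs : |dx| ≤ 2 * δ ^ 2 * n := by
    refine abs_le_of_sq_le_sq ?_ (by positivity)
    calc dx ^ 2 ≤ 2 * δ ^ 4 * n ^ 2 := hdx2
      _ ≤ (2 * δ ^ 2 * n) ^ 2 := by
        have : (0 : ℝ) ≤ δ ^ 4 * n ^ 2 := by positivity
        have e : (2 * δ ^ 2 * n) ^ 2 = 4 * (δ ^ 4 * n ^ 2) := by ring
        rw [e]; linarith
  have hsecond : |c * (dx + ∑ i, V i * τ i)| ≤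
      grad * (2 * δ ^ 2 * n * (|S - (1 - A)| / A)) := by
    rw [hVτ, abs_mul, abs_mul, abs_div (S - (1 - A)) A, abs_of_pos hA]
    refine mul_le_mul hcg ?_ (by positivity) hgrad0
    exact mul_le_mul_of_nonneg_right hdxabs (by positivity)
  have hfinal : n * n ≤ n * (2 * δ * perp + 2 * δ ^ 2 * (|S - (1 - A)| / A) * grad) := by
    have e1 := (abs_le.mp hfirst).2
    have e2 := (abs_le.mp hsecond).2
    have e3 : n * n = n ^ 2 := by ring
    rw [e3, hsplit]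
    calc _ ≤ 2 * δ * n * perp + grad * (2 * δ ^ 2 * n * (|S - (1 - A)| / A)) := by linarith
      _ = _ := by ring
  rcases hn0.eq_or_lt with h0 | h0
  · rw [← h0]; positivity
  · exact le_of_mul_le_mul_left hfinal h0

variable {m : ℕ} (P : Par m) (q : ℝ)

theorem D2b_sigma_sq (i : Fin m) : P.σ i ^ 2 = 1 := by
  rcases P.hσ i with h | h <;> rw [h] <;> norm_num

/-- `Vd` is the Euclidean pairing with `V = (1; δ σᵢ sin(q aᵢ)/(r sin q))` -/
theorem Vd_eq (hq : q ∈ Ioc (0 : ℝ) (1 / 2)) (f : ℝ × (Fin m → ℝ) → ℝ) (p : ℝ × (Fin m → ℝ)) :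
    P.Vd q f p = P.D0 f p +
      ∑ i, (delta q * P.σ i * Real.sin (q * p.2 i) / (P.r * Real.sin q)) * P.Dj q f i p := by
  have hδ : delta q ≠ 0 := (delta_bounds q hq).2.2.2.1.ne'
  have hs : Real.sin q ≠ 0 :=
    (Real.sin_pos_of_pos_of_lt_pi hq.1 (by linarith [hq.2, Real.pi_gt_three])).ne'
  have hr : P.r ≠ 0 := P.r_pos.ne'
  unfold Par.Vd Par.D0 Par.Dj
  rw [D2b_lin (fderiv ℝ f p) 1, D2b_lin (fderiv ℝ f p) 1 (fun i => -(P.σ i * p.2 i) / P.r),
    add_assoc, ← Finset.sum_add_distrib]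
  congr 1
  refine Finset.sum_congr rfl fun i _ => ?_
  unfold vf
  field_simp
  ring

/-- `|V|² = W` -/
theorem D2b_normV (hq : q ∈ Ioc (0 : ℝ) (1 / 2)) (a : Fin m → ℝ) :
    P.Wn q a = 1 + ∑ i, (delta q * P.σ i * Real.sin (q * a i) / (P.r * Real.sin q)) ^ 2 := by
  have hs : 0 < Real.sin q :=
    Real.sin_pos_of_pos_of_lt_pi hq.1 (by linarith [hq.2, Real.pi_gt_three])
  have hc : 0 < Real.cos q :=
    Real.cos_pos_of_mem_Ioo ⟨by linarith [hq.1, Real.pi_gt_three], by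
      linarith [hq.2, Real.pi_gt_three]⟩
  have hr : P.r ≠ 0 := P.r_pos.ne'
  have hδ : delta q ^ 2 = q * Real.tan q / 2 := by
    unfold delta
    refine Real.sq_sqrt ?_
    rw [Real.tan_eq_sin_div_cos]
    have := hq.1
    positivity
  unfold Par.Wn Par.Q
  congr 1
  rw [Finset.sum_div, Finset.mul_sum]
  refine Finset.sum_congr rfl fun i _ => ?_
  rw [div_pow, mul_pow, mul_pow, D2b_sigma_sq, hδ, Real.tan_eq_sin_div_cos, Real.sin_two_mul]
  field_simp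

/-- the derivative of `theta` -/
theorem D2b_theta (a : Fin m → ℝ) :
    HasFDerivAt (P.theta q)
      (∑ i, (P.σ i * cd q (a i) / P.r) • (ContinuousLinearMap.proj i : (Fin m → ℝ) →L[ℝ] ℝ)) a := by
  have h1 : ∀ i : Fin m, HasFDerivAt (fun a : Fin m → ℝ => P.σ i * cf q (a i) / P.r)
      ((P.σ i * cd q (a i) / P.r) • (ContinuousLinearMap.proj i : (Fin m → ℝ) →L[ℝ] ℝ)) a := by
    intro i
    have h2 : HasDerivAt (fun x : ℝ => P.σ i * cf q x / P.r) (P.σ i * cd q (a i) / P.r) (a i) :=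
      ((cf_hasDeriv q (a i)).const_mul (P.σ i)).div_const P.r
    have h5 : HasFDerivAt (fun b : Fin m → ℝ => b i)
        (ContinuousLinearMap.proj i : (Fin m → ℝ) →L[ℝ] ℝ) a := hasFDerivAt_apply i a
    exact HasDerivAt.comp_hasFDerivAt (f := fun b : Fin m → ℝ => b i) a h2 h5
  have h3 := HasFDerivAt.fun_sum (u := Finset.univ) (fun i _ => h1 i)
  have h4 : P.theta q = fun a => ∑ i, P.σ i * cf q (a i) / P.r := by
    funext a
    unfold Par.theta
    rw [Finset.sum_div]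
  rw [h4]
  exact h3

/-- `Vd² ≤ W grad²` -/
theorem D2b_Vd_sq (hq : q ∈ Ioc (0 : ℝ) (1 / 2)) (f : ℝ × (Fin m → ℝ) → ℝ)
    (p : ℝ × (Fin m → ℝ)) : P.Vd q f p ^ 2 ≤ P.Wn q p.2 * P.grad q f p ^ 2 := by
  have h1 := D2b_cs 1 (P.D0 f p)
    (fun i => delta q * P.σ i * Real.sin (q * p.2 i) / (P.r * Real.sin q)) (fun i => P.Dj q f i p)
  rw [one_mul, ← Vd_eq P q hq, one_pow, ← D2b_normV P q hq] at h1
  unfold Par.grad
  rw [Real.sq_sqrt (add_nonneg (sq_nonneg _) (Finset.sum_nonneg fun i _ => sq_nonneg _))]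
  exact h1

/-- `perp² = grad² - Vd²/W` -/
theorem D2b_perp_sq (hq : q ∈ Ioc (0 : ℝ) (1 / 2)) (f : ℝ × (Fin m → ℝ) → ℝ)
    (p : ℝ × (Fin m → ℝ)) :
    P.perp q f p ^ 2 = P.grad q f p ^ 2 - P.Vd q f p ^ 2 / P.Wn q p.2 := by
  unfold Par.perp
  refine Real.sq_sqrt ?_
  have h1 := D2b_Vd_sq P q hq f p
  have h2 := P.Wn_ge_one q hq p.2
  rw [sub_nonneg, div_le_iff₀ (by linarith)]
  linarith

/-- D2b : the gradient at fixed `F = t` -/
theorem tangential (hq : q ∈ Ioc (0 : ℝ) (1 / 2)) (f : ℝ × (Fin m → ℝ) → ℝ) (hf : ContDiff ℝ 1 f)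
    (t : ℝ) (a : Fin m → ℝ) (ha : a ∈ cube m) :
    Real.sqrt (∑ i, (fderiv ℝ (fun a => f (t - P.theta q a, a)) a (Pi.single i 1)) ^ 2) ≤
      2 * delta q * P.perp q f (t - P.theta q a, a) +
        2 * delta q ^ 2 * (|P.S q a - (1 - Ac q)| / Ac q) * P.grad q f (t - P.theta q a, a) := by
  have hδ := delta_bounds q hq
  have hA := Ac_bounds q hq
  have hA0 : 0 < Ac q := by linarith [hA.1]
  have hs : 0 < Real.sin q :=
    Real.sin_pos_of_pos_of_lt_pi hq.1 (by linarith [hq.2, Real.pi_gt_three])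
  have hr := P.r_pos
  have hδ0 : delta q ≠ 0 := hδ.2.2.2.1.ne'
  set p : ℝ × (Fin m → ℝ) := (t - P.theta q a, a) with hp
  set L := fderiv ℝ f p with hL
  have hfd : HasFDerivAt f L p := (hf.differentiable (by norm_num)).differentiableAt.hasFDerivAt
  have hψ : HasFDerivAt (fun b : Fin m → ℝ => (t - P.theta q b, b))
      ((-(∑ i, (P.σ i * cd q (a i) / P.r) •
        (ContinuousLinearMap.proj i : (Fin m → ℝ) →L[ℝ] ℝ))).prod
        (ContinuousLinearMap.id ℝ (Fin m → ℝ))) a :=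
    ((D2b_theta P q a).const_sub t).prodMk (hasFDerivAt_id a)
  have hcomp : fderiv ℝ (fun b => f (t - P.theta q b, b)) a = L.comp
      ((-(∑ i, (P.σ i * cd q (a i) / P.r) •
        (ContinuousLinearMap.proj i : (Fin m → ℝ) →L[ℝ] ℝ))).prod
        (ContinuousLinearMap.id ℝ (Fin m → ℝ))) :=
    (HasFDerivAt.comp a (f := fun b : Fin m → ℝ => (t - P.theta q b, b)) hfd hψ).fderiv
  have hval : ∀ i, fderiv ℝ (fun b => f (t - P.theta q b, b)) a (Pi.single i 1) =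
      L (0, Pi.single i 1) - (P.σ i * cd q (a i) / P.r) * L (1, 0) := by
    intro i
    rw [hcomp]
    have e1 : ((-(∑ i, (P.σ i * cd q (a i) / P.r) •
        (ContinuousLinearMap.proj i : (Fin m → ℝ) →L[ℝ] ℝ))).prod
        (ContinuousLinearMap.id ℝ (Fin m → ℝ))) (Pi.single i 1) =
        (-(P.σ i * cd q (a i) / P.r), Pi.single i 1) := by
      refine Prod.ext ?_ ?_
      · simp [Pi.single_apply]
      · rfl
    rw [ContinuousLinearMap.comp_apply, e1, D2b_lin]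
    have e2 : ∑ j, (Pi.single i (1 : ℝ) : Fin m → ℝ) j * L (0, Pi.single j 1) =
        L (0, Pi.single i 1) := by
      rw [Finset.sum_eq_single i]
      · simp
      · intro j _ hj
        rw [Pi.single_eq_of_ne hj, zero_mul]
      · intro h; exact absurd (Finset.mem_univ i) h
    rw [e2]
    ring
  have hL10 : L (1, 0) = P.D0 f p + ∑ j, (P.σ j * a j / P.r) * (delta q * P.Dj q f j p) := by
    unfold Par.D0 Par.Dj
    rw [← hL, D2b_lin L 1 (fun i => -(P.σ i * p.2 i) / P.r), add_assoc,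
      ← Finset.sum_add_distrib, one_mul]
    have : ∑ i, (-(P.σ i * p.2 i) / P.r * L (0, Pi.single i 1) +
        P.σ i * a i / P.r * (delta q * (L (0, Pi.single i 1) / delta q))) = 0 := by
      refine Finset.sum_eq_zero fun i _ => ?_
      rw [hp]
      field_simp
      ring
    rw [this, add_zero]
  refine D2b_core P.r (delta q) (Ac q) (P.S q a) P.σ a (fun i => cd q (a i))
    (fun i => delta q * P.σ i * Real.sin (q * a i) / (P.r * Real.sin q)) (P.D0 f p)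
    (fun i => P.Dj q f i p)
    (fun i => fderiv ℝ (fun b => f (t - P.theta q b, b)) a (Pi.single i 1))
    (P.grad q f p) (P.perp q f p) (P.Wn q a) (P.Vd q f p) hr P.hm (D2b_sigma_sq P)
    (fun i => abs_le.mpr (ha i)) (fun i => (cd_bounds q hq (a i) (ha i)).2.1) hδ.2.2.2.1
    hδ.2.2.2.2 hA0 (fun i => ?_) rfl (D2b_normV P q hq a) (P.grad_nonneg q f p) ?_
    (Vd_eq P q hq f p) (P.perp_nonneg q f p) (D2b_perp_sq P q hq f p) (fun i => ?_)
  · have h1 := delta_sin q hq (a i)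
    have h2 : delta q * (delta q * P.σ i * Real.sin (q * a i) / (P.r * Real.sin q)) =
        P.σ i / P.r * (delta q ^ 2 * Real.sin (q * a i) / Real.sin q) := by
      field_simp
    rw [h2, h1]
    field_simp
  · unfold Par.grad
    exact Real.sq_sqrt (add_nonneg (sq_nonneg _) (Finset.sum_nonneg fun i _ => sq_nonneg _))
  · show fderiv ℝ (fun b => f (t - P.theta q b, b)) a (Pi.single i 1) = _
    rw [hval i, hL10]
    congr 1
    unfold Par.Dj
    rw [← hL]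
    field_simp

/-- D2d : Cauchy–Schwarz splitting -/
theorem split_grad (hq : q ∈ Ioc (0 : ℝ) (1 / 2)) (f : ℝ × (Fin m → ℝ) → ℝ)
    (p : ℝ × (Fin m → ℝ)) (K c ω : ℝ) (hK : P.Wn q p.2 ≤ K ^ 2) (hK0 : 1 ≤ K)
    (hcw : c ^ 2 + ω ^ 2 ≤ 1) (hω : 0 ≤ ω) :
    c * P.Vd q f p + ω * P.perp q f p ≤ K * P.grad q f p ∧ |P.Vd q f p| ≤ K * P.grad q f p ∧
      0 ≤ P.perp q f p ∧ P.perp q f p ≤ P.grad q f p := by
  have h1 := D2b_Vd_sq P q hq f p
  have h2 := D2b_perp_sq P q hq f p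
  have h3 := P.Wn_ge_one q hq p.2
  have hg := P.grad_nonneg q f p
  have hp := P.perp_nonneg q f p
  set W := P.Wn q p.2 with hW
  set g := P.grad q f p with hgd
  set v := P.Vd q f p with hv
  set e := P.perp q f p with he
  have hW0 : 0 < W := by linarith
  have hg2 : 0 ≤ g ^ 2 := sq_nonneg _
  have hKg : 0 ≤ K * g := mul_nonneg (by linarith) hg
  have h4 : W * g ^ 2 ≤ (K * g) ^ 2 := by
    rw [mul_pow]
    exact mul_le_mul_of_nonneg_right hK hg2
  have h5 : v ^ 2 / W * W = v ^ 2 := by field_simp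
  have h6 : 0 ≤ v ^ 2 / W := by positivity
  have h7 : v ^ 2 + e ^ 2 ≤ (K * g) ^ 2 := by
    have h8 : v ^ 2 + e ^ 2 ≤ W * g ^ 2 := by
      have h9 : 0 ≤ (W - 1) * e ^ 2 := mul_nonneg (by linarith) (sq_nonneg _)
      have h10 : W * e ^ 2 = W * g ^ 2 - v ^ 2 := by rw [h2]; field_simp
      linarith
    linarith
  refine ⟨?_, ?_, hp, ?_⟩
  · refine (abs_le.mp (abs_le_of_sq_le_sq ?_ hKg)).2
    have h8 : (c * v + ω * e) ^ 2 ≤ (c ^ 2 + ω ^ 2) * (v ^ 2 + e ^ 2) := by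
      nlinarith [sq_nonneg (c * e - ω * v)]
    have h9 : (c ^ 2 + ω ^ 2) * (v ^ 2 + e ^ 2) ≤ 1 * (v ^ 2 + e ^ 2) :=
      mul_le_mul_of_nonneg_right hcw (by positivity)
    linarith
  · refine abs_le_of_sq_le_sq ?_ hKg
    linarith
  · refine (abs_le.mp (abs_le_of_sq_le_sq ?_ hg)).2
    rw [h2]
    linarith

end IsoHull
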