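import Pool.Agent.IsoHull27.D0
import Pool.Agent.IsoHull27.D1a
import Pool.Agent.IsoHull27.D2a
import Pool.Agent.IsoHull27.D2b

/-!
# IsoHull27, package D2c: transversal inequality on a slice
-/

open MeasureTheory Set Filter Topology
open scoped ENNReal NNReal

namespace IsoHull

variable {m : ℕ} (P : Par m) (q : ℝ)

theorem D2c_pt {x y : ℝ} (hx : x ∈ Icc (0 : ℝ) 1) :
    x * (1 - y) + y * (1 - x) - 2 * (x * (1 - x)) ≤ |x - y| := by
  have h1 : x * (1 - y) + y * (1 - x) - 2 * (x * (1 - x)) = (y - x) * (1 - 2 * x) := by ring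
  rw [h1, abs_sub_comm]
  calc (y - x) * (1 - 2 * x) ≤ |(y - x) * (1 - 2 * x)| := le_abs_self _
    _ = |y - x| * |1 - 2 * x| := abs_mul _ _
    _ ≤ |y - x| * 1 := by
        apply mul_le_mul_of_nonneg_left _ (abs_nonneg _)
        rw [abs_le]
        constructor <;> linarith [hx.1, hx.2]
    _ = |y - x| := mul_one _

/-- the pure averaging part -/
theorem D2c_avg (g k : (Fin m → ℝ) → ℝ) (hg : Continuous g) (hk : Continuous k)
    (h01 : ∀ a, g a ∈ Icc (0 : ℝ) 1) (c : ℝ) (hc : 0 ≤ c)
    (hk0 : ∀ a ∈ cube m, 0 ≤ k a ∧ k a ≤ c) :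
    min (∫ a, g a * k a ∂(cubeM m)) ((∫ a, k a ∂(cubeM m)) - ∫ a, g a * k a ∂(cubeM m)) ≤
      c * ∫ a, ∫ a', |g a - g a'| ∂(cubeM m) ∂(cubeM m)
        + 2 * ∫ a, (g a * (1 - g a)) * k a ∂(cubeM m) := by
  set μ := cubeM m with hμ
  set gb : ℝ := ∫ a, g a ∂μ with hgb
  have ig : Integrable g μ := integrable_cubeM hg
  have hgb01 : gb ∈ Icc (0 : ℝ) 1 := by
    constructor
    · exact integral_nonneg fun a => (h01 a).1
    · have h1 : ∫ a, g a ∂μ ≤ ∫ _, (1 : ℝ) ∂μ :=
        integral_mono ig (integrable_const _) fun a => (h01 a).2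
      simpa using h1
  -- the inner integral
  have hD : ∀ a, g a * (1 - gb) + gb * (1 - g a) - 2 * (g a * (1 - g a)) ≤
      ∫ a', |g a - g a'| ∂μ := by
    intro a
    have h1 : ∫ a', (g a * (1 - g a') + g a' * (1 - g a) - 2 * (g a * (1 - g a))) ∂μ
        = g a * (1 - gb) + gb * (1 - g a) - 2 * (g a * (1 - g a)) := by
      have h2 : ∀ a', g a * (1 - g a') + g a' * (1 - g a) - 2 * (g a * (1 - g a))
          = (g a - 2 * (g a * (1 - g a))) + (1 - 2 * g a) * g a' := by
        intro a'
        ring
      simp only [h2]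
      rw [integral_add (integrable_const _) (ig.const_mul _), integral_const,
        integral_const_mul, ← hgb]
      simp only [probReal_univ, smul_eq_mul, one_mul]
      ring
    rw [← h1]
    apply integral_mono
    · exact integrable_cubeM (by fun_prop)
    · exact integrable_cubeM (by fun_prop)
    · intro a'
      exact D2c_pt (h01 a)
  have hprod : Integrable (fun z : (Fin m → ℝ) × (Fin m → ℝ) => |g z.1 - g z.2|) (μ.prod μ) := by
    apply Integrable.of_bound (C := 1)
    · exact (by fun_prop : Continuous fun z : (Fin m → ℝ) × (Fin m → ℝ) =>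
        |g z.1 - g z.2|).aestronglyMeasurable
    · apply ae_of_all
      intro z
      rw [Real.norm_eq_abs, abs_abs, abs_le]
      have h1 := h01 z.1
      have h2 := h01 z.2
      constructor <;> linarith [h1.1, h1.2, h2.1, h2.2]
  have iD : Integrable (fun a => ∫ a', |g a - g a'| ∂μ) μ := hprod.integral_prod_left
  have key : ∫ a, (g a * (1 - gb) + gb * (1 - g a) - 2 * (g a * (1 - g a))) * k a ∂μ ≤
      c * ∫ a, ∫ a', |g a - g a'| ∂μ ∂μ := by
    rw [← integral_const_mul]
    apply integral_mono_ae
    · exact integrable_cubeM (by fun_prop)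
    · exact iD.const_mul c
    · filter_upwards [cubeM_ae_mem m] with a ha
      have h1 := hk0 a ha
      have h2 : 0 ≤ ∫ a', |g a - g a'| ∂μ := integral_nonneg fun _ => abs_nonneg _
      calc (g a * (1 - gb) + gb * (1 - g a) - 2 * (g a * (1 - g a))) * k a
          ≤ (∫ a', |g a - g a'| ∂μ) * k a := mul_le_mul_of_nonneg_right (hD a) h1.1
        _ ≤ (∫ a', |g a - g a'| ∂μ) * c := mul_le_mul_of_nonneg_left h1.2 h2
        _ = _ := mul_comm _ _
  have hexp : ∫ a, (g a * (1 - gb) + gb * (1 - g a) - 2 * (g a * (1 - g a))) * k a ∂μ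
      = (1 - gb) * (∫ a, g a * k a ∂μ) + gb * ((∫ a, k a ∂μ) - ∫ a, g a * k a ∂μ)
        - 2 * ∫ a, (g a * (1 - g a)) * k a ∂μ := by
    have i1 : Integrable (fun a => g a * k a) μ := integrable_cubeM (by fun_prop)
    have i2 : Integrable k μ := integrable_cubeM hk
    have i3 : Integrable (fun a => (g a * (1 - g a)) * k a) μ := integrable_cubeM (by fun_prop)
    have h2 : ∀ a, (g a * (1 - gb) + gb * (1 - g a) - 2 * (g a * (1 - g a))) * k a
        = ((1 - 2 * gb) * (g a * k a) + gb * k a) - 2 * ((g a * (1 - g a)) * k a) := by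
      intro a
      ring
    simp only [h2]
    have i12 : Integrable (fun a => (1 - 2 * gb) * (g a * k a) + gb * k a) μ :=
      (i1.const_mul _).add (i2.const_mul _)
    rw [integral_sub i12 (i3.const_mul _),
      integral_add (i1.const_mul _) (i2.const_mul _), integral_const_mul, integral_const_mul,
      integral_const_mul]
    ring
  rw [hexp] at key
  set B := ∫ a, g a * k a ∂μ with hB
  set w := ∫ a, k a ∂μ with hw
  have h3 : min B (w - B) ≤ (1 - gb) * B + gb * (w - B) := by
    have h4 := min_le_left B (w - B)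
    have h5 := min_le_right B (w - B)
    have h6 := mul_le_mul_of_nonneg_left h4 (by linarith [hgb01.2] : (0 : ℝ) ≤ 1 - gb)
    have h7 := mul_le_mul_of_nonneg_left h5 hgb01.1
    linarith
  linarith

/-- D2c : transversal inequality on the slice `F = t` -/
theorem transverse (hq : q ∈ Ioc (0 : ℝ) (1 / 2)) (f : ℝ × (Fin m → ℝ) → ℝ) (hf : ContDiff ℝ 1 f)
    (h01 : ∀ p, f p ∈ Icc (0 : ℝ) 1) (T D ι : ℝ) (hD : 0 ≤ D) (hι : 0 ≤ ι)
    (hsupp : ∀ p, f p ≠ 0 → |P.theta q p.2| ≤ 2 * D ∧ |P.S q p.2 - (1 - Ac q)| ≤ 2 * ι)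
    (t : ℝ) (ht : |t| ≤ T) :
    P.w q t * min ((P.slice q fun p => f p * P.Gam q p.2) t / P.w q t)
        (1 - (P.slice q fun p => f p * P.Gam q p.2) t / P.w q t) ≤
      4 / Real.sqrt 3 * Real.exp ((T + 2 * D) ^ 2) *
          (P.slice q (fun p => 2 * delta q * P.perp q f p + 4 * ι * P.grad q f p) t) +
        4 * P.slice q (fun p => f p * (1 - f p)) t := by
  have cθ := P.theta_cont q
  have cΓ := P.Gam_cont q
  have hfc : Continuous f := hf.continuous
  have cν := nu0_cont
  set g : (Fin m → ℝ) → ℝ := fun a => f (t - P.theta q a, a) with hg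
  have cpt : Continuous (fun a : Fin m → ℝ => (t - P.theta q a, a)) := by fun_prop
  have cg : Continuous g := hfc.comp cpt
  set k : (Fin m → ℝ) → ℝ := fun a => P.Gam q a * nu0 (t - P.theta q a) with hk
  have ck : Continuous k := by
    apply cΓ.mul
    exact cν.comp (by fun_prop)
  have hg01 : ∀ a, g a ∈ Icc (0 : ℝ) 1 := fun a => h01 _
  have hk0 : ∀ a ∈ cube m, 0 ≤ k a ∧ k a ≤ 2 / Real.sqrt Real.pi := by
    intro a ha
    have h1 := Gam_bounds P q hq a ha
    have h2 := nu0_pos (t - P.theta q a)
    have h3 := nu0_le (t - P.theta q a)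
    constructor
    · exact mul_nonneg (by linarith [h1.1]) h2.le
    · calc P.Gam q a * nu0 (t - P.theta q a) ≤ 2 * (1 / Real.sqrt Real.pi) :=
            mul_le_mul h1.2 h3 h2.le (by norm_num)
        _ = _ := by ring
  have hsl : ∀ H : ℝ × (Fin m → ℝ) → ℝ, P.slice q H t =
      ∫ a, H (t - P.theta q a, a) * nu0 (t - P.theta q a) ∂(cubeM m) := fun H => rfl
  have hw : P.w q t = ∫ a, k a ∂(cubeM m) := rfl
  have hB : (P.slice q fun p => f p * P.Gam q p.2) t = ∫ a, g a * k a ∂(cubeM m) := by
    rw [hsl]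
    apply integral_congr_ae
    apply ae_of_all
    intro a
    simp only [hg, hk]
    ring
  have hw0 : 0 < P.w q t := by
    rw [hw]
    have h1 : ∫ a, nu0 (t - P.theta q a) ∂(cubeM m) ≤ ∫ a, k a ∂(cubeM m) := by
      apply integral_mono_ae
      · exact integrable_cubeM (cν.comp (by fun_prop))
      · exact integrable_cubeM ck
      · filter_upwards [cubeM_ae_mem m] with a ha
        have h2 := (Gam_bounds P q hq a ha).1
        have h3 := nu0_pos (t - P.theta q a)
        simp only [hk]
        nlinarith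
    refine lt_of_lt_of_le ?_ h1
    rw [integral_pos_iff_support_of_nonneg (fun a => nu0_nonneg _)
      (integrable_cubeM (cν.comp (by fun_prop)))]
    have h4 : Function.support (fun a => nu0 (t - P.theta q a)) = univ := by
      ext a
      simp [(nu0_pos _).ne']
    rw [h4]
    simp
  -- the left side
  have hmin : P.w q t * min ((P.slice q fun p => f p * P.Gam q p.2) t / P.w q t)
        (1 - (P.slice q fun p => f p * P.Gam q p.2) t / P.w q t)
      = min (∫ a, g a * k a ∂(cubeM m)) ((∫ a, k a ∂(cubeM m)) - ∫ a, g a * k a ∂(cubeM m)) := by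
    rw [mul_min_of_nonneg _ _ hw0.le, hB]
    congr 1
    · field_simp
    · rw [mul_sub, mul_one, ← hw]
      congr 1
      field_simp
  rw [hmin]
  have h1 := D2c_avg g k cg ck hg01 (2 / Real.sqrt Real.pi) (by positivity) hk0
  -- the second term
  have h2 : 2 * ∫ a, (g a * (1 - g a)) * k a ∂(cubeM m) ≤
      4 * P.slice q (fun p => f p * (1 - f p)) t := by
    rw [hsl]
    have h3 : ∫ a, (g a * (1 - g a)) * k a ∂(cubeM m) ≤
        ∫ a, 2 * ((g a * (1 - g a)) * nu0 (t - P.theta q a)) ∂(cubeM m) := by
      apply integral_mono_ae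
      · exact integrable_cubeM (by fun_prop)
      · apply integrable_cubeM
        have : Continuous (fun a => nu0 (t - P.theta q a)) := cν.comp (by fun_prop)
        fun_prop
      · filter_upwards [cubeM_ae_mem m] with a ha
        have h4 := (Gam_bounds P q hq a ha).2
        have h5 := nu0_pos (t - P.theta q a)
        have h6 : 0 ≤ g a * (1 - g a) :=
          mul_nonneg (hg01 a).1 (by linarith [(hg01 a).2])
        simp only [hk]
        calc g a * (1 - g a) * (P.Gam q a * nu0 (t - P.theta q a))
            = P.Gam q a * ((g a * (1 - g a)) * nu0 (t - P.theta q a)) := by ring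
          _ ≤ 2 * ((g a * (1 - g a)) * nu0 (t - P.theta q a)) :=
              mul_le_mul_of_nonneg_right h4 (mul_nonneg h6 h5.le)
    rw [integral_const_mul] at h3
    have h7 : ∫ a, (g a * (1 - g a)) * nu0 (t - P.theta q a) ∂(cubeM m)
        = ∫ a, (fun p => f p * (1 - f p)) (t - P.theta q a, a) * nu0 (t - P.theta q a)
            ∂(cubeM m) := rfl
    rw [← h7]
    linarith
  -- the first term
  have hgd : ContDiff ℝ 1 g := hf.comp ((contDiff_const.sub (P.theta_contDiff q)).prodMk contDiff_id)
  have h3 := cube_poincare g hgd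
  set E : ℝ := Real.exp ((T + 2 * D) ^ 2) with hE
  have hpi : 0 < Real.sqrt Real.pi := Real.sqrt_pos.mpr Real.pi_pos
  have cperp := P.perp_cont q hq hf
  have cgrad := P.grad_cont q hf
  obtain ⟨-, -, -, hδ0, hδ1⟩ := delta_bounds q hq
  obtain ⟨hA0, hA1⟩ := Ac_bounds q hq
  have hpt : ∀ a ∈ cube m, Real.sqrt (∑ i, (fderiv ℝ g a (Pi.single i 1)) ^ 2) ≤
      (Real.sqrt Real.pi * E) * ((2 * delta q * P.perp q f (t - P.theta q a, a) +
        4 * ι * P.grad q f (t - P.theta q a, a)) * nu0 (t - P.theta q a)) := by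
    intro a ha
    have hp := P.perp_nonneg q f (t - P.theta q a, a)
    have hgr := P.grad_nonneg q f (t - P.theta q a, a)
    have hν := nu0_pos (t - P.theta q a)
    by_cases h0 : g a = 0
    · have h4 : fderiv ℝ g a = 0 := by
        apply IsLocalMin.fderiv_eq_zero
        apply Filter.Eventually.of_forall
        intro b
        show g a ≤ g b
        rw [h0]
        exact (hg01 b).1
      rw [h4]
      simp only [ContinuousLinearMap.zero_apply, ne_eq, OfNat.ofNat_ne_zero, not_false_eq_true,
        zero_pow, Finset.sum_const_zero, Real.sqrt_zero]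
      positivity
    · obtain ⟨hθ, hS⟩ := hsupp _ h0
      simp only at hθ hS
      have h4 := tangential P q hq f hf t a ha
      have hx : |t - P.theta q a| ≤ T + 2 * D := by
        have := abs_sub t (P.theta q a)
        linarith
      have h5 : 1 ≤ (Real.sqrt Real.pi * E) * nu0 (t - P.theta q a) := by
        unfold nu0
        rw [hE]
        have h6 : Real.sqrt Real.pi * Real.exp ((T + 2 * D) ^ 2) *
            (Real.exp (-(t - P.theta q a) ^ 2) / Real.sqrt Real.pi)
            = Real.exp ((T + 2 * D) ^ 2 + -(t - P.theta q a) ^ 2) := by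
          rw [Real.exp_add]
          field_simp
        rw [h6, ← Real.exp_zero]
        apply Real.exp_le_exp.mpr
        have h7 : (t - P.theta q a) ^ 2 ≤ (T + 2 * D) ^ 2 := by
          rw [← sq_abs (t - P.theta q a)]
          exact pow_le_pow_left₀ (abs_nonneg _) hx 2
        linarith
      have h8 : 2 * delta q ^ 2 * (|P.S q a - (1 - Ac q)| / Ac q) ≤ 4 * ι := by
        have h9 : |P.S q a - (1 - Ac q)| / Ac q ≤ 2 * ι / (9 / 10) :=
          div_le_div₀ (by positivity) hS (by norm_num) hA0
        have h10 : delta q ^ 2 ≤ 1 := by nlinarith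
        calc 2 * delta q ^ 2 * (|P.S q a - (1 - Ac q)| / Ac q)
            ≤ 2 * delta q ^ 2 * (2 * ι / (9 / 10)) :=
              mul_le_mul_of_nonneg_left h9 (by positivity)
          _ ≤ 4 * ι := by
              have h11 : delta q ^ 2 ≤ 4 / 25 := by nlinarith
              nlinarith
      have h12 : 2 * delta q * P.perp q f (t - P.theta q a, a) +
          2 * delta q ^ 2 * (|P.S q a - (1 - Ac q)| / Ac q) * P.grad q f (t - P.theta q a, a)
          ≤ 2 * delta q * P.perp q f (t - P.theta q a, a) +
            4 * ι * P.grad q f (t - P.theta q a, a) := by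
        have := mul_le_mul_of_nonneg_right h8 hgr
        linarith
      set R := 2 * delta q * P.perp q f (t - P.theta q a, a) +
            4 * ι * P.grad q f (t - P.theta q a, a) with hR
      have hR0 : 0 ≤ R := by positivity
      calc Real.sqrt (∑ i, (fderiv ℝ g a (Pi.single i 1)) ^ 2) ≤ R := h4.trans h12
        _ = R * 1 := (mul_one _).symm
        _ ≤ R * ((Real.sqrt Real.pi * E) * nu0 (t - P.theta q a)) :=
            mul_le_mul_of_nonneg_left h5 hR0
        _ = _ := by ring
  have h4 : ∫ a, Real.sqrt (∑ i, (fderiv ℝ g a (Pi.single i 1)) ^ 2) ∂(cubeM m) ≤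
      (Real.sqrt Real.pi * E) *
        P.slice q (fun p => 2 * delta q * P.perp q f p + 4 * ι * P.grad q f p) t := by
    rw [hsl, ← integral_const_mul]
    apply integral_mono_ae
    · apply integrable_cubeM
      apply Continuous.sqrt
      apply continuous_finset_sum
      intro i _
      exact ((hgd.continuous_fderiv (by norm_num)).clm_apply continuous_const).pow 2
    · apply integrable_cubeM
      have e1 : Continuous (fun a => nu0 (t - P.theta q a)) := cν.comp (by fun_prop)
      have e2 : Continuous (fun a => P.perp q f (t - P.theta q a, a)) := cperp.comp cpt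
      have e3 : Continuous (fun a => P.grad q f (t - P.theta q a, a)) := cgrad.comp cpt
      fun_prop
    · filter_upwards [cubeM_ae_mem m] with a ha
      exact hpt a ha
  set J := P.slice q (fun p => 2 * delta q * P.perp q f p + 4 * ι * P.grad q f p) t with hJ
  have h5 : 2 / Real.sqrt Real.pi * ∫ a, ∫ a', |g a - g a'| ∂(cubeM m) ∂(cubeM m) ≤
      4 / Real.sqrt 3 * E * J := by
    have h3' : 0 < Real.sqrt 3 := Real.sqrt_pos.mpr (by norm_num)
    calc 2 / Real.sqrt Real.pi * ∫ a, ∫ a', |g a - g a'| ∂(cubeM m) ∂(cubeM m)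
        ≤ 2 / Real.sqrt Real.pi * (2 / Real.sqrt 3 * ((Real.sqrt Real.pi * E) * J)) := by
          apply mul_le_mul_of_nonneg_left _ (by positivity)
          exact h3.trans (mul_le_mul_of_nonneg_left h4 (by positivity))
      _ = 4 / Real.sqrt 3 * E * J := by
          field_simp
          ring
  linarith

end IsoHull
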