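import Pool.Agent.IsoHull27.D3a

/-!
# IsoHull27 D3b: the cutoff functions
-/

open MeasureTheory Set Filter Topology
open scoped ENNReal NNReal

namespace IsoHull

/-! ### The bump function -/

/-- a smooth function, `1` on `[-1,1]` and `0` outside `(-√2,√2)` -/
noncomputable def D3b_eta (z : ℝ) : ℝ := Real.smoothTransition (2 - z ^ 2)

theorem D3b_eta_contDiff : ContDiff ℝ 1 D3b_eta := by
  unfold D3b_eta
  exact Real.smoothTransition.contDiff.comp (by fun_prop)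

theorem D3b_eta_nonneg (z : ℝ) : 0 ≤ D3b_eta z := Real.smoothTransition.nonneg _

theorem D3b_eta_le_one (z : ℝ) : D3b_eta z ≤ 1 := Real.smoothTransition.le_one _

theorem D3b_eta_one {z : ℝ} (h : |z| ≤ 1) : D3b_eta z = 1 := by
  apply Real.smoothTransition.one_of_one_le
  have : z ^ 2 ≤ 1 := by
    rw [← sq_abs]
    exact pow_le_one₀ (abs_nonneg z) h
  linarith

theorem D3b_eta_ne {z : ℝ} (h : D3b_eta z ≠ 0) : z ^ 2 < 2 := by
  by_contra hcon
  push Not at hcon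
  exact h (Real.smoothTransition.zero_of_nonpos (by linarith))

theorem D3b_eta_ne' {z : ℝ} (h : D3b_eta z ≠ 0) : |z| < 2 := by
  have := D3b_eta_ne h
  have h2 : |z| ^ 2 < 2 ^ 2 := by rw [sq_abs]; linarith
  exact lt_of_pow_lt_pow_left₀ 2 (by norm_num) h2

theorem D3b_one_sub_eta (z : ℝ) : 1 - D3b_eta z ≤ z ^ 2 := by
  by_cases h : |z| ≤ 1
  · rw [D3b_eta_one h]; nlinarith [sq_nonneg z]
  · push Not at h
    have := D3b_eta_nonneg z
    have h2 : 1 ≤ z ^ 2 := by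
      rw [← sq_abs]
      exact one_le_pow₀ h.le
    linarith

theorem D3b_deriv_zero {z : ℝ} (h : |z| ≤ 1) : deriv D3b_eta z = 0 := by
  have : IsLocalMax D3b_eta z := by
    refine Filter.Eventually.of_forall fun y => ?_
    rw [D3b_eta_one h]
    exact D3b_eta_le_one y
  exact this.deriv_eq_zero

theorem D3b_deriv_bound : ∃ L : ℝ, 0 < L ∧ ∀ z, |deriv D3b_eta z| ≤ L := by
  have hc : HasCompactSupport D3b_eta := by
    refine HasCompactSupport.intro (isCompact_Icc (a := (-2 : ℝ)) (b := 2)) ?_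
    intro z hz
    by_contra hne
    have := D3b_eta_ne' hne
    rw [abs_lt] at this
    exact hz ⟨this.1.le, this.2.le⟩
  have h1 : Continuous (deriv D3b_eta) := D3b_eta_contDiff.continuous_deriv (le_refl _)
  obtain ⟨C, hC⟩ := h1.bounded_above_of_compact_support hc.deriv
  refine ⟨max C 1, lt_of_lt_of_le one_pos (le_max_right _ _), fun z => ?_⟩
  have := hC z
  rw [Real.norm_eq_abs] at this
  exact this.trans (le_max_left _ _)

/-! ### Calculus of the gradient -/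

section D3bCalculus

variable {m : ℕ} (P : Par m) (q : ℝ)

/-- the gradient as a vector -/
noncomputable def D3b_gv (f : ℝ × (Fin m → ℝ) → ℝ) (p : ℝ × (Fin m → ℝ)) :
    EuclideanSpace ℝ (Option (Fin m)) :=
  WithLp.toLp 2 fun o => o.elim (P.D0 f p) fun i => P.Dj q f i p

theorem D3b_grad_eq (f : ℝ × (Fin m → ℝ) → ℝ) (p : ℝ × (Fin m → ℝ)) :
    P.grad q f p = ‖D3b_gv P q f p‖ := by
  rw [EuclideanSpace.norm_eq, Fintype.sum_option]
  simp [D3b_gv, Par.grad]

theorem D3b_grad_mul_le {f g : ℝ × (Fin m → ℝ) → ℝ} {p : ℝ × (Fin m → ℝ)}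
    (hf : DifferentiableAt ℝ f p) (hg : DifferentiableAt ℝ g p) :
    P.grad q (fun x => f x * g x) p ≤ |f p| * P.grad q g p + |g p| * P.grad q f p := by
  have h1 : fderiv ℝ (fun x => f x * g x) p = f p • fderiv ℝ g p + g p • fderiv ℝ f p :=
    (hf.hasFDerivAt.mul hg.hasFDerivAt).fderiv
  have h2 : D3b_gv P q (fun x => f x * g x) p = f p • D3b_gv P q g p + g p • D3b_gv P q f p := by
    ext o
    rcases o with _ | i
    · simp [D3b_gv, Par.D0, h1]
    · simp [D3b_gv, Par.Dj, h1]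
      ring
  rw [D3b_grad_eq, D3b_grad_eq, D3b_grad_eq, h2]
  refine (norm_add_le _ _).trans ?_
  rw [norm_smul, norm_smul, Real.norm_eq_abs, Real.norm_eq_abs]

theorem D3b_grad_comp {η : ℝ → ℝ} {u : ℝ × (Fin m → ℝ) → ℝ} {p : ℝ × (Fin m → ℝ)}
    (hη : DifferentiableAt ℝ η (u p)) (hu : DifferentiableAt ℝ u p) :
    P.grad q (fun x => η (u x)) p = |deriv η (u p)| * P.grad q u p := by
  have h1 : fderiv ℝ (fun x => η (u x)) p = deriv η (u p) • fderiv ℝ u p :=
    (hη.hasDerivAt.comp_hasFDerivAt p hu.hasFDerivAt).fderiv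
  have h2 : D3b_gv P q (fun x => η (u x)) p = deriv η (u p) • D3b_gv P q u p := by
    ext o
    rcases o with _ | i
    · simp [D3b_gv, Par.D0, h1]
    · simp [D3b_gv, Par.Dj, h1]
      ring
  rw [D3b_grad_eq, D3b_grad_eq, h2, norm_smul, Real.norm_eq_abs]

theorem D3b_grad_fst (c : ℝ) (p : ℝ × (Fin m → ℝ)) :
    P.grad q (fun x => c * x.1) p = |c| := by
  have h1 : fderiv ℝ (fun x : ℝ × (Fin m → ℝ) => c * x.1) p =
      c • ContinuousLinearMap.fst ℝ ℝ (Fin m → ℝ) := by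
    have := (ContinuousLinearMap.fst ℝ ℝ (Fin m → ℝ)).hasFDerivAt (x := p)
    exact (this.const_mul c).fderiv
  have h2 : P.D0 (fun x => c * x.1) p = c := by simp [Par.D0, h1]
  have h3 : ∀ i, P.Dj q (fun x => c * x.1) i p = 0 := by
    intro i
    simp [Par.Dj, h1]
  unfold Par.grad
  simp only [h2, h3]
  simp [Real.sqrt_sq_eq_abs]

/-- the gradient of a sum of functions of one coordinate -/
theorem D3b_grad_sum (hδ : 0 < delta q) (h h' : Fin m → ℝ → ℝ)
    (hh : ∀ i a, HasDerivAt (h i) (h' i a) a) (c d B : ℝ) (hB : 0 ≤ B) (p : ℝ × (Fin m → ℝ))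
    (hp : p.2 ∈ cube m) (hb : ∀ i, |c * h' i (p.2 i)| ≤ B) :
    P.grad q (fun x => c * ((∑ i, h i (x.2 i)) - d)) p ≤ 2 * P.r * B * (1 + 1 / delta q) := by
  have h1 : HasFDerivAt (fun x : ℝ × (Fin m → ℝ) => c * ((∑ i, h i (x.2 i)) - d))
      (c • ∑ i, h' i (p.2 i) • ((ContinuousLinearMap.proj (R := ℝ) (φ := fun _ : Fin m => ℝ) i).comp
        (ContinuousLinearMap.snd ℝ ℝ (Fin m → ℝ)))) p := by
    refine HasFDerivAt.const_mul ?_ c
    refine HasFDerivAt.sub_const d ?_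
    refine HasFDerivAt.fun_sum fun i _ => ?_
    exact (hh i (p.2 i)).comp_hasFDerivAt p
      ((ContinuousLinearMap.proj (R := ℝ) (φ := fun _ : Fin m => ℝ) i).comp
        (ContinuousLinearMap.snd ℝ ℝ (Fin m → ℝ))).hasFDerivAt
  have hr := P.r_pos
  have h2 : P.D0 (fun x => c * ((∑ i, h i (x.2 i)) - d)) p =
      ∑ i, c * h' i (p.2 i) * (-(P.σ i * p.2 i) / P.r) := by
    unfold Par.D0
    rw [h1.fderiv]
    simp [Finset.mul_sum, mul_assoc]
  have h3 : ∀ i, P.Dj q (fun x => c * ((∑ i, h i (x.2 i)) - d)) i p =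
      c * h' i (p.2 i) / delta q := by
    intro i
    unfold Par.Dj
    rw [h1.fderiv]
    simp [Pi.single_apply]
  have hm : (m : ℝ) = 2 * P.r ^ 2 := P.hm
  have h4 : |P.D0 (fun x => c * ((∑ i, h i (x.2 i)) - d)) p| ≤ 2 * P.r * B := by
    rw [h2]
    refine (Finset.abs_sum_le_sum_abs _ _).trans ?_
    have : ∀ i ∈ (Finset.univ : Finset (Fin m)),
        |c * h' i (p.2 i) * (-(P.σ i * p.2 i) / P.r)| ≤ B / P.r := by
      intro i _
      rw [abs_mul (c * h' i (p.2 i)), abs_div, abs_neg, abs_mul (P.σ i), abs_of_pos hr]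
      have hσ : |P.σ i| = 1 := by
        rcases P.hσ i with h | h <;> rw [h] <;> norm_num
      have ha : |p.2 i| ≤ 1 := abs_le.mpr (hp i)
      rw [hσ, one_mul, div_eq_mul_inv, div_eq_mul_inv, ← mul_assoc]
      refine mul_le_mul_of_nonneg_right ?_ (inv_nonneg.mpr hr.le)
      calc |c * h' i (p.2 i)| * |p.2 i| ≤ B * 1 :=
            mul_le_mul (hb i) ha (abs_nonneg _) hB
        _ = B := mul_one B
    refine (Finset.sum_le_sum this).trans ?_
    rw [Finset.sum_const, Finset.card_univ, Fintype.card_fin, nsmul_eq_mul, hm]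
    have : 2 * P.r ^ 2 * (B / P.r) = 2 * P.r * B := by
      field_simp
    rw [this]
  have h5 : ∑ i, P.Dj q (fun x => c * ((∑ i, h i (x.2 i)) - d)) i p ^ 2 ≤
      (2 * P.r * B / delta q) ^ 2 := by
    have : ∀ i ∈ (Finset.univ : Finset (Fin m)),
        P.Dj q (fun x => c * ((∑ i, h i (x.2 i)) - d)) i p ^ 2 ≤ (B / delta q) ^ 2 := by
      intro i _
      rw [h3 i, ← sq_abs, abs_div, abs_of_pos hδ]
      refine pow_le_pow_left₀ (by positivity) ?_ 2
      exact div_le_div_of_nonneg_right (hb i) hδ.le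
    refine (Finset.sum_le_sum this).trans ?_
    rw [Finset.sum_const, Finset.card_univ, Fintype.card_fin, nsmul_eq_mul, hm, div_pow, div_pow,
      ← mul_div_assoc]
    refine div_le_div_of_nonneg_right ?_ (by positivity)
    nlinarith [sq_nonneg (P.r * B)]
  unfold Par.grad
  rw [show 2 * P.r * B * (1 + 1 / delta q) = 2 * P.r * B + 2 * P.r * B / delta q by ring]
  have h6 : 0 ≤ 2 * P.r * B := by positivity
  have h7 : 0 ≤ 2 * P.r * B / delta q := by positivity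
  refine Real.sqrt_le_iff.mpr ⟨by positivity, ?_⟩
  have h8 : P.D0 (fun x => c * ((∑ i, h i (x.2 i)) - d)) p ^ 2 ≤ (2 * P.r * B) ^ 2 := by
    rw [← sq_abs]
    exact pow_le_pow_left₀ (abs_nonneg _) h4 2
  nlinarith [mul_nonneg h6 h7]

end D3bCalculus


section D3bBounds

variable {m : ℕ} (P : Par m) (q : ℝ)

theorem D3b_delta_inv (hq : q ∈ Ioc (0 : ℝ) (1 / 2)) : q / delta q ≤ 2 := by
  obtain ⟨h1, _, _, h4, _⟩ := delta_bounds q hq
  rw [div_le_iff₀ h4]
  linarith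

theorem D3b_grad_theta (hq : q ∈ Ioc (0 : ℝ) (1 / 2)) (D : ℝ) (hD : 1 ≤ D)
    (p : ℝ × (Fin m → ℝ)) (hp : p.2 ∈ cube m) :
    P.grad q (fun x => P.theta q x.2 / D) p ≤ 2 := by
  obtain ⟨h1, h2, h3, h4, h5⟩ := delta_bounds q hq
  have hr := P.r_pos
  have hDpos : 0 < D := by linarith
  have e : (fun x : ℝ × (Fin m → ℝ) => P.theta q x.2 / D) =
      fun x => (1 / (P.r * D)) * ((∑ i, (fun a => P.σ i * cf q a) (x.2 i)) - 0) := by
    funext x
    unfold Par.theta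
    field_simp
    ring
  rw [e]
  refine (D3b_grad_sum P q h4 (fun i a => P.σ i * cf q a) (fun i a => P.σ i * cd q a)
    (fun i a => (cf_hasDeriv q a).const_mul _) _ _ (delta q ^ 2 / P.r) (by positivity) p hp
    ?_).trans ?_
  · intro i
    have hσ : |P.σ i| = 1 := by
      rcases P.hσ i with h | h <;> rw [h] <;> norm_num
    have hcd := (cd_bounds q hq (p.2 i) (hp i)).2.1
    rw [abs_mul, abs_mul, hσ, one_mul, abs_of_pos (by positivity), one_div, mul_inv, mul_assoc,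
      div_eq_mul_inv, mul_comm (delta q ^ 2)]
    refine mul_le_mul_of_nonneg_left ?_ (by positivity)
    have hDinv : D⁻¹ ≤ 1 := inv_le_one_of_one_le₀ hD
    calc D⁻¹ * |cd q (p.2 i)| ≤ 1 * delta q ^ 2 :=
          mul_le_mul hDinv hcd (abs_nonneg _) zero_le_one
      _ = delta q ^ 2 := one_mul _
  · have : 2 * P.r * (delta q ^ 2 / P.r) * (1 + 1 / delta q) = 2 * delta q ^ 2 + 2 * delta q := by
      field_simp
    rw [this]
    nlinarith

theorem D3b_grad_Q (hq : q ∈ Ioc (0 : ℝ) (1 / 2)) (c d : ℝ) (hc : 0 ≤ c)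
    (p : ℝ × (Fin m → ℝ)) (hp : p.2 ∈ cube m) :
    P.grad q (fun x => c * (P.Q q x.2 - d)) p ≤ c * (5 / P.r) := by
  obtain ⟨h1, h2, h3, h4, h5⟩ := delta_bounds q hq
  have hr := P.r_pos
  have e : (fun x : ℝ × (Fin m → ℝ) => c * (P.Q q x.2 - d)) =
      fun x => (c / P.r ^ 2) * ((∑ i, (fun a => Real.sin (q * a) ^ 2) (x.2 i)) - d * P.r ^ 2) := by
    funext x
    unfold Par.Q
    field_simp
  rw [e]
  have hder : ∀ (i : Fin m) a, HasDerivAt (fun a => Real.sin (q * a) ^ 2)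
      (2 * Real.sin (q * a) * (Real.cos (q * a) * q)) a := by
    intro i a
    have h0 : HasDerivAt (fun a => Real.sin (q * a)) (Real.cos (q * a) * q) a := by
      have := (((hasDerivAt_id a).const_mul q)).sin
      simpa using this
    have h := h0.fun_pow 2
    simpa using h
  refine (D3b_grad_sum P q h4 (fun _ a => Real.sin (q * a) ^ 2)
    (fun _ a => 2 * Real.sin (q * a) * (Real.cos (q * a) * q)) hder _ _ (c * q / P.r ^ 2)
    (by have := hq.1; positivity) p hp ?_).trans ?_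
  · intro i
    have h6 : |2 * Real.sin (q * p.2 i) * (Real.cos (q * p.2 i) * q)| ≤ q := by
      have : 2 * Real.sin (q * p.2 i) * (Real.cos (q * p.2 i) * q) =
          q * Real.sin (2 * (q * p.2 i)) := by rw [Real.sin_two_mul]; ring
      rw [this, abs_mul, abs_of_pos hq.1]
      exact mul_le_of_le_one_right hq.1.le (Real.abs_sin_le_one _)
    rw [abs_mul, abs_of_nonneg (by positivity : 0 ≤ c / P.r ^ 2)]
    calc c / P.r ^ 2 * |2 * Real.sin (q * p.2 i) * (Real.cos (q * p.2 i) * q)| ≤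
          c / P.r ^ 2 * q := mul_le_mul_of_nonneg_left h6 (by positivity)
      _ = c * q / P.r ^ 2 := by ring
  · have e2 : 2 * P.r * (c * q / P.r ^ 2) * (1 + 1 / delta q) =
        c * ((2 * q + 2 * (q / delta q)) / P.r) := by
      field_simp
    rw [e2]
    refine mul_le_mul_of_nonneg_left ?_ hc
    refine div_le_div_of_nonneg_right ?_ hr.le
    have := D3b_delta_inv q hq
    have := hq.2
    linarith

theorem D3b_grad_S (hq : q ∈ Ioc (0 : ℝ) (1 / 2)) (c d : ℝ) (hc : 0 ≤ c)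
    (p : ℝ × (Fin m → ℝ)) (hp : p.2 ∈ cube m) :
    P.grad q (fun x => c * (P.S q x.2 - d)) p ≤ c * (4 / P.r) := by
  obtain ⟨h1, h2, h3, h4, h5⟩ := delta_bounds q hq
  have hr := P.r_pos
  have hsin : q / 2 ≤ Real.sin q := by
    have h6 := Real.mul_le_sin hq.1.le (by have := hq.2; have := Real.pi_gt_three; linarith)
    have h7 : 1 / 2 * q ≤ 2 / Real.pi * q := by
      refine mul_le_mul_of_nonneg_right ?_ hq.1.le
      rw [div_le_div_iff₀ (by norm_num) Real.pi_pos]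
      have := Real.pi_le_four
      linarith
    linarith
  have hsin0 : 0 < Real.sin q := by have := hq.1; linarith
  have e : (fun x : ℝ × (Fin m → ℝ) => c * (P.S q x.2 - d)) =
      fun x => (c / P.r ^ 2) * ((∑ i, (fun a => a * cd q a) (x.2 i)) - d * P.r ^ 2) := by
    funext x
    unfold Par.S
    field_simp
  rw [e]
  have hder : ∀ (i : Fin m) a, HasDerivAt (fun a => a * cd q a)
      (1 * cd q a + a * ((q ^ 2 / (2 * Real.sin q)) * (Real.cos (q * a) * q))) a := by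
    intro i a
    have h : HasDerivAt (cd q) ((q ^ 2 / (2 * Real.sin q)) * (Real.cos (q * a) * q)) a := by
      have h0 : HasDerivAt (fun a => Real.sin (q * a)) (Real.cos (q * a) * q) a := by
        have := (((hasDerivAt_id a).const_mul q)).sin
        simpa using this
      exact h0.const_mul (q ^ 2 / (2 * Real.sin q))
    exact (hasDerivAt_id a).mul h
  refine (D3b_grad_sum P q h4 (fun _ a => a * cd q a)
    (fun _ a => 1 * cd q a + a * ((q ^ 2 / (2 * Real.sin q)) * (Real.cos (q * a) * q))) hder _ _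
    (c * (3 * delta q ^ 2) / P.r ^ 2) (by positivity) p hp ?_).trans ?_
  · intro i
    have hcd := (cd_bounds q hq (p.2 i) (hp i)).2.1
    have ha : |p.2 i| ≤ 1 := abs_le.mpr (hp i)
    have h6 : |(q ^ 2 / (2 * Real.sin q)) * (Real.cos (q * p.2 i) * q)| ≤ q ^ 2 := by
      rw [abs_mul, abs_mul, abs_of_pos hq.1,
        abs_of_nonneg (by positivity : 0 ≤ q ^ 2 / (2 * Real.sin q))]
      have h7 : |Real.cos (q * p.2 i)| * q ≤ q :=
        mul_le_of_le_one_left hq.1.le (Real.abs_cos_le_one _)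
      calc q ^ 2 / (2 * Real.sin q) * (|Real.cos (q * p.2 i)| * q) ≤
            q ^ 2 / (2 * Real.sin q) * q := mul_le_mul_of_nonneg_left h7 (by positivity)
        _ = q ^ 2 * (q / (2 * Real.sin q)) := by ring
        _ ≤ q ^ 2 * 1 := by
            refine mul_le_mul_of_nonneg_left ?_ (sq_nonneg q)
            rw [div_le_one (by positivity)]
            linarith
        _ = q ^ 2 := mul_one _
    have h8 : |1 * cd q (p.2 i) + p.2 i * ((q ^ 2 / (2 * Real.sin q)) *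
        (Real.cos (q * p.2 i) * q))| ≤ 3 * delta q ^ 2 := by
      refine (abs_add_le _ _).trans ?_
      rw [one_mul, abs_mul (p.2 i)]
      have h9 : |p.2 i| * |(q ^ 2 / (2 * Real.sin q)) * (Real.cos (q * p.2 i) * q)| ≤
          1 * q ^ 2 := mul_le_mul ha h6 (abs_nonneg _) zero_le_one
      linarith
    rw [abs_mul, abs_of_nonneg (by positivity : 0 ≤ c / P.r ^ 2)]
    calc c / P.r ^ 2 * |1 * cd q (p.2 i) + p.2 i * ((q ^ 2 / (2 * Real.sin q)) *
          (Real.cos (q * p.2 i) * q))| ≤ c / P.r ^ 2 * (3 * delta q ^ 2) :=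
          mul_le_mul_of_nonneg_left h8 (by positivity)
      _ = c * (3 * delta q ^ 2) / P.r ^ 2 := by ring
  · have e2 : 2 * P.r * (c * (3 * delta q ^ 2) / P.r ^ 2) * (1 + 1 / delta q) =
        c * ((6 * delta q ^ 2 + 6 * delta q) / P.r) := by
      field_simp
      ring
    rw [e2]
    refine mul_le_mul_of_nonneg_left ?_ hc
    refine div_le_div_of_nonneg_right ?_ hr.le
    nlinarith

end D3bBounds

/-! ### Integrals -/

theorem D3b_integral_snd {m : ℕ} {g : (Fin m → ℝ) → ℝ} (hg : Measurable g) :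
    ∫ p, g p.2 ∂(mu m) = ∫ a, g a ∂(cubeM m) := by
  have h := (measurePreserving_snd (μ := nuM) (ν := cubeM m))
  have h2 : ∫ a, g a ∂(Measure.map Prod.snd (nuM.prod (cubeM m))) =
      ∫ p, g p.2 ∂(nuM.prod (cubeM m)) :=
    integral_map h.measurable.aemeasurable hg.aestronglyMeasurable
  rw [h.map_eq] at h2
  exact h2.symm

theorem D3b_integral_fst {m : ℕ} {g : ℝ → ℝ} (hg : Measurable g) :
    ∫ p, g p.1 ∂(mu m) = ∫ x, g x ∂nuM := by
  have h := (measurePreserving_fst (μ := nuM) (ν := cubeM m))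
  have h2 : ∫ a, g a ∂(Measure.map Prod.fst (nuM.prod (cubeM m))) =
      ∫ p, g p.1 ∂(nuM.prod (cubeM m)) :=
    integral_map h.measurable.aemeasurable hg.aestronglyMeasurable
  rw [h.map_eq] at h2
  exact h2.symm

theorem D3b_integrable_snd {m : ℕ} {g : (Fin m → ℝ) → ℝ} (hg : Continuous g) :
    Integrable (fun p => g p.2) (mu m) := by
  have h := (measurePreserving_snd (μ := nuM) (ν := cubeM m))
  exact h.integrable_comp_of_integrable (integrable_cubeM hg)

theorem D3b_integrable_sq : Integrable (fun x : ℝ => x ^ 2) nuM := by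
  unfold nuM
  rw [integrable_withDensity_iff (by unfold nu0; fun_prop) (by simp)]
  have h := integrable_rpow_mul_exp_neg_mul_sq (b := 1) one_pos (s := 2) (by norm_num)
  refine (h.div_const (Real.sqrt Real.pi)).congr (ae_of_all _ fun x => ?_)
  simp only [ENNReal.toReal_ofReal (nu0_nonneg x)]
  rw [Real.rpow_two]
  simp [nu0]
  ring

theorem D3b_integrable_fst {m : ℕ} {g : ℝ → ℝ} (hg : Integrable g nuM) :
    Integrable (fun p : ℝ × (Fin m → ℝ) => g p.1) (mu m) := by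
  have h := (measurePreserving_fst (μ := nuM) (ν := cubeM m))
  exact h.integrable_comp_of_integrable hg

theorem D3b_prod_bound {a b c d : ℝ} (ha : a ∈ Icc (0 : ℝ) 1) (hb : b ∈ Icc (0 : ℝ) 1)
    (hc : c ∈ Icc (0 : ℝ) 1) (hd : d ∈ Icc (0 : ℝ) 1) :
    1 - a * b * c * d ≤ (1 - a) + (1 - b) + (1 - c) + (1 - d) := by
  have h1 : 1 - a * b ≤ (1 - a) + (1 - b) := by
    nlinarith [mul_nonneg (sub_nonneg.2 ha.2) (sub_nonneg.2 hb.2)]
  have h2 : a * b ∈ Icc (0 : ℝ) 1 := ⟨mul_nonneg ha.1 hb.1, mul_le_one₀ ha.2 hb.1 hb.2⟩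
  have h3 : 1 - a * b * c ≤ (1 - a * b) + (1 - c) := by
    nlinarith [mul_nonneg (sub_nonneg.2 h2.2) (sub_nonneg.2 hc.2)]
  have h4 : a * b * c ∈ Icc (0 : ℝ) 1 := ⟨mul_nonneg h2.1 hc.1, mul_le_one₀ h2.2 hc.1 hc.2⟩
  have h5 : 1 - a * b * c * d ≤ (1 - a * b * c) + (1 - d) := by
    nlinarith [mul_nonneg (sub_nonneg.2 h4.2) (sub_nonneg.2 hd.2)]
  linarith



theorem D3b_core {m : ℕ} (P : Par m) (q : ℝ) (hq : q ∈ Ioc (0 : ℝ) (1 / 2)) (D : ℝ) (hD : 1 ≤ D)
    (M : ℝ) (hM : 1 ≤ M) (hr : P.r = M ^ 4) (L : ℝ) (hL0 : 0 < L)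
    (hL : ∀ z, |deriv D3b_eta z| ≤ L) :
    ∃ χ : ℝ × (Fin m → ℝ) → ℝ, ContDiff ℝ 1 χ ∧
      (∀ p, χ p ∈ Icc (0 : ℝ) 1) ∧
      (∀ p, χ p ≠ 0 → |p.1| < M ∧ |P.theta q p.2| ≤ 2 * D ∧
        |P.Q q p.2 - (1 - Real.sin (2 * q) / (2 * q))| ≤ 2 * (1 / M ^ 2) ∧
        |P.S q p.2 - (1 - Ac q)| ≤ 2 * (1 / M ^ 2)) ∧
      ∫ p, (1 - χ p) ∂(mu m) ≤ 2 * Real.exp (-(9 * D ^ 2 / q ^ 4)) +
        (4 * (∫ x, x ^ 2 ∂nuM) + 4) / M ∧
      Integrable (P.grad q χ) (mu m) ∧
      ∫ p, P.grad q χ p ∂(mu m) ≤ 4 * L * Real.exp (-(9 * D ^ 2 / q ^ 4)) + 11 * L / M := by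
  have hDpos : 0 < D := by linarith
  have hMpos : 0 < M := by linarith
  have hM2 : 1 / M ^ 2 ≤ 1 / M := by
    refine one_div_le_one_div_of_le hMpos ?_
    nlinarith
  have hM4 : 1 / M ^ 4 ≤ 1 / M := by
    refine one_div_le_one_div_of_le hMpos ?_
    calc M = M ^ 1 := (pow_one _).symm
      _ ≤ M ^ 4 := pow_le_pow_right₀ hM (by norm_num)
  set K : ℝ := ∫ x, x ^ 2 ∂nuM with hK
  have hK0 : 0 ≤ K := integral_nonneg fun x => sq_nonneg x
  set EQ : ℝ := 1 - Real.sin (2 * q) / (2 * q) with hEQ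
  set ES : ℝ := 1 - Ac q with hES
  -- the four arguments
  let u₁ : ℝ × (Fin m → ℝ) → ℝ := fun p => (2 / M) * p.1
  let u₂ : ℝ × (Fin m → ℝ) → ℝ := fun p => P.theta q p.2 / D
  let u₃ : ℝ × (Fin m → ℝ) → ℝ := fun p => M ^ 2 * (P.Q q p.2 - EQ)
  let u₄ : ℝ × (Fin m → ℝ) → ℝ := fun p => M ^ 2 * (P.S q p.2 - ES)
  have hu₁ : ContDiff ℝ 1 u₁ := by fun_prop
  have hu₂ : ContDiff ℝ 1 u₂ := ((P.theta_contDiff q).comp contDiff_snd).div_const D
  have hu₃ : ContDiff ℝ 1 u₃ :=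
    contDiff_const.mul (((P.Q_contDiff q).comp contDiff_snd).sub contDiff_const)
  have hu₄ : ContDiff ℝ 1 u₄ :=
    contDiff_const.mul (((P.S_contDiff q).comp contDiff_snd).sub contDiff_const)
  have hη : ContDiff ℝ 1 D3b_eta := D3b_eta_contDiff
  have hc₁ : ContDiff ℝ 1 fun p => D3b_eta (u₁ p) := hη.comp hu₁
  have hc₂ : ContDiff ℝ 1 fun p => D3b_eta (u₂ p) := hη.comp hu₂
  have hc₃ : ContDiff ℝ 1 fun p => D3b_eta (u₃ p) := hη.comp hu₃
  have hc₄ : ContDiff ℝ 1 fun p => D3b_eta (u₄ p) := hη.comp hu₄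
  let χ : ℝ × (Fin m → ℝ) → ℝ := fun p =>
    D3b_eta (u₁ p) * D3b_eta (u₂ p) * D3b_eta (u₃ p) * D3b_eta (u₄ p)
  have hχ : ContDiff ℝ 1 χ := ((hc₁.mul hc₂).mul hc₃).mul hc₄
  have hI : ∀ z, D3b_eta z ∈ Icc (0 : ℝ) 1 := fun z => ⟨D3b_eta_nonneg z, D3b_eta_le_one z⟩
  have hmul : ∀ {a b : ℝ}, a ∈ Icc (0 : ℝ) 1 → b ∈ Icc (0 : ℝ) 1 → a * b ∈ Icc (0 : ℝ) 1 :=
    fun ha hb => ⟨mul_nonneg ha.1 hb.1, mul_le_one₀ ha.2 hb.1 hb.2⟩
  have hχI : ∀ p, χ p ∈ Icc (0 : ℝ) 1 := fun p =>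
    hmul (hmul (hmul (hI _) (hI _)) (hI _)) (hI _)
  -- the bad event
  let bad : (Fin m → ℝ) → ℝ := {a | D ≤ |P.theta q a|}.indicator (fun _ => 1)
  have hbadm : MeasurableSet {a | D ≤ |P.theta q a|} :=
    (isClosed_le continuous_const (P.theta_cont q).abs).measurableSet
  have hbadI : Integrable bad (cubeM m) :=
    (integrable_const (1 : ℝ)).indicator hbadm
  have hbad1 : ∀ a, D ≤ |P.theta q a| → bad a = 1 := fun a ha =>
    indicator_of_mem (s := {a | D ≤ |P.theta q a|}) ha _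
  have hbad0 : ∀ a, ¬ D ≤ |P.theta q a| → bad a = 0 := fun a ha =>
    indicator_of_notMem (s := {a | D ≤ |P.theta q a|}) ha _
  have i2 : Integrable (fun p : ℝ × (Fin m → ℝ) => bad p.2) (mu m) :=
    (measurePreserving_snd (μ := nuM) (ν := cubeM m)).integrable_comp_of_integrable hbadI
  have s2 : ∫ p : ℝ × (Fin m → ℝ), bad p.2 ∂(mu m) ≤
      2 * Real.exp (-(9 * D ^ 2 / q ^ 4)) := by
    rw [D3b_integral_snd (measurable_const.indicator hbadm)]
    have : ∫ a, bad a ∂(cubeM m) = (cubeM m).real {a | D ≤ |P.theta q a|} := by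
      show ∫ a, {a | D ≤ |P.theta q a|}.indicator (fun _ => (1 : ℝ)) a ∂(cubeM m) = _
      rw [integral_indicator_const _ hbadm, smul_eq_mul, mul_one]
    rw [this]
    exact theta_tail P q hq D hDpos
  have hu₂bad : ∀ p : ℝ × (Fin m → ℝ), ¬ D ≤ |P.theta q p.2| → |u₂ p| ≤ 1 := by
    intro p hb
    push Not at hb
    show |P.theta q p.2 / D| ≤ 1
    rw [abs_div, abs_of_pos hDpos, div_le_one hDpos]
    exact hb.le
  refine ⟨χ, hχ, hχI, ?_, ?_, ?_⟩
  · -- support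
    intro p hp
    have h4 : D3b_eta (u₄ p) ≠ 0 := right_ne_zero_of_mul hp
    have h123 := left_ne_zero_of_mul hp
    have h3 : D3b_eta (u₃ p) ≠ 0 := right_ne_zero_of_mul h123
    have h12 := left_ne_zero_of_mul h123
    have h2 : D3b_eta (u₂ p) ≠ 0 := right_ne_zero_of_mul h12
    have h1 : D3b_eta (u₁ p) ≠ 0 := left_ne_zero_of_mul h12
    have key : ∀ x : ℝ, |M ^ 2 * x| < 2 → |x| ≤ 2 * (1 / M ^ 2) := by
      intro x hx
      rw [abs_mul, abs_of_pos (by positivity)] at hx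
      rw [mul_one_div, le_div_iff₀ (by positivity)]
      linarith
    refine ⟨?_, ?_, key _ (D3b_eta_ne' h3), key _ (D3b_eta_ne' h4)⟩
    · have := D3b_eta_ne' h1
      have h5 : |(2 / M) * p.1| < 2 := this
      rw [abs_mul, abs_of_pos (by positivity), div_mul_eq_mul_div, div_lt_iff₀ hMpos] at h5
      linarith
    · have := D3b_eta_ne' h2
      have h5 : |P.theta q p.2 / D| < 2 := this
      rw [abs_div, abs_of_pos hDpos, div_lt_iff₀ hDpos] at h5
      exact h5.le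
  · -- the integral of `1 - χ`
    have hbound : ∀ p : ℝ × (Fin m → ℝ), 1 - χ p ≤
        (2 / M) ^ 2 * p.1 ^ 2 + bad p.2 + (M ^ 2) ^ 2 * (P.Q q p.2 - EQ) ^ 2 +
          (M ^ 2) ^ 2 * (P.S q p.2 - ES) ^ 2 := by
      intro p
      refine (D3b_prod_bound (hI _) (hI _) (hI _) (hI _)).trans ?_
      have e1 : 1 - D3b_eta (u₁ p) ≤ (2 / M) ^ 2 * p.1 ^ 2 := by
        refine (D3b_one_sub_eta _).trans (le_of_eq ?_)
        show ((2 / M) * p.1) ^ 2 = _
        rw [mul_pow]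
      have e3 : 1 - D3b_eta (u₃ p) ≤ (M ^ 2) ^ 2 * (P.Q q p.2 - EQ) ^ 2 := by
        refine (D3b_one_sub_eta _).trans (le_of_eq ?_)
        show (M ^ 2 * (P.Q q p.2 - EQ)) ^ 2 = _
        rw [mul_pow]
      have e4 : 1 - D3b_eta (u₄ p) ≤ (M ^ 2) ^ 2 * (P.S q p.2 - ES) ^ 2 := by
        refine (D3b_one_sub_eta _).trans (le_of_eq ?_)
        show (M ^ 2 * (P.S q p.2 - ES)) ^ 2 = _
        rw [mul_pow]
      have e2 : 1 - D3b_eta (u₂ p) ≤ bad p.2 := by
        by_cases hb : D ≤ |P.theta q p.2|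
        · rw [hbad1 _ hb]
          have := D3b_eta_nonneg (u₂ p)
          linarith
        · rw [hbad0 _ hb, D3b_eta_one (hu₂bad p hb)]
          linarith
      linarith
    have i1 : Integrable (fun p : ℝ × (Fin m → ℝ) => (2 / M) ^ 2 * p.1 ^ 2) (mu m) :=
      (D3b_integrable_fst D3b_integrable_sq).const_mul _
    have i3 : Integrable (fun p : ℝ × (Fin m → ℝ) =>
        (M ^ 2) ^ 2 * (P.Q q p.2 - EQ) ^ 2) (mu m) :=
      (D3b_integrable_snd (g := fun a => (P.Q q a - EQ) ^ 2)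
        (((P.Q_cont q).sub continuous_const).pow 2)).const_mul _
    have i4 : Integrable (fun p : ℝ × (Fin m → ℝ) =>
        (M ^ 2) ^ 2 * (P.S q p.2 - ES) ^ 2) (mu m) :=
      (D3b_integrable_snd (g := fun a => (P.S q a - ES) ^ 2)
        (((P.S_cont q).sub continuous_const).pow 2)).const_mul _
    have i0 : Integrable (fun p => 1 - χ p) (mu m) := by
      refine Integrable.mono' (integrable_const (1 : ℝ))
        (continuous_const.sub hχ.continuous).aestronglyMeasurable (ae_of_all _ fun p => ?_)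
      rw [Real.norm_eq_abs, abs_of_nonneg (sub_nonneg.2 (hχI p).2)]
      linarith [(hχI p).1]
    have i12 : Integrable (fun p : ℝ × (Fin m → ℝ) => (2 / M) ^ 2 * p.1 ^ 2 + bad p.2) (mu m) :=
      i1.add i2
    have i123 : Integrable (fun p : ℝ × (Fin m → ℝ) => (2 / M) ^ 2 * p.1 ^ 2 + bad p.2 +
        (M ^ 2) ^ 2 * (P.Q q p.2 - EQ) ^ 2) (mu m) := i12.add i3
    have i1234 : Integrable (fun p : ℝ × (Fin m → ℝ) => (2 / M) ^ 2 * p.1 ^ 2 + bad p.2 +
        (M ^ 2) ^ 2 * (P.Q q p.2 - EQ) ^ 2 + (M ^ 2) ^ 2 * (P.S q p.2 - ES) ^ 2) (mu m) :=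
      i123.add i4
    refine (integral_mono i0 i1234 hbound).trans ?_
    rw [integral_add i123 i4, integral_add i12 i3, integral_add i1 i2]
    have s1 : ∫ p : ℝ × (Fin m → ℝ), (2 / M) ^ 2 * p.1 ^ 2 ∂(mu m) =
        (2 / M) ^ 2 * K := by
      rw [integral_const_mul, D3b_integral_fst (g := fun x => x ^ 2) (by fun_prop)]
    have s3 : ∫ p : ℝ × (Fin m → ℝ), (M ^ 2) ^ 2 * (P.Q q p.2 - EQ) ^ 2 ∂(mu m) ≤
        2 / M ^ 4 := by
      rw [integral_const_mul, D3b_integral_snd (g := fun a => (P.Q q a - EQ) ^ 2)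
        (((P.Q_cont q).sub continuous_const).pow 2).measurable]
      have h := int_Q_sq P q hq
      rw [hr] at h
      calc (M ^ 2) ^ 2 * ∫ a, (P.Q q a - EQ) ^ 2 ∂(cubeM m) ≤
            (M ^ 2) ^ 2 * (2 / (M ^ 4) ^ 2) :=
            mul_le_mul_of_nonneg_left h (by positivity)
        _ = 2 / M ^ 4 := by field_simp
    have s4 : ∫ p : ℝ × (Fin m → ℝ), (M ^ 2) ^ 2 * (P.S q p.2 - ES) ^ 2 ∂(mu m) ≤
        2 / M ^ 4 := by
      rw [integral_const_mul, D3b_integral_snd (g := fun a => (P.S q a - ES) ^ 2)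
        (((P.S_cont q).sub continuous_const).pow 2).measurable]
      have h := int_S_sq P q hq
      rw [hr] at h
      calc (M ^ 2) ^ 2 * ∫ a, (P.S q a - ES) ^ 2 ∂(cubeM m) ≤
            (M ^ 2) ^ 2 * (2 / (M ^ 4) ^ 2) :=
            mul_le_mul_of_nonneg_left h (by positivity)
        _ = 2 / M ^ 4 := by field_simp
    rw [s1]
    have t1 : (2 / M) ^ 2 * K ≤ 4 * K * (1 / M) := by
      have : (2 / M) ^ 2 * K = 4 * K * (1 / M ^ 2) := by ring
      rw [this]
      exact mul_le_mul_of_nonneg_left hM2 (by positivity)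
    have t3 : 2 / M ^ 4 ≤ 2 * (1 / M) := by
      have : 2 / M ^ 4 = 2 * (1 / M ^ 4) := by ring
      rw [this]
      linarith
    have t5 : (4 * K + 4) / M = 4 * K * (1 / M) + 2 * (1 / M) + 2 * (1 / M) := by ring
    rw [t5]
    linarith
  · -- the gradient
    have hd₁ : ∀ p, DifferentiableAt ℝ u₁ p := fun p => hu₁.differentiable one_ne_zero p
    have hd₂ : ∀ p, DifferentiableAt ℝ u₂ p := fun p => hu₂.differentiable one_ne_zero p
    have hd₃ : ∀ p, DifferentiableAt ℝ u₃ p := fun p => hu₃.differentiable one_ne_zero p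
    have hd₄ : ∀ p, DifferentiableAt ℝ u₄ p := fun p => hu₄.differentiable one_ne_zero p
    have hdη : ∀ z, DifferentiableAt ℝ D3b_eta z := fun z => hη.differentiable one_ne_zero z
    have hgr : ∀ p : ℝ × (Fin m → ℝ), p.2 ∈ cube m →
        P.grad q χ p ≤ L * (2 / M) + 2 * L * bad p.2 + L * (M ^ 2 * (5 / P.r)) +
          L * (M ^ 2 * (4 / P.r)) := by
      intro p hp
      have g1 : P.grad q (fun x => D3b_eta (u₁ x)) p ≤ L * (2 / M) := by
        rw [D3b_grad_comp P q (hdη _) (hd₁ p)]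
        have : P.grad q u₁ p = 2 / M := by
          rw [D3b_grad_fst, abs_of_pos (by positivity)]
        rw [this]
        exact mul_le_mul_of_nonneg_right (hL _) (by positivity)
      have g2 : P.grad q (fun x => D3b_eta (u₂ x)) p ≤ 2 * L * bad p.2 := by
        rw [D3b_grad_comp P q (hdη _) (hd₂ p)]
        by_cases hb : D ≤ |P.theta q p.2|
        · rw [hbad1 _ hb, mul_one, mul_comm 2 L]
          exact mul_le_mul (hL _) (D3b_grad_theta P q hq D hD p hp) (P.grad_nonneg q _ _) hL0.le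
        · rw [hbad0 _ hb, D3b_deriv_zero (hu₂bad p hb)]
          simp
      have g3 : P.grad q (fun x => D3b_eta (u₃ x)) p ≤ L * (M ^ 2 * (5 / P.r)) := by
        rw [D3b_grad_comp P q (hdη _) (hd₃ p)]
        exact mul_le_mul (hL _) (D3b_grad_Q P q hq _ _ (by positivity) p hp)
          (P.grad_nonneg q _ _) hL0.le
      have g4 : P.grad q (fun x => D3b_eta (u₄ x)) p ≤ L * (M ^ 2 * (4 / P.r)) := by
        rw [D3b_grad_comp P q (hdη _) (hd₄ p)]
        exact mul_le_mul (hL _) (D3b_grad_S P q hq _ _ (by positivity) p hp)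
          (P.grad_nonneg q _ _) hL0.le
      have hab : ∀ {x : ℝ}, x ∈ Icc (0 : ℝ) 1 → |x| ≤ 1 := fun hx => by
        rw [abs_of_nonneg hx.1]; exact hx.2
      have f1 : DifferentiableAt ℝ (fun x => D3b_eta (u₁ x)) p := hc₁.differentiable one_ne_zero p
      have f2 : DifferentiableAt ℝ (fun x => D3b_eta (u₂ x)) p := hc₂.differentiable one_ne_zero p
      have f3 : DifferentiableAt ℝ (fun x => D3b_eta (u₃ x)) p := hc₃.differentiable one_ne_zero p
      have f4 : DifferentiableAt ℝ (fun x => D3b_eta (u₄ x)) p := hc₄.differentiable one_ne_zero p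
      have k12 : P.grad q (fun x => D3b_eta (u₁ x) * D3b_eta (u₂ x)) p ≤
          P.grad q (fun x => D3b_eta (u₂ x)) p + P.grad q (fun x => D3b_eta (u₁ x)) p := by
        refine (D3b_grad_mul_le P q f1 f2).trans (add_le_add ?_ ?_)
        · exact mul_le_of_le_one_left (P.grad_nonneg q _ _) (hab (hI _))
        · exact mul_le_of_le_one_left (P.grad_nonneg q _ _) (hab (hI _))
      have k123 : P.grad q (fun x => D3b_eta (u₁ x) * D3b_eta (u₂ x) * D3b_eta (u₃ x)) p ≤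
          P.grad q (fun x => D3b_eta (u₃ x)) p +
            P.grad q (fun x => D3b_eta (u₁ x) * D3b_eta (u₂ x)) p := by
        refine (D3b_grad_mul_le P q (f1.mul f2) f3).trans (add_le_add ?_ ?_)
        · exact mul_le_of_le_one_left (P.grad_nonneg q _ _) (hab (hmul (hI _) (hI _)))
        · exact mul_le_of_le_one_left (P.grad_nonneg q _ _) (hab (hI _))
      have k1234 : P.grad q χ p ≤ P.grad q (fun x => D3b_eta (u₄ x)) p +
            P.grad q (fun x => D3b_eta (u₁ x) * D3b_eta (u₂ x) * D3b_eta (u₃ x)) p := by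
        refine (D3b_grad_mul_le P q ((f1.mul f2).mul f3) f4).trans (add_le_add ?_ ?_)
        · exact mul_le_of_le_one_left (P.grad_nonneg q _ _)
            (hab (hmul (hmul (hI _) (hI _)) (hI _)))
        · exact mul_le_of_le_one_left (P.grad_nonneg q _ _) (hab (hI _))
      linarith
    have hgr' : ∀ᵐ p ∂(mu m), P.grad q χ p ≤ L * (2 / M) + 2 * L * bad p.2 +
        L * (M ^ 2 * (5 / P.r)) + L * (M ^ 2 * (4 / P.r)) :=
      (mu_ae_mem m).mono hgr
    have j2 : Integrable (fun p : ℝ × (Fin m → ℝ) => 2 * L * bad p.2) (mu m) := i2.const_mul _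
    have j12 : Integrable (fun p : ℝ × (Fin m → ℝ) => L * (2 / M) + 2 * L * bad p.2) (mu m) :=
      (integrable_const _).add j2
    have j123 : Integrable (fun p : ℝ × (Fin m → ℝ) => L * (2 / M) + 2 * L * bad p.2 +
        L * (M ^ 2 * (5 / P.r))) (mu m) := j12.add (integrable_const _)
    have j1234 : Integrable (fun p : ℝ × (Fin m → ℝ) => L * (2 / M) + 2 * L * bad p.2 +
        L * (M ^ 2 * (5 / P.r)) + L * (M ^ 2 * (4 / P.r))) (mu m) :=
      j123.add (integrable_const _)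
    have hint : Integrable (P.grad q χ) (mu m) := by
      refine Integrable.mono' j1234 (P.grad_cont q hχ).aestronglyMeasurable ?_
      refine hgr'.mono fun p hp => ?_
      rw [Real.norm_eq_abs, abs_of_nonneg (P.grad_nonneg q _ _)]
      exact hp
    refine ⟨hint, (integral_mono_ae hint j1234 hgr').trans ?_⟩
    rw [integral_add j123 (integrable_const _), integral_add j12 (integrable_const _),
      integral_add (integrable_const _) j2]
    have t0 : ∫ p : ℝ × (Fin m → ℝ), 2 * L * bad p.2 ∂(mu m) =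
        2 * L * ∫ p : ℝ × (Fin m → ℝ), bad p.2 ∂(mu m) := integral_const_mul _ _
    rw [t0]
    simp only [integral_const, probReal_univ, one_smul]
    have t1 : L * (M ^ 2 * (5 / P.r)) ≤ 5 * L * (1 / M) := by
      rw [hr]
      have : L * (M ^ 2 * (5 / M ^ 4)) = 5 * L * (1 / M ^ 2) := by
        field_simp
      rw [this]
      exact mul_le_mul_of_nonneg_left hM2 (by positivity)
    have t2 : L * (M ^ 2 * (4 / P.r)) ≤ 4 * L * (1 / M) := by
      rw [hr]
      have : L * (M ^ 2 * (4 / M ^ 4)) = 4 * L * (1 / M ^ 2) := by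
        field_simp
      rw [this]
      exact mul_le_mul_of_nonneg_left hM2 (by positivity)
    have t3 : 2 * L * ∫ p : ℝ × (Fin m → ℝ), bad p.2 ∂(mu m) ≤
        2 * L * (2 * Real.exp (-(9 * D ^ 2 / q ^ 4))) :=
      mul_le_mul_of_nonneg_left s2 (by positivity)
    have t4 : 11 * L / M = L * (2 / M) + 5 * L * (1 / M) + 4 * L * (1 / M) := by ring
    rw [t4]
    linarith

/-- D3b : cutoffs -/
theorem exists_cutoff : ∃ Cη : ℝ, 0 < Cη ∧ ∀ q ∈ Ioc (0 : ℝ) (1 / 2), ∀ D : ℝ, 1 ≤ D → ∀ ζ > 0,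
    ∃ M₀ : ℕ, ∀ M (hM : 0 < M), M₀ ≤ M → ∃ χ : ℝ × (Fin (2 * M ^ 8) → ℝ) → ℝ, ContDiff ℝ 1 χ ∧
      (∀ p, χ p ∈ Icc (0 : ℝ) 1) ∧
      (∀ p, χ p ≠ 0 → |p.1| < M ∧ |(parM M hM).theta q p.2| ≤ 2 * D ∧
        |(parM M hM).Q q p.2 - (1 - Real.sin (2 * q) / (2 * q))| ≤ 2 * (1 / (M : ℝ) ^ 2) ∧
        |(parM M hM).S q p.2 - (1 - Ac q)| ≤ 2 * (1 / (M : ℝ) ^ 2)) ∧
      ∫ p, (1 - χ p) ∂(mu (2 * M ^ 8)) ≤ 2 * Real.exp (-(9 * D ^ 2 / q ^ 4)) + ζ ∧
      Integrable ((parM M hM).grad q χ) (mu (2 * M ^ 8)) ∧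
      ∫ p, (parM M hM).grad q χ p ∂(mu (2 * M ^ 8)) ≤ Cη * Real.exp (-(9 * D ^ 2 / q ^ 4)) + ζ := by
  obtain ⟨L, hL0, hL⟩ := D3b_deriv_bound
  refine ⟨4 * L, by positivity, fun q hq D hD ζ hζ => ?_⟩
  have hK0 : 0 ≤ ∫ x, x ^ 2 ∂nuM := integral_nonneg fun x => sq_nonneg x
  obtain ⟨M₀, hM₀⟩ := exists_nat_ge ((4 * (∫ x, x ^ 2 ∂nuM) + 4 + 11 * L) / ζ)
  refine ⟨M₀, fun M hM hMM => ?_⟩
  have hMr : (1 : ℝ) ≤ M := by exact_mod_cast hM
  have hMpos : (0 : ℝ) < M := by linarith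
  have hMζ : (4 * (∫ x, x ^ 2 ∂nuM) + 4 + 11 * L) / M ≤ ζ := by
    rw [div_le_iff₀ hMpos]
    have h1 : (4 * (∫ x, x ^ 2 ∂nuM) + 4 + 11 * L) / ζ ≤ M := hM₀.trans (by exact_mod_cast hMM)
    rw [div_le_iff₀ hζ] at h1
    linarith
  obtain ⟨χ, h1, h2, h3, h4, h5, h6⟩ := D3b_core (parM M hM) q hq D hD M hMr rfl L hL0 hL
  refine ⟨χ, h1, h2, h3, h4.trans ?_, h5, h6.trans ?_⟩
  · have : (4 * (∫ x, x ^ 2 ∂nuM) + 4) / (M : ℝ) ≤ ζ := by
      refine le_trans ?_ hMζ
      exact div_le_div_of_nonneg_right (by linarith) hMpos.le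
    linarith
  · have : 11 * L / (M : ℝ) ≤ ζ := by
      refine le_trans ?_ hMζ
      exact div_le_div_of_nonneg_right (by linarith) hMpos.le
    linarith

end IsoHull
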