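import Pool.Agent.IsoHull27.Defs1D

/-!
# IH27-1D2 : discrete isoperimetry and stability (`grid_iso`, `grid_stab`)
-/

open MeasureTheory Set Filter Topology
open scoped ENNReal NNReal

namespace IsoHull

theorem d2_J3 {J : ℝ → ℝ} (hJ : JProp J) {p y : ℝ} (hy : 0 ≤ y) (hyp : y ≤ p) (hp : p ≤ 1) :
    J (p - y) + (1 - p) * y ≤ J p + J y := by
  have h1 := hJ.strong y (1 - p) hy (by linarith) (by linarith)
  have h2 : J (1 - p + y) = J (p - y) := by
    have := hJ.symm (p - y) ⟨by linarith, by linarith⟩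
    rw [← this]; congr 1; ring
  have h3 : J (1 - p) = J p := hJ.symm p ⟨by linarith, hp⟩
  rw [h2, h3] at h1
  linarith

theorem d2_J3' {J : ℝ → ℝ} (hJ : JProp J) {p y : ℝ} (hy : 0 ≤ y) (hyp : y ≤ p) (hp : p ≤ 1) :
    J (p - y) ≤ J p + J y := by
  have h1 := d2_J3 hJ hy hyp hp
  have h2 : 0 ≤ (1 - p) * y := mul_nonneg (by linarith) hy
  linarith

theorem d2_anti {R : ℕ → ℝ} {n : ℕ} (hR : ∀ k, k ≤ n → R (k + 1) ≤ R k) :
    ∀ j k, j ≤ k → k ≤ n + 1 → R k ≤ R j := by
  intro j k hjk
  induction k, hjk using Nat.le_induction with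
  | base => intro _; exact le_rfl
  | succ k hk ih =>
    intro hk1
    exact (hR k (by omega)).trans (ih (by omega))

/-- right part -/
theorem d2_right {J : ℝ → ℝ} (hJ : JProp J) {R : ℕ → ℝ} {n : ℕ}
    (hR : ∀ k, k ≤ n → R (k + 1) ≤ R k)
    (h0 : R 0 = 1) (hn : R (n + 1) = 0) (e : ℕ → ℝ) (he : ∀ k, e k = 0 ∨ e k = 1) :
    ∀ d k, k + d = n →
      0 ≤ ∑ j ∈ Finset.Ico k (n + 1), e j * (R j - R (j + 1)) ∧
      ∑ j ∈ Finset.Ico k (n + 1), e j * (R j - R (j + 1)) ≤ R k ∧
      (e k = 0 → J (∑ j ∈ Finset.Ico k (n + 1), e j * (R j - R (j + 1))) ≤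
        ∑ j ∈ Finset.Ico k n, J (R (j + 1)) * |e (j + 1) - e j|) ∧
      (e k = 1 → J (R k - ∑ j ∈ Finset.Ico k (n + 1), e j * (R j - R (j + 1))) ≤
        ∑ j ∈ Finset.Ico k n, J (R (j + 1)) * |e (j + 1) - e j|) := by
  intro d
  induction d with
  | zero =>
    intro k hk
    have hk' : k = n := by omega
    subst hk'
    have hRk : 0 ≤ R k := by
      have := hR k le_rfl
      rw [hn] at this
      exact this
    have hs : ∑ j ∈ Finset.Ico k (k + 1), e j * (R j - R (j + 1)) = e k * R k := by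
      rw [Nat.Ico_succ_singleton, Finset.sum_singleton, hn, sub_zero]
    rw [hs]
    rcases he k with h | h
    · rw [h]
      refine ⟨by simp, by simpa using hRk, ?_, by simp⟩
      intro _
      simp [hJ.zero]
    · rw [h]
      refine ⟨by simpa using hRk, by simp, by simp, ?_⟩
      intro _
      simp [hJ.zero]
  | succ d ih =>
    intro k hk
    obtain ⟨i1, i2, i3, i4⟩ := ih (k + 1) (by omega)
    rw [Finset.sum_eq_sum_Ico_succ_bot (show k < n + 1 by omega),
      Finset.sum_eq_sum_Ico_succ_bot (show k < n by omega)]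
    set M := ∑ j ∈ Finset.Ico (k + 1) (n + 1), e j * (R j - R (j + 1)) with hM
    set P := ∑ j ∈ Finset.Ico (k + 1) n, J (R (j + 1)) * |e (j + 1) - e j| with hP
    have hRk : R (k + 1) ≤ R k := hR k (by omega)
    have hR1 : R (k + 1) ≤ 1 := by
      rw [← h0]; exact d2_anti hR 0 (k + 1) (by omega) (by omega)
    rcases he k with h | h <;> rcases he (k + 1) with h' | h'
    · rw [h, h']
      refine ⟨by simpa using i1, by linarith, ?_, by simp⟩
      intro _
      simpa using i3 h'
    · rw [h, h']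
      refine ⟨by simpa using i1, by linarith, ?_, by simp⟩
      intro _
      have h5 := d2_J3' hJ (p := R (k + 1)) (y := R (k + 1) - M) (by linarith) (by linarith) hR1
      have h6 := i4 h'
      have h7 : R (k + 1) - (R (k + 1) - M) = M := by ring
      rw [h7] at h5
      simp only [zero_mul, zero_add, sub_zero, abs_one, mul_one]
      linarith
    · rw [h, h']
      refine ⟨by linarith, by linarith, by simp, ?_⟩
      intro _
      have h5 := d2_J3' hJ (p := R (k + 1)) (y := M) i1 i2 hR1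
      have h6 := i3 h'
      have h7 : R k - (1 * (R k - R (k + 1)) + M) = R (k + 1) - M := by ring
      rw [h7]
      simp only [zero_sub, abs_neg, abs_one, mul_one]
      linarith
    · rw [h, h']
      refine ⟨by linarith, by linarith, by simp, ?_⟩
      intro _
      have h6 := i4 h'
      have h7 : R k - (1 * (R k - R (k + 1)) + M) = R (k + 1) - M := by ring
      rw [h7]
      simpa using h6

/-- left part -/
theorem d2_left {J : ℝ → ℝ} (hJ : JProp J) {R : ℕ → ℝ} {n : ℕ}
    (hR : ∀ k, k ≤ n → R (k + 1) ≤ R k)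
    (h0 : R 0 = 1) (hn : R (n + 1) = 0) (e : ℕ → ℝ) (he : ∀ k, e k = 0 ∨ e k = 1) :
    ∀ k, k ≤ n →
      0 ≤ ∑ j ∈ Finset.range (k + 1), e j * (R j - R (j + 1)) ∧
      ∑ j ∈ Finset.range (k + 1), e j * (R j - R (j + 1)) ≤ 1 - R (k + 1) ∧
      (e k = 0 → J (∑ j ∈ Finset.range (k + 1), e j * (R j - R (j + 1))) ≤
        ∑ j ∈ Finset.range k, J (R (j + 1)) * |e (j + 1) - e j|) ∧
      (e k = 1 → J (1 - R (k + 1) - ∑ j ∈ Finset.range (k + 1), e j * (R j - R (j + 1))) ≤
        ∑ j ∈ Finset.range k, J (R (j + 1)) * |e (j + 1) - e j|) := by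
  intro k
  induction k with
  | zero =>
    intro hk
    have hR1 : R (0 + 1) ≤ 1 := by
      rw [← h0]; exact hR 0 (by omega)
    have hs : ∑ j ∈ Finset.range (0 + 1), e j * (R j - R (j + 1)) = e 0 * (1 - R (0 + 1)) := by
      simp [h0]
    rw [hs]
    rcases he 0 with h | h
    · rw [h]
      refine ⟨by simp, by linarith, ?_, by simp⟩
      intro _
      simp [hJ.zero]
    · rw [h]
      refine ⟨by linarith, by linarith, by simp, ?_⟩
      intro _
      simp [hJ.zero]
  | succ k ih =>
    intro hk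
    obtain ⟨i1, i2, i3, i4⟩ := ih (by omega)
    rw [Finset.sum_range_succ (fun j => e j * (R j - R (j + 1))) (k + 1),
      Finset.sum_range_succ (fun j => J (R (j + 1)) * |e (j + 1) - e j|) k]
    set M := ∑ j ∈ Finset.range (k + 1), e j * (R j - R (j + 1)) with hM
    set P := ∑ j ∈ Finset.range k, J (R (j + 1)) * |e (j + 1) - e j| with hP
    have hRk : R (k + 1 + 1) ≤ R (k + 1) := hR (k + 1) (by omega)
    have hR0 : 0 ≤ R (k + 1) := by
      rw [← hn]; exact d2_anti hR (k + 1) (n + 1) (by omega) (by omega)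
    have hR1 : R (k + 1) ≤ 1 := by
      rw [← h0]; exact d2_anti hR 0 (k + 1) (by omega) (by omega)
    have hsym : J (1 - R (k + 1)) = J (R (k + 1)) := hJ.symm _ ⟨hR0, hR1⟩
    rcases he k with h | h <;> rcases he (k + 1) with h' | h'
    · rw [h, h']
      refine ⟨by linarith, by linarith, ?_, by simp⟩
      intro _
      simpa using i3 h
    · rw [h, h']
      refine ⟨by linarith, by linarith, by simp, ?_⟩
      intro _
      have h5 := d2_J3' hJ (p := 1 - R (k + 1)) (y := M) i1 i2 (by linarith)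
      have h6 := i3 h
      have h7 : 1 - R (k + 1 + 1) - (M + 1 * (R (k + 1) - R (k + 1 + 1))) =
        1 - R (k + 1) - M := by ring
      rw [h7]
      rw [hsym] at h5
      simp only [sub_zero, abs_one, mul_one]
      linarith
    · rw [h, h']
      refine ⟨by linarith, by linarith, ?_, by simp⟩
      intro _
      have h5 := d2_J3' hJ (p := 1 - R (k + 1)) (y := 1 - R (k + 1) - M) (by linarith)
        (by linarith) (by linarith)
      have h6 := i4 h
      have h7 : 1 - R (k + 1) - (1 - R (k + 1) - M) = M := by ring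
      rw [h7, hsym] at h5
      have h8 : M + 0 * (R (k + 1) - R (k + 1 + 1)) = M := by ring
      rw [h8]
      simp only [zero_sub, abs_neg, abs_one, mul_one]
      linarith
    · rw [h, h']
      refine ⟨by linarith, by linarith, by simp, ?_⟩
      intro _
      have h6 := i4 h
      have h7 : 1 - R (k + 1 + 1) - (M + 1 * (R (k + 1) - R (k + 1 + 1))) =
        1 - R (k + 1) - M := by ring
      rw [h7]
      simpa using h6

theorem grid_iso {J : ℝ → ℝ} (hJ : JProp J) {R : ℕ → ℝ} {n : ℕ}
    (hR : ∀ k, k ≤ n → R (k + 1) ≤ R k)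
    (h0 : R 0 = 1) (hn : R (n + 1) = 0) (e : ℕ → ℝ) (he : ∀ k, e k = 0 ∨ e k = 1) :
    J (gmass R n e) ≤ gper J R n e := by
  obtain ⟨i1, i2, i3, i4⟩ := d2_right hJ hR h0 hn e he n 0 (by omega)
  unfold gmass gper
  rw [Finset.range_eq_Ico, Finset.range_eq_Ico]
  rcases he 0 with h | h
  · exact i3 h
  · have h4 := i4 h
    rw [h0] at h4 i2
    rw [hJ.symm _ ⟨i1, i2⟩] at h4
    exact h4

theorem d2_tot {R : ℕ → ℝ} : ∀ n, ∑ j ∈ Finset.range (n + 1), (R j - R (j + 1)) =
    R 0 - R (n + 1) := by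
  intro n
  rw [Finset.sum_range_sub']

/-- the case `e k = 0`, `e (k+1) = 1` -/
theorem d2_stab {J : ℝ → ℝ} (hJ : JProp J) {R : ℕ → ℝ} {n : ℕ}
    (hR : ∀ k, k ≤ n → R (k + 1) ≤ R k)
    (h0 : R 0 = 1) (hn : R (n + 1) = 0) (e : ℕ → ℝ) (he : ∀ k, e k = 0 ∨ e k = 1)
    (k : ℕ) (hk : k < n) (h : e k = 0) (h' : e (k + 1) = 1) :
    J (gmass R n e) + 1 / 2 * (R (k + 1) * (1 - R (k + 1))) *
      ∑ j ∈ Finset.range (n + 1), |e j - (if j ≤ k then e k else e (k + 1))| *
        (R j - R (j + 1)) ≤ gper J R n e := by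
  obtain ⟨i1, i2, i3, i4⟩ := d2_right hJ hR h0 hn e he (n - (k + 1)) (k + 1) (by omega)
  obtain ⟨l1, l2, l3, l4⟩ := d2_left hJ hR h0 hn e he k (by omega)
  have hR0 : 0 ≤ R (k + 1) := by
    rw [← hn]; exact d2_anti hR (k + 1) (n + 1) (by omega) (by omega)
  have hR1 : R (k + 1) ≤ 1 := by
    rw [← h0]; exact d2_anti hR 0 (k + 1) (by omega) (by omega)
  have hi := i4 h'
  have hl := l3 h
  -- splitting
  have hmass : gmass R n e = ∑ j ∈ Finset.range (k + 1), e j * (R j - R (j + 1)) +
      ∑ j ∈ Finset.Ico (k + 1) (n + 1), e j * (R j - R (j + 1)) := by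
    unfold gmass
    rw [Finset.sum_range_add_sum_Ico _ (by omega)]
  have hper : gper J R n e = ∑ j ∈ Finset.range k, J (R (j + 1)) * |e (j + 1) - e j| +
      (J (R (k + 1)) + ∑ j ∈ Finset.Ico (k + 1) n, J (R (j + 1)) * |e (j + 1) - e j|) := by
    unfold gper
    rw [← Finset.sum_range_add_sum_Ico _ (show k ≤ n by omega),
      Finset.sum_eq_sum_Ico_succ_bot hk, h, h']
    simp
  have hsum : ∑ j ∈ Finset.range (n + 1), |e j - (if j ≤ k then e k else e (k + 1))| *
        (R j - R (j + 1)) = ∑ j ∈ Finset.range (k + 1), e j * (R j - R (j + 1)) +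
      (R (k + 1) - ∑ j ∈ Finset.Ico (k + 1) (n + 1), e j * (R j - R (j + 1))) := by
    rw [← Finset.sum_range_add_sum_Ico _ (show k + 1 ≤ n + 1 by omega)]
    congr 1
    · apply Finset.sum_congr rfl
      intro j hj
      rw [Finset.mem_range] at hj
      rw [if_pos (by omega), h, sub_zero]
      rcases he j with hj' | hj' <;> rw [hj'] <;> simp
    · have ht : R (k + 1) = ∑ j ∈ Finset.Ico (k + 1) (n + 1), (R j - R (j + 1)) := by
        have e1 := d2_tot (R := R) n
        rw [← Finset.sum_range_add_sum_Ico _ (show k + 1 ≤ n + 1 by omega), d2_tot, h0, hn] at e1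
        linarith
      conv_rhs => rw [ht]
      rw [← Finset.sum_sub_distrib]
      apply Finset.sum_congr rfl
      intro j hj
      rw [Finset.mem_Ico] at hj
      rw [if_neg (by omega), h']
      rcases he j with hj' | hj' <;> rw [hj'] <;> simp
  rw [hmass, hper, hsum]
  set x := ∑ j ∈ Finset.range (k + 1), e j * (R j - R (j + 1)) with hx
  set M := ∑ j ∈ Finset.Ico (k + 1) (n + 1), e j * (R j - R (j + 1)) with hM
  set p := R (k + 1) with hp
  obtain ⟨y, hy⟩ : ∃ y, y = p - M := ⟨_, rfl⟩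
  have hMy : M = p - y := by linarith
  rw [← hy] at hi ⊢
  rw [hMy]
  have hy0 : 0 ≤ y := by linarith
  have hyp : y ≤ p := by linarith
  have s1 := d2_J3 hJ hy0 hyp hR1
  have s2 := hJ.strong x (p - y) l1 (by linarith) (by linarith)
  rw [show p - y + x = x + (p - y) by ring] at s2
  have s3 : 1 / 2 * (p * (1 - p)) * (x + y) ≤ (p - y) * x + (1 - p) * y := by
    have hq : 0 ≤ 1 - p := by linarith
    rcases le_total y (p / 2) with hc | hc
    · have a1 : p / 2 * x ≤ (p - y) * x := by
        apply mul_le_mul_of_nonneg_right _ l1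
        linarith
      have a2 : p * (1 - p) * x ≤ p * x := by
        apply mul_le_mul_of_nonneg_right _ l1
        nlinarith
      have a3 : p * (1 - p) * y ≤ (1 - p) * y := by
        apply mul_le_mul_of_nonneg_right _ hy0
        nlinarith
      have a4 : 0 ≤ (1 - p) * y := mul_nonneg hq hy0
      linarith
    · have a1 : 0 ≤ (p - y) * x := mul_nonneg (by linarith) l1
      have a2 : x + y ≤ 1 := by linarith
      have a3 : 1 / 2 * (p * (1 - p)) * (x + y) ≤ 1 / 2 * (p * (1 - p)) * 1 :=
        mul_le_mul_of_nonneg_left a2 (by have := mul_nonneg hR0 hq; linarith)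
      have a4 : (1 - p) * (p / 2) ≤ (1 - p) * y := mul_le_mul_of_nonneg_left hc hq
      linarith
  linarith

theorem grid_stab {J : ℝ → ℝ} (hJ : JProp J) {R : ℕ → ℝ} {n : ℕ}
    (hR : ∀ k, k ≤ n → R (k + 1) ≤ R k)
    (h0 : R 0 = 1) (hn : R (n + 1) = 0) (e : ℕ → ℝ) (he : ∀ k, e k = 0 ∨ e k = 1)
    (k : ℕ) (hk : k < n) (hne : e k ≠ e (k + 1)) :
    J (gmass R n e) + 1 / 2 * (R (k + 1) * (1 - R (k + 1))) *
      ∑ j ∈ Finset.range (n + 1), |e j - (if j ≤ k then e k else e (k + 1))| * (R j - R (j + 1)) ≤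
      gper J R n e := by
  rcases he k with h | h
  · rcases he (k + 1) with h' | h'
    · exact absurd (h.trans h'.symm) hne
    · exact d2_stab hJ hR h0 hn e he k hk h h'
  · rcases he (k + 1) with h' | h'
    swap
    · exact absurd (h.trans h'.symm) hne
    have key := d2_stab hJ hR h0 hn (fun j => 1 - e j)
      (fun j => by rcases he j with hj | hj <;> simp [hj]) k hk (by simp [h]) (by simp [h'])
    have hm : gmass R n (fun j => 1 - e j) = 1 - gmass R n e := by
      unfold gmass
      have e1 := d2_tot (R := R) n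
      rw [h0, hn] at e1
      have e2 : ∑ j ∈ Finset.range (n + 1), (1 - e j) * (R j - R (j + 1)) =
        ∑ j ∈ Finset.range (n + 1), (R j - R (j + 1)) -
          ∑ j ∈ Finset.range (n + 1), e j * (R j - R (j + 1)) := by
        rw [← Finset.sum_sub_distrib]
        apply Finset.sum_congr rfl
        intro j _
        ring
      rw [e2, e1]
      ring
    have hp : gper J R n (fun j => 1 - e j) = gper J R n e := by
      unfold gper
      apply Finset.sum_congr rfl
      intro j _
      congr 1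
      rw [show (1 - e (j + 1)) - (1 - e j) = -(e (j + 1) - e j) by ring, abs_neg]
    have hs : ∑ j ∈ Finset.range (n + 1),
        |(1 - e j) - (if j ≤ k then (1 - e k) else (1 - e (k + 1)))| * (R j - R (j + 1)) =
        ∑ j ∈ Finset.range (n + 1),
          |e j - (if j ≤ k then e k else e (k + 1))| * (R j - R (j + 1)) := by
      apply Finset.sum_congr rfl
      intro j _
      congr 1
      split_ifs
      · rw [show (1 - e j) - (1 - e k) = -(e j - e k) by ring, abs_neg]
      · rw [show (1 - e j) - (1 - e (k + 1)) = -(e j - e (k + 1)) by ring, abs_neg]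
    have hmem : gmass R n e ∈ Icc (0 : ℝ) 1 := by
      obtain ⟨i1, i2, -, -⟩ := d2_right hJ hR h0 hn e he n 0 (by omega)
      rw [h0] at i2
      unfold gmass
      rw [Finset.range_eq_Ico]
      exact ⟨i1, i2⟩
    rw [hm, hp, hs, hJ.symm _ hmem] at key
    exact key

end IsoHull
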