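import Pool.Agent.IsoHull27.Defs1D

/-!
# IsoHull27, package 1D-3: the Hardy inequality
-/

open MeasureTheory Set Filter Topology intervalIntegral
open scoped ENNReal NNReal

namespace IsoHull

theorem hz_intble {f : ℝ → ℝ} {a b C : ℝ} (hf : Measurable f) (hab : a ≤ b)
    (hb : ∀ s ∈ Ioc a b, |f s| ≤ C) : IntervalIntegrable f volume a b := by
  refine (intervalIntegrable_const (c := C)).mono_fun' hf.aestronglyMeasurable ?_
  rw [uIoc_of_le hab]
  filter_upwards [ae_restrict_mem measurableSet_Ioc] with s hs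
  exact hb s hs

theorem hardy_half (d : ℝ → ℝ) (hd : Antitone d) (hb : ∀ s ∈ Icc (0 : ℝ) 1, |d s| ≤ 1) :
    ∫ s in (0 : ℝ)..(1 / 2), ((∫ u in (0 : ℝ)..s, d u) / s) ^ 2 ≤
      4 * ∫ s in (0 : ℝ)..(1 / 2), d s ^ 2 := by
  set Z : ℝ → ℝ := fun s => ∫ u in (0 : ℝ)..s, d u with hZ
  have hdi : ∀ a b, IntervalIntegrable d volume a b := fun a b => hd.intervalIntegrable
  have hdm : Measurable d := hd.measurable
  have Zc : Continuous Z := intervalIntegral.continuous_primitive hdi 0
  have Zb : ∀ s ∈ Icc (0 : ℝ) 1, |Z s| ≤ s := by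
    intro s hs
    have h1 := intervalIntegral.norm_integral_le_of_norm_le_const (a := 0) (b := s) (f := d)
      (C := 1) (by
        intro x hx
        rw [uIoc_of_le hs.1] at hx
        exact hb x ⟨hx.1.le, hx.2.trans hs.2⟩)
    simpa [abs_of_nonneg hs.1] using h1
  have Zd : ∀ s, ContinuousAt d s → HasDerivAt Z (d s) s := by
    intro s hs
    exact intervalIntegral.integral_hasDerivAt_right (hdi 0 s)
      (hdm.stronglyMeasurable.stronglyMeasurableAtFilter) hs
  have hcount : {x | ¬ ContinuousAt d x}.Countable := hd.countable_not_continuousAt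
  have hφm : Measurable fun s => (Z s / s) ^ 2 := (Zc.measurable.div measurable_id).pow_const 2
  have hφb : ∀ s ∈ Ioc (0 : ℝ) 1, |(Z s / s) ^ 2| ≤ 1 := by
    intro s hs
    rw [abs_of_nonneg (sq_nonneg _), sq_le_one_iff_abs_le_one, abs_div, abs_of_pos hs.1]
    exact div_le_one_of_le₀ (Zb s ⟨hs.1.le, hs.2⟩) hs.1.le
  have hd2b : ∀ s ∈ Icc (0 : ℝ) 1, |d s ^ 2| ≤ 1 := by
    intro s hs
    rw [abs_of_nonneg (sq_nonneg _), sq_le_one_iff_abs_le_one]
    exact hb s hs
  have hd2i : ∀ a b, 0 ≤ a → a ≤ b → b ≤ 1 → IntervalIntegrable (fun s => d s ^ 2) volume a b :=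
    fun a b h0 hab h1 => hz_intble (hdm.pow_const 2) hab fun s hs =>
      hd2b s ⟨h0.trans hs.1.le, hs.2.trans h1⟩
  have hφi : ∀ a b, 0 ≤ a → a ≤ b → b ≤ 1 →
      IntervalIntegrable (fun s => (Z s / s) ^ 2) volume a b :=
    fun a b h0 hab h1 => hz_intble hφm hab fun s hs =>
      hφb s ⟨h0.trans_lt hs.1, hs.2.trans h1⟩
  -- the main estimate with `ε`
  have key : ∀ ε : ℝ, 0 < ε → ε < 1 / 2 →
      ∫ s in (0 : ℝ)..(1 / 2), (Z s / s) ^ 2 ≤ 3 * ε + 4 * ∫ s in (0 : ℝ)..(1 / 2), d s ^ 2 := by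
    intro ε hε hε2
    have e1 : ∫ s in ε..(1 / 2 : ℝ), ((Z s / s) ^ 2 - 2 * (Z s / s) * d s) =
        (-(Z (1 / 2) ^ 2) / (1 / 2)) - (-(Z ε ^ 2) / ε) := by
      refine integral_eq_of_hasDerivAt_off_countable_of_le (fun s => -(Z s ^ 2) / s) _
        hε2.le hcount ?_ ?_ ?_
      · exact ContinuousOn.div (by fun_prop) continuousOn_id fun s hs =>
          (hε.trans_le hs.1).ne'
      · intro x hx
        have hx0 : x ≠ 0 := (hε.trans hx.1.1).ne'
        have hc : ContinuousAt d x := by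
          by_contra h
          exact hx.2 h
        have h1 := (((Zd x hc).pow 2).neg).div (hasDerivAt_id x) hx0
        refine HasDerivAt.congr_deriv h1 ?_
        simp only [id, Pi.neg_apply, Pi.pow_apply, Nat.cast_ofNat, mul_one]
        field_simp
        ring
      · refine (hφi ε (1 / 2) hε.le hε2.le (by norm_num)).sub ?_
        have h2 : IntervalIntegrable (fun s => d s * (2 * (Z s / s))) volume ε (1 / 2) := by
          refine (hdi _ _).mul_continuousOn ?_
          refine continuousOn_const.mul (Zc.continuousOn.div continuousOn_id ?_)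
          intro s hs
          rw [uIcc_of_le hε2.le] at hs
          exact (hε.trans_le hs.1).ne'
        refine h2.congr ?_
        exact fun s _ => by ring
    have e2 : ∫ s in ε..(1 / 2 : ℝ), ((Z s / s) ^ 2 - 2 * (Z s / s) * d s) ≤ ε := by
      rw [e1]
      have h1 : Z ε ^ 2 / ε ≤ ε := by
        rw [div_le_iff₀ hε]
        have := Zb ε ⟨hε.le, by linarith⟩
        nlinarith [sq_abs (Z ε), abs_nonneg (Z ε)]
      have h2 : 0 ≤ Z (1 / 2) ^ 2 / (1 / 2) := by positivity
      have e3 : (-(Z (1 / 2) ^ 2) / (1 / 2)) - (-(Z ε ^ 2) / ε) =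
        Z ε ^ 2 / ε - Z (1 / 2) ^ 2 / (1 / 2) := by ring
      rw [e3]
      linarith
    have e3 : ∫ s in ε..(1 / 2 : ℝ), ((1 / 2) * (Z s / s) ^ 2 - 2 * d s ^ 2) ≤
        ∫ s in ε..(1 / 2 : ℝ), ((Z s / s) ^ 2 - 2 * (Z s / s) * d s) := by
      refine intervalIntegral.integral_mono_on hε2.le ?_ ?_ ?_
      · exact ((hφi _ _ hε.le hε2.le (by norm_num)).const_mul _).sub
          ((hd2i _ _ hε.le hε2.le (by norm_num)).const_mul _)
      · refine (hφi ε (1 / 2) hε.le hε2.le (by norm_num)).sub ?_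
        have h2 : IntervalIntegrable (fun s => d s * (2 * (Z s / s))) volume ε (1 / 2) := by
          refine (hdi _ _).mul_continuousOn ?_
          refine continuousOn_const.mul (Zc.continuousOn.div continuousOn_id ?_)
          intro s hs
          rw [uIcc_of_le hε2.le] at hs
          exact (hε.trans_le hs.1).ne'
        refine h2.congr ?_
        exact fun s _ => by ring
      · intro s _
        nlinarith [sq_nonneg ((Z s / s) - 2 * d s)]
    rw [intervalIntegral.integral_sub ((hφi _ _ hε.le hε2.le (by norm_num)).const_mul _)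
      ((hd2i _ _ hε.le hε2.le (by norm_num)).const_mul _), intervalIntegral.integral_const_mul,
      intervalIntegral.integral_const_mul] at e3
    have e4 : ∫ s in ε..(1 / 2 : ℝ), d s ^ 2 ≤ ∫ s in (0 : ℝ)..(1 / 2), d s ^ 2 := by
      rw [← intervalIntegral.integral_add_adjacent_intervals
        (hd2i 0 ε le_rfl hε.le (by linarith)) (hd2i ε (1 / 2) hε.le hε2.le (by norm_num))]
      have : 0 ≤ ∫ s in (0 : ℝ)..ε, d s ^ 2 :=
        intervalIntegral.integral_nonneg hε.le fun s _ => sq_nonneg _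
      linarith
    have e5 : ∫ s in (0 : ℝ)..ε, (Z s / s) ^ 2 ≤ ε := by
      have h1 := intervalIntegral.norm_integral_le_of_norm_le_const (a := 0) (b := ε)
        (f := fun s => (Z s / s) ^ 2) (C := 1) (by
          intro x hx
          rw [uIoc_of_le hε.le] at hx
          exact hφb x ⟨hx.1, by linarith [hx.2]⟩)
      rw [sub_zero, abs_of_pos hε, one_mul] at h1
      exact (le_abs_self _).trans h1
    rw [← intervalIntegral.integral_add_adjacent_intervals
        (hφi 0 ε le_rfl hε.le (by linarith)) (hφi ε (1 / 2) hε.le hε2.le (by norm_num))]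
    linarith
  -- let `ε → 0`
  refine le_of_forall_pos_le_add fun δ hδ => ?_
  have h1 := key (min (δ / 3) (1 / 4)) (by positivity)
    ((min_le_right _ _).trans_lt (by norm_num))
  have h2 : min (δ / 3) (1 / 4) ≤ δ / 3 := min_le_left _ _
  linarith

theorem hardy_Z (d : ℝ → ℝ) (hd : AntitoneOn d (Icc 0 1)) (hb : ∀ s ∈ Icc (0 : ℝ) 1, |d s| ≤ 1)
    (hm : ∫ s in (0 : ℝ)..1, d s = 0) :
    (∀ s ∈ Icc (0 : ℝ) 1, 0 ≤ ∫ u in (0 : ℝ)..s, d u) ∧
    (∀ s ∈ Icc (0 : ℝ) 1, ∫ u in (0 : ℝ)..s, d u ≤ min s (1 - s)) ∧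
    ∫ s in (0 : ℝ)..1, ((∫ u in (0 : ℝ)..s, d u) / min s (1 - s)) ^ 2 ≤ 4 * ∫ s in (0 : ℝ)..1, d s ^ 2 := by
  -- extend to an antitone function
  obtain ⟨g, hg, hgd⟩ := hd.exists_antitone_extension
    ⟨-1, by rintro _ ⟨s, hs, rfl⟩; exact (abs_le.1 (hb s hs)).1⟩
    ⟨1, by rintro _ ⟨s, hs, rfl⟩; exact (abs_le.1 (hb s hs)).2⟩
  have hgi : ∀ a b, IntervalIntegrable g volume a b := fun a b => hg.intervalIntegrable
  have hgb : ∀ s ∈ Icc (0 : ℝ) 1, |g s| ≤ 1 := fun s hs => by rw [← hgd hs]; exact hb s hs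
  have hZ : ∀ s ∈ Icc (0 : ℝ) 1, ∫ u in (0 : ℝ)..s, d u = ∫ u in (0 : ℝ)..s, g u := by
    intro s hs
    refine intervalIntegral.integral_congr fun u hu => ?_
    rw [uIcc_of_le hs.1] at hu
    exact hgd ⟨hu.1, hu.2.trans hs.2⟩
  have hgm : ∫ s in (0 : ℝ)..1, g s = 0 := by
    rw [← hZ 1 ⟨zero_le_one, le_rfl⟩]
    exact hm
  have hsplit : ∀ s, (∫ u in (0 : ℝ)..s, g u) = -∫ u in s..(1 : ℝ), g u := by
    intro s
    have := intervalIntegral.integral_add_adjacent_intervals (hgi 0 s) (hgi s 1)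
    rw [hgm] at this
    linarith
  have hpos : ∀ s ∈ Icc (0 : ℝ) 1, 0 ≤ ∫ u in (0 : ℝ)..s, g u := by
    intro s hs
    rcases le_total 0 (g s) with h | h
    · exact intervalIntegral.integral_nonneg hs.1 fun u hu => h.trans (hg hu.2)
    · rw [hsplit]
      have : ∫ u in s..(1 : ℝ), g u ≤ 0 := by
        have h2 : 0 ≤ ∫ u in s..(1 : ℝ), -g u :=
          intervalIntegral.integral_nonneg hs.2 fun u hu => by
            have := hg hu.1
            linarith
        rw [intervalIntegral.integral_neg] at h2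
        linarith
      linarith
  have hle1 : ∀ s ∈ Icc (0 : ℝ) 1, ∫ u in (0 : ℝ)..s, g u ≤ s := by
    intro s hs
    have h1 := intervalIntegral.norm_integral_le_of_norm_le_const (a := 0) (b := s) (f := g)
      (C := 1) (by
        intro x hx
        rw [uIoc_of_le hs.1] at hx
        exact hgb x ⟨hx.1.le, hx.2.trans hs.2⟩)
    rw [sub_zero, abs_of_nonneg hs.1, one_mul] at h1
    exact (le_abs_self _).trans h1
  have hle2 : ∀ s ∈ Icc (0 : ℝ) 1, ∫ u in (0 : ℝ)..s, g u ≤ 1 - s := by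
    intro s hs
    rw [hsplit]
    have h1 := intervalIntegral.norm_integral_le_of_norm_le_const (a := s) (b := 1) (f := g)
      (C := 1) (by
        intro x hx
        rw [uIoc_of_le hs.2] at hx
        exact hgb x ⟨hs.1.trans hx.1.le, hx.2⟩)
    rw [abs_of_nonneg (by linarith [hs.2] : (0 : ℝ) ≤ 1 - s), one_mul] at h1
    exact (neg_le_abs _).trans h1
  refine ⟨fun s hs => by rw [hZ s hs]; exact hpos s hs,
    fun s hs => by rw [hZ s hs]; exact le_min (hle1 s hs) (hle2 s hs), ?_⟩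
  -- reduction to the two halves
  have hd2 : ∫ s in (0 : ℝ)..1, d s ^ 2 = ∫ s in (0 : ℝ)..1, g s ^ 2 := by
    refine intervalIntegral.integral_congr fun u hu => ?_
    rw [uIcc_of_le zero_le_one] at hu
    rw [hgd hu]
  have hL : ∫ s in (0 : ℝ)..1, ((∫ u in (0 : ℝ)..s, d u) / min s (1 - s)) ^ 2 =
      ∫ s in (0 : ℝ)..1, ((∫ u in (0 : ℝ)..s, g u) / min s (1 - s)) ^ 2 := by
    refine intervalIntegral.integral_congr fun u hu => ?_
    rw [uIcc_of_le zero_le_one] at hu
    rw [hZ u hu]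
  rw [hL, hd2]
  set Z : ℝ → ℝ := fun s => ∫ u in (0 : ℝ)..s, g u with hZd
  have Zc : Continuous Z := intervalIntegral.continuous_primitive hgi 0
  have hφm : Measurable fun s => (Z s / min s (1 - s)) ^ 2 :=
    (Zc.measurable.div (measurable_id.min (measurable_const.sub measurable_id))).pow_const 2
  have hφb : ∀ s ∈ Icc (0 : ℝ) 1, |(Z s / min s (1 - s)) ^ 2| ≤ 1 := by
    intro s hs
    rw [abs_of_nonneg (sq_nonneg _), sq_le_one_iff_abs_le_one, abs_div,
      abs_of_nonneg (hpos s hs), abs_of_nonneg (le_min hs.1 (by linarith [hs.2]))]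
    exact div_le_one_of_le₀ (le_min (hle1 s hs) (hle2 s hs)) (le_min hs.1 (by linarith [hs.2]))
  have hφi : ∀ a b, 0 ≤ a → a ≤ b → b ≤ 1 →
      IntervalIntegrable (fun s => (Z s / min s (1 - s)) ^ 2) volume a b :=
    fun a b h0 hab h1 => hz_intble hφm hab fun s hs =>
      hφb s ⟨h0.trans hs.1.le, hs.2.trans h1⟩
  have hg2i : ∀ a b, 0 ≤ a → a ≤ b → b ≤ 1 → IntervalIntegrable (fun s => g s ^ 2) volume a b :=
    fun a b h0 hab h1 => hz_intble (C := 1) (hg.measurable.pow_const 2) hab fun s hs => by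
      rw [abs_of_nonneg (sq_nonneg _), sq_le_one_iff_abs_le_one]
      exact hgb s ⟨h0.trans hs.1.le, hs.2.trans h1⟩
  rw [← intervalIntegral.integral_add_adjacent_intervals
      (hφi 0 (1 / 2) le_rfl (by norm_num) (by norm_num))
      (hφi (1 / 2) 1 (by norm_num) (by norm_num) le_rfl),
    ← intervalIntegral.integral_add_adjacent_intervals
      (hg2i 0 (1 / 2) le_rfl (by norm_num) (by norm_num))
      (hg2i (1 / 2) 1 (by norm_num) (by norm_num) le_rfl), mul_add]
  refine add_le_add ?_ ?_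
  · have h1 := hardy_half g hg hgb
    refine le_trans (le_of_eq ?_) h1
    refine intervalIntegral.integral_congr fun s hs => ?_
    rw [uIcc_of_le (by norm_num : (0 : ℝ) ≤ 1 / 2)] at hs
    change (Z s / min s (1 - s)) ^ 2 = (Z s / s) ^ 2
    rw [min_eq_left (by linarith [hs.2])]
  · -- reflection
    set g' : ℝ → ℝ := fun s => -g (1 - s) with hg'
    have hg'a : Antitone g' := by
      intro x y hxy
      simp only [hg']
      have := hg (show 1 - y ≤ 1 - x by linarith)
      linarith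
    have hg'b : ∀ s ∈ Icc (0 : ℝ) 1, |g' s| ≤ 1 := by
      intro s hs
      simp only [hg', abs_neg]
      exact hgb (1 - s) ⟨by linarith [hs.2], by linarith [hs.1]⟩
    have h1 := hardy_half g' hg'a hg'b
    have hZ' : ∀ s, ∫ u in (0 : ℝ)..s, g' u = Z (1 - s) := by
      intro s
      simp only [hg', intervalIntegral.integral_neg]
      rw [intervalIntegral.integral_comp_sub_left (fun u => g u) 1]
      simp only [hZd]
      rw [sub_zero, hsplit]
    have e1 : ∫ s in (1 / 2 : ℝ)..1, (Z s / min s (1 - s)) ^ 2 =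
        ∫ s in (0 : ℝ)..(1 / 2), ((∫ u in (0 : ℝ)..s, g' u) / s) ^ 2 := by
      have h2 := intervalIntegral.integral_comp_sub_left (a := 0) (b := 1 / 2)
        (fun s => (Z s / min s (1 - s)) ^ 2) 1
      rw [sub_zero, show (1 : ℝ) - 1 / 2 = 1 / 2 by norm_num] at h2
      rw [← h2]
      refine intervalIntegral.integral_congr fun s hs => ?_
      rw [uIcc_of_le (by norm_num : (0 : ℝ) ≤ 1 / 2)] at hs
      rw [hZ' s, show 1 - (1 - s) = s by ring, min_eq_right (by linarith [hs.2])]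
    have e2 : ∫ s in (1 / 2 : ℝ)..1, g s ^ 2 = ∫ s in (0 : ℝ)..(1 / 2), g' s ^ 2 := by
      have h2 := intervalIntegral.integral_comp_sub_left (a := 0) (b := 1 / 2)
        (fun s => g s ^ 2) 1
      rw [sub_zero, show (1 : ℝ) - 1 / 2 = 1 / 2 by norm_num] at h2
      rw [← h2]
      refine intervalIntegral.integral_congr fun s _ => ?_
      simp only [hg', neg_sq]
    rw [e1, e2]
    exact h1

end IsoHull
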