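import Pool.Agent.IsoHull27.Defs1D
import Pool.Agent.IsoHull27.OneD2
import Pool.Agent.IsoHull27.OneD3

open MeasureTheory Set Filter Topology
open scoped ENNReal NNReal

namespace IsoHull

/-! ### helpers: measurability of functionals of the level sets -/

/-- a functional of the level set that depends only on finitely many cells is measurable and bounded -/
private theorem gs_meas (h : ℕ → ℝ) (N : ℕ) (Φ : (ℕ → ℝ) → ℝ)
    (hΦ : ∀ e e' : ℕ → ℝ, (∀ k, k < N → e k = e' k) → Φ e = Φ e') :
    Measurable (fun s => Φ (lev h s)) ∧ ∃ C, ∀ s, |Φ (lev h s)| ≤ C := by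
  classical
  let L : ℝ → (Fin N → Bool) := fun s k => decide (s < h k)
  let Φ' : (Fin N → Bool) → ℝ := fun B =>
    Φ (fun k => if hk : k < N then (if B ⟨k, hk⟩ then 1 else 0) else 0)
  have hL : Measurable L := by
    refine measurable_pi_lambda _ fun k => ?_
    apply measurable_to_bool
    have : (fun s : ℝ => decide (s < h k)) ⁻¹' {true} = Iio (h k) := by
      ext s; simp
    rw [this]
    exact measurableSet_Iio
  have heq : (fun s => Φ (lev h s)) = fun s => Φ' (L s) := by
    funext s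
    apply hΦ
    intro k hk
    simp [lev, L, hk]
  have hΦ' : Measurable Φ' := measurable_of_countable Φ'
  constructor
  · rw [heq]
    exact hΦ'.comp hL
  · refine ⟨∑ B : Fin N → Bool, |Φ' B|, fun s => ?_⟩
    rw [show Φ (lev h s) = Φ' (L s) from congrFun heq s]
    exact Finset.single_le_sum (f := fun B => |Φ' B|) (fun B _ => abs_nonneg _) (Finset.mem_univ (L s))

private theorem gs_ii {f : ℝ → ℝ} (hf : Measurable f) {C : ℝ} (hC : ∀ s, |f s| ≤ C) (a b : ℝ) :
    IntervalIntegrable f volume a b := by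
  rw [intervalIntegrable_iff]
  refine Measure.integrableOn_of_bounded (M := C) ?_ hf.aestronglyMeasurable ?_
  · exact measure_Ioc_lt_top.ne
  · exact Filter.Eventually.of_forall fun s => by rw [Real.norm_eq_abs]; exact hC s

/-- integral of `f` over the subgraph -/
private theorem gs_int_lev {f : ℝ → ℝ} {x : ℝ} (hx : x ∈ Icc (0 : ℝ) 1) :
    ∫ s in (0 : ℝ)..1, f s * (if s < x then 1 else 0) = ∫ s in (0 : ℝ)..x, f s := by
  have h1 : ∫ s in (0 : ℝ)..1, f s * (if s < x then 1 else 0) =
      ∫ s in (0 : ℝ)..1, indicator {s | s ≤ x} f s := by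
    apply intervalIntegral.integral_congr_ae
    have hx0 : ∀ᵐ s : ℝ ∂volume, s ≠ x := by
      rw [ae_iff]
      simp
    filter_upwards [hx0] with s hs _
    by_cases h : s < x
    · rw [if_pos h, indicator_of_mem (show s ∈ {s | s ≤ x} from h.le)]; ring
    · have : ¬ (s ≤ x) := fun h' => h (lt_of_le_of_ne h' hs)
      rw [if_neg h, indicator_of_notMem (show s ∉ {s | s ≤ x} from this)]; ring
  rw [h1]
  exact intervalIntegral.integral_indicator hx

private theorem gs_mul_lev_ii {f : ℝ → ℝ} (hf : ∀ a b : ℝ, IntervalIntegrable f volume a b)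
    (x : ℝ) (a b : ℝ) : IntervalIntegrable (fun s => f s * (if s < x then 1 else 0)) volume a b := by
  have : (fun s => f s * (if s < x then (1 : ℝ) else 0)) = indicator (Iio x) f := by
    funext s
    by_cases h : s < x
    · rw [if_pos h, indicator_of_mem (show s ∈ Iio x from h)]; ring
    · rw [if_neg h, indicator_of_notMem (show s ∉ Iio x from h)]; ring
  rw [this, intervalIntegrable_iff]
  exact ((intervalIntegrable_iff.mp (hf a b)).indicator measurableSet_Iio)

/-- coarea formula for one jump -/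
private theorem gs_coarea {f : ℝ → ℝ} (hf : ∀ a b : ℝ, IntervalIntegrable f volume a b)
    (hf0 : ∀ s, 0 ≤ f s) {x y : ℝ} (hx : x ∈ Icc (0 : ℝ) 1) (hy : y ∈ Icc (0 : ℝ) 1) :
    |∫ s in x..y, f s| =
      ∫ s in (0 : ℝ)..1, f s * |(if s < y then (1 : ℝ) else 0) - (if s < x then 1 else 0)| := by
  -- the case x ≤ y
  have key : ∀ x y : ℝ, x ∈ Icc (0 : ℝ) 1 → y ∈ Icc (0 : ℝ) 1 → x ≤ y → |∫ s in x..y, f s| =
      ∫ s in (0 : ℝ)..1, f s * |(if s < y then (1 : ℝ) else 0) - (if s < x then 1 else 0)| := by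
    intro x y hx hy hxy
    have h1 : ∀ s, f s * |(if s < y then (1 : ℝ) else 0) - (if s < x then 1 else 0)| =
        f s * (if s < y then (1 : ℝ) else 0) - f s * (if s < x then 1 else 0) := by
      intro s
      by_cases h2 : s < x
      · rw [if_pos h2, if_pos (h2.trans_le hxy)]; simp
      · rw [if_neg h2]
        by_cases h3 : s < y
        · rw [if_pos h3]; simp
        · rw [if_neg h3]; simp
    simp_rw [h1]
    rw [intervalIntegral.integral_sub (gs_mul_lev_ii hf y 0 1) (gs_mul_lev_ii hf x 0 1),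
      gs_int_lev hx, gs_int_lev hy, intervalIntegral.integral_interval_sub_left (hf _ _) (hf _ _),
      abs_of_nonneg]
    exact intervalIntegral.integral_nonneg hxy fun s _ => hf0 s
  rcases le_total x y with h | h
  · exact key x y hx hy h
  · rw [intervalIntegral.integral_symm, abs_neg, key y x hy hx h]
    congr 1
    funext s
    rw [abs_sub_comm]

/-! ### helpers: sums -/

private theorem gs_tel (R : ℕ → ℝ) {a b : ℕ} (hab : a ≤ b) :
    ∑ k ∈ Finset.Ico a b, (R k - R (k + 1)) = R a - R b := by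
  induction b, hab using Nat.le_induction with
  | base => simp
  | succ m hm ih => rw [Finset.sum_Ico_succ_top hm, ih]; ring

private theorem gs_split (F : ℕ → ℝ) {a b n : ℕ} (hab : a ≤ b) (hbn : b ≤ n + 1) :
    ∑ k ∈ Finset.range (n + 1), F k = (∑ k ∈ Finset.Ico 0 a, F k) + (∑ k ∈ Finset.Ico a b, F k) +
      ∑ k ∈ Finset.Ico b (n + 1), F k := by
  rw [Finset.range_eq_Ico, Finset.sum_Ico_consecutive F (Nat.zero_le a) hab,
    Finset.sum_Ico_consecutive F (Nat.zero_le b) hbn]

/-- bounds for sums of a `0/1` sequence -/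
private theorem gs_sum_bd {R : ℕ → ℝ} {n : ℕ} (hR : ∀ k, k ≤ n → R (k + 1) ≤ R k)
    (e : ℕ → ℝ) (he : ∀ k, e k = 0 ∨ e k = 1) {a b : ℕ} (hab : a ≤ b) (hb : b ≤ n + 1) :
    0 ≤ (∑ k ∈ Finset.Ico a b, e k * (R k - R (k + 1))) ∧
      (∑ k ∈ Finset.Ico a b, e k * (R k - R (k + 1))) ≤ R a - R b := by
  constructor
  · apply Finset.sum_nonneg
    intro k hk
    rw [Finset.mem_Ico] at hk
    have h1 := hR k (by omega)
    rcases he k with h | h <;> rw [h]
    · simp
    · linarith
  · rw [← gs_tel R hab]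
    apply Finset.sum_le_sum
    intro k hk
    rw [Finset.mem_Ico] at hk
    have h1 := hR k (by omega)
    rcases he k with h | h <;> rw [h]
    · linarith
    · linarith

private theorem gs_pt {J : ℝ → ℝ} (hJ : JProp J) {R : ℕ → ℝ} {n k₁ k₂ j₁ j₂ : ℕ} {p b α₀ : ℝ}
    (G : Grid R n k₁ k₂ j₁ j₂ p b α₀) (hα : 0 < α₀) (hb : 0 < b) (hp0 : 0 ≤ p) (hp : p ≤ α₀ / 4)
    (e : ℕ → ℝ) (he : ∀ k, e k = 0 ∨ e k = 1) (C : ℝ) (hC1 : α₀ - p ≤ C) (hC2 : C ≤ 1 - α₀) :
    |gmass R n e - (∑ k ∈ Finset.Ico k₁ k₂, e k * (R k - R (k + 1))) - p / 2| ≤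
      2 / b ^ 2 * (gper J R n e - J (gmass R n e)) +
        p * (4 / α₀ ^ 2) * ((∑ k ∈ Finset.Ico k₁ k₂, e k * (R k - R (k + 1))) - C) ^ 2 := by
  obtain ⟨hanti, hz, hl, o1, o2, o3, o4, o5, hk1, hk2, hj1, hj2, hb1, hb2⟩ := G
  set c : ℝ := ∑ k ∈ Finset.Ico k₁ k₂, e k * (R k - R (k + 1)) with hc
  have hk12 : k₁ ≤ k₂ := by omega
  have hsplit : gmass R n e = (∑ k ∈ Finset.Ico 0 k₁, e k * (R k - R (k + 1))) + c +
      ∑ k ∈ Finset.Ico k₂ (n + 1), e k * (R k - R (k + 1)) :=
    gs_split (fun k => e k * (R k - R (k + 1))) hk12 (by omega)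
  have hL := gs_sum_bd hanti e he (Nat.zero_le k₁) (by omega)
  have hRr := gs_sum_bd hanti e he (show k₂ ≤ n + 1 by omega) le_rfl
  rw [hz] at hL
  rw [hl] at hRr
  have hiso : 0 ≤ gper J R n e - J (gmass R n e) := by
    have := grid_iso hJ hanti hz hl e he
    linarith
  have hb2' : 0 < 2 / b ^ 2 := by positivity
  by_cases hex : ∃ k, j₁ ≤ k + 1 ∧ k + 1 ≤ j₂ ∧ e k ≠ e (k + 1)
  · -- a jump in the inner range
    obtain ⟨k, hk1', hk2', hne⟩ := hex
    have hst := grid_stab hJ hanti hz hl e he k (by omega) hne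
    set e' : ℕ → ℝ := fun j => if j ≤ k then e k else e (k + 1) with he'
    set D : ℝ := ∑ j ∈ Finset.range (n + 1), |e j - e' j| * (R j - R (j + 1)) with hD
    have hRmono : ∀ a b : ℕ, a ≤ b → b ≤ n + 1 → R b ≤ R a := by
      intro a b hab
      induction b, hab using Nat.le_induction with
      | base => intro _; exact le_rfl
      | succ m hm ih =>
        intro hmn
        exact (hanti m (by omega)).trans (ih (by omega))
    have hr1 : b ≤ R (k + 1) := hb2.trans (hRmono _ _ hk2' (by omega))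
    have hr2 : b ≤ 1 - R (k + 1) := by
      have := hRmono _ _ hk1' (show k + 1 ≤ n + 1 by omega)
      linarith
    have hD0 : 0 ≤ D := by
      apply Finset.sum_nonneg
      intro j hj
      rw [Finset.mem_range] at hj
      have := hanti j (by omega)
      exact mul_nonneg (abs_nonneg _) (by linarith)
    have hrr : b ^ 2 ≤ R (k + 1) * (1 - R (k + 1)) := by
      rw [sq]; exact mul_le_mul hr1 hr2 hb.le (by linarith)
    have hD1 : D ≤ 2 / b ^ 2 * (gper J R n e - J (gmass R n e)) := by
      have h1 : 1 / 2 * b ^ 2 * D ≤ gper J R n e - J (gmass R n e) := by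
        have : 1 / 2 * b ^ 2 * D ≤ 1 / 2 * (R (k + 1) * (1 - R (k + 1))) * D := by
          apply mul_le_mul_of_nonneg_right _ hD0
          linarith
        linarith
      have hb3 : 0 < b ^ 2 := by positivity
      rw [div_mul_eq_mul_div, le_div_iff₀ hb3]
      linarith
    have hval : |gmass R n e - c - p / 2| ≤ D := by
      -- the half line has exterior mass `p/2`
      have hsum1 : e k + e (k + 1) = 1 := by
        rcases he k with h | h <;> rcases he (k + 1) with h' | h' <;> rw [h, h'] at hne ⊢ <;>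
          first | (exact absurd rfl hne) | norm_num
      have hl' : ∑ j ∈ Finset.Ico 0 k₁, e' j * (R j - R (j + 1)) = e k * (p / 2) := by
        have : ∑ j ∈ Finset.Ico 0 k₁, e' j * (R j - R (j + 1)) =
            ∑ j ∈ Finset.Ico 0 k₁, e k * (R j - R (j + 1)) := by
          apply Finset.sum_congr rfl
          intro j hj
          rw [Finset.mem_Ico] at hj
          simp only [he']
          rw [if_pos (by omega)]
        rw [this, ← Finset.mul_sum, gs_tel R (Nat.zero_le k₁), hz, hk1]
        ring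
      have hr' : ∑ j ∈ Finset.Ico k₂ (n + 1), e' j * (R j - R (j + 1)) = e (k + 1) * (p / 2) := by
        have : ∑ j ∈ Finset.Ico k₂ (n + 1), e' j * (R j - R (j + 1)) =
            ∑ j ∈ Finset.Ico k₂ (n + 1), e (k + 1) * (R j - R (j + 1)) := by
          apply Finset.sum_congr rfl
          intro j hj
          rw [Finset.mem_Ico] at hj
          simp only [he']
          rw [if_neg (by omega)]
        rw [this, ← Finset.mul_sum, gs_tel R (show k₂ ≤ n + 1 by omega), hl, hk2]
        ring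
      have h1 : gmass R n e - c - p / 2 =
          (∑ j ∈ Finset.Ico 0 k₁, (e j - e' j) * (R j - R (j + 1))) +
          ∑ j ∈ Finset.Ico k₂ (n + 1), (e j - e' j) * (R j - R (j + 1)) := by
        simp_rw [sub_mul (e _) (e' _)]
        rw [Finset.sum_sub_distrib, Finset.sum_sub_distrib, hl', hr', hsplit]
        have : p / 2 = e k * (p / 2) + e (k + 1) * (p / 2) := by
          rw [← add_mul, hsum1, one_mul]
        linarith
      have habs : ∀ a b : ℕ, a ≤ b → b ≤ n + 1 →
          |∑ j ∈ Finset.Ico a b, (e j - e' j) * (R j - R (j + 1))| ≤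
            ∑ j ∈ Finset.Ico a b, |e j - e' j| * (R j - R (j + 1)) := by
        intro a b hab hbn
        refine (Finset.abs_sum_le_sum_abs _ _).trans ?_
        apply Finset.sum_le_sum
        intro j hj
        rw [Finset.mem_Ico] at hj
        have := hanti j (by omega)
        rw [abs_mul, abs_of_nonneg (show 0 ≤ R j - R (j + 1) by linarith)]
      have hmid : 0 ≤ ∑ j ∈ Finset.Ico k₁ k₂, |e j - e' j| * (R j - R (j + 1)) := by
        apply Finset.sum_nonneg
        intro j hj
        rw [Finset.mem_Ico] at hj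
        have := hanti j (by omega)
        exact mul_nonneg (abs_nonneg _) (by linarith)
      have hDs : D = (∑ j ∈ Finset.Ico 0 k₁, |e j - e' j| * (R j - R (j + 1))) +
          (∑ j ∈ Finset.Ico k₁ k₂, |e j - e' j| * (R j - R (j + 1))) +
          ∑ j ∈ Finset.Ico k₂ (n + 1), |e j - e' j| * (R j - R (j + 1)) :=
        gs_split (fun j => |e j - e' j| * (R j - R (j + 1))) hk12 (by omega)
      rw [h1, hDs]
      have ha := habs 0 k₁ (by omega) (by omega)
      have hb' := habs k₂ (n + 1) (by omega) (by omega)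
      refine (abs_add_le _ _).trans ?_
      linarith
    have h3 : 0 ≤ p * (4 / α₀ ^ 2) * (c - C) ^ 2 := by positivity
    linarith
  · -- no jump in the inner range
    push Not at hex
    have hconst : ∀ j, j₁ ≤ j → j ≤ j₂ → e j = e j₁ := by
      intro j hj
      induction j, hj using Nat.le_induction with
      | base => intro _; rfl
      | succ m hm ih =>
        intro hmn
        rw [← hex m (by omega) hmn]
        exact ih (by omega)
    have hmid : ∑ k ∈ Finset.Ico j₁ j₂, e k * (R k - R (k + 1)) = e j₁ * (R j₁ - R j₂) := by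
      rw [← gs_tel R o3.le, Finset.mul_sum]
      apply Finset.sum_congr rfl
      intro j hj
      rw [Finset.mem_Ico] at hj
      rw [hconst j hj.1 hj.2.le]
    have hcs : c = (∑ k ∈ Finset.Ico k₁ j₁, e k * (R k - R (k + 1))) + e j₁ * (R j₁ - R j₂) +
        ∑ k ∈ Finset.Ico j₂ k₂, e k * (R k - R (k + 1)) := by
      rw [← hmid, hc, Finset.sum_Ico_consecutive _ o2 o3.le,
        Finset.sum_Ico_consecutive _ (by omega) o4]
    have hA := gs_sum_bd hanti e he o2 (by omega)
    have hB := gs_sum_bd hanti e he o4 (by omega)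
    rw [hk1] at hA
    rw [hk2] at hB
    have hd : (α₀ / 2) ^ 2 ≤ (c - C) ^ 2 := by
      rcases he j₁ with h | h
      · rw [h] at hcs
        have : c - C ≤ -(α₀ / 2) := by linarith
        nlinarith
      · rw [h] at hcs
        have : α₀ / 2 ≤ c - C := by linarith
        nlinarith
    have h1 : |gmass R n e - c - p / 2| ≤ p := by
      rw [abs_le]
      constructor <;> linarith [hL.1, hL.2, hRr.1, hRr.2]
    have h2 : p ≤ p * (4 / α₀ ^ 2) * (c - C) ^ 2 := by
      have h4 : 1 ≤ 4 / α₀ ^ 2 * (c - C) ^ 2 := by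
        have : 4 / α₀ ^ 2 * (α₀ / 2) ^ 2 = 1 := by field_simp; norm_num
        calc (1 : ℝ) = 4 / α₀ ^ 2 * (α₀ / 2) ^ 2 := this.symm
          _ ≤ _ := by
            apply mul_le_mul_of_nonneg_left hd
            positivity
      calc p = p * 1 := by ring
        _ ≤ p * (4 / α₀ ^ 2 * (c - C) ^ 2) := mul_le_mul_of_nonneg_left h4 hp0
        _ = _ := by ring
    have h3 : 0 ≤ 2 / b ^ 2 * (gper J R n e - J (gmass R n e)) := mul_nonneg hb2'.le hiso
    linarith

private theorem gs_lev_ii (h : ℕ → ℝ) (N : ℕ) (Φ : (ℕ → ℝ) → ℝ)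
    (hΦ : ∀ e e' : ℕ → ℝ, (∀ k, k < N → e k = e' k) → Φ e = Φ e') (a b : ℝ) :
    IntervalIntegrable (fun s => Φ (lev h s)) volume a b := by
  obtain ⟨hm, C, hC⟩ := gs_meas h N Φ hΦ
  exact gs_ii hm hC a b

private theorem gs_sqrt {x : ℝ} (h0 : 0 ≤ x) (h1 : x ≤ 1 / 2) :
    1 - x ^ 2 ≤ Real.sqrt (1 - x ^ 2) ∧ 3 / 4 ≤ Real.sqrt (1 - x ^ 2) ∧
      Real.sqrt (1 - x ^ 2) ≤ 1 := by
  have hx : x ^ 2 ≤ 1 / 4 := by nlinarith
  have h2 : 1 - x ^ 2 ≤ Real.sqrt (1 - x ^ 2) := by
    apply Real.le_sqrt_of_sq_le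
    nlinarith [sq_nonneg x]
  refine ⟨h2, by linarith, ?_⟩
  rw [Real.sqrt_le_one]
  nlinarith [sq_nonneg x]

/-- `(*)` for step functions. `S = sin Θ`. -/
theorem grid_star (α₀ Ca b : ℝ) (h₀ : 0 < α₀) (hCa : 0 ≤ Ca) (hb : 0 < b) :
    ∃ p₀ κ₀ : ℝ, 0 < p₀ ∧ 1 ≤ κ₀ ∧ ∀ J : ℝ → ℝ, JProp J → ∀ (R : ℕ → ℝ) (n k₁ k₂ j₁ j₂ : ℕ) (p : ℝ),
      Grid R n k₁ k₂ j₁ j₂ p b α₀ → 0 ≤ p → p ≤ p₀ →
      ∀ h : ℕ → ℝ, (∀ k, h k ∈ Icc (0 : ℝ) 1) → gmass R n h ∈ Icc α₀ (1 - α₀) →
      ∀ Jα sl : ℝ, (∀ m ∈ Icc (0 : ℝ) 1, Jα + sl * (m - gmass R n h) - Ca * (m - gmass R n h) ^ 2 ≤ J m) →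
      ∃ S : ℝ → ℝ, ContinuousOn S (Ioo 0 1) ∧ Measurable S ∧ (∀ s, 0 ≤ S s ∧ S s ≤ 1 / 2) ∧
        LipschitzOnWith 1 (fun s => 2 * S s * min s (1 - s)) (Icc 0 1) ∧
        Jα + 1 / 2 * (∫ s in (0 : ℝ)..1, gdef J R n h s) + (∫ s in (0 : ℝ)..1, d0 R h k₁ k₂ s ^ 2) ≤
          (∑ k ∈ Finset.range n, J (R (k + 1)) * |∫ s in (h k)..(h (k + 1)), Real.sqrt (1 - S s ^ 2)|) +
          κ₀ * ∑ k ∈ Finset.Ico k₁ k₂, (R k - R (k + 1)) * (S (h k) * min (h k) (1 - h k)) := by
  have hden : 0 < 8 * (Ca * (2 / b ^ 2) + 1) := by positivity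
  refine ⟨min (α₀ / 4) (1 / (8 * (Ca * (2 / b ^ 2) + 1))), 6 + 5 * Ca, ?_, by linarith, ?_⟩
  · exact lt_min (by linarith) (by positivity)
  intro J hJ R n k₁ k₂ j₁ j₂ p G hp0 hp h hh hmass Jα sl hJα
  have hpα : p ≤ α₀ / 4 := hp.trans (min_le_left _ _)
  have hpC : 2 * Ca * (2 / b ^ 2) * p ≤ 1 / 4 := by
    have h1 : p ≤ 1 / (8 * (Ca * (2 / b ^ 2) + 1)) := hp.trans (min_le_right _ _)
    rw [le_div_iff₀ hden] at h1
    nlinarith
  have hG := G
  obtain ⟨hanti, hz, hl, o1, o2, o3, o4, o5, hk1, hk2, hj1, hj2, hb1, hb2⟩ := G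
  have hk12 : k₁ ≤ k₂ := by omega
  have hlev : ∀ s k, lev h s k = 0 ∨ lev h s k = 1 := by
    intro s k
    unfold lev
    split_ifs
    · right; rfl
    · left; rfl
  -- dependence on finitely many cells
  have dep_m : ∀ e e' : ℕ → ℝ, (∀ k, k < n + 1 → e k = e' k) → gmass R n e = gmass R n e' := by
    intro e e' hee
    unfold gmass
    apply Finset.sum_congr rfl
    intro k hk
    rw [hee k (Finset.mem_range.mp hk)]
  have dep_c : ∀ e e' : ℕ → ℝ, (∀ k, k < n + 1 → e k = e' k) →
      (∑ k ∈ Finset.Ico k₁ k₂, e k * (R k - R (k + 1))) =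
        ∑ k ∈ Finset.Ico k₁ k₂, e' k * (R k - R (k + 1)) := by
    intro e e' hee
    apply Finset.sum_congr rfl
    intro k hk
    rw [Finset.mem_Ico] at hk
    rw [hee k (by omega)]
  have dep_p : ∀ e e' : ℕ → ℝ, (∀ k, k < n + 1 → e k = e' k) → gper J R n e = gper J R n e' := by
    intro e e' hee
    unfold gper
    apply Finset.sum_congr rfl
    intro k hk
    rw [Finset.mem_range] at hk
    rw [hee k (by omega), hee (k + 1) (by omega)]
  set α' : ℝ := gmass R n h with hα'
  set C : ℝ := ∫ u in (0 : ℝ)..1, cmass R h k₁ k₂ u with hC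
  -- integrability
  have im : ∀ a b : ℝ, IntervalIntegrable (fun s => gmass R n (lev h s)) volume a b :=
    gs_lev_ii h (n + 1) (fun e => gmass R n e) dep_m
  have ic : ∀ a b : ℝ, IntervalIntegrable (fun s => cmass R h k₁ k₂ s) volume a b :=
    gs_lev_ii h (n + 1) (fun e => ∑ k ∈ Finset.Ico k₁ k₂, e k * (R k - R (k + 1))) dep_c
  have idef : ∀ a b : ℝ, IntervalIntegrable (fun s => gdef J R n h s) volume a b :=
    gs_lev_ii h (n + 1) (fun e => gper J R n e - J (gmass R n e))
      (fun e e' hee => by rw [dep_p e e' hee, dep_m e e' hee])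
  have id : ∀ a b : ℝ, IntervalIntegrable (fun s => d0 R h k₁ k₂ s) volume a b :=
    gs_lev_ii h (n + 1) (fun e => (∑ k ∈ Finset.Ico k₁ k₂, e k * (R k - R (k + 1))) - C)
      (fun e e' hee => by rw [dep_c e e' hee])
  have id2 : ∀ a b : ℝ, IntervalIntegrable (fun s => d0 R h k₁ k₂ s ^ 2) volume a b :=
    gs_lev_ii h (n + 1) (fun e => ((∑ k ∈ Finset.Ico k₁ k₂, e k * (R k - R (k + 1))) - C) ^ 2)
      (fun e e' hee => by rw [dep_c e e' hee])
  -- basic bounds
  have hcb : ∀ s, 0 ≤ cmass R h k₁ k₂ s ∧ cmass R h k₁ k₂ s ≤ 1 - p := by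
    intro s
    have := gs_sum_bd hanti (lev h s) (hlev s) hk12 (show k₂ ≤ n + 1 by omega)
    rw [hk1, hk2] at this
    exact ⟨this.1, by unfold cmass; linarith [this.2]⟩
  have hxb : ∀ s, 0 ≤ gmass R n (lev h s) - cmass R h k₁ k₂ s ∧
      gmass R n (lev h s) - cmass R h k₁ k₂ s ≤ p := by
    intro s
    have h1 := gs_split (fun k => lev h s k * (R k - R (k + 1))) hk12 (show k₂ ≤ n + 1 by omega)
    have h2 := gs_sum_bd hanti (lev h s) (hlev s) (Nat.zero_le k₁) (by omega)
    have h3 := gs_sum_bd hanti (lev h s) (hlev s) (show k₂ ≤ n + 1 by omega) le_rfl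
    rw [hz, hk1] at h2
    rw [hl, hk2] at h3
    unfold gmass cmass
    rw [h1]
    constructor
    · linarith [h2.1, h3.1]
    · linarith [h2.2, h3.2]
  -- the integral of the mass of the level sets
  have hintlev : ∀ k, ∫ s in (0 : ℝ)..1, lev h s k = h k := by
    intro k
    have := gs_int_lev (f := fun _ => (1 : ℝ)) (hh k)
    simp only [one_mul] at this
    unfold lev
    rw [this]
    simp
  have ilev : ∀ k, IntervalIntegrable (fun s => lev h s k) volume 0 1 := by
    intro k
    have := gs_mul_lev_ii (f := fun _ => (1 : ℝ)) (fun a b => intervalIntegrable_const) (h k) 0 1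
    simpa [lev] using this
  have hintm : ∫ s in (0 : ℝ)..1, gmass R n (lev h s) = α' := by
    unfold gmass
    rw [intervalIntegral.integral_finsetSum]
    · rw [hα']
      unfold gmass
      apply Finset.sum_congr rfl
      intro k _
      rw [intervalIntegral.integral_mul_const, hintlev k]
    · intro k _
      exact (ilev k).mul_const _
  have hC0 : ∫ s in (0 : ℝ)..1, (gmass R n (lev h s) - cmass R h k₁ k₂ s) = α' - C := by
    rw [intervalIntegral.integral_sub (im 0 1) (ic 0 1), hintm]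
  have hCb : α₀ - p ≤ C ∧ C ≤ 1 - α₀ := by
    have h1 : 0 ≤ ∫ s in (0 : ℝ)..1, (gmass R n (lev h s) - cmass R h k₁ k₂ s) :=
      intervalIntegral.integral_nonneg zero_le_one fun s _ => (hxb s).1
    have h2 : ∫ s in (0 : ℝ)..1, (gmass R n (lev h s) - cmass R h k₁ k₂ s) ≤
        ∫ _s in (0 : ℝ)..1, p :=
      intervalIntegral.integral_mono_on zero_le_one ((im 0 1).sub (ic 0 1))
        intervalIntegrable_const fun s _ => (hxb s).2
    rw [hC0] at h1 h2
    simp at h2
    have := hmass.1
    have := hmass.2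
    constructor <;> linarith
  have hC01 : 0 ≤ C ∧ C ≤ 1 := by
    have h1 : 0 ≤ C := intervalIntegral.integral_nonneg zero_le_one fun s _ => (hcb s).1
    exact ⟨h1, by linarith [hCb.2]⟩
  have hd1 : ∀ s, |d0 R h k₁ k₂ s| ≤ 1 := by
    intro s
    have h1 := hcb s
    unfold d0
    rw [abs_le]
    constructor <;> linarith [h1.1, h1.2, hC01.1, hC01.2]
  have hdint : ∫ s in (0 : ℝ)..1, d0 R h k₁ k₂ s = 0 := by
    unfold d0
    rw [intervalIntegral.integral_sub (ic 0 1) intervalIntegrable_const]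
    simp
  have hdanti : AntitoneOn (d0 R h k₁ k₂) (Icc 0 1) := by
    intro s _ s' _ hss
    unfold d0 cmass
    apply sub_le_sub_right
    apply Finset.sum_le_sum
    intro k hk
    rw [Finset.mem_Ico] at hk
    have h1 := hanti k (by omega)
    apply mul_le_mul_of_nonneg_right _ (by linarith)
    unfold lev
    by_cases h2 : s' < h k
    · rw [if_pos h2, if_pos (hss.trans_lt h2)]
    · rw [if_neg h2]
      split_ifs <;> norm_num
  obtain ⟨hZ0, hZ1, hZ2⟩ := hardy_Z (d0 R h k₁ k₂) hdanti (fun s _ => hd1 s) hdint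
  set Z : ℝ → ℝ := fun s => ∫ u in (0 : ℝ)..s, d0 R h k₁ k₂ u with hZ
  have hZc : Continuous Z := intervalIntegral.continuous_primitive id 0
  -- the angle
  set S : ℝ → ℝ := indicator (Icc (0 : ℝ) 1) (fun s => Z s / (2 * min s (1 - s))) with hS
  have hSin : ∀ s ∈ Icc (0 : ℝ) 1, S s = Z s / (2 * min s (1 - s)) := fun s hs =>
    indicator_of_mem hs _
  have hj0 : ∀ s ∈ Icc (0 : ℝ) 1, 0 ≤ min s (1 - s) := fun s hs =>
    le_min hs.1 (by linarith [hs.2])
  have hSZ : ∀ s ∈ Icc (0 : ℝ) 1, 2 * S s * min s (1 - s) = Z s := by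
    intro s hs
    rw [hSin s hs]
    rcases (hj0 s hs).eq_or_lt with h1 | h1
    · have h2 := hZ0 s hs
      have h3 := hZ1 s hs
      rw [← h1] at h3 ⊢
      simp only [hZ]
      simp only [mul_zero]
      linarith
    · field_simp
  have hSb : ∀ s, 0 ≤ S s ∧ S s ≤ 1 / 2 := by
    intro s
    by_cases hs : s ∈ Icc (0 : ℝ) 1
    · rw [hSin s hs]
      have h2 := hZ0 s hs
      have h3 := hZ1 s hs
      constructor
      · exact div_nonneg h2 (by linarith [hj0 s hs])
      · rcases (hj0 s hs).eq_or_lt with h1 | h1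
        · rw [← h1]; norm_num
        · rw [div_le_iff₀ (by linarith)]
          have : Z s ≤ min s (1 - s) := h3
          linarith
    · rw [hS, indicator_of_notMem hs]
      norm_num
  have hSm : Measurable S := by
    apply Measurable.indicator _ measurableSet_Icc
    exact hZc.measurable.div (by fun_prop)
  refine ⟨S, ?_, hSm, hSb, ?_, ?_⟩
  · -- continuity
    have h1 : ContinuousOn (fun s => Z s / (2 * min s (1 - s))) (Ioo 0 1) := by
      apply ContinuousOn.div hZc.continuousOn
      · fun_prop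
      · intro s hs
        have : 0 < min s (1 - s) := lt_min hs.1 (by linarith [hs.2])
        positivity
    exact h1.congr fun s hs => hSin s (Ioo_subset_Icc_self hs)
  · -- Lipschitz
    rw [lipschitzOnWith_iff_dist_le_mul]
    intro s hs s' hs'
    rw [hSZ s hs, hSZ s' hs', Real.dist_eq, Real.dist_eq]
    simp only [hZ]
    rw [intervalIntegral.integral_interval_sub_left (id _ _) (id _ _)]
    have := intervalIntegral.norm_integral_le_of_norm_le_const (a := s') (b := s) (C := 1)
      (f := d0 R h k₁ k₂) (fun x _ => by rw [Real.norm_eq_abs]; exact hd1 x)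
    rw [Real.norm_eq_abs] at this
    simpa using this
  · -- the inequality
    set f : ℝ → ℝ := fun s => Real.sqrt (1 - S s ^ 2) with hf
    have hfm : Measurable f := by
      apply Measurable.sqrt
      exact measurable_const.sub (hSm.pow_const 2)
    have hf1 : ∀ s, 1 - S s ^ 2 ≤ f s ∧ 3 / 4 ≤ f s ∧ f s ≤ 1 := fun s =>
      gs_sqrt (hSb s).1 (hSb s).2
    have hf0 : ∀ s, 0 ≤ f s := fun s => by linarith [(hf1 s).2.1]
    have hfi : ∀ a b : ℝ, IntervalIntegrable f volume a b :=
      gs_ii hfm (C := 1) fun s => by rw [abs_of_nonneg (hf0 s)]; exact (hf1 s).2.2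
    -- the coarea formula
    have iabs : ∀ k, IntervalIntegrable (fun s => f s * |lev h s (k + 1) - lev h s k|) volume 0 1 := by
      intro k
      obtain ⟨h1, K, h2⟩ := gs_meas h (k + 2) (fun e => |e (k + 1) - e k|)
        (fun e e' hee => by rw [hee (k + 1) (by omega), hee k (by omega)])
      refine gs_ii (hfm.mul h1) (C := K) (fun s => ?_) 0 1
      show |f s * (|lev h s (k + 1) - lev h s k|)| ≤ K
      rw [abs_mul]
      have h3 : |(|lev h s (k + 1) - lev h s k|)| ≤ K := h2 s
      have h4 : |f s| ≤ 1 := by rw [abs_of_nonneg (hf0 s)]; exact (hf1 s).2.2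
      calc |f s| * |(|lev h s (k + 1) - lev h s k|)|
          ≤ 1 * |(|lev h s (k + 1) - lev h s k|)| :=
            mul_le_mul_of_nonneg_right h4 (abs_nonneg _)
        _ ≤ K := by rw [one_mul]; exact h3
    have hco : ∑ k ∈ Finset.range n, J (R (k + 1)) * |∫ s in (h k)..(h (k + 1)), f s| =
        ∫ s in (0 : ℝ)..1, f s * gper J R n (lev h s) := by
      have h1 : ∀ s, f s * gper J R n (lev h s) =
          ∑ k ∈ Finset.range n, J (R (k + 1)) * (f s * |lev h s (k + 1) - lev h s k|) := by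
        intro s
        unfold gper
        rw [Finset.mul_sum]
        apply Finset.sum_congr rfl
        intro k _
        ring
      simp_rw [h1]
      rw [intervalIntegral.integral_finsetSum]
      · apply Finset.sum_congr rfl
        intro k _
        rw [intervalIntegral.integral_const_mul, gs_coarea hfi hf0 (hh k) (hh (k + 1))]
        rfl
      · intro k _
        exact (iabs k).const_mul _
    -- Fubini
    have hZh : ∀ k, S (h k) * min (h k) (1 - h k) = 1 / 2 * ∫ s in (0 : ℝ)..1,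
        d0 R h k₁ k₂ s * lev h s k := by
      intro k
      have h1 := hSZ (h k) (hh k)
      have h2 : ∫ s in (0 : ℝ)..1, d0 R h k₁ k₂ s * lev h s k = Z (h k) :=
        gs_int_lev (f := d0 R h k₁ k₂) (hh k)
      rw [h2, ← h1]
      ring
    have hfub : ∑ k ∈ Finset.Ico k₁ k₂, (R k - R (k + 1)) * (S (h k) * min (h k) (1 - h k)) =
        1 / 2 * ∫ s in (0 : ℝ)..1, d0 R h k₁ k₂ s ^ 2 := by
      simp_rw [hZh]
      have h1 : ∀ k, (R k - R (k + 1)) * (1 / 2 * ∫ s in (0 : ℝ)..1, d0 R h k₁ k₂ s * lev h s k) =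
          ∫ s in (0 : ℝ)..1, 1 / 2 * (d0 R h k₁ k₂ s * (lev h s k * (R k - R (k + 1)))) := by
        intro k
        rw [intervalIntegral.integral_const_mul]
        have : ∀ s, d0 R h k₁ k₂ s * (lev h s k * (R k - R (k + 1))) =
            (R k - R (k + 1)) * (d0 R h k₁ k₂ s * lev h s k) := fun s => by ring
        simp_rw [this]
        rw [intervalIntegral.integral_const_mul]
        ring
      simp_rw [h1]
      rw [← intervalIntegral.integral_finsetSum]
      · have h2 : ∀ s, ∑ k ∈ Finset.Ico k₁ k₂, 1 / 2 * (d0 R h k₁ k₂ s *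
            (lev h s k * (R k - R (k + 1)))) =
            1 / 2 * d0 R h k₁ k₂ s ^ 2 + 1 / 2 * C * d0 R h k₁ k₂ s := by
          intro s
          rw [← Finset.mul_sum, ← Finset.mul_sum]
          have : ∑ k ∈ Finset.Ico k₁ k₂, lev h s k * (R k - R (k + 1)) = d0 R h k₁ k₂ s + C := by
            unfold d0 cmass
            rw [hC]
            unfold cmass
            ring
          rw [this]
          ring
        simp_rw [h2]
        rw [intervalIntegral.integral_add ((id2 0 1).const_mul _) ((id 0 1).const_mul _),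
          intervalIntegral.integral_const_mul, intervalIntegral.integral_const_mul, hdint]
        ring
      · intro k _
        have h3 : IntervalIntegrable (fun s => d0 R h k₁ k₂ s * lev h s k) volume 0 1 :=
          gs_mul_lev_ii (f := d0 R h k₁ k₂) id (h k) 0 1
        have h4 := (h3.mul_const (R k - R (k + 1))).const_mul (1 / 2)
        refine h4.congr ?_
        intro s _
        simp only
        ring
    -- Hardy
    have hS2i : IntervalIntegrable (fun s => S s ^ 2) volume 0 1 := by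
      refine gs_ii (hSm.pow_const 2) (C := 1) (fun s => ?_) 0 1
      rw [abs_of_nonneg (sq_nonneg _)]
      nlinarith [(hSb s).1, (hSb s).2]
    have hhardy : ∫ s in (0 : ℝ)..1, S s ^ 2 ≤ ∫ s in (0 : ℝ)..1, d0 R h k₁ k₂ s ^ 2 := by
      have h1 : ∫ s in (0 : ℝ)..1, ((∫ u in (0 : ℝ)..s, d0 R h k₁ k₂ u) / min s (1 - s)) ^ 2 =
          ∫ s in (0 : ℝ)..1, 4 * S s ^ 2 := by
        apply intervalIntegral.integral_congr
        intro s hs
        rw [uIcc_of_le zero_le_one] at hs
        simp only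
        rw [hSin s hs]
        simp only [hZ]
        rw [div_pow, div_pow, mul_pow]
        ring
      rw [h1, intervalIntegral.integral_const_mul] at hZ2
      linarith
    -- pointwise inequality
    set M1 : ℝ := α' - C with hM1
    set C4 : ℝ := 2 / b ^ 2 with hC4
    have hC40 : 0 < C4 := by rw [hC4]; positivity
    set A1 : ℝ := -(2 * Ca) - 2 * Ca * (p ^ 2 * (4 / α₀ ^ 2)) with hA1
    set A2 : ℝ := 3 / 4 - 2 * Ca * C4 * p with hA2
    set A3 : ℝ := 4 * Ca * (M1 - p / 2) with hA3
    have hpt : ∀ s ∈ Icc (0 : ℝ) 1,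
        Jα + sl * (gmass R n (lev h s) - α') + A1 * d0 R h k₁ k₂ s ^ 2 + A2 * gdef J R n h s +
          A3 * ((gmass R n (lev h s) - cmass R h k₁ k₂ s) - M1) - 2 * S s ^ 2 ≤
        f s * gper J R n (lev h s) := by
      intro s _
      have hm01 : gmass R n (lev h s) ∈ Icc (0 : ℝ) 1 := by
        have h1 := hxb s
        have h2 := hcb s
        constructor <;> linarith [h1.1, h1.2, h2.1, h2.2]
      have hgd : 0 ≤ gdef J R n h s := by
        have := grid_iso hJ hanti hz hl (lev h s) (hlev s)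
        unfold gdef
        linarith
      have hper : gper J R n (lev h s) = J (gmass R n (lev h s)) + gdef J R n h s := by
        unfold gdef; ring
      have hJ0 := hJ.nonneg _ hm01
      have hJ2 := hJ.le_two _ hm01
      have hJm := hJα _ hm01
      have hfs := hf1 s
      have hpt1 := gs_pt hJ hG h₀ hb hp0 hpα (lev h s) (hlev s) C hCb.1 hCb.2
      have hxs := hxb s
      have e1 : (∑ k ∈ Finset.Ico k₁ k₂, lev h s k * (R k - R (k + 1))) = cmass R h k₁ k₂ s := rfl
      have e2 : gper J R n (lev h s) - J (gmass R n (lev h s)) = gdef J R n h s := rfl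
      have e3 : cmass R h k₁ k₂ s - C = d0 R h k₁ k₂ s := rfl
      rw [e1, e2, e3] at hpt1
      set x : ℝ := gmass R n (lev h s) - cmass R h k₁ k₂ s with hx
      set D : ℝ := d0 R h k₁ k₂ s with hD
      set g : ℝ := gdef J R n h s with hg
      set m : ℝ := gmass R n (lev h s) with hm
      -- step 1
      have s1 : J m + 3 / 4 * g - 2 * S s ^ 2 ≤ f s * gper J R n (lev h s) := by
        rw [hper]
        have h1 : (1 - S s ^ 2) * J m ≤ f s * J m := mul_le_mul_of_nonneg_right hfs.1 hJ0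
        have h2 : 3 / 4 * g ≤ f s * g := mul_le_mul_of_nonneg_right hfs.2.1 hgd
        have h3 : S s ^ 2 * J m ≤ S s ^ 2 * 2 := mul_le_mul_of_nonneg_left hJ2 (sq_nonneg _)
        rw [mul_add]
        linarith
      -- step 2
      have s2 : (x - p / 2) ^ 2 ≤ p * (C4 * g + p * (4 / α₀ ^ 2) * D ^ 2) := by
        have h1 : |x - p / 2| ≤ p := by
          rw [abs_le]
          constructor <;> linarith [hxs.1, hxs.2]
        have h2 : (x - p / 2) ^ 2 = |x - p / 2| * |x - p / 2| := by rw [← sq, sq_abs]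
        rw [h2]
        exact mul_le_mul h1 hpt1 (abs_nonneg _) hp0
      have s3 : (m - α') ^ 2 ≤ 2 * D ^ 2 + 2 * (x - M1) ^ 2 := by
        have h1 : m - α' = D + (x - M1) := by
          rw [hx, hM1, hD]
          unfold d0
          rw [← hC]
          ring
        rw [h1]
        nlinarith [sq_nonneg (D - (x - M1))]
      have s4 : (x - M1) ^ 2 ≤ (x - p / 2) ^ 2 - 2 * (M1 - p / 2) * (x - M1) := by
        nlinarith [sq_nonneg (M1 - p / 2)]
      have s5 : Ca * (m - α') ^ 2 ≤ Ca * (2 * D ^ 2 + 2 * (p * (C4 * g + p * (4 / α₀ ^ 2) * D ^ 2) -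
          2 * (M1 - p / 2) * (x - M1))) := by
        apply mul_le_mul_of_nonneg_left _ hCa
        linarith
      have s6 : Ca * (2 * D ^ 2 + 2 * (p * (C4 * g + p * (4 / α₀ ^ 2) * D ^ 2) -
          2 * (M1 - p / 2) * (x - M1))) = -(A1 * D ^ 2) + (3 / 4 - A2) * g - A3 * (x - M1) := by
        rw [hA1, hA2, hA3]
        ring
      linarith
    -- integrate
    have ifper : IntervalIntegrable (fun s => f s * gper J R n (lev h s)) volume 0 1 := by
      obtain ⟨h1, K, h2⟩ := gs_meas h (n + 1) (fun e => gper J R n e) dep_p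
      refine gs_ii (hfm.mul h1) (C := K) (fun s => ?_) 0 1
      have h4 : |f s| ≤ 1 := by rw [abs_of_nonneg (hf0 s)]; exact (hf1 s).2.2
      show |f s * gper J R n (lev h s)| ≤ K
      rw [abs_mul]
      calc |f s| * |gper J R n (lev h s)| ≤ 1 * |gper J R n (lev h s)| :=
            mul_le_mul_of_nonneg_right h4 (abs_nonneg _)
        _ ≤ K := by rw [one_mul]; exact h2 s
    have i1 : IntervalIntegrable (fun s => sl * (gmass R n (lev h s) - α')) volume 0 1 :=
      ((im 0 1).sub intervalIntegrable_const).const_mul sl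
    have i2 : IntervalIntegrable (fun s => A1 * d0 R h k₁ k₂ s ^ 2) volume 0 1 :=
      (id2 0 1).const_mul A1
    have i3 : IntervalIntegrable (fun s => A2 * gdef J R n h s) volume 0 1 :=
      (idef 0 1).const_mul A2
    have i4 : IntervalIntegrable (fun s => A3 * ((gmass R n (lev h s) - cmass R h k₁ k₂ s) - M1))
        volume 0 1 :=
      ((((im 0 1).sub (ic 0 1))).sub intervalIntegrable_const).const_mul A3
    have i5 : IntervalIntegrable (fun s => 2 * S s ^ 2) volume 0 1 := hS2i.const_mul 2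
    have i0 : IntervalIntegrable (fun _ : ℝ => Jα) volume 0 1 := intervalIntegrable_const
    have hint := intervalIntegral.integral_mono_on zero_le_one
      (((((i0.add i1).add i2).add i3).add i4).sub i5) ifper hpt
    have hL : ∫ s in (0 : ℝ)..1, (Jα + sl * (gmass R n (lev h s) - α') + A1 * d0 R h k₁ k₂ s ^ 2 +
          A2 * gdef J R n h s +
          A3 * ((gmass R n (lev h s) - cmass R h k₁ k₂ s) - M1) - 2 * S s ^ 2) =
        Jα + A1 * (∫ s in (0 : ℝ)..1, d0 R h k₁ k₂ s ^ 2) +
          A2 * (∫ s in (0 : ℝ)..1, gdef J R n h s) - 2 * ∫ s in (0 : ℝ)..1, S s ^ 2 := by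
      rw [intervalIntegral.integral_sub ((((i0.add i1).add i2).add i3).add i4) i5,
        intervalIntegral.integral_add (((i0.add i1).add i2).add i3) i4,
        intervalIntegral.integral_add ((i0.add i1).add i2) i3,
        intervalIntegral.integral_add (i0.add i1) i2,
        intervalIntegral.integral_add i0 i1,
        intervalIntegral.integral_const_mul, intervalIntegral.integral_const_mul,
        intervalIntegral.integral_const_mul, intervalIntegral.integral_const_mul,
        intervalIntegral.integral_const_mul,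
        intervalIntegral.integral_sub (im 0 1) intervalIntegrable_const, hintm,
        intervalIntegral.integral_sub ((im 0 1).sub (ic 0 1)) intervalIntegrable_const, hC0]
      simp [hM1]
    rw [hL] at hint
    rw [hco, hfub]
    have hI2 : 0 ≤ ∫ s in (0 : ℝ)..1, d0 R h k₁ k₂ s ^ 2 :=
      intervalIntegral.integral_nonneg zero_le_one fun s _ => sq_nonneg _
    have hI1 : 0 ≤ ∫ s in (0 : ℝ)..1, gdef J R n h s := by
      apply intervalIntegral.integral_nonneg zero_le_one
      intro s _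
      have := grid_iso hJ hanti hz hl (lev h s) (hlev s)
      unfold gdef
      linarith
    set I1 : ℝ := ∫ s in (0 : ℝ)..1, gdef J R n h s
    set I2 : ℝ := ∫ s in (0 : ℝ)..1, d0 R h k₁ k₂ s ^ 2
    have hA2' : 1 / 2 ≤ A2 := by rw [hA2]; linarith
    have hp2 : p ^ 2 * (4 / α₀ ^ 2) ≤ 1 / 4 := by
      rw [mul_div_assoc', div_le_iff₀ (by positivity)]
      nlinarith
    have hA1' : -(2 * Ca) - Ca / 2 ≤ A1 := by
      rw [hA1]
      nlinarith
    have h7 : 1 / 2 * I1 ≤ A2 * I1 := mul_le_mul_of_nonneg_right hA2' hI1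
    have h8 : (-(2 * Ca) - Ca / 2) * I2 ≤ A1 * I2 := mul_le_mul_of_nonneg_right hA1' hI2
    linarith

end IsoHull
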