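import Pool.Agent.IsoHull27.OneD2

/-!
# IH27-1D5 : extraction of a half line (`grid_extract`)
-/

open MeasureTheory Set Filter Topology
open scoped ENNReal NNReal

namespace IsoHull

/-! ### finite sums over the grid -/

theorem d5_tel (R : ℕ → ℝ) {a b : ℕ} (hab : a ≤ b) :
    ∑ k ∈ Finset.Ico a b, (R k - R (k + 1)) = R a - R b := by
  induction b, hab using Nat.le_induction with
  | base => simp
  | succ b hb ih =>
    rw [Finset.sum_Ico_succ_top hb, ih]
    ring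

section
variable {R : ℕ → ℝ} {n k₁ k₂ j₁ j₂ : ℕ} {p b α₀ : ℝ}

theorem d5_m0 (G : Grid R n k₁ k₂ j₁ j₂ p b α₀) {k : ℕ} (hk : k ≤ n) : 0 ≤ R k - R (k + 1) := by
  linarith [G.anti k hk]

theorem d5_R0 (G : Grid R n k₁ k₂ j₁ j₂ p b α₀) {k : ℕ} (hk : k ≤ n + 1) : 0 ≤ R k := by
  rw [← G.last]; exact d2_anti G.anti k (n + 1) hk le_rfl

theorem d5_R1 (G : Grid R n k₁ k₂ j₁ j₂ p b α₀) {k : ℕ} (hk : k ≤ n + 1) : R k ≤ 1 := by
  rw [← G.zero]; exact d2_anti G.anti 0 k (by omega) hk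

theorem d5_e01 {e : ℕ → ℝ} (he : ∀ k, e k = 0 ∨ e k = 1) (k : ℕ) : 0 ≤ e k ∧ e k ≤ 1 := by
  rcases he k with h | h <;> rw [h] <;> norm_num

theorem d5_sum_le (G : Grid R n k₁ k₂ j₁ j₂ p b α₀) {e : ℕ → ℝ} (he : ∀ k, e k = 0 ∨ e k = 1)
    {a c : ℕ} (hac : a ≤ c) (hc : c ≤ n + 1) :
    ∑ k ∈ Finset.Ico a c, e k * (R k - R (k + 1)) ≤ R a - R c := by
  rw [← d5_tel R hac]
  apply Finset.sum_le_sum
  intro k hk
  rw [Finset.mem_Ico] at hk
  have h1 := d5_m0 G (k := k) (by omega)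
  have h2 := (d5_e01 he k).2
  nlinarith

theorem d5_sum_nn (G : Grid R n k₁ k₂ j₁ j₂ p b α₀) {e : ℕ → ℝ} (he : ∀ k, e k = 0 ∨ e k = 1)
    {a c : ℕ} (hc : c ≤ n + 1) :
    0 ≤ ∑ k ∈ Finset.Ico a c, e k * (R k - R (k + 1)) := by
  apply Finset.sum_nonneg
  intro k hk
  rw [Finset.mem_Ico] at hk
  exact mul_nonneg (d5_e01 he k).1 (d5_m0 G (k := k) (by omega))

theorem d5_alt (G : Grid R n k₁ k₂ j₁ j₂ p b α₀) {e : ℕ → ℝ} (he : ∀ k, e k = 0 ∨ e k = 1)
    {μ : ℝ} (hμ : μ ∈ Icc (3 * α₀ / 4) (1 - α₀))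
    (hno : ∀ k, j₁ ≤ k + 1 → k + 1 ≤ j₂ → e k = e (k + 1)) :
    α₀ / 2 ≤ |∑ k ∈ Finset.Ico k₁ k₂, e k * (R k - R (k + 1)) - μ| := by
  have hG1 := G.ord1
  have hG2 := G.ord2
  have hG3 := G.ord3
  have hG4 := G.ord4
  have hG5 := G.ord5
  have hconst : ∀ k, j₁ ≤ k → k ≤ j₂ → e k = e j₁ := by
    intro k hk
    induction k, hk using Nat.le_induction with
    | base => intro _; rfl
    | succ k hk ih =>
      intro hk2
      rw [← hno k (by omega) hk2]
      exact ih (by omega)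
  rw [← Finset.sum_Ico_consecutive _ (show k₁ ≤ j₂ by omega) (show j₂ ≤ k₂ by omega),
    ← Finset.sum_Ico_consecutive _ (show k₁ ≤ j₁ by omega) (show j₁ ≤ j₂ by omega)]
  have hmid : ∑ k ∈ Finset.Ico j₁ j₂, e k * (R k - R (k + 1)) = e j₁ * (R j₁ - R j₂) := by
    rw [← d5_tel R (show j₁ ≤ j₂ by omega), Finset.mul_sum]
    apply Finset.sum_congr rfl
    intro k hk
    rw [Finset.mem_Ico] at hk
    rw [hconst k hk.1 (by omega)]
  rw [hmid]
  have a1 := d5_sum_le G he (show k₁ ≤ j₁ by omega) (show j₁ ≤ n + 1 by omega)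
  have a2 := d5_sum_le G he (show j₂ ≤ k₂ by omega) (show k₂ ≤ n + 1 by omega)
  have b1 := d5_sum_nn G he (a := k₁) (show j₁ ≤ n + 1 by omega)
  have b2 := d5_sum_nn G he (a := j₂) (show k₂ ≤ n + 1 by omega)
  have c1 := d5_R1 G (k := k₁) (by omega)
  have c2 := d5_R0 G (k := k₂) (by omega)
  have hj1 := G.hj1
  have hj2 := G.hj2
  obtain ⟨m1, m2⟩ := hμ
  rcases he j₁ with h | h
  · rw [h, abs_sub_comm]
    refine le_trans ?_ (le_abs_self _)
    linarith
  · rw [h]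
    refine le_trans ?_ (le_abs_self _)
    linarith

theorem d5_split (G : Grid R n k₁ k₂ j₁ j₂ p b α₀) (f : ℕ → ℝ) :
    ∑ k ∈ Finset.range (n + 1), f k = ∑ k ∈ Finset.range k₁, f k +
      ∑ k ∈ Finset.Ico k₁ k₂, f k + ∑ k ∈ Finset.Ico k₂ (n + 1), f k := by
  have hG1 := G.ord1
  have hG2 := G.ord2
  have hG3 := G.ord3
  have hG4 := G.ord4
  have hG5 := G.ord5
  rw [Finset.range_eq_Ico, Finset.range_eq_Ico,
    Finset.sum_Ico_consecutive _ (show 0 ≤ k₁ by omega) (show k₁ ≤ k₂ by omega),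
    Finset.sum_Ico_consecutive _ (show 0 ≤ k₂ by omega) (show k₂ ≤ n + 1 by omega)]

theorem d5_tail (G : Grid R n k₁ k₂ j₁ j₂ p b α₀) {e : ℕ → ℝ} (he : ∀ k, e k = 0 ∨ e k = 1)
    {k : ℕ} (hk1 : j₁ ≤ k + 1) (hk2 : k + 1 ≤ j₂) (hne : e k ≠ e (k + 1)) :
    |gmass R n e - ∑ k ∈ Finset.Ico k₁ k₂, e k * (R k - R (k + 1)) - p / 2| ≤
      ∑ j ∈ Finset.range (n + 1), |e j - (if j ≤ k then e k else e (k + 1))| *
        (R j - R (j + 1)) := by
  have hG1 := G.ord1
  have hG2 := G.ord2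
  have hG3 := G.ord3
  have hG4 := G.ord4
  have hG5 := G.ord5
  have huv : e k + e (k + 1) = 1 := by
    rcases he k with h | h <;> rcases he (k + 1) with h' | h'
    · exact absurd (h.trans h'.symm) hne
    · rw [h, h']; ring
    · rw [h, h']; ring
    · exact absurd (h.trans h'.symm) hne
  unfold gmass
  rw [d5_split G, d5_split G]
  have hmidnn : 0 ≤ ∑ j ∈ Finset.Ico k₁ k₂, |e j - (if j ≤ k then e k else e (k + 1))| *
        (R j - R (j + 1)) := by
    apply Finset.sum_nonneg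
    intro j hj
    rw [Finset.mem_Ico] at hj
    exact mul_nonneg (abs_nonneg _) (d5_m0 G (k := j) (by omega))
  have hL : |∑ j ∈ Finset.range k₁, e j * (R j - R (j + 1)) - e k * (p / 2)| ≤
      ∑ j ∈ Finset.range k₁, |e j - (if j ≤ k then e k else e (k + 1))| *
        (R j - R (j + 1)) := by
    have h1 : e k * (p / 2) = ∑ j ∈ Finset.range k₁, e k * (R j - R (j + 1)) := by
      rw [← Finset.mul_sum, Finset.range_eq_Ico, d5_tel R (Nat.zero_le _), G.zero, G.hk1]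
      ring
    rw [h1, ← Finset.sum_sub_distrib]
    refine (Finset.abs_sum_le_sum_abs _ _).trans ?_
    apply Finset.sum_le_sum
    intro j hj
    rw [Finset.mem_range] at hj
    rw [if_pos (by omega), ← sub_mul, abs_mul, abs_of_nonneg (d5_m0 G (k := j) (by omega))]
  have hRt : |∑ j ∈ Finset.Ico k₂ (n + 1), e j * (R j - R (j + 1)) - e (k + 1) * (p / 2)| ≤
      ∑ j ∈ Finset.Ico k₂ (n + 1), |e j - (if j ≤ k then e k else e (k + 1))| *
        (R j - R (j + 1)) := by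
    have h1 : e (k + 1) * (p / 2) =
        ∑ j ∈ Finset.Ico k₂ (n + 1), e (k + 1) * (R j - R (j + 1)) := by
      rw [← Finset.mul_sum, d5_tel R (show k₂ ≤ n + 1 by omega), G.last, G.hk2]
      ring
    rw [h1, ← Finset.sum_sub_distrib]
    refine (Finset.abs_sum_le_sum_abs _ _).trans ?_
    apply Finset.sum_le_sum
    intro j hj
    rw [Finset.mem_Ico] at hj
    rw [if_neg (by omega), ← sub_mul, abs_mul, abs_of_nonneg (d5_m0 G (k := j) (by omega))]
  have h3 : ∑ j ∈ Finset.range k₁, e j * (R j - R (j + 1)) +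
      ∑ j ∈ Finset.Ico k₁ k₂, e j * (R j - R (j + 1)) +
      ∑ j ∈ Finset.Ico k₂ (n + 1), e j * (R j - R (j + 1)) -
      ∑ j ∈ Finset.Ico k₁ k₂, e j * (R j - R (j + 1)) - p / 2 =
      (∑ j ∈ Finset.range k₁, e j * (R j - R (j + 1)) - e k * (p / 2)) +
      (∑ j ∈ Finset.Ico k₂ (n + 1), e j * (R j - R (j + 1)) - e (k + 1) * (p / 2)) := by
    have h4 : e k * (p / 2) + e (k + 1) * (p / 2) = p / 2 := by
      rw [← add_mul, huv, one_mul]
    linarith
  rw [h3]
  refine (abs_add_le _ _).trans ?_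
  linarith

theorem d5_tail' (G : Grid R n k₁ k₂ j₁ j₂ p b α₀) (hp : 0 ≤ p) {e : ℕ → ℝ}
    (he : ∀ k, e k = 0 ∨ e k = 1) :
    |gmass R n e - ∑ k ∈ Finset.Ico k₁ k₂, e k * (R k - R (k + 1)) - p / 2| ≤ p := by
  have hG1 := G.ord1
  have hG2 := G.ord2
  have hG3 := G.ord3
  have hG4 := G.ord4
  have hG5 := G.ord5
  unfold gmass
  rw [d5_split G]
  have a1 := d5_sum_le G he (show 0 ≤ k₁ by omega) (show k₁ ≤ n + 1 by omega)
  have a2 := d5_sum_le G he (show k₂ ≤ n + 1 by omega) (show n + 1 ≤ n + 1 by omega)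
  have b1 := d5_sum_nn G he (a := 0) (show k₁ ≤ n + 1 by omega)
  have b2 := d5_sum_nn G he (a := k₂) (show n + 1 ≤ n + 1 by omega)
  rw [G.zero, G.hk1] at a1
  rw [G.last, G.hk2] at a2
  rw [← Finset.range_eq_Ico] at a1 b1
  rw [abs_le]
  constructor <;> linarith

/-- the pointwise inequality -/
theorem d5_point {J : ℝ → ℝ} (hJ : JProp J) (G : Grid R n k₁ k₂ j₁ j₂ p b α₀) (h₀ : 0 < α₀)
    (hb : 0 < b) (hp : 0 ≤ p) (hp1 : p ≤ 1) {e : ℕ → ℝ}
    (he : ∀ k, e k = 0 ∨ e k = 1) {μ : ℝ} (hμ : μ ∈ Icc (3 * α₀ / 4) (1 - α₀)) :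
    |gmass R n e - ∑ k ∈ Finset.Ico k₁ k₂, e k * (R k - R (k + 1)) - p / 2| ≤
      2 / b ^ 2 * (gper J R n e - J (gmass R n e)) +
      4 / α₀ ^ 2 * (∑ k ∈ Finset.Ico k₁ k₂, e k * (R k - R (k + 1)) - μ) ^ 2 := by
  have hG3 := G.ord3
  have hG4 := G.ord4
  have hG5 := G.ord5
  have hiso := grid_iso hJ G.anti G.zero G.last e he
  by_cases hno : ∀ k, j₁ ≤ k + 1 → k + 1 ≤ j₂ → e k = e (k + 1)
  · have h1 := d5_alt G he hμ hno
    have h2 := d5_tail' G hp he
    have h3 : 1 ≤ 4 / α₀ ^ 2 * (∑ k ∈ Finset.Ico k₁ k₂, e k * (R k - R (k + 1)) - μ) ^ 2 := by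
      have h4 : (α₀ / 2) ^ 2 ≤ (∑ k ∈ Finset.Ico k₁ k₂, e k * (R k - R (k + 1)) - μ) ^ 2 := by
        rw [← sq_abs (_ - μ)]
        exact pow_le_pow_left₀ (by positivity) h1 2
      calc (1 : ℝ) = 4 / α₀ ^ 2 * (α₀ / 2) ^ 2 := by field_simp; norm_num
        _ ≤ _ := mul_le_mul_of_nonneg_left h4 (by positivity)
    have h5 : 0 ≤ 2 / b ^ 2 * (gper J R n e - J (gmass R n e)) :=
      mul_nonneg (by positivity) (by linarith)
    linarith
  · push Not at hno
    obtain ⟨k, hk1, hk2, hne⟩ := hno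
    have h1 := d5_tail G he hk1 hk2 hne
    have h2 := grid_stab hJ G.anti G.zero G.last e he k (by omega) hne
    set δ := ∑ j ∈ Finset.range (n + 1), |e j - (if j ≤ k then e k else e (k + 1))| *
        (R j - R (j + 1)) with hδ
    have hδ0 : 0 ≤ δ := by
      apply Finset.sum_nonneg
      intro j hj
      rw [Finset.mem_range] at hj
      exact mul_nonneg (abs_nonneg _) (d5_m0 G (k := j) (by omega))
    have hc1 : b ≤ R (k + 1) := G.hb2.trans (d2_anti G.anti (k + 1) j₂ (by omega) (by omega))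
    have hc2 : b ≤ 1 - R (k + 1) := by
      have := d2_anti G.anti j₁ (k + 1) (by omega) (by omega)
      linarith [G.hb1]
    have h3 : b ^ 2 ≤ R (k + 1) * (1 - R (k + 1)) := by
      rw [sq]
      exact mul_le_mul hc1 hc2 hb.le (hb.le.trans hc1)
    have h4 : 1 / 2 * b ^ 2 * δ ≤ gper J R n e - J (gmass R n e) := by
      have : 1 / 2 * b ^ 2 * δ ≤ 1 / 2 * (R (k + 1) * (1 - R (k + 1))) * δ :=
        mul_le_mul_of_nonneg_right (by linarith) hδ0
      linarith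
    have h5 : δ ≤ 2 / b ^ 2 * (gper J R n e - J (gmass R n e)) := by
      calc δ = 2 / b ^ 2 * (1 / 2 * b ^ 2 * δ) := by field_simp
        _ ≤ _ := mul_le_mul_of_nonneg_left h4 (by positivity)
    have h6 : 0 ≤ 4 / α₀ ^ 2 * (∑ k ∈ Finset.Ico k₁ k₂, e k * (R k - R (k + 1)) - μ) ^ 2 := by
      positivity
    linarith

end

/-! ### integration in `s` -/

theorem d5_lev01 (h : ℕ → ℝ) (s : ℝ) (k : ℕ) : lev h s k = 0 ∨ lev h s k = 1 := by
  unfold lev
  split_ifs
  · right; rfl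
  · left; rfl

/-- every function of the level sets `{h > s}` (cells `0..n`) is integrable in `s` -/
theorem d5_meas (h : ℕ → ℝ) (n : ℕ) (Φ : (ℕ → ℝ) → ℝ)
    (hΦ : ∀ e e' : ℕ → ℝ, (∀ k ≤ n, e k = e' k) → Φ e = Φ e') :
    Measurable (fun s => Φ (lev h s)) ∧ ∃ C, ∀ s, |Φ (lev h s)| ≤ C := by
  classical
  let code : ℝ → (Fin (n + 1) → Bool) := fun s k => decide (s < h k)
  let dec : (Fin (n + 1) → Bool) → (ℕ → ℝ) := fun β k =>
    if hk : k < n + 1 then (if β ⟨k, hk⟩ then 1 else 0) else 0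
  have hfac : ∀ s, Φ (lev h s) = (fun β => Φ (dec β)) (code s) := by
    intro s
    apply hΦ
    intro k hk
    simp only [lev, dec, code]
    rw [dif_pos (show k < n + 1 by omega)]
    by_cases hs : s < h k <;> simp [hs]
  have hcode : Measurable code := by
    apply measurable_pi_lambda
    intro k
    have : MeasurableSet {s : ℝ | s < h k} := measurableSet_Iio
    refine measurable_to_bool ?_
    have : (fun s => code s k) ⁻¹' {true} = {s : ℝ | s < h k} := by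
      ext s
      simp [code]
    rw [this]
    exact measurableSet_Iio
  constructor
  · have : (fun s => Φ (lev h s)) = (fun β => Φ (dec β)) ∘ code := by
      funext s; exact hfac s
    rw [this]
    exact (Measurable.of_discrete).comp hcode
  · obtain ⟨C, hC⟩ := (Set.finite_range (fun β => |Φ (dec β)|)).bddAbove
    refine ⟨C, fun s => ?_⟩
    rw [hfac s]
    exact hC ⟨code s, rfl⟩

theorem d5_int (h : ℕ → ℝ) (n : ℕ) (Φ : (ℕ → ℝ) → ℝ)
    (hΦ : ∀ e e' : ℕ → ℝ, (∀ k ≤ n, e k = e' k) → Φ e = Φ e') (a b : ℝ) :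
    IntervalIntegrable (fun s => Φ (lev h s)) volume a b := by
  obtain ⟨hm, C, hC⟩ := d5_meas h n Φ hΦ
  rw [intervalIntegrable_iff]
  refine Measure.integrableOn_of_bounded (M := C) ?_ hm.aestronglyMeasurable ?_
  · exact (measure_Ioc_lt_top).ne
  · exact Filter.Eventually.of_forall (fun s => by rw [Real.norm_eq_abs]; exact hC s)

theorem d5_cut (g : ℝ → ℝ) {t : ℝ} (ht0 : 0 ≤ t) (ht1 : t ≤ 1) :
    ∫ s in (0 : ℝ)..1, g s * (if s < t then 1 else 0) = ∫ s in (0 : ℝ)..t, g s := by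
  rw [intervalIntegral.integral_of_le zero_le_one, intervalIntegral.integral_of_le ht0]
  have h1 : (fun s => g s * (if s < t then (1 : ℝ) else 0)) = (Iio t).indicator g := by
    funext s
    by_cases hs : s < t
    · rw [Set.indicator_of_mem (show s ∈ Iio t from hs), if_pos hs, mul_one]
    · rw [Set.indicator_of_notMem (show s ∉ Iio t from hs), if_neg hs, mul_zero]
  rw [h1, setIntegral_indicator measurableSet_Iio, integral_Ioc_eq_integral_Ioo (f := g) (y := t)]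
  congr 2
  ext s
  simp only [mem_inter_iff, mem_Ioc, mem_Iio, mem_Ioo]
  constructor
  · rintro ⟨⟨a1, a2⟩, a3⟩; exact ⟨a1, a3⟩
  · rintro ⟨a1, a3⟩; exact ⟨⟨a1, by linarith⟩, a3⟩

theorem d5_lev_int (h : ℕ → ℝ) (hh : ∀ k, h k ∈ Icc (0 : ℝ) 1) (k : ℕ) :
    ∫ s in (0 : ℝ)..1, lev h s k = h k := by
  have := d5_cut (fun _ => 1) (hh k).1 (hh k).2
  simp only [one_mul] at this
  unfold lev
  rw [this]
  simp

theorem d5_lev_int' (h : ℕ → ℝ) (hh : ∀ k, h k ∈ Icc (0 : ℝ) 1) (k : ℕ) :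
    ∫ s in (0 : ℝ)..1, (1 - 2 * s) * lev h s k = h k * (1 - h k) := by
  have := d5_cut (fun s => 1 - 2 * s) (hh k).1 (hh k).2
  unfold lev
  rw [this]
  rw [intervalIntegral.integral_sub (by simp) (by
    apply Continuous.intervalIntegrable; fun_prop)]
  rw [intervalIntegral.integral_const_mul]
  simp
  ring

theorem d5_lev_ii (h : ℕ → ℝ) (k : ℕ) (a b : ℝ) :
    IntervalIntegrable (fun s => lev h s k) volume a b :=
  d5_int h k (fun e => e k) (fun _ _ he => he k le_rfl) a b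

theorem d5_mean (R : ℕ → ℝ) (h : ℕ → ℝ) (hh : ∀ k, h k ∈ Icc (0 : ℝ) 1) (k₁ k₂ : ℕ) :
    ∫ u in (0 : ℝ)..1, cmass R h k₁ k₂ u = ∑ k ∈ Finset.Ico k₁ k₂, h k * (R k - R (k + 1)) := by
  unfold cmass
  rw [intervalIntegral.integral_finsetSum]
  · apply Finset.sum_congr rfl
    intro k _
    rw [intervalIntegral.integral_mul_const, d5_lev_int h hh]
  · intro k _
    exact (d5_lev_ii h k 0 1).mul_const _

theorem d5_Q (R : ℕ → ℝ) (h : ℕ → ℝ) (hh : ∀ k, h k ∈ Icc (0 : ℝ) 1) (n : ℕ) :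
    ∫ s in (0 : ℝ)..1, (1 - 2 * s) * gmass R n (lev h s) =
      ∑ k ∈ Finset.range (n + 1), h k * (1 - h k) * (R k - R (k + 1)) := by
  unfold gmass
  have h1 : ∀ s, (1 - 2 * s) * ∑ k ∈ Finset.range (n + 1), lev h s k * (R k - R (k + 1)) =
      ∑ k ∈ Finset.range (n + 1), ((1 - 2 * s) * lev h s k) * (R k - R (k + 1)) := by
    intro s
    rw [Finset.mul_sum]
    apply Finset.sum_congr rfl
    intro k _
    ring
  simp_rw [h1]
  rw [intervalIntegral.integral_finsetSum]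
  · apply Finset.sum_congr rfl
    intro k _
    rw [intervalIntegral.integral_mul_const, d5_lev_int' h hh]
  · intro k _
    refine IntervalIntegrable.mul_const ?_ _
    exact (d5_lev_ii h k 0 1).continuousOn_mul (by fun_prop)

theorem d5_hsum_le {R : ℕ → ℝ} {n k₁ k₂ j₁ j₂ : ℕ} {p b α₀ : ℝ}
    (G : Grid R n k₁ k₂ j₁ j₂ p b α₀) {h : ℕ → ℝ} (hh : ∀ k, h k ∈ Icc (0 : ℝ) 1)
    {a c : ℕ} (hac : a ≤ c) (hc : c ≤ n + 1) :
    0 ≤ ∑ k ∈ Finset.Ico a c, h k * (R k - R (k + 1)) ∧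
    ∑ k ∈ Finset.Ico a c, h k * (R k - R (k + 1)) ≤ R a - R c := by
  constructor
  · apply Finset.sum_nonneg
    intro k hk
    rw [Finset.mem_Ico] at hk
    exact mul_nonneg (hh k).1 (d5_m0 G (k := k) (by omega))
  · rw [← d5_tel R hac]
    apply Finset.sum_le_sum
    intro k hk
    rw [Finset.mem_Ico] at hk
    have h1 := d5_m0 G (k := k) (by omega)
    have h2 := (hh k).2
    nlinarith

theorem d5_muIcc {R : ℕ → ℝ} {n k₁ k₂ j₁ j₂ : ℕ} {p b α₀ : ℝ}
    (G : Grid R n k₁ k₂ j₁ j₂ p b α₀) (hpα : p ≤ α₀ / 4)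
    {h : ℕ → ℝ} (hh : ∀ k, h k ∈ Icc (0 : ℝ) 1)
    (hmass : gmass R n h ∈ Icc α₀ (1 - α₀)) :
    ∑ k ∈ Finset.Ico k₁ k₂, h k * (R k - R (k + 1)) ∈ Icc (3 * α₀ / 4) (1 - α₀) := by
  have hG1 := G.ord1
  have hG2 := G.ord2
  have hG3 := G.ord3
  have hG4 := G.ord4
  have hG5 := G.ord5
  unfold gmass at hmass
  rw [d5_split G] at hmass
  obtain ⟨a1, a2⟩ := d5_hsum_le G hh (show 0 ≤ k₁ by omega) (show k₁ ≤ n + 1 by omega)
  obtain ⟨b1, b2⟩ := d5_hsum_le G hh (show k₂ ≤ n + 1 by omega) (show n + 1 ≤ n + 1 by omega)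
  rw [G.zero, G.hk1] at a2
  rw [G.last, G.hk2] at b2
  rw [← Finset.range_eq_Ico] at a1 a2
  obtain ⟨m1, m2⟩ := hmass
  constructor <;> linarith

/-- extraction of a half line -/
theorem grid_extract (α₀ b : ℝ) (h₀ : 0 < α₀) (hb : 0 < b) :
    ∃ C η₀ : ℝ, 0 < C ∧ 0 < η₀ ∧ ∀ J : ℝ → ℝ, JProp J → ∀ (R : ℕ → ℝ) (n k₁ k₂ j₁ j₂ : ℕ) (p : ℝ),
      Grid R n k₁ k₂ j₁ j₂ p b α₀ → 0 ≤ p → p ≤ α₀ / 4 →
      ∀ h : ℕ → ℝ, (∀ k, h k ∈ Icc (0 : ℝ) 1) → gmass R n h ∈ Icc α₀ (1 - α₀) →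
      ∀ η, 0 ≤ η → η ≤ η₀ → ∫ s in (0 : ℝ)..1, gdef J R n h s ≤ 2 * η →
      ∫ s in (0 : ℝ)..1, d0 R h k₁ k₂ s ^ 2 ≤ η →
      ∃ i, j₁ ≤ i + 1 ∧ i + 1 ≤ j₂ ∧ ∃ u v : ℝ, ((u = 0 ∧ v = 1) ∨ (u = 1 ∧ v = 0)) ∧
        ∑ j ∈ Finset.range (n + 1), |h j - (if j ≤ i then u else v)| * (R j - R (j + 1)) ≤
          C * Real.sqrt η := by
  refine ⟨4 + 28 / b ^ 2 + 16 / α₀ ^ 2, min 1 (α₀ ^ 2 / 32), by positivity, by positivity, ?_⟩
  intro J hJ R n k₁ k₂ j₁ j₂ p G hp hpα h hh hmass η hη hη0 hD hd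
  have hG1 := G.ord1
  have hG2 := G.ord2
  have hG3 := G.ord3
  have hG4 := G.ord4
  have hG5 := G.ord5
  have hη1 : η ≤ 1 := hη0.trans (min_le_left _ _)
  have hη2 : η ≤ α₀ ^ 2 / 32 := hη0.trans (min_le_right _ _)
  have hα1 : α₀ ≤ 1 / 2 := by linarith [hmass.1, hmass.2]
  have hp1 : p ≤ 1 := by linarith
  obtain ⟨μ, hμdef⟩ : ∃ μ, μ = ∫ u in (0 : ℝ)..1, cmass R h k₁ k₂ u := ⟨_, rfl⟩
  have hμ : μ ∈ Icc (3 * α₀ / 4) (1 - α₀) := by
    rw [hμdef, d5_mean R h hh k₁ k₂]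
    exact d5_muIcc G hpα hh hmass
  have hd0 : ∀ s, d0 R h k₁ k₂ s = ∑ k ∈ Finset.Ico k₁ k₂, lev h s k * (R k - R (k + 1)) - μ := by
    intro s
    rw [hμdef]
    rfl
  have he := d5_lev01 h
  -- dependence on finitely many cells
  have hdep1 : ∀ e e' : ℕ → ℝ, (∀ k ≤ n, e k = e' k) → gmass R n e = gmass R n e' := by
    intro e e' hee
    unfold gmass
    apply Finset.sum_congr rfl
    intro k hk
    rw [Finset.mem_range] at hk
    rw [hee k (by omega)]
  have hdep2 : ∀ e e' : ℕ → ℝ, (∀ k ≤ n, e k = e' k) → gper J R n e = gper J R n e' := by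
    intro e e' hee
    unfold gper
    apply Finset.sum_congr rfl
    intro k hk
    rw [Finset.mem_range] at hk
    rw [hee k (by omega), hee (k + 1) (by omega)]
  have hdep3 : ∀ e e' : ℕ → ℝ, (∀ k ≤ n, e k = e' k) →
      ∑ k ∈ Finset.Ico k₁ k₂, e k * (R k - R (k + 1)) =
      ∑ k ∈ Finset.Ico k₁ k₂, e' k * (R k - R (k + 1)) := by
    intro e e' hee
    apply Finset.sum_congr rfl
    intro k hk
    rw [Finset.mem_Ico] at hk
    rw [hee k (by omega)]
  have hI1 : ∀ x y, IntervalIntegrable (fun s => gdef J R n h s) volume x y := by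
    intro x y
    exact d5_int h n (fun e => gper J R n e - J (gmass R n e))
      (fun e e' hee => by simp only [hdep1 e e' hee, hdep2 e e' hee]) x y
  have hI2 : ∀ x y, IntervalIntegrable (fun s => d0 R h k₁ k₂ s ^ 2) volume x y := by
    intro x y
    simp only [hd0]
    exact d5_int h n (fun e => (∑ k ∈ Finset.Ico k₁ k₂, e k * (R k - R (k + 1)) - μ) ^ 2)
      (fun e e' hee => by simp only [hdep3 e e' hee]) x y
  have hI3 : ∀ x y, IntervalIntegrable (fun s => |d0 R h k₁ k₂ s|) volume x y := by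
    intro x y
    simp only [hd0]
    exact d5_int h n (fun e => |∑ k ∈ Finset.Ico k₁ k₂, e k * (R k - R (k + 1)) - μ|)
      (fun e e' hee => by simp only [hdep3 e e' hee]) x y
  have hI4 : ∀ x y, IntervalIntegrable (fun s => gmass R n (lev h s)) volume x y := by
    intro x y
    exact d5_int h n (fun e => gmass R n e) hdep1 x y
  have hg0 : ∀ s, 0 ≤ gdef J R n h s := by
    intro s
    have := grid_iso hJ G.anti G.zero G.last (lev h s) (he s)
    unfold gdef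
    linarith
  -- selection of a level
  obtain ⟨s, hs, hfs⟩ : ∃ s ∈ Icc (1 / 4 : ℝ) (3 / 4),
      gdef J R n h s + d0 R h k₁ k₂ s ^ 2 ≤ 6 * η := by
    have hfi : IntervalIntegrable (fun s => gdef J R n h s + d0 R h k₁ k₂ s ^ 2) volume 0 1 :=
      (hI1 0 1).add (hI2 0 1)
    have hfi' : IntegrableOn (fun s => gdef J R n h s + d0 R h k₁ k₂ s ^ 2)
        (Icc (1 / 4) (3 / 4)) volume := by
      have h1 := (hI1 (1 / 4) (3 / 4)).add (hI2 (1 / 4) (3 / 4))
      rw [intervalIntegrable_iff_integrableOn_Icc_of_le (by norm_num)] at h1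
      exact h1
    have hvol : volume (Icc (1 / 4 : ℝ) (3 / 4)) = ENNReal.ofReal (1 / 2) := by
      rw [Real.volume_Icc]; norm_num
    obtain ⟨s, hs, hle⟩ := exists_le_setAverage (μ := volume) (s := Icc (1 / 4 : ℝ) (3 / 4))
      (by rw [hvol]; simp) (by rw [hvol]; simp) hfi'
    refine ⟨s, hs, hle.trans ?_⟩
    rw [setAverage_eq]
    have hreal : volume.real (Icc (1 / 4 : ℝ) (3 / 4)) = 1 / 2 := by
      rw [measureReal_def, hvol, ENNReal.toReal_ofReal (by norm_num)]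
    rw [hreal, integral_Icc_eq_integral_Ioc,
      ← intervalIntegral.integral_of_le (by norm_num : (1 / 4 : ℝ) ≤ 3 / 4)]
    have hmono : ∫ s in (1 / 4 : ℝ)..(3 / 4), (gdef J R n h s + d0 R h k₁ k₂ s ^ 2) ≤
        ∫ s in (0 : ℝ)..1, (gdef J R n h s + d0 R h k₁ k₂ s ^ 2) := by
      apply intervalIntegral.integral_mono_interval (by norm_num) (by norm_num) (by norm_num) _ hfi
      exact Filter.Eventually.of_forall (fun s => by
        have := hg0 s
        have := sq_nonneg (d0 R h k₁ k₂ s)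
        simp only [Pi.zero_apply]
        linarith)
    rw [intervalIntegral.integral_add (hI1 0 1) (hI2 0 1)] at hmono
    simp only [smul_eq_mul]
    linarith
  have hgs := hg0 s
  have hds := sq_nonneg (d0 R h k₁ k₂ s)
  -- there is a jump in the inner range
  obtain ⟨k, hk1, hk2, hne⟩ : ∃ k, j₁ ≤ k + 1 ∧ k + 1 ≤ j₂ ∧ lev h s k ≠ lev h s (k + 1) := by
    by_contra hno
    push Not at hno
    have h1 := d5_alt G (he s) hμ hno
    rw [← hd0] at h1
    have h2 : (α₀ / 2) ^ 2 ≤ d0 R h k₁ k₂ s ^ 2 := by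
      rw [← sq_abs (d0 R h k₁ k₂ s)]
      exact pow_le_pow_left₀ (by positivity) h1 2
    have h3 : 0 < α₀ ^ 2 := by positivity
    nlinarith
  have hstab := grid_stab hJ G.anti G.zero G.last (lev h s) (he s) k (by omega) hne
  have huv : (lev h s k = 0 ∧ lev h s (k + 1) = 1) ∨ (lev h s k = 1 ∧ lev h s (k + 1) = 0) := by
    rcases he s k with a | a <;> rcases he s (k + 1) with a' | a'
    · exact absurd (a.trans a'.symm) hne
    · left; exact ⟨a, a'⟩
    · right; exact ⟨a, a'⟩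
    · exact absurd (a.trans a'.symm) hne
  refine ⟨k, hk1, hk2, lev h s k, lev h s (k + 1), huv, ?_⟩
  set δ := ∑ j ∈ Finset.range (n + 1),
    |lev h s j - (if j ≤ k then lev h s k else lev h s (k + 1))| * (R j - R (j + 1)) with hδ
  have hδ0 : 0 ≤ δ := by
    apply Finset.sum_nonneg
    intro j hj
    rw [Finset.mem_range] at hj
    exact mul_nonneg (abs_nonneg _) (d5_m0 G (k := j) (by omega))
  have hδη : δ ≤ 12 / b ^ 2 * η := by
    have hc1 : b ≤ R (k + 1) := G.hb2.trans (d2_anti G.anti (k + 1) j₂ (by omega) (by omega))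
    have hc2 : b ≤ 1 - R (k + 1) := by
      have := d2_anti G.anti j₁ (k + 1) (by omega) (by omega)
      linarith [G.hb1]
    have h3 : b ^ 2 ≤ R (k + 1) * (1 - R (k + 1)) := by
      rw [sq]
      exact mul_le_mul hc1 hc2 hb.le (hb.le.trans hc1)
    have h4 : 1 / 2 * b ^ 2 * δ ≤ 6 * η := by
      have h5 : 1 / 2 * b ^ 2 * δ ≤ 1 / 2 * (R (k + 1) * (1 - R (k + 1))) * δ :=
        mul_le_mul_of_nonneg_right (by linarith) hδ0
      have h6 : gper J R n (lev h s) - J (gmass R n (lev h s)) = gdef J R n h s := rfl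
      linarith
    calc δ = 2 / b ^ 2 * (1 / 2 * b ^ 2 * δ) := by field_simp
      _ ≤ 2 / b ^ 2 * (6 * η) := mul_le_mul_of_nonneg_left h4 (by positivity)
      _ = _ := by ring
  -- the integral of `h (1 - h)`
  obtain ⟨I, hI⟩ : ∃ I, I = ∫ s in (0 : ℝ)..1, |d0 R h k₁ k₂ s| := ⟨_, rfl⟩
  have hIη : I ≤ Real.sqrt η := by
    apply Real.le_sqrt_of_sq_le
    have h1 : 0 ≤ ∫ s in (0 : ℝ)..1, (|d0 R h k₁ k₂ s| - I) ^ 2 :=
      intervalIntegral.integral_nonneg zero_le_one (fun _ _ => sq_nonneg _)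
    have h2 : ∫ s in (0 : ℝ)..1, (|d0 R h k₁ k₂ s| - I) ^ 2 =
        (∫ s in (0 : ℝ)..1, d0 R h k₁ k₂ s ^ 2) - 2 * I * I + I ^ 2 := by
      have h3 : ∀ s, (|d0 R h k₁ k₂ s| - I) ^ 2 =
          d0 R h k₁ k₂ s ^ 2 - 2 * I * |d0 R h k₁ k₂ s| + I ^ 2 := by
        intro s
        rw [← sq_abs (d0 R h k₁ k₂ s)]
        ring
      simp_rw [h3]
      rw [intervalIntegral.integral_add ((hI2 0 1).sub ((hI3 0 1).const_mul _)) (by simp),
        intervalIntegral.integral_sub (hI2 0 1) ((hI3 0 1).const_mul _),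
        intervalIntegral.integral_const_mul, ← hI]
      simp
    rw [h2] at h1
    nlinarith
  have hQ : ∑ k ∈ Finset.range (n + 1), h k * (1 - h k) * (R k - R (k + 1)) ≤
      Real.sqrt η + (4 / b ^ 2 + 4 / α₀ ^ 2) * η := by
    rw [← d5_Q R h hh n]
    have h1 : ∫ s in (0 : ℝ)..1, (1 - 2 * s) * gmass R n (lev h s) =
        ∫ s in (0 : ℝ)..1, (1 - 2 * s) * (gmass R n (lev h s) - (μ + p / 2)) := by
      have h2 : ∀ s, (1 - 2 * s) * (gmass R n (lev h s) - (μ + p / 2)) =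
          (1 - 2 * s) * gmass R n (lev h s) - (1 - 2 * s) * (μ + p / 2) := by
        intro s; ring
      simp_rw [h2]
      rw [intervalIntegral.integral_sub ((hI4 0 1).continuousOn_mul (by fun_prop))
        (by apply Continuous.intervalIntegrable; fun_prop),
        intervalIntegral.integral_mul_const]
      have h3 : ∫ s in (0 : ℝ)..1, (1 - 2 * s) = 0 := by
        rw [intervalIntegral.integral_sub (by simp) (by
          apply Continuous.intervalIntegrable; fun_prop)]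
        rw [intervalIntegral.integral_const_mul]
        simp
      rw [h3]
      simp
    rw [h1]
    have h4 : ∫ s in (0 : ℝ)..1, (1 - 2 * s) * (gmass R n (lev h s) - (μ + p / 2)) ≤
        ∫ s in (0 : ℝ)..1, (|d0 R h k₁ k₂ s| + (2 / b ^ 2 * gdef J R n h s +
          4 / α₀ ^ 2 * d0 R h k₁ k₂ s ^ 2)) := by
      apply intervalIntegral.integral_mono_on zero_le_one
      · exact (((hI4 0 1).sub (by simp)).continuousOn_mul (by fun_prop))
      · exact (hI3 0 1).add (((hI1 0 1).const_mul _).add ((hI2 0 1).const_mul _))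
      · intro s hs
        have h5 := d5_point hJ G h₀ hb hp hp1 (he s) hμ
        rw [← hd0] at h5
        have h6 : gper J R n (lev h s) - J (gmass R n (lev h s)) = gdef J R n h s := rfl
        rw [h6] at h5
        have h7 : |gmass R n (lev h s) - (μ + p / 2)| ≤ |d0 R h k₁ k₂ s| +
            (2 / b ^ 2 * gdef J R n h s + 4 / α₀ ^ 2 * d0 R h k₁ k₂ s ^ 2) := by
          have h8 : gmass R n (lev h s) - (μ + p / 2) = d0 R h k₁ k₂ s +
              (gmass R n (lev h s) - ∑ k ∈ Finset.Ico k₁ k₂, lev h s k * (R k - R (k + 1)) -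
                p / 2) := by
            rw [hd0]; ring
          rw [h8]
          refine (abs_add_le _ _).trans ?_
          linarith
        have h9 : |1 - 2 * s| ≤ 1 := by
          rw [abs_le]
          constructor <;> linarith [hs.1, hs.2]
        calc (1 - 2 * s) * (gmass R n (lev h s) - (μ + p / 2))
            ≤ |(1 - 2 * s) * (gmass R n (lev h s) - (μ + p / 2))| := le_abs_self _
          _ = |1 - 2 * s| * |gmass R n (lev h s) - (μ + p / 2)| := abs_mul _ _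
          _ ≤ 1 * |gmass R n (lev h s) - (μ + p / 2)| :=
              mul_le_mul_of_nonneg_right h9 (abs_nonneg _)
          _ ≤ _ := by rw [one_mul]; exact h7
    refine h4.trans ?_
    rw [intervalIntegral.integral_add (hI3 0 1)
      (((hI1 0 1).const_mul _).add ((hI2 0 1).const_mul _)),
      intervalIntegral.integral_add ((hI1 0 1).const_mul _) ((hI2 0 1).const_mul _),
      intervalIntegral.integral_const_mul, intervalIntegral.integral_const_mul, ← hI]
    have h10 : 2 / b ^ 2 * (∫ s in (0 : ℝ)..1, gdef J R n h s) ≤ 2 / b ^ 2 * (2 * η) :=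
      mul_le_mul_of_nonneg_left hD (by positivity)
    have h11 : 4 / α₀ ^ 2 * (∫ s in (0 : ℝ)..1, d0 R h k₁ k₂ s ^ 2) ≤ 4 / α₀ ^ 2 * η :=
      mul_le_mul_of_nonneg_left hd (by positivity)
    have h12 : (4 / b ^ 2 + 4 / α₀ ^ 2) * η = 2 / b ^ 2 * (2 * η) + 4 / α₀ ^ 2 * η := by ring
    rw [h12]
    linarith
  -- conclusion
  have hfin : ∑ j ∈ Finset.range (n + 1),
      |h j - (if j ≤ k then lev h s k else lev h s (k + 1))| * (R j - R (j + 1)) ≤
      4 * (∑ j ∈ Finset.range (n + 1), h j * (1 - h j) * (R j - R (j + 1))) + δ := by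
    rw [hδ, Finset.mul_sum, ← Finset.sum_add_distrib]
    apply Finset.sum_le_sum
    intro j hj
    rw [Finset.mem_range] at hj
    have hm := d5_m0 G (k := j) (by omega)
    have h1 : |h j - (if j ≤ k then lev h s k else lev h s (k + 1))| ≤
        4 * (h j * (1 - h j)) + |lev h s j - (if j ≤ k then lev h s k else lev h s (k + 1))| := by
      have h2 : |h j - lev h s j| ≤ 4 * (h j * (1 - h j)) := by
        obtain ⟨a1, a2⟩ := hh j
        obtain ⟨s1, s2⟩ := hs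
        unfold lev
        split_ifs with hc
        · rw [abs_le]
          constructor <;> nlinarith
        · push Not at hc
          rw [abs_le]
          constructor <;> nlinarith
      calc |h j - (if j ≤ k then lev h s k else lev h s (k + 1))|
          ≤ |h j - lev h s j| +
            |lev h s j - (if j ≤ k then lev h s k else lev h s (k + 1))| := abs_sub_le _ _ _
        _ ≤ _ := by linarith
    calc |h j - (if j ≤ k then lev h s k else lev h s (k + 1))| * (R j - R (j + 1))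
        ≤ (4 * (h j * (1 - h j)) + |lev h s j - (if j ≤ k then lev h s k else lev h s (k + 1))|) *
          (R j - R (j + 1)) := mul_le_mul_of_nonneg_right h1 hm
      _ = _ := by ring
  have hsq : η ≤ Real.sqrt η := by
    apply Real.le_sqrt_of_sq_le
    nlinarith
  have hb2 : 0 < 28 / b ^ 2 := by positivity
  calc _ ≤ _ := hfin
    _ ≤ 4 * (Real.sqrt η + (4 / b ^ 2 + 4 / α₀ ^ 2) * η) + 12 / b ^ 2 * η := by linarith
    _ = 4 * Real.sqrt η + (28 / b ^ 2 + 16 / α₀ ^ 2) * η := by ring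
    _ ≤ 4 * Real.sqrt η + (28 / b ^ 2 + 16 / α₀ ^ 2) * Real.sqrt η := by
        have := mul_le_mul_of_nonneg_left hsq (show 0 ≤ 28 / b ^ 2 + 16 / α₀ ^ 2 by positivity)
        linarith
    _ = _ := by ring

end IsoHull
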