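import Pool.Agent.IsoHull27.Defs1D
import Pool.Agent.IsoHull27.OneD1
import Pool.Agent.IsoHull27.OneD2
import Pool.Agent.IsoHull27.OneD4
import Pool.Agent.IsoHull27.OneD5

/-!
# The continuous one-dimensional theorem (package 1D-6 of IsoHull27, MP_b478d8_an)

From the discrete functional inequality `grid_star` and the extraction lemma `grid_extract`, via fine grids
with mesh `1/N` on `[-A, A]`.
-/

open MeasureTheory Set Filter Topology
open scoped ENNReal NNReal

namespace IsoHull

/-! ## auxiliary lemmas for `oneD` -/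

theorem oneD_Rt_sub {ρ w : ℝ → ℝ} (h : Struct1 ρ w) (a b : ℝ) :
    Rt ρ a - Rt ρ b = ∫ t in a..b, ρ t := by
  unfold Rt
  exact intervalIntegral.integral_Ioi_sub_Ioi' h.hint.integrableOn h.hint.integrableOn

/-- nodes -/
noncomputable def oneDnode (A N : ℕ) (k : ℕ) : ℝ := -(A : ℝ) + ((k : ℝ) - 1) / N

/-- tail masses at the nodes -/
noncomputable def oneDR (ρ : ℝ → ℝ) (A N : ℕ) (k : ℕ) : ℝ :=
  if k = 0 then 1 else if k ≤ 2 * A * N + 1 then Rt ρ (oneDnode A N k) else 0

theorem oneDnode_succ (A N k : ℕ) : oneDnode A N (k + 1) = oneDnode A N k + 1 / N := by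
  unfold oneDnode; push_cast; ring

theorem oneDnode_mono (A N : ℕ) : Monotone (oneDnode A N) := by
  refine monotone_nat_of_le_succ fun k => ?_
  rw [oneDnode_succ]
  have : (0 : ℝ) ≤ 1 / N := by positivity
  linarith

theorem oneDnode_one (A N : ℕ) : oneDnode A N 1 = -A := by
  unfold oneDnode; push_cast; ring

theorem oneDnode_int (A N : ℕ) (hN : 0 < N) (B : ℕ) : oneDnode A N (B * N + 1) = -(A : ℝ) + B := by
  unfold oneDnode; push_cast
  have : (N : ℝ) ≠ 0 := by positivity
  field_simp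
  ring

theorem oneDnode_last (A N : ℕ) (hN : 0 < N) : oneDnode A N (2 * A * N + 1) = A := by
  rw [oneDnode_int A N hN]; push_cast; ring

theorem oneDR_zero (ρ : ℝ → ℝ) (A N : ℕ) : oneDR ρ A N 0 = 1 := by simp [oneDR]

theorem oneDR_eq (ρ : ℝ → ℝ) (A N k : ℕ) (h1 : 1 ≤ k) (h2 : k ≤ 2 * A * N + 1) :
    oneDR ρ A N k = Rt ρ (oneDnode A N k) := by
  rw [oneDR, if_neg (by omega), if_pos h2]

theorem oneDR_last (ρ : ℝ → ℝ) (A N : ℕ) : oneDR ρ A N (2 * A * N + 1 + 1) = 0 := by
  rw [oneDR, if_neg (by omega), if_neg (by omega)]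

theorem oneDR_sub {ρ w : ℝ → ℝ} (h : Struct1 ρ w) (A N k : ℕ) (h1 : 1 ≤ k) (h2 : k + 1 ≤ 2 * A * N + 1) :
    oneDR ρ A N k - oneDR ρ A N (k + 1) = ∫ t in (oneDnode A N k)..(oneDnode A N (k + 1)), ρ t := by
  rw [oneDR_eq ρ A N k h1 (by omega), oneDR_eq ρ A N (k + 1) (by omega) h2, oneD_Rt_sub h]

theorem oneD_int_nonneg {ρ w : ℝ → ℝ} (h : Struct1 ρ w) {a b : ℝ} (hab : a ≤ b) :
    0 ≤ ∫ t in a..b, ρ t :=
  intervalIntegral.integral_nonneg hab fun t _ => (h.pos t).le

theorem oneDR_anti {ρ w : ℝ → ℝ} (h : Struct1 ρ w) (A N k : ℕ) (hk : k ≤ 2 * A * N + 1) :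
    oneDR ρ A N (k + 1) ≤ oneDR ρ A N k := by
  rcases Nat.eq_zero_or_pos k with rfl | hk0
  · rw [oneDR_zero, oneDR_eq ρ A N (0 + 1) (by omega) (by omega)]
    exact (Rt_mem h _).2.le
  · rcases eq_or_lt_of_le hk with rfl | hlt
    · rw [oneDR_last, oneDR_eq ρ A N _ (by omega) le_rfl]
      exact (Rt_mem h _).1.le
    · have := oneDR_sub h A N k hk0 (by omega)
      have h2 := oneD_int_nonneg h (oneDnode_mono A N (Nat.le_succ k))
      linarith

theorem oneD_grid {ρ w : ℝ → ℝ} (h : Struct1 ρ w) (A N T t₀ : ℕ) (hN : 0 < N) (ht : 0 < t₀)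
    (htT : t₀ ≤ T) (hTA : T ≤ A) (hTA' : T < A) (b α₀ : ℝ)
    (h8 : Rt ρ t₀ ≤ α₀ / 8) (hb : b ≤ Rt ρ t₀) :
    Grid (oneDR ρ A N) (2 * A * N + 1) ((A - T) * N + 1) ((A + T) * N + 1) ((A - t₀) * N + 1)
      ((A + t₀) * N + 1) (2 * Rt ρ T) b α₀ := by
  have e1 : ∀ B : ℕ, B ≤ A → oneDR ρ A N ((A - B) * N + 1) = 1 - Rt ρ B := by
    intro B hB
    rw [oneDR_eq ρ A N _ (by omega), oneDnode_int A N hN, ← Rt_neg h]
    · congr 1
      rw [Nat.cast_sub hB]; ring
    · have : (A - B) * N ≤ 2 * A * N := Nat.mul_le_mul_right _ (by omega)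
      omega
  have e2 : ∀ B : ℕ, B ≤ A → oneDR ρ A N ((A + B) * N + 1) = Rt ρ B := by
    intro B hB
    rw [oneDR_eq ρ A N _ (by omega), oneDnode_int A N hN]
    · congr 1
      push_cast; ring
    · have : (A + B) * N ≤ 2 * A * N := Nat.mul_le_mul_right _ (by omega)
      omega
  refine ⟨fun k hk => oneDR_anti h A N k hk, oneDR_zero ρ A N, oneDR_last ρ A N, by omega, ?_, ?_, ?_,
    ?_, ?_, ?_, ?_, ?_, ?_, ?_⟩
  · have : (A - T) * N ≤ (A - t₀) * N := Nat.mul_le_mul_right _ (by omega)
    omega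
  · have : (A - t₀) * N < (A + t₀) * N := Nat.mul_lt_mul_of_pos_right (by omega) hN
    omega
  · have : (A + t₀) * N ≤ (A + T) * N := Nat.mul_le_mul_right _ (by omega)
    omega
  · have : (A + T) * N ≤ 2 * A * N := Nat.mul_le_mul_right _ (by omega)
    omega
  · rw [e1 T hTA]; ring
  · rw [e2 T hTA]; ring
  · rw [e1 t₀ (by omega)]; linarith
  · rw [e2 t₀ (by omega)]; exact h8
  · rw [e1 t₀ (by omega)]; linarith
  · rw [e2 t₀ (by omega)]; exact hb


/-- one cell of the Riemann–Stieltjes sum -/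
theorem oneD_cell {ρ w : ℝ → ℝ} (h : Struct1 ρ w) {x y : ℝ} (hxy : x ≤ y) (G : ℝ → ℝ)
    (hG : Continuous G) (v ε : ℝ) (hε : ∀ t ∈ Icc x y, |G t - v| ≤ ε) :
    |(∫ t in x..y, G t * ρ t) - v * ∫ t in x..y, ρ t| ≤ ε * ∫ t in x..y, ρ t := by
  have hi1 : IntervalIntegrable (fun t => G t * ρ t) volume x y :=
    (hG.mul h.cont).intervalIntegrable _ _
  have hi2 : IntervalIntegrable (fun t => v * ρ t) volume x y :=
    (continuous_const.mul h.cont).intervalIntegrable _ _
  rw [← intervalIntegral.integral_const_mul, ← intervalIntegral.integral_sub hi1 hi2,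
    ← intervalIntegral.integral_const_mul]
  have hi3 : IntervalIntegrable (fun t => ε * ρ t) volume x y :=
    (continuous_const.mul h.cont).intervalIntegrable _ _
  rw [← Real.norm_eq_abs]
  refine intervalIntegral.norm_integral_le_of_norm_le hxy ?_ hi3
  refine Eventually.of_forall fun t ht => ?_
  have h1 := hε t ⟨ht.1.le, ht.2⟩
  have : G t * ρ t - v * ρ t = (G t - v) * ρ t := by ring
  rw [this, norm_mul, Real.norm_eq_abs, Real.norm_eq_abs, abs_of_pos (h.pos t)]
  exact mul_le_mul_of_nonneg_right h1 (h.pos t).le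

/-- splitting an integral along the nodes -/
theorem oneD_split (A N : ℕ) {f : ℝ → ℝ}
    (hf : ∀ x y, IntervalIntegrable f volume x y) {a b : ℕ} (hab : a ≤ b) :
    ∑ k ∈ Finset.Ico a b, ∫ t in (oneDnode A N k)..(oneDnode A N (k + 1)), f t =
      ∫ t in (oneDnode A N a)..(oneDnode A N b), f t :=
  intervalIntegral.sum_integral_adjacent_intervals_Ico hab fun _ _ => hf _ _

/-- Riemann–Stieltjes sums -/
theorem oneD_RS {ρ w : ℝ → ℝ} (h : Struct1 ρ w) (A N : ℕ) (hN : 0 < N) (G : ℝ → ℝ)
    (hG : Continuous G) (L : ℝ) (hL : ∀ s t, |G s - G t| ≤ L * |s - t|)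
    {a b : ℕ} (ha : 1 ≤ a) (hab : a ≤ b) (hb : b ≤ 2 * A * N + 1) :
    |(∑ k ∈ Finset.Ico a b, (oneDR ρ A N k - oneDR ρ A N (k + 1)) * G (oneDnode A N k)) -
      ∫ t in (oneDnode A N a)..(oneDnode A N b), G t * ρ t| ≤ L / N := by
  have hL0 : 0 ≤ L := by
    have := hL 1 0
    simp at this
    exact (abs_nonneg _).trans this
  have hNpos : (0 : ℝ) < N := by exact_mod_cast hN
  rw [← oneD_split A N (f := fun t => G t * ρ t)
    (fun x y => (hG.mul h.cont).intervalIntegrable x y) hab, ← Finset.sum_sub_distrib]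
  refine (Finset.abs_sum_le_sum_abs _ _).trans ?_
  have key : ∀ k ∈ Finset.Ico a b,
      |(oneDR ρ A N k - oneDR ρ A N (k + 1)) * G (oneDnode A N k) -
        ∫ t in (oneDnode A N k)..(oneDnode A N (k + 1)), G t * ρ t| ≤
      L / N * ∫ t in (oneDnode A N k)..(oneDnode A N (k + 1)), ρ t := by
    intro k hk
    rw [Finset.mem_Ico] at hk
    rw [oneDR_sub h A N k (by omega) (by omega), abs_sub_comm, mul_comm _ (G _)]
    refine oneD_cell h (oneDnode_mono A N (Nat.le_succ k)) G hG _ _ fun t ht => ?_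
    refine (hL _ _).trans ?_
    rw [oneDnode_succ] at ht
    rw [abs_of_nonneg (by linarith [ht.1]), div_eq_mul_one_div]
    exact mul_le_mul_of_nonneg_left (by linarith [ht.2]) hL0
  refine (Finset.sum_le_sum key).trans ?_
  rw [← Finset.mul_sum, oneD_split A N (fun x y => h.cont.intervalIntegrable x y) hab,
    ← oneD_Rt_sub h]
  have h1 := Rt_mem h (oneDnode A N a)
  have h2 := Rt_mem h (oneDnode A N b)
  calc L / N * (Rt ρ (oneDnode A N a) - Rt ρ (oneDnode A N b)) ≤ L / N * 1 :=
        mul_le_mul_of_nonneg_left (by linarith [h1.2, h2.1]) (by positivity)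
    _ = L / N := mul_one _

/-- change of variables for a bounded function continuous in `(0,1)` -/
theorem oneD_comp {h : ℝ → ℝ} (hh : ContDiff ℝ 1 h) (h01 : ∀ t, h t ∈ Icc (0 : ℝ) 1) {g : ℝ → ℝ}
    (hg : ContinuousOn g (Ioo 0 1)) (hgm : Measurable g) (hgb : ∀ s, |g s| ≤ 1) (a b : ℝ) :
    ∫ s in (h a)..(h b), g s = ∫ t in a..b, g (h t) * deriv h t := by
  have hgi : ∀ x y, IntervalIntegrable g volume x y := by
    intro x y
    refine IntervalIntegrable.mono_fun (f := fun _ => (1 : ℝ)) (g := g) intervalIntegrable_const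
      hgm.aestronglyMeasurable (Eventually.of_forall fun s => ?_)
    simpa using hgb s
  have hcd : Continuous (deriv h) := hh.continuous_deriv le_rfl
  have hdiff : ∀ t, HasDerivAt h (deriv h t) t := fun t =>
    (hh.differentiable (by norm_num) t).hasDerivAt
  set G : ℝ → ℝ := fun x => ∫ s in (0 : ℝ)..x, g s with hG
  have hGlip : ∀ x y, |G x - G y| ≤ |x - y| := by
    intro x y
    have : G x - G y = ∫ s in y..x, g s := by
      simp only [hG]
      rw [intervalIntegral.integral_interval_sub_left (hgi _ _) (hgi _ _)]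
    rw [this, ← Real.norm_eq_abs]
    have := intervalIntegral.norm_integral_le_of_norm_le_const (a := y) (b := x) (f := g) (C := 1)
      (fun s _ => by simpa using hgb s)
    simpa using this
  have hder : ∀ t, HasDerivAt (fun t => G (h t)) (g (h t) * deriv h t) t := by
    intro t
    by_cases ht : h t ∈ Ioo (0 : ℝ) 1
    · have h1 : HasDerivAt G (g (h t)) (h t) := by
        refine intervalIntegral.integral_hasDerivAt_right (hgi _ _)
          hgm.stronglyMeasurable.stronglyMeasurableAtFilter ?_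
        exact hg.continuousAt (isOpen_Ioo.mem_nhds ht)
      exact h1.comp t (hdiff t)
    · have hext : deriv h t = 0 := by
        have h2 := h01 t
        have : h t = 0 ∨ h t = 1 := by
          by_contra hcon
          push Not at hcon
          exact ht ⟨lt_of_le_of_ne h2.1 (Ne.symm hcon.1), lt_of_le_of_ne h2.2 hcon.2⟩
        rcases this with h3 | h3
        · refine IsLocalMin.deriv_eq_zero (Eventually.of_forall fun s => ?_)
          rw [h3]; exact (h01 s).1
        · refine IsLocalMax.deriv_eq_zero (Eventually.of_forall fun s => ?_)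
          rw [h3]; exact (h01 s).2
      rw [hext, mul_zero]
      have h0 : HasDerivAt h 0 t := hext ▸ hdiff t
      rw [hasDerivAt_iff_isLittleO] at h0 ⊢
      simp only [smul_zero, sub_zero] at h0 ⊢
      refine Asymptotics.IsBigO.trans_isLittleO ?_ h0
      refine Asymptotics.IsBigO.of_bound 1 (Eventually.of_forall fun s => ?_)
      rw [one_mul, Real.norm_eq_abs, Real.norm_eq_abs]
      exact hGlip _ _
  have hint : IntervalIntegrable (fun t => g (h t) * deriv h t) volume a b := by
    refine IntervalIntegrable.mono_fun (hcd.intervalIntegrable a b)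
      ((hgm.comp hh.continuous.measurable).mul hcd.measurable).aestronglyMeasurable
      (Eventually.of_forall fun t => ?_)
    change ‖g (h t) * deriv h t‖ ≤ ‖deriv h t‖
    rw [norm_mul]
    have := hgb (h t)
    rw [← Real.norm_eq_abs] at this
    calc ‖g (h t)‖ * ‖deriv h t‖ ≤ 1 * ‖deriv h t‖ :=
          mul_le_mul_of_nonneg_right this (norm_nonneg _)
      _ = ‖deriv h t‖ := one_mul _
  rw [intervalIntegral.integral_eq_sub_of_hasDerivAt (fun t _ => hder t) hint]
  simp only [hG]
  rw [intervalIntegral.integral_interval_sub_left (hgi _ _) (hgi _ _)]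

/-- `w` is Lipschitz on `[-A,A]` -/
theorem oneD_w_lip {ρ w : ℝ → ℝ} (h : Struct1 ρ w) (A : ℝ) (hA : 0 ≤ A) {s t : ℝ}
    (hs : s ∈ Icc (-A) A) (ht : t ∈ Icc (-A) A) : |w s - w t| ≤ 4 * A * |s - t| := by
  have hρ : ∀ t, ρ t ≤ 2 := by
    intro t
    have h1 := (struct_bounds h t).2.1
    have h2 : Real.exp (-t ^ 2 / 2) ≤ 1 := by
      rw [Real.exp_le_one_iff]
      have := sq_nonneg t
      linarith
    linarith [h.le1 t]
  have := Convex.norm_image_sub_le_of_norm_hasDerivWithin_le (f := w) (f' := fun t => -2 * t * ρ t)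
    (s := Icc (-A) A) (x := t) (y := s) (C := 4 * A)
    (fun u _ => (h.hasDeriv u).hasDerivWithinAt) (fun u hu => ?_) (convex_Icc _ _) ht hs
  · simpa [Real.norm_eq_abs] using this
  · rw [norm_mul, norm_mul, Real.norm_eq_abs, Real.norm_eq_abs, Real.norm_eq_abs,
      abs_of_pos (h.pos u)]
    have h1 : |u| ≤ A := abs_le.2 ⟨hu.1, hu.2⟩
    have h2 : |(-2 : ℝ)| = 2 := by norm_num
    rw [h2]
    calc 2 * |u| * ρ u ≤ 2 * A * 2 := by
          have := hρ u
          have := h.pos u
          have h3 : 2 * |u| ≤ 2 * A := by linarith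
          exact mul_le_mul h3 (hρ u) (h.pos u).le (by linarith)
      _ = 4 * A := by ring

/-- perimeter cell -/
theorem oneD_per_cell {ρ w : ℝ → ℝ} (hS : Struct1 ρ w) {h : ℝ → ℝ} (hh : ContDiff ℝ 1 h)
    (h01 : ∀ t, h t ∈ Icc (0 : ℝ) 1) {g : ℝ → ℝ}
    (hg : ContinuousOn g (Ioo 0 1)) (hgm : Measurable g) (hgb : ∀ s, 0 ≤ g s ∧ g s ≤ 1)
    (A : ℝ) {a b : ℝ} (hab : a ≤ b) (ha : -A ≤ a) (hb : b ≤ A) (L : ℝ) (hL : ∀ t, |deriv h t| ≤ L) :
    w b * |∫ s in (h a)..(h b), g s| ≤
      (∫ t in a..b, g (h t) * |deriv h t| * w t) + 4 * A * (b - a) * (L * (b - a)) := by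
  have hA : 0 ≤ A := by linarith
  have hcd : Continuous (deriv h) := hh.continuous_deriv le_rfl
  have hwc : Continuous w := continuous_iff_continuousAt.2 fun t => (hS.hasDeriv t).continuousAt
  have hgb' : ∀ s, |g s| ≤ 1 := fun s => by rw [abs_of_nonneg (hgb s).1]; exact (hgb s).2
  have hmeas : Measurable fun t => g (h t) * |deriv h t| :=
    (hgm.comp hh.continuous.measurable).mul hcd.abs.measurable
  have hL0 : 0 ≤ L := (abs_nonneg _).trans (hL 0)
  have hint0 : IntervalIntegrable (fun t => g (h t) * |deriv h t|) volume a b := by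
    refine IntervalIntegrable.mono_fun (hcd.intervalIntegrable a b) hmeas.aestronglyMeasurable
      (Eventually.of_forall fun t => ?_)
    change ‖g (h t) * |deriv h t|‖ ≤ ‖deriv h t‖
    rw [norm_mul, Real.norm_eq_abs, Real.norm_eq_abs, abs_abs, Real.norm_eq_abs]
    calc |g (h t)| * |deriv h t| ≤ 1 * |deriv h t| :=
          mul_le_mul_of_nonneg_right (hgb' _) (abs_nonneg _)
      _ = |deriv h t| := one_mul _
  have hint1 : IntervalIntegrable (fun t => g (h t) * |deriv h t| * w t) volume a b := by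
    refine IntervalIntegrable.mono_fun ((hcd.abs.mul hwc).intervalIntegrable a b)
      (hmeas.mul hwc.measurable).aestronglyMeasurable
      (Eventually.of_forall fun t => ?_)
    change ‖g (h t) * |deriv h t| * w t‖ ≤ ‖|deriv h t| * w t‖
    rw [norm_mul, norm_mul, norm_mul, Real.norm_eq_abs, Real.norm_eq_abs, abs_abs]
    have : |g (h t)| * |deriv h t| ≤ |deriv h t| := by
      calc |g (h t)| * |deriv h t| ≤ 1 * |deriv h t| :=
          mul_le_mul_of_nonneg_right (hgb' _) (abs_nonneg _)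
        _ = |deriv h t| := one_mul _
    exact mul_le_mul_of_nonneg_right this (norm_nonneg _)
  have hwpos : ∀ t, 0 < w t := fun t => (hS.pos t).trans_le (hS.le1 t)
  rw [oneD_comp hh h01 hg hgm hgb']
  have h1 : |∫ t in a..b, g (h t) * deriv h t| ≤ ∫ t in a..b, g (h t) * |deriv h t| := by
    rw [← Real.norm_eq_abs]
    refine intervalIntegral.norm_integral_le_of_norm_le hab ?_ hint0
    refine Eventually.of_forall fun t _ => ?_
    rw [norm_mul, Real.norm_eq_abs, Real.norm_eq_abs, abs_of_nonneg (hgb _).1]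
  have h2 : w b * ∫ t in a..b, g (h t) * |deriv h t| =
      ∫ t in a..b, w b * (g (h t) * |deriv h t|) := by
    rw [intervalIntegral.integral_const_mul]
  have h3 : ∫ t in a..b, w b * (g (h t) * |deriv h t|) ≤
      ∫ t in a..b, (g (h t) * |deriv h t| * w t + 4 * A * (b - a) * L) := by
    refine intervalIntegral.integral_mono_on hab (hint0.const_mul _)
      (hint1.add intervalIntegrable_const) fun t ht => ?_
    have h4 := oneD_w_lip hS A hA (s := b) (t := t) ⟨by linarith [ht.1], hb⟩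
      ⟨by linarith [ht.1], by linarith [ht.2]⟩
    have h5 : w b ≤ w t + 4 * A * (b - a) := by
      have h6 := le_abs_self (w b - w t)
      have h7 : 4 * A * |b - t| ≤ 4 * A * (b - a) := by
        refine mul_le_mul_of_nonneg_left ?_ (by linarith)
        rw [abs_of_nonneg (by linarith [ht.2])]
        linarith [ht.1]
      linarith
    have h8 : g (h t) * |deriv h t| ≤ L := by
      calc g (h t) * |deriv h t| ≤ 1 * L :=
            mul_le_mul (hgb _).2 (hL t) (abs_nonneg _) zero_le_one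
        _ = L := one_mul _
    have h9 : 0 ≤ g (h t) * |deriv h t| := mul_nonneg (hgb _).1 (abs_nonneg _)
    calc w b * (g (h t) * |deriv h t|) ≤ (w t + 4 * A * (b - a)) * (g (h t) * |deriv h t|) :=
          mul_le_mul_of_nonneg_right h5 h9
      _ = g (h t) * |deriv h t| * w t + 4 * A * (b - a) * (g (h t) * |deriv h t|) := by ring
      _ ≤ g (h t) * |deriv h t| * w t + 4 * A * (b - a) * L := by
          have : 0 ≤ 4 * A * (b - a) := by
            have : 0 ≤ b - a := by linarith
            positivity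
          linarith [mul_le_mul_of_nonneg_left h8 this]
  calc w b * |∫ t in a..b, g (h t) * deriv h t| ≤ w b * ∫ t in a..b, g (h t) * |deriv h t| :=
        mul_le_mul_of_nonneg_left h1 (hwpos b).le
    _ = ∫ t in a..b, w b * (g (h t) * |deriv h t|) := h2
    _ ≤ _ := h3
    _ = _ := by
        rw [intervalIntegral.integral_add hint1 intervalIntegrable_const,
          intervalIntegral.integral_const, smul_eq_mul]
        ring

theorem oneD_sum_range {f : ℕ → ℝ} {n : ℕ} (hn : 1 ≤ n) (h0 : f 0 = 0) (hl : f n = 0) :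
    ∑ k ∈ Finset.range (n + 1), f k = ∑ k ∈ Finset.Ico 1 n, f k := by
  rw [Finset.sum_range_succ, hl, add_zero, Finset.range_eq_Ico,
    Finset.sum_eq_sum_Ico_succ_bot (by omega), h0, zero_add]

theorem oneD_sum_range' {f : ℕ → ℝ} {n : ℕ} (hn : 1 ≤ n) (h0 : f 0 = 0) :
    ∑ k ∈ Finset.range n, f k = ∑ k ∈ Finset.Ico 1 n, f k := by
  rw [Finset.range_eq_Ico, Finset.sum_eq_sum_Ico_succ_bot (by omega), h0, zero_add]

/-- the final estimate -/
theorem oneD_final {ρ w : ℝ → ℝ} (hS : Struct1 ρ w) {h : ℝ → ℝ} (hc : Continuous h)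
    (h01 : ∀ t, h t ∈ Icc (0 : ℝ) 1) (L : ℝ) (hL : ∀ s t, |h s - h t| ≤ L * |s - t|) (A N : ℕ)
    (hN : 0 < N) (hA : ∀ t, (A : ℝ) ≤ |t| → h t = 0) (i : ℕ) (hi : i + 1 ≤ 2 * A * N)
    (hi0 : 1 ≤ i)
    (u v : ℝ) (huv : (u = 0 ∧ v = 1) ∨ (u = 1 ∧ v = 0)) :
    ∫ s, ρ s * |h s - (if s < oneDnode A N (i + 1) then u else v)| ≤
      (∑ j ∈ Finset.range (2 * A * N + 1 + 1), |h (oneDnode A N j) - (if j ≤ i then u else v)| *
        (oneDR ρ A N j - oneDR ρ A N (j + 1))) + L / N := by
  set t := oneDnode A N (i + 1) with ht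
  set n := 2 * A * N + 1 with hn
  have hNpos : (0 : ℝ) < N := by exact_mod_cast hN
  have hL0 : 0 ≤ L := by
    have := hL 1 0
    simp at this
    exact (abs_nonneg _).trans this
  set f : ℝ → ℝ := fun s => ρ s * |h s - (if s < t then u else v)| with hf
  have huv01 : |u| ≤ 1 ∧ |v| ≤ 1 := by rcases huv with ⟨rfl, rfl⟩ | ⟨rfl, rfl⟩ <;> simp
  have hind : Measurable fun s : ℝ => (if s < t then u else v) :=
    Measurable.ite measurableSet_Iio measurable_const measurable_const
  have hfm : Measurable f := by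
    have := (hc.measurable.sub hind)
    exact hS.cont.measurable.mul (measurable_norm.comp this)
  have hfi : Integrable f := by
    refine Integrable.mono' (hS.hint.const_mul 2) hfm.aestronglyMeasurable
      (Eventually.of_forall fun s => ?_)
    have h1 := h01 s
    have h2 : |h s - (if s < t then u else v)| ≤ 2 := by
      have h3 : |h s| ≤ 1 := by rw [abs_of_nonneg h1.1]; exact h1.2
      have h4 : |(if s < t then u else v)| ≤ 1 := by split_ifs; exacts [huv01.1, huv01.2]
      calc |h s - (if s < t then u else v)| ≤ |h s| + |(if s < t then u else v)| := abs_sub _ _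
        _ ≤ 2 := by linarith
    simp only [hf, norm_mul, Real.norm_eq_abs, abs_abs, abs_of_pos (hS.pos s)]
    rw [mul_comm 2]
    exact mul_le_mul_of_nonneg_left h2 (hS.pos s).le
  have hfint : ∀ x y, IntervalIntegrable f volume x y := fun x y => hfi.intervalIntegrable
  have hnode1 : oneDnode A N 1 = -A := oneDnode_one A N
  have hnoden : oneDnode A N n = A := oneDnode_last A N hN
  have ht1 : -(A : ℝ) < t := by
    rw [ht, oneDnode]
    push_cast
    have : 0 < ((i : ℝ) + 1 - 1) / N := by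
      have : (0 : ℝ) < i := by exact_mod_cast hi0
      apply div_pos _ hNpos; linarith
    linarith
  have ht2 : t < A := by
    rw [ht, oneDnode]
    have h1 : ((i : ℝ) + 1) ≤ 2 * A * N := by exact_mod_cast hi
    have : ((i : ℝ) + 1 - 1) / N < 2 * A := by
      rw [div_lt_iff₀ hNpos]; linarith
    push_cast
    linarith
  have hsplit : ∫ s, f s = (∫ s in Iic (-(A : ℝ)), f s) + (∫ s in (-(A : ℝ))..A, f s) +
      ∫ s in Ioi (A : ℝ), f s := by
    rw [← intervalIntegral.integral_Iic_sub_Iic hfi.integrableOn hfi.integrableOn]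
    rw [← intervalIntegral.integral_Iic_add_Ioi (b := (A : ℝ)) hfi.integrableOn hfi.integrableOn]
    ring
  have hleft : ∫ s in Iic (-(A : ℝ)), f s = |u| * (1 - Rt ρ (-(A : ℝ))) := by
    have h1 : ∫ s in Iic (-(A : ℝ)), f s = ∫ s in Iic (-(A : ℝ)), |u| * ρ s := by
      refine setIntegral_congr_fun measurableSet_Iic fun s hs => ?_
      have hs' : s ≤ -(A : ℝ) := hs
      have h2 : h s = 0 := hA s (by rw [abs_of_nonpos (by linarith [(Nat.cast_nonneg A : (0:ℝ) ≤ A)])]; linarith)
      simp only [hf, h2, if_pos (lt_of_le_of_lt hs' ht1), zero_sub, abs_neg]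
      ring
    rw [h1, integral_const_mul]
    congr 1
    have h3 := intervalIntegral.integral_Iic_add_Ioi (b := (-(A : ℝ))) hS.hint.integrableOn hS.hint.integrableOn
    rw [hS.int1] at h3
    unfold Rt
    linarith
  have hright : ∫ s in Ioi (A : ℝ), f s = |v| * Rt ρ A := by
    have h1 : ∫ s in Ioi (A : ℝ), f s = ∫ s in Ioi (A : ℝ), |v| * ρ s := by
      refine setIntegral_congr_fun measurableSet_Ioi fun s hs => ?_
      have hs' : (A : ℝ) < s := hs
      have h2 : h s = 0 := hA s (by rw [abs_of_nonneg (by linarith [(Nat.cast_nonneg A : (0:ℝ) ≤ A)])]; linarith)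
      simp only [hf, h2, if_neg (not_lt.2 (ht2.le.trans hs'.le)), zero_sub, abs_neg]
      ring
    rw [h1, integral_const_mul]
    rfl
  have hmid : ∫ s in (-(A : ℝ))..A, f s ≤
      (∑ j ∈ Finset.Ico 1 n, |h (oneDnode A N j) - (if j ≤ i then u else v)| *
        (oneDR ρ A N j - oneDR ρ A N (j + 1))) + L / N := by
    rw [← hnode1, ← hnoden, ← oneD_split A N hfint (by omega : 1 ≤ n)]
    have hcell : ∀ j ∈ Finset.Ico 1 n, ∫ s in (oneDnode A N j)..(oneDnode A N (j + 1)), f s ≤
        |h (oneDnode A N j) - (if j ≤ i then u else v)| * (oneDR ρ A N j - oneDR ρ A N (j + 1)) +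
          L / N * ∫ s in (oneDnode A N j)..(oneDnode A N (j + 1)), ρ s := by
      intro j hj
      rw [Finset.mem_Ico] at hj
      set z : ℝ := if j ≤ i then u else v with hz
      have h1 : ∫ s in (oneDnode A N j)..(oneDnode A N (j + 1)), f s =
          ∫ s in (oneDnode A N j)..(oneDnode A N (j + 1)), |h s - z| * ρ s := by
        refine intervalIntegral.integral_congr_ae ?_
        have hne : ∀ᵐ s : ℝ, s ≠ t := compl_mem_ae_iff.2 (measure_singleton t)
        filter_upwards [hne] with s hs hsI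
        rw [uIoc_of_le (oneDnode_mono A N (Nat.le_succ j))] at hsI
        have : (if s < t then u else v) = z := by
          rw [hz]
          by_cases hji : j ≤ i
          · rw [if_pos hji, if_pos]
            refine lt_of_le_of_ne (hsI.2.trans ?_) hs
            exact oneDnode_mono A N (by omega)
          · rw [if_neg hji, if_neg]
            have : t ≤ oneDnode A N j := oneDnode_mono A N (by omega)
            linarith [hsI.1]
        simp only [hf, this]
        ring
      rw [h1, oneDR_sub hS A N j hj.1 (by omega)]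
      have h2 := oneD_cell hS (oneDnode_mono A N (Nat.le_succ j)) (fun s => |h s - z|)
        (hc.sub continuous_const).abs (|h (oneDnode A N j) - z|) (L / N) (fun s hs => ?_)
      · have := (abs_le.1 h2).2
        linarith
      · have h3 : |(|h s - z| - |h (oneDnode A N j) - z|)| ≤ |h s - h (oneDnode A N j)| := by
          have := abs_abs_sub_abs_le_abs_sub (h s - z) (h (oneDnode A N j) - z)
          rwa [sub_sub_sub_cancel_right] at this
        refine h3.trans ((hL _ _).trans ?_)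
        rw [Nat.succ_eq_add_one, oneDnode_succ] at hs
        rw [abs_of_nonneg (by linarith [hs.1]), div_eq_mul_one_div]
        exact mul_le_mul_of_nonneg_left (by linarith [hs.2]) hL0
    refine (Finset.sum_le_sum hcell).trans ?_
    rw [Finset.sum_add_distrib, ← Finset.mul_sum,
      oneD_split A N (fun x y => hS.cont.intervalIntegrable x y) (by omega : 1 ≤ n), ← oneD_Rt_sub hS]
    have h5 := Rt_mem hS (oneDnode A N 1)
    have h6 := Rt_mem hS (oneDnode A N n)
    have : L / N * (Rt ρ (oneDnode A N 1) - Rt ρ (oneDnode A N n)) ≤ L / N * 1 :=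
        mul_le_mul_of_nonneg_left (by linarith [h5.2, h6.1]) (by positivity)
    linarith
  have hsum : (∑ j ∈ Finset.range (n + 1), |h (oneDnode A N j) - (if j ≤ i then u else v)| *
        (oneDR ρ A N j - oneDR ρ A N (j + 1))) = |u| * (1 - Rt ρ (-(A : ℝ))) +
      (∑ j ∈ Finset.Ico 1 n, |h (oneDnode A N j) - (if j ≤ i then u else v)| *
        (oneDR ρ A N j - oneDR ρ A N (j + 1))) + |v| * Rt ρ A := by
    rw [Finset.sum_range_succ, Finset.range_eq_Ico, Finset.sum_eq_sum_Ico_succ_bot (by omega)]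
    have h0 : h (oneDnode A N 0) = 0 := by
      apply hA
      have : oneDnode A N 0 = -A - 1 / N := by unfold oneDnode; push_cast; ring
      rw [this]
      have : (0 : ℝ) < 1 / N := by positivity
      have hA' : (0 : ℝ) ≤ A := Nat.cast_nonneg A
      rw [abs_of_nonpos (by linarith)]
      linarith
    have hl : h (oneDnode A N n) = 0 := by
      apply hA
      rw [hnoden]
      exact le_abs_self _
    have e1 : oneDR ρ A N 1 = Rt ρ (-(A : ℝ)) := by
      rw [oneDR_eq ρ A N 1 le_rfl (by omega), hnode1]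
    have e2 : oneDR ρ A N n = Rt ρ (A : ℝ) := by
      rw [oneDR_eq ρ A N n (by omega) le_rfl, hnoden]
    rw [h0, hl, oneDR_zero, e1, e2, oneDR_last, if_pos (Nat.zero_le i), if_neg (by omega)]
    simp only [zero_sub, abs_neg, sub_zero]
  rw [hsplit, hleft, hright, hsum]
  linarith

/-- 1D-6: the continuous one-dimensional theorem -/
theorem oneD (α₀ : ℝ) (h₀ : 0 < α₀) :
    ∃ t₀ T κ₀ C₁ η₀ : ℝ, 0 < t₀ ∧ t₀ ≤ T ∧ 1 ≤ κ₀ ∧ 0 < C₁ ∧ 0 < η₀ ∧
      ∀ ρ w : ℝ → ℝ, Struct1 ρ w → ∀ h : ℝ → ℝ, ContDiff ℝ 1 h → HasCompactSupport h →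
      (∀ t, h t ∈ Icc (0 : ℝ) 1) → (∫ t, h t * ρ t) ∈ Icc α₀ (1 - α₀) →
      ∀ c₀, Rt ρ c₀ = ∫ t, h t * ρ t → ∀ η, 0 < η → η ≤ η₀ →
      (∀ c ω : ℝ → ℝ, Measurable c → Measurable ω → (∀ t, c t ^ 2 + ω t ^ 2 ≤ 1) → (∀ t, 0 ≤ ω t) →
        (∀ t, T < |t| → ω t = 0) →
        (∫ t, c t * deriv h t * w t) + κ₀ * ∫ t, ω t * min (h t) (1 - h t) * w t ≤ w c₀ + η) →
      ∃ t, |t| ≤ t₀ ∧ ∃ H : Set ℝ, (H = Ioi t ∨ H = Iio t) ∧
        ∫ s, w s * |h s - H.indicator (fun _ => (1 : ℝ)) s| ≤ C₁ * Real.sqrt η := by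
  obtain ⟨Ca, hCa, hpar⟩ := Jf_parabola α₀ h₀
  set β := α₀ / 2 with hβ
  have hβ0 : 0 < β := by positivity
  obtain ⟨T₁, hT₁, htail₁⟩ := Rt_tail (β / 8) (by positivity)
  set t₀ : ℕ := ⌈T₁⌉₊ with ht₀
  have ht₀pos : 0 < t₀ := Nat.ceil_pos.2 hT₁
  have ht₀T : T₁ ≤ t₀ := Nat.le_ceil _
  obtain ⟨b, hb, hlow⟩ := Rt_lower (t₀ : ℝ)
  obtain ⟨p₀, κ₀, hp₀, hκ₀, hstar⟩ := grid_star β Ca b hβ0 hCa hb
  obtain ⟨C, η₀, hC, hη₀, hext⟩ := grid_extract β b hβ0 hb
  obtain ⟨T₂, hT₂, htail₂⟩ := Rt_tail (min (p₀ / 2) (β / 8)) (by positivity)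
  set T : ℕ := max t₀ ⌈T₂⌉₊ with hT
  have ht₀leT : t₀ ≤ T := le_max_left _ _
  have hT₂T : T₂ ≤ T := (Nat.le_ceil _).trans (by exact_mod_cast le_max_right _ _)
  refine ⟨t₀, T, κ₀, 2 * (2 * C + 1), min (η₀ / 2) 1, by exact_mod_cast ht₀pos,
    by exact_mod_cast ht₀leT, hκ₀, by positivity, by positivity, ?_⟩
  intro ρ w hS h hh hcs h01 hα c₀ hc₀ η hη hηle hadm
  have hη1 : η ≤ η₀ / 2 := hηle.trans (min_le_left _ _)
  have hη2 : η ≤ 1 := hηle.trans (min_le_right _ _)
  have hcd : Continuous (deriv h) := hh.continuous_deriv le_rfl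
  have hwc : Continuous w := continuous_iff_continuousAt.2 fun t => (hS.hasDeriv t).continuousAt
  have hwpos : ∀ t, 0 < w t := fun t => (hS.pos t).trans_le (hS.le1 t)
  have hdiff : ∀ t, HasDerivAt h (deriv h t) t := fun t =>
    (hh.differentiable (by norm_num) t).hasDerivAt
  obtain ⟨L, hL⟩ := hcs.deriv.exists_bound_of_continuous hcd
  have hL0 : 0 ≤ L := (norm_nonneg _).trans (hL 0)
  have hLip : ∀ s t, |h s - h t| ≤ L * |s - t| := by
    intro s t
    have := Convex.norm_image_sub_le_of_norm_hasDerivWithin_le (f := h) (f' := deriv h)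
      (s := univ) (x := t) (y := s) (C := L)
      (fun u _ => (hdiff u).hasDerivWithinAt) (fun u _ => hL u) convex_univ (mem_univ _) (mem_univ _)
    simpa [Real.norm_eq_abs] using this
  -- the support
  obtain ⟨r, hr⟩ := hcs.isCompact.isBounded.subset_closedBall (0 : ℝ)
  set A : ℕ := max (T + 1) (⌈r⌉₊ + 1) with hAdef
  have hTA : T < A := lt_of_lt_of_le (Nat.lt_succ_self T) (le_max_left _ _)
  have hrA : r < A := by
    have h1 : r ≤ ⌈r⌉₊ := Nat.le_ceil r
    have h2 : ((⌈r⌉₊ + 1 : ℕ) : ℝ) ≤ A := by exact_mod_cast le_max_right _ _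
    push_cast at h2
    linarith
  have hA : ∀ t, (A : ℝ) ≤ |t| → h t = 0 := by
    intro t ht
    by_contra hne
    have h1 : t ∈ tsupport h := subset_tsupport h hne
    have h2 := hr h1
    rw [Metric.mem_closedBall, dist_zero_right, Real.norm_eq_abs] at h2
    linarith
  have hA0 : (0 : ℝ) ≤ A := Nat.cast_nonneg A
  have hApos : 0 < A := by omega
  have hderiv0 : ∀ t, (A : ℝ) ≤ |t| → deriv h t = 0 := by
    intro t ht
    refine IsLocalMin.deriv_eq_zero (Eventually.of_forall fun s => ?_)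
    rw [hA t ht]; exact (h01 s).1
  -- the mesh
  set K : ℝ := 2 * |c₀| * L + Ca * L ^ 2 + 8 * A ^ 2 * L + κ₀ * L with hK
  have hK0 : 0 ≤ K := by positivity
  obtain ⟨N, hN⟩ := exists_nat_gt (max (K / η) (max (L / η) (L / β)))
  have hN1 : K / η < N := (le_max_left _ _).trans_lt hN
  have hN2 : L / η < N := (le_max_left _ _).trans_lt ((le_max_right _ _).trans_lt hN)
  have hN3 : L / β < N := (le_max_right _ _).trans_lt ((le_max_right _ _).trans_lt hN)
  have hNpos : (0 : ℝ) < N := lt_of_le_of_lt (by positivity) hN1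
  have hN0 : 0 < N := by exact_mod_cast hNpos
  have hKN : K / N ≤ η := by
    rw [div_le_iff₀ hNpos]; rw [div_lt_iff₀ hη] at hN1; linarith
  have hLN : L / N ≤ η := by
    rw [div_le_iff₀ hNpos]; rw [div_lt_iff₀ hη] at hN2; linarith
  have hLNβ : L / N ≤ β := by
    rw [div_le_iff₀ hNpos]; rw [div_lt_iff₀ hβ0] at hN3; linarith
  set n : ℕ := 2 * A * N + 1 with hn
  set R : ℕ → ℝ := oneDR ρ A N with hR
  set hk : ℕ → ℝ := fun k => h (oneDnode A N k) with hhk
  have hk01 : ∀ k, hk k ∈ Icc (0 : ℝ) 1 := fun k => h01 _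
  have hnode1 : oneDnode A N 1 = -A := oneDnode_one A N
  have hnoden : oneDnode A N n = A := oneDnode_last A N hN0
  have hk0 : hk 0 = 0 := by
    apply hA
    have : oneDnode A N 0 = -A - 1 / N := by unfold oneDnode; push_cast; ring
    rw [this]
    have : (0 : ℝ) < 1 / N := by positivity
    rw [abs_of_nonpos (by linarith)]
    linarith
  have hk1 : hk 1 = 0 := by
    apply hA
    rw [hnode1, abs_neg]; exact le_abs_self _
  have hkn : hk n = 0 := by
    apply hA
    rw [hnoden]; exact le_abs_self _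
  have hRT0 : 0 ≤ 2 * Rt ρ T := by have := (Rt_mem hS T).1; linarith
  have hRT1 : 2 * Rt ρ T ≤ p₀ := by
    have := (htail₂ ρ w hS T hT₂T).trans (min_le_left _ _); linarith
  have hRT2 : 2 * Rt ρ T ≤ β / 4 := by
    have := (htail₂ ρ w hS T hT₂T).trans (min_le_right _ _); linarith
  have hG := oneD_grid hS A N T t₀ hN0 ht₀pos ht₀leT hTA.le hTA b β (htail₁ ρ w hS t₀ ht₀T)
    (hlow ρ w hS)
  set k₁ := (A - T) * N + 1 with hk₁
  set k₂ := (A + T) * N + 1 with hk₂
  set j₁ := (A - t₀) * N + 1 with hj₁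
  set j₂ := (A + t₀) * N + 1 with hj₂
  change Grid R n k₁ k₂ j₁ j₂ (2 * Rt ρ T) b β at hG
  -- the mass
  have hn1 : 1 ≤ n := by omega
  have hmass : |gmass R n hk - ∫ t, h t * ρ t| ≤ L / N := by
    have h1 : gmass R n hk = ∑ k ∈ Finset.Ico 1 n, (R k - R (k + 1)) * h (oneDnode A N k) := by
      unfold gmass
      rw [oneD_sum_range hn1 (by rw [hk0]; ring) (by rw [hkn]; ring)]
      exact Finset.sum_congr rfl fun k _ => by rw [mul_comm]
    have h2 : ∫ t, h t * ρ t = ∫ t in (-(A : ℝ))..A, h t * ρ t := by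
      rw [intervalIntegral.integral_eq_integral_of_support_subset]
      intro t ht
      by_contra hcon
      apply ht
      have : h t = 0 := by
        apply hA
        rw [mem_Ioc, not_and_or, not_lt, not_le] at hcon
        rcases hcon with h3 | h3
        · rw [abs_of_nonpos (by linarith)]; linarith
        · rw [abs_of_nonneg (by linarith)]; linarith
      simp only [this, zero_mul]
    rw [h1, h2, ← hnode1, ← hnoden]
    exact oneD_RS hS A N hN0 h hh.continuous L hLip le_rfl hn1 le_rfl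
  rw [← hc₀] at hmass hα
  set e : ℝ := gmass R n hk - Rt ρ c₀ with he
  have he1 := abs_le.1 hmass
  have hgm : gmass R n hk ∈ Icc β (1 - β) := by
    constructor
    · have := hα.1
      linarith [he1.1]
    · have := hα.2
      linarith [he1.2]
  have hJ : ∀ m ∈ Icc (0 : ℝ) 1, (w c₀ + 2 * c₀ * e - Ca * e ^ 2) +
      (2 * c₀ - 2 * Ca * e) * (m - gmass R n hk) - Ca * (m - gmass R n hk) ^ 2 ≤ Jf ρ w m := by
    intro m hm
    refine le_trans (le_of_eq ?_) (hpar ρ w hS c₀ hα m hm)
    have : m - gmass R n hk = m - Rt ρ c₀ - e := by rw [he]; ring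
    rw [this]; ring
  obtain ⟨S, hScont, hSm, hSb, hSlip, hmain⟩ := hstar (Jf ρ w) (Jf_prop hS) R n k₁ k₂ j₁ j₂
    (2 * Rt ρ T) hG hRT0 hRT1 hk hk01 hgm _ _ hJ
  -- the fields
  set g : ℝ → ℝ := fun s => Real.sqrt (1 - S s ^ 2) with hg
  have hgb : ∀ s, 0 ≤ g s ∧ g s ≤ 1 := fun s =>
    ⟨Real.sqrt_nonneg _, Real.sqrt_le_one.2 (by have := sq_nonneg (S s); linarith)⟩
  have hgm' : Measurable g := (measurable_const.sub (hSm.pow_const 2)).sqrt
  have hgc : ContinuousOn g (Ioo 0 1) :=
    (continuousOn_const.sub (hScont.pow 2)).sqrt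
  set G : ℝ → ℝ := fun t => S (h t) * min (h t) (1 - h t) with hGdef
  have hGlip0 : ∀ s t, |G s - G t| ≤ L * |s - t| := by
    intro s t
    have h1 := hSlip.dist_le_mul (h s) (h01 s) (h t) (h01 t)
    rw [Real.dist_eq, Real.dist_eq, NNReal.coe_one, one_mul] at h1
    have h2 : 2 * S (h s) * min (h s) (1 - h s) - 2 * S (h t) * min (h t) (1 - h t) =
        2 * (G s - G t) := by simp only [hGdef]; ring
    rw [h2, abs_mul, abs_two] at h1
    have h3 := hLip s t
    have h4 := abs_nonneg (G s - G t)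
    linarith
  have hGcont : Continuous G := by
    have : LipschitzWith ⟨L, hL0⟩ G := LipschitzWith.of_dist_le_mul fun s t => by
      rw [Real.dist_eq, Real.dist_eq]; exact hGlip0 s t
    exact this.continuous
  have hG0 : ∀ t, 0 ≤ G t := fun t =>
    mul_nonneg (hSb _).1 (le_min (h01 t).1 (by linarith [(h01 t).2]))
  -- perimeter sum
  have hint2 : ∀ x y, IntervalIntegrable (fun t => g (h t) * |deriv h t| * w t) volume x y := by
    intro x y
    refine IntervalIntegrable.mono_fun ((hcd.abs.mul hwc).intervalIntegrable x y)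
      (((hgm'.comp hh.continuous.measurable).mul hcd.abs.measurable).mul
        hwc.measurable).aestronglyMeasurable
      (Eventually.of_forall fun t => ?_)
    change ‖g (h t) * |deriv h t| * w t‖ ≤ ‖|deriv h t| * w t‖
    rw [norm_mul, norm_mul, norm_mul, Real.norm_eq_abs, Real.norm_eq_abs, abs_abs]
    have : |g (h t)| * |deriv h t| ≤ |deriv h t| := by
      calc |g (h t)| * |deriv h t| ≤ 1 * |deriv h t| :=
          mul_le_mul_of_nonneg_right (by rw [abs_of_nonneg (hgb _).1]; exact (hgb _).2)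
            (abs_nonneg _)
        _ = |deriv h t| := one_mul _
    exact mul_le_mul_of_nonneg_right this (norm_nonneg _)
  have hper : (∑ k ∈ Finset.range n, Jf ρ w (R (k + 1)) * |∫ s in (hk k)..(hk (k + 1)), g s|) ≤
      (∫ t in (-(A : ℝ))..A, g (h t) * |deriv h t| * w t) + 8 * A ^ 2 * L / N := by
    rw [oneD_sum_range' hn1 (by rw [hk0, zero_add, hk1, intervalIntegral.integral_same]; simp)]
    have hcell : ∀ k ∈ Finset.Ico 1 n,
        Jf ρ w (R (k + 1)) * |∫ s in (hk k)..(hk (k + 1)), g s| ≤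
        (∫ t in (oneDnode A N k)..(oneDnode A N (k + 1)), g (h t) * |deriv h t| * w t) +
          4 * A * (1 / N) * (L * (1 / N)) := by
      intro k hkm
      rw [Finset.mem_Ico] at hkm
      rw [hR, oneDR_eq ρ A N (k + 1) (by omega) (by omega), Jf_Rt hS]
      have h1 := oneD_per_cell hS hh h01 hgc hgm' hgb (A : ℝ)
        (oneDnode_mono A N (Nat.le_succ k))
        (by rw [← hnode1]; exact oneDnode_mono A N hkm.1)
        (by rw [← hnoden]; exact oneDnode_mono A N (by omega)) L (fun t => hL t)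
      have h2 : oneDnode A N k.succ - oneDnode A N k = 1 / N := by
        rw [Nat.succ_eq_add_one, oneDnode_succ]; ring
      rw [h2] at h1
      exact h1
    refine (Finset.sum_le_sum hcell).trans ?_
    rw [Finset.sum_add_distrib, oneD_split A N hint2 hn1, hnode1, hnoden, Finset.sum_const,
      Nat.card_Ico, nsmul_eq_mul]
    have h3 : ((n - 1 : ℕ) : ℝ) = 2 * A * N := by
      have : n - 1 = 2 * A * N := by omega
      rw [this]; push_cast; ring
    rw [h3]
    have h4 : 2 * (A : ℝ) * N * (4 * A * (1 / N) * (L * (1 / N))) = 8 * A ^ 2 * L / N := by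
      field_simp
      ring
    rw [h4]
  -- the transversal sum
  have htr : (∑ k ∈ Finset.Ico k₁ k₂, (R k - R (k + 1)) * (S (hk k) * min (hk k) (1 - hk k))) ≤
      (∫ t in (-(T : ℝ))..T, G t * w t) + L / N := by
    have h1 := oneD_RS hS A N hN0 G hGcont L hGlip0 (a := k₁) (b := k₂) (by omega)
      (hG.ord2.trans (hG.ord3.le.trans hG.ord4)) hG.ord5
    have h2 : oneDnode A N k₁ = -(T : ℝ) := by
      rw [hk₁, oneDnode_int A N hN0, Nat.cast_sub hTA.le]; ring
    have h3 : oneDnode A N k₂ = (T : ℝ) := by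
      rw [hk₂, oneDnode_int A N hN0]; push_cast; ring
    rw [h2, h3] at h1
    have h4 : ∫ t in (-(T : ℝ))..T, G t * ρ t ≤ ∫ t in (-(T : ℝ))..T, G t * w t := by
      refine intervalIntegral.integral_mono_on (by have : (0:ℝ) ≤ T := Nat.cast_nonneg T
                                                   linarith)
        ((hGcont.mul hS.cont).intervalIntegrable _ _) ((hGcont.mul hwc).intervalIntegrable _ _)
        fun t _ => mul_le_mul_of_nonneg_left (hS.le1 t) (hG0 t)
    have h5 := (abs_le.1 h1).2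
    have h6 : (∑ k ∈ Finset.Ico k₁ k₂, (R k - R (k + 1)) * (S (hk k) * min (hk k) (1 - hk k))) =
      ∑ k ∈ Finset.Ico k₁ k₂, (oneDR ρ A N k - oneDR ρ A N (k + 1)) * G (oneDnode A N k) := rfl
    rw [h6]
    linarith
  -- the fields are admissible
  have hadm1 := hadm (fun t => (if 0 ≤ deriv h t then 1 else -1) * g (h t))
    (fun t => if |t| ≤ T then S (h t) else 0) ?_ ?_ ?_ ?_ ?_
  rotate_left
  · exact (Measurable.ite (measurableSet_le measurable_const hcd.measurable) measurable_const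
      measurable_const).mul (hgm'.comp hh.continuous.measurable)
  · exact Measurable.ite (measurableSet_le measurable_norm measurable_const)
      (hSm.comp hh.continuous.measurable) measurable_const
  · intro t
    have h1 : ((if 0 ≤ deriv h t then (1 : ℝ) else -1) * g (h t)) ^ 2 = g (h t) ^ 2 := by
      split_ifs <;> ring
    have h2 : g (h t) ^ 2 = 1 - S (h t) ^ 2 := by
      simp only [hg]
      rw [Real.sq_sqrt]
      have h3 := hSb (h t)
      have h4 : S (h t) ^ 2 ≤ 1 := by
        apply pow_le_one₀ h3.1 (h3.2.trans (by norm_num))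
      linarith
    simp only [h1, h2]
    split_ifs with h3
    · linarith
    · have := sq_nonneg (S (h t))
      linarith
  · intro t
    split_ifs
    exacts [(hSb _).1, le_rfl]
  · intro t ht
    rw [if_neg (not_le.2 ht)]
  have hI1 : ∫ t, ((if 0 ≤ deriv h t then (1 : ℝ) else -1) * g (h t)) * deriv h t * w t =
      ∫ t in (-(A : ℝ))..A, g (h t) * |deriv h t| * w t := by
    have h1 : (fun t => ((if 0 ≤ deriv h t then (1 : ℝ) else -1) * g (h t)) * deriv h t * w t) =
        fun t => g (h t) * |deriv h t| * w t := by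
      funext t
      split_ifs with h2
      · rw [abs_of_nonneg h2]; ring
      · rw [abs_of_neg (not_le.1 h2)]; ring
    rw [h1, intervalIntegral.integral_eq_integral_of_support_subset]
    intro t ht
    by_contra hcon
    apply ht
    have : deriv h t = 0 := by
      apply hderiv0
      rw [mem_Ioc, not_and_or, not_lt, not_le] at hcon
      rcases hcon with h3 | h3
      · rw [abs_of_nonpos (by linarith)]; linarith
      · rw [abs_of_nonneg (by linarith)]; linarith
    simp only [this, abs_zero, mul_zero, zero_mul]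
  have hI2 : ∫ t : ℝ, (if |t| ≤ T then S (h t) else 0) * min (h t) (1 - h t) * w t =
      ∫ t in (-(T : ℝ))..T, G t * w t := by
    have h1 : (fun t : ℝ => (if |t| ≤ T then S (h t) else 0) * min (h t) (1 - h t) * w t) =
        (Icc (-(T : ℝ)) T).indicator fun t => G t * w t := by
      funext t
      by_cases ht : |t| ≤ T
      · rw [if_pos ht, indicator_of_mem (show t ∈ Icc (-(T : ℝ)) T from abs_le.1 ht)]
      · rw [if_neg ht, indicator_of_notMem (show t ∉ Icc (-(T : ℝ)) T from fun h2 => ht (abs_le.2 h2))]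
        ring
    rw [h1, integral_indicator measurableSet_Icc, integral_Icc_eq_integral_Ioc,
      intervalIntegral.integral_of_le (by have : (0:ℝ) ≤ T := Nat.cast_nonneg T
                                          linarith)]
  rw [hI1, hI2] at hadm1
  -- error terms
  have herr : 2 * |c₀| * (L / N) + Ca * (L / N) ^ 2 + 8 * A ^ 2 * L / N + κ₀ * (L / N) ≤ η := by
    refine le_trans ?_ hKN
    have h1 : (L / N) ^ 2 ≤ L ^ 2 / N := by
      rw [div_pow]
      apply div_le_div_of_nonneg_left (by positivity) hNpos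
      have : (1 : ℝ) ≤ N := by exact_mod_cast hN0
      exact le_self_pow₀ this two_ne_zero
    have h2 : K / N = 2 * |c₀| * (L / N) + Ca * (L ^ 2 / N) + 8 * A ^ 2 * L / N + κ₀ * (L / N) := by
      rw [hK]; ring
    rw [h2]
    have := mul_le_mul_of_nonneg_left h1 hCa
    linarith
  have hJα : w c₀ - (2 * |c₀| * (L / N) + Ca * (L / N) ^ 2) ≤ w c₀ + 2 * c₀ * e - Ca * e ^ 2 := by
    have h1 : |c₀ * e| ≤ |c₀| * (L / N) := by
      rw [abs_mul]; exact mul_le_mul_of_nonneg_left hmass (abs_nonneg _)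
    have h2 := (abs_le.1 h1).1
    have h3 : e ^ 2 ≤ (L / N) ^ 2 := sq_le_sq' he1.1 he1.2
    have := mul_le_mul_of_nonneg_left h3 hCa
    linarith
  have hgdef0 : 0 ≤ ∫ s in (0 : ℝ)..1, gdef (Jf ρ w) R n hk s := by
    refine intervalIntegral.integral_nonneg zero_le_one fun s _ => ?_
    have := grid_iso (Jf_prop hS) hG.anti hG.zero hG.last (lev hk s) (fun k => by
      unfold lev; split_ifs; exacts [Or.inr rfl, Or.inl rfl])
    unfold gdef
    linarith
  have hd00 : 0 ≤ ∫ s in (0 : ℝ)..1, d0 R hk k₁ k₂ s ^ 2 :=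
    intervalIntegral.integral_nonneg zero_le_one fun s _ => sq_nonneg _
  have htot : 1 / 2 * (∫ s in (0 : ℝ)..1, gdef (Jf ρ w) R n hk s) +
      (∫ s in (0 : ℝ)..1, d0 R hk k₁ k₂ s ^ 2) ≤ 2 * η := by
    have h1 := mul_le_mul_of_nonneg_left htr (by linarith : 0 ≤ κ₀)
    rw [mul_add] at h1
    linarith [hmain, hper, hadm1]
  obtain ⟨i, hi1, hi2, u, v, huv, hsum⟩ := hext (Jf ρ w) (Jf_prop hS) R n k₁ k₂ j₁ j₂
    (2 * Rt ρ T) hG hRT0 hRT2 hk hk01 hgm (2 * η) (by linarith) (by linarith) (by linarith)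
    (by linarith)
  -- position of the end point
  have hj₁pos : 1 < j₁ := by
    have : 0 < (A - t₀) * N := Nat.mul_pos (by omega) hN0
    omega
  have hi0 : 1 ≤ i := by omega
  have hin : i + 1 ≤ 2 * A * N := by
    have h1 : (A + t₀) * N < 2 * A * N := Nat.mul_lt_mul_of_pos_right (by omega) hN0
    omega
  have hpos1 : -(t₀ : ℝ) ≤ oneDnode A N (i + 1) := by
    have h1 : oneDnode A N j₁ = -(t₀ : ℝ) := by
      rw [hj₁, oneDnode_int A N hN0, Nat.cast_sub (by omega)]; ring
    rw [← h1]; exact oneDnode_mono A N hi1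
  have hpos2 : oneDnode A N (i + 1) ≤ (t₀ : ℝ) := by
    have h1 : oneDnode A N j₂ = (t₀ : ℝ) := by
      rw [hj₂, oneDnode_int A N hN0]; push_cast; ring
    rw [← h1]; exact oneDnode_mono A N hi2
  have hfin := oneD_final hS hh.continuous h01 L hLip A N hN0 hA i hin hi0 u v huv
  set t := oneDnode A N (i + 1) with ht
  have hsq : Real.sqrt (2 * η) ≤ 2 * Real.sqrt η := by
    rw [Real.sqrt_le_iff]
    refine ⟨by positivity, ?_⟩
    rw [mul_pow, Real.sq_sqrt hη.le]
    linarith
  have hsq2 : η ≤ Real.sqrt η := by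
    apply Real.le_sqrt_of_sq_le
    calc η ^ 2 = η * η := sq η
      _ ≤ η * 1 := mul_le_mul_of_nonneg_left hη2 hη.le
      _ = η := mul_one η
  have hfin2 : ∫ s, ρ s * |h s - (if s < t then u else v)| ≤ (2 * C + 1) * Real.sqrt η := by
    refine hfin.trans ?_
    have h1 : C * Real.sqrt (2 * η) ≤ C * (2 * Real.sqrt η) :=
      mul_le_mul_of_nonneg_left hsq hC.le
    have h2 : (∑ j ∈ Finset.range (2 * A * N + 1 + 1), |h (oneDnode A N j) - (if j ≤ i then u else v)| *
        (oneDR ρ A N j - oneDR ρ A N (j + 1))) ≤ C * Real.sqrt (2 * η) := hsum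
    linarith
  have hfinal : ∀ H : Set ℝ, MeasurableSet H → (∀ s, s ≠ t → H.indicator (fun _ => (1 : ℝ)) s =
      if s < t then u else v) →
      ∫ s, w s * |h s - H.indicator (fun _ => (1 : ℝ)) s| ≤ 2 * (2 * C + 1) * Real.sqrt η := by
    intro H hHm hH
    have hne : ∀ᵐ s : ℝ, s ≠ t := compl_mem_ae_iff.2 (measure_singleton t)
    have h1 : ∫ s, w s * |h s - H.indicator (fun _ => (1 : ℝ)) s| ≤
        ∫ s, 2 * (ρ s * |h s - (if s < t then u else v)|) := by
      refine integral_mono_of_nonneg (Eventually.of_forall fun s =>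
        mul_nonneg (hwpos s).le (abs_nonneg _)) ?_ ?_
      · refine Integrable.const_mul ?_ 2
        have hind : Measurable fun s : ℝ => (if s < t then u else v) :=
          Measurable.ite measurableSet_Iio measurable_const measurable_const
        refine Integrable.mono' (hS.hint.const_mul 2)
          (hS.cont.measurable.mul (measurable_norm.comp
            (hh.continuous.measurable.sub hind))).aestronglyMeasurable
          (Eventually.of_forall fun s => ?_)
        have huv01 : |u| ≤ 1 ∧ |v| ≤ 1 := by rcases huv with ⟨rfl, rfl⟩ | ⟨rfl, rfl⟩ <;> simp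
        have h1 := h01 s
        have h2 : |h s - (if s < t then u else v)| ≤ 2 := by
          have h3 : |h s| ≤ 1 := by rw [abs_of_nonneg h1.1]; exact h1.2
          have h4 : |(if s < t then u else v)| ≤ 1 := by split_ifs; exacts [huv01.1, huv01.2]
          calc |h s - (if s < t then u else v)| ≤ |h s| + |(if s < t then u else v)| := abs_sub _ _
            _ ≤ 2 := by linarith
        rw [norm_mul, Real.norm_eq_abs, Real.norm_eq_abs, abs_abs, abs_of_pos (hS.pos s), mul_comm 2]
        exact mul_le_mul_of_nonneg_left h2 (hS.pos s).le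
      · filter_upwards [hne] with s hs
        rw [hH s hs, ← mul_assoc]
        exact mul_le_mul_of_nonneg_right (hS.le2 s) (abs_nonneg _)
    rw [integral_const_mul] at h1
    linarith
  refine ⟨t, abs_le.2 ⟨hpos1, hpos2⟩, ?_⟩
  rcases huv with ⟨hu, hv⟩ | ⟨hu, hv⟩
  · refine ⟨Ioi t, Or.inl rfl, hfinal _ measurableSet_Ioi fun s hs => ?_⟩
    rw [hu, hv]
    by_cases h1 : s < t
    · rw [if_pos h1, indicator_of_notMem (by simp [h1.le])]
    · rw [if_neg h1, indicator_of_mem]
      exact lt_of_le_of_ne (not_lt.1 h1) (Ne.symm hs)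
  · refine ⟨Iio t, Or.inr rfl, hfinal _ measurableSet_Iio fun s hs => ?_⟩
    rw [hu, hv]
    by_cases h1 : s < t
    · rw [if_pos h1, indicator_of_mem (by exact h1)]
    · rw [if_neg h1, indicator_of_notMem (by exact h1)]

end IsoHull
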