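import Pool.Agent.IsoHull27.D5b
import Pool.Agent.IsoHull27.D3b
import Pool.Agent.IsoHull27.OneD6

/-!
# IsoHull27: stability of the model isoperimetric inequality (MP_b478d8_an)
-/

open MeasureTheory Set Filter Topology
open scoped ENNReal NNReal

namespace IsoHull

namespace D5

variable {m : ℕ} {P : Par m} {q : ℝ}

theorem slab_meas (X : ℝ) : MeasurableSet {p : ℝ × (Fin m → ℝ) | |p.1| < X} :=
  measurableSet_lt (continuous_abs.comp continuous_fst).measurable measurable_const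

theorem integrableOn_slab {H : ℝ × (Fin m → ℝ) → ℝ} (hH : Continuous H) (X : ℝ) :
    IntegrableOn H {p : ℝ × (Fin m → ℝ) | |p.1| < X} (mu m) := by
  have hK : IsCompact (Icc (-X) X ×ˢ cube m) := isCompact_Icc.prod (cube_isCompact m)
  obtain ⟨C, hC⟩ := hK.exists_bound_of_continuousOn hH.continuousOn
  refine Integrable.of_bound hH.aestronglyMeasurable C ?_
  filter_upwards [ae_restrict_of_ae (mu_ae_mem m), ae_restrict_mem (slab_meas X)] with p hp hp2
  exact hC p ⟨abs_le.1 (le_of_lt hp2), hp⟩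

theorem one_sub_bound {x y : ℝ} (hx : x ∈ Icc (0 : ℝ) 1) (hy : y ∈ Icc (0 : ℝ) 1) :
    |x - x * y| ≤ 1 - y := by
  have h1 : x - x * y = x * (1 - y) := by ring
  have h2 : 0 ≤ 1 - y := by linarith [hy.2]
  rw [h1, abs_of_nonneg (mul_nonneg hx.1 h2)]
  exact mul_le_of_le_one_left h2 hx.2

/-- a cutoff function -/
structure Cut (P : Par m) (q : ℝ) (χ : ℝ × (Fin m → ℝ) → ℝ) (X a₁ a₂ : ℝ) : Prop where
  smooth : ContDiff ℝ 1 χ
  mem : ∀ p, χ p ∈ Icc (0 : ℝ) 1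
  out : ∀ p, X ≤ |p.1| → χ p = 0
  mass : ∫ p, (1 - χ p) ∂(mu m) ≤ a₁
  gint : Integrable (P.grad q χ) (mu m)
  grad : ∫ p, P.grad q χ p ∂(mu m) ≤ a₂

variable {f χ : ℝ × (Fin m → ℝ) → ℝ} {X a₁ a₂ : ℝ}

theorem Cut.cint (k : Cut P q χ X a₁ a₂) : Integrable (fun p => 1 - χ p) (mu m) := by
  refine Integrable.of_bound (continuous_const.sub k.smooth.continuous).aestronglyMeasurable 1
    (ae_of_all _ fun p => ?_)
  rw [Real.norm_eq_abs, abs_of_nonneg (by linarith [(k.mem p).2])]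
  linarith [(k.mem p).1]

theorem Cut.grad_le (k : Cut P q χ X a₁ a₂) (hf : ContDiff ℝ 1 f) (h01 : ∀ p, f p ∈ Icc (0 : ℝ) 1) :
    ∫ p, P.grad q (fun p => f p * χ p) p ∂(mu m) ≤
      ∫ p in {p | |p.1| < X}, P.grad q f p ∂(mu m) + a₂ := by
  have hI := integrableOn_slab (m := m) (P.grad_cont q hf) X
  have hI2 : Integrable ({p : ℝ × (Fin m → ℝ) | |p.1| < X}.indicator (P.grad q f)) (mu m) :=
    hI.integrable_indicator (slab_meas X)
  rw [← integral_indicator (slab_meas X)]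
  refine le_trans ?_ (add_le_add_right k.grad _)
  rw [← integral_add hI2 k.gint]
  refine integral_mono_of_nonneg (ae_of_all _ fun p => P.grad_nonneg q _ p) (hI2.add k.gint)
    (ae_of_all _ fun p => ?_)
  simp only
  by_cases hp : |p.1| < X
  · rw [indicator_of_mem (by exact hp)]
    refine (grad_mul_le hf k.smooth p).trans ?_
    rw [abs_of_nonneg (k.mem p).1, abs_of_nonneg (h01 p).1]
    exact add_le_add (mul_le_of_le_one_left (P.grad_nonneg q f p) (k.mem p).2)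
      (mul_le_of_le_one_left (P.grad_nonneg q χ p) (h01 p).2)
  · rw [indicator_of_notMem (by exact hp), zero_add,
      grad_zero P q (fun p => mul_nonneg (h01 p).1 (k.mem p).1)
        (by rw [k.out p (not_lt.1 hp), mul_zero])]
    exact P.grad_nonneg q χ p

theorem Cut.ff_le (k : Cut P q χ X a₁ a₂) (hf : ContDiff ℝ 1 f) (h01 : ∀ p, f p ∈ Icc (0 : ℝ) 1) :
    ∫ p, (f p * χ p) * (1 - f p * χ p) ∂(mu m) ≤
      ∫ p in {p | |p.1| < X}, f p * (1 - f p) ∂(mu m) + a₁ := by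
  have hc := hf.continuous
  have hI := integrableOn_slab (m := m) (H := fun p => f p * (1 - f p)) (by fun_prop) X
  have hI2 : Integrable ({p : ℝ × (Fin m → ℝ) | |p.1| < X}.indicator fun p => f p * (1 - f p)) (mu m) :=
    hI.integrable_indicator (slab_meas X)
  rw [← integral_indicator (slab_meas X)]
  refine le_trans ?_ (add_le_add_right k.mass _)
  rw [← integral_add hI2 k.cint]
  have hfc : ∀ p, f p * χ p ∈ Icc (0 : ℝ) 1 := fun p =>
    ⟨mul_nonneg (h01 p).1 (k.mem p).1, mul_le_one₀ (h01 p).2 (k.mem p).1 (k.mem p).2⟩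
  refine integral_mono_of_nonneg (ae_of_all _ fun p => ?_) (hI2.add k.cint)
    (ae_of_all _ fun p => ?_)
  · exact mul_nonneg (hfc p).1 (by linarith [(hfc p).2])
  simp only
  by_cases hp : |p.1| < X
  · rw [indicator_of_mem (by exact hp)]
    have h1 := h01 p
    have h2 := k.mem p
    have h3 : f p * χ p * (1 - f p * χ p) =
      χ p * (f p * (1 - f p)) + f p ^ 2 * χ p * (1 - χ p) := by ring
    rw [h3]
    have h4 : 0 ≤ f p * (1 - f p) := mul_nonneg h1.1 (by linarith [h1.2])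
    have h5 : f p ^ 2 * χ p ≤ 1 := mul_le_one₀ (pow_le_one₀ h1.1 h1.2) h2.1 h2.2
    have h6 : 0 ≤ 1 - χ p := by linarith [h2.2]
    have h7 := mul_le_mul_of_nonneg_right h2.2 h4
    have h8 := mul_le_mul_of_nonneg_right h5 h6
    linarith
  · rw [indicator_of_notMem (by exact hp), k.out p (not_lt.1 hp)]
    norm_num

theorem Cut.mass_le (k : Cut P q χ X a₁ a₂) (hf : ContDiff ℝ 1 f) (h01 : ∀ p, f p ∈ Icc (0 : ℝ) 1) :
    |∫ p, f p * χ p ∂(mu m) - ∫ p in {p | |p.1| < X}, f p ∂(mu m)| ≤ a₁ := by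
  have hc := hf.continuous
  have hc2 := k.smooth.continuous
  have hI := integrableOn_slab (m := m) hc X
  have hI2 : Integrable ({p : ℝ × (Fin m → ℝ) | |p.1| < X}.indicator f) (mu m) :=
    hI.integrable_indicator (slab_meas X)
  have hfc : ∀ p, f p * χ p ∈ Icc (0 : ℝ) 1 := fun p =>
    ⟨mul_nonneg (h01 p).1 (k.mem p).1, mul_le_one₀ (h01 p).2 (k.mem p).1 (k.mem p).2⟩
  have hI3 : Integrable (fun p => f p * χ p) (mu m) := by
    refine Integrable.of_bound (hc.mul hc2).aestronglyMeasurable 1 (ae_of_all _ fun p => ?_)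
    rw [Real.norm_eq_abs, abs_of_nonneg (hfc p).1]
    exact (hfc p).2
  rw [← integral_indicator (slab_meas X), ← integral_sub hI3 hI2]
  refine (abs_integral_le_integral_abs).trans ?_
  refine le_trans ?_ k.mass
  refine integral_mono_of_nonneg (ae_of_all _ fun p => abs_nonneg _) k.cint
    (ae_of_all _ fun p => ?_)
  simp only
  by_cases hp : |p.1| < X
  · rw [indicator_of_mem (by exact hp)]
    rw [abs_sub_comm]
    exact one_sub_bound (h01 p) (k.mem p)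
  · rw [indicator_of_notMem (by exact hp), k.out p (not_lt.1 hp)]
    norm_num

theorem Cut.fin_le (k : Cut P q χ X a₁ a₂) (hf : ContDiff ℝ 1 f) (h01 : ∀ p, f p ∈ Icc (0 : ℝ) 1)
    (H : Set ℝ) (hH : MeasurableSet H) :
    ∫ p in {p | |p.1| < X}, |f p - H.indicator (fun _ => (1 : ℝ)) (P.F q p)| ∂(mu m) ≤
      ∫ p, |f p * χ p - H.indicator (fun _ => (1 : ℝ)) (P.F q p)| ∂(mu m) + a₁ := by
  have hc := hf.continuous
  have hc2 := k.smooth.continuous
  have hfc : ∀ p, f p * χ p ∈ Icc (0 : ℝ) 1 := fun p =>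
    ⟨mul_nonneg (h01 p).1 (k.mem p).1, mul_le_one₀ (h01 p).2 (k.mem p).1 (k.mem p).2⟩
  have hind : Measurable (H.indicator fun _ => (1 : ℝ)) := measurable_const.indicator hH
  have hi01 : ∀ s, H.indicator (fun _ => (1 : ℝ)) s = 0 ∨ H.indicator (fun _ => (1 : ℝ)) s = 1 := by
    intro s
    by_cases hs : s ∈ H
    · right; simp [hs]
    · left; simp [hs]
  have hB1 : ∀ g ∈ Icc (0 : ℝ) 1, ∀ s, |g - H.indicator (fun _ => (1 : ℝ)) s| ≤ 1 := by
    intro g h1 s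
    rcases hi01 s with h | h
    · rw [h, sub_zero, abs_of_nonneg h1.1]; exact h1.2
    · rw [h, abs_sub_comm, abs_of_nonneg (by linarith [h1.2])]; linarith [h1.1]
  have hI1 : Integrable (fun p => |f p - H.indicator (fun _ => (1 : ℝ)) (P.F q p)|) (mu m) := by
    refine Integrable.of_bound ((hc.measurable.sub
      (hind.comp (P.F_cont q).measurable)).abs).aestronglyMeasurable 1 (ae_of_all _ fun p => ?_)
    rw [Real.norm_eq_abs, abs_abs]; exact hB1 _ (h01 p) _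
  have hI2 : Integrable (fun p => |f p * χ p - H.indicator (fun _ => (1 : ℝ)) (P.F q p)|) (mu m) := by
    refine Integrable.of_bound (((hc.mul hc2).measurable.sub
      (hind.comp (P.F_cont q).measurable)).abs).aestronglyMeasurable 1 (ae_of_all _ fun p => ?_)
    rw [Real.norm_eq_abs, abs_abs]; exact hB1 _ (hfc p) _
  refine le_trans ?_ (add_le_add_right k.mass _)
  rw [← integral_add hI2 k.cint]
  refine (setIntegral_le_integral hI1 (ae_of_all _ fun p => abs_nonneg _)).trans ?_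
  refine integral_mono hI1 (hI2.add k.cint) fun p => ?_
  simp only
  have h1 := h01 p
  have h2 := k.mem p
  have h3 : |f p - H.indicator (fun _ => (1 : ℝ)) (P.F q p)| ≤
      |f p * χ p - H.indicator (fun _ => (1 : ℝ)) (P.F q p)| + |f p - f p * χ p| := by
    have := abs_add_le (f p * χ p - H.indicator (fun _ => (1 : ℝ)) (P.F q p)) (f p - f p * χ p)
    refine le_trans (le_of_eq ?_) this
    congr 1; ring
  have h4 : |f p - f p * χ p| ≤ 1 - χ p := one_sub_bound h1 h2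
  linarith

theorem arith {Cη κ₀ T₁ K e ζs z w0 w1 dα R G Gs x y RV J : ℝ}
    (hK : K = 2 * Cη + 8 * κ₀ + 4 * T₁ + 1) (hCη : 0 < Cη) (hκ₀ : 1 ≤ κ₀) (hT₁ : 0 < T₁)
    (hζs : 0 < ζs) (hz : z = ζs / 4) (hRV1 : 1 ≤ RV) (hRV2 : RV ≤ 2) (he : 0 ≤ e)
    (hper : RV * Gs ≤ w0 + z) (hG : G ≤ Gs + (Cη * e + z)) (hsm : x ≤ y)
    (hJ : J ≤ z + (2 * e + z)) (hw : w0 ≤ w1 + 2 * T₁ * dα) (hα : dα ≤ 9 / 2 * R + 2 * e + 2 * z)
    (hsmall : y + 96 * R + 9 * T₁ * R ≤ ζs) :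
    RV * G + x + 96 * R + 4 * κ₀ * J ≤ w1 + K * (e + ζs) := by
  have hz0 : 0 < z := by rw [hz]; positivity
  have e2 : RV * G ≤ RV * (Gs + (Cη * e + z)) := mul_le_mul_of_nonneg_left hG (by linarith)
  have e3 : RV * (Cη * e + z) ≤ 2 * (Cη * e + z) := mul_le_mul_of_nonneg_right hRV2 (by positivity)
  have e5 : 4 * κ₀ * J ≤ 4 * κ₀ * (z + (2 * e + z)) := mul_le_mul_of_nonneg_left hJ (by linarith)
  have e6 : 2 * T₁ * dα ≤ 2 * T₁ * (9 / 2 * R + 2 * e + 2 * z) :=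
    mul_le_mul_of_nonneg_left hα (by positivity)
  have e8 : ζs * (3 + 8 * κ₀ + 4 * T₁) / 4 ≤ (2 * Cη + 8 * κ₀ + 4 * T₁) * ζs := by
    have h1 : 0 ≤ ζs * (κ₀ - 1) := mul_nonneg hζs.le (by linarith)
    have h2 : 0 ≤ ζs * T₁ := by positivity
    have h3 : 0 ≤ ζs * Cη := by positivity
    linarith
  subst hK
  subst hz
  linarith

end D5

open D5 in
/-- D5 : stability of the model isoperimetric inequality -/
theorem stability (α₀ : ℝ) (h₀ : 0 < α₀) :
    ∃ t₀ C₁ : ℝ, 0 < t₀ ∧ 0 < C₁ ∧ ∀ D : ℝ, 1 ≤ D → ∃ q₀ ∈ Ioc (0 : ℝ) (1 / 2), ∀ q ∈ Ioo 0 q₀,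
      ∀ ζ > 0, ∃ ζ' > 0, ∃ M₀ : ℕ, ∀ M (hM : 0 < M), M₀ ≤ M →
      ∀ f : ℝ × (Fin (2 * M ^ 8) → ℝ) → ℝ, ContDiff ℝ 1 f → (∀ p, f p ∈ Icc (0 : ℝ) 1) →
      ∀ c₀, (∫ t in Ioi c₀, (parM M hM).rho q t) ∈ Icc (2 * α₀) (1 - 2 * α₀) →
      |(∫ p in {p | |p.1| < (M : ℝ)}, f p ∂(mu (2 * M ^ 8))) -
          ∫ t in Ioi c₀, (parM M hM).rho q t| ≤ ζ' →
      ∫ p in {p | |p.1| < (M : ℝ)}, f p * (1 - f p) ∂(mu (2 * M ^ 8)) ≤ ζ' →
      RV q * ∫ p in {p | |p.1| < (M : ℝ)}, (parM M hM).grad q f p ∂(mu (2 * M ^ 8)) ≤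
          (parM M hM).w q c₀ + ζ' →
      ∃ t, |t| ≤ t₀ ∧ ∃ H : Set ℝ, (H = Ioi t ∨ H = Iio t) ∧
        ∫ p in {p | |p.1| < (M : ℝ)},
          |f p - H.indicator (fun _ => (1 : ℝ)) ((parM M hM).F q p)| ∂(mu (2 * M ^ 8)) ≤
            C₁ * Real.sqrt (Real.exp (-(9 * D ^ 2 / q ^ 4)) + ζ) := by
  obtain ⟨Cη, hCη, hcut⟩ := exists_cutoff
  obtain ⟨t₀, T, κ₀, C₁, η₀, ht₀, htT, hκ₀, hC₁, hη₀, hone⟩ := oneD α₀ h₀
  obtain ⟨T₁, hT₁, htail⟩ := Rt_tail (α₀ / 2) (by positivity)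
  set K := 2 * Cη + 8 * κ₀ + 4 * T₁ + 1 with hK
  have hK9 : 9 ≤ K := by rw [hK]; linarith
  have hK0 : 0 < K := by linarith
  refine ⟨t₀, C₁ * Real.sqrt K + 2, ht₀, by positivity, fun D hD => ?_⟩
  set E := Real.exp ((T + 2 * D) ^ 2) with hE
  have hEpos : 0 < E := Real.exp_pos _
  have hs3 : 0 < Real.sqrt 3 := Real.sqrt_pos.2 (by norm_num)
  set B₁ := κ₀ * (8 / Real.sqrt 3 * E) with hB₁
  have hB₁0 : 0 < B₁ := by rw [hB₁]; positivity
  set q₀ := min (1 / 2) (min (η₀ / (2 * K)) (min (α₀ / 8) (1 / B₁))) with hq₀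
  have hq₀pos : 0 < q₀ := by
    rw [hq₀]
    refine lt_min (by norm_num) (lt_min (by positivity) (lt_min (by positivity) (by positivity)))
  have hq₀1 : q₀ ≤ 1 / 2 := min_le_left _ _
  have hq₀2 : q₀ ≤ η₀ / (2 * K) := (min_le_right _ _).trans (min_le_left _ _)
  have hq₀3 : q₀ ≤ α₀ / 8 := (min_le_right _ _).trans ((min_le_right _ _).trans (min_le_left _ _))
  have hq₀4 : q₀ ≤ 1 / B₁ := (min_le_right _ _).trans ((min_le_right _ _).trans (min_le_right _ _))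
  refine ⟨q₀, ⟨hq₀pos, hq₀1⟩, fun q hq ζ hζ => ?_⟩
  have hqI : q ∈ Ioc (0 : ℝ) (1 / 2) := ⟨hq.1, by linarith [hq.2]⟩
  set e := Real.exp (-(9 * D ^ 2 / q ^ 4)) with he
  have he0 : 0 < e := Real.exp_pos _
  have heq : e ≤ q := by
    have hy : 0 < 9 * D ^ 2 / q ^ 4 := by have := hq.1; positivity
    have h1 : e ≤ 1 / (9 * D ^ 2 / q ^ 4) := by
      rw [he, Real.exp_neg, ← one_div]
      refine one_div_le_one_div_of_le hy ?_
      linarith [Real.add_one_le_exp (9 * D ^ 2 / q ^ 4)]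
    refine h1.trans ?_
    rw [one_div_div, div_le_iff₀ (by positivity)]
    have h2 : q ^ 4 ≤ q := by
      have : q ^ 4 ≤ q ^ 1 := pow_le_pow_of_le_one hq.1.le (by linarith [hqI.2]) (by norm_num)
      simpa using this
    have h3 : 1 ≤ 9 * D ^ 2 := by nlinarith
    nlinarith [mul_le_mul_of_nonneg_left h3 hq.1.le]
  have he1 : K * e ≤ η₀ / 2 := by
    have : e ≤ η₀ / (2 * K) := by linarith [hq.2]
    calc K * e ≤ K * (η₀ / (2 * K)) := by gcongr
      _ = η₀ / 2 := by field_simp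
  have he2 : e ≤ α₀ / 8 := by linarith [hq.2]
  have he3 : e ≤ 1 / 2 := by linarith [hqI.2]
  have hδ : κ₀ * (8 / Real.sqrt 3 * Real.exp ((T + 2 * D) ^ 2)) * delta q ≤ 1 := by
    have h1 := (delta_bounds q hqI).2.1
    have h2 : delta q ≤ 1 / B₁ := by linarith [hq.2]
    calc B₁ * delta q ≤ B₁ * (1 / B₁) := by gcongr
      _ = 1 := by field_simp
  set ζs := min ζ (min (η₀ / (2 * K)) (min (1 / 8) (α₀ / 16))) with hζs
  have hζs0 : 0 < ζs := by
    rw [hζs]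
    refine lt_min hζ (lt_min (by positivity) (lt_min (by norm_num) (by positivity)))
  have hζ1 : ζs ≤ ζ := min_le_left _ _
  have hζ2 : ζs ≤ η₀ / (2 * K) := (min_le_right _ _).trans (min_le_left _ _)
  have hζ3 : ζs ≤ 1 / 8 := (min_le_right _ _).trans ((min_le_right _ _).trans (min_le_left _ _))
  have hζ4 : ζs ≤ α₀ / 16 := (min_le_right _ _).trans ((min_le_right _ _).trans (min_le_right _ _))
  have hζ5 : K * ζs ≤ η₀ / 2 := by
    calc K * ζs ≤ K * (η₀ / (2 * K)) := by gcongr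
      _ = η₀ / 2 := by field_simp
  set z := ζs / 4 with hz
  have hz0 : 0 < z := by positivity
  obtain ⟨M₁, hM₁⟩ := hcut q hqI D hD z hz0
  set CT := κ₀ * (16 / Real.sqrt 3 * E) with hCT
  have hCT0 : 0 < CT := by rw [hCT]; positivity
  set B := (1 + CT) * (4 + Cη) + 96 + 9 * T₁ with hB
  have hB0 : 0 < B := by rw [hB]; positivity
  obtain ⟨M₂, hM₂⟩ := exists_nat_ge (B / ζs)
  refine ⟨z, hz0, max M₁ M₂, fun M hM hMM f hf h01 c₀ hα hmass hff hper => ?_⟩
  obtain ⟨χ, hχs, hχ01, hχsupp, hχm, hχi, hχg⟩ := hM₁ M hM (le_of_max_le_left hMM)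
  set P := parM M hM with hP
  have hM1 : (1 : ℝ) ≤ M := by exact_mod_cast hM
  have hMpos : (0 : ℝ) < M := by linarith
  have hMB : B / M ≤ ζs := by
    have h1 : B / ζs ≤ M := hM₂.trans (by exact_mod_cast le_of_max_le_right hMM)
    rw [div_le_iff₀ hζs0] at h1
    rw [div_le_iff₀ hMpos]
    linarith
  have hr : P.r = (M : ℝ) ^ 4 := rfl
  set ι := 1 / (M : ℝ) ^ 2 with hι
  have hι0 : 0 < ι := by positivity
  have hιM : ι ≤ 1 / M := by
    rw [hι]
    refine one_div_le_one_div_of_le hMpos ?_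
    nlinarith
  have hrM : 1 / P.r ≤ 1 / M := by
    rw [hr]
    refine one_div_le_one_div_of_le hMpos ?_
    have : (M : ℝ) ^ 1 ≤ (M : ℝ) ^ 4 := pow_le_pow_right₀ hM1 (by norm_num)
    simpa using this
  have hsmall : ι * (1 + CT) * (4 + Cη) + 96 * (1 / P.r) + 9 * T₁ * (1 / P.r) ≤ ζs := by
    refine le_trans ?_ hMB
    have h1 : ι * ((1 + CT) * (4 + Cη)) ≤ 1 / M * ((1 + CT) * (4 + Cη)) :=
      mul_le_mul_of_nonneg_right hιM (by positivity)
    have h2 : 9 * T₁ * (1 / P.r) ≤ 9 * T₁ * (1 / M) :=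
      mul_le_mul_of_nonneg_left hrM (by positivity)
    have h3 : B / M = 1 / M * ((1 + CT) * (4 + Cη)) + 96 * (1 / M) + 9 * T₁ * (1 / M) := by
      rw [hB]; ring
    rw [h3]
    linarith
  have hr0 : 0 < 1 / P.r := by have := P.r_pos; positivity
  -- the cutoff and the data
  have hcutP : Cut P q χ M (2 * e + z) (Cη * e + z) :=
    { smooth := hχs
      mem := hχ01
      out := by
        intro p hp
        by_contra h
        exact absurd (hχsupp p h).1 (not_lt.2 hp)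
      mass := hχm
      gint := hχi
      grad := hχg }
  have d : Dat P q (fun p => f p * χ p) M D ι :=
    { hq := hqI
      hD := by linarith
      hι := hι0.le
      smooth := hf.mul hχs
      mem := fun p => ⟨mul_nonneg (h01 p).1 (hχ01 p).1,
        mul_le_one₀ (h01 p).2 (hχ01 p).1 (hχ01 p).2⟩
      supp := by
        intro p hp
        exact hχsupp p (right_ne_zero_of_mul hp) }
  have hG := hcutP.grad_le hf h01
  have hJ := hcutP.ff_le hf h01
  have hA := hcutP.mass_le hf h01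
  have hs := struct_model P q hqI
  set f₁ : ℝ × (Fin (2 * M ^ 8) → ℝ) → ℝ := fun p => f p * χ p with hf₁
  set α' := ∫ t, hh P q f₁ t * P.rho q t with hα'
  have hmass1 := d.mass
  change |α' - ∫ p, f p * χ p ∂(mu (2 * M ^ 8))| ≤ 9 / 2 / P.r at hmass1
  set α := ∫ t in Ioi c₀, P.rho q t with hαdef
  have hαα' : |α' - α| ≤ 9 / 2 * (1 / P.r) + 2 * e + 2 * z := by
    have h1 : α' - α = (α' - ∫ p, f p * χ p ∂(mu (2 * M ^ 8))) +
        (∫ p, f p * χ p ∂(mu (2 * M ^ 8)) - ∫ p in {p | |p.1| < (M : ℝ)}, f p ∂(mu (2 * M ^ 8))) +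
        ((∫ p in {p | |p.1| < (M : ℝ)}, f p ∂(mu (2 * M ^ 8))) - α) := by ring
    rw [h1]
    refine (abs_add_three _ _ _).trans ?_
    have h2 : 9 / 2 / P.r = 9 / 2 * (1 / P.r) := by ring
    linarith
  have hrsmall : 96 * (1 / P.r) ≤ ζs := by
    have h1 : 0 ≤ ι * (1 + CT) * (4 + Cη) := by positivity
    have h2 : 0 ≤ 9 * T₁ * (1 / P.r) := by positivity
    linarith
  have hα'mem : α' ∈ Icc α₀ (1 - α₀) := by
    have h1 := abs_le.1 hαα'
    have h2 := hα.1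
    have h3 := hα.2
    constructor
    · linarith [h1.1]
    · linarith [h1.2]
  obtain ⟨c₁, hc₁⟩ := Rt_surj hs (α := α') ⟨by linarith [hα'mem.1], by linarith [hα'mem.2]⟩
  have hc₁T : |c₁| ≤ T₁ := by
    rw [abs_le]
    constructor
    · by_contra hcon
      have h1 := htail _ _ hs (-c₁) (by linarith)
      rw [Rt_neg hs, hc₁] at h1
      linarith [hα'mem.2]
    · by_contra hcon
      have h1 := htail _ _ hs c₁ (by linarith)
      rw [hc₁] at h1
      linarith [hα'mem.1]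
  have hRt0 : Rt (P.rho q) c₀ = α := rfl
  have hwc : P.w q c₀ ≤ P.w q c₁ + 2 * T₁ * |α' - α| := by
    have h1 := OneD1.tangent hs c₁ c₀
    rw [hc₁, hRt0] at h1
    have h2 : 2 * c₁ * (α - α') ≤ 2 * T₁ * |α' - α| := by
      calc 2 * c₁ * (α - α') ≤ |2 * c₁ * (α - α')| := le_abs_self _
        _ = 2 * |c₁| * |α' - α| := by rw [abs_mul, abs_mul, abs_two, abs_sub_comm]
        _ ≤ 2 * T₁ * |α' - α| := by gcongr
    linarith [sq_nonneg (α - α')]
  -- the one-dimensional theorem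
  set η := K * (e + ζs) with hη
  have hη0 : 0 < η := by positivity
  have hηle : η ≤ η₀ := by rw [hη, mul_add]; linarith
  have hRV := RV_mem q hqI
  set Gs := ∫ p in {p | |p.1| < (M : ℝ)}, P.grad q f p ∂(mu (2 * M ^ 8)) with hGs
  have hGs0 : 0 ≤ Gs := integral_nonneg fun p => P.grad_nonneg q f p
  set G := ∫ p, P.grad q f₁ p ∂(mu (2 * M ^ 8)) with hGdef
  have hG0 : 0 ≤ G := integral_nonneg fun p => P.grad_nonneg q f₁ p
  have hw2 := IsoHull.w_le_two P q hqI c₀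
  have hGle : G ≤ 4 + Cη := by
    have h1 : Gs ≤ RV q * Gs := le_mul_of_one_le_left hGs0 hRV.1
    have h2 : Cη * e ≤ Cη * 1 := by gcongr; linarith
    linarith
  obtain ⟨t, ht, H, hH, hHle⟩ := hone (P.rho q) (P.w q) hs (hh P q f₁) d.hh_contDiff d.hh_compact
    d.hh_mem hα'mem c₁ hc₁ η hη0 hηle (by
      intro c ω hc hω hcw hω0 hωT
      refine (d.main_ineq hc hω hcw hω0 T κ₀ hωT (by linarith) hδ).trans ?_
      have e1 : (RV q + ι + κ₀ * (16 / Real.sqrt 3 * Real.exp ((T + 2 * D) ^ 2)) * ι) * G =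
        RV q * G + ι * (1 + CT) * G := by rw [hCT]; ring
      have e7 : 96 / P.r = 96 * (1 / P.r) := by ring
      rw [e1, e7]
      exact arith hK hCη hκ₀ hT₁ hζs0 hz hRV.1 hRV.2 he0.le hper hG
        (mul_le_mul_of_nonneg_left hGle (by positivity)) (hJ.trans (by linarith)) hwc hαα' hsmall)
  refine ⟨t, ht, H, hH, ?_⟩
  have hHm : MeasurableSet H := by
    rcases hH with h | h
    · rw [h]; exact measurableSet_Ioi
    · rw [h]; exact measurableSet_Iio
  have h1 := hcutP.fin_le hf h01 H hHm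
  have h2 := d.final hHm
  have h3 : Real.sqrt η ≤ Real.sqrt K * Real.sqrt (e + ζ) := by
    rw [← Real.sqrt_mul hK0.le]
    apply Real.sqrt_le_sqrt
    rw [hη]; gcongr
  have h4 : 2 * e + z ≤ 2 * Real.sqrt (e + ζ) := by
    have h5 : e + ζs ≤ Real.sqrt (e + ζs) := by
      rw [Real.le_sqrt' (by positivity)]
      nlinarith
    have h6 : Real.sqrt (e + ζs) ≤ Real.sqrt (e + ζ) := Real.sqrt_le_sqrt (by linarith)
    rw [hz]
    linarith
  have h7 : C₁ * Real.sqrt η ≤ C₁ * (Real.sqrt K * Real.sqrt (e + ζ)) :=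
    mul_le_mul_of_nonneg_left h3 hC₁.le
  calc ∫ p in {p | |p.1| < (M : ℝ)}, |f p - H.indicator (fun _ => (1 : ℝ)) (P.F q p)|
        ∂(mu (2 * M ^ 8)) ≤ C₁ * Real.sqrt η + (2 * e + z) := by linarith
    _ ≤ (C₁ * Real.sqrt K + 2) * Real.sqrt (e + ζ) := by
        have : (C₁ * Real.sqrt K + 2) * Real.sqrt (e + ζ) =
          C₁ * (Real.sqrt K * Real.sqrt (e + ζ)) + 2 * Real.sqrt (e + ζ) := by ring
        linarith

end IsoHull
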