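import Pool.Agent.IsoHull27.D1c
import Pool.Agent.IsoHull27.D2c
import Pool.Agent.IsoHull27.D3a
import Pool.Agent.IsoHull27.OneD1

/-!
# IsoHull27: preparations for the stability theorem (MP_b478d8_an)
-/

open MeasureTheory Set Filter Topology
open scoped ENNReal NNReal

namespace IsoHull

namespace D5

variable {m : ℕ} (P : Par m) (q : ℝ)

/-! ### Slices -/

theorem slice_int {H : ℝ × (Fin m → ℝ) → ℝ} (hH : Continuous H) (t : ℝ) :
    Integrable (fun a => H (t - P.theta q a, a) * nu0 (t - P.theta q a)) (cubeM m) := by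
  have := P.theta_cont q
  have := nu0_cont
  exact integrable_cubeM (by fun_prop)

theorem slice_mono {A B : ℝ × (Fin m → ℝ) → ℝ} (hA : Continuous A) (hB : Continuous B) (t : ℝ)
    (h : ∀ a ∈ cube m, A (t - P.theta q a, a) ≤ B (t - P.theta q a, a)) :
    P.slice q A t ≤ P.slice q B t := by
  unfold Par.slice
  refine integral_mono_ae (slice_int P q hA t) (slice_int P q hB t) ?_
  filter_upwards [cubeM_ae_mem m] with a ha
  exact mul_le_mul_of_nonneg_right (h _ ha) (nu0_nonneg _)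

theorem slice_congr {A B : ℝ × (Fin m → ℝ) → ℝ} (t : ℝ)
    (h : ∀ a, A (t - P.theta q a, a) = B (t - P.theta q a, a)) :
    P.slice q A t = P.slice q B t := by
  unfold Par.slice
  refine integral_congr_ae (ae_of_all _ fun a => ?_)
  simp only [h a]

theorem slice_add {A B : ℝ × (Fin m → ℝ) → ℝ} (hA : Continuous A) (hB : Continuous B) (t : ℝ) :
    P.slice q (fun p => A p + B p) t = P.slice q A t + P.slice q B t := by
  unfold Par.slice
  rw [← integral_add (slice_int P q hA t) (slice_int P q hB t)]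
  refine integral_congr_ae (ae_of_all _ fun a => ?_)
  simp only
  ring

theorem slice_sub {A B : ℝ × (Fin m → ℝ) → ℝ} (hA : Continuous A) (hB : Continuous B) (t : ℝ) :
    P.slice q (fun p => A p - B p) t = P.slice q A t - P.slice q B t := by
  unfold Par.slice
  rw [← integral_sub (slice_int P q hA t) (slice_int P q hB t)]
  refine integral_congr_ae (ae_of_all _ fun a => ?_)
  simp only
  ring

theorem slice_smul (c : ℝ) (A : ℝ × (Fin m → ℝ) → ℝ) (t : ℝ) :
    P.slice q (fun p => c * A p) t = c * P.slice q A t := by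
  unfold Par.slice
  rw [← integral_const_mul]
  refine integral_congr_ae (ae_of_all _ fun a => ?_)
  simp only
  ring

theorem slice_abs_le (A : ℝ × (Fin m → ℝ) → ℝ) (t : ℝ) :
    |P.slice q A t| ≤ P.slice q (fun p => |A p|) t := by
  unfold Par.slice
  refine (abs_integral_le_integral_abs).trans (le_of_eq ?_)
  refine integral_congr_ae (ae_of_all _ fun a => ?_)
  simp only [abs_mul, abs_of_nonneg (nu0_nonneg _)]

theorem slice_nonneg (A : ℝ × (Fin m → ℝ) → ℝ) (hA : ∀ p, 0 ≤ A p) (t : ℝ) :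
    0 ≤ P.slice q A t := by
  unfold Par.slice
  exact integral_nonneg fun a => mul_nonneg (hA _) (nu0_nonneg _)

/-! ### Integrability on the model space -/

theorem integrable_mu {H : ℝ × (Fin m → ℝ) → ℝ} (hH : Continuous H) (X : ℝ)
    (hX : ∀ p, X < |p.1| → H p = 0) : Integrable H (mu m) := by
  have hK : IsCompact (Icc (-X) X ×ˢ cube m) := isCompact_Icc.prod (cube_isCompact m)
  obtain ⟨C, hC⟩ := hK.exists_bound_of_continuousOn hH.continuousOn
  refine Integrable.of_bound hH.aestronglyMeasurable (max C 0) ?_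
  filter_upwards [mu_ae_mem m] with p hp
  by_cases h : X < |p.1|
  · rw [hX p h]; simp
  · exact (hC p ⟨abs_le.1 (not_lt.1 h), hp⟩).trans (le_max_left _ _)

/-- functions of `a` only -/
theorem integrable_mu_snd {g : (Fin m → ℝ) → ℝ} (hg : Continuous g) :
    Integrable (fun p : ℝ × (Fin m → ℝ) => g p.2) (mu m) := by
  obtain ⟨C, hC⟩ := (cube_isCompact m).exists_bound_of_continuousOn hg.continuousOn
  refine Integrable.of_bound (hg.comp continuous_snd).aestronglyMeasurable C ?_
  filter_upwards [mu_ae_mem m] with p hp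
  exact hC p.2 hp

theorem integral_mu_snd {g : (Fin m → ℝ) → ℝ} (hg : Continuous g) :
    ∫ p, g p.2 ∂(mu m) = ∫ a, g a ∂(cubeM m) := by
  have h := integral_map (μ := mu m) (φ := Prod.snd) measurable_snd.aemeasurable (f := g)
    hg.aestronglyMeasurable
  rw [← h]
  congr 1
  unfold mu
  rw [Measure.map_snd_prod]
  simp

theorem integrable_mul_F {H : ℝ × (Fin m → ℝ) → ℝ} (hH : Integrable H (mu m)) {c : ℝ → ℝ}
    (hc : Measurable c) (hb : ∀ t, |c t| ≤ 1) :
    Integrable (fun p => c (P.F q p) * H p) (mu m) := by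
  refine Integrable.mono hH (((hc.comp (P.F_cont q).measurable).aestronglyMeasurable).mul
    hH.aestronglyMeasurable) (ae_of_all _ fun p => ?_)
  rw [norm_mul]
  simp only [Real.norm_eq_abs]
  nlinarith [hb (P.F q p), abs_nonneg (H p), abs_nonneg (c (P.F q p))]

/-- integral of a slice -/
theorem int_slice {H : ℝ × (Fin m → ℝ) → ℝ} (hHm : Measurable H) (hH : Integrable H (mu m)) :
    Integrable (P.slice q H) ∧ ∫ t, P.slice q H t = ∫ p, H p ∂(mu m) := by
  have h := integral_slice P q H (fun _ => 1) measurable_const hHm (by simpa using hH)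
  simpa using h

theorem int_slice_mul {H : ℝ × (Fin m → ℝ) → ℝ} (hHm : Measurable H) (hH : Integrable H (mu m))
    {c : ℝ → ℝ} (hc : Measurable c) (hb : ∀ t, |c t| ≤ 1) :
    Integrable (fun t => c t * P.slice q H t) ∧
      ∫ t, c t * P.slice q H t = ∫ p, c (P.F q p) * H p ∂(mu m) :=
  integral_slice P q H c hc hHm (integrable_mul_F P q hH hc hb)

/-! ### vanishing of the gradient where a nonnegative function vanishes -/

theorem fderiv_zero {f : ℝ × (Fin m → ℝ) → ℝ} (h0 : ∀ p, 0 ≤ f p) {p : ℝ × (Fin m → ℝ)}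
    (hp : f p = 0) : fderiv ℝ f p = 0 := by
  have : IsLocalMin f p := by
    refine Filter.Eventually.of_forall fun x => ?_
    rw [hp]; exact h0 x
  exact this.fderiv_eq_zero

theorem grad_zero {f : ℝ × (Fin m → ℝ) → ℝ} (h0 : ∀ p, 0 ≤ f p) {p : ℝ × (Fin m → ℝ)}
    (hp : f p = 0) : P.grad q f p = 0 := by
  have h := fderiv_zero h0 hp
  unfold Par.grad Par.D0 Par.Dj
  simp [h]

theorem Vd_zero {f : ℝ × (Fin m → ℝ) → ℝ} (h0 : ∀ p, 0 ≤ f p) {p : ℝ × (Fin m → ℝ)}
    (hp : f p = 0) : P.Vd q f p = 0 := by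
  have h := fderiv_zero h0 hp
  unfold Par.Vd
  simp [h]

theorem perp_zero {f : ℝ × (Fin m → ℝ) → ℝ} (h0 : ∀ p, 0 ≤ f p) {p : ℝ × (Fin m → ℝ)}
    (hp : f p = 0) : P.perp q f p = 0 := by
  unfold Par.perp
  simp [grad_zero P q h0 hp, Vd_zero P q h0 hp]

/-- The data: a cut off function -/
structure Dat (f : ℝ × (Fin m → ℝ) → ℝ) (X D ι : ℝ) : Prop where
  hq : q ∈ Ioc (0 : ℝ) (1 / 2)
  hD : 0 ≤ D
  hι : 0 ≤ ι
  smooth : ContDiff ℝ 1 f
  mem : ∀ p, f p ∈ Icc (0 : ℝ) 1
  supp : ∀ p, f p ≠ 0 → |p.1| < X ∧ |P.theta q p.2| ≤ 2 * D ∧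
    |P.Q q p.2 - (1 - Real.sin (2 * q) / (2 * q))| ≤ 2 * ι ∧ |P.S q p.2 - (1 - Ac q)| ≤ 2 * ι

/-- the one-dimensional profile -/
noncomputable def hh (f : ℝ × (Fin m → ℝ) → ℝ) (t : ℝ) : ℝ :=
  P.slice q (fun p => f p * P.Gam q p.2) t / P.w q t

variable {P q} {f : ℝ × (Fin m → ℝ) → ℝ} {X D ι : ℝ}

theorem Dat.wpos (d : Dat P q f X D ι) (t : ℝ) : 0 < P.w q t :=
  OneD1.w_pos (struct_model P q d.hq) t

theorem Dat.zero_out (d : Dat P q f X D ι) (p : ℝ × (Fin m → ℝ)) (hp : X < |p.1|) : f p = 0 := by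
  by_contra h
  exact absurd (d.supp p h).1 (not_lt.2 hp.le)

theorem Dat.nn (d : Dat P q f X D ι) (p : ℝ × (Fin m → ℝ)) : 0 ≤ f p := (d.mem p).1

theorem Dat.fcont (d : Dat P q f X D ι) : Continuous f := d.smooth.continuous

theorem Dat.fG_cont (d : Dat P q f X D ι) : Continuous fun p : ℝ × (Fin m → ℝ) => f p * P.Gam q p.2 :=
  d.fcont.mul ((P.Gam_cont q).comp continuous_snd)

theorem Dat.mul_w (d : Dat P q f X D ι) (t : ℝ) :
    hh P q f t * P.w q t = P.slice q (fun p => f p * P.Gam q p.2) t :=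
  div_mul_cancel₀ _ (d.wpos t).ne'

theorem Dat.hh_mem (d : Dat P q f X D ι) (t : ℝ) : hh P q f t ∈ Icc (0 : ℝ) 1 := by
  unfold hh
  have hG : Continuous fun p : ℝ × (Fin m → ℝ) => P.Gam q p.2 := (P.Gam_cont q).comp continuous_snd
  constructor
  · refine div_nonneg ?_ (d.wpos t).le
    have h := slice_mono P q (A := fun _ => 0) (B := fun p => f p * P.Gam q p.2) continuous_const
      d.fG_cont t (fun a ha => mul_nonneg (d.nn _) (by
        have := (Gam_bounds P q d.hq a ha).1
        simp only; linarith))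
    refine le_trans (le_of_eq ?_) h
    unfold Par.slice; simp
  · rw [div_le_one (d.wpos t)]
    unfold Par.w
    refine slice_mono P q d.fG_cont hG t (fun a ha => ?_)
    have h1 := (Gam_bounds P q d.hq a ha).1
    have h2 := (d.mem (t - P.theta q a, a)).2
    simp only
    nlinarith

theorem Dat.hh_out (d : Dat P q f X D ι) (t : ℝ) (ht : X + 2 * D < |t|) : hh P q f t = 0 := by
  unfold hh Par.slice
  have : ∀ a, f (t - P.theta q a, a) = 0 := by
    intro a
    by_contra h
    obtain ⟨h1, h2, -⟩ := d.supp _ h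
    simp only at h1 h2
    have h3 : |t| ≤ |t - P.theta q a| + |P.theta q a| := by
      have := abs_add_le (t - P.theta q a) (P.theta q a)
      simpa using this
    linarith
  simp [this]

theorem Dat.hh_compact (d : Dat P q f X D ι) : HasCompactSupport (hh P q f) := by
  refine HasCompactSupport.intro (K := Icc (-(X + 2 * D)) (X + 2 * D)) isCompact_Icc fun t ht => ?_
  refine d.hh_out t ?_
  by_contra h
  exact ht (abs_le.1 (not_lt.1 h))

theorem Dat.hasDeriv (d : Dat P q f X D ι) (t : ℝ) :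
    HasDerivAt (hh P q f)
      ((P.slice q (P.Vd q f) t - 2 * t * (P.slice q f t - hh P q f t * P.rho q t)) / P.w q t) t := by
  have h1 := slice_deriv P q d.hq f d.smooth t
  have h2 := (struct_model P q d.hq).hasDeriv t
  have hw := (d.wpos t).ne'
  have h3 := h1.div h2 hw
  refine h3.congr_deriv ?_
  have h4 := d.mul_w t
  unfold hh
  field_simp
  ring

theorem Dat.deriv_mul (d : Dat P q f X D ι) (t : ℝ) :
    deriv (hh P q f) t * P.w q t =
      P.slice q (P.Vd q f) t - 2 * t * (P.slice q f t - hh P q f t * P.rho q t) := by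
  rw [(d.hasDeriv t).deriv]
  exact div_mul_cancel₀ _ (d.wpos t).ne'

theorem Dat.hh_cont (d : Dat P q f X D ι) : Continuous (hh P q f) :=
  continuous_iff_continuousAt.2 fun t => (d.hasDeriv t).continuousAt

theorem rho_cont' : Continuous (P.rho q) := slice_continuous P q _ continuous_const

theorem w_cont' : Continuous (P.w q) :=
  slice_continuous P q _ ((P.Gam_cont q).comp continuous_snd)

theorem Dat.hh_contDiff (d : Dat P q f X D ι) : ContDiff ℝ 1 (hh P q f) := by
  rw [contDiff_one_iff_deriv]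
  refine ⟨fun t => (d.hasDeriv t).differentiableAt, ?_⟩
  have : deriv (hh P q f) = fun t =>
      (P.slice q (P.Vd q f) t - 2 * t * (P.slice q f t - hh P q f t * P.rho q t)) / P.w q t :=
    funext fun t => (d.hasDeriv t).deriv
  rw [this]
  have h1 := slice_continuous P q _ (P.Vd_cont q d.smooth)
  have h2 := slice_continuous P q _ d.fcont
  have h3 := d.hh_cont
  have h4 : Continuous (P.rho q) := rho_cont'
  have h5 : Continuous (P.w q) := w_cont'
  refine Continuous.div (by fun_prop) h5 fun t => (d.wpos t).ne'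

/-! ### error terms -/

/-- the mean of `Γ` -/
noncomputable def Gm (q : ℝ) : ℝ := Ac q * R2 q

theorem Gm_ge (hq : q ∈ Ioc (0 : ℝ) (1 / 2)) : 9 / 10 ≤ Gm q := by
  unfold Gm
  have h1 := Ac_bounds q hq
  have h2 := R2_bounds q hq
  nlinarith

/-- the slices of `|Γ - G|` -/
noncomputable def er (P : Par m) (q : ℝ) (t : ℝ) : ℝ := P.slice q (fun p => |P.Gam q p.2 - Gm q|) t

theorem G_cont' : Continuous fun p : ℝ × (Fin m → ℝ) => P.Gam q p.2 - Gm q :=
  ((P.Gam_cont q).comp continuous_snd).sub continuous_const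

theorem er_nonneg (t : ℝ) : 0 ≤ er P q t := slice_nonneg P q _ (fun _ => abs_nonneg _) t

theorem Dat.err (d : Dat P q f X D ι) (t : ℝ) :
    |P.slice q f t - hh P q f t * P.rho q t| ≤ 3 * er P q t := by
  have hG := Gm_ge d.hq
  have hGc : Continuous fun p : ℝ × (Fin m → ℝ) => P.Gam q p.2 - Gm q := G_cont'
  have hfGc : Continuous fun p : ℝ × (Fin m → ℝ) => f p * (P.Gam q p.2 - Gm q) := d.fcont.mul hGc
  have h1 : P.w q t = Gm q * P.rho q t + P.slice q (fun p => P.Gam q p.2 - Gm q) t := by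
    unfold Par.w Par.rho
    rw [← slice_smul, ← slice_add P q (by fun_prop) hGc]
    exact slice_congr P q t fun a => by ring
  have h2 : P.slice q (fun p => f p * P.Gam q p.2) t =
      Gm q * P.slice q f t + P.slice q (fun p => f p * (P.Gam q p.2 - Gm q)) t := by
    rw [← slice_smul, ← slice_add P q (d.fcont.const_mul _ ) hfGc]
    exact slice_congr P q t fun a => by ring
  have h3 := d.mul_w t
  have h4 := d.hh_mem t
  set h := hh P q f t with hh_def
  have h5 : Gm q * (P.slice q f t - h * P.rho q t) =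
      h * P.slice q (fun p => P.Gam q p.2 - Gm q) t -
        P.slice q (fun p => f p * (P.Gam q p.2 - Gm q)) t := by
    rw [h2, h1] at h3
    linarith
  have h6 : |P.slice q (fun p => P.Gam q p.2 - Gm q) t| ≤ er P q t := slice_abs_le P q _ t
  have h7 : |P.slice q (fun p => f p * (P.Gam q p.2 - Gm q)) t| ≤ er P q t := by
    refine (slice_abs_le P q _ t).trans ?_
    unfold er
    refine slice_mono P q hfGc.abs hGc.abs t fun a _ => ?_
    simp only [abs_mul]
    have h8 := d.mem (t - P.theta q a, a)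
    rw [abs_of_nonneg h8.1]
    exact mul_le_of_le_one_left (abs_nonneg _) h8.2
  have h8 : |Gm q * (P.slice q f t - h * P.rho q t)| ≤ 2 * er P q t := by
    rw [h5]
    refine (abs_sub _ _).trans ?_
    rw [abs_mul, abs_of_nonneg h4.1]
    have := mul_le_mul h4.2 h6 (abs_nonneg _) (by norm_num)
    linarith
  rw [abs_mul, abs_of_pos (by linarith : 0 < Gm q)] at h8
  have h9 := er_nonneg (P := P) (q := q) t
  have h10 := abs_nonneg (P.slice q f t - h * P.rho q t)
  nlinarith

theorem er_int (hq : q ∈ Ioc (0 : ℝ) (1 / 2)) :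
    Integrable (er P q) ∧ ∫ t, er P q t ≤ 3 / 2 / P.r := by
  have hGc : Continuous fun a : (Fin m → ℝ) => |P.Gam q a - Gm q| :=
    ((P.Gam_cont q).sub continuous_const).abs
  have h1 := int_slice P q (H := fun p => |P.Gam q p.2 - Gm q|) (hGc.comp continuous_snd).measurable
    (integrable_mu_snd hGc)
  refine ⟨h1.1, ?_⟩
  have h2 : ∫ t, er P q t = ∫ a, |P.Gam q a - Gm q| ∂(cubeM m) := by
    unfold er
    rw [h1.2]
    exact integral_mu_snd hGc
  rw [h2]
  have hr := P.r_pos
  have h3 : ∫ a, |P.Gam q a - Gm q| ∂(cubeM m) ≤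
      ∫ a, (1 / 2 * (1 / P.r) + P.r / 2 * (P.Gam q a - Gm q) ^ 2) ∂(cubeM m) := by
    refine integral_mono (integrable_cubeM hGc)
      (integrable_cubeM (by have := P.Gam_cont q; fun_prop)) fun a => ?_
    simp only
    rw [← sq_abs (P.Gam q a - Gm q)]
    set y := |P.Gam q a - Gm q|
    have h5 : 0 ≤ (1 - P.r * y) ^ 2 / (2 * P.r) := by positivity
    have h6 : (1 - P.r * y) ^ 2 / (2 * P.r) = 1 / 2 * (1 / P.r) + P.r / 2 * y ^ 2 - y := by
      field_simp
      ring
    linarith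
  refine h3.trans ?_
  rw [integral_add (integrable_const _) (integrable_cubeM (by have := P.Gam_cont q; fun_prop)),
    integral_const, integral_const_mul]
  have h4 : ∫ a, (P.Gam q a - Gm q) ^ 2 ∂(cubeM m) ≤ 2 / P.r ^ 2 := int_Gam_sq P q hq
  have h5 : P.r / 2 * ∫ a, (P.Gam q a - Gm q) ^ 2 ∂(cubeM m) ≤ P.r / 2 * (2 / P.r ^ 2) :=
    mul_le_mul_of_nonneg_left h4 (by positivity)
  have h6 : P.r / 2 * (2 / P.r ^ 2) = 1 / P.r := by field_simp
  have h7 : (3:ℝ) / 2 / P.r = 1 / 2 * (1 / P.r) + 1 / P.r := by field_simp; ring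
  simp only [probReal_univ, smul_eq_mul, one_mul]
  linarith

theorem sq_rho (hq : q ∈ Ioc (0 : ℝ) (1 / 2)) :
    Integrable (fun t => t ^ 2 * P.rho q t) ∧ ∫ t, t ^ 2 * P.rho q t ≤ 30 := by
  have hs := struct_model P q hq
  have hb : ∀ t, t ^ 2 * P.rho q t ≤ 8 * Real.exp (-(1 / 4) * t ^ 2) := by
    intro t
    have h1 : P.rho q t ≤ 2 * Real.exp (-t ^ 2 / 2) := (hs.le1 t).trans (struct_bounds hs t).2.1
    have h2 : t ^ 2 / 4 ≤ Real.exp (t ^ 2 / 4) := by
      have := Real.add_one_le_exp (t ^ 2 / 4)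
      linarith
    have h3 : Real.exp (-t ^ 2 / 2) * Real.exp (t ^ 2 / 4) = Real.exp (-(1 / 4) * t ^ 2) := by
      rw [← Real.exp_add]; congr 1; ring
    have h4 : t ^ 2 * P.rho q t ≤ t ^ 2 * (2 * Real.exp (-t ^ 2 / 2)) :=
      mul_le_mul_of_nonneg_left h1 (sq_nonneg _)
    have h5 : t ^ 2 * (2 * Real.exp (-t ^ 2 / 2)) ≤
        (4 * Real.exp (t ^ 2 / 4)) * (2 * Real.exp (-t ^ 2 / 2)) :=
      mul_le_mul_of_nonneg_right (by linarith) (by positivity)
    calc t ^ 2 * P.rho q t ≤ _ := h4.trans h5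
      _ = 8 * (Real.exp (-t ^ 2 / 2) * Real.exp (t ^ 2 / 4)) := by ring
      _ = _ := by rw [h3]
  have hi : Integrable fun t : ℝ => 8 * Real.exp (-(1 / 4) * t ^ 2) :=
    (integrable_exp_neg_mul_sq (b := 1 / 4) (by norm_num)).const_mul 8
  have hnn : ∀ t, 0 ≤ t ^ 2 * P.rho q t := fun t => mul_nonneg (sq_nonneg _) (hs.pos t).le
  have hI : Integrable (fun t => t ^ 2 * P.rho q t) := by
    refine hi.mono' ((continuous_pow 2).mul hs.cont).aestronglyMeasurable (ae_of_all _ fun t => ?_)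
    rw [Real.norm_eq_abs, abs_of_nonneg (hnn t)]
    exact hb t
  refine ⟨hI, ?_⟩
  calc ∫ t, t ^ 2 * P.rho q t ≤ ∫ t : ℝ, 8 * Real.exp (-(1 / 4) * t ^ 2) := integral_mono hI hi hb
    _ = 8 * Real.sqrt (Real.pi / (1 / 4)) := by rw [integral_const_mul, integral_gaussian]
    _ ≤ 8 * Real.sqrt ((15 / 4) ^ 2) := by
        gcongr
        nlinarith [Real.pi_lt_d2]
    _ = 30 := by rw [Real.sqrt_sq (by norm_num)]; norm_num

theorem t_er_int (hq : q ∈ Ioc (0 : ℝ) (1 / 2)) :
    Integrable (fun t => |t| * er P q t) ∧ ∫ t, |t| * er P q t ≤ 16 / P.r := by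
  have hr := P.r_pos
  have hGc : Continuous fun a : (Fin m → ℝ) => (P.Gam q a - Gm q) ^ 2 :=
    ((P.Gam_cont q).sub continuous_const).pow 2
  have hGc' : Continuous fun p : ℝ × (Fin m → ℝ) => (P.Gam q p.2 - Gm q) ^ 2 :=
    hGc.comp continuous_snd
  have h1 := int_slice P q (H := fun p => (P.Gam q p.2 - Gm q) ^ 2) hGc'.measurable
    (integrable_mu_snd hGc)
  have h2 : ∫ t, P.slice q (fun p => (P.Gam q p.2 - Gm q) ^ 2) t ≤ 2 / P.r ^ 2 := by
    rw [h1.2, integral_mu_snd hGc]
    exact int_Gam_sq P q hq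
  obtain ⟨h3, h4⟩ := sq_rho (P := P) hq
  have hb : ∀ t, |t| * er P q t ≤ 1 / (2 * P.r) * (t ^ 2 * P.rho q t) +
      P.r / 2 * P.slice q (fun p => (P.Gam q p.2 - Gm q) ^ 2) t := by
    intro t
    unfold er Par.rho
    rw [← slice_smul, ← slice_smul P q (t ^ 2), ← slice_smul, ← slice_smul,
      ← slice_add P q (by fun_prop) (by fun_prop)]
    refine slice_mono P q ((G_cont'.abs).const_mul _) (by fun_prop) t fun a _ => ?_
    simp only
    rw [← sq_abs (P.Gam q a - Gm q), ← sq_abs t]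
    set y := |P.Gam q a - Gm q|
    set s := |t|
    have h5 : 0 ≤ (s - P.r * y) ^ 2 / (2 * P.r) := by positivity
    have h6 : (s - P.r * y) ^ 2 / (2 * P.r) =
        1 / (2 * P.r) * (s ^ 2 * 1) + P.r / 2 * y ^ 2 - s * y := by
      field_simp
      ring
    linarith
  have hI2 : Integrable fun t => 1 / (2 * P.r) * (t ^ 2 * P.rho q t) +
      P.r / 2 * P.slice q (fun p => (P.Gam q p.2 - Gm q) ^ 2) t :=
    (h3.const_mul _).add (h1.1.const_mul _)
  have hec : Continuous (er P q) := slice_continuous P q _ (G_cont'.abs)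
  have hI : Integrable (fun t => |t| * er P q t) := by
    refine hI2.mono' (continuous_abs.mul hec).aestronglyMeasurable (ae_of_all _ fun t => ?_)
    rw [Real.norm_eq_abs, abs_of_nonneg (mul_nonneg (abs_nonneg _) (er_nonneg t))]
    exact hb t
  refine ⟨hI, ?_⟩
  refine (integral_mono hI hI2 hb).trans ?_
  rw [integral_add (h3.const_mul _) (h1.1.const_mul _), integral_const_mul, integral_const_mul]
  have h5 : 1 / (2 * P.r) * ∫ t, t ^ 2 * P.rho q t ≤ 1 / (2 * P.r) * 30 :=
    mul_le_mul_of_nonneg_left h4 (by positivity)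
  have h6 : P.r / 2 * ∫ t, P.slice q (fun p => (P.Gam q p.2 - Gm q) ^ 2) t ≤
      P.r / 2 * (2 / P.r ^ 2) := mul_le_mul_of_nonneg_left h2 (by positivity)
  have h7 : 1 / (2 * P.r) * 30 + P.r / 2 * (2 / P.r ^ 2) = 16 / P.r := by
    field_simp; ring
  linarith

end D5

end IsoHull
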