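import Pool.Agent.IsoHull27.D5a

/-!
# IsoHull27: the calibration inequality for cut off functions (MP_b478d8_an)
-/

open MeasureTheory Set Filter Topology
open scoped ENNReal NNReal

namespace IsoHull

namespace D5

variable {m : ℕ} {P : Par m} {q : ℝ} {f : ℝ × (Fin m → ℝ) → ℝ} {X D ι : ℝ}

theorem Dat.grad_int (d : Dat P q f X D ι) : Integrable (P.grad q f) (mu m) :=
  integrable_mu (P.grad_cont q d.smooth) X fun p hp => grad_zero P q d.nn (d.zero_out p hp)

theorem Dat.Vd_int (d : Dat P q f X D ι) : Integrable (P.Vd q f) (mu m) :=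
  integrable_mu (P.Vd_cont q d.smooth) X fun p hp => Vd_zero P q d.nn (d.zero_out p hp)

theorem Dat.perp_int (d : Dat P q f X D ι) : Integrable (P.perp q f) (mu m) :=
  integrable_mu (P.perp_cont q d.hq d.smooth) X fun p hp => perp_zero P q d.nn (d.zero_out p hp)

theorem Dat.f_int (d : Dat P q f X D ι) : Integrable f (mu m) :=
  integrable_mu d.fcont X d.zero_out

theorem Dat.ff_cont (d : Dat P q f X D ι) : Continuous fun p => f p * (1 - f p) :=
  d.fcont.mul (continuous_const.sub d.fcont)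

theorem Dat.ff_int (d : Dat P q f X D ι) : Integrable (fun p => f p * (1 - f p)) (mu m) :=
  integrable_mu d.ff_cont X fun p hp => by simp [d.zero_out p hp]

/-- the calibration identity, as an inequality -/
theorem Dat.calib (d : Dat P q f X D ι) {c : ℝ → ℝ} (hc : Measurable c) (hb : ∀ t, |c t| ≤ 1) :
    ∫ t, c t * deriv (hh P q f) t * P.w q t ≤
      ∫ p, c (P.F q p) * P.Vd q f p ∂(mu m) + 96 / P.r := by
  have h1 := int_slice_mul P q (P.Vd_cont q d.smooth).measurable d.Vd_int hc hb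
  obtain ⟨h2, h3⟩ := t_er_int (P := P) d.hq
  have heq : ∀ t, c t * deriv (hh P q f) t * P.w q t = c t * P.slice q (P.Vd q f) t -
      2 * (c t * t * (P.slice q f t - hh P q f t * P.rho q t)) := by
    intro t
    rw [mul_assoc, d.deriv_mul t]; ring
  have h6 : ∀ t, |c t * t * (P.slice q f t - hh P q f t * P.rho q t)| ≤ 3 * (|t| * er P q t) := by
    intro t
    have h5 := d.err t
    rw [abs_mul, abs_mul]
    calc |c t| * |t| * |P.slice q f t - hh P q f t * P.rho q t| ≤ 1 * |t| * (3 * er P q t) := by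
          gcongr
          exact hb t
      _ = 3 * (|t| * er P q t) := by ring
  have hcont : Continuous fun t => P.slice q f t - hh P q f t * P.rho q t := by
    have h1 := slice_continuous P q _ d.fcont
    have h3 := d.hh_cont
    have h4 : Continuous (P.rho q) := rho_cont'
    fun_prop
  have hmeas : Measurable fun t => c t * t * (P.slice q f t - hh P q f t * P.rho q t) := by
    have := hcont.measurable
    fun_prop
  have hI : Integrable fun t => c t * t * (P.slice q f t - hh P q f t * P.rho q t) := by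
    refine (h2.const_mul 3).mono' hmeas.aestronglyMeasurable (ae_of_all _ fun t => ?_)
    rw [Real.norm_eq_abs]; exact h6 t
  simp only [heq]
  rw [integral_sub h1.1 (hI.const_mul 2), h1.2, integral_const_mul]
  have h7 : |∫ t, c t * t * (P.slice q f t - hh P q f t * P.rho q t)| ≤ 3 * (16 / P.r) := by
    refine (abs_integral_le_integral_abs).trans ?_
    refine (integral_mono hI.abs (h2.const_mul 3) h6).trans ?_
    rw [integral_const_mul]
    linarith
  have h8 := neg_abs_le (∫ t, c t * t * (P.slice q f t - hh P q f t * P.rho q t))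
  have h9 : (96 : ℝ) / P.r = 2 * (3 * (16 / P.r)) := by ring
  linarith

/-- the transversal inequality, integrated -/
theorem Dat.trans (d : Dat P q f X D ι) {ω : ℝ → ℝ} (hω : Measurable ω) (h0 : ∀ t, 0 ≤ ω t)
    (h1 : ∀ t, ω t ≤ 1) (T κ₀ : ℝ) (hT : ∀ t, T < |t| → ω t = 0) (hκ : 0 ≤ κ₀)
    (hsmall : κ₀ * (8 / Real.sqrt 3 * Real.exp ((T + 2 * D) ^ 2)) * delta q ≤ 1) :
    κ₀ * ∫ t, ω t * min (hh P q f t) (1 - hh P q f t) * P.w q t ≤
      ∫ p, ω (P.F q p) * P.perp q f p ∂(mu m) +
        κ₀ * (16 / Real.sqrt 3 * Real.exp ((T + 2 * D) ^ 2)) * ι * ∫ p, P.grad q f p ∂(mu m) +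
        4 * κ₀ * ∫ p, f p * (1 - f p) ∂(mu m) := by
  have hωb : ∀ t, |ω t| ≤ 1 := fun t => by rw [abs_of_nonneg (h0 t)]; exact h1 t
  have hpc := P.perp_cont q d.hq d.smooth
  have hgc := P.grad_cont q d.smooth
  have i1 := int_slice_mul P q hpc.measurable d.perp_int hω hωb
  have i2 := int_slice P q hgc.measurable d.grad_int
  have i3 := int_slice P q d.ff_cont.measurable d.ff_int
  set E := Real.exp ((T + 2 * D) ^ 2) with hE
  have hEpos : 0 < E := Real.exp_pos _
  have hs3 : 0 < Real.sqrt 3 := Real.sqrt_pos.2 (by norm_num)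
  have hι := d.hι
  have hmin : ∀ t, 0 ≤ min (hh P q f t) (1 - hh P q f t) := fun t =>
    le_min (d.hh_mem t).1 (by linarith [(d.hh_mem t).2])
  have hpt : ∀ t, κ₀ * (ω t * min (hh P q f t) (1 - hh P q f t) * P.w q t) ≤
      ω t * P.slice q (P.perp q f) t +
        κ₀ * (16 / Real.sqrt 3 * E) * ι * P.slice q (P.grad q f) t +
        4 * κ₀ * P.slice q (fun p => f p * (1 - f p)) t := by
    intro t
    have n1 := slice_nonneg P q _ (P.perp_nonneg q f) t
    have n2 := slice_nonneg P q _ (P.grad_nonneg q f) t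
    have n3 := slice_nonneg P q (fun p => f p * (1 - f p))
      (fun p => mul_nonneg (d.mem p).1 (by linarith [(d.mem p).2])) t
    by_cases ht : T < |t|
    · rw [hT t ht]
      simp only [zero_mul, mul_zero, zero_add]
      positivity
    · have h := transverse P q d.hq f d.smooth d.mem T D ι d.hD d.hι
        (fun p hp => ⟨(d.supp p hp).2.1, (d.supp p hp).2.2.2⟩) t (not_lt.1 ht)
      rw [slice_add P q (hpc.const_mul _) (hgc.const_mul _), slice_smul, slice_smul] at h
      change P.w q t * min (hh P q f t) (1 - hh P q f t) ≤ _ at h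
      set a := P.slice q (P.perp q f) t
      set b := P.slice q (P.grad q f) t
      set e := P.slice q (fun p => f p * (1 - f p)) t
      have hk : 0 ≤ κ₀ * ω t := mul_nonneg hκ (h0 t)
      have h2 := mul_le_mul_of_nonneg_left h hk
      have e1 : κ₀ * ω t * (4 / Real.sqrt 3 * E * (2 * delta q * a + 4 * ι * b) + 4 * e) =
          (κ₀ * (8 / Real.sqrt 3 * E) * delta q) * (ω t * a) +
            (κ₀ * (16 / Real.sqrt 3 * E) * ι * b) * ω t + (4 * κ₀ * e) * ω t := by ring
      have e2 : (κ₀ * (8 / Real.sqrt 3 * E) * delta q) * (ω t * a) ≤ 1 * (ω t * a) :=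
        mul_le_mul_of_nonneg_right hsmall (mul_nonneg (h0 t) n1)
      have e3 : (κ₀ * (16 / Real.sqrt 3 * E) * ι * b) * ω t ≤
          (κ₀ * (16 / Real.sqrt 3 * E) * ι * b) * 1 :=
        mul_le_mul_of_nonneg_left (h1 t) (by positivity)
      have e4 : (4 * κ₀ * e) * ω t ≤ (4 * κ₀ * e) * 1 :=
        mul_le_mul_of_nonneg_left (h1 t) (by positivity)
      have e5 : κ₀ * (ω t * min (hh P q f t) (1 - hh P q f t) * P.w q t) =
        κ₀ * ω t * (P.w q t * min (hh P q f t) (1 - hh P q f t)) := by ring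
      rw [e5]
      linarith
  have iQ : Integrable fun t => ω t * P.slice q (P.perp q f) t +
        κ₀ * (16 / Real.sqrt 3 * E) * ι * P.slice q (P.grad q f) t :=
    i1.1.add (i2.1.const_mul _)
  have iR : Integrable fun t => ω t * P.slice q (P.perp q f) t +
        κ₀ * (16 / Real.sqrt 3 * E) * ι * P.slice q (P.grad q f) t +
        4 * κ₀ * P.slice q (fun p => f p * (1 - f p)) t :=
    iQ.add (i3.1.const_mul _)
  rw [← integral_const_mul]
  refine (integral_mono_of_nonneg (ae_of_all _ fun t => ?_) iR (ae_of_all _ hpt)).trans ?_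
  · exact mul_nonneg hκ (mul_nonneg (mul_nonneg (h0 t) (hmin t)) (d.wpos t).le)
  · rw [integral_add iQ (i3.1.const_mul _),
      integral_add i1.1 (i2.1.const_mul _), integral_const_mul, integral_const_mul, i1.2, i2.2, i3.2]

theorem Wn_eq (hq : q ∈ Ioc (0 : ℝ) (1 / 2)) (a : Fin m → ℝ) :
    P.Wn q a = R2 q + q / Real.sin (2 * q) * (P.Q q a - (1 - Real.sin (2 * q) / (2 * q))) := by
  have h1 : 0 < Real.sin (2 * q) :=
    Real.sin_pos_of_pos_of_lt_pi (by linarith [hq.1]) (by linarith [hq.2, Real.pi_gt_three])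
  have h2 := hq.1
  have h3 : q / Real.sin (2 * q) * (Real.sin (2 * q) / (2 * q)) = 1 / 2 := by
    generalize Real.sin (2 * q) = s at h1
    field_simp
  unfold Par.Wn R2
  rw [mul_sub, mul_sub, h3]
  ring

theorem Dat.Wn_le (d : Dat P q f X D ι) (p : ℝ × (Fin m → ℝ)) (hp : f p ≠ 0) :
    P.Wn q p.2 ≤ (RV q + ι) ^ 2 := by
  rw [Wn_eq d.hq]
  have h1 : 0 < Real.sin (2 * q) :=
    Real.sin_pos_of_pos_of_lt_pi (by linarith [d.hq.1]) (by linarith [d.hq.2, Real.pi_gt_three])
  have h2 : 0 ≤ q / Real.sin (2 * q) := div_nonneg d.hq.1.le h1.le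
  have h3 := (abs_le.1 (d.supp p hp).2.2.1).2
  have h4 := R2_bounds q d.hq
  have h5 : q / Real.sin (2 * q) ≤ 1 := by
    have := h4.2
    unfold R2 at this
    linarith
  have h6 : RV q ^ 2 = R2 q := Real.sq_sqrt (by linarith)
  have h7 := (RV_mem q d.hq).1
  have hι := d.hι
  have h8 : q / Real.sin (2 * q) * (P.Q q p.2 - (1 - Real.sin (2 * q) / (2 * q))) ≤
      q / Real.sin (2 * q) * (2 * ι) := mul_le_mul_of_nonneg_left h3 h2
  nlinarith

theorem Dat.split (d : Dat P q f X D ι) {c ω : ℝ → ℝ} (hc : Measurable c) (hω : Measurable ω)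
    (hcw : ∀ t, c t ^ 2 + ω t ^ 2 ≤ 1) (h0 : ∀ t, 0 ≤ ω t) :
    ∫ p, c (P.F q p) * P.Vd q f p ∂(mu m) + ∫ p, ω (P.F q p) * P.perp q f p ∂(mu m) ≤
      (RV q + ι) * ∫ p, P.grad q f p ∂(mu m) := by
  have hcb : ∀ t, |c t| ≤ 1 := fun t => by
    have := hcw t
    exact abs_le_one_iff_mul_self_le_one.2 (by nlinarith [sq_nonneg (ω t)])
  have hωb : ∀ t, |ω t| ≤ 1 := fun t => by
    have := hcw t
    exact abs_le_one_iff_mul_self_le_one.2 (by nlinarith [sq_nonneg (c t)])
  have i1 := integrable_mul_F P q d.Vd_int hc hcb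
  have i2 := integrable_mul_F P q d.perp_int hω hωb
  rw [← integral_add i1 i2, ← integral_const_mul]
  refine integral_mono (i1.add i2) (d.grad_int.const_mul _) fun p => ?_
  simp only
  by_cases hp : f p = 0
  · rw [Vd_zero P q d.nn hp, perp_zero P q d.nn hp, grad_zero P q d.nn hp]
    simp
  · exact (split_grad P q d.hq f p (RV q + ι) (c (P.F q p)) (ω (P.F q p)) (d.Wn_le p hp)
      (by linarith [(RV_mem q d.hq).1, d.hι]) (hcw _) (h0 _)).1

/-- everything together -/
theorem Dat.main_ineq (d : Dat P q f X D ι) {c ω : ℝ → ℝ} (hc : Measurable c) (hω : Measurable ω)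
    (hcw : ∀ t, c t ^ 2 + ω t ^ 2 ≤ 1) (h0 : ∀ t, 0 ≤ ω t) (T κ₀ : ℝ)
    (hT : ∀ t, T < |t| → ω t = 0) (hκ : 0 ≤ κ₀)
    (hsmall : κ₀ * (8 / Real.sqrt 3 * Real.exp ((T + 2 * D) ^ 2)) * delta q ≤ 1) :
    (∫ t, c t * deriv (hh P q f) t * P.w q t) +
        κ₀ * ∫ t, ω t * min (hh P q f t) (1 - hh P q f t) * P.w q t ≤
      (RV q + ι + κ₀ * (16 / Real.sqrt 3 * Real.exp ((T + 2 * D) ^ 2)) * ι) *
        ∫ p, P.grad q f p ∂(mu m) + 96 / P.r + 4 * κ₀ * ∫ p, f p * (1 - f p) ∂(mu m) := by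
  have hcb : ∀ t, |c t| ≤ 1 := fun t => by
    have := hcw t
    exact abs_le_one_iff_mul_self_le_one.2 (by nlinarith [sq_nonneg (ω t)])
  have hω1 : ∀ t, ω t ≤ 1 := fun t => by
    have := hcw t
    exact (abs_le.1 (abs_le_one_iff_mul_self_le_one.2 (by nlinarith [sq_nonneg (c t)]))).2
  have h1 := d.calib hc hcb
  have h2 := d.trans hω h0 hω1 T κ₀ hT hκ hsmall
  have h3 := d.split hc hω hcw h0
  have e1 : (RV q + ι + κ₀ * (16 / Real.sqrt 3 * Real.exp ((T + 2 * D) ^ 2)) * ι) *
        ∫ p, P.grad q f p ∂(mu m) = (RV q + ι) * ∫ p, P.grad q f p ∂(mu m) +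
        κ₀ * (16 / Real.sqrt 3 * Real.exp ((T + 2 * D) ^ 2)) * ι * ∫ p, P.grad q f p ∂(mu m) := by
    ring
  linarith

/-- mass -/
theorem Dat.mass (d : Dat P q f X D ι) :
    |(∫ t, hh P q f t * P.rho q t) - ∫ p, f p ∂(mu m)| ≤ 9 / 2 / P.r := by
  have i1 := int_slice P q d.fcont.measurable d.f_int
  obtain ⟨i2, i3⟩ := er_int (P := P) d.hq
  have hs := struct_model P q d.hq
  have i4 : Integrable fun t => hh P q f t * P.rho q t := by
    refine hs.hint.mono' (d.hh_cont.mul hs.cont).aestronglyMeasurable (ae_of_all _ fun t => ?_)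
    rw [Real.norm_eq_abs, abs_mul, abs_of_nonneg (d.hh_mem t).1, abs_of_pos (hs.pos t)]
    exact mul_le_of_le_one_left (hs.pos t).le (d.hh_mem t).2
  rw [← i1.2, ← integral_sub i4 i1.1]
  refine (abs_integral_le_integral_abs).trans ?_
  refine (integral_mono (i4.sub i1.1).abs (i2.const_mul 3) fun t => ?_).trans ?_
  · simp only [Pi.sub_apply]
    rw [abs_sub_comm]
    exact d.err t
  · rw [integral_const_mul]
    have : (9 : ℝ) / 2 / P.r = 3 * (3 / 2 / P.r) := by ring
    linarith

/-- back to the function `f` -/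
theorem Dat.final (d : Dat P q f X D ι) {H : Set ℝ} (hH : MeasurableSet H) :
    ∫ p, |f p - H.indicator (fun _ => (1 : ℝ)) (P.F q p)| ∂(mu m) ≤
      ∫ s, P.w q s * |hh P q f s - H.indicator (fun _ => (1 : ℝ)) s| := by
  set A : ℝ × (Fin m → ℝ) → ℝ := fun p =>
    P.Gam q p.2 * |f p - H.indicator (fun _ => (1 : ℝ)) (P.F q p)| with hA
  have hind : Measurable (H.indicator fun _ => (1 : ℝ)) := measurable_const.indicator hH
  have hBm : Measurable fun p => |f p - H.indicator (fun _ => (1 : ℝ)) (P.F q p)| := by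
    have h1 := hind.comp (P.F_cont q).measurable
    have h2 := d.fcont.measurable
    exact (h2.sub h1).abs
  have hAm : Measurable A := ((P.Gam_cont q).comp continuous_snd).measurable.mul hBm
  have hi01 : ∀ s, H.indicator (fun _ => (1 : ℝ)) s = 0 ∨ H.indicator (fun _ => (1 : ℝ)) s = 1 := by
    intro s
    by_cases hs : s ∈ H
    · right; simp [hs]
    · left; simp [hs]
  have hB1 : ∀ p, |f p - H.indicator (fun _ => (1 : ℝ)) (P.F q p)| ≤ 1 := by
    intro p
    have h1 := d.mem p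
    rcases hi01 (P.F q p) with h | h
    · rw [h, sub_zero, abs_of_nonneg h1.1]; exact h1.2
    · rw [h, abs_sub_comm, abs_of_nonneg (by linarith [h1.2])]; linarith [h1.1]
  have hBi : Integrable (fun p => |f p - H.indicator (fun _ => (1 : ℝ)) (P.F q p)|) (mu m) := by
    refine Integrable.of_bound hBm.aestronglyMeasurable 1 (ae_of_all _ fun p => ?_)
    rw [Real.norm_eq_abs, abs_abs]; exact hB1 p
  have hAi : Integrable A (mu m) := by
    refine Integrable.of_bound hAm.aestronglyMeasurable 2 ?_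
    filter_upwards [mu_ae_mem m] with p hp
    have h1 := Gam_bounds P q d.hq p.2 hp
    rw [hA, Real.norm_eq_abs]
    simp only
    rw [abs_mul, abs_abs, abs_of_nonneg (by linarith [h1.1])]
    nlinarith [hB1 p, abs_nonneg (f p - H.indicator (fun _ => (1 : ℝ)) (P.F q p)), h1.1, h1.2]
  have h1 : ∫ p, |f p - H.indicator (fun _ => (1 : ℝ)) (P.F q p)| ∂(mu m) ≤ ∫ p, A p ∂(mu m) := by
    refine integral_mono_ae hBi hAi ?_
    filter_upwards [mu_ae_mem m] with p hp
    have h1 := (Gam_bounds P q d.hq p.2 hp).1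
    rw [hA]
    simp only
    exact le_mul_of_one_le_left (abs_nonneg _) h1
  refine h1.trans (le_of_eq ?_)
  rw [← (int_slice P q hAm hAi).2]
  refine integral_congr_ae (ae_of_all _ fun s => ?_)
  simp only
  have hF : ∀ a, P.F q (s - P.theta q a, a) = s := fun a => by unfold Par.F; simp
  have hm := d.hh_mem s
  have hG : Continuous fun p : ℝ × (Fin m → ℝ) => P.Gam q p.2 := (P.Gam_cont q).comp continuous_snd
  rcases hi01 s with h | h
  · rw [h, sub_zero, abs_of_nonneg hm.1, mul_comm, d.mul_w]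
    refine slice_congr P q s fun a => ?_
    simp only [hA, hF, h, sub_zero, abs_of_nonneg (d.nn _)]
    ring
  · rw [h, abs_sub_comm, abs_of_nonneg (by linarith [hm.2]), mul_sub, mul_one, mul_comm, d.mul_w]
    have h2 : P.slice q A s = P.slice q (fun p => P.Gam q p.2 - f p * P.Gam q p.2) s := by
      refine slice_congr P q s fun a => ?_
      have h3 := d.mem (s - P.theta q a, a)
      simp only [hA, hF, h]
      rw [abs_sub_comm, abs_of_nonneg (by linarith [h3.2])]
      ring
    rw [h2, slice_sub P q hG d.fG_cont]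
    rfl

/-! ### the cutoff -/

/-- the gradient as a vector -/
noncomputable def gvec (P : Par m) (q : ℝ) (f : ℝ × (Fin m → ℝ) → ℝ) (p : ℝ × (Fin m → ℝ)) :
    EuclideanSpace ℝ (Fin (m + 1)) :=
  WithLp.toLp 2 (Fin.cons (P.D0 f p) fun i => P.Dj q f i p)

theorem norm_gvec (f : ℝ × (Fin m → ℝ) → ℝ) (p : ℝ × (Fin m → ℝ)) :
    ‖gvec P q f p‖ = P.grad q f p := by
  unfold gvec Par.grad
  rw [EuclideanSpace.norm_eq, Fin.sum_univ_succ]
  simp [sq_abs]

theorem grad_mul_le {f χ : ℝ × (Fin m → ℝ) → ℝ} (hf : ContDiff ℝ 1 f) (hχ : ContDiff ℝ 1 χ)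
    (p : ℝ × (Fin m → ℝ)) :
    P.grad q (fun p => f p * χ p) p ≤ |χ p| * P.grad q f p + |f p| * P.grad q χ p := by
  have h1 : ∀ v, fderiv ℝ (fun p => f p * χ p) p v = χ p * fderiv ℝ f p v + f p * fderiv ℝ χ p v := by
    intro v
    have hf' := (hf.differentiable (by norm_num)) p
    have hχ' := (hχ.differentiable (by norm_num)) p
    rw [fderiv_fun_mul hf' hχ']
    simp only [_root_.add_apply, _root_.smul_apply, smul_eq_mul]
    ring
  have h2 : gvec P q (fun p => f p * χ p) p = χ p • gvec P q f p + f p • gvec P q χ p := by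
    ext i
    refine Fin.cases ?_ (fun j => ?_) i
    · simp only [gvec, Par.D0, h1, PiLp.add_apply, PiLp.smul_apply, Fin.cons_zero, smul_eq_mul]
    · simp only [gvec, Par.Dj, h1, PiLp.add_apply, PiLp.smul_apply, Fin.cons_succ, smul_eq_mul]
      ring
  rw [← norm_gvec, ← norm_gvec, ← norm_gvec, h2]
  refine (norm_add_le _ _).trans ?_
  rw [norm_smul, norm_smul, Real.norm_eq_abs, Real.norm_eq_abs]

end D5

end IsoHull
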