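import Mathlib

/-!
# Convex hulls of isoperimetric sets: definitions (MP_b478d8_an)

Blueprint: /team-store/IsoHull27_Blueprint.md
-/

open MeasureTheory Set Filter Topology
open scoped ENNReal NNReal

namespace IsoHull

/-! ## Part A : relative perimeter -/

/-- `n`-dimensional Euclidean space. -/
abbrev Eu (n : ℕ) := EuclideanSpace ℝ (Fin n)

/-- The divergence of a vector field on `ℝⁿ`. -/
noncomputable def divg {n : ℕ} (X : Eu n → Eu n) (x : Eu n) : ℝ :=
  ∑ i, (fderiv ℝ X x (EuclideanSpace.single i 1)) i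

/-- Admissible test fields in the open set `Ω`: `C¹`, compactly supported in `Ω`, `‖X‖ ≤ 1`. -/
def TestField {n : ℕ} (Ω : Set (Eu n)) (X : Eu n → Eu n) : Prop :=
  ContDiff ℝ 1 X ∧ HasCompactSupport X ∧ tsupport X ⊆ Ω ∧ ∀ x, ‖X x‖ ≤ 1

/-- The relative perimeter `P(E;Ω)` (De Giorgi): supremum of `∫_E div X` over all test fields. -/
noncomputable def relPer {n : ℕ} (Ω E : Set (Eu n)) : ℝ≥0∞ :=
  ⨆ (X : Eu n → Eu n) (_ : TestField Ω X), ENNReal.ofReal (∫ x in E, divg X x)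

/-- `E` is an isoperimetric set of volume fraction `α` in `Ω`. -/
def IsIsop {n : ℕ} (Ω : Set (Eu n)) (α : ℝ) (E : Set (Eu n)) : Prop :=
  MeasurableSet E ∧ E ⊆ Ω ∧ volume E = ENNReal.ofReal α * volume Ω ∧
    ∀ F, MeasurableSet F → F ⊆ Ω → volume F = volume E → relPer Ω E ≤ relPer Ω F

/-- The canonical representative of `E`: the points of `Ω` at which `E` has Lebesgue density `1`. -/
def canon {n : ℕ} (Ω E : Set (Eu n)) : Set (Eu n) :=
  {x ∈ Ω | Tendsto (fun r : ℝ => volume (E ∩ Metric.ball x r) / volume (Metric.ball x r))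
    (𝓝[>] 0) (𝓝 1)}

/-- The hull of `E`: the convex hull of its canonical representative. -/
def hull {n : ℕ} (Ω E : Set (Eu n)) : Set (Eu n) := convexHull ℝ (canon Ω E)

/-! ## Part D : the model functions (one variable) -/

/-- the function `c` (up to an additive constant, half of the square of the coordinate) -/
noncomputable def cf (q a : ℝ) : ℝ := -(q / (2 * Real.sin q)) * Real.cos (q * a)

/-- the derivative of `c` -/
noncomputable def cd (q a : ℝ) : ℝ := (q ^ 2 / (2 * Real.sin q)) * Real.sin (q * a)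

/-- the `a`-component of the calibrating field -/
noncomputable def vf (q a : ℝ) : ℝ := Real.sin (q * a) / Real.sin q - a

/-- half the side of the cubes -/
noncomputable def delta (q : ℝ) : ℝ := Real.sqrt (q * Real.tan q / 2)

/-- `A = q cot q` -/
noncomputable def Ac (q : ℝ) : ℝ := q * Real.cos q / Real.sin q

/-- `R₂ = 1/2 + q / sin 2q`, the mean of `‖V‖²` -/
noncomputable def R2 (q : ℝ) : ℝ := 1 / 2 + q / Real.sin (2 * q)

/-- `R_V = sqrt R₂` -/
noncomputable def RV (q : ℝ) : ℝ := Real.sqrt (R2 q)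

/-- the density of the centred Gaussian law of variance `1/2` -/
noncomputable def nu0 (x : ℝ) : ℝ := Real.exp (-x ^ 2) / Real.sqrt Real.pi

/-- that Gaussian law -/
noncomputable def nuM : Measure ℝ := volume.withDensity fun x => ENNReal.ofReal (nu0 x)

/-- the uniform law on `[-1,1]` -/
noncomputable def unif : Measure ℝ := (2 : ℝ≥0∞)⁻¹ • volume.restrict (Icc (-1) 1)

/-- the uniform law on the cube `[-1,1]^m` -/
noncomputable def cubeM (m : ℕ) : Measure (Fin m → ℝ) := Measure.pi fun _ => unif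

/-- the closed cube -/
def cube (m : ℕ) : Set (Fin m → ℝ) := {a | ∀ i, a i ∈ Icc (-1 : ℝ) 1}

/-- the product law `ν₀ ⊗ unif` on `ℝ × [-1,1]^m` -/
noncomputable def mu (m : ℕ) : Measure (ℝ × (Fin m → ℝ)) := nuM.prod (cubeM m)

/-- Combinatorial parameters: signs, scale `r = √N`, and a sign reversing permutation. -/
structure Par (m : ℕ) where
  σ : Fin m → ℝ
  r : ℝ
  e : Equiv.Perm (Fin m)
  r_pos : 0 < r
  hm : (m : ℝ) = 2 * r ^ 2
  hσ : ∀ i, σ i = 1 ∨ σ i = -1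
  he : ∀ i, σ (e i) = - σ i

namespace Par

variable {m : ℕ} (P : Par m) (q : ℝ)

/-- `θ(a) = r⁻¹ ∑ σᵢ c(aᵢ)` -/
noncomputable def theta (a : Fin m → ℝ) : ℝ := (∑ i, P.σ i * cf q (a i)) / P.r

/-- `Q(a) = r⁻² ∑ sin²(q aᵢ)` -/
noncomputable def Q (a : Fin m → ℝ) : ℝ := (∑ i, Real.sin (q * a i) ^ 2) / P.r ^ 2

/-- `S(a) = r⁻² ∑ aᵢ c'(aᵢ)` -/
noncomputable def S (a : Fin m → ℝ) : ℝ := (∑ i, a i * cd q (a i)) / P.r ^ 2

/-- `Γ(a) = V F = 1 + r⁻² ∑ v(aᵢ) c'(aᵢ)` -/
noncomputable def Gam (a : Fin m → ℝ) : ℝ := 1 + (∑ i, vf q (a i) * cd q (a i)) / P.r ^ 2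

/-- `W(a) = ‖V‖² = 1 + (q / sin 2q) Q(a)` -/
noncomputable def Wn (a : Fin m → ℝ) : ℝ := 1 + (q / Real.sin (2 * q)) * P.Q q a

/-- `F(x,a) = x + θ(a)` -/
noncomputable def F (p : ℝ × (Fin m → ℝ)) : ℝ := p.1 + P.theta q p.2

/-- the slice functional `𝔼_t[H] = ∫ H(t - θ(a), a) ν₀(t - θ(a)) da` -/
noncomputable def slice (H : ℝ × (Fin m → ℝ) → ℝ) (t : ℝ) : ℝ :=
  ∫ a, H (t - P.theta q a, a) * nu0 (t - P.theta q a) ∂(cubeM m)

/-- density of the law of `F` -/
noncomputable def rho (t : ℝ) : ℝ := P.slice q (fun _ => 1) t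

/-- the perimeter weight -/
noncomputable def w (t : ℝ) : ℝ := P.slice q (fun p => P.Gam q p.2) t

/-- the `x`-component of the (ideal) gradient -/
noncomputable def D0 (f : ℝ × (Fin m → ℝ) → ℝ) (p : ℝ × (Fin m → ℝ)) : ℝ :=
  fderiv ℝ f p (1, fun i => -(P.σ i * p.2 i) / P.r)

/-- the `i`-th transversal component of the (ideal) gradient -/
noncomputable def Dj (_P : Par m) (q : ℝ) (f : ℝ × (Fin m → ℝ) → ℝ) (i : Fin m)
    (p : ℝ × (Fin m → ℝ)) : ℝ :=
  fderiv ℝ f p (0, Pi.single i 1) / delta q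

/-- the norm of the (ideal) gradient -/
noncomputable def grad (f : ℝ × (Fin m → ℝ) → ℝ) (p : ℝ × (Fin m → ℝ)) : ℝ :=
  Real.sqrt (P.D0 f p ^ 2 + ∑ i, P.Dj q f i p ^ 2)

/-- the derivative along the calibrating field `V` -/
noncomputable def Vd (f : ℝ × (Fin m → ℝ) → ℝ) (p : ℝ × (Fin m → ℝ)) : ℝ :=
  fderiv ℝ f p (1, fun i => P.σ i * vf q (p.2 i) / P.r)

/-- the norm of the part of the gradient orthogonal to `V` -/
noncomputable def perp (f : ℝ × (Fin m → ℝ) → ℝ) (p : ℝ × (Fin m → ℝ)) : ℝ :=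
  Real.sqrt (P.grad q f p ^ 2 - P.Vd q f p ^ 2 / P.Wn q p.2)

end Par

/-! ## Part C : the bodies -/

/-- the signs: the first `M^8` coordinates are `+`, the last `M^8` coordinates are `-` -/
def sg (M : ℕ) (i : Fin (2 * M ^ 8)) : ℝ := if (i : ℕ) < M ^ 8 then 1 else -1

/-- the parameters for `N = M^8`, `r = √N = M^4` -/
noncomputable def parM (M : ℕ) (hM : 0 < M) : Par (2 * M ^ 8) where
  σ := sg M
  r := (M : ℝ) ^ 4
  e := Fin.revPerm
  r_pos := by positivity
  hm := by push_cast; ring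
  hσ := by intro i; unfold sg; split_ifs <;> simp
  he := by
    intro i
    have hi := i.2
    have : ((Fin.rev i : Fin (2 * M ^ 8)) : ℕ) = 2 * M ^ 8 - (i + 1) := Fin.val_rev i
    simp only [sg, Fin.revPerm_apply, this]
    by_cases h : (i : ℕ) < M ^ 8
    · rw [if_pos h, if_neg (by omega)]
    · rw [if_neg h, if_pos (by omega)]; norm_num

/-- the convex body `Ω_M ⊂ ℝ^(2M^8+1)` -/
def dom (M : ℕ) (q : ℝ) : Set (Eu (2 * M ^ 8 + 1)) :=
  {p | |p 0| < M ∧ ∀ i : Fin (2 * M ^ 8), |p i.succ| < delta q * (1 + sg M i * p 0 / (M : ℝ) ^ 4)}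

/-- the parametrisation `(x,a) ↦ (x, δ (1 + σᵢ x / r) aᵢ)` of the body -/
noncomputable def phi (M : ℕ) (q : ℝ) (p : ℝ × (Fin (2 * M ^ 8) → ℝ)) : Eu (2 * M ^ 8 + 1) :=
  WithLp.toLp 2 (Fin.cons p.1 fun i => delta q * (1 + sg M i * p.1 / (M : ℝ) ^ 4) * p.2 i)

/-! ## Part F : the moves -/

/-- uniform law on `{±1}` -/
noncomputable def rad : Measure ℝ := (2 : ℝ≥0∞)⁻¹ • (Measure.dirac 1 + Measure.dirac (-1))

/-- law of `(a, signs)` -/
noncomputable def pmM (m : ℕ) : Measure (Fin m → ℝ × ℝ) := Measure.pi fun _ => unif.prod rad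

/-- the moved point: coordinates in `I` are moved by `ς κ (1 - a²)` -/
noncomputable def moved {m : ℕ} (I : Finset (Fin m)) (κ : ℝ) (ω : Fin m → ℝ × ℝ) (i : Fin m) : ℝ :=
  if i ∈ I then (ω i).1 + (ω i).2 * κ * (1 - (ω i).1 ^ 2) else (ω i).1

/-! ## Part A : mollified dilates -/

/-- mollified dilate of the indicator of `E` -/
noncomputable def smf {n : ℕ} (E : Set (Eu n)) (s : ℝ) (b : ContDiffBump (0 : Eu n)) (x : Eu n) : ℝ :=
  ∫ y, b.normed volume y * E.indicator (fun _ => (1 : ℝ)) (s • (x - y))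

end IsoHull
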