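import Pool.Agent.IsoHull27.Basic

/-!
# IsoHull27, package F1: the law of the moved point (MP_b478d8_an)
-/

set_option autoImplicit false

open MeasureTheory Set Filter Topology
open scoped ENNReal NNReal

namespace IsoHull

/-! ### One variable -/

/-- the density of `a + s κ (1 - a²)`, `a` uniform -/
noncomputable def f1den (κ s w : ℝ) : ℝ := (Real.sqrt (1 - 4 * s * κ * w + 4 * κ ^ 2))⁻¹

theorem f1den_nonneg (κ s w : ℝ) : 0 ≤ f1den κ s w := by unfold f1den; positivity

theorem f1den_meas (κ s : ℝ) : Measurable (f1den κ s) := by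
  unfold f1den
  fun_prop

theorem f1_map (κ s : ℝ) (hκ : κ ∈ Icc (0 : ℝ) (1 / 8)) (hs : s = 1 ∨ s = -1) :
    unif.map (fun a => a + s * κ * (1 - a ^ 2)) =
      unif.withDensity (fun w => ENNReal.ofReal (f1den κ s w)) := by
  set T : ℝ → ℝ := fun a => a + s * κ * (1 - a ^ 2) with hT
  have hsκ : |s * κ| ≤ 1 / 8 := by
    rcases hs with rfl | rfl
    · rw [one_mul, abs_of_nonneg hκ.1]; exact hκ.2
    · rw [neg_one_mul, abs_neg, abs_of_nonneg hκ.1]; exact hκ.2
  have hs2 : s ^ 2 = 1 := by rcases hs with rfl | rfl <;> norm_num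
  have hsκ' := abs_le.1 hsκ
  have hTm : Measurable T := by fun_prop
  have hTc : Continuous T := by fun_prop
  have hderiv : ∀ a, HasDerivAt T (1 - 2 * (s * κ) * a) a := by
    intro a
    have h1 := ((hasDerivAt_id a).pow 2).const_sub 1
    have h2 := (hasDerivAt_id a).add (h1.const_mul (s * κ))
    refine h2.congr_deriv ?_
    simp only [id]
    ring
  have hpos : ∀ a ∈ Icc (-1 : ℝ) 1, 0 < 1 - 2 * (s * κ) * a := by
    intro a ha
    nlinarith [ha.1, ha.2, abs_le.1 hsκ, abs_nonneg (s * κ), abs_nonneg a,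
      mul_nonneg (sub_nonneg.2 ha.2) (sub_nonneg.2 hsκ'.2),
      mul_nonneg (sub_nonneg.2 ha.1) (sub_nonneg.2 hsκ'.2),
      mul_nonneg (sub_nonneg.2 ha.2) (sub_nonneg.2 hsκ'.1),
      mul_nonneg (sub_nonneg.2 ha.1) (sub_nonneg.2 hsκ'.1)]
  have hmono : StrictMonoOn T (Icc (-1 : ℝ) 1) := by
    refine strictMonoOn_of_deriv_pos (convex_Icc _ _) hTc.continuousOn ?_
    intro a ha
    rw [interior_Icc] at ha
    rw [(hderiv a).deriv]
    exact hpos a ⟨ha.1.le, ha.2.le⟩
  have hT1 : T 1 = 1 := by simp [hT]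
  have hTm1 : T (-1) = -1 := by simp [hT]
  have himg : T '' Icc (-1 : ℝ) 1 = Icc (-1 : ℝ) 1 := by
    apply Subset.antisymm
    · rintro _ ⟨a, ha, rfl⟩
      constructor
      · rw [← hTm1]
        exact hmono.monotoneOn (left_mem_Icc.2 (by norm_num)) ha ha.1
      · rw [← hT1]
        exact hmono.monotoneOn ha (right_mem_Icc.2 (by norm_num)) ha.2
    · have := intermediate_value_Icc (show (-1 : ℝ) ≤ 1 by norm_num) hTc.continuousOn
      rwa [hTm1, hT1] at this
  ext B hB
  rw [Measure.map_apply hTm hB, withDensity_apply _ hB]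
  unfold unif
  rw [Measure.smul_apply, Measure.restrict_apply (hTm hB), Measure.restrict_smul,
    lintegral_smul_measure, Measure.restrict_restrict hB]
  congr 1
  have h1 : ∫⁻ w in B ∩ Icc (-1) 1, ENNReal.ofReal (f1den κ s w) =
      ∫⁻ w in T '' Icc (-1 : ℝ) 1, B.indicator (fun w => ENNReal.ofReal (f1den κ s w)) w := by
    rw [himg, lintegral_indicator hB, Measure.restrict_restrict hB]
  rw [h1, lintegral_image_eq_lintegral_abs_deriv_mul measurableSet_Icc
    (fun x _ => (hderiv x).hasDerivWithinAt) hmono.injOn]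
  have h2 : ∀ a ∈ Icc (-1 : ℝ) 1, ENNReal.ofReal |1 - 2 * (s * κ) * a| *
      B.indicator (fun w => ENNReal.ofReal (f1den κ s w)) (T a) =
      (T ⁻¹' B).indicator 1 a := by
    intro a ha
    by_cases hb : T a ∈ B
    · rw [indicator_of_mem hb, indicator_of_mem (by exact hb), Pi.one_apply,
        abs_of_pos (hpos a ha), ← ENNReal.ofReal_mul (hpos a ha).le]
      have h3 : 1 - 4 * s * κ * T a + 4 * κ ^ 2 = (1 - 2 * (s * κ) * a) ^ 2 := by
        simp only [hT]
        have : (s * κ) ^ 2 = κ ^ 2 := by rw [mul_pow, hs2, one_mul]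
        linear_combination (-4) * this
      unfold f1den
      rw [h3, Real.sqrt_sq (hpos a ha).le, mul_inv_cancel₀ (hpos a ha).ne', ENNReal.ofReal_one]
    · rw [indicator_of_notMem hb, indicator_of_notMem (by exact hb), mul_zero]
  rw [setLIntegral_congr_fun measurableSet_Icc h2, lintegral_indicator (hTm hB)]
  simp only [Pi.one_apply, lintegral_const, one_mul]
  rw [Measure.restrict_apply MeasurableSet.univ, univ_inter, Measure.restrict_apply (hTm hB)]

/-- the density of the moved variable -/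
noncomputable def f1R (κ w : ℝ) : ℝ := (f1den κ 1 w + f1den κ (-1) w) / 2

theorem f1R_meas (κ : ℝ) : Measurable (f1R κ) := by
  unfold f1R
  exact ((f1den_meas κ 1).add (f1den_meas κ (-1))).div_const 2

theorem f1R_nonneg (κ w : ℝ) : 0 ≤ f1R κ w := by
  have h1 := f1den_nonneg κ 1 w
  have h2 := f1den_nonneg κ (-1) w
  unfold f1R
  positivity

theorem f1_alg (k p S : ℝ) (hk0 : 0 ≤ k) (hk1 : k ≤ 1 / 64) (hlo : 1 - 4 * k ≤ p)
    (hhi : p ≤ 1 + 4 * k) (hS0 : 0 ≤ S) (hS : S ^ 2 = 2 * (1 + 4 * k + p)) :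
    2 * p * (1 - 20 * k) ≤ S ∧ S ≤ 2 * p * (1 + 20 * k) := by
  have hp : 0 < p := by linarith
  constructor
  · by_cases hneg : 1 - 20 * k ≤ 0
    · have : 2 * p * (1 - 20 * k) ≤ 0 := mul_nonpos_of_nonneg_of_nonpos (by positivity) hneg
      linarith
    · push Not at hneg
      apply le_of_sq_le_sq _ hS0
      rw [hS]
      have h1 : p * (1 - 20 * k) ≤ 1 := by
        calc p * (1 - 20 * k) ≤ (1 + 4 * k) * (1 - 20 * k) :=
              mul_le_mul_of_nonneg_right hhi hneg.le
          _ ≤ 1 := by nlinarith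
      have h0 : 0 ≤ p * (1 - 20 * k) := mul_nonneg hp.le hneg.le
      have h2 : (p * (1 - 20 * k)) ^ 2 ≤ p * (1 - 20 * k) := by
        rw [sq]
        exact mul_le_of_le_one_left h0 h1
      have h3 : p * (1 - 20 * k) ≤ p := by
        have := mul_nonneg hp.le hk0
        linarith
      calc (2 * p * (1 - 20 * k)) ^ 2 = 4 * (p * (1 - 20 * k)) ^ 2 := by ring
        _ ≤ 4 * (p * (1 - 20 * k)) := by linarith
        _ ≤ 2 * (1 + 4 * k + p) := by linarith
  · apply le_of_sq_le_sq _ (by positivity)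
    rw [hS]
    have h1 : 1 ≤ (1 - 4 * k) * (1 + 20 * k) := by nlinarith
    have h2 : 1 ≤ p * (1 + 20 * k) :=
      h1.trans (mul_le_mul_of_nonneg_right hlo (by positivity))
    have h3 : 1 + 4 * k + p ≤ 2 * (p * (1 + 20 * k)) := by
      have h5 : (1 - 4 * k) * k ≤ p * k := mul_le_mul_of_nonneg_right hlo hk0
      nlinarith
    have h4 : p * (1 + 20 * k) ≤ (p * (1 + 20 * k)) ^ 2 := by
      rw [sq]
      exact le_mul_of_one_le_left (by linarith) h2
    calc 2 * (1 + 4 * k + p) ≤ 4 * (p * (1 + 20 * k)) := by linarith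
      _ ≤ 4 * (p * (1 + 20 * k)) ^ 2 := by linarith
      _ = (2 * p * (1 + 20 * k)) ^ 2 := by ring

theorem f1R_bound (κ : ℝ) (hκ : κ ∈ Icc (0 : ℝ) (1 / 8)) (w : ℝ) (hw : w ∈ Icc (-1 : ℝ) 1) :
    |f1R κ w - 1| ≤ 20 * κ ^ 2 := by
  have hκ0 := hκ.1
  have hκ1 := hκ.2
  have hkw : |κ * w| ≤ κ := by
    rw [abs_mul, abs_of_nonneg hκ0]
    exact mul_le_of_le_one_right hκ0 (abs_le.2 hw)
  have hkw' := abs_le.1 hkw
  have hkw2 : (κ * w) ^ 2 ≤ κ ^ 2 := by
    rw [← sq_abs (κ * w)]
    exact pow_le_pow_left₀ (abs_nonneg _) hkw 2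
  have hk2 : κ ^ 2 ≤ 1 / 64 := by
    calc κ ^ 2 ≤ (1 / 8) ^ 2 := pow_le_pow_left₀ hκ0 hκ1 2
      _ = 1 / 64 := by norm_num
  have hA0 : 0 < 1 - 4 * 1 * κ * w + 4 * κ ^ 2 := by
    have := sq_nonneg κ
    nlinarith only [hkw', hκ1, this]
  have hB0 : 0 < 1 - 4 * (-1) * κ * w + 4 * κ ^ 2 := by
    have := sq_nonneg κ
    nlinarith only [hkw', hκ1, this]
  have hR : f1R κ w = (Real.sqrt (1 - 4 * 1 * κ * w + 4 * κ ^ 2) +
      Real.sqrt (1 - 4 * (-1) * κ * w + 4 * κ ^ 2)) /
      (2 * (Real.sqrt (1 - 4 * 1 * κ * w + 4 * κ ^ 2) *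
        Real.sqrt (1 - 4 * (-1) * κ * w + 4 * κ ^ 2))) := by
    unfold f1R f1den
    have key : ∀ A B : ℝ, A ≠ 0 → B ≠ 0 → (A⁻¹ + B⁻¹) / 2 = (A + B) / (2 * (A * B)) := by
      intro A B hA hB
      field_simp
      ring
    exact key _ _ (Real.sqrt_pos.2 hA0).ne' (Real.sqrt_pos.2 hB0).ne'
  have hA2 := Real.sq_sqrt hA0.le
  have hB2 := Real.sq_sqrt hB0.le
  have hApos := Real.sqrt_pos.2 hA0
  have hBpos := Real.sqrt_pos.2 hB0
  rw [hR]
  generalize Real.sqrt (1 - 4 * 1 * κ * w + 4 * κ ^ 2) = A at *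
  generalize Real.sqrt (1 - 4 * (-1) * κ * w + 4 * κ ^ 2) = B at *
  have hppos : 0 < A * B := mul_pos hApos hBpos
  have hp2 : (A * B) ^ 2 = (1 + 4 * κ ^ 2) ^ 2 - 16 * (κ * w) ^ 2 := by
    rw [mul_pow, hA2, hB2]; ring
  have hplo : 1 - 4 * κ ^ 2 ≤ A * B := by
    apply le_of_sq_le_sq _ hppos.le
    rw [hp2]
    calc (1 - 4 * κ ^ 2) ^ 2 = (1 + 4 * κ ^ 2) ^ 2 - 16 * κ ^ 2 := by ring
      _ ≤ _ := by linarith
  have hphi : A * B ≤ 1 + 4 * κ ^ 2 := by
    apply le_of_sq_le_sq _ (by positivity)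
    rw [hp2]
    linarith [sq_nonneg (κ * w)]
  have hsum2 : (A + B) ^ 2 = 2 * (1 + 4 * κ ^ 2 + A * B) := by
    have : (A + B) ^ 2 = A ^ 2 + B ^ 2 + 2 * (A * B) := by ring
    rw [this, hA2, hB2]; ring
  obtain ⟨h1, h2⟩ := f1_alg (κ ^ 2) (A * B) (A + B) (sq_nonneg _) hk2 hplo hphi
    (by positivity) hsum2
  rw [abs_le]
  constructor
  · rw [le_sub_iff_add_le, le_div_iff₀ (by positivity)]
    linarith
  · rw [sub_le_iff_le_add, div_le_iff₀ (by positivity)]
    linarith

theorem moved_one (κ : ℝ) (hκ : κ ∈ Icc (0 : ℝ) (1 / 8)) :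
    ∃ R : ℝ → ℝ, Measurable R ∧ (∀ a, 0 ≤ R a) ∧
      (unif.prod rad).map (fun ω => ω.1 + ω.2 * κ * (1 - ω.1 ^ 2)) =
        unif.withDensity (fun a => ENNReal.ofReal (R a)) ∧
      ∫ a, R a ^ 2 ∂unif ≤ 1 + 400 * κ ^ 4 ∧ Integrable (fun a => R a ^ 2) unif := by
  have hmap : (unif.prod rad).map (fun ω => ω.1 + ω.2 * κ * (1 - ω.1 ^ 2)) =
        unif.withDensity (fun a => ENNReal.ofReal (f1R κ a)) := by
    have hm : Measurable (fun ω : ℝ × ℝ => ω.1 + ω.2 * κ * (1 - ω.1 ^ 2)) := by fun_prop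
    unfold rad
    rw [Measure.prod_smul_right, Measure.prod_add, Measure.prod_dirac, Measure.prod_dirac,
      Measure.map_smul, Measure.map_add _ _ hm, Measure.map_map hm (by fun_prop),
      Measure.map_map hm (by fun_prop)]
    have h1 : (fun ω : ℝ × ℝ => ω.1 + ω.2 * κ * (1 - ω.1 ^ 2)) ∘ (fun x : ℝ => (x, (1 : ℝ))) =
        fun a => a + 1 * κ * (1 - a ^ 2) := rfl
    have h2 : (fun ω : ℝ × ℝ => ω.1 + ω.2 * κ * (1 - ω.1 ^ 2)) ∘ (fun x : ℝ => (x, (-1 : ℝ))) =
        fun a => a + (-1) * κ * (1 - a ^ 2) := rfl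
    rw [h1, h2, f1_map κ 1 hκ (Or.inl rfl), f1_map κ (-1) hκ (Or.inr rfl),
      ← withDensity_add_left (f1den_meas κ 1).ennreal_ofReal,
      ← withDensity_smul' _ _ (by norm_num)]
    congr 1
    funext w
    simp only [Pi.smul_apply, Pi.add_apply, smul_eq_mul]
    rw [← ENNReal.ofReal_add (f1den_nonneg κ 1 w) (f1den_nonneg κ (-1) w)]
    have h3 : (2 : ℝ≥0∞)⁻¹ = ENNReal.ofReal (2⁻¹) := by
      rw [ENNReal.ofReal_inv_of_pos (by norm_num)]
      norm_num
    rw [h3, ← ENNReal.ofReal_mul (by norm_num)]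
    congr 1
    unfold f1R
    ring
  have hae : ∀ᵐ a ∂unif, ‖f1R κ a ^ 2‖ ≤ (1 + 20 * κ ^ 2) ^ 2 := by
    filter_upwards [unif_ae_mem] with a ha
    rw [Real.norm_of_nonneg (sq_nonneg _)]
    have h1 := abs_le.1 (f1R_bound κ hκ a ha)
    exact pow_le_pow_left₀ (f1R_nonneg κ a) (by linarith) 2
  have hint2 : Integrable (fun a => f1R κ a ^ 2) unif :=
    Integrable.of_bound (((f1R_meas κ).pow_const 2).aestronglyMeasurable) _ hae
  have hint1 : Integrable (fun a => f1R κ a) unif := by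
    refine Integrable.of_bound (f1R_meas κ).aestronglyMeasurable (1 + 20 * κ ^ 2) ?_
    filter_upwards [unif_ae_mem] with a ha
    rw [Real.norm_of_nonneg (f1R_nonneg κ a)]
    have h1 := abs_le.1 (f1R_bound κ hκ a ha)
    linarith
  have hone : ∫ a, f1R κ a ∂unif = 1 := by
    have h1 : (unif.withDensity (fun a => ENNReal.ofReal (f1R κ a))) univ = 1 := by
      rw [← hmap]
      have hm : Measurable (fun ω : ℝ × ℝ => ω.1 + ω.2 * κ * (1 - ω.1 ^ 2)) := by fun_prop
      have : IsProbabilityMeasure ((unif.prod rad).map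
          (fun ω : ℝ × ℝ => ω.1 + ω.2 * κ * (1 - ω.1 ^ 2))) :=
        Measure.isProbabilityMeasure_map hm.aemeasurable
      exact measure_univ
    rw [withDensity_apply _ MeasurableSet.univ, Measure.restrict_univ,
      ← ofReal_integral_eq_lintegral_ofReal hint1 (ae_of_all _ (f1R_nonneg κ))] at h1
    rwa [ENNReal.ofReal_eq_one] at h1
  refine ⟨f1R κ, f1R_meas κ, f1R_nonneg κ, hmap, ?_, hint2⟩
  have h2 : ∫ a, f1R κ a ^ 2 ∂unif = ∫ a, (f1R κ a - 1) ^ 2 ∂unif + 1 := by
    have h3 : ∀ a, f1R κ a ^ 2 = (f1R κ a - 1) ^ 2 + (2 * f1R κ a - 1) := fun a => by ring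
    have hi3 : Integrable (fun a => 2 * f1R κ a - 1) unif :=
      (hint1.const_mul 2).sub (integrable_const 1)
    have hi4 : Integrable (fun a => (f1R κ a - 1) ^ 2) unif := by
      have := hint2.sub hi3
      refine this.congr (ae_of_all _ fun a => ?_)
      simp only [Pi.sub_apply]
      ring
    rw [integral_congr_ae (ae_of_all _ h3), integral_add hi4 hi3,
      integral_sub (hint1.const_mul 2) (integrable_const 1), integral_const_mul, hone]
    simp
    norm_num
  rw [h2]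
  have h4 : ∫ a, (f1R κ a - 1) ^ 2 ∂unif ≤ ∫ _a, 400 * κ ^ 4 ∂unif := by
    apply integral_mono_of_nonneg (ae_of_all _ fun a => sq_nonneg _) (integrable_const _)
    filter_upwards [unif_ae_mem] with a ha
    have h5 := f1R_bound κ hκ a ha
    calc (f1R κ a - 1) ^ 2 = |f1R κ a - 1| ^ 2 := (sq_abs _).symm
      _ ≤ (20 * κ ^ 2) ^ 2 := pow_le_pow_left₀ (abs_nonneg _) h5 2
      _ = 400 * κ ^ 4 := by ring
  rw [integral_const, probReal_univ, one_smul] at h4
  linarith

/-! ### Products -/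

variable {m : ℕ}

theorem f1_lintegral_pi (μ : Fin m → Measure ℝ) [∀ i, IsProbabilityMeasure (μ i)]
    (g : Fin m → ℝ → ℝ≥0∞) (hg : ∀ i, Measurable (g i)) :
    ∫⁻ a, ∏ i, g i (a i) ∂(Measure.pi μ) = ∏ i, ∫⁻ b, g i b ∂(μ i) := by
  have hind : ProbabilityTheory.iIndepFun (fun i (ω : Fin m → ℝ) => g i (ω i)) (Measure.pi μ) :=
    ProbabilityTheory.iIndepFun_pi (fun i => (hg i).aemeasurable)
  rw [ProbabilityTheory.lintegral_prod_eq_prod_lintegral_of_indepFun Finset.univ
    (fun i (ω : Fin m → ℝ) => g i (ω i)) hind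
    (fun i => (hg i).comp (measurable_pi_apply i))]
  refine Finset.prod_congr rfl fun i _ => ?_
  exact (measurePreserving_eval μ i).lintegral_comp (hg i)

theorem f1_pi_withDensity (g : Fin m → ℝ → ℝ≥0∞) (hg : ∀ i, Measurable (g i))
    (h1 : ∀ i, IsProbabilityMeasure (unif.withDensity (g i))) :
    Measure.pi (fun i => unif.withDensity (g i)) =
      (cubeM m).withDensity (fun a => ∏ i, g i (a i)) := by
  apply Measure.pi_eq
  intro s hs
  rw [withDensity_apply _ (MeasurableSet.univ_pi hs), ← lintegral_indicator (MeasurableSet.univ_pi hs)]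
  have h2 : (fun a : Fin m → ℝ => (univ.pi s).indicator (fun a => ∏ i, g i (a i)) a) =
      fun a => ∏ i, (s i).indicator (g i) (a i) := by
    funext a
    by_cases ha : a ∈ univ.pi s
    · rw [indicator_of_mem ha]
      refine Finset.prod_congr rfl fun i _ => ?_
      rw [indicator_of_mem (ha i (mem_univ i))]
    · rw [indicator_of_notMem ha]
      have : ∃ i, a i ∉ s i := by
        by_contra hcon
        push Not at hcon
        exact ha fun i _ => hcon i
      obtain ⟨i, hi⟩ := this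
      rw [Finset.prod_eq_zero (Finset.mem_univ i)]
      rw [indicator_of_notMem hi]
  rw [h2]
  unfold cubeM
  rw [f1_lintegral_pi _ _ fun i => (hg i).indicator (hs i)]
  refine Finset.prod_congr rfl fun i _ => ?_
  rw [lintegral_indicator (hs i), withDensity_apply _ (hs i)]

theorem f1_pmM_map (I : Finset (Fin m)) (κ : ℝ) (R : ℝ → ℝ)
    (hR : Measurable R)
    (hmap : (unif.prod rad).map (fun ω => ω.1 + ω.2 * κ * (1 - ω.1 ^ 2)) =
        unif.withDensity (fun a => ENNReal.ofReal (R a))) :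
    (pmM m).map (moved I κ) =
      (cubeM m).withDensity (fun a => ∏ i, (if i ∈ I then ENNReal.ofReal (R (a i)) else 1)) := by
  classical
  have hm : Measurable (fun ω : ℝ × ℝ => ω.1 + ω.2 * κ * (1 - ω.1 ^ 2)) := by fun_prop
  have hmi : ∀ i : Fin m, Measurable (fun ω : ℝ × ℝ =>
      if i ∈ I then ω.1 + ω.2 * κ * (1 - ω.1 ^ 2) else ω.1) := by
    intro i
    by_cases hi : i ∈ I
    · simp only [if_pos hi]; exact hm
    · simp only [if_neg hi]; exact measurable_fst
  have h1 : ∀ i : Fin m, (unif.prod rad).map (fun ω : ℝ × ℝ =>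
      if i ∈ I then ω.1 + ω.2 * κ * (1 - ω.1 ^ 2) else ω.1) =
      unif.withDensity (fun a => if i ∈ I then ENNReal.ofReal (R a) else 1) := by
    intro i
    by_cases hi : i ∈ I
    · simp only [if_pos hi]; exact hmap
    · simp only [if_neg hi]
      rw [Measure.map_fst_prod, measure_univ, one_smul]
      exact (withDensity_one).symm
  have hprob : ∀ i : Fin m, IsProbabilityMeasure ((unif.prod rad).map (fun ω : ℝ × ℝ =>
      if i ∈ I then ω.1 + ω.2 * κ * (1 - ω.1 ^ 2) else ω.1)) :=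
    fun i => Measure.isProbabilityMeasure_map (hmi i).aemeasurable
  have h2 : (pmM m).map (moved I κ) = Measure.pi (fun i : Fin m => (unif.prod rad).map
      (fun ω : ℝ × ℝ => if i ∈ I then ω.1 + ω.2 * κ * (1 - ω.1 ^ 2) else ω.1)) := by
    unfold pmM
    rw [← Measure.pi_map_pi (μ := fun _ : Fin m => unif.prod rad)
      (f := fun i (ω : ℝ × ℝ) => if i ∈ I then ω.1 + ω.2 * κ * (1 - ω.1 ^ 2) else ω.1)
      (fun i => (hmi i).aemeasurable)]
    rfl
  rw [h2]
  have h3 : (fun i : Fin m => (unif.prod rad).map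
      (fun ω : ℝ × ℝ => if i ∈ I then ω.1 + ω.2 * κ * (1 - ω.1 ^ 2) else ω.1)) =
      fun i => unif.withDensity (fun a => if i ∈ I then ENNReal.ofReal (R a) else 1) :=
    funext h1
  have hprob' : ∀ i : Fin m, IsProbabilityMeasure
      (unif.withDensity (fun a => if i ∈ I then ENNReal.ofReal (R a) else 1)) := by
    intro i; rw [← h1 i]; exact hprob i
  rw [h3, f1_pi_withDensity (fun i a => if i ∈ I then ENNReal.ofReal (R a) else 1) ?_ hprob']
  intro i
  by_cases hi : i ∈ I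
  · simp only [if_pos hi]; exact hR.ennreal_ofReal
  · simp only [if_neg hi]; exact measurable_const

theorem moved_measurable (I : Finset (Fin m)) (κ : ℝ) : Measurable (moved I κ) := by
  classical
  rw [measurable_pi_iff]
  intro i
  unfold moved
  by_cases hi : i ∈ I
  · simp only [if_pos hi]
    have h1 : Measurable (fun ω : Fin m → ℝ × ℝ => ω i) := measurable_pi_apply i
    have h2 : Measurable (fun p : ℝ × ℝ => p.1 + p.2 * κ * (1 - p.1 ^ 2)) := by fun_prop
    exact h2.comp h1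
  · simp only [if_neg hi]
    exact measurable_fst.comp (measurable_pi_apply i)

theorem moved_law (I : Finset (Fin m)) (κ : ℝ) (hκ : κ ∈ Icc (0 : ℝ) (1 / 8))
    (B : Set (ℝ × (Fin m → ℝ))) (hB : MeasurableSet B) :
    (nuM.prod (pmM m)).real {y | (y.1, moved I κ y.2) ∈ B} ≤
      Real.exp (200 * κ ^ 4 * I.card) * Real.sqrt ((mu m).real B) := by
  classical
  obtain ⟨R, hRm, hR0, hmap, hR2, hRi⟩ := moved_one κ hκ
  have hmm := moved_measurable I κ
  set G : (Fin m → ℝ) → ℝ≥0∞ := fun a => ∏ i, (if i ∈ I then ENNReal.ofReal (R (a i)) else 1)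
    with hG
  have hgi : ∀ i : Fin m, Measurable (fun b : ℝ => if i ∈ I then ENNReal.ofReal (R b) else 1) := by
    intro i
    by_cases hi : i ∈ I
    · simp only [if_pos hi]; exact hRm.ennreal_ofReal
    · simp only [if_neg hi]; exact measurable_const
  have hGm : Measurable G := by
    apply Finset.measurable_prod
    intro i _
    exact (hgi i).comp (measurable_pi_apply i)
  have hlaw : (nuM.prod (pmM m)) {y | (y.1, moved I κ y.2) ∈ B} =
      ∫⁻ p in B, G p.2 ∂(mu m) := by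
    have h1 : (nuM.prod (pmM m)) {y | (y.1, moved I κ y.2) ∈ B} =
        ((nuM.map id).prod ((pmM m).map (moved I κ))) B := by
      have : IsProbabilityMeasure ((pmM m).map (moved I κ)) :=
        Measure.isProbabilityMeasure_map hmm.aemeasurable
      rw [Measure.map_prod_map nuM (pmM m) measurable_id hmm,
        Measure.map_apply (measurable_id.prodMap hmm) hB]
      rfl
    rw [h1, Measure.map_id, f1_pmM_map I κ R hRm hmap]
    have : SFinite ((cubeM m).withDensity G) := inferInstance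
    rw [prod_withDensity_right hGm, withDensity_apply _ hB]
    rfl
  have hG2 : ∫⁻ p, (G p.2) ^ (2 : ℝ) ∂(mu m) ≤
      ENNReal.ofReal (Real.exp (400 * κ ^ 4 * I.card)) := by
    have h1 : ∫⁻ p, (G p.2) ^ (2 : ℝ) ∂(mu m) = ∫⁻ a, (G a) ^ (2 : ℝ) ∂(cubeM m) := by
      unfold mu
      have h2 := lintegral_map (μ := nuM.prod (cubeM m)) (f := fun a => (G a) ^ (2 : ℝ))
        (g := Prod.snd) (hGm.pow_const _) measurable_snd
      rw [Measure.map_snd_prod, measure_univ, one_smul] at h2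
      exact h2.symm
    rw [h1]
    have h3 : ∀ a, (G a) ^ (2 : ℝ) =
        ∏ i, (if i ∈ I then ENNReal.ofReal (R (a i)) else 1) ^ (2 : ℝ) := by
      intro a
      rw [hG]
      simp only
      exact (ENNReal.prod_rpow_of_nonneg (by norm_num)).symm
    simp only [h3]
    unfold cubeM
    rw [f1_lintegral_pi (fun _ => unif)
      (fun i b => (if i ∈ I then ENNReal.ofReal (R b) else 1) ^ (2 : ℝ))
      (fun i => (hgi i).pow_const _)]
    have h4 : ∀ i : Fin m, ∫⁻ b, (if i ∈ I then ENNReal.ofReal (R b) else 1) ^ (2 : ℝ) ∂unif ≤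
        if i ∈ I then ENNReal.ofReal (Real.exp (400 * κ ^ 4)) else 1 := by
      intro i
      by_cases hi : i ∈ I
      · simp only [if_pos hi]
        have h5 : ∀ b, ENNReal.ofReal (R b) ^ (2 : ℝ) = ENNReal.ofReal (R b ^ 2) := by
          intro b
          rw [ENNReal.ofReal_rpow_of_nonneg (hR0 b) (by norm_num)]
          norm_num
        simp only [h5]
        rw [← ofReal_integral_eq_lintegral_ofReal hRi (ae_of_all _ fun b => sq_nonneg _)]
        apply ENNReal.ofReal_le_ofReal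
        have := Real.add_one_le_exp (400 * κ ^ 4)
        linarith
      · simp only [if_neg hi]
        simp
    calc ∏ i, ∫⁻ b, (if i ∈ I then ENNReal.ofReal (R b) else 1) ^ (2 : ℝ) ∂unif
        ≤ ∏ i, (if i ∈ I then ENNReal.ofReal (Real.exp (400 * κ ^ 4)) else 1) :=
          Finset.prod_le_prod' fun i _ => h4 i
      _ = ENNReal.ofReal (Real.exp (400 * κ ^ 4)) ^ I.card := by
          rw [Finset.prod_ite_mem, Finset.univ_inter, Finset.prod_const]
      _ = ENNReal.ofReal (Real.exp (400 * κ ^ 4 * I.card)) := by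
          rw [← ENNReal.ofReal_pow (Real.exp_nonneg _), ← Real.exp_nat_mul]
          congr 2
          ring
  have hCS : ∫⁻ p in B, G p.2 ∂(mu m) ≤
      ENNReal.ofReal (Real.exp (200 * κ ^ 4 * I.card) * Real.sqrt ((mu m).real B)) := by
    have h1 : ∫⁻ p in B, G p.2 ∂(mu m) =
        ∫⁻ p, (((fun p => B.indicator (1 : ℝ × (Fin m → ℝ) → ℝ≥0∞) p) *
          (fun p : ℝ × (Fin m → ℝ) => G p.2)) p) ∂(mu m) := by
      rw [← lintegral_indicator hB]
      refine lintegral_congr fun p => ?_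
      by_cases hp : p ∈ B
      · simp [indicator_of_mem hp]
      · simp [indicator_of_notMem hp]
    rw [h1]
    refine (ENNReal.lintegral_mul_le_Lp_mul_Lq (mu m) (p := 2) (q := 2)
      (Real.holderConjugate_iff.2 ⟨by norm_num, by norm_num⟩)
      (measurable_one.indicator hB).aemeasurable
      (hGm.comp measurable_snd).aemeasurable).trans ?_
    have h2 : ∫⁻ p, (B.indicator (1 : ℝ × (Fin m → ℝ) → ℝ≥0∞) p) ^ (2 : ℝ) ∂(mu m) =
        ENNReal.ofReal ((mu m).real B) := by
      rw [ofReal_measureReal]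
      rw [← lintegral_indicator_one hB]
      refine lintegral_congr fun p => ?_
      by_cases hp : p ∈ B
      · simp [indicator_of_mem hp]
      · simp [indicator_of_notMem hp]
    rw [h2, mul_comm, ENNReal.ofReal_mul (Real.exp_nonneg _)]
    refine mul_le_mul' ?_ ?_
    · calc (∫⁻ p, (G p.2) ^ (2 : ℝ) ∂(mu m)) ^ (1 / (2 : ℝ))
          ≤ (ENNReal.ofReal (Real.exp (400 * κ ^ 4 * I.card))) ^ (1 / (2 : ℝ)) :=
            ENNReal.rpow_le_rpow hG2 (by norm_num)
        _ = ENNReal.ofReal (Real.exp (200 * κ ^ 4 * I.card)) := by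
            rw [ENNReal.ofReal_rpow_of_nonneg (Real.exp_nonneg _) (by norm_num),
              ← Real.exp_mul]
            congr 2
            ring
    · rw [ENNReal.ofReal_rpow_of_nonneg measureReal_nonneg (by norm_num),
        ← Real.sqrt_eq_rpow]
  unfold Measure.real at hCS ⊢
  rw [hlaw]
  exact ENNReal.toReal_le_of_le_ofReal (by positivity) hCS

end IsoHull
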