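import Pool.Agent.IsoHull27.Basic

/-!
# IsoHull27, package F2: the increment of `± θ` (MP_b478d8_an)
-/

open MeasureTheory Set Filter Topology ProbabilityTheory
open scoped ENNReal NNReal

namespace IsoHull

/-- the one-coordinate increment -/
private noncomputable def F2Y (q κ : ℝ) (p : ℝ × ℝ) : ℝ :=
  cf q (p.1 + p.2 * κ * (1 - p.1 ^ 2)) - cf q p.1

private lemma F2_cont (q κ : ℝ) : Continuous (F2Y q κ) := by
  unfold F2Y
  have := cf_cont q
  fun_prop

private lemma F2_sin {q : ℝ} (hq : q ∈ Ioc (0 : ℝ) (1 / 2)) :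
    0 < Real.sin q ∧ Real.sin q ≤ q ∧ 9 / 10 * q ≤ Real.sin q := by
  obtain ⟨h0, h1⟩ := hq
  refine ⟨Real.sin_pos_of_pos_of_lt_pi h0 (by linarith [Real.pi_gt_three]), Real.sin_le h0.le, ?_⟩
  have h2 := Real.sin_bound (x := q) (by rw [abs_of_pos h0]; linarith)
  rw [abs_of_pos h0] at h2
  have h3 := (abs_le.mp h2).1
  have h4 : q ^ 3 ≤ q * (1 / 4) := by nlinarith [mul_pos h0 h0]
  have h5 : q ^ 5 ≤ q * (1 / 16) := by
    have : q ^ 5 = q ^ 3 * q ^ 2 := by ring
    nlinarith [mul_pos h0 h0, pow_pos h0 3]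
  linarith

private lemma F2_lip {q : ℝ} (hq : q ∈ Ioc (0 : ℝ) (1 / 2)) (x y : ℝ) :
    |cf q x - cf q y| ≤ |x - y| := by
  obtain ⟨h1, h2, h3⟩ := F2_sin hq
  have h4 : cf q x - cf q y = (q / (2 * Real.sin q)) * (Real.cos (q * y) - Real.cos (q * x)) := by
    unfold cf; ring
  have h5 : |Real.cos (q * y) - Real.cos (q * x)| ≤ |q * y - q * x| :=
    Real.abs_cos_sub_cos_le _ _
  have h6 : 0 ≤ q / (2 * Real.sin q) := div_nonneg hq.1.le (by linarith)
  have h7 : q / (2 * Real.sin q) ≤ 1 := by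
    rw [div_le_one (by linarith)]; linarith [hq.1]
  rw [h4, abs_mul, abs_of_nonneg h6]
  have h8 : |q * y - q * x| = q * |x - y| := by
    rw [← mul_sub, abs_mul, abs_of_pos hq.1, abs_sub_comm]
  rw [h8] at h5
  calc q / (2 * Real.sin q) * |Real.cos (q * y) - Real.cos (q * x)|
      ≤ 1 * (q * |x - y|) := by gcongr
    _ ≤ |x - y| := by nlinarith [abs_nonneg (x - y), hq.2]

private lemma F2_bdd {q : ℝ} (hq : q ∈ Ioc (0 : ℝ) (1 / 2)) (κ : ℝ) (p : ℝ × ℝ) :
    ‖F2Y q κ p‖ ≤ 2 := by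
  obtain ⟨h1, h2, h3⟩ := F2_sin hq
  have h6 : 0 ≤ q / (2 * Real.sin q) := div_nonneg hq.1.le (by linarith)
  have h7 : q / (2 * Real.sin q) ≤ 1 := by
    rw [div_le_one (by linarith)]; linarith [hq.1]
  have h8 : ∀ x, |cf q x| ≤ 1 := by
    intro x
    unfold cf
    rw [abs_mul, abs_neg, abs_of_nonneg h6]
    have := Real.abs_cos_le_one (q * x)
    nlinarith [abs_nonneg (Real.cos (q * x))]
  unfold F2Y
  rw [Real.norm_eq_abs]
  refine (abs_sub _ _).trans ?_
  linarith [h8 (p.1 + p.2 * κ * (1 - p.1 ^ 2)), h8 p.1]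

private lemma F2_memLp {q : ℝ} (hq : q ∈ Ioc (0 : ℝ) (1 / 2)) (κ : ℝ) (e : ℝ≥0∞) :
    MemLp (F2Y q κ) e (unif.prod rad) :=
  MemLp.of_bound (F2_cont q κ).aestronglyMeasurable 2 (ae_of_all _ (F2_bdd hq κ))

private lemma F2_rad (f : ℝ → ℝ) : ∫ x, f x ∂rad = (f 1 + f (-1)) / 2 := by
  unfold rad
  rw [integral_smul_measure, integral_add_measure, integral_dirac, integral_dirac]
  · simp
    ring
  · exact integrable_dirac (by simp)
  · exact integrable_dirac (by simp)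

private lemma F2_unif (f : ℝ → ℝ) : ∫ x, f x ∂unif = (∫ x in (-1 : ℝ)..1, f x) / 2 := by
  unfold unif
  rw [integral_smul_measure, intervalIntegral.integral_of_le (by norm_num),
    integral_Icc_eq_integral_Ioc]
  simp
  ring

private lemma F2_int_sq {q : ℝ} (hq : q ∈ Ioc (0 : ℝ) (1 / 2)) {κ : ℝ} (hκ0 : 0 ≤ κ) :
    ∫ p, F2Y q κ p ^ 2 ∂(unif.prod rad) ≤ κ ^ 2 := by
  rw [integral_prod _ (F2_memLp hq κ 2).integrable_sq]
  have h1 : ∀ a, ∫ y, F2Y q κ (a, y) ^ 2 ∂rad = (F2Y q κ (a, 1) ^ 2 + F2Y q κ (a, -1) ^ 2) / 2 :=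
    fun a => F2_rad (fun y => F2Y q κ (a, y) ^ 2)
  simp_rw [h1]
  have h2 : ∀ a ∈ Icc (-1 : ℝ) 1, ∀ y : ℝ, |y| = 1 → F2Y q κ (a, y) ^ 2 ≤ κ ^ 2 := by
    intro a ha y hy
    have h3 : |F2Y q κ (a, y)| ≤ κ := by
      unfold F2Y
      refine (F2_lip hq _ _).trans ?_
      simp only [add_sub_cancel_left]
      rw [abs_mul, abs_mul, hy, one_mul, abs_of_nonneg hκ0]
      have h4 : |1 - a ^ 2| ≤ 1 := by
        have := abs_le.mpr ha
        rw [abs_le]
        constructor <;> nlinarith [sq_abs a, abs_nonneg a, sq_nonneg a]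
      nlinarith
    have h5 := sq_abs (F2Y q κ (a, y))
    rw [← h5]
    gcongr
  have h6 : ∫ a, (F2Y q κ (a, 1) ^ 2 + F2Y q κ (a, -1) ^ 2) / 2 ∂unif ≤ ∫ _a, κ ^ 2 ∂unif := by
    refine integral_mono_of_nonneg (ae_of_all _ fun a => by positivity) (integrable_const _) ?_
    filter_upwards [unif_ae_mem] with a ha
    have h7 := h2 a ha 1 (by simp)
    have h8 := h2 a ha (-1) (by simp)
    linarith
  refine h6.trans (le_of_eq ?_)
  rw [integral_const]
  simp

private lemma F2_int_quartic : ∫ a, (1 - a ^ 2) ^ 2 ∂unif = 8 / 15 := by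
  rw [F2_unif]
  have h1 : ∀ x : ℝ, (1 - x ^ 2) ^ 2 = 1 - 2 * x ^ 2 + x ^ 4 := fun x => by ring
  simp_rw [h1]
  rw [intervalIntegral.integral_add, intervalIntegral.integral_sub,
    intervalIntegral.integral_const_mul, integral_pow, integral_pow]
  · norm_num
  all_goals exact (by fun_prop : Continuous _).intervalIntegrable _ _

private lemma F2_int {q : ℝ} (hq : q ∈ Ioc (0 : ℝ) (1 / 2)) {κ : ℝ} (hκ0 : 0 ≤ κ)
    (hκ : κ ≤ 1 / 8) :
    11 / 100 * q ^ 2 * κ ^ 2 ≤ ∫ p, F2Y q κ p ∂(unif.prod rad) := by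
  obtain ⟨hs1, hs2, hs3⟩ := F2_sin hq
  rw [integral_prod _ ((F2_memLp hq κ 2).integrable (by norm_num))]
  have h1 : ∀ a, ∫ y, F2Y q κ (a, y) ∂rad
      = (q / (2 * Real.sin q)) * (Real.cos (q * a) * (1 - Real.cos (q * (κ * (1 - a ^ 2))))) := by
    intro a
    rw [F2_rad (fun y => F2Y q κ (a, y))]
    unfold F2Y cf
    have h2 : q * (a + 1 * κ * (1 - a ^ 2)) = q * a + q * (κ * (1 - a ^ 2)) := by ring
    have h3 : q * (a + -1 * κ * (1 - a ^ 2)) = q * a - q * (κ * (1 - a ^ 2)) := by ring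
    simp only
    rw [h2, h3, Real.cos_add, Real.cos_sub]
    ring
  simp_rw [h1]
  have h2 : ∫ a, 11 / 100 * (15 / 8) * q ^ 2 * κ ^ 2 * (1 - a ^ 2) ^ 2 ∂unif
      = 11 / 100 * q ^ 2 * κ ^ 2 := by
    rw [integral_const_mul, F2_int_quartic]
    ring
  rw [← h2]
  refine integral_mono_of_nonneg (ae_of_all _ fun a => by positivity) ?_ ?_
  · refine Integrable.const_mul ?_ _
    refine Integrable.of_bound (C := 2) (by fun_prop) (ae_of_all _ fun a => ?_)
    rw [Real.norm_eq_abs, abs_mul]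
    have h3 := Real.abs_cos_le_one (q * a)
    have h4 : |1 - Real.cos (q * (κ * (1 - a ^ 2)))| ≤ 2 := by
      refine (abs_sub _ _).trans ?_
      have := Real.abs_cos_le_one (q * (κ * (1 - a ^ 2)))
      rw [abs_one]; linarith
    calc |Real.cos (q * a)| * |1 - Real.cos (q * (κ * (1 - a ^ 2)))| ≤ 1 * 2 := by gcongr
      _ = 2 := by norm_num
  · filter_upwards [unif_ae_mem] with a ha
    have ha2 : a ^ 2 ≤ 1 := by
      have := abs_le.mpr ha
      nlinarith [sq_abs a, abs_nonneg a]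
    set d : ℝ := 1 - a ^ 2 with hd
    have hd0 : 0 ≤ d := by linarith
    have hd1 : d ≤ 1 := by nlinarith [sq_nonneg a]
    have h3 : 7 / 8 ≤ Real.cos (q * a) := by
      have h4 := Real.one_sub_sq_div_two_le_cos (x := q * a)
      have h5 : (q * a) ^ 2 ≤ 1 / 4 := by
        have : (q * a) ^ 2 = q ^ 2 * a ^ 2 := by ring
        rw [this]
        have h6 : q ^ 2 ≤ 1 / 4 := by nlinarith [hq.1, hq.2]
        nlinarith [sq_nonneg a, sq_nonneg q]
      linarith
    set x : ℝ := q * (κ * d) with hx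
    have hx0 : 0 ≤ x := mul_nonneg hq.1.le (mul_nonneg hκ0 hd0)
    have hx1 : x ≤ 1 / 16 := by
      have h6 : κ * d ≤ 1 / 8 := by nlinarith
      have h7 : 0 ≤ κ * d := mul_nonneg hκ0 hd0
      rw [hx]
      nlinarith [hq.1, hq.2]
    have h4 : 49 / 100 * x ^ 2 ≤ 1 - Real.cos x := by
      have h5 := Real.cos_bound (x := x) (by rw [abs_of_nonneg hx0]; linarith)
      rw [abs_of_nonneg hx0] at h5
      have h6 := (abs_le.mp h5).2
      have h7 : x ^ 4 ≤ x ^ 2 * (1 / 256) := by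
        have h8 : x ^ 2 ≤ 1 / 256 := by nlinarith
        have h9 : x ^ 4 = x ^ 2 * x ^ 2 := by ring
        rw [h9]
        gcongr
      nlinarith [sq_nonneg x]
    have h5 : 1 / 2 ≤ q / (2 * Real.sin q) := by
      rw [le_div_iff₀ (by linarith)]; linarith
    have h6 : 0 ≤ 49 / 100 * x ^ 2 := by positivity
    calc 11 / 100 * (15 / 8) * q ^ 2 * κ ^ 2 * d ^ 2 = 11 / 100 * (15 / 8) * x ^ 2 := by
          rw [hx]; ring
      _ ≤ 1 / 2 * (7 / 8 * (49 / 100 * x ^ 2)) := by nlinarith [sq_nonneg x]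
      _ ≤ q / (2 * Real.sin q) * (Real.cos (q * a) * (1 - Real.cos x)) := by gcongr

variable {m : ℕ} (P : Par m) (q : ℝ)

private lemma F2_card (s : ℝ) (hs : s = 1 ∨ s = -1) (I : Finset (Fin m))
    (hI : ∀ i, i ∈ I ↔ P.σ i = s) : (I.card : ℝ) = P.r ^ 2 := by
  have hc : Iᶜ = I.map P.e.toEmbedding := by
    ext i
    rw [Finset.mem_compl, Finset.mem_map_equiv, hI, hI]
    have h1 := P.he (P.e.symm i)
    rw [Equiv.apply_symm_apply] at h1
    have h2 : P.σ (P.e.symm i) = - P.σ i := by linarith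
    rw [h2]
    rcases P.hσ i with h3 | h3 <;> rcases hs with h4 | h4 <;> rw [h3, h4] <;> norm_num
  replace hc : Iᶜ.card = I.card := by rw [hc, Finset.card_map]
  have h2 := Finset.card_add_card_compl I
  rw [hc, Fintype.card_fin] at h2
  have h3 : (I.card : ℝ) + I.card = m := by exact_mod_cast h2
  rw [P.hm] at h3
  linarith

/-- F2 : the increment of `± θ` -/
theorem increment (hq : q ∈ Ioc (0 : ℝ) (1 / 2)) (s : ℝ) (hs : s = 1 ∨ s = -1) (I : Finset (Fin m))
    (hI : ∀ i, i ∈ I ↔ P.σ i = s) (k₀ : ℝ) (hk : 0 ≤ k₀) (hκ : k₀ / Real.sqrt P.r ≤ 1 / 8) :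
    (pmM m).real {ω | s * (P.theta q (moved I (k₀ / Real.sqrt P.r) ω) - P.theta q fun i => (ω i).1) ≤
      11 / 100 * q ^ 2 * k₀ ^ 2 - 1} ≤ k₀ ^ 2 / P.r := by
  have hr := P.r_pos
  set κ : ℝ := k₀ / Real.sqrt P.r with hκd
  have hκ0 : 0 ≤ κ := div_nonneg hk (Real.sqrt_nonneg _)
  have hκ2 : κ ^ 2 = k₀ ^ 2 / P.r := by
    rw [hκd, div_pow, Real.sq_sqrt hr.le]
  have hcard := F2_card P s hs I hI
  -- the variables
  set X : Fin m → ℝ × ℝ → ℝ := fun i p => if i ∈ I then F2Y q κ p else 0 with hX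
  have hXm : ∀ i, MemLp (X i) 2 (unif.prod rad) := by
    intro i
    by_cases h : i ∈ I
    · have : X i = F2Y q κ := by funext p; simp [hX, h]
      rw [this]
      exact F2_memLp hq κ 2
    · have : X i = fun _ => 0 := by funext p; simp [hX, h]
      rw [this]
      exact MemLp.zero'
  set T : (Fin m → ℝ × ℝ) → ℝ := ∑ i, fun ω => X i (ω i) with hT
  have hTm : MemLp T 2 (pmM m) := by
    rw [hT]
    refine memLp_finsetSum' _ fun i _ => ?_
    exact (hXm i).comp_measurePreserving (measurePreserving_eval _ i)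
  have hsum : ∀ c : ℝ, ∑ i, (if i ∈ I then c else 0) = P.r ^ 2 * c := by
    intro c
    rw [Finset.sum_ite_mem, Finset.univ_inter, Finset.sum_const, nsmul_eq_mul, hcard]
  have hmean : 11 / 100 * q ^ 2 * k₀ ^ 2 * P.r ≤ ∫ ω, T ω ∂(pmM m) := by
    have h1 : ∫ ω, T ω ∂(pmM m) = ∑ i, ∫ p, X i p ∂(unif.prod rad) := by
      rw [hT]
      simp only [Finset.sum_apply]
      rw [integral_finsetSum]
      · refine Finset.sum_congr rfl fun i _ => ?_
        exact integral_comp_eval (μ := fun _ : Fin m => unif.prod rad) (hXm i).1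
      · intro i _
        exact ((hXm i).comp_measurePreserving
          (measurePreserving_eval (fun _ : Fin m => unif.prod rad) i)).integrable (by norm_num)
    have h2 : ∀ i, ∫ p, X i p ∂(unif.prod rad)
        = if i ∈ I then ∫ p, F2Y q κ p ∂(unif.prod rad) else 0 := by
      intro i
      by_cases h : i ∈ I <;> simp [hX, h]
    rw [h1]
    simp_rw [h2]
    rw [hsum]
    have h3 := F2_int hq hκ0 hκ
    have h4 : 11 / 100 * q ^ 2 * k₀ ^ 2 * P.r = P.r ^ 2 * (11 / 100 * q ^ 2 * κ ^ 2) := by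
      rw [hκ2]; field_simp
    rw [h4]
    gcongr
  have hvar : variance T (pmM m) ≤ P.r ^ 2 * κ ^ 2 := by
    rw [hT]
    unfold pmM
    rw [variance_sum_pi hXm]
    rw [← hsum]
    refine Finset.sum_le_sum fun i _ => ?_
    by_cases h : i ∈ I
    · rw [if_pos h]
      refine (variance_le_expectation_sq (hXm i).1).trans ?_
      have : X i = F2Y q κ := by funext p; simp [hX, h]
      rw [this]
      exact F2_int_sq hq hκ0
    · rw [if_neg h]
      have : X i = 0 := by funext p; simp [hX, h]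
      rw [this, variance_zero]
  -- the increment
  have hinc : ∀ ω : Fin m → ℝ × ℝ,
      s * (P.theta q (moved I κ ω) - P.theta q fun i => (ω i).1) = T ω / P.r := by
    intro ω
    have h1 : T ω = ∑ i, X i (ω i) := by rw [hT]; simp only [Finset.sum_apply]
    rw [h1]
    unfold Par.theta
    rw [← sub_div, ← Finset.sum_sub_distrib, mul_div_assoc', Finset.mul_sum]
    congr 1
    refine Finset.sum_congr rfl fun i _ => ?_
    by_cases h : i ∈ I
    · have h2 := (hI i).mp h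
      have h3 : s * s = 1 := by rcases hs with h | h <;> rw [h] <;> norm_num
      simp only [hX, if_pos h, moved, h2, F2Y]
      linear_combination (cf q ((ω i).1 + (ω i).2 * κ * (1 - (ω i).1 ^ 2)) - cf q (ω i).1) * h3
    · simp only [hX, if_neg h, moved]
      ring
  have hsub : {ω : Fin m → ℝ × ℝ |
      s * (P.theta q (moved I κ ω) - P.theta q fun i => (ω i).1) ≤
        11 / 100 * q ^ 2 * k₀ ^ 2 - 1} ⊆ {ω | P.r ≤ |T ω - ∫ ω, T ω ∂(pmM m)|} := by
    intro ω hω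
    simp only [mem_ofPred_eq] at hω ⊢
    rw [hinc ω, div_le_iff₀ hr] at hω
    rw [le_abs]
    right
    linarith
  have hch := meas_ge_le_variance_div_sq hTm hr
  have h5 : (pmM m).real {ω | P.r ≤ |T ω - ∫ ω, T ω ∂(pmM m)|} ≤ variance T (pmM m) / P.r ^ 2 := by
    rw [Measure.real]
    exact ENNReal.toReal_le_of_le_ofReal (div_nonneg (variance_nonneg _ _) (sq_nonneg _)) hch
  calc _ ≤ (pmM m).real {ω | P.r ≤ |T ω - ∫ ω, T ω ∂(pmM m)|} := measureReal_mono hsub
    _ ≤ variance T (pmM m) / P.r ^ 2 := h5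
    _ ≤ P.r ^ 2 * κ ^ 2 / P.r ^ 2 := by gcongr
    _ = k₀ ^ 2 / P.r := by rw [hκ2]; field_simp

end IsoHull
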