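import Pool.Agent.IsoHull27.C1
import Pool.Agent.IsoHull27.C2
import Pool.Agent.IsoHull27.D3a
import Pool.Agent.IsoHull27.F1
import Pool.Agent.IsoHull27.F2

/-!
# IsoHull27, part F3: the hull step (MP_b478d8_an), helper3
-/

open MeasureTheory Set Filter Topology
open scoped ENNReal NNReal

namespace IsoHull

/-- almost every point of `E` is in the canonical representative -/
theorem F3_canon {n : ℕ} (Ω E : Set (Eu n)) (hE : MeasurableSet E) (hEΩ : E ⊆ Ω) :
    volume (E \ canon Ω E) = 0 := by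
  have h := Besicovitch.ae_tendsto_measure_inter_div (volume : Measure (Eu n)) E
  rw [ae_restrict_iff' hE] at h
  have h2 : ∀ᵐ x ∂(volume : Measure (Eu n)), x ∉ E \ canon Ω E := by
    filter_upwards [h] with x hx hx2
    apply hx2.2
    refine ⟨hEΩ hx2.1, (hx hx2.1).congr' ?_⟩
    filter_upwards [self_mem_nhdsWithin] with r hr
    have hr' : r ≠ 0 := ne_of_gt hr
    have hs : volume (Metric.sphere x r) = 0 := Measure.addHaar_sphere_of_ne_zero volume x hr'
    have hball : (Metric.closedBall x r : Set (Eu n)) =ᵐ[volume] Metric.ball x r := by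
      rw [ae_eq_set]
      constructor
      · refine measure_mono_null (fun y hy => ?_) hs
        have h1 := Metric.mem_closedBall.1 hy.1
        have h2 : ¬ dist y x < r := fun h => hy.2 (Metric.mem_ball.2 h)
        exact Metric.mem_sphere.2 (le_antisymm h1 (not_lt.1 h2))
      · rw [Set.sdiff_eq_empty.2 Metric.ball_subset_closedBall, measure_empty]
    rw [measure_congr hball, measure_congr ((ae_eq_refl E).inter hball)]
  rw [ae_iff] at h2
  have h3 : {a | ¬ a ∉ E \ canon Ω E} = E \ canon Ω E := by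
    ext a; simp
  rwa [h3] at h2

theorem F3_phi_cont (M : ℕ) (q : ℝ) : Continuous (phi M q) := by
  unfold phi
  refine (PiLp.continuous_toLp 2 _).comp ?_
  refine continuous_pi fun i => ?_
  refine Fin.cases ?_ (fun j => ?_) i
  · simpa using continuous_fst
  · simp only [Fin.cons_succ]
    fun_prop

/-- `φ(p)` is the midpoint of `φ(q⁺)` and `φ(q⁻)` -/
theorem F3_mid (M : ℕ) (q : ℝ) (I : Finset (Fin (2 * M ^ 8))) (κ x : ℝ)
    (ω : Fin (2 * M ^ 8) → ℝ × ℝ) :
    phi M q (x, fun i => (ω i).1) =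
      (1 / 2 : ℝ) • phi M q (x, moved I κ ω) + (1 / 2 : ℝ) • phi M q (x, moved I (-κ) ω) := by
  ext i
  refine Fin.cases ?_ (fun j => ?_) i
  · simp [phi]
    ring
  · simp only [phi, moved, PiLp.add_apply, PiLp.smul_apply, smul_eq_mul, Fin.cons_succ]
    split_ifs <;> ring

theorem F3_mem_hull (M : ℕ) (q : ℝ) (E : Set (Eu (2 * M ^ 8 + 1))) (I : Finset (Fin (2 * M ^ 8)))
    (κ x : ℝ) (ω : Fin (2 * M ^ 8) → ℝ × ℝ)
    (h1 : phi M q (x, moved I κ ω) ∈ canon (dom M q) E)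
    (h2 : phi M q (x, moved I (-κ) ω) ∈ canon (dom M q) E) :
    phi M q (x, fun i => (ω i).1) ∈ hull (dom M q) E := by
  rw [F3_mid M q I κ x ω]
  have hc : Convex ℝ (hull (dom M q) E) := convex_convexHull ℝ _
  exact hc (subset_convexHull ℝ _ h1) (subset_convexHull ℝ _ h2) (by norm_num) (by norm_num)
    (by norm_num)

theorem F3_rad_neg : rad.map (fun x : ℝ => -x) = rad := by
  unfold rad
  have h : ∀ a : ℝ, (Measure.dirac a).map (fun x : ℝ => -x) = Measure.dirac (-a) := fun a =>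
    Measure.map_dirac' measurable_neg a
  rw [Measure.map_smul, Measure.map_add _ _ measurable_neg, h, h, neg_neg, add_comm]

theorem F3_flip (m : ℕ) :
    MeasurePreserving (fun (ω : Fin m → ℝ × ℝ) (i : Fin m) => ((ω i).1, -(ω i).2))
      (pmM m) (pmM m) := by
  refine ⟨by fun_prop, ?_⟩
  unfold pmM
  have hone : (unif.prod rad).map (fun p : ℝ × ℝ => (p.1, -p.2)) = unif.prod rad := by
    have := Measure.map_prod_map unif rad (f := id) (g := fun x : ℝ => -x) measurable_id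
      measurable_neg
    rw [F3_rad_neg, Measure.map_id] at this
    exact this.symm
  have h := Measure.pi_map_pi (μ := fun _ : Fin m => unif.prod rad)
    (f := fun (_ : Fin m) (p : ℝ × ℝ) => (p.1, -p.2)) (fun _ => by
      have : Measurable (fun p : ℝ × ℝ => (p.1, -p.2)) := by fun_prop
      exact this.aemeasurable)
  rw [h]
  simp only [hone]

theorem F3_fst (m : ℕ) :
    MeasurePreserving (fun (ω : Fin m → ℝ × ℝ) (i : Fin m) => (ω i).1) (pmM m) (cubeM m) := by
  refine ⟨by fun_prop, ?_⟩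
  unfold pmM cubeM
  have h := Measure.pi_map_pi (μ := fun _ : Fin m => unif.prod rad)
    (f := fun (_ : Fin m) (p : ℝ × ℝ) => p.1) (fun _ => measurable_fst.aemeasurable)
  rw [h]
  have hone : (unif.prod rad).map (fun p : ℝ × ℝ => p.1) = unif := by
    rw [Measure.map_fst_prod]; simp
  simp only [hone]

theorem F3_moved_flip {m : ℕ} (I : Finset (Fin m)) (κ : ℝ) (ω : Fin m → ℝ × ℝ) :
    moved I κ (fun i => ((ω i).1, -(ω i).2)) = moved I (-κ) ω := by
  funext i
  unfold moved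
  split_ifs <;> ring

theorem F3_moved_meas {m : ℕ} (I : Finset (Fin m)) (κ : ℝ) :
    Measurable (fun ω : Fin m → ℝ × ℝ => moved I κ ω) := by
  refine measurable_pi_iff.2 fun i => ?_
  unfold moved
  by_cases h : i ∈ I
  · simp only [h, if_true]; fun_prop
  · simp only [h, if_false]; fun_prop

/-- Gaussian tail -/
theorem F3_tail (L : ℝ) (hL : 0 < L) : nuM.real {x : ℝ | x ≤ -L} ≤ Real.exp (-L ^ 2) := by
  have h1 : nuM {x : ℝ | x ≤ -L} ≤ ENNReal.ofReal (Real.exp (-L ^ 2)) := by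
    unfold nuM
    have hms : MeasurableSet {x : ℝ | x ≤ -L} := measurableSet_Iic
    rw [withDensity_apply _ hms]
    have h2 : ∀ x ∈ {x : ℝ | x ≤ -L}, ENNReal.ofReal (nu0 x) ≤
        ENNReal.ofReal (Real.exp (-L ^ 2)) * ENNReal.ofReal (nu0 (x + L)) := by
      intro x hx
      have hx' : x ≤ -L := hx
      rw [← ENNReal.ofReal_mul (Real.exp_nonneg _)]
      apply ENNReal.ofReal_le_ofReal
      unfold nu0
      rw [← mul_div_assoc, ← Real.exp_add]
      apply div_le_div_of_nonneg_right _ (Real.sqrt_nonneg _)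
      apply Real.exp_le_exp.2
      nlinarith
    calc ∫⁻ x in {x : ℝ | x ≤ -L}, ENNReal.ofReal (nu0 x)
        ≤ ∫⁻ x in {x : ℝ | x ≤ -L}, ENNReal.ofReal (Real.exp (-L ^ 2)) *
            ENNReal.ofReal (nu0 (x + L)) := setLIntegral_mono' hms h2
      _ ≤ ∫⁻ x, ENNReal.ofReal (Real.exp (-L ^ 2)) * ENNReal.ofReal (nu0 (x + L)) :=
          setLIntegral_le_lintegral _ _
      _ = ENNReal.ofReal (Real.exp (-L ^ 2)) * ∫⁻ x, ENNReal.ofReal (nu0 (x + L)) := by
          rw [lintegral_const_mul]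
          have := nu0_cont
          fun_prop
      _ = ENNReal.ofReal (Real.exp (-L ^ 2)) * ∫⁻ x, ENNReal.ofReal (nu0 x) := by
          rw [lintegral_add_right_eq_self (fun x => ENNReal.ofReal (nu0 x)) L]
      _ = ENNReal.ofReal (Real.exp (-L ^ 2)) := by
          rw [← ofReal_integral_eq_lintegral_ofReal nu0_integrable (ae_of_all _ nu0_nonneg),
            nu0_integral]
          simp
  exact ENNReal.toReal_le_of_le_ofReal (Real.exp_nonneg _) h1

theorem F3_nuM_neg : nuM.map (fun x : ℝ => -x) = nuM := by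
  ext s hs
  rw [Measure.map_apply measurable_neg hs]
  unfold nuM
  rw [withDensity_apply _ hs, withDensity_apply _ (measurable_neg hs)]
  rw [← lintegral_indicator hs, ← lintegral_indicator (measurable_neg hs)]
  rw [← lintegral_neg_eq_self (fun x => s.indicator (fun x => ENNReal.ofReal (nu0 x)) x)]
  refine lintegral_congr fun x => ?_
  have : nu0 (-x) = nu0 x := by simp [nu0]
  by_cases hx : -x ∈ s
  · rw [indicator_of_mem hx, indicator_of_mem (show x ∈ (fun x : ℝ => -x) ⁻¹' s from hx), this]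
  · rw [indicator_of_notMem hx, indicator_of_notMem (show x ∉ (fun x : ℝ => -x) ⁻¹' s from hx)]

theorem F3_tail_sign (s L : ℝ) (hs : s = 1 ∨ s = -1) (hL : 0 < L) :
    nuM.real {x : ℝ | s * x ≤ -L} ≤ Real.exp (-L ^ 2) := by
  rcases hs with rfl | rfl
  · simpa using F3_tail L hL
  · have h1 := F3_tail L hL
    have h2 : nuM.real {x : ℝ | -1 * x ≤ -L} = nuM.real {x : ℝ | x ≤ -L} := by
      have hms : MeasurableSet {x : ℝ | x ≤ -L} := measurableSet_Iic
      conv_rhs => rw [← F3_nuM_neg]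
      rw [map_measureReal_apply measurable_neg hms]
      congr 1
      ext x
      simp
    rw [h2]; exact h1

theorem F3_exp_bound (q : ℝ) (hq : 0 < q) : 2 * Real.exp (-(9 * (1 : ℝ) ^ 2 / q ^ 4)) ≤ q ^ 4 := by
  have h4 : 0 < q ^ 4 := by positivity
  have h1 : 9 / q ^ 4 ≤ Real.exp (9 / q ^ 4) := by
    have := Real.add_one_le_exp (9 / q ^ 4)
    linarith
  have h2 : Real.exp (-(9 * (1 : ℝ) ^ 2 / q ^ 4)) ≤ q ^ 4 / 9 := by
    rw [one_pow, mul_one, Real.exp_neg]
    rw [inv_le_comm₀ (Real.exp_pos _) (by positivity)]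
    rw [inv_div]
    exact h1
  linarith

/-- the probability that the moved point does not satisfy `F ∈ H` -/
theorem F3_prob {m : ℕ} (P : Par m) (q : ℝ) (hq : q ∈ Ioc (0 : ℝ) (1 / 2)) (t₀ L k₀ : ℝ)
    (hL : 0 < L) (s : ℝ) (hs : s = 1 ∨ s = -1) (I : Finset (Fin m))
    (hI : ∀ i, i ∈ I ↔ P.σ i = s) (hk : 0 ≤ k₀) (hκ : k₀ / Real.sqrt P.r ≤ 1 / 8)
    (hK : t₀ + L + 2 ≤ 11 / 100 * q ^ 2 * k₀ ^ 2) :
    (nuM.prod (pmM m)).real {y | s * P.F q (y.1, moved I (k₀ / Real.sqrt P.r) y.2) ≤ t₀} ≤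
      Real.exp (-L ^ 2) + q ^ 4 + k₀ ^ 2 / P.r := by
  set κ := k₀ / Real.sqrt P.r with hκdef
  set A1 : Set (ℝ × (Fin m → ℝ × ℝ)) := {y | s * y.1 ≤ -L} with hA1
  set A2 : Set (ℝ × (Fin m → ℝ × ℝ)) := {y | 1 ≤ |P.theta q fun i => (y.2 i).1|} with hA2
  set A3 : Set (ℝ × (Fin m → ℝ × ℝ)) := {y | s * (P.theta q (moved I κ y.2) -
    P.theta q fun i => (y.2 i).1) ≤ 11 / 100 * q ^ 2 * k₀ ^ 2 - 1} with hA3
  have hsub : {y : ℝ × (Fin m → ℝ × ℝ) | s * P.F q (y.1, moved I κ y.2) ≤ t₀} ⊆ A1 ∪ A2 ∪ A3 := by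
    intro y hy
    by_contra hcon
    simp only [mem_union, not_or] at hcon
    obtain ⟨⟨h1, h2⟩, h3⟩ := hcon
    have h1' : -L < s * y.1 := not_le.1 h1
    have h2' : |P.theta q fun i => (y.2 i).1| < 1 := not_le.1 h2
    have h3' : 11 / 100 * q ^ 2 * k₀ ^ 2 - 1 < s * (P.theta q (moved I κ y.2) -
      P.theta q fun i => (y.2 i).1) := not_le.1 h3
    have hy' : s * P.F q (y.1, moved I κ y.2) ≤ t₀ := hy
    have h4 : -1 < s * P.theta q fun i => (y.2 i).1 := by
      rw [abs_lt] at h2'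
      rcases hs with rfl | rfl
      · linarith [h2'.1]
      · linarith [h2'.2]
    unfold Par.F at hy'
    simp only at hy'
    nlinarith
  have hAm1 : MeasurableSet {x : ℝ | s * x ≤ -L} :=
    measurableSet_le (by fun_prop) measurable_const
  have hth := (P.theta_cont q).measurable
  have e1 : (nuM.prod (pmM m)).real A1 ≤ Real.exp (-L ^ 2) := by
    have h := (measurePreserving_fst (μ := nuM) (ν := pmM m)).measure_preimage
      hAm1.nullMeasurableSet
    have h2 := F3_tail_sign s L hs hL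
    unfold Measure.real at h2 ⊢
    rw [← h] at h2
    exact h2
  have e2 : (nuM.prod (pmM m)).real A2 ≤ q ^ 4 := by
    have hms : MeasurableSet {a : Fin m → ℝ | 1 ≤ |P.theta q a|} :=
      measurableSet_le measurable_const (by fun_prop)
    have h := ((F3_fst m).comp (measurePreserving_snd (μ := nuM) (ν := pmM m))).measure_preimage
      hms.nullMeasurableSet
    have h2 := (theta_tail P q hq 1 one_pos).trans (F3_exp_bound q hq.1)
    unfold Measure.real at h2 ⊢
    rw [← h] at h2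
    exact h2
  have e3 : (nuM.prod (pmM m)).real A3 ≤ k₀ ^ 2 / P.r := by
    have hmv := F3_moved_meas I κ
    have hms : MeasurableSet {ω : Fin m → ℝ × ℝ | s * (P.theta q (moved I κ ω) -
        P.theta q fun i => (ω i).1) ≤ 11 / 100 * q ^ 2 * k₀ ^ 2 - 1} := by
      refine measurableSet_le ?_ measurable_const
      refine ((hth.comp hmv).sub (hth.comp ?_)).const_mul s
      fun_prop
    have h := (measurePreserving_snd (μ := nuM) (ν := pmM m)).measure_preimage
      hms.nullMeasurableSet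
    have h2 := increment P q hq s hs I hI k₀ hk hκ
    unfold Measure.real at h2 ⊢
    rw [← h] at h2
    exact h2
  calc (nuM.prod (pmM m)).real {y | s * P.F q (y.1, moved I κ y.2) ≤ t₀}
      ≤ (nuM.prod (pmM m)).real (A1 ∪ A2 ∪ A3) := measureReal_mono hsub
    _ ≤ (nuM.prod (pmM m)).real (A1 ∪ A2) + (nuM.prod (pmM m)).real A3 := measureReal_union_le _ _
    _ ≤ ((nuM.prod (pmM m)).real A1 + (nuM.prod (pmM m)).real A2) + (nuM.prod (pmM m)).real A3 := by
        gcongr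
        exact measureReal_union_le _ _
    _ ≤ _ := by linarith

/-- Part C-int for indicator functions -/
theorem F3_dom_set {M : ℕ} {q ζ : ℝ}
    (h : ∀ g : Eu (2 * M ^ 8 + 1) → ℝ≥0∞, Measurable g →
      ENNReal.ofReal (1 - ζ) * volume (dom M q) *
          ∫⁻ p in {p | |p.1| < (M : ℝ)}, g (phi M q p) ∂(mu (2 * M ^ 8)) ≤ ∫⁻ x in dom M q, g x ∧
      ∫⁻ x in dom M q, g x ≤ ENNReal.ofReal (1 + ζ) * volume (dom M q) *
          ∫⁻ p in {p | |p.1| < (M : ℝ)}, g (phi M q p) ∂(mu (2 * M ^ 8)))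
    (G : Set (Eu (2 * M ^ 8 + 1))) (hG : MeasurableSet G) :
    ENNReal.ofReal (1 - ζ) * volume (dom M q) *
        mu (2 * M ^ 8) {p | |p.1| < (M : ℝ) ∧ phi M q p ∈ G} ≤ volume (G ∩ dom M q) ∧
    volume (G ∩ dom M q) ≤ ENNReal.ofReal (1 + ζ) * volume (dom M q) *
        mu (2 * M ^ 8) {p | |p.1| < (M : ℝ) ∧ phi M q p ∈ G} := by
  have h1 := h (G.indicator fun _ => 1) (measurable_const.indicator hG)
  have hphi := (F3_phi_cont M q).measurable
  have e1 : ∫⁻ x in dom M q, G.indicator (fun _ => (1 : ℝ≥0∞)) x = volume (G ∩ dom M q) := by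
    rw [lintegral_indicator hG, lintegral_const, one_mul, Measure.restrict_apply MeasurableSet.univ,
      univ_inter, Measure.restrict_apply hG]
  have e2 : ∫⁻ p in {p : ℝ × (Fin (2 * M ^ 8) → ℝ) | |p.1| < (M : ℝ)},
      G.indicator (fun _ => (1 : ℝ≥0∞)) (phi M q p) ∂(mu (2 * M ^ 8)) =
        mu (2 * M ^ 8) {p | |p.1| < (M : ℝ) ∧ phi M q p ∈ G} := by
    have e3 : ∀ p : ℝ × (Fin (2 * M ^ 8) → ℝ), G.indicator (fun _ => (1 : ℝ≥0∞)) (phi M q p) =
        (phi M q ⁻¹' G).indicator (fun _ => (1 : ℝ≥0∞)) p := fun p => rfl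
    simp only [e3]
    rw [lintegral_indicator (hphi hG), lintegral_const, one_mul,
      Measure.restrict_apply MeasurableSet.univ, univ_inter, Measure.restrict_apply (hphi hG)]
    congr 1
    ext p
    exact and_comm
  rw [e1, e2] at h1
  exact h1

theorem F3_slab_meas (M m : ℕ) : MeasurableSet {p : ℝ × (Fin m → ℝ) | |p.1| < (M : ℝ)} :=
  measurableSet_lt (by fun_prop) measurable_const

/-- F : the hull step -/
theorem hull_step (t₀ L : ℝ) (ht : 0 < t₀) (hL : 0 < L) :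
    ∃ C₂ > 0, ∀ q ∈ Ioc (0 : ℝ) (1 / 2), ∀ ζ > 0, ∃ M₀ : ℕ, ∀ M (hM : 0 < M), M₀ ≤ M →
      ∀ E, MeasurableSet E → E ⊆ dom M q → ∀ t, |t| ≤ t₀ → ∀ H : Set ℝ, (H = Ioi t ∨ H = Iio t) →
      ∀ ε₁ ≥ 0,
      ∫⁻ p in {p | |p.1| < (M : ℝ)},
        ‖E.indicator (fun _ => (1 : ℝ)) (phi M q p) -
          H.indicator (fun _ => (1 : ℝ)) ((parM M hM).F q p)‖ₑ ∂(mu (2 * M ^ 8)) ≤
            ENNReal.ofReal ε₁ →
      ENNReal.ofReal (1 - (2 * Real.exp (C₂ / q ^ 4) * Real.sqrt ε₁ + 2 * Real.exp (-L ^ 2) +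
        2 * q ^ 4 + ζ)) * volume (dom M q) ≤ volume (hull (dom M q) E) := by
  set a₂ : ℝ := (t₀ + L + 2) / (11 / 100) with ha₂
  have ha₂0 : 0 < a₂ := by positivity
  refine ⟨400 * a₂ ^ 2, by positivity, fun q hq ζ hζ => ?_⟩
  have hq0 : 0 < q := hq.1
  set k₀ : ℝ := Real.sqrt a₂ / q with hk₀
  have hk0 : 0 ≤ k₀ := by positivity
  have hk2 : k₀ ^ 2 = a₂ / q ^ 2 := by
    rw [hk₀, div_pow, Real.sq_sqrt ha₂0.le]
  have hk4 : k₀ ^ 4 = a₂ ^ 2 / q ^ 4 := by
    have h1 : k₀ ^ 4 = (k₀ ^ 2) ^ 2 := by ring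
    rw [h1, hk2, div_pow]
    congr 1
    ring
  set ζ' : ℝ := min (ζ / 2) (1 / 2) with hζ'
  have hζ'0 : 0 < ζ' := by positivity
  have hζ'1 : ζ' ≤ 1 / 2 := min_le_right _ _
  have hζ'2 : ζ' ≤ ζ / 2 := min_le_left _ _
  obtain ⟨M1, hM1⟩ := lintegral_dom q hq ζ' hζ'0
  obtain ⟨M2, hM2⟩ := exists_nat_gt (max (8 * k₀) (4 * k₀ ^ 2 / ζ))
  refine ⟨max M1 M2, fun M hM hMM E hE hEd t htt H hH ε₁ hε₁ hint => ?_⟩
  have hMM1 : M1 ≤ M := (le_max_left _ _).trans hMM
  have hMM2 : (M2 : ℝ) ≤ M := by exact_mod_cast (le_max_right _ _).trans hMM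
  have hMone : (1 : ℝ) ≤ M := by exact_mod_cast hM
  have hMk : 8 * k₀ ≤ M := ((le_max_left _ _).trans hM2.le).trans hMM2
  have hMz : 4 * k₀ ^ 2 / ζ ≤ M := ((le_max_right _ _).trans hM2.le).trans hMM2
  set P := parM M hM with hP
  have hPr : P.r = (M : ℝ) ^ 4 := rfl
  have hr0 : 0 < P.r := P.r_pos
  have hsq : Real.sqrt P.r = (M : ℝ) ^ 2 := by
    rw [hPr, show (M : ℝ) ^ 4 = ((M : ℝ) ^ 2) ^ 2 by ring, Real.sqrt_sq (by positivity)]
  have hM2' : (M : ℝ) ≤ (M : ℝ) ^ 2 := by nlinarith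
  have hM4 : (M : ℝ) ≤ (M : ℝ) ^ 4 := by nlinarith [sq_nonneg ((M : ℝ) ^ 2 - 1)]
  set κ := k₀ / Real.sqrt P.r with hκdef
  have hκ8 : κ ≤ 1 / 8 := by
    rw [hκdef, hsq, div_le_iff₀ (by positivity)]
    linarith
  have hκ0 : 0 ≤ κ := by positivity
  have hkr : 2 * (k₀ ^ 2 / P.r) ≤ ζ / 2 := by
    rw [hPr]
    have h1 : k₀ ^ 2 / (M : ℝ) ^ 4 ≤ k₀ ^ 2 / M :=
      div_le_div_of_nonneg_left (sq_nonneg _) (by linarith) hM4
    have h2 : k₀ ^ 2 / M ≤ ζ / 4 := by
      rw [div_le_iff₀ (by linarith)]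
      rw [div_le_iff₀ hζ] at hMz
      linarith
    linarith
  -- unify the two kinds of half lines
  obtain ⟨s, hs, hHs⟩ : ∃ s : ℝ, (s = 1 ∨ s = -1) ∧ ∀ u, u ∈ H ↔ s * t < s * u := by
    rcases hH with rfl | rfl
    · exact ⟨1, Or.inl rfl, fun u => by simp⟩
    · exact ⟨-1, Or.inr rfl, fun u => by simp⟩
  have hHm : MeasurableSet H := by
    rcases hH with rfl | rfl
    · exact measurableSet_Ioi
    · exact measurableSet_Iio
  classical
  set I : Finset (Fin (2 * M ^ 8)) := Finset.univ.filter (fun i => P.σ i = s) with hIdef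
  have hI : ∀ i, i ∈ I ↔ P.σ i = s := fun i => by simp [hIdef]
  have hIc : (I.card : ℝ) ≤ 2 * P.r ^ 2 := by
    rw [← P.hm]
    have : I.card ≤ Fintype.card (Fin (2 * M ^ 8)) := Finset.card_le_univ I
    rw [Fintype.card_fin] at this
    exact_mod_cast this
  have hexp : 200 * κ ^ 4 * I.card ≤ 400 * a₂ ^ 2 / q ^ 4 := by
    have h1 : κ ^ 4 = k₀ ^ 4 / P.r ^ 2 := by
      rw [hκdef, div_pow]
      congr 1
      rw [show (Real.sqrt P.r) ^ 4 = ((Real.sqrt P.r) ^ 2) ^ 2 by ring, Real.sq_sqrt hr0.le]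
    calc 200 * κ ^ 4 * I.card ≤ 200 * κ ^ 4 * (2 * P.r ^ 2) := by gcongr
      _ = 400 * k₀ ^ 4 := by rw [h1]; field_simp; ring
      _ = 400 * a₂ ^ 2 / q ^ 4 := by rw [hk4]; ring
  set X : ℝ := Real.exp (400 * a₂ ^ 2 / q ^ 4) * Real.sqrt ε₁ with hX
  have hX0 : 0 ≤ X := by positivity
  have hphi := (F3_phi_cont M q).measurable
  have hset := fun G hG => F3_dom_set (hM1 M hMM1) G hG
  set V := volume (dom M q) with hV
  have hV0 : V ≠ 0 := ((dom_isOpen M q).measure_pos volume ⟨0, zero_mem_dom M hM q hq⟩).ne'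
  have hVtop : V ≠ ⊤ := ((dom_bounded M q).measure_lt_top).ne
  have hnull : ∀ Z, MeasurableSet Z → volume Z = 0 →
      mu (2 * M ^ 8) {p | |p.1| < (M : ℝ) ∧ phi M q p ∈ Z} = 0 := by
    intro Z hZ hZ0
    have h1 := (hset Z hZ).1
    rw [measure_mono_null inter_subset_left hZ0] at h1
    have h2 : ENNReal.ofReal (1 - ζ') * V ≠ 0 := by
      refine mul_ne_zero ?_ hV0
      rw [Ne, ENNReal.ofReal_eq_zero, not_le]
      linarith
    have h3 := le_antisymm h1 zero_le
    rcases mul_eq_zero.1 h3 with h4 | h4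
    · exact absurd h4 h2
    · exact h4
  -- the full measure part of `E`
  set Z := toMeasurable volume (E \ canon (dom M q) E) with hZdef
  have hZm : MeasurableSet Z := measurableSet_toMeasurable _ _
  have hZ0 : volume Z = 0 := by
    rw [hZdef, measure_toMeasurable]
    exact F3_canon _ _ hE hEd
  have hEZ : E \ Z ⊆ canon (dom M q) E := by
    intro x hx
    by_contra hc
    exact hx.2 (subset_toMeasurable _ _ ⟨hx.1, hc⟩)
  set K := hull (dom M q) E with hK
  have hKc : Convex ℝ K := convex_convexHull ℝ _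
  set ν := nuM.prod (pmM (2 * M ^ 8)) with hν
  set B1 : Set (ℝ × (Fin (2 * M ^ 8) → ℝ)) := {p | |p.1| < (M : ℝ) ∧ phi M q p ∈ Z} with hB1
  set B2 : Set (ℝ × (Fin (2 * M ^ 8) → ℝ)) :=
    {p | |p.1| < (M : ℝ) ∧ phi M q p ∉ E ∧ P.F q p ∈ H} with hB2
  have hB1m : MeasurableSet B1 := (F3_slab_meas M _).inter (hphi hZm)
  have hB2m : MeasurableSet B2 := (F3_slab_meas M _).inter
    (((hphi hE).compl).inter ((P.F_cont q).measurable hHm))
  have hB1mu : (mu (2 * M ^ 8)).real B1 = 0 := by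
    unfold Measure.real
    rw [hnull Z hZm hZ0, ENNReal.toReal_zero]
  have hB2mu : (mu (2 * M ^ 8)).real B2 ≤ ε₁ := by
    have h1 : mu (2 * M ^ 8) B2 ≤ ENNReal.ofReal ε₁ := by
      refine le_trans ?_ hint
      calc mu (2 * M ^ 8) B2 = ∫⁻ p in B2, 1 ∂(mu (2 * M ^ 8)) := by
            rw [lintegral_const, one_mul, Measure.restrict_apply MeasurableSet.univ, univ_inter]
        _ ≤ ∫⁻ p in B2, ‖E.indicator (fun _ => (1 : ℝ)) (phi M q p) -
              H.indicator (fun _ => (1 : ℝ)) (P.F q p)‖ₑ ∂(mu (2 * M ^ 8)) := by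
            refine setLIntegral_mono' hB2m fun p hp => ?_
            rw [indicator_of_notMem hp.2.1, indicator_of_mem hp.2.2]
            simp
        _ ≤ _ := lintegral_mono_set fun p hp => hp.1
    exact ENNReal.toReal_le_of_le_ofReal hε₁ h1
  set Bad : Set (ℝ × (Fin (2 * M ^ 8) → ℝ × ℝ)) :=
    {y | |y.1| < (M : ℝ) ∧ phi M q (y.1, moved I κ y.2) ∉ E \ Z} with hBad
  have hmvm : Measurable fun y : ℝ × (Fin (2 * M ^ 8) → ℝ × ℝ) => (y.1, moved I κ y.2) :=
    measurable_fst.prodMk ((F3_moved_meas I κ).comp measurable_snd)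
  have hslab2 : MeasurableSet {y : ℝ × (Fin (2 * M ^ 8) → ℝ × ℝ) | |y.1| < (M : ℝ)} :=
    measurableSet_lt (by fun_prop) measurable_const
  have hBadm : MeasurableSet Bad := hslab2.inter
    ((hphi.comp hmvm) (hE.diff hZm).compl)
  have hBad1 : ν.real Bad ≤ X + (Real.exp (-L ^ 2) + q ^ 4 + k₀ ^ 2 / P.r) := by
    have hsub : Bad ⊆ {y | (y.1, moved I κ y.2) ∈ B1} ∪ {y | (y.1, moved I κ y.2) ∈ B2} ∪
        {y | s * P.F q (y.1, moved I κ y.2) ≤ t₀} := by
      intro y hy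
      by_cases h1 : phi M q (y.1, moved I κ y.2) ∈ Z
      · exact Or.inl (Or.inl ⟨hy.1, h1⟩)
      · have h2 : phi M q (y.1, moved I κ y.2) ∉ E := fun h => hy.2 ⟨h, h1⟩
        by_cases h3 : P.F q (y.1, moved I κ y.2) ∈ H
        · exact Or.inl (Or.inr ⟨hy.1, h2, h3⟩)
        · refine Or.inr ?_
          rw [hHs, not_lt] at h3
          refine h3.trans ?_
          have h4 : s * t ≤ |t| := by
            rcases hs with rfl | rfl
            · simpa using le_abs_self t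
            · simpa using neg_le_abs t
          exact h4.trans htt
    have l1 := moved_law I κ ⟨hκ0, hκ8⟩ B1 hB1m
    have l2 := moved_law I κ ⟨hκ0, hκ8⟩ B2 hB2m
    have l3 := F3_prob P q hq t₀ L k₀ hL s hs I hI hk0 hκ8 (by
      have : 11 / 100 * q ^ 2 * k₀ ^ 2 = t₀ + L + 2 := by
        rw [hk2, ha₂]; field_simp
      rw [this])
    rw [hB1mu, Real.sqrt_zero, mul_zero] at l1
    have l2' : Real.exp (200 * κ ^ 4 * I.card) * Real.sqrt ((mu (2 * M ^ 8)).real B2) ≤ X := by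
      rw [hX]
      exact mul_le_mul (Real.exp_le_exp.2 hexp) (Real.sqrt_le_sqrt hB2mu) (Real.sqrt_nonneg _)
        (Real.exp_nonneg _)
    calc ν.real Bad ≤ ν.real ({y | (y.1, moved I κ y.2) ∈ B1} ∪ {y | (y.1, moved I κ y.2) ∈ B2} ∪
        {y | s * P.F q (y.1, moved I κ y.2) ≤ t₀}) := measureReal_mono hsub
      _ ≤ ν.real ({y | (y.1, moved I κ y.2) ∈ B1} ∪ {y | (y.1, moved I κ y.2) ∈ B2}) +
          ν.real {y | s * P.F q (y.1, moved I κ y.2) ≤ t₀} := measureReal_union_le _ _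
      _ ≤ (ν.real {y | (y.1, moved I κ y.2) ∈ B1} + ν.real {y | (y.1, moved I κ y.2) ∈ B2}) +
          ν.real {y | s * P.F q (y.1, moved I κ y.2) ≤ t₀} := by
          gcongr
          exact measureReal_union_le _ _
      _ ≤ _ := by linarith
  set Bad' : Set (ℝ × (Fin (2 * M ^ 8) → ℝ × ℝ)) :=
    {y | |y.1| < (M : ℝ) ∧ phi M q (y.1, moved I (-κ) y.2) ∉ E \ Z} with hBad'
  have hBad2 : ν.real Bad' = ν.real Bad := by
    have hmp : MeasurePreserving (Prod.map (id : ℝ → ℝ)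
        (fun (ω : Fin (2 * M ^ 8) → ℝ × ℝ) (i : Fin (2 * M ^ 8)) => ((ω i).1, -(ω i).2))) ν ν :=
      (MeasurePreserving.id nuM).prod (F3_flip (2 * M ^ 8))
    have h := hmp.measure_preimage hBadm.nullMeasurableSet
    have h2 : Bad' = Prod.map (id : ℝ → ℝ)
        (fun (ω : Fin (2 * M ^ 8) → ℝ × ℝ) (i : Fin (2 * M ^ 8)) => ((ω i).1, -(ω i).2)) ⁻¹' Bad := by
      ext y
      simp only [hBad', hBad, mem_preimage, mem_ofPred_eq, Prod.map_fst, Prod.map_snd, id,
        F3_moved_flip]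
    unfold Measure.real
    rw [h2, h]
  -- the exceptional set of the model
  set G := (interior K)ᶜ with hG
  have hGm : MeasurableSet G := isOpen_interior.measurableSet.compl
  set S0 : Set (ℝ × (Fin (2 * M ^ 8) → ℝ)) := {p | |p.1| < (M : ℝ) ∧ phi M q p ∈ G} with hS0
  have hS0m : MeasurableSet S0 := (F3_slab_meas M _).inter (hphi hGm)
  set S1 : Set (ℝ × (Fin (2 * M ^ 8) → ℝ)) := {p | |p.1| < (M : ℝ) ∧ phi M q p ∈ frontier K} with hS1
  have hS1m : MeasurableSet S1 := (F3_slab_meas M _).inter (hphi isClosed_frontier.measurableSet)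
  have hS1z : mu (2 * M ^ 8) S1 = 0 :=
    hnull _ isClosed_frontier.measurableSet (hKc.addHaar_frontier volume)
  have hpr : MeasurePreserving (Prod.map (id : ℝ → ℝ)
      (fun (ω : Fin (2 * M ^ 8) → ℝ × ℝ) (i : Fin (2 * M ^ 8)) => (ω i).1)) ν (mu (2 * M ^ 8)) :=
    (MeasurePreserving.id nuM).prod (F3_fst (2 * M ^ 8))
  set T : ℝ := 2 * (X + (Real.exp (-L ^ 2) + q ^ 4 + k₀ ^ 2 / P.r)) with hT
  have hT0 : 0 ≤ T := by positivity
  have hS0T : mu (2 * M ^ 8) S0 ≤ ENNReal.ofReal T := by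
    have h1 : (mu (2 * M ^ 8)).real S0 ≤ T := by
      have h2 : (mu (2 * M ^ 8)).real S0 = ν.real (Prod.map (id : ℝ → ℝ)
          (fun (ω : Fin (2 * M ^ 8) → ℝ × ℝ) (i : Fin (2 * M ^ 8)) => (ω i).1) ⁻¹' S0) := by
        unfold Measure.real
        rw [hpr.measure_preimage hS0m.nullMeasurableSet]
      have h3 : ν.real (Prod.map (id : ℝ → ℝ)
          (fun (ω : Fin (2 * M ^ 8) → ℝ × ℝ) (i : Fin (2 * M ^ 8)) => (ω i).1) ⁻¹' S1) = 0 := by
        unfold Measure.real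
        rw [hpr.measure_preimage hS1m.nullMeasurableSet, hS1z, ENNReal.toReal_zero]
      have hsub : (Prod.map (id : ℝ → ℝ)
          (fun (ω : Fin (2 * M ^ 8) → ℝ × ℝ) (i : Fin (2 * M ^ 8)) => (ω i).1) ⁻¹' S0) ⊆
          (Prod.map (id : ℝ → ℝ)
          (fun (ω : Fin (2 * M ^ 8) → ℝ × ℝ) (i : Fin (2 * M ^ 8)) => (ω i).1) ⁻¹' S1) ∪
            Bad ∪ Bad' := by
        intro y hy
        have hy1 : |y.1| < (M : ℝ) := hy.1
        have hy2 : phi M q (y.1, fun i => (y.2 i).1) ∉ interior K := hy.2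
        by_cases h4 : phi M q (y.1, fun i => (y.2 i).1) ∈ K
        · refine Or.inl (Or.inl ⟨hy1, ?_⟩)
          exact ⟨subset_closure h4, hy2⟩
        · by_cases h5 : phi M q (y.1, moved I κ y.2) ∈ E \ Z
          · by_cases h6 : phi M q (y.1, moved I (-κ) y.2) ∈ E \ Z
            · exact absurd (F3_mem_hull M q E I κ y.1 y.2 (hEZ h5) (hEZ h6)) h4
            · exact Or.inr ⟨hy1, h6⟩
          · exact Or.inl (Or.inr ⟨hy1, h5⟩)
      rw [h2]
      calc _ ≤ ν.real ((Prod.map (id : ℝ → ℝ)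
          (fun (ω : Fin (2 * M ^ 8) → ℝ × ℝ) (i : Fin (2 * M ^ 8)) => (ω i).1) ⁻¹' S1) ∪
            Bad ∪ Bad') := measureReal_mono hsub
        _ ≤ ν.real ((Prod.map (id : ℝ → ℝ)
          (fun (ω : Fin (2 * M ^ 8) → ℝ × ℝ) (i : Fin (2 * M ^ 8)) => (ω i).1) ⁻¹' S1) ∪
            Bad) + ν.real Bad' := measureReal_union_le _ _
        _ ≤ (ν.real (Prod.map (id : ℝ → ℝ)
          (fun (ω : Fin (2 * M ^ 8) → ℝ × ℝ) (i : Fin (2 * M ^ 8)) => (ω i).1) ⁻¹' S1) +
            ν.real Bad) + ν.real Bad' := by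
            gcongr
            exact measureReal_union_le _ _
        _ ≤ T := by
            rw [h3, hBad2, hT]
            linarith
    rw [← ofReal_measureReal (measure_ne_top _ _)]
    exact ENNReal.ofReal_le_ofReal h1
  -- conclusion
  set T' : ℝ := 2 * Real.exp (400 * a₂ ^ 2 / q ^ 4) * Real.sqrt ε₁ + 2 * Real.exp (-L ^ 2) +
        2 * q ^ 4 + ζ with hT'
  have hTT' : T + ζ / 2 ≤ T' := by
    rw [hT, hT', hX]
    linarith
  by_cases hT1 : 1 ≤ T'
  · rw [ENNReal.ofReal_of_nonpos (by linarith), zero_mul]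
    exact zero_le
  push Not at hT1
  have hT'0 : 0 ≤ T' := by linarith
  have hbound : volume (G ∩ dom M q) ≤ ENNReal.ofReal T' * V := by
    refine ((hset G hGm).2).trans ?_
    calc ENNReal.ofReal (1 + ζ') * V * mu (2 * M ^ 8) S0
        ≤ ENNReal.ofReal (1 + ζ') * V * ENNReal.ofReal T := by gcongr
      _ = ENNReal.ofReal ((1 + ζ') * T) * V := by
          rw [ENNReal.ofReal_mul (p := 1 + ζ') (q := T) (by linarith), mul_right_comm]
      _ ≤ ENNReal.ofReal T' * V := by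
          gcongr
          have : ζ' * T ≤ ζ / 2 * 1 := mul_le_mul hζ'2 (by linarith) hT0 (by linarith)
          linarith
  have hcover : V ≤ volume K + ENNReal.ofReal T' * V := by
    calc V ≤ volume (K ∪ (G ∩ dom M q)) := by
          refine measure_mono fun x hx => ?_
          by_cases h : x ∈ interior K
          · exact Or.inl (interior_subset h)
          · exact Or.inr ⟨h, hx⟩
      _ ≤ volume K + volume (G ∩ dom M q) := measure_union_le _ _
      _ ≤ _ := by gcongr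
  have hsplit : ENNReal.ofReal (1 - T') * V + ENNReal.ofReal T' * V = V := by
    rw [← add_mul, ← ENNReal.ofReal_add (by linarith) hT'0]
    simp
  refine ENNReal.le_of_add_le_add_right (a := ENNReal.ofReal T' * V)
    (ENNReal.mul_ne_top ENNReal.ofReal_ne_top hVtop) ?_
  rw [hsplit]
  exact hcover

end IsoHull
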