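import Pool.Agent.IsoHull27.A3b
import Pool.Agent.IsoHull27.C1
import Pool.Agent.IsoHull27.C2
import Pool.Agent.IsoHull27.D1c
import Pool.Agent.IsoHull27.D5
import Pool.Agent.IsoHull27.Comp
import Pool.Agent.IsoHull27.F3
import Pool.Agent.IsoHull27.Basic

/-!
# IsoHull27: final assembly (MP_b478d8_an)
-/

open MeasureTheory Set Filter Topology
open scoped ENNReal NNReal

namespace IsoHull

/-- choice of `q` -/
theorem exists_q (C₁ C₂ D ε q₀ : ℝ) (hC₁ : 0 < C₁) (hD : C₂ + 1 ≤ D ^ 2) (hC₂ : 0 < C₂)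
    (hε : 0 < ε) (hq₀ : 0 < q₀) :
    ∃ q ∈ Ioo 0 q₀, 2 * q ^ 4 ≤ ε / 8 ∧
      2 * Real.exp (C₂ / q ^ 4) * Real.sqrt (2 * C₁ * Real.sqrt (2 * Real.exp (-(9 * D ^ 2 / q ^ 4)))) ≤ ε / 8 := by
  have key : ∀ q : ℝ, 0 < q → Real.exp (C₂ / q ^ 4) *
      Real.sqrt (2 * C₁ * Real.sqrt (2 * Real.exp (-(9 * D ^ 2 / q ^ 4)))) ≤
      Real.sqrt (2 * C₁ * Real.sqrt 2) * Real.exp (-(1 / q ^ 4)) := by
    intro q hq
    have h1 : Real.sqrt (2 * Real.exp (-(9 * D ^ 2 / q ^ 4))) =
        Real.sqrt 2 * Real.exp (-(9 * D ^ 2 / (2 * q ^ 4))) := by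
      rw [Real.sqrt_mul (by norm_num)]
      congr 1
      rw [Real.sqrt_eq_iff_mul_self_eq (Real.exp_pos _).le (Real.exp_pos _).le, ← Real.exp_add]
      congr 1
      field_simp
      ring
    have h2 : Real.sqrt (2 * C₁ * (Real.sqrt 2 * Real.exp (-(9 * D ^ 2 / (2 * q ^ 4))))) =
        Real.sqrt (2 * C₁ * Real.sqrt 2) * Real.exp (-(9 * D ^ 2 / (4 * q ^ 4))) := by
      rw [← mul_assoc, Real.sqrt_mul (by positivity)]
      congr 1
      rw [Real.sqrt_eq_iff_mul_self_eq (Real.exp_pos _).le (Real.exp_pos _).le, ← Real.exp_add]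
      congr 1
      field_simp
      ring
    rw [h1, h2, mul_left_comm, ← Real.exp_add]
    apply mul_le_mul_of_nonneg_left _ (Real.sqrt_nonneg _)
    apply Real.exp_le_exp.2
    have hq4 : 0 < q ^ 4 := by positivity
    have e1 : C₂ / q ^ 4 + -(9 * D ^ 2 / (4 * q ^ 4)) = (C₂ - 9 * D ^ 2 / 4) / q ^ 4 := by
      field_simp
      ring
    rw [e1, ← neg_div, div_le_div_iff_of_pos_right hq4]
    nlinarith
  have hlim : Tendsto (fun q : ℝ => 2 * (Real.sqrt (2 * C₁ * Real.sqrt 2) * Real.exp (-(1 / q ^ 4))))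
      (𝓝[>] 0) (𝓝 0) := by
    have h1 : Tendsto (fun q : ℝ => 1 / q ^ 4) (𝓝[>] 0) atTop := by
      have := (tendsto_pow_atTop (α := ℝ) (n := 4) (by norm_num)).comp (tendsto_inv_nhdsGT_zero (𝕜 := ℝ))
      refine this.congr (fun x => ?_)
      simp [Function.comp]
    have h2 : Tendsto (fun q : ℝ => Real.exp (-(1 / q ^ 4))) (𝓝[>] 0) (𝓝 0) :=
      Real.tendsto_exp_neg_atTop_nhds_zero.comp h1
    simpa using (h2.const_mul (Real.sqrt (2 * C₁ * Real.sqrt 2))).const_mul 2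
  have hlim2 : Tendsto (fun q : ℝ => 2 * q ^ 4) (𝓝[>] 0) (𝓝 0) := by
    have : Tendsto (fun q : ℝ => 2 * q ^ 4) (𝓝 0) (𝓝 (2 * 0 ^ 4)) := by
      apply Continuous.tendsto; fun_prop
    simpa using this.mono_left nhdsWithin_le_nhds
  have e1 := hlim.eventually (gt_mem_nhds (show (0:ℝ) < ε / 8 by positivity))
  have e2 := hlim2.eventually (gt_mem_nhds (show (0:ℝ) < ε / 8 by positivity))
  have e3 : ∀ᶠ q : ℝ in 𝓝[>] 0, q ∈ Ioo 0 q₀ := Ioo_mem_nhdsGT hq₀
  obtain ⟨q, h1, h2, h3⟩ := (e1.and (e2.and e3)).exists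
  refine ⟨q, h3, h2.le, ?_⟩
  rw [mul_assoc]
  have := key q h3.1
  linarith [mul_le_mul_of_nonneg_left this (show (0:ℝ) ≤ 2 by norm_num)]


/-- elementary numerical facts used in the final assembly -/
theorem num_mean {η a I v : ℝ} (hη : 0 < η) (hη4 : η ≤ 1 / 4) (ha : 0 ≤ a) (ha1 : a ≤ 1) (hv : 0 < v)
    (X : ℝ) (h1 : (1 - η) * v * I ≤ X) (h2 : X ≤ (1 + η) * v * I) (h3 : |X - a * v| ≤ η * v) :
    |I - a| ≤ 4 * η := by
  have h3' := abs_le.1 h3
  have e1 : (1 - η) * I ≤ a + η := by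
    have : v * ((1 - η) * I) ≤ v * (a + η) := by nlinarith
    exact le_of_mul_le_mul_left this hv
  have e2 : a - η ≤ (1 + η) * I := by
    have : v * (a - η) ≤ v * ((1 + η) * I) := by nlinarith
    exact le_of_mul_le_mul_left this hv
  rw [abs_le]
  constructor
  · by_contra hcon
    push Not at hcon
    nlinarith
  · by_contra hcon
    push Not at hcon
    nlinarith

/-- There are bounded open convex sets (in high dimension) all of whose isoperimetric sets of volume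
fraction `α` have almost full convex hull. -/
theorem main (α : ℝ) (hα : α ∈ Ioo (0 : ℝ) 1) (ε : ℝ) (hε : 0 < ε) :
    ∃ n : ℕ, 1 ≤ n ∧ ∃ Ω : Set (Eu n), IsOpen Ω ∧ Convex ℝ Ω ∧ Bornology.IsBounded Ω ∧ Ω.Nonempty ∧
      (∃ E, IsIsop Ω α E) ∧ ∀ E, IsIsop Ω α E →
        relPer Ω E < ⊤ ∧ ENNReal.ofReal (1 - ε) * volume Ω ≤ volume (hull Ω E) := by
  obtain ⟨hα0, hα1⟩ := hα
  set α₀ : ℝ := min α (1 - α) / 2 with hα₀def
  have hα₀ : 0 < α₀ := by
    have : 0 < min α (1 - α) := lt_min hα0 (by linarith)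
    positivity
  have hαmem : α ∈ Icc (2 * α₀) (1 - 2 * α₀) := by
    constructor
    · have := min_le_left α (1 - α); rw [hα₀def]; linarith
    · have := min_le_right α (1 - α); rw [hα₀def]; linarith
  obtain ⟨t₀, C₁, ht₀, hC₁, hst⟩ := stability α₀ hα₀
  -- choice of L
  obtain ⟨L, hL0, hLe⟩ : ∃ L : ℝ, 0 < L ∧ 2 * Real.exp (-L ^ 2) ≤ ε / 8 := by
    have h1 : Tendsto (fun L : ℝ => 2 * Real.exp (-L ^ 2)) atTop (𝓝 (2 * 0)) := by
      apply Tendsto.const_mul
      have h2 : Tendsto (fun L : ℝ => L ^ 2) atTop atTop := tendsto_pow_atTop (by norm_num)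
      exact Real.tendsto_exp_neg_atTop_nhds_zero.comp h2
    rw [mul_zero] at h1
    have e1 := h1.eventually (gt_mem_nhds (show (0:ℝ) < ε / 8 by positivity))
    obtain ⟨L, h2, h3⟩ := (e1.and (eventually_gt_atTop 0)).exists
    exact ⟨L, h3, h2.le⟩
  obtain ⟨C₂, hC₂, hhull⟩ := hull_step t₀ L ht₀ hL0
  set D : ℝ := max 1 (Real.sqrt (C₂ + 1)) with hDdef
  have hD1 : 1 ≤ D := le_max_left _ _
  have hD2 : C₂ + 1 ≤ D ^ 2 := by
    have h1 : Real.sqrt (C₂ + 1) ≤ D := le_max_right _ _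
    calc C₂ + 1 = Real.sqrt (C₂ + 1) ^ 2 := (Real.sq_sqrt (by linarith)).symm
      _ ≤ D ^ 2 := by gcongr
  obtain ⟨q₀, hq₀, hst⟩ := hst D hD1
  obtain ⟨q, hq, hq4, hqe⟩ := exists_q C₁ C₂ D ε q₀ hC₁ hD2 hC₂ hε hq₀.1
  have hq' : q ∈ Ioc (0 : ℝ) (1 / 2) := ⟨hq.1, hq.2.le.trans hq₀.2⟩
  set ζ : ℝ := Real.exp (-(9 * D ^ 2 / q ^ 4)) with hζdef
  have hζ : 0 < ζ := Real.exp_pos _
  obtain ⟨ζ', hζ', M₁, hst⟩ := hst q hq ζ hζ
  have hsum : Real.exp (-(9 * D ^ 2 / q ^ 4)) + ζ = 2 * Real.exp (-(9 * D ^ 2 / q ^ 4)) := by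
    rw [hζdef]; ring
  set s₁ : ℝ := C₁ * Real.sqrt (2 * Real.exp (-(9 * D ^ 2 / q ^ 4))) with hs₁def
  have hs₁ : 0 < s₁ := by
    have : 0 < Real.sqrt (2 * Real.exp (-(9 * D ^ 2 / q ^ 4))) := Real.sqrt_pos.2 (by positivity)
    positivity
  obtain ⟨M₂, hhull⟩ := hhull q hq' (ε / 8) (by positivity)
  -- the small parameter
  set η : ℝ := min (1 / 4) (min (ζ' / 14) (s₁ / 2)) with hηdef
  have hη : 0 < η := by
    apply lt_min (by norm_num) (lt_min (by positivity) (by positivity))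
  have hη4 : η ≤ 1 / 4 := min_le_left _ _
  have hηζ : 14 * η ≤ ζ' := by
    have : η ≤ ζ' / 14 := (min_le_right _ _).trans (min_le_left _ _)
    linarith
  have hηs : 2 * η ≤ s₁ := by
    have : η ≤ s₁ / 2 := (min_le_right _ _).trans (min_le_right _ _)
    linarith
  obtain ⟨M₃, hint⟩ := lintegral_dom q hq' η hη
  obtain ⟨M₄, hgrad⟩ := grad_comp η hη
  obtain ⟨M₅, hcomp⟩ := competitor α ⟨hα0, hα1⟩ q hq' η hη
  -- choice of M
  set M : ℕ := 1 + M₁ + M₂ + M₃ + M₄ + M₅ with hMdef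
  have hM : 0 < M := by omega
  have hst := hst M hM (by omega)
  have hhull := hhull M hM (by omega)
  have hint := hint M (by omega)
  have hgrad := hgrad M hM (by omega) q hq'
  have hcomp := hcomp M hM (by omega)
  set P := parM M hM with hP
  set Ω := dom M q with hΩdef
  have hΩo : IsOpen Ω := dom_isOpen M q
  have hΩc : Convex ℝ Ω := dom_convex M q
  have hΩb : Bornology.IsBounded Ω := dom_bounded M q
  have hΩ0 : (0 : Eu (2 * M ^ 8 + 1)) ∈ Ω := zero_mem_dom M hM q hq'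
  have hvpos : volume Ω ≠ 0 := (hΩo.measure_pos volume ⟨0, hΩ0⟩).ne'
  have hvtop : volume Ω ≠ ⊤ := hΩb.measure_lt_top.ne
  refine ⟨2 * M ^ 8 + 1, by omega, Ω, hΩo, hΩc, hΩb, ⟨0, hΩ0⟩,
    exists_isop (by omega) hΩo hΩc hΩb hΩ0 α ⟨hα0, hα1⟩, fun E hE => ?_⟩
  obtain ⟨hEm, hEΩ, hEv, hEmin⟩ := hE
  -- threshold and competitor
  obtain ⟨c₀, hc₀⟩ := exists_threshold P q hq' α ⟨hα0, hα1⟩
  obtain ⟨E', hE'm, hE'Ω, hE'v, hE'p⟩ := hcomp c₀ hc₀
  have hper : relPer Ω E ≤ relPer Ω E' := hEmin E' hE'm hE'Ω (by rw [hE'v, hEv])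
  have hRV := RV_mem q hq'
  have hRVpos : 0 < RV q := lt_of_lt_of_le one_pos hRV.1
  have hw0 := w_nonneg P q hq' c₀
  have hw2 := w_le_two P q hq' c₀
  set v : ℝ := (volume Ω).toReal with hvdef
  have hv : 0 < v := ENNReal.toReal_pos hvpos hvtop
  have hvv : ENNReal.ofReal v = volume Ω := ENNReal.ofReal_toReal hvtop
  have hbound : ENNReal.ofReal (RV q) * relPer Ω E ≤ ENNReal.ofReal ((P.w q c₀ + η) * v) := by
    rw [ENNReal.ofReal_mul (by linarith), hvv]
    exact (mul_le_mul_right hper _).trans hE'p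
  have hfin : relPer Ω E ≠ ⊤ := by
    intro h
    rw [h, ENNReal.mul_top (by simpa using hRVpos)] at hbound
    exact ENNReal.ofReal_ne_top (top_le_iff.1 hbound)
  refine ⟨lt_top_iff_ne_top.2 hfin, ?_⟩
  obtain ⟨f, hf, hf01, hfL, hfE⟩ := exists_smooth_approx hΩo hΩc hΩb hΩ0 hEm hEΩ hfin (η * v) (by positivity)
  -- the function on the model space
  set g : ℝ × (Fin (2 * M ^ 8) → ℝ) → ℝ := fun p => f (phi M q p) with hgdef
  have hg : ContDiff ℝ 1 g := hf.comp (phi_contDiff M q)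
  have hg01 : ∀ p, g p ∈ Icc (0 : ℝ) 1 := fun p => hf01 _
  have hslab : MeasurableSet {p : ℝ × (Fin (2 * M ^ 8) → ℝ) | |p.1| < (M : ℝ)} :=
    measurableSet_lt (by fun_prop) measurable_const
  set sl : Set (ℝ × (Fin (2 * M ^ 8) → ℝ)) := {p | |p.1| < (M : ℝ)} with hsl
  set μ := mu (2 * M ^ 8) with hμ
  -- a general comparison
  have hcmp : ∀ h : Eu (2 * M ^ 8 + 1) → ℝ≥0∞, Measurable h → ∀ c : ℝ, 0 ≤ c →
      ∫⁻ x in Ω, h x ≤ ENNReal.ofReal (c * v) →
      ∫⁻ p in sl, h (phi M q p) ∂μ ≤ ENNReal.ofReal (c / (1 - η)) := by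
    intro h hh c hc hle
    have h1 := (hint h hh).1.trans hle
    have h2 : ENNReal.ofReal (1 - η) * volume Ω = ENNReal.ofReal ((1 - η) * v) := by
      rw [ENNReal.ofReal_mul (by linarith), hvv]
    rw [h2] at h1
    have h3 : ENNReal.ofReal (c * v) = ENNReal.ofReal ((1 - η) * v) * ENNReal.ofReal (c / (1 - η)) := by
      rw [← ENNReal.ofReal_mul (by nlinarith)]
      congr 1
      field_simp [(by linarith : (1 - η) ≠ 0)]
    rw [h3] at h1
    refine (ENNReal.mul_le_mul_iff_right ?_ ENNReal.ofReal_ne_top).1 h1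
    simp only [ne_eq, ENNReal.ofReal_eq_zero, not_le]
    nlinarith
  -- (1) closeness of `g` to the indicator of `E`
  have hindm : Measurable (E.indicator (fun _ => (1 : ℝ))) := measurable_const.indicator hEm
  have hA : ∫⁻ p in sl, ‖g p - E.indicator (fun _ => (1 : ℝ)) (phi M q p)‖ₑ ∂μ ≤
      ENNReal.ofReal (2 * η) := by
    have h1 := hcmp (fun x => ‖f x - E.indicator (fun _ => (1 : ℝ)) x‖ₑ)
      ((hf.continuous.measurable.sub hindm).enorm) η hη.le hfL
    refine h1.trans (ENNReal.ofReal_le_ofReal ?_)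
    rw [div_le_iff₀ (by linarith)]
    nlinarith
  -- integrability of bounded continuous functions
  have hgint : IntegrableOn g sl μ := by
    refine Integrable.integrableOn ?_
    refine Integrable.of_bound hg.continuous.aestronglyMeasurable 1 (ae_of_all _ fun p => ?_)
    rw [Real.norm_of_nonneg (hg01 p).1]; exact (hg01 p).2
  -- (2) the mean
  have hB : |(∫ p in sl, g p ∂μ) - α| ≤ 4 * η := by
    have hfint : IntegrableOn f Ω volume := by
      refine Integrable.mono' (g := fun _ => (1 : ℝ)) ?_ hf.continuous.aestronglyMeasurable.restrict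
        (ae_of_all _ fun x => ?_)
      · exact integrableOn_const hvtop
      · rw [Real.norm_of_nonneg (hf01 x).1]; exact (hf01 x).2
    have hlin : ∫⁻ x in Ω, ENNReal.ofReal (f x) = ENNReal.ofReal (∫ x in Ω, f x) :=
      (ofReal_integral_eq_lintegral_ofReal hfint (ae_of_all _ fun x => (hf01 x).1)).symm
    have hlin2 : ∫⁻ p in sl, ENNReal.ofReal (g p) ∂μ = ENNReal.ofReal (∫ p in sl, g p ∂μ) :=
      (ofReal_integral_eq_lintegral_ofReal hgint (ae_of_all _ fun x => (hg01 x).1)).symm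
    have h1 := hint (fun x => ENNReal.ofReal (f x)) hf.continuous.measurable.ennreal_ofReal
    have hI0 : 0 ≤ ∫ p in sl, g p ∂μ := integral_nonneg fun p => (hg01 p).1
    have hX0 : 0 ≤ ∫ x in Ω, f x := integral_nonneg fun p => (hf01 p).1
    rw [hlin] at h1
    have h1' : ∫⁻ p in sl, ENNReal.ofReal (f (phi M q p)) ∂μ = ENNReal.ofReal (∫ p in sl, g p ∂μ) := hlin2
    rw [h1', ← hvv] at h1
    rw [← ENNReal.ofReal_mul (by linarith), ← ENNReal.ofReal_mul (by nlinarith),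
      ← ENNReal.ofReal_mul (by linarith), ← ENNReal.ofReal_mul (by nlinarith)] at h1
    have h2 : (1 - η) * v * (∫ p in sl, g p ∂μ) ≤ ∫ x in Ω, f x := by
      have := (ENNReal.ofReal_le_ofReal_iff hX0).1 h1.1
      exact this
    have h3 : (∫ x in Ω, f x) ≤ (1 + η) * v * (∫ p in sl, g p ∂μ) :=
      (ENNReal.ofReal_le_ofReal_iff (by positivity)).1 h1.2
    refine num_mean hη hη4 hα0.le hα1.le hv _ h2 h3 ?_
    have h4 : α * v = ∫ x in Ω, E.indicator (fun _ => (1 : ℝ)) x := by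
      rw [integral_indicator hEm, Measure.restrict_restrict hEm, inter_eq_self_of_subset_left hEΩ,
        setIntegral_const, smul_eq_mul, mul_one, Measure.real, hEv, ENNReal.toReal_mul,
        ENNReal.toReal_ofReal hα0.le]
    have hEint : IntegrableOn (E.indicator (fun _ => (1 : ℝ))) Ω volume :=
      (integrableOn_const hvtop).indicator hEm
    rw [h4, ← integral_sub hfint hEint, ← Real.norm_eq_abs]
    refine (norm_integral_le_lintegral_norm _).trans ?_
    refine ENNReal.toReal_le_of_le_ofReal (by positivity) ?_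
    refine le_trans (le_of_eq ?_) hfL
    refine lintegral_congr fun x => ?_
    rw [ofReal_norm]
  -- (3) `g (1 - g)`
  have hC : ∫ p in sl, g p * (1 - g p) ∂μ ≤ 2 * η := by
    have h0 : ∀ p, 0 ≤ g p * (1 - g p) := fun p => mul_nonneg (hg01 p).1 (by linarith [(hg01 p).2])
    rw [integral_eq_lintegral_of_nonneg_ae (ae_of_all _ h0)
      (hg.continuous.mul (continuous_const.sub hg.continuous)).aestronglyMeasurable.restrict]
    refine ENNReal.toReal_le_of_le_ofReal (by positivity) (le_trans (lintegral_mono fun p => ?_) hA)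
    rw [← ofReal_norm]
    apply ENNReal.ofReal_le_ofReal
    have h1 := (hg01 p).1
    have h2 := (hg01 p).2
    rw [Real.norm_eq_abs]
    by_cases hp : phi M q p ∈ E
    · rw [indicator_of_mem hp, abs_sub_comm, abs_of_nonneg (by linarith)]; nlinarith
    · rw [indicator_of_notMem hp, sub_zero, abs_of_nonneg h1]; nlinarith
  -- (4) the energy
  have hgradm : Measurable (fun x => ‖fderiv ℝ f x‖ₑ) := (hf.continuous_fderiv (by norm_num)).enorm.measurable
  have hEn : ∫ p in sl, P.grad q g p ∂μ ≤ (1 + η) / (1 - η) * ((relPer Ω E).toReal / v + η) := by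
    rw [integral_eq_lintegral_of_nonneg_ae (ae_of_all _ fun p => P.grad_nonneg q g p)
      (P.grad_cont q hg).aestronglyMeasurable.restrict]
    have hpos : 0 ≤ (relPer Ω E).toReal / v + η := by positivity
    refine ENNReal.toReal_le_of_le_ofReal (by
      apply mul_nonneg _ hpos
      apply div_nonneg <;> linarith) ?_
    have h1 : ∫⁻ x in Ω, ‖fderiv ℝ f x‖ₑ ≤ ENNReal.ofReal (((relPer Ω E).toReal / v + η) * v) := by
      refine hfE.trans (le_of_eq ?_)
      rw [add_mul, div_mul_cancel₀ _ hv.ne', ENNReal.ofReal_add ENNReal.toReal_nonneg (by positivity),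
        ENNReal.ofReal_toReal hfin]
    have h2 := hcmp _ hgradm _ hpos h1
    calc ∫⁻ p in sl, ENNReal.ofReal (P.grad q g p) ∂μ
        ≤ ∫⁻ p in sl, ENNReal.ofReal (1 + η) * ‖fderiv ℝ f (phi M q p)‖ₑ ∂μ := by
          refine lintegral_mono_ae ?_
          filter_upwards [ae_restrict_mem hslab, ae_restrict_of_ae (mu_ae_mem (2 * M ^ 8))] with p hp hp2
          rw [← ofReal_norm, ← ENNReal.ofReal_mul (by linarith)]
          apply ENNReal.ofReal_le_ofReal
          exact (hgrad f p hp hp2 ((hf.differentiable (by norm_num)) _)).1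
      _ = ENNReal.ofReal (1 + η) * ∫⁻ p in sl, ‖fderiv ℝ f (phi M q p)‖ₑ ∂μ := by
          rw [lintegral_const_mul' _ _ ENNReal.ofReal_ne_top]
      _ ≤ ENNReal.ofReal (1 + η) * ENNReal.ofReal (((relPer Ω E).toReal / v + η) / (1 - η)) := by
          gcongr
      _ = _ := by
          rw [← ENNReal.ofReal_mul (by linarith)]
          congr 1
          ring
  have hRP : RV q * (relPer Ω E).toReal ≤ (P.w q c₀ + η) * v := by
    have h1 := ENNReal.toReal_mono ENNReal.ofReal_ne_top hbound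
    rwa [ENNReal.toReal_mul, ENNReal.toReal_ofReal hRVpos.le,
      ENNReal.toReal_ofReal (by positivity)] at h1
  have hEn2 : RV q * ∫ p in sl, P.grad q g p ∂μ ≤ P.w q c₀ + ζ' := by
    have h1 : RV q * ((relPer Ω E).toReal / v + η) ≤ P.w q c₀ + 3 * η := by
      have : RV q * ((relPer Ω E).toReal / v) ≤ P.w q c₀ + η := by
        rw [← mul_div_assoc, div_le_iff₀ hv]; exact hRP
      have h2 : RV q * η ≤ 2 * η := mul_le_mul_of_nonneg_right hRV.2 hη.le
      rw [mul_add]; linarith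
    have h3 : (1 + η) / (1 - η) ≤ 1 + 4 * η := by
      rw [div_le_iff₀ (by linarith)]; nlinarith
    have h4 : 0 ≤ RV q * ((relPer Ω E).toReal / v + η) := by positivity
    calc RV q * ∫ p in sl, P.grad q g p ∂μ
        ≤ RV q * ((1 + η) / (1 - η) * ((relPer Ω E).toReal / v + η)) :=
          mul_le_mul_of_nonneg_left hEn hRVpos.le
      _ = (1 + η) / (1 - η) * (RV q * ((relPer Ω E).toReal / v + η)) := by ring
      _ ≤ (1 + 4 * η) * (P.w q c₀ + 3 * η) := by
          apply mul_le_mul h3 h1 h4 (by linarith)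
      _ ≤ P.w q c₀ + 14 * η := by nlinarith
      _ ≤ P.w q c₀ + ζ' := by linarith
  -- apply stability
  obtain ⟨t, ht, H, hH, hclose⟩ := hst g hg hg01 c₀ (by rw [hc₀]; exact hαmem)
    (by rw [hc₀]; exact hB.trans (by linarith)) (hC.trans (by linarith)) hEn2
  rw [hsum] at hclose
  have hHm : MeasurableSet H := by rcases hH with rfl | rfl; exacts [measurableSet_Ioi, measurableSet_Iio]
  have hHind : Measurable (fun p : ℝ × (Fin (2 * M ^ 8) → ℝ) =>
      H.indicator (fun _ => (1 : ℝ)) (P.F q p)) :=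
    (measurable_const.indicator hHm).comp (P.F_cont q).measurable
  have hclose2 : ∫⁻ p in sl, ‖E.indicator (fun _ => (1 : ℝ)) (phi M q p) -
      H.indicator (fun _ => (1 : ℝ)) (P.F q p)‖ₑ ∂μ ≤ ENNReal.ofReal (2 * s₁) := by
    have h1 : ∫⁻ p in sl, ‖g p - H.indicator (fun _ => (1 : ℝ)) (P.F q p)‖ₑ ∂μ ≤ ENNReal.ofReal s₁ := by
      have hmeas : AEStronglyMeasurable (fun p => g p - H.indicator (fun _ => (1 : ℝ)) (P.F q p))
          (μ.restrict sl) := (hg.continuous.measurable.sub hHind).aestronglyMeasurable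
      have hint' : Integrable (fun p => g p - H.indicator (fun _ => (1 : ℝ)) (P.F q p)) (μ.restrict sl) := by
        refine Integrable.of_bound hmeas 2 (ae_of_all _ fun p => ?_)
        have h1 := (hg01 p).1
        have h2 := (hg01 p).2
        have h3 : H.indicator (fun _ => (1 : ℝ)) (P.F q p) ∈ Icc (0 : ℝ) 1 := by
          by_cases hp : P.F q p ∈ H
          · rw [indicator_of_mem hp]; simp
          · rw [indicator_of_notMem hp]; simp
        rw [Real.norm_eq_abs, abs_le]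
        constructor <;> linarith [h3.1, h3.2]
      rw [← ofReal_integral_norm_eq_lintegral_enorm hint']
      apply ENNReal.ofReal_le_ofReal
      rw [hs₁def]
      simpa only [Real.norm_eq_abs] using hclose
    have hm2 : Measurable (fun p => ‖g p - H.indicator (fun _ => (1 : ℝ)) (P.F q p)‖ₑ) :=
      (hg.continuous.measurable.sub hHind).enorm
    calc ∫⁻ p in sl, ‖E.indicator (fun _ => (1 : ℝ)) (phi M q p) -
            H.indicator (fun _ => (1 : ℝ)) (P.F q p)‖ₑ ∂μ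
        ≤ ∫⁻ p in sl, (‖g p - E.indicator (fun _ => (1 : ℝ)) (phi M q p)‖ₑ +
            ‖g p - H.indicator (fun _ => (1 : ℝ)) (P.F q p)‖ₑ) ∂μ := by
          refine lintegral_mono fun p => ?_
          have : E.indicator (fun _ => (1 : ℝ)) (phi M q p) - H.indicator (fun _ => (1 : ℝ)) (P.F q p) =
            -(g p - E.indicator (fun _ => (1 : ℝ)) (phi M q p)) +
              (g p - H.indicator (fun _ => (1 : ℝ)) (P.F q p)) := by ring
          rw [this]
          refine (enorm_add_le _ _).trans ?_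
          rw [enorm_neg]
      _ = (∫⁻ p in sl, ‖g p - E.indicator (fun _ => (1 : ℝ)) (phi M q p)‖ₑ ∂μ) +
            ∫⁻ p in sl, ‖g p - H.indicator (fun _ => (1 : ℝ)) (P.F q p)‖ₑ ∂μ := by
          rw [lintegral_add_right _ hm2]
      _ ≤ ENNReal.ofReal (2 * η) + ENNReal.ofReal s₁ := add_le_add hA h1
      _ = ENNReal.ofReal (2 * η + s₁) := (ENNReal.ofReal_add (by positivity) hs₁.le).symm
      _ ≤ ENNReal.ofReal (2 * s₁) := ENNReal.ofReal_le_ofReal (by linarith)
  have hfinal := hhull E hEm hEΩ t ht H hH (2 * s₁) (by positivity) hclose2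
  refine le_trans (mul_le_mul_left ?_ _) hfinal
  apply ENNReal.ofReal_le_ofReal
  have e1 : 2 * Real.exp (C₂ / q ^ 4) * Real.sqrt (2 * s₁) ≤ ε / 8 := by
    have : 2 * s₁ = 2 * C₁ * Real.sqrt (2 * Real.exp (-(9 * D ^ 2 / q ^ 4))) := by rw [hs₁def]; ring
    rw [this]; exact hqe
  linarith

end IsoHull
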